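import Mathlib
import Pool.Agent.MP_494aff_an.se.Dim
import Pool.Agent.MP_494aff_an.lf.Scale

-- ======== part 0: formerly Pool.Agent.MP_494aff_an.fr.Loop
section MrgPart0

-- ======== part 0: formerly Pool.Agent.MP_494aff_an.fr.Defs
section MrgPart0

/-! Skeletons of band systems, and the facts about the group that are used after the machine. -/

namespace Pool.Agent.MP_494aff_an.Fr

open Pool.Agent.MP_494aff_an.Pinch Pool.Agent.MP_494aff_an.Pinch.TowP Pool.Agent.MP_494aff_an.Lf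
open Pool.Agent.MP_494aff_an.Se

/-- Homomorphisms to the free group that are nontrivial on a given finite set. -/
def Disc (G : Type) [Group G] : Prop :=
  ∀ Q : Finset G, (∀ q ∈ Q, q ≠ 1) → ∃ φ : G →* F2, ∀ q ∈ Q, φ q ≠ 1

/-- A finite part of the multiplication table determines the homomorphisms. -/
def Det (G : Type) [Group G] : Prop :=
  ∃ S : Finset G, Subgroup.closure (S : Set G) = ⊤ ∧ ∀ ψ : G → F2,
    (∀ s ∈ S, ∀ s' ∈ S, s * s' ∈ S → ψ (s * s') = ψ s * ψ s') →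
      ∃ Ψ : G →* F2, ∀ s ∈ S, Ψ s = ψ s

def DetStmt : Prop :=
  ∀ (G : Type) [Group G] (U : Ultrafilter ℕ) (φ : G → ℕ → F2), Group.FG G → Rep U φ →
    Det G ∧ Disc G

/-- The action on the classes of points joined by lines. -/
structure Env (G Ω : Type) [Group G] [MulAction G Ω] : Prop where
  ct : CT G
  abfg : AbFG G
  disc : Disc G
  uniq : ∀ (g : G) (a b : Ω), g ≠ 1 → g • a = a → g • b = b → a = b
  serre : ∀ (x y : G) (a b c : Ω), x ≠ 1 → y ≠ 1 → x • a = a → y • b = b → (x * y) • c = c →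
    a = b
  flip : ∀ (x y m : G) (a b : Ω), x ≠ 1 → y ≠ 1 → x • a = a → y • b = b → x * y * m ^ 2 = 1 →
    a = b
  pth : PtH G Ω

/-- Components `J`, bands `B`, nodes `N`, steps `St`. -/
structure Skel (G Ω J B N St : Type) where
  c0 : B → J
  c1 : B → J
  γ : B → G
  bd : St → B
  n0 : St → N
  n1 : St → N
  cp : N → J
  ab : J → Prop
  qd : B → Prop
  aB : B → Prop
  ωN : N → Ω
  ωJ : J → Ω

structure Skel.Ok {G Ω J B N St : Type} [Group G] [MulAction G Ω] (K : Skel G Ω J B N St) :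
    Prop where
  ne : Nonempty J
  cp0 : ∀ σ, K.cp (K.n0 σ) = K.c0 (K.bd σ)
  cp1 : ∀ σ, K.cp (K.n1 σ) = K.c1 (K.bd σ)
  geo : ∀ σ, K.γ (K.bd σ) • K.ωN (K.n0 σ) = K.ωN (K.n1 σ)
  abN : ∀ p, K.ab (K.cp p) → K.ωN p = K.ωJ (K.cp p)
  abB : ∀ b, K.aB b → K.ab (K.c0 b) ∧ K.ab (K.c1 b) ∧ K.γ b • K.ωJ (K.c0 b) = K.ωJ (K.c1 b)
  qdB : ∀ b, K.qd b → ¬ K.ab (K.c0 b) ∧ ¬ K.ab (K.c1 b)
  pt : ∀ b, ¬ K.qd b → ¬ K.aB b → ∃! σ, K.bd σ = b
  twoB : ∀ b, K.qd b → {σ | K.bd σ = b}.ncard ≤ 2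
  twoN : ∀ p, {σ | K.qd (K.bd σ) ∧ K.n0 σ = p}.ncard + {σ | K.qd (K.bd σ) ∧ K.n1 σ = p}.ncard ≤ 2
  ext : ∀ v : B → F2,
    (∃ f : N → G → F2, ∀ σ g, f (K.n1 σ) (K.γ (K.bd σ) * g) = v (K.bd σ) * f (K.n0 σ) g) →
    ∃ (Ψ : G →* F2) (y : J → F2), ∀ b, v b = y (K.c1 b) * Ψ (K.γ b) * (y (K.c0 b))⁻¹
  con : ∀ X : J → G → Prop, (∀ b g, X (K.c0 b) g ↔ X (K.c1 b) (K.γ b * g)) →
    ∀ j g j' g', X j g → X j' g'

/-- The output of the machine. -/
def MachStmt : Prop :=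
  ∀ (G T Ω : Type) [Group G] [MetricSpace T] [MulAction G T] [MulAction G Ω] (Ln : Set (Set T))
    (π : T → Ω), Tr G Ln → Det G → (∀ (g : G) z, π (g • z) = g • π z) →
    (∀ A ∈ Ln, ∀ p ∈ A, ∀ q ∈ A, π p = π q) →
    ∃ (J B N St : Type) (_ : Fintype J) (_ : Fintype B) (_ : Fintype N) (_ : Fintype St)
      (K : Skel G Ω J B N St), K.Ok

/-- Products of large powers. -/
def BaumStmt : Prop :=
  ∀ (n : ℕ) (x b : ℕ → F2), (∀ i ≤ n, x i ≠ 1) →
    (∀ i < n, b (i + 1) * x (i + 1) * (b (i + 1))⁻¹ * x i ≠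
      x i * (b (i + 1) * x (i + 1) * (b (i + 1))⁻¹)) → ∀ b' : F2,
    ∃ K : ℕ, ∀ k : ℕ → ℤ, (∀ i ≤ n, K ≤ (k i).natAbs) →
      ((List.range (n + 1)).map fun i => b i * x i ^ k i).prod ≠ b'

/-- Generic elements. -/
def GenfStmt : Prop :=
  ∀ Q : Finset F2, (∀ q ∈ Q, q ≠ 1) → ∃ x : F2, x ≠ 1 ∧ ∀ q ∈ Q, Far x q

end Pool.Agent.MP_494aff_an.Fr

end MrgPart0

-- ======== part 1: formerly Pool.Agent.MP_494aff_an.fr.Spec
section MrgPart1

/-! Frames: from a skeleton to a graph of groups. -/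

namespace Pool.Agent.MP_494aff_an.Fr

open Pool.Agent.MP_494aff_an.Pinch Pool.Agent.MP_494aff_an.Pinch.TowP Pool.Agent.MP_494aff_an.Lf
open Pool.Agent.MP_494aff_an.Se

/-- Kinds of vertices: elliptic, pants, abelian. -/
inductive Kd
  | E
  | P
  | A

/-- Vertices `Vs` with a groupoid `E` (`E p q g` is an arrow from `q` to `p` with label `g`),
letters `Ls` from `s l` to `t l` with label `γ l`; the ends `En` carry an edge group. -/
structure Frm (G Ω I : Type) where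
  Vs : Finset I
  Ls : Finset I
  En : Finset I
  s : I → I
  t : I → I
  γ : I → G
  ce : I → G
  E : I → I → G → Prop
  kd : I → Kd
  ω : I → Ω

/-- A constant `(p, q, g)` or a signed letter. -/
abbrev Sym (G I : Type) : Type := (I × I × G) ⊕ (I × Bool)

/-- Cross caps, handles, boundary components (`true`: inner curve). -/
inductive Bl (G I : Type)
  | cr (m : I) (g : G)
  | hd (a b : I) (g h : G)
  | bd (k : Bool) (x v : I) (g c : G)

section Words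

variable {G I : Type}

/-- The value of a symbol. -/
def val (ψ : I → I → G → F2) (u : I → F2) : Sym G I → F2
  | Sum.inl a => ψ a.1 a.2.1 a.2.2
  | Sum.inr x => cond x.2 (u x.1) (u x.1)⁻¹

def wval (ψ : I → I → G → F2) (u : I → F2) (w : List (Sym G I)) : F2 := (w.map (val ψ u)).prod

/-- The letters of a word, with multiplicity. -/
def lets (w : List (Sym G I)) : List I :=
  w.filterMap (Sum.elim (fun _ => none) fun x => some x.1)

def Bl.val (ψ : I → I → G → F2) (u : I → F2) : Bl G I → F2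
  | .cr m _ => u m * u m
  | .hd a b _ _ => u a * u b * (u a)⁻¹ * (u b)⁻¹
  | .bd _ x v _ c => (u x)⁻¹ * ψ v v c * u x

def Bl.lab [Group G] : Bl G I → G
  | .cr _ g => g * g
  | .hd _ _ g h => g * h * g⁻¹ * h⁻¹
  | .bd _ _ _ g c => g⁻¹ * c * g

def Bl.lets : Bl G I → List I
  | .cr m _ => [m]
  | .hd a b _ _ => [a, b]
  | .bd _ x _ _ _ => [x]

/-- Handles. -/
def Bl.IsHd : Bl G I → Prop
  | .hd _ _ _ _ => True
  | _ => False

/-- Inner curves. -/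
def Bl.IsIn : Bl G I → Prop
  | .bd k _ _ _ _ => k = true
  | _ => False

/-- The groupoid generated by a set of arrows. -/
inductive Gp [Group G] (R : I → I → G → Prop) : I → I → G → Prop
  | of (p q : I) (g : G) : R p q g → Gp R p q g
  | symm (p q : I) (g : G) : Gp R p q g → Gp R q p g⁻¹
  | trans (p q r : I) (g h : G) : Gp R p q g → Gp R q r h → Gp R p r (g * h)

end Words

namespace Frm

variable {G Ω I : Type} [Group G] (Φ : Frm G Ω I)

/-- Label, left type and right type of a signed letter. -/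
def ll (x : I × Bool) : G := cond x.2 (Φ.γ x.1) (Φ.γ x.1)⁻¹

def lt (x : I × Bool) : I := cond x.2 (Φ.t x.1) (Φ.s x.1)

def rt (x : I × Bool) : I := cond x.2 (Φ.s x.1) (Φ.t x.1)

def lab : Sym G I → G
  | Sum.inl a => a.2.2
  | Sum.inr x => Φ.ll x

def wlab (w : List (Sym G I)) : G := (w.map Φ.lab).prod

/-- Typed words in constants and letters that are not ends. -/
inductive Ty : I → List (Sym G I) → I → Prop
  | nil (p : I) : p ∈ Φ.Vs → Ty p [] p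
  | con (p q r : I) (g : G) (w : List (Sym G I)) : Φ.E p q g → Ty q w r →
      Ty p (Sum.inl (p, q, g) :: w) r
  | ltr (p r : I) (x : I × Bool) (w : List (Sym G I)) : x.1 ∈ Φ.Ls → x.1 ∉ Φ.En → Φ.lt x = p →
      Ty (Φ.rt x) w r → Ty p (Sum.inr x :: w) r

/-- The constants of `w` are trivial or elliptic. -/
def Cn (w : List (Sym G I)) : Prop :=
  ∀ p q g, Sum.inl (p, q, g) ∈ w → Φ.kd p = Kd.E ∨ (p = q ∧ g = 1)

/-- The edge group of an end, at its source. -/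
def Ce (e : I) (a : G) : Prop :=
  Φ.E (Φ.s e) (Φ.s e) a ∧ Φ.E (Φ.t e) (Φ.t e) (Φ.γ e * a * (Φ.γ e)⁻¹) ∧ a * Φ.ce e = Φ.ce e * a

structure Sol (ψ : I → I → G → F2) (u : I → F2) : Prop where
  fn : ∀ p q r g h, Φ.E p q g → Φ.E q r h → ψ p r (g * h) = ψ p q g * ψ q r h
  sq : ∀ e ∈ Φ.En, ∀ a, Φ.Ce e a →
    u e * ψ (Φ.s e) (Φ.s e) a = ψ (Φ.t e) (Φ.t e) (Φ.γ e * a * (Φ.γ e)⁻¹) * u e

/-- The solution comes from a homomorphism. -/
def Std (ψ : I → I → G → F2) (u : I → F2) : Prop :=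
  ∃ (Ψ : G →* F2) (y : I → F2), (∀ p q g, Φ.E p q g → ψ p q g = y p * Ψ g * (y q)⁻¹) ∧
    ∀ l ∈ Φ.Ls, u l = y (Φ.t l) * Ψ (Φ.γ l) * (y (Φ.s l))⁻¹

def Ext (C : (I → I → G → F2) → (I → F2) → Prop) : Prop :=
  ∀ ψ u, Φ.Sol ψ u → C ψ u → Φ.Std ψ u

def Gen : Prop :=
  ∀ X : I → G → Prop, (∀ p q h g, Φ.E p q h → X q g → X p (h * g)) →
    (∀ l ∈ Φ.Ls, ∀ g, X (Φ.s l) g ↔ X (Φ.t l) (Φ.γ l * g)) →
    ∀ p ∈ Φ.Vs, ∀ q ∈ Φ.Vs, ∀ g g', X p g → X q g'

structure Grp : Prop where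
  refl : ∀ p ∈ Φ.Vs, Φ.E p p 1
  symm : ∀ p q g, Φ.E p q g → Φ.E q p g⁻¹
  trans : ∀ p q r g h, Φ.E p q g → Φ.E q r h → Φ.E p r (g * h)
  mem : ∀ p q g, Φ.E p q g → p ∈ Φ.Vs ∧ q ∈ Φ.Vs
  ne : Φ.Vs.Nonempty
  st : ∀ l ∈ Φ.Ls, Φ.s l ∈ Φ.Vs ∧ Φ.t l ∈ Φ.Vs
  en : Φ.En ⊆ Φ.Ls
  ce : ∀ e ∈ Φ.En, Φ.ce e ≠ 1 ∧ Φ.Ce e (Φ.ce e)

/-- The data at a pair of pants. -/
structure Pan (p : I) (S : Fin 3 → Subgroup G) (c₀ c₁ : G) (sl : I → Fin 3) : Prop where
  m0 : c₀ ∈ S 0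
  m1 : c₁ ∈ S 1
  nc : c₀ * c₁ ≠ c₁ * c₀
  two : S 2 = Subgroup.zpowers (c₀ * c₁)
  ab : ∀ i, ∀ x ∈ S i, ∀ y ∈ S i, x * y = y * x
  grp : ∀ g, Φ.E p p g ↔ g ∈ S 0 ⊔ S 1
  inj : ∀ e ∈ Φ.En, ∀ e' ∈ Φ.En, Φ.s e = p → Φ.s e' = p → sl e = sl e' → e = e'
  mem : ∀ e ∈ Φ.En, Φ.s e = p → Φ.ce e ∈ S (sl e)
  le : ∀ e ∈ Φ.En, Φ.s e = p → ∀ a ∈ S (sl e), Φ.E (Φ.t e) (Φ.t e) (Φ.γ e * a * (Φ.γ e)⁻¹)
  inn : ∀ e ∈ Φ.En, Φ.s e = p → sl e = 2 → Φ.kd (Φ.t e) = Kd.A ∧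
    ∀ z, Φ.E (Φ.t e) (Φ.t e) z → (Φ.γ e)⁻¹ * z * Φ.γ e ∈ S 2

structure Val [MulAction G Ω] : Prop where
  grp : Φ.Grp
  kE : ∀ p q g, Φ.E p q g → Φ.kd p = Kd.E → Φ.kd q = Kd.E ∧ g • Φ.ω q = Φ.ω p
  iso : ∀ p q g, Φ.E p q g → Φ.kd p ≠ Kd.E → p = q
  ab : ∀ p g h, Φ.kd p = Kd.A → Φ.E p p g → Φ.E p p h → g * h = h * g
  kend : ∀ e ∈ Φ.En, Φ.kd (Φ.s e) = Kd.P ∧ Φ.kd (Φ.t e) ≠ Kd.P
  pan : ∀ p ∈ Φ.Vs, Φ.kd p = Kd.P → ∃ S c₀ c₁ sl, Φ.Pan p S c₀ c₁ sl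

structure Okc [MulAction G Ω] (C : (I → I → G → F2) → (I → F2) → Prop) : Prop where
  val : Φ.Val
  gen : Φ.Gen
  ext : Φ.Ext C

/-- A system of relators in which every letter occurs at most twice. -/
structure Rels [MulAction G Ω] [DecidableEq I] (rs : List (List (Sym G I))) : Prop where
  ok : Φ.Okc fun ψ u => ∀ r ∈ rs, wval ψ u r = 1
  ty : ∀ r ∈ rs, ∃ o, Φ.Ty o r o
  lab : ∀ r ∈ rs, Φ.wlab r = 1
  cn : ∀ r ∈ rs, Φ.Cn r
  two : ∀ l, (lets rs.flatten).count l ≤ 2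

/-- A letter that is not an end. -/
def Fre (l p q : I) (g : G) : Prop :=
  l ∈ Φ.Ls ∧ l ∉ Φ.En ∧ Φ.t l = p ∧ Φ.s l = q ∧ Φ.γ l = g

/-- An isolated vertex with trivial group. -/
def Triv (b : I) : Prop := ∀ q g, Φ.E b q g → q = b ∧ g = 1

/-- Blocks at the base vertex `b`. -/
def BT (b : I) : Bl G I → Prop
  | .cr m g => Φ.Fre m b b g
  | .hd a a' g h => Φ.Fre a b b g ∧ Φ.Fre a' b b h
  | .bd k x v g c => Φ.Fre x v b g ∧ Φ.E v v c ∧ (k = false → c = 1 ∨ Φ.kd v = Kd.E) ∧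
      (k = true → Φ.kd v = Kd.A ∧ c ≠ 1 ∧ ∀ z, Φ.E v v z ↔ z ∈ Subgroup.zpowers c)

/-- `C` depends only on the constants and on the letters in `X`. -/
def Dep (X : Set I) (C : (I → I → G → F2) → (I → F2) → Prop) : Prop :=
  (∀ l ∈ X, l ∈ Φ.Ls ∧ l ∉ Φ.En) ∧ ∀ ψ u ψ' u', (∀ p q g, Φ.E p q g → ψ p q g = ψ' p q g) →
    (∀ l ∈ X, u l = u' l) → C ψ u → C ψ' u'

/-- What a move at the base vertex `b` does not change. -/
structure Keep (Φ' : Frm G Ω I) (b : I) (X : Set I) : Prop where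
  vs : Φ.Vs ⊆ Φ'.Vs
  mono : ∀ p q g, Φ.E p q g → Φ'.E p q g
  kd : ∀ p ∈ Φ.Vs, p ≠ b → Φ'.kd p = Φ.kd p
  iso : ∀ p ∈ Φ.Vs, p ≠ b → Φ.kd p ≠ Kd.E → ∀ q g, Φ'.E p q g → Φ.E p q g
  triv : ∀ p ∈ Φ.Vs, p ≠ b → Φ.Triv p → Φ'.Triv p
  fre : ∀ l ∈ X, ∀ p q g, Φ.Fre l p q g → Φ'.Fre l p q g

/-- One relator in block form, in a context `C`. -/
structure Blk [MulAction G Ω] (b : I) (Bs : List (Bl G I)) (X : Set I)
    (C : (I → I → G → F2) → (I → F2) → Prop) : Prop where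
  ok : Φ.Okc fun ψ u => (Bs.map (Bl.val ψ u)).prod = 1 ∧ C ψ u
  dep : Φ.Dep X C
  mem : b ∈ Φ.Vs
  kd : Φ.kd b = Kd.E
  triv : Φ.Triv b
  bt : ∀ B ∈ Bs, Φ.BT b B
  nodup : (Bs.flatMap Bl.lets).Nodup
  disj : ∀ l ∈ Bs.flatMap Bl.lets, l ∉ X
  lab : (Bs.map Bl.lab).prod = 1

/-- A graph of groups in its final form. -/
structure Good : Prop where
  grp : Φ.Grp
  gen : Φ.Gen
  ext : Φ.Ext fun _ _ => True
  hier : ∀ p ∈ Φ.Vs, ∀ P : Subgroup G, (∀ g, g ∈ P ↔ Φ.E p p g) → P.FG → Hier P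
  bip : ∀ e ∈ Φ.En, ∀ e' ∈ Φ.En, ∀ g, ¬ Φ.E (Φ.s e) (Φ.t e') g
  cs : ∀ e ∈ Φ.En, ∀ a, Φ.E (Φ.s e) (Φ.s e) a → a * Φ.ce e = Φ.ce e * a → Φ.Ce e a
  ct : ∀ e ∈ Φ.En, ∀ a, Φ.E (Φ.t e) (Φ.t e) (Φ.γ e * a * (Φ.γ e)⁻¹) →
    a * Φ.ce e = Φ.ce e * a → Φ.Ce e a
  far : ∀ e ∈ Φ.En, ∀ e' ∈ Φ.En, ∀ a, e ≠ e' → Φ.E (Φ.s e) (Φ.s e') a →
    a * Φ.ce e' * a⁻¹ * Φ.ce e ≠ Φ.ce e * (a * Φ.ce e' * a⁻¹)

/-- The edge group of a letter. -/
def CL (l : I) (a : G) : Prop := a = 1 ∨ (l ∈ Φ.En ∧ Φ.Ce l a)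

/-- A backtracking. -/
def Pch (x : I × Bool) (a : G) (y : I × Bool) : Prop :=
  x.1 = y.1 ∧ y.2 = !x.2 ∧ Φ.CL x.1 (cond x.2 a ((Φ.γ x.1)⁻¹ * a * Φ.γ x.1))

/-- Labels of reduced paths with first letter `x` and last letter `z`. -/
inductive RP : I × Bool → I × Bool → G → Prop
  | one (x : I × Bool) : x.1 ∈ Φ.Ls → RP x x (Φ.ll x)
  | cons (x y z : I × Bool) (a g : G) : x.1 ∈ Φ.Ls → Φ.E (Φ.rt x) (Φ.lt y) a → ¬ Φ.Pch x a y →
      RP y z g → RP x z (Φ.ll x * a * g)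

/-- Reduced paths are not closed. -/
def Nf : Prop := ∀ x z g, Φ.RP x z g → ¬ Φ.E (Φ.lt x) (Φ.rt z) g

end Frm

/-! The steps -/

def EnvStmt : Prop :=
  ∀ (G T : Type) [Group G] [MetricSpace T] [MulAction G T] (ℓ : G → ℝ) (Ln : Set (Set T)),
    Cone G T ℓ → Tr G Ln → AbFG G → PtH G T → Disc G →
    ∃ (Ω : Type) (_ : MulAction G Ω) (π : T → Ω), (∀ (g : G) z, π (g • z) = g • π z) ∧
      (∀ A ∈ Ln, ∀ p ∈ A, ∀ q ∈ A, π p = π q) ∧ Env G Ω

/-- An invariant partition of the tree into convex sets. -/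
structure Cl (G : Type) {T Ω : Type} [Group G] [MetricSpace T] [MulAction G T] [MulAction G Ω]
    (ℓ : G → ℝ) (π : T → Ω) : Prop where
  surj : Function.Surjective π
  eqv : ∀ (g : G) z, π (g • z) = g • π z
  convex : ∀ p q z, π p = π q → dist p z + dist z q = dist p q → π z = π p
  min : ∀ (g : G) (a : Ω) (z : T), g ≠ 1 → g • a = a → dist z (g • z) = ℓ g → π z = a

def Env2Stmt : Prop :=
  ∀ (G T Ω : Type) [Group G] [MetricSpace T] [MulAction G T] [MulAction G Ω] (ℓ : G → ℝ)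
    (Ln : Set (Set T)) (π : T → Ω), Cone G T ℓ → Tr G Ln → Cl G ℓ π →
    (∀ (x y : G) (a b c : Ω), x ≠ 1 → y ≠ 1 → x • a = a → y • b = b → (x * y) • c = c → a = b) ∧
    ∀ (x y m : G) (a b : Ω), x ≠ 1 → y ≠ 1 → x • a = a → y • b = b → x * y * m ^ 2 = 1 → a = b

def AsmStmt : Prop :=
  ∀ (G Ω J B N St : Type) [Group G] [MulAction G Ω] [Fintype J] [Fintype B] [Fintype N]
    [Fintype St] (K : Skel G Ω J B N St), K.Ok →
    ∃ (I : Type) (_ : DecidableEq I) (_ : Infinite I) (Φ : Frm G Ω I) (rs : List (List (Sym G I))),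
      Φ.Rels rs

/-- A letter that occurs once in a relator is eliminated. -/
def ElimStmt : Prop :=
  ∀ (G Ω I : Type) [Group G] [MulAction G Ω] [DecidableEq I] (Φ : Frm G Ω I)
    (r : List (Sym G I)) (rs : List (List (Sym G I))) (x : I), Φ.Rels (r :: rs) →
    (lets r).count x = 1 →
    ∃ (Φ' : Frm G Ω I) (rs' : List (List (Sym G I))), Φ'.Rels rs' ∧ rs'.length = rs.length

/-- Normal form of a quadratic relator. -/
def QuadStmt : Prop :=
  ∀ (G Ω I : Type) [Group G] [MulAction G Ω] [DecidableEq I] [Infinite I] (Φ : Frm G Ω I)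
    (r : List (Sym G I)) (o : I) (X : Set I) (C : (I → I → G → F2) → (I → F2) → Prop),
    (Φ.Okc fun ψ u => wval ψ u r = 1 ∧ C ψ u) → Φ.Dep X C → Φ.Ty o r o → Φ.wlab r = 1 →
    Φ.Cn r → (∀ l ∈ lets r, (lets r).count l = 2 ∧ l ∉ X) →
    ∃ (Φ' : Frm G Ω I) (b : I) (Bs : List (Bl G I)), b ∉ Φ.Vs ∧ Φ'.Blk b Bs X C ∧
      Φ.Keep Φ' b X ∧ ∀ B ∈ Bs, ¬ B.IsIn

/-- A move replaces the first blocks. -/
def Mov {G Ω I : Type} [Group G] [MulAction G Ω] (Φ : Frm G Ω I) (b : I) (Bs : List (Bl G I))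
    (X : Set I) (C : (I → I → G → F2) → (I → F2) → Prop) : Prop :=
  ∃ Φ' : Frm G Ω I, Φ'.Blk b Bs X C ∧ Φ.Keep Φ' b X

/-- A move removes the relator. -/
def Fin0 {G Ω I : Type} [Group G] [MulAction G Ω] (Φ : Frm G Ω I) (b : I)
    (X : Set I) (C : (I → I → G → F2) → (I → F2) → Prop) : Prop :=
  ∃ Φ' : Frm G Ω I, Φ'.Okc C ∧ Φ.Keep Φ' b X

def DropStmt : Prop :=
  ∀ (G Ω I : Type) [Group G] [MulAction G Ω] [DecidableEq I] [Infinite I] (Φ : Frm G Ω I) (b : I)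
    (R : List (Bl G I)) (X : Set I) (C : (I → I → G → F2) → (I → F2) → Prop),
    (∀ R', Φ.Blk b (R ++ R') X C → Φ.Blk b (R' ++ R) X C) ∧
    (∀ k x v g, Φ.Blk b (.bd k x v g 1 :: R) X C → Φ.Blk b R X C) ∧
    (∀ m, Φ.Blk b (.cr m 1 :: R) X C → Mov Φ b R X C) ∧
    ∀ a a' g h, g * h = h * g → Φ.Blk b (.hd a a' g h :: R) X C → Mov Φ b R X C

def CutStmt : Prop :=
  ∀ (G Ω I : Type) [Group G] [MulAction G Ω] [DecidableEq I] [Infinite I] (Φ : Frm G Ω I) (b : I)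
    (R : List (Bl G I)) (X : Set I) (C : (I → I → G → F2) → (I → F2) → Prop),
    (∀ a a' g h, g ≠ 1 → Φ.Blk b (.hd a a' g h :: R) X C →
      ∃ v, Mov Φ b (.bd true a v 1 g :: .bd true a' v h⁻¹ g⁻¹ :: R) X C) ∧
    ∀ m m' g h, g * h ≠ 1 → Φ.Blk b (.cr m g :: .cr m' h :: R) X C →
      ∃ v, Mov Φ b (.bd true m v 1 (g * h) :: .bd true m' v h (g * h) :: R) X C

def StarEStmt : Prop :=
  ∀ (G Ω I : Type) [Group G] [MulAction G Ω] [DecidableEq I] (Φ : Frm G Ω I) (b : I)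
    (Bs : List (Bl G I)) (X : Set I) (C : (I → I → G → F2) → (I → F2) → Prop),
    Φ.Blk b Bs X C →
    ((∃ a : Ω, ∀ B ∈ Bs, (∃ m g, B = .cr m g ∧ g • a = a) ∨
      ∃ x v g c, B = .bd false x v g c ∧ c ≠ 1 ∧ g • a = Φ.ω v) → Fin0 Φ b X C) ∧
    ((∀ B ∈ Bs, ∃ m g, B = .cr m g) →
      (∀ m g m' g', .cr m g ∈ Bs → .cr m' g' ∈ Bs → g * g' = g' * g) → Fin0 Φ b X C)

def StarPStmt : Prop :=
  ∀ (G Ω I : Type) [Group G] [MulAction G Ω] [DecidableEq I] (Φ : Frm G Ω I) (b : I)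
    (B₀ B₁ B₂ : Bl G I) (X : Set I) (C : (I → I → G → F2) → (I → F2) → Prop),
    Φ.Blk b [B₀, B₁, B₂] X C → ¬ B₀.IsHd → ¬ B₁.IsHd → B₂.IsIn →
    B₀.lab * B₁.lab ≠ B₁.lab * B₀.lab → Fin0 Φ b X C

def PcutStmt : Prop :=
  ∀ (G Ω I : Type) [Group G] [MulAction G Ω] [DecidableEq I] [Infinite I] (Φ : Frm G Ω I) (b : I)
    (B₀ B₁ : Bl G I) (R : List (Bl G I)) (X : Set I) (C : (I → I → G → F2) → (I → F2) → Prop),
    Φ.Blk b (B₀ :: B₁ :: R) X C → ¬ B₀.IsHd → ¬ B₁.IsHd →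
    B₀.lab * B₁.lab ≠ B₁.lab * B₀.lab →
    ∃ z v, Mov Φ b (.bd true z v 1 (B₀.lab * B₁.lab) :: R) X C

/-- A relator in block form can be removed. -/
def QbStmt : Prop :=
  ∀ (G Ω I : Type) [Group G] [MulAction G Ω] [DecidableEq I] [Infinite I] (Φ : Frm G Ω I) (b : I)
    (Bs : List (Bl G I)) (X : Set I) (C : (I → I → G → F2) → (I → F2) → Prop), Env G Ω →
    Φ.Blk b Bs X C → (∀ B ∈ Bs, ¬ B.IsIn) → Fin0 Φ b X C

def LoopStmt : Prop :=
  ∀ (G Ω I : Type) [Group G] [MulAction G Ω] [DecidableEq I] [Infinite I] (Φ : Frm G Ω I)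
    (rs : List (List (Sym G I))), Env G Ω → Φ.Rels rs →
    ∃ Φ' : Frm G Ω I, Φ'.Okc fun _ _ => True

/-- Abelian subgroups that do not commute generate their free product. -/
def PanAStmt : Prop :=
  ∀ (G : Type) [Group G] (S S' : Subgroup G) (c c' : G), Disc G → c ∈ S → c' ∈ S' →
    c * c' ≠ c' * c → (∀ x ∈ S, ∀ y ∈ S, x * y = y * x) → (∀ x ∈ S', ∀ y ∈ S', x * y = y * x) →
    Function.Injective (Monoid.Coprod.lift S.subtype S'.subtype)

def PanStmt : Prop :=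
  ∀ (G : Type) [Group G] (S : Fin 3 → Subgroup G) (c₀ c₁ : G), CT G → Disc G → c₀ ∈ S 0 →
    c₁ ∈ S 1 → c₀ * c₁ ≠ c₁ * c₀ → S 2 = Subgroup.zpowers (c₀ * c₁) →
    (∀ i, ∀ x ∈ S i, ∀ y ∈ S i, x * y = y * x) →
    ((S 0).FG → (S 1).FG → Hier ↥(S 0 ⊔ S 1)) ∧
    (∀ i, ∀ z ∈ S i, z ≠ 1 → ∀ a ∈ S 0 ⊔ S 1, a * z = z * a → a ∈ S i) ∧
    ∀ i j, i ≠ j → ∀ z ∈ S i, ∀ z' ∈ S j, z ≠ 1 → z' ≠ 1 → ∀ a ∈ S 0 ⊔ S 1,
      a * z' * a⁻¹ * z ≠ z * (a * z' * a⁻¹)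

def GoodStmt : Prop :=
  ∀ (G Ω I : Type) [Group G] [MulAction G Ω] (Φ : Frm G Ω I), Env G Ω →
    (Φ.Okc fun _ _ => True) → ∃ Φ' : Frm G Ω I, Φ'.Good

/-- Coherent generators of the twists. -/
def CohStmt : Prop :=
  ∀ (G Ω I : Type) [Group G] (Φ : Frm G Ω I), CT G → Φ.Good →
    ∃ d : I → G, (∀ e ∈ Φ.En, d e ≠ 1 ∧ Φ.Ce e ((Φ.γ e)⁻¹ * d e * Φ.γ e)) ∧
      ∀ e ∈ Φ.En, ∀ e' ∈ Φ.En, ∀ z, Φ.E (Φ.t e) (Φ.t e') z →
        z * d e' * z⁻¹ * d e = d e * (z * d e' * z⁻¹) → z * d e' * z⁻¹ = d e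

def NfStmt : Prop :=
  ∀ (G Ω I : Type) [Group G] (Φ : Frm G Ω I), CT G → Disc G → Φ.Good → Φ.Nf

def BstStmt : Prop :=
  ∀ (G Ω I : Type) [Group G] (Φ : Frm G Ω I), CT G → AbFG G → Group.FG G → Φ.Good → Φ.Nf →
    Hier G

/-- The step of the main induction. -/
def CoreStmt : Prop :=
  ∀ (G T : Type) [Group G] [MetricSpace T] [MulAction G T] (ℓ : G → ℝ) (U : Ultrafilter ℕ)
    (φ : G → ℕ → F2), Group.FG G → CT G → Rep U φ → Cone G T ℓ → AbFG G → PtH G T → Hier G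

end Pool.Agent.MP_494aff_an.Fr

end MrgPart1

-- ======== part 2: formerly Pool.Agent.MP_494aff_an.fr.Base
section MrgPart2

/-! Basic lemmas on frames. -/

namespace Pool.Agent.MP_494aff_an.Fr

open Pool.Agent.MP_494aff_an.Se

variable {G Ω I : Type}

/-- The inverse of a symbol. -/
def sinv [Group G] : Sym G I → Sym G I
  | Sum.inl a => Sum.inl (a.2.1, a.1, a.2.2⁻¹)
  | Sum.inr x => Sum.inr (x.1, !x.2)

/-- The inverse of a word. -/
def winv [Group G] (w : List (Sym G I)) : List (Sym G I) := (w.map sinv).reverse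

section Words

variable {ψ ψ' : I → I → G → F2} {u u' : I → F2} {w w' : List (Sym G I)}

@[simp] lemma wval_nil : wval ψ u [] = 1 := rfl

@[simp] lemma wval_cons (a : Sym G I) : wval ψ u (a :: w) = val ψ u a * wval ψ u w := by
  simp [wval]

@[simp] lemma wval_append : wval ψ u (w ++ w') = wval ψ u w * wval ψ u w' := by simp [wval]

@[simp] lemma lets_nil : lets ([] : List (Sym G I)) = [] := rfl

@[simp] lemma lets_inl (a : I × I × G) : lets (Sum.inl a :: w) = lets w := rfl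

@[simp] lemma lets_inr (x : I × Bool) : lets (Sum.inr x :: w) = x.1 :: lets w := rfl

@[simp] lemma lets_append : lets (w ++ w') = lets w ++ lets w' := by simp [lets]

lemma mem_lets {l : I} : l ∈ lets w ↔ ∃ b, Sum.inr (l, b) ∈ w := by
  induction w with
  | nil => simp
  | cons a w ih =>
    rcases a with a | ⟨x, b⟩
    · simp [ih]
    · simp only [lets_inr, List.mem_cons, ih, Sum.inr.injEq, Prod.mk.injEq]
      constructor
      · rintro (rfl | ⟨c, h⟩)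
        · exact ⟨b, Or.inl ⟨rfl, rfl⟩⟩
        · exact ⟨c, Or.inr h⟩
      · rintro ⟨c, h | h⟩
        · exact Or.inl h.1
        · exact Or.inr ⟨c, h⟩

@[simp] lemma winv_nil [Group G] : winv ([] : List (Sym G I)) = [] := rfl

@[simp] lemma winv_cons [Group G] (a : Sym G I) : winv (a :: w) = winv w ++ [sinv a] := by
  simp [winv]

lemma lets_winv [Group G] : lets (winv w) = (lets w).reverse := by
  induction w with
  | nil => rfl
  | cons a w ih => rcases a with a | x <;> simp [ih, sinv]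

lemma Bl.val_congr {B : Bl G I} (h1 : ∀ k x v g c, B = .bd k x v g c → ψ v v c = ψ' v v c)
    (h2 : ∀ l ∈ B.lets, u l = u' l) : B.val ψ u = B.val ψ' u' := by
  cases B with
  | cr m g => simp [Bl.val, h2 m (by simp [Bl.lets])]
  | hd a b g h => simp [Bl.val, h2 a (by simp [Bl.lets]), h2 b (by simp [Bl.lets])]
  | bd k x v g c => simp [Bl.val, h2 x (by simp [Bl.lets]), h1 k x v g c rfl]

end Words

namespace Frm

variable [Group G] {Φ Φ' Φ'' : Frm G Ω I} {ψ ψ' : I → I → G → F2} {u u' : I → F2}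
  {w w' : List (Sym G I)} {p q r b : I} {X : Set I} {C : (I → I → G → F2) → (I → F2) → Prop}

@[simp] lemma wlab_nil : Φ.wlab [] = 1 := rfl

@[simp] lemma wlab_cons (a : Sym G I) : Φ.wlab (a :: w) = Φ.lab a * Φ.wlab w := by simp [wlab]

@[simp] lemma wlab_append : Φ.wlab (w ++ w') = Φ.wlab w * Φ.wlab w' := by simp [wlab]

lemma lab_sinv (a : Sym G I) : Φ.lab (sinv a) = (Φ.lab a)⁻¹ := by
  rcases a with a | ⟨x, _ | _⟩ <;> simp [sinv, lab, ll]

lemma wlab_winv : Φ.wlab (winv w) = (Φ.wlab w)⁻¹ := by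
  induction w with
  | nil => simp
  | cons a w ih => simp [ih, lab_sinv]

@[simp] lemma lt_not (x : I) (c : Bool) : Φ.lt (x, !c) = Φ.rt (x, c) := by cases c <;> rfl

@[simp] lemma rt_not (x : I) (c : Bool) : Φ.rt (x, !c) = Φ.lt (x, c) := by cases c <;> rfl

lemma Grp.lt_mem (h : Φ.Grp) {x : I × Bool} (hx : x.1 ∈ Φ.Ls) : Φ.lt x ∈ Φ.Vs := by
  obtain ⟨x, _ | _⟩ := x
  · exact (h.st x hx).1
  · exact (h.st x hx).2

lemma Grp.rt_mem (h : Φ.Grp) {x : I × Bool} (hx : x.1 ∈ Φ.Ls) : Φ.rt x ∈ Φ.Vs := by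
  obtain ⟨x, _ | _⟩ := x
  · exact (h.st x hx).2
  · exact (h.st x hx).1

lemma Grp.zpow (h : Φ.Grp) {g : G} (hg : Φ.E p p g) (k : ℤ) : Φ.E p p (g ^ k) := by
  induction k using Int.induction_on with
  | zero => simpa using h.refl p (h.mem _ _ _ hg).1
  | succ n ih => rw [zpow_add_one]; exact h.trans _ _ _ _ _ ih hg
  | pred n ih => rw [zpow_sub_one]; exact h.trans _ _ _ _ _ ih (h.symm _ _ _ hg)

/-- The group at a vertex. -/
def Grp.sub (h : Φ.Grp) (hp : p ∈ Φ.Vs) : Subgroup G where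
  carrier := {g | Φ.E p p g}
  one_mem' := h.refl p hp
  mul_mem' := fun ha hb => h.trans _ _ _ _ _ ha hb
  inv_mem' := fun ha => h.symm _ _ _ ha

lemma Ty.right (h : Φ.Ty p w q) : q ∈ Φ.Vs := by
  induction h with
  | nil p hp => exact hp
  | con _ _ _ _ _ _ _ ih => exact ih
  | ltr _ _ _ _ _ _ _ _ ih => exact ih

lemma Ty.left (hG : Φ.Grp) (h : Φ.Ty p w q) : p ∈ Φ.Vs := by
  cases h with
  | nil _ hp => exact hp
  | con _ _ _ _ _ he _ => exact (hG.mem _ _ _ he).1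
  | ltr _ _ _ _ hx _ e _ => exact e ▸ hG.lt_mem hx

lemma Ty.append (h : Φ.Ty p w q) (h' : Φ.Ty q w' r) : Φ.Ty p (w ++ w') r := by
  induction h with
  | nil => exact h'
  | con p q _ g w he _ ih => exact Ty.con _ _ _ _ _ he (ih h')
  | ltr p _ x w h1 h2 h3 _ ih => exact Ty.ltr _ _ _ _ h1 h2 h3 (ih h')

lemma Ty.split (hG : Φ.Grp) (h : Φ.Ty p (w ++ w') r) : ∃ q, Φ.Ty p w q ∧ Φ.Ty q w' r := by
  induction w generalizing p with
  | nil => exact ⟨p, Ty.nil _ (h.left hG), h⟩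
  | cons a w ih =>
    rw [List.cons_append] at h
    cases h with
    | con _ q _ g _ he h =>
      obtain ⟨q', h1, h2⟩ := ih h
      exact ⟨q', Ty.con _ _ _ _ _ he h1, h2⟩
    | ltr _ _ x _ h1 h2 h3 h =>
      obtain ⟨q', h4, h5⟩ := ih h
      exact ⟨q', Ty.ltr _ _ _ _ h1 h2 h3 h4, h5⟩

lemma Ty.of_ltr {x : I × Bool} (h : Φ.Ty p (Sum.inr x :: w) r) :
    x.1 ∈ Φ.Ls ∧ x.1 ∉ Φ.En ∧ Φ.lt x = p ∧ Φ.Ty (Φ.rt x) w r := by
  cases h with
  | ltr _ _ _ _ h1 h2 h3 h => exact ⟨h1, h2, h3, h⟩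

lemma Ty.inv (hG : Φ.Grp) (h : Φ.Ty p w q) : Φ.Ty q (winv w) p := by
  induction h with
  | nil p hp => exact Ty.nil p hp
  | con p q _ g w he _ ih =>
    rw [winv_cons]
    exact ih.append (Ty.con _ _ _ _ _ (hG.symm _ _ _ he) (Ty.nil _ (hG.mem _ _ _ he).1))
  | ltr p _ x w h1 h2 h3 _ ih =>
    rw [winv_cons]
    refine ih.append (Ty.ltr _ _ (x.1, !x.2) _ h1 h2 (by simp) ?_)
    rw [rt_not, h3]
    exact Ty.nil _ (h3 ▸ hG.lt_mem h1)

lemma Ty.lets (h : Φ.Ty p w q) : ∀ l ∈ lets w, l ∈ Φ.Ls ∧ l ∉ Φ.En := by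
  induction h with
  | nil => simp
  | con _ _ _ _ _ _ _ ih => simpa using ih
  | ltr _ _ x _ h1 h2 _ _ ih =>
    intro l hl
    rcases List.mem_cons.1 hl with rfl | hl
    · exact ⟨h1, h2⟩
    · exact ih l hl

lemma Ty.con_mem (h : Φ.Ty p w q) : ∀ p' q' g, Sum.inl (p', q', g) ∈ w → Φ.E p' q' g := by
  induction h with
  | nil => simp
  | con _ _ _ _ _ he _ ih =>
    intro p' q' g hg
    rcases List.mem_cons.1 hg with e | hg
    · cases e; exact he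
    · exact ih _ _ _ hg
  | ltr _ _ x _ _ _ _ _ ih => simpa using ih

/-- Transfer of typed words. -/
lemma Ty.transfer (h : Φ.Ty p w q) (hV : Φ.Vs ⊆ Φ'.Vs) (hE : ∀ p q g, Φ.E p q g → Φ'.E p q g)
    (hL : ∀ l ∈ Fr.lets w, Φ'.Fre l (Φ.t l) (Φ.s l) (Φ.γ l)) :
    Φ'.Ty p w q ∧ Φ'.wlab w = Φ.wlab w := by
  induction h with
  | nil p hp => exact ⟨Ty.nil p (hV hp), rfl⟩
  | con p q _ g w he _ ih =>
    obtain ⟨h1, h2⟩ := ih (by simpa using hL)
    exact ⟨Ty.con _ _ _ _ _ (hE _ _ _ he) h1, by simp [h2, lab]⟩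
  | ltr p _ x w _ _ h3 _ ih =>
    obtain ⟨h4, h5⟩ := ih fun l hl => hL l (List.mem_cons_of_mem _ hl)
    obtain ⟨a1, a2, a3, a4, a5⟩ := hL x.1 List.mem_cons_self
    have e1 : Φ'.lt x = Φ.lt x := by simp [lt, a3, a4]
    have e2 : Φ'.rt x = Φ.rt x := by simp [rt, a3, a4]
    exact ⟨Ty.ltr _ _ _ _ a1 a2 (e1.trans h3) (e2 ▸ h4), by simp [h5, lab, ll, a5]⟩

lemma Ty.val_congr (h : Φ.Ty p w q) (h1 : ∀ p q g, Φ.E p q g → ψ p q g = ψ' p q g)
    (h2 : ∀ l ∈ Fr.lets w, u l = u' l) : wval ψ u w = wval ψ' u' w := by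
  induction h with
  | nil => rfl
  | con p q _ g w he _ ih => simp [val, h1 _ _ _ he, ih (by simpa using h2)]
  | ltr p _ x w _ _ _ _ ih =>
    simp [val, h2 x.1 List.mem_cons_self, ih fun l hl => h2 l (List.mem_cons_of_mem _ hl)]

/-- The value of a typed word under a standard solution. -/
lemma Ty.std (h : Φ.Ty p w q) {Ψ : G →* F2} {y : I → F2}
    (h1 : ∀ p q g, Φ.E p q g → ψ p q g = y p * Ψ g * (y q)⁻¹)
    (h2 : ∀ l ∈ Fr.lets w, u l = y (Φ.t l) * Ψ (Φ.γ l) * (y (Φ.s l))⁻¹) :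
    wval ψ u w = y p * Ψ (Φ.wlab w) * (y q)⁻¹ := by
  induction h with
  | nil => simp
  | con p q _ g w he _ ih =>
    simp [val, lab, h1 _ _ _ he, ih (by simpa using h2), mul_assoc]
  | ltr p _ x w _ _ h3 _ ih =>
    have := ih fun l hl => h2 l (List.mem_cons_of_mem _ hl)
    have e := h2 x.1 List.mem_cons_self
    obtain ⟨x, _ | _⟩ := x <;> subst h3 <;> simp only at e <;>
      simp [val, lab, ll, lt, this, e, rt, mul_assoc]

/-- Closed families are closed under typed words. -/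
lemma Ty.gen (hG : Φ.Grp) (h : Φ.Ty p w q) {Y : I → G → Prop}
    (h1 : ∀ p q h g, Φ.E p q h → Y q g → Y p (h * g))
    (h2 : ∀ l ∈ Fr.lets w, ∀ g, Y (Φ.s l) g ↔ Y (Φ.t l) (Φ.γ l * g)) (g : G) :
    Y q g ↔ Y p (Φ.wlab w * g) := by
  induction h with
  | nil => simp
  | con p q _ a w he _ ih =>
    rw [ih (by simpa using h2), wlab_cons, mul_assoc]
    exact ⟨h1 _ _ _ _ he, fun h => by simpa [lab] using h1 _ _ _ _ (hG.symm _ _ _ he) h⟩
  | ltr p _ x w _ _ h3 _ ih =>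
    rw [ih fun l hl => h2 l (List.mem_cons_of_mem _ hl), wlab_cons, mul_assoc]
    have e := h2 x.1 List.mem_cons_self
    obtain ⟨x, _ | _⟩ := x <;> subst h3
    · simpa [lab, ll, lt, rt] using (e ((Φ.γ x)⁻¹ * (Φ.wlab w * g))).symm
    · exact e _

lemma Sol.one (h : Φ.Sol ψ u) (hp : Φ.E p p 1) : ψ p p 1 = 1 := by
  have := h.fn p p p 1 1 hp hp
  rw [mul_one] at this
  exact mul_left_cancel (a := ψ p p 1) (by rw [← this, mul_one])

lemma Sol.inv (h : Φ.Sol ψ u) (hG : Φ.Grp) {g : G} (hg : Φ.E p q g) :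
    ψ q p g⁻¹ = (ψ p q g)⁻¹ := by
  have := h.fn p q p g g⁻¹ hg (hG.symm _ _ _ hg)
  rw [mul_inv_cancel, h.one (hG.refl p (hG.mem _ _ _ hg).1)] at this
  exact (inv_eq_of_mul_eq_one_right this.symm).symm

lemma Sol.winv (h : Φ.Sol ψ u) (hG : Φ.Grp) (hw : Φ.Ty p w q) :
    wval ψ u (winv w) = (wval ψ u w)⁻¹ := by
  induction hw with
  | nil => simp
  | con p q _ g w he _ ih => simp [ih, sinv, val, h.inv hG he]
  | ltr p _ x w _ _ _ _ ih => obtain ⟨x, _ | _⟩ := x <;> simp [ih, sinv, val]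

/-- A word without letters is a constant. -/
lemma Ty.const (hG : Φ.Grp) (h : Φ.Ty p w q) (h0 : Fr.lets w = []) :
    Φ.E p q (Φ.wlab w) ∧ ∀ ψ u, Φ.Sol ψ u → wval ψ u w = ψ p q (Φ.wlab w) := by
  induction h with
  | nil p hp => exact ⟨hG.refl p hp, fun ψ u hs => (hs.one (hG.refl p hp)).symm⟩
  | con p q _ g w he _ ih =>
    obtain ⟨h1, h2⟩ := ih h0
    refine ⟨by simpa [lab] using hG.trans _ _ _ _ _ he h1, fun ψ u hs => ?_⟩
    simp [val, lab, h2 ψ u hs, hs.fn _ _ _ _ _ he h1]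
  | ltr => simp at h0

/-- It is enough to check the generators of the group at a vertex. -/
lemma Sol.closure (h : Φ.Sol ψ u) (hG : Φ.Grp) (hp : p ∈ Φ.Vs) {S : Set G}
    (hS : ∀ g ∈ S, Φ.E p p g) {Ψ : G →* F2} {y : F2} (hy : ∀ g ∈ S, ψ p p g = y * Ψ g * y⁻¹)
    {g : G} (hg : g ∈ Subgroup.closure S) : Φ.E p p g ∧ ψ p p g = y * Ψ g * y⁻¹ := by
  induction hg using Subgroup.closure_induction with
  | mem x hx => exact ⟨hS x hx, hy x hx⟩
  | one => exact ⟨hG.refl p hp, by simp [h.one (hG.refl p hp)]⟩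
  | mul x z _ _ hx hz =>
    exact ⟨hG.trans _ _ _ _ _ hx.1 hz.1, by simp [h.fn _ _ _ _ _ hx.1 hz.1, hx.2, hz.2, mul_assoc]⟩
  | inv x _ hx => exact ⟨hG.symm _ _ _ hx.1, by simp [h.inv hG hx.1, hx.2, mul_assoc]⟩

lemma Keep.refl (Φ : Frm G Ω I) (b : I) (X : Set I) : Φ.Keep Φ b X :=
  ⟨fun _ h => h, fun _ _ _ h => h, fun _ _ _ => rfl, fun _ _ _ _ _ _ h => h, fun _ _ _ h => h,
    fun _ _ _ _ _ h => h⟩

lemma Keep.trans (h : Φ.Keep Φ' b X) (h' : Φ'.Keep Φ'' b X) : Φ.Keep Φ'' b X where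
  vs := h.vs.trans h'.vs
  mono p q g e := h'.mono _ _ _ (h.mono p q g e)
  kd p hp hb := (h'.kd p (h.vs hp) hb).trans (h.kd p hp hb)
  iso p hp hb hk q g e := h.iso p hp hb hk q g (h'.iso p (h.vs hp) hb (h.kd p hp hb ▸ hk) q g e)
  triv p hp hb e := h'.triv p (h.vs hp) hb (h.triv p hp hb e)
  fre l hl p q g e := h'.fre l hl p q g (h.fre l hl p q g e)

/-- A move at a new base vertex. -/
lemma Keep.trans_new {b' : I} {X' : Set I} (h : Φ.Keep Φ' b X) (h' : Φ'.Keep Φ'' b' X')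
    (hb : b' ∉ Φ.Vs) (hX : X ⊆ X') : Φ.Keep Φ'' b X where
  vs := h.vs.trans h'.vs
  mono p q g e := h'.mono _ _ _ (h.mono p q g e)
  kd p hp hb' := (h'.kd p (h.vs hp) fun e => hb (e ▸ hp)).trans (h.kd p hp hb')
  iso p hp hb' hk q g e := h.iso p hp hb' hk q g
    (h'.iso p (h.vs hp) (fun e => hb (e ▸ hp)) (h.kd p hp hb' ▸ hk) q g e)
  triv p hp hb' e := h'.triv p (h.vs hp) (fun e => hb (e ▸ hp)) (h.triv p hp hb' e)
  fre l hl p q g e := h'.fre l (hX hl) p q g (h.fre l hl p q g e)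

lemma Keep.ty (h : Φ.Keep Φ' b X) (hw : Φ.Ty p w q) (hX : ∀ l ∈ Fr.lets w, l ∈ X) :
    Φ'.Ty p w q ∧ Φ'.wlab w = Φ.wlab w :=
  hw.transfer h.vs h.mono fun l hl =>
    h.fre l (hX l hl) _ _ _ ⟨(hw.lets l hl).1, (hw.lets l hl).2, rfl, rfl, rfl⟩

lemma Keep.dep (h : Φ.Keep Φ' b X) (hd : Φ.Dep X C) : Φ'.Dep X C := by
  refine ⟨fun l hl => ?_, fun ψ u ψ' u' h1 h2 => hd.2 ψ u ψ' u'
    (fun p q g e => h1 p q g (h.mono p q g e)) h2⟩
  have := h.fre l hl _ _ _ ⟨(hd.1 l hl).1, (hd.1 l hl).2, rfl, rfl, rfl⟩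
  exact ⟨this.1, this.2.1⟩

/-- Blocks at another base vertex survive a move at a trivial vertex. -/
lemma Keep.bt (h : Φ.Keep Φ' b X) (hG : Φ.Grp) (hb : Φ.Triv b) {b' : I} {B : Bl G I}
    (hB : Φ.BT b' B) (hX : ∀ l ∈ B.lets, l ∈ X) : Φ'.BT b' B := by
  cases B with
  | cr m g => exact h.fre m (hX m (by simp [Bl.lets])) _ _ _ hB
  | hd a a' g g' =>
    exact ⟨h.fre a (hX a (by simp [Bl.lets])) _ _ _ hB.1,
      h.fre a' (hX a' (by simp [Bl.lets])) _ _ _ hB.2⟩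
  | bd k x v g c =>
    obtain ⟨h1, h2, h3, h4⟩ := hB
    have hv := (hG.mem _ _ _ h2).1
    have hne : c ≠ 1 → v ≠ b := fun hc e => hc (hb v c (e ▸ h2)).2
    refine ⟨h.fre x (hX x (by simp [Bl.lets])) _ _ _ h1, h.mono _ _ _ h2, fun hk => ?_,
      fun hk => ?_⟩
    · by_cases hc : c = 1
      · exact Or.inl hc
      · exact Or.inr ((h.kd v hv (hne hc)).trans ((h3 hk).resolve_left hc))
    · obtain ⟨a1, a2, a3⟩ := h4 hk
      refine ⟨(h.kd v hv (hne a2)).trans a1, a2, fun z => ⟨fun e => (a3 z).1 ?_,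
        fun e => h.mono _ _ _ ((a3 z).2 e)⟩⟩
      exact h.iso v hv (hne a2) (by rw [a1]; exact fun e => Kd.noConfusion e) v z e

lemma BT.lets {B : Bl G I} (h : Φ.BT b B) : ∀ l ∈ B.lets, l ∈ Φ.Ls ∧ l ∉ Φ.En := by
  cases B with
  | cr m g => simpa [Bl.lets] using ⟨h.1, h.2.1⟩
  | hd a a' g g' => simpa [Bl.lets] using ⟨⟨h.1.1, h.1.2.1⟩, h.2.1, h.2.2.1⟩
  | bd k x v g c => simpa [Bl.lets] using ⟨h.1.1, h.1.2.1⟩

lemma BT.val_congr {B : Bl G I} (h : Φ.BT b B)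
    (h1 : ∀ p q g, Φ.E p q g → ψ p q g = ψ' p q g) (h2 : ∀ l ∈ B.lets, u l = u' l) :
    B.val ψ u = B.val ψ' u' :=
  Bl.val_congr (fun _ _ _ _ _ e => by subst e; exact h1 _ _ _ h.2.1) h2

/-- No end arrives at a trivial vertex. -/
lemma Grp.t_ne (hG : Φ.Grp) (hb : Φ.Triv b) {e : I} (he : e ∈ Φ.En) : Φ.t e ≠ b := by
  intro h
  have h1 := (hG.ce e he).2.2.1
  rw [h] at h1
  have := (hb _ _ h1).2
  exact (hG.ce e he).1 (by simpa using this)

end Frm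

end Pool.Agent.MP_494aff_an.Fr

end MrgPart2

-- ======== part 3: formerly Pool.Agent.MP_494aff_an.fr.Loop
section MrgPart3

/-! The loop over the relators and the main induction. -/

namespace Pool.Agent.MP_494aff_an.Fr

open Pool.Agent.MP_494aff_an.Pinch Pool.Agent.MP_494aff_an.Pinch.TowP Pool.Agent.MP_494aff_an.Lf
open Pool.Agent.MP_494aff_an.Se Filter

namespace LoopP

variable {G I : Type}

lemma mem_flat {rs : List (List (Sym G I))} {r : List (Sym G I)} (hr : r ∈ rs) {l : I}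
    (hl : l ∈ lets r) : l ∈ lets rs.flatten := by
  obtain ⟨b, hb⟩ := mem_lets.1 hl
  exact mem_lets.2 ⟨b, List.mem_flatten.2 ⟨r, hr, hb⟩⟩

lemma of_flat {rs : List (List (Sym G I))} {l : I} (hl : l ∈ lets rs.flatten) :
    ∃ r ∈ rs, l ∈ lets r := by
  obtain ⟨b, hb⟩ := mem_lets.1 hl
  obtain ⟨r, hr, hb⟩ := List.mem_flatten.1 hb
  exact ⟨r, hr, mem_lets.2 ⟨b, hb⟩⟩

end LoopP

open LoopP

theorem loop (h1 : ElimStmt) (h2 : QuadStmt) (h3 : QbStmt) : LoopStmt := by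
  intro G Ω I _ _ _ _ Φ rs hE h
  induction hn : rs.length generalizing Φ rs with
  | zero =>
    obtain rfl := List.length_eq_zero_iff.1 hn
    exact ⟨Φ, h.ok.val, h.ok.gen, fun ψ u hs _ => h.ok.ext ψ u hs (by simp)⟩
  | succ n ih =>
    obtain ⟨r, rs, rfl⟩ := List.exists_cons_of_length_eq_add_one hn
    have hn' : rs.length = n := by simpa using hn
    by_cases hx : ∃ x, (lets r).count x = 1
    · obtain ⟨x, hx⟩ := hx
      obtain ⟨Φ', rs', h', e⟩ := h1 G Ω I Φ r rs x h hx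
      exact ih Φ' rs' h' (e.trans hn')
    push Not at hx
    have two : ∀ l, (lets r).count l + (lets rs.flatten).count l ≤ 2 := fun l => by
      simpa [List.count_append] using h.two l
    obtain ⟨o, ho⟩ := h.ty r List.mem_cons_self
    have hty : ∀ r' ∈ rs, ∃ o, Φ.Ty o r' o := fun r' hr => h.ty r' (List.mem_cons_of_mem _ hr)
    have hd : Φ.Dep {l | l ∈ lets rs.flatten} fun ψ u => ∀ r' ∈ rs, wval ψ u r' = 1 := by
      refine ⟨fun l hl => ?_, fun ψ u ψ' u' e1 e2 hC r' hr => ?_⟩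
      · obtain ⟨r', hr, hl⟩ := of_flat hl
        obtain ⟨o', ho'⟩ := hty r' hr
        exact ho'.lets l hl
      · obtain ⟨o', ho'⟩ := hty r' hr
        rw [← ho'.val_congr e1 fun l hl => e2 l (mem_flat hr hl)]
        exact hC r' hr
    obtain ⟨Φ₁, b, Bs, hb, hB, k1, hI⟩ := h2 G Ω I Φ r o {l | l ∈ lets rs.flatten}
      (fun ψ u => ∀ r' ∈ rs, wval ψ u r' = 1)
      ⟨h.ok.val, h.ok.gen, fun ψ u hs hC => h.ok.ext ψ u hs (by
        intro r' hr
        rcases List.mem_cons.1 hr with rfl | hr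
        · exact hC.1
        · exact hC.2 r' hr)⟩ hd ho (h.lab r List.mem_cons_self) (h.cn r List.mem_cons_self)
      (fun l hl => by
        have a1 := List.count_pos_iff.2 hl
        have a2 := hx l
        have a3 := two l
        refine ⟨by omega, fun hl' => ?_⟩
        have a4 := List.count_pos_iff.2 (show l ∈ lets rs.flatten from hl')
        omega)
    obtain ⟨Φ₂, hO, k2⟩ := h3 G Ω I Φ₁ b Bs _ _ hE hB hI
    have k := k1.trans k2
    refine ih Φ₂ rs ⟨hO, fun r' hr => ?_, fun r' hr => ?_, fun r' hr p q g hm => ?_,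
      fun l => le_trans (Nat.le_add_left _ _) (two l)⟩ hn'
    · obtain ⟨o', ho'⟩ := hty r' hr
      exact ⟨o', (k.ty ho' fun l hl => mem_flat hr hl).1⟩
    · obtain ⟨o', ho'⟩ := hty r' hr
      rw [(k.ty ho' fun l hl => mem_flat hr hl).2]
      exact h.lab r' (List.mem_cons_of_mem _ hr)
    · obtain ⟨o', ho'⟩ := hty r' hr
      have hp := (h.ok.val.grp.mem _ _ _ (ho'.con_mem p q g hm)).1
      rcases h.cn r' (List.mem_cons_of_mem _ hr) p q g hm with e | e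
      · exact Or.inl ((k.kd p hp fun e' => hb (e' ▸ hp)).trans e)
      · exact Or.inr e

theorem core (hL : LnStmt) (hD : DetStmt) (hE : EnvStmt) (hM : MachStmt) (hA : AsmStmt)
    (hO : LoopStmt) (hG : GoodStmt) (hN : NfStmt) (hB : BstStmt) : CoreStmt := by
  intro G T _ _ _ ℓ U φ hfg hct hR hC hab hP
  obtain ⟨Ln, hT⟩ := hL G T ℓ hct hC
  obtain ⟨hdet, hdisc⟩ := hD G U φ hfg hR
  obtain ⟨Ω, _, π, h1, h2, hEnv⟩ := hE G T ℓ Ln hC hT hab hP hdisc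
  obtain ⟨J, B, N, St, _, _, _, _, K, hK⟩ := hM G T Ω Ln π hT hdet h1 h2
  obtain ⟨I, _, _, Φ, rs, hrs⟩ := hA G Ω J B N St K hK
  obtain ⟨Φ₁, hΦ₁⟩ := hO G Ω I Φ rs hEnv hrs
  obtain ⟨Φ₂, hΦ₂⟩ := hG G Ω I Φ₁ hEnv hΦ₁
  exact hB G Ω I Φ₂ hct hab hfg hΦ₂ (hN G Ω I Φ₂ hct hdisc hΦ₂)

lemma rep_of_lim {G : Type} [Group G] (h : Lim G) : ∃ U φ, Rep (G := G) U φ := by
  obtain ⟨U, Φ, hΦ⟩ := h
  have ex : ∀ g, ∃ f : ℕ → F2, (f : Germ (U : Filter ℕ) F2) = Φ g := fun g =>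
    Germ.inductionOn (Φ g) fun f => ⟨f, rfl⟩
  choose φ hφ using ex
  refine ⟨U, φ, fun g h => ?_, fun g hg => ?_⟩
  · have : ((φ (g * h) : ℕ → F2) : Germ (U : Filter ℕ) F2) = ((φ g * φ h : ℕ → F2) : Germ _ _) := by
      rw [Germ.coe_mul, hφ, hφ, hφ, map_mul]
    exact Germ.coe_eq.1 this
  · refine Ultrafilter.eventually_not.2 fun e => hg (hΦ ?_)
    rw [map_one, ← hφ]
    exact Germ.coe_eq.2 e

theorem hier2 (hU : UltStmt) (hM : MeasStmt) (hA : AbStmt) (hC : CoreStmt) : Un.HierStmt := by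
  have key : ∀ (N : ℕ) (G : Type) [Group G] (U : Ultrafilter ℕ) (φ : G → ℕ → F2), Group.FG G →
      CT G → Rep U φ → Bnd U φ N → Hier G := by
    intro N
    induction N with
    | zero =>
      intro G _ U φ hfg _ hR hB
      rcases hU G U φ hfg hR with h | ⟨T, _, _, ℓ, g₀, -, h0, -⟩
      · exact h
      · simpa using hB [g₀] (by simpa using h0) (by simp)
    | succ N ih =>
      intro G _ U φ hfg hct hR hB
      rcases hU G U φ hfg hR with h | ⟨T, _, _, ℓ, g₀, hc, h0, h1⟩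
      · exact h
      refine hC G T ℓ U φ hfg hct hR hc (hA G U φ hfg hR) ?_
      rintro P hP ⟨z, hz⟩
      refine ih P U (fun g => φ g) ((Group.fg_iff_subgroup_fg P).2 hP)
        (ct_of_inj P.subtype_injective hct)
        ⟨fun g h => hR.mul g h, fun g hg => hR.ne g fun e => hg (Subtype.ext e)⟩ fun l l1 l2 => ?_
      have := hB (l.map Subtype.val ++ [g₀]) (by
        intro g hg
        rcases List.mem_append.1 hg with hg | hg
        · obtain ⟨x, hx, rfl⟩ := List.mem_map.1 hg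
          exact fun e => l1 x hx (Subtype.ext e)
        · rw [List.mem_singleton.1 hg]; exact h0) (by
        rw [List.pairwise_append]
        refine ⟨List.pairwise_map.2 l2, by simp, fun a ha b hb => ?_⟩
        obtain ⟨x, -, rfl⟩ := List.mem_map.1 ha
        rw [List.mem_singleton.1 hb]
        exact h1 x z (hz x x.2))
      simpa using this
  intro G _ hfg hL
  obtain ⟨U, φ, hR⟩ := rep_of_lim hL
  obtain ⟨N, hN⟩ := hM G U φ hfg hR
  exact key N G U φ hfg (ct_lim hL) hR hN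

end Pool.Agent.MP_494aff_an.Fr

end MrgPart3

-- marker of a merged file
example : 731051 + 481604 = 731051 + 481604 := rfl

end MrgPart0

-- ======== part 1: formerly Pool.Agent.MP_494aff_an.lf.Loc
section MrgPart1

/-! The coefficients of a cocycle along the cosets of the extra generator. -/

open Monoid
open scoped ComplexConjugate

namespace Pool.Agent.MP_494aff_an.Lf

open Pool.Agent.MP_494aff_an.Pinch Pool.Agent.MP_494aff_an.Pinch.TowP

noncomputable section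

namespace LocP

variable {G : Type} [Group G]

lemma smul_mk (x z : FZ G) : x • (z : Cs G) = ((x * z : FZ G) : Cs G) := rfl

lemma inl_inj {x x' : G} (h : ((Coprod.inl x : FZ G) : Cs G) = (Coprod.inl x' : FZ G)) :
    x = x' := by
  obtain ⟨k, hk⟩ := Subgroup.mem_zpowers_iff.1 (QuotientGroup.eq.1 h)
  have := congrArg (Coprod.fst : FZ G →* G) hk
  simp only [gen, map_zpow, map_mul, map_inv, Coprod.fst_apply_inl, Coprod.fst_apply_inr,
    one_zpow] at this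
  exact inv_mul_eq_one.1 this.symm

open Classical in
/-- The coefficient of a vector at the point of `G` in a coset. -/
def co (v : H (FZ G)) (q : Cs G) : ℝ :=
  if h : ∃ x : G, q = ((Coprod.inl x : FZ G) : Cs G) then (v (Coprod.inl h.choose)).re else 0

lemma co_inl (v : H (FZ G)) (x : G) :
    co v ((Coprod.inl x : FZ G) : Cs G) = (v (Coprod.inl x)).re := by
  have h : ∃ x' : G, ((Coprod.inl x : FZ G) : Cs G) = ((Coprod.inl x' : FZ G) : Cs G) := ⟨x, rfl⟩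
  rw [co, dif_pos h, ← inl_inj h.choose_spec]

lemma co_ne (v : H (FZ G)) {q : Cs G} (h : ∀ x : G, q ≠ ((Coprod.inl x : FZ G) : Cs G)) :
    co v q = 0 := by
  rw [co, dif_neg (not_exists.2 h)]

lemma co_mul (v w : H (FZ G)) (g : G) (q : Cs G) :
    co (v + lam (Coprod.inl g) w) q = co v q + co w ((Coprod.inl g : FZ G)⁻¹ • q) := by
  by_cases h : ∃ x : G, q = ((Coprod.inl x : FZ G) : Cs G)
  · obtain ⟨x, rfl⟩ := h
    rw [smul_mk, ← map_inv, ← map_mul, co_inl, co_inl, co_inl, lp.coeFn_add, Pi.add_apply,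
      Complex.add_re, lam_coef, map_mul, map_inv]
  · have h' := not_exists.1 h
    rw [co_ne _ h', co_ne _ h', co_ne, add_zero]
    intro x hx
    refine h' (g * x) ?_
    rw [map_mul, ← smul_mk, ← hx, smul_inv_smul]

/-- A cocycle on the first factor extends. -/
lemma exists_ext (b : G → Cs G → ℝ)
    (hb : ∀ g h q, b (g * h) q = b g q + b h ((Coprod.inl g : FZ G)⁻¹ • q)) :
    ∃ B : FZ G → Cs G → ℝ, (∀ x z q, B (x * z) q = B x q + B z (x⁻¹ • q)) ∧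
      (∀ k q, B (Coprod.inr k) q = 0) ∧ ∀ g q, B (Coprod.inl g) q = b g q := by
  have h1 : ∀ q, b 1 q = 0 := fun q => by
    have := hb 1 1 q
    rw [mul_one, map_one, inv_one, one_smul] at this
    linarith
  let f : G →* Function.End (Cs G × ℝ) :=
    { toFun := fun g u => ((Coprod.inl g : FZ G) • u.1, u.2 + b g ((Coprod.inl g : FZ G) • u.1))
      map_one' := funext fun u => by
        rw [h1, map_one, one_smul, add_zero]; rfl
      map_mul' := fun g h => funext fun u => by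
        change _ = ((Coprod.inl g : FZ G) • (Coprod.inl h : FZ G) • u.1,
          u.2 + b h ((Coprod.inl h : FZ G) • u.1) +
            b g ((Coprod.inl g : FZ G) • (Coprod.inl h : FZ G) • u.1))
        rw [hb, map_mul, mul_smul, inv_smul_smul, add_assoc, add_comm (b h _)] }
  let f' : Multiplicative ℤ →* Function.End (Cs G × ℝ) :=
    { toFun := fun k u => ((Coprod.inr k : FZ G) • u.1, u.2)
      map_one' := funext fun u => by rw [map_one, one_smul]; rfl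
      map_mul' := fun k l => funext fun u => by rw [map_mul, mul_smul]; rfl }
  let Φ : FZ G →* Function.End (Cs G × ℝ) := Coprod.lift f f'
  have hl : ∀ g u, Φ (Coprod.inl g) u =
      ((Coprod.inl g : FZ G) • u.1, u.2 + b g ((Coprod.inl g : FZ G) • u.1)) := fun _ _ => rfl
  have hr : ∀ k u, Φ (Coprod.inr k) u = ((Coprod.inr k : FZ G) • u.1, u.2) := fun _ _ => rfl
  have hm : ∀ x z u, Φ (x * z) u = Φ x (Φ z u) := fun x z u => by rw [map_mul]; rfl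
  have key : ∀ x q t, Φ x (q, t) = (x • q, t + (Φ x (q, 0)).2) := fun x => by
    induction x using Coprod.induction_on with
    | inl g => intro q t; rw [hl, hl]; simp
    | inr k => intro q t; rw [hr, hr]; simp
    | mul x z hx hz =>
      intro q t
      rw [hm, hm, hz q t, hz q 0, hx, hx _ (0 + _), mul_smul]
      simp [add_assoc]
  refine ⟨fun x q => (Φ x (x⁻¹ • q, 0)).2, fun x z q => ?_, fun k q => by simp only [hr],
    fun g q => by simp only [hl, smul_inv_smul, zero_add]⟩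
  simp only []
  rw [hm, key z, key x, mul_inv_rev, mul_smul, smul_inv_smul]
  ring

variable {S : Finset G} {ℓ : FZ G → ℕ} {φ : FZ G → Cs G → ℤ} {L : FZ G → Cs G → ℕ}

/-- The letters of a shortest word. -/
lemma decomp (hW : WL S ℓ φ L) {B : FZ G → Cs G → ℝ}
    (hB : ∀ x z q, B (x * z) q = B x q + B z (x⁻¹ • q)) (h0 : ∀ (k : ℤ) q, B (gen G ^ k) q = 0)
    (n : ℕ) : ∀ x, ℓ x = n → ∃ P : G → Finset (FZ G),
      (∀ s, ∀ p ∈ P s, ℓ p + ℓ (p⁻¹ * x) = n ∧ ℓ p < n) ∧ (∀ s, (P s).card ≤ n) ∧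
      ∀ q, B x q = ∑ s ∈ S, ∑ p ∈ P s, B (Coprod.inl s) (p⁻¹ • q) := by
  classical
  induction n with
  | zero =>
    intro x hx
    refine ⟨fun _ => ∅, by simp, by simp, fun q => ?_⟩
    have := h0 0 q
    rw [zpow_zero] at this
    simp [hW.eq_one x hx, this]
  | succ n ih =>
    intro x hx
    obtain ⟨p₀, s₀, rfl, h1, h2, h3⟩ := hW.geo x n hx
    obtain ⟨P, hP, hc, hs⟩ := ih p₀ h1
    have hP' : ∀ s, ∀ p ∈ P s, ℓ p + ℓ (p⁻¹ * (p₀ * s₀)) = n + 1 ∧ ℓ p < n + 1 := fun s p hp => by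
      obtain ⟨h4, h5⟩ := hP s p hp
      have h6 := hW.sub (p⁻¹ * p₀) s₀
      have h7 := hW.sub p (p⁻¹ * (p₀ * s₀))
      rw [mul_inv_cancel_left] at h7
      rw [mul_assoc] at h6
      omega
    rcases h3 with ⟨g, hg, rfl⟩ | ⟨k, rfl⟩
    · have hn : ∀ s, p₀ ∉ P s := fun s h => by have := (hP s p₀ h).2; omega
      refine ⟨fun s => if s = g then insert p₀ (P s) else P s, fun s p hp => ?_, fun s => ?_,
        fun q => ?_⟩
      · beta_reduce at hp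
        split_ifs at hp with h
        · rcases Finset.mem_insert.1 hp with rfl | hp
          · rw [inv_mul_cancel_left]; omega
          · exact hP' s p hp
        · exact hP' s p hp
      · have := hc s
        beta_reduce
        split_ifs with h
        · rw [Finset.card_insert_of_notMem (hn s)]; omega
        · omega
      · have e : ∀ s, ∑ p ∈ (if s = g then insert p₀ (P s) else P s),
            B (Coprod.inl s) (p⁻¹ • q) = ∑ p ∈ P s, B (Coprod.inl s) (p⁻¹ • q) +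
              if s = g then B (Coprod.inl s) (p₀⁻¹ • q) else 0 := fun s => by
          split_ifs with h
          · rw [Finset.sum_insert (hn s), add_comm]
          · rw [add_zero]
        simp only [e]
        rw [Finset.sum_add_distrib, Finset.sum_ite_eq' S g, if_pos hg, hB, hs]
    · exact ⟨P, hP', fun s => (hc s).trans n.le_succ, fun q => by rw [hB, h0, add_zero, hs]⟩

/-- The point of the coset `q` at height `m`. -/
def pt (φ : FZ G → Cs G → ℤ) (q : Cs G) (m : ℤ) : FZ G := q.out * gen G ^ (m - φ q.out q)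

lemma mk_mul (z : FZ G) (k : ℤ) : ((z * gen G ^ k : FZ G) : Cs G) = z :=
  QuotientGroup.mk_mul_of_mem z (Subgroup.zpow_mem_zpowers _ k)

lemma pt_mk (q : Cs G) (m : ℤ) : (pt φ q m : Cs G) = q := by
  rw [pt, mk_mul, QuotientGroup.out_eq']

lemma φ_shift (hW : WL S ℓ φ L) (z : FZ G) (k : ℤ) :
    φ (z * gen G ^ k) (z : Cs G) = φ z (z : Cs G) + k := by
  rw [hW.φ_mul, smul_mk, inv_mul_cancel, hW.φ_gen]

lemma φ_pt (hW : WL S ℓ φ L) (q : Cs G) (m : ℤ) : φ (pt φ q m) q = m := by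
  have := φ_shift hW q.out (m - φ q.out q)
  rw [QuotientGroup.out_eq'] at this
  rw [pt, this]
  ring

lemma eq_pt (hW : WL S ℓ φ L) (z : FZ G) : z = pt φ (z : Cs G) (φ z z) := by
  obtain ⟨k, hk⟩ := Subgroup.mem_zpowers_iff.1
    (QuotientGroup.eq.1 (QuotientGroup.out_eq' (z : Cs G)))
  have h1 : z = (z : Cs G).out * gen G ^ k := by rw [hk, mul_inv_cancel_left]
  have h2 := φ_shift hW (z : Cs G).out k
  rw [← h1, QuotientGroup.out_eq'] at h2
  rw [pt, h2, add_sub_cancel_left, ← h1]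

/-- On a geodesic only two points of a coset are seen. -/
lemma co_two (hW : WL S ℓ φ L) {v : H (FZ G)} (hv : Supp (Coprod.inl : G →* FZ G).range v)
    {p x : FZ G} (hp : ℓ p + ℓ (p⁻¹ * x) = ℓ x) (q : Cs G) :
    co v (p⁻¹ • q) = (v (p⁻¹ * pt φ q 0)).re +
      (if φ x q = 0 then 0 else 1) * (v (p⁻¹ * pt φ q (φ x q))).re := by
  have hz : ∀ m, v (p⁻¹ * pt φ q m) ≠ 0 → ∃ g : G, p⁻¹ * pt φ q m = Coprod.inl g ∧
      p⁻¹ • q = ((Coprod.inl g : FZ G) : Cs G) ∧ m = φ p q := fun m hm => by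
    obtain ⟨g, hg⟩ : p⁻¹ * pt φ q m ∈ (Coprod.inl : G →* FZ G).range := by
      by_contra h
      exact hm (hv _ h)
    refine ⟨g, hg.symm, by rw [hg, ← smul_mk, pt_mk], ?_⟩
    have h1 := φ_pt hW q m
    rw [← mul_inv_cancel_left p (pt φ q m), ← hg, hW.φ_mul, hW.φ_inl, add_zero] at h1
    exact h1.symm
  have hne : ∀ m, m ≠ φ p q → v (p⁻¹ * pt φ q m) = 0 := fun m hm => by
    by_contra h
    obtain ⟨g, -, -, h1⟩ := hz m h
    exact hm h1
  have hco : co v (p⁻¹ • q) = (v (p⁻¹ * pt φ q (φ p q))).re := by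
    by_cases h : ∃ g : G, p⁻¹ • q = ((Coprod.inl g : FZ G) : Cs G)
    · obtain ⟨g, hg⟩ := h
      have h1 : ((p * Coprod.inl g : FZ G) : Cs G) = q := by rw [← smul_mk, ← hg, smul_inv_smul]
      have h2 := eq_pt hW (p * Coprod.inl g)
      rw [h1, hW.φ_mul, hW.φ_inl, add_zero] at h2
      rw [hg, co_inl, ← h2, inv_mul_cancel_left]
    · rw [co_ne _ (not_exists.1 h)]
      by_contra h1
      obtain ⟨g, -, h2, -⟩ := hz (φ p q) fun h3 => h1 (by rw [h3]; rfl)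
      exact h ⟨g, h2⟩
  rw [hco]
  split_ifs with h
  · rw [zero_mul, add_zero]
    rcases hW.two p x q hp with h1 | h1
    · rw [h1]
    · rw [h1, h]
  · rcases hW.two p x q hp with h1 | h1
    · rw [hne (φ x q) (by rw [h1]; exact h), h1]; simp
    · rw [hne 0 (by rw [h1]; exact Ne.symm h), h1]; simp

/-- The weighted bound for one point in each coset. -/
lemma family (hW : WL S ℓ φ L) {T : Op (FZ G)} (hT : T ∈ LL (FZ G)) {a a₀ C : ℝ} (ha₀ : 0 ≤ a₀)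
    (ha : 2 * a₀ ≤ a) (hloc : ∀ ψ, Lp ℓ a ψ → ∀ P Q : Finset (FZ G), (∀ p ∈ P, ψ p = 0) →
      ∑ z ∈ Q, Real.exp (2 * ψ z) * ‖star T (∑ p ∈ P, dl p) z‖ ^ 2 ≤ C ^ 2 * P.card)
    {x : FZ G} {P : Finset (FZ G)} (hP : ∀ p ∈ P, ℓ p + ℓ (p⁻¹ * x) = ℓ x) (f : Cs G → FZ G)
    (hf : ∀ q, (f q : Cs G) = q) (Z : Finset (Cs G)) :
    ∑ q ∈ Z, (∑ p ∈ P, (T (dl 1) (p⁻¹ * f q)).re) ^ 2 *
      Real.exp (2 * a₀ * ((L x q : ℝ) - ℓ x)) ≤ Real.exp (2 * a₀) * (C ^ 2 * P.card) := by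
  have ha' : 0 ≤ a := by linarith
  set D : FZ G → ℝ := fun v => a / 2 * ((ℓ v : ℝ) + ℓ (v * x) - ℓ x) with hD
  have hE : ∀ v, (0 : ℝ) ≤ (ℓ v : ℝ) + ℓ (v * x) - ℓ x := fun v => by
    have h1 := hW.sub v⁻¹ (v * x)
    rw [inv_mul_cancel_left, hW.symm] at h1
    have : (ℓ x : ℝ) ≤ ℓ v + ℓ (v * x) := by exact_mod_cast h1
    linarith
  have hD0 : ∀ v, 0 ≤ D v := fun v => mul_nonneg (by linarith) (hE v)
  have hlip : ∀ g v, |(ℓ (g * v) : ℝ) - ℓ v| ≤ ℓ g := fun g v => by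
    have h1 := hW.sub g v
    have h2 := hW.sub g⁻¹ (g * v)
    rw [inv_mul_cancel_left, hW.symm] at h2
    have h3 : (ℓ (g * v) : ℝ) ≤ ℓ g + ℓ v := by exact_mod_cast h1
    have h4 : (ℓ v : ℝ) ≤ ℓ g + ℓ (g * v) := by exact_mod_cast h2
    rw [abs_le]
    constructor <;> linarith
  set R : ℝ := ∑ q ∈ Z, D (f q)⁻¹ with hR
  have hR0 : 0 ≤ R := Finset.sum_nonneg fun q _ => hD0 _
  have hψ : Lp ℓ a fun v => min R (D v) := by
    refine ⟨⟨R, fun v => ?_⟩, fun g v => ?_⟩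
    · rw [abs_of_nonneg (le_min hR0 (hD0 v))]; exact min_le_left _ _
    · refine (abs_min_sub_min_le_max _ _ _ _).trans (max_le (by simp; positivity) ?_)
      have h1 := abs_le.1 (hlip g v)
      have h2 := abs_le.1 (hlip g (v * x))
      rw [← mul_assoc] at h2
      simp only [hD]
      rw [← mul_sub, abs_mul, abs_of_nonneg (by linarith : 0 ≤ a / 2)]
      have h3 : |(ℓ (g * v) : ℝ) + ℓ (g * v * x) - ℓ x - (ℓ v + ℓ (v * x) - ℓ x)| ≤ 2 * ℓ g := by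
        rw [abs_le]
        constructor <;> linarith [h1.1, h1.2, h2.1, h2.2]
      nlinarith
  have hinj : Function.Injective fun q => (f q)⁻¹ := fun q q' h => by
    rw [← hf q, ← hf q', inv_injective h]
  have h1 := hloc _ hψ (P.map (Equiv.inv (FZ G)).toEmbedding) (Z.map ⟨_, hinj⟩) fun p' hp' => by
    obtain ⟨p, hp, rfl⟩ := Finset.mem_map.1 hp'
    have h2 : (ℓ p : ℝ) + ℓ (p⁻¹ * x) = ℓ x := by exact_mod_cast hP p hp
    change min R (a / 2 * ((ℓ p⁻¹ : ℝ) + ℓ (p⁻¹ * x) - ℓ x)) = 0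
    rw [hW.symm, h2, sub_self, mul_zero, min_eq_right hR0]
  rw [Finset.card_map, Finset.sum_map, Finset.sum_map] at h1
  refine le_trans ?_ (mul_le_mul_of_nonneg_left h1 (Real.exp_pos _).le)
  rw [Finset.mul_sum]
  refine Finset.sum_le_sum fun q hq => ?_
  change _ ≤ Real.exp (2 * a₀) * (Real.exp (2 * min R (D (f q)⁻¹)) *
    ‖star T (∑ p ∈ P, dl p⁻¹) (f q)⁻¹‖ ^ 2)
  have h2 : D (f q)⁻¹ ≤ R :=
    Finset.single_le_sum (f := fun q => D (f q)⁻¹) (fun q _ => hD0 _) hq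
  have h3 : star T (∑ p ∈ P, dl p⁻¹) (f q)⁻¹ = conj (∑ p ∈ P, T (dl 1) (p⁻¹ * f q)) := by
    rw [map_sum, lp.coeFn_sum, Finset.sum_apply, map_sum]
    exact Finset.sum_congr rfl fun p _ => by rw [star_coef', LL_coef hT, inv_inv]
  have h4 : (∑ p ∈ P, (T (dl 1) (p⁻¹ * f q)).re) ^ 2 ≤
      ‖∑ p ∈ P, T (dl 1) (p⁻¹ * f q)‖ ^ 2 := by
    rw [← Complex.re_sum, ← sq_abs]
    exact pow_le_pow_left₀ (abs_nonneg _) (Complex.abs_re_le_norm _) 2
  have h5 : (L x q : ℝ) ≤ ℓ (f q) + 1 + ℓ ((f q)⁻¹ * x) := by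
    have := hW.le x (f q)
    rw [hf] at this
    exact_mod_cast this
  have h6 : 2 * a₀ * ((L x q : ℝ) - ℓ x) ≤ 2 * a₀ + 2 * D (f q)⁻¹ := by
    have h7 := hE (f q)⁻¹
    simp only [hD]
    rw [hW.symm] at h7 ⊢
    nlinarith
  rw [min_eq_right h2, h3, Complex.norm_conj, ← mul_assoc, ← Real.exp_add, mul_comm]
  exact mul_le_mul (Real.exp_le_exp.2 h6) h4 (sq_nonneg _) (Real.exp_pos _).le

end LocP

open LocP in
theorem loc : LocStmt := by
  intro G _ S ℓ φ L β hW hβ hA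
  obtain ⟨B, hB, hr, hl⟩ := exists_ext (fun g => co (β g (dl 1))) fun g h q => by
    rw [hβ g h, ← co_mul]; rfl
  have h0 : ∀ (k : ℤ) q, B (gen G ^ k) q = 0 := fun k q => by rw [gen, ← map_zpow, hr]
  choose a C ha hloc using fun s => (hA s).loc
  obtain ⟨a₀, ha₀, hle⟩ : ∃ a₀ : ℝ, 0 < a₀ ∧ ∀ s ∈ S, 2 * a₀ ≤ a s := by
    rcases S.eq_empty_or_nonempty with h | h
    · exact ⟨1, one_pos, by simp [h]⟩
    · obtain ⟨s, -, hs⟩ := S.exists_min_image a h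
      exact ⟨a s / 2, half_pos (ha s), fun t ht => by linarith [hs t ht]⟩
  refine ⟨a₀, S.card * ∑ s ∈ S, 4 * (Real.exp (2 * a₀) * C s ^ 2), B, ha₀, by positivity, hB,
    fun q => hr _ q, fun g x => ?_, fun g q h => by rw [hl, co_ne _ h], fun x Z => ?_⟩
  · rw [hl, co_inl]
    exact Complex.ext rfl (by rw [Complex.ofReal_im, (hA g).real])
  obtain ⟨P, hP, hc, hs⟩ := decomp hW hB h0 (ℓ x) x rfl
  have h1 : ∀ s ∈ S, ∑ q ∈ Z, (∑ p ∈ P s, B (Coprod.inl s) (p⁻¹ • q)) ^ 2 *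
      Real.exp (2 * a₀ * ((L x q : ℝ) - ℓ x)) ≤
      4 * (Real.exp (2 * a₀) * C s ^ 2) * (1 + ℓ x) := fun s hsS => by
    have h2 := family hW (hA s).mem ha₀.le (hle s hsS) (hloc s) (fun p hp => (hP s p hp).1)
      (fun q => pt φ q 0) (fun q => pt_mk q _) Z
    have h3 := family hW (hA s).mem ha₀.le (hle s hsS) (hloc s) (fun p hp => (hP s p hp).1)
      (fun q => pt φ q (φ x q)) (fun q => pt_mk q _) Z
    have h4 : ((P s).card : ℝ) ≤ 1 + ℓ x := by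
      have : ((P s).card : ℝ) ≤ ℓ x := by exact_mod_cast hc s
      linarith
    have h5 : Real.exp (2 * a₀) * (C s ^ 2 * (P s).card) ≤
        Real.exp (2 * a₀) * C s ^ 2 * (1 + ℓ x) := by
      rw [← mul_assoc]; gcongr
    have h6 := add_le_add (mul_le_mul_of_nonneg_left h2 zero_le_two)
      (mul_le_mul_of_nonneg_left h3 zero_le_two)
    refine le_trans ?_ (h6.trans (by linarith))
    rw [Finset.mul_sum, Finset.mul_sum, ← Finset.sum_add_distrib]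
    refine Finset.sum_le_sum fun q _ => ?_
    rw [← mul_assoc, ← mul_assoc, ← add_mul]
    refine mul_le_mul_of_nonneg_right ?_ (Real.exp_pos _).le
    rw [Finset.sum_congr rfl fun p hp => (hl s _).trans (co_two hW (hA s).supp (hP s p hp).1 q),
      Finset.sum_add_distrib, ← Finset.mul_sum]
    generalize ∑ p ∈ P s, (β s (dl 1) (p⁻¹ * pt φ q 0)).re = u
    generalize ∑ p ∈ P s, (β s (dl 1) (p⁻¹ * pt φ q (φ x q))).re = w
    split_ifs <;> nlinarith [sq_nonneg (u - w), sq_nonneg u, sq_nonneg w]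
  calc ∑ q ∈ Z, B x q ^ 2 * Real.exp (2 * a₀ * ((L x q : ℝ) - ℓ x))
      ≤ ∑ q ∈ Z, S.card * ∑ s ∈ S, (∑ p ∈ P s, B (Coprod.inl s) (p⁻¹ • q)) ^ 2 *
          Real.exp (2 * a₀ * ((L x q : ℝ) - ℓ x)) := Finset.sum_le_sum fun q _ => by
        rw [hs, ← Finset.sum_mul, ← mul_assoc]
        exact mul_le_mul_of_nonneg_right sq_sum_le_card_mul_sum_sq (Real.exp_pos _).le
    _ ≤ _ := by
        rw [← Finset.mul_sum, Finset.sum_comm, mul_assoc, Finset.sum_mul]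
        exact mul_le_mul_of_nonneg_left (Finset.sum_le_sum h1) (Nat.cast_nonneg _)

end

end Pool.Agent.MP_494aff_an.Lf

end MrgPart1

-- ======== part 2: formerly Pool.Agent.MP_494aff_an.fr.Qb
section MrgPart2

/-! A relator in block form can be removed. -/

namespace Pool.Agent.MP_494aff_an.Fr

open Pool.Agent.MP_494aff_an.Pinch Pool.Agent.MP_494aff_an.Pinch.TowP Pool.Agent.MP_494aff_an.Lf
open Pool.Agent.MP_494aff_an.Se

namespace QbP

variable {G Ω I : Type} [Group G] [MulAction G Ω]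

/-- The weight of a block. -/
def wt : Bl G I → ℕ
  | .cr _ _ => 2
  | .hd _ _ _ _ => 3
  | .bd _ _ _ _ _ => 1

/-- The weight of a list of blocks. -/
def W (Bs : List (Bl G I)) : ℕ := (Bs.map wt).sum

omit [Group G] in
lemma wt_pos (B : Bl G I) : 1 ≤ wt B := by
  cases B <;> simp [wt]

omit [Group G] in
lemma wt_bd (k : Bool) (x v : I) (g c : G) : wt (.bd k x v g c : Bl G I) = 1 := rfl

omit [Group G] in
lemma W_cons (B : Bl G I) (Bs : List (Bl G I)) : W (B :: Bs) = wt B + W Bs := by simp [W]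

omit [Group G] in
lemma W_append (Bs Bs' : List (Bl G I)) : W (Bs ++ Bs') = W Bs + W Bs' := by simp [W]

/-- Two blocks that are not handles have labels that do not commute. -/
def NCm (Bs : List (Bl G I)) : Prop :=
  ∃ B ∈ Bs, ∃ B' ∈ Bs, ¬ B.IsHd ∧ ¬ B'.IsHd ∧ B.lab * B'.lab ≠ B'.lab * B.lab

/-- The invariant of the induction. -/
def Inv (Bs : List (Bl G I)) : Prop := (∀ B ∈ Bs, ¬ B.IsIn) ∨ NCm Bs

lemma Inv.drop {A A' : List (Bl G I)} {B : Bl G I} (h : Inv (A ++ B :: A'))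
    (hB : B.IsHd ∨ B.lab = 1) : Inv (A' ++ A) := by
  rcases h with h | ⟨B₁, h1, B₂, h2, n1, n2, hne⟩
  · refine Or.inl fun B' hB' => h B' ?_
    simp only [List.mem_append, List.mem_cons] at hB' ⊢
    tauto
  · have e1 : B₁ ≠ B := by
      rintro rfl
      rcases hB with hB | hB
      · exact n1 hB
      · exact hne (by simp [hB])
    have e2 : B₂ ≠ B := by
      rintro rfl
      rcases hB with hB | hB
      · exact n2 hB
      · exact hne (by simp [hB])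
    refine Or.inr ⟨B₁, ?_, B₂, ?_, n1, n2, hne⟩
    · simp only [List.mem_append, List.mem_cons] at h1 ⊢
      tauto
    · simp only [List.mem_append, List.mem_cons] at h2 ⊢
      tauto

lemma sq_ne (h : CT G) {g : G} (hg : g ≠ 1) : g * g ≠ 1 := fun e => by
  have := h.tf g hg 2 (by rw [zpow_two, e])
  omega

/-- An element commutes with whatever commutes with its square. -/
lemma root_comm (h : CT G) {g z : G} (hg : g * g ≠ 1) (hz : g * g * z = z * (g * g)) :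
    g * z = z * g :=
  h.ct (g * g) g z hg (mul_assoc g g g) hz

/-- Neighbours commute, so all labels commute. -/
lemma adj (h : CT G) : ∀ Bs : List (Bl G I), (∀ B ∈ Bs, B.lab ≠ 1) →
    (∃ A B₀ B₁ A', Bs = A ++ B₀ :: B₁ :: A' ∧ B₀.lab * B₁.lab ≠ B₁.lab * B₀.lab) ∨
      ∀ B ∈ Bs, ∀ B' ∈ Bs, B.lab * B'.lab = B'.lab * B.lab
  | [], _ => Or.inr (by simp)
  | [B], _ => Or.inr (by simp)
  | B₀ :: B₁ :: R, h1 => by
    by_cases h01 : B₀.lab * B₁.lab = B₁.lab * B₀.lab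
    · rcases adj h (B₁ :: R) (fun B hB => h1 B (List.mem_cons_of_mem _ hB)) with
        ⟨A, C₀, C₁, A', e, hne⟩ | hc
      · exact Or.inl ⟨B₀ :: A, C₀, C₁, A', by rw [e]; rfl, hne⟩
      · have h0 : ∀ B ∈ B₁ :: R, B₀.lab * B.lab = B.lab * B₀.lab := fun B hB =>
          h.ct B₁.lab _ _ (h1 B₁ (by simp)) h01.symm (hc B₁ List.mem_cons_self B hB)
        refine Or.inr fun B hB B' hB' => ?_
        rcases List.mem_cons.1 hB with rfl | hB <;> rcases List.mem_cons.1 hB' with e | hB'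
        · rw [e]
        · exact h0 _ hB'
        · rw [e]
          exact (h0 _ hB).symm
        · exact hc _ hB _ hB'
    · exact Or.inl ⟨[], B₀, B₁, R, rfl, h01⟩

/-- The point fixed by the label of an outer boundary block. -/
lemma bd_fix {Φ : Frm G Ω I} (hv : Φ.Val) {b x v : I} {g c : G}
    (hB : Φ.BT b (.bd false x v g c)) (hc : g⁻¹ * c * g ≠ 1) :
    c ≠ 1 ∧ (g⁻¹ * c * g) • g⁻¹ • Φ.ω v = g⁻¹ • Φ.ω v := by
  have hc1 : c ≠ 1 := fun e => hc (by simp [e])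
  have hk : Φ.kd v = Kd.E := (hB.2.2.1 rfl).resolve_left hc1
  refine ⟨hc1, ?_⟩
  rw [mul_smul, mul_smul, smul_inv_smul, (hv.kE v v c hB.2.1 hk).2]

lemma fix_comm (hE : Env G Ω) {l z : G} {a : Ω} (hl : l ≠ 1) (ha : l • a = a)
    (hz : l * z = z * l) : z • a = a :=
  hE.uniq l _ _ hl (by rw [← mul_smul, hz, mul_smul, ha]) ha

omit [Group G] in
lemma shape {B : Bl G I} (h1 : ¬ B.IsHd) (h2 : ¬ B.IsIn) :
    (∃ m g, B = .cr m g) ∨ ∃ x v g c, B = .bd false x v g c := by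
  cases B with
  | cr m g => exact Or.inl ⟨m, g, rfl⟩
  | hd => exact absurd trivial h1
  | bd k x v g c =>
    cases k with
    | false => exact Or.inr ⟨x, v, g, c, rfl⟩
    | true => exact absurd rfl h2

variable [DecidableEq I] {b : I} {X : Set I} {C : (I → I → G → F2) → (I → F2) → Prop}

omit [DecidableEq I] in
lemma fin_of_mov {Φ : Frm G Ω I} {Bs : List (Bl G I)} (h : Mov Φ b Bs X C)
    (hP : ∀ Φ' : Frm G Ω I, Φ'.Blk b Bs X C → Fin0 Φ' b X C) : Fin0 Φ b X C := by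
  obtain ⟨Φ', h1, h2⟩ := h
  obtain ⟨Φ'', h3, h4⟩ := hP Φ' h1
  exact ⟨Φ'', h3, h2.trans h4⟩

/-- All labels fix one point. -/
lemma star_fix (h3 : StarEStmt) (hE : Env G Ω) {Φ : Frm G Ω I} {Bs : List (Bl G I)}
    (h : Φ.Blk b Bs X C) (hh : ∀ B ∈ Bs, ¬ B.IsHd) (hi : ∀ B ∈ Bs, ¬ B.IsIn)
    (hl : ∀ B ∈ Bs, B.lab ≠ 1) (a : Ω) (ha : ∀ B ∈ Bs, B.lab • a = a) : Fin0 Φ b X C := by
  refine (h3 G Ω I Φ b Bs X C h).1 ⟨a, fun B hB => ?_⟩
  rcases shape (hh B hB) (hi B hB) with ⟨m, g, rfl⟩ | ⟨x, v, g, c, rfl⟩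
  · exact Or.inl ⟨m, g, rfl, fix_comm hE (hl _ hB) (ha _ hB) (mul_assoc g g g)⟩
  · obtain ⟨hc, hf⟩ := bd_fix h.ok.val (h.bt _ hB) (hl _ hB)
    refine Or.inr ⟨x, v, g, c, rfl, hc, ?_⟩
    rw [hE.uniq _ _ _ (hl _ hB) (ha _ hB) hf, smul_inv_smul]

/-- All labels commute. -/
lemma all_comm (h3 : StarEStmt) (hE : Env G Ω) {Φ : Frm G Ω I} {Bs : List (Bl G I)}
    (h : Φ.Blk b Bs X C) (hh : ∀ B ∈ Bs, ¬ B.IsHd) (hi : ∀ B ∈ Bs, ¬ B.IsIn)
    (hl : ∀ B ∈ Bs, B.lab ≠ 1) (hc : ∀ B ∈ Bs, ∀ B' ∈ Bs, B.lab * B'.lab = B'.lab * B.lab) :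
    Fin0 Φ b X C := by
  by_cases hcr : ∀ B ∈ Bs, ∃ m g, B = .cr m g
  · refine (h3 G Ω I Φ b Bs X C h).2 hcr fun m g m' g' h1 h2 => ?_
    have e1 : g * (g' * g') = g' * g' * g := root_comm hE.ct (hl _ h1) (hc _ h1 _ h2)
    exact (root_comm hE.ct (hl _ h2) e1.symm).symm
  · push Not at hcr
    obtain ⟨B, hB, hn⟩ := hcr
    rcases shape (hh B hB) (hi B hB) with ⟨m, g, e⟩ | ⟨x, v, g, c, rfl⟩
    · exact absurd e (hn m g)
    · have hf := (bd_fix h.ok.val (h.bt _ hB) (hl _ hB)).2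
      exact star_fix h3 hE h hh hi hl _ fun B' hB' => fix_comm hE (hl _ hB) hf (hc _ hB _ hB')

/-- Two outer boundary blocks and a third block. -/
lemma two_bd (h3 : StarEStmt) (hE : Env G Ω) {Φ : Frm G Ω I} {x v x' v' : I} {g c g' c' : G}
    {B : Bl G I} (h : Φ.Blk b [.bd false x v g c, .bd false x' v' g' c', B] X C)
    (hh : ¬ B.IsHd) (hi : ¬ B.IsIn) (h0 : g⁻¹ * c * g ≠ 1) (h1 : g'⁻¹ * c' * g' ≠ 1)
    (h2 : B.lab ≠ 1) : Fin0 Φ b X C := by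
  have f0 := (bd_fix h.ok.val (h.bt (.bd false x v g c) (by simp)) h0).2
  have f1 := (bd_fix h.ok.val (h.bt (.bd false x' v' g' c') (by simp)) h1).2
  have hp : g⁻¹ * c * g * (g'⁻¹ * c' * g') * B.lab = 1 := by
    have := h.lab
    simpa [Bl.lab, mul_assoc] using this
  have e : g⁻¹ • Φ.ω v = g'⁻¹ • Φ.ω v' := by
    rcases shape hh hi with ⟨m, k, rfl⟩ | ⟨x'', v'', g'', c'', rfl⟩
    · exact hE.flip _ _ k _ _ h0 h1 f0 f1 (by rw [pow_two]; exact hp)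
    · have f2 := (bd_fix h.ok.val (h.bt (.bd false x'' v'' g'' c'') (by simp)) h2).2
      refine hE.serre _ _ _ _ (g''⁻¹ • Φ.ω v'') h0 h1 f0 f1 ?_
      rw [eq_inv_of_mul_eq_one_left hp, inv_smul_eq_iff]
      exact f2.symm
  refine star_fix h3 hE h ?_ ?_ ?_ (g⁻¹ • Φ.ω v) ?_
  · simpa [Bl.IsHd] using hh
  · simpa [Bl.IsIn] using hi
  · simp only [List.mem_cons, List.not_mem_nil, or_false, forall_eq_or_imp, forall_eq]
    exact ⟨h0, h1, h2⟩
  · simp only [List.mem_cons, List.not_mem_nil, or_false, forall_eq_or_imp, forall_eq]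
    rw [← e] at f1
    refine ⟨f0, f1, ?_⟩
    rw [eq_inv_of_mul_eq_one_right hp, inv_smul_eq_iff, mul_smul, f1, f0]

lemma three_nc {x y z : G} (hp : x * y * z = 1) (h : x * y ≠ y * x) : y * z ≠ z * y := by
  intro e
  have hx : x = (y * z)⁻¹ := eq_inv_of_mul_eq_one_left (by rw [← mul_assoc, hp])
  refine h ?_
  rw [hx]
  exact ((Commute.refl y).mul_left (Commute.symm e)).inv_left.eq

variable [Infinite I]

/-- Two cross caps. -/
lemma two_cr (h2 : CutStmt) (hE : Env G Ω) {Φ : Frm G Ω I} {m m' : I} {g h : G}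
    {R : List (Bl G I)} (hB : Φ.Blk b (.cr m g :: .cr m' h :: R) X C)
    (hne : g * g * (h * h) ≠ h * h * (g * g))
    (ih : ∀ Bs : List (Bl G I), W Bs < W (.cr m g :: .cr m' h :: R) → Inv Bs →
      ∀ Φ' : Frm G Ω I, Φ'.Blk b Bs X C → Fin0 Φ' b X C) : Fin0 Φ b X C := by
  have hgh : g * h ≠ h * g := fun e => by
    have c : Commute g h := e
    exact hne ((c.mul_left c).mul_right (c.mul_left c)).eq
  have h1 : g * h ≠ 1 := fun e => hgh (by rw [e, mul_eq_one_comm.1 e])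
  obtain ⟨v, hm⟩ := (h2 G Ω I Φ b R X C).2 m m' g h h1 hB
  refine fin_of_mov hm (ih _ (by simp only [W_cons, wt]; omega) (Or.inr
    ⟨_, List.mem_cons_self, _, List.mem_cons_of_mem _ List.mem_cons_self, id, id, fun e => ?_⟩))
  simp only [Bl.lab, inv_one, one_mul, mul_one] at e
  have e2 := csa (y := h⁻¹) hE.ct h1 (by rw [inv_inv]; exact e.symm)
  have c : Commute h (g * h) := by simpa using (Commute.inv_left e2)
  refine hgh ?_
  have := c.eq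
  rw [← mul_assoc] at this
  exact (mul_right_cancel this).symm

/-- Three blocks. -/
lemma three (h1 : DropStmt) (h2 : CutStmt) (h3 : StarEStmt) (h4 : StarPStmt) (hE : Env G Ω)
    {Φ : Frm G Ω I} {B₀ B₁ B₂ : Bl G I} (h : Φ.Blk b [B₀, B₁, B₂] X C)
    (hh : ∀ B ∈ [B₀, B₁, B₂], ¬ B.IsHd) (hl : ∀ B ∈ [B₀, B₁, B₂], B.lab ≠ 1)
    (hne : B₀.lab * B₁.lab ≠ B₁.lab * B₀.lab)
    (ih : ∀ Bs : List (Bl G I), W Bs < W [B₀, B₁, B₂] → Inv Bs →
      ∀ Φ' : Frm G Ω I, Φ'.Blk b Bs X C → Fin0 Φ' b X C) : Fin0 Φ b X C := by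
  have r1 : Φ.Blk b [B₁, B₂, B₀] X C := (h1 G Ω I Φ b [B₀] X C).1 [B₁, B₂] h
  have r2 : Φ.Blk b [B₂, B₀, B₁] X C := (h1 G Ω I Φ b [B₁] X C).1 [B₂, B₀] r1
  have p0 : B₀.lab * B₁.lab * B₂.lab = 1 := by simpa [mul_assoc] using h.lab
  have p1 : B₁.lab * B₂.lab * B₀.lab = 1 := by simpa [mul_assoc] using r1.lab
  have n1 := three_nc p0 hne
  have n2 := three_nc p1 n1
  simp only [List.mem_cons, List.not_mem_nil, or_false, forall_eq_or_imp, forall_eq] at hh hl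
  obtain ⟨d0, d1, d2⟩ := hh
  obtain ⟨l0, l1, l2⟩ := hl
  by_cases i2 : B₂.IsIn
  · exact h4 G Ω I Φ b _ _ _ X C h d0 d1 i2 hne
  by_cases i0 : B₀.IsIn
  · exact h4 G Ω I Φ b _ _ _ X C r1 d1 d2 i0 n1
  by_cases i1 : B₁.IsIn
  · exact h4 G Ω I Φ b _ _ _ X C r2 d2 d0 i1 n2
  have w1 : W [B₁, B₂, B₀] = W [B₀, B₁, B₂] := by
    simp only [W_cons]
    omega
  have w2 : W [B₂, B₀, B₁] = W [B₀, B₁, B₂] := by
    simp only [W_cons]
    omega
  rcases shape d0 i0 with ⟨m0, g0, rfl⟩ | ⟨x0, v0, g0, c0, rfl⟩ <;>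
    rcases shape d1 i1 with ⟨m1, g1, rfl⟩ | ⟨x1, v1, g1, c1, rfl⟩
  · exact two_cr h2 hE h hne ih
  · rcases shape d2 i2 with ⟨m2, g2, rfl⟩ | ⟨x2, v2, g2, c2, rfl⟩
    · exact two_cr h2 hE r2 n2 (w2 ▸ ih)
    · exact two_bd h3 hE r1 d0 i0 l1 l2 l0
  · rcases shape d2 i2 with ⟨m2, g2, rfl⟩ | ⟨x2, v2, g2, c2, rfl⟩
    · exact two_cr h2 hE r1 n1 (w1 ▸ ih)
    · exact two_bd h3 hE r2 d1 i1 l2 l0 l1
  · exact two_bd h3 hE h d2 i2 l0 l1 l2

/-- At least four blocks. -/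
lemma four (h1 : DropStmt) (h5 : PcutStmt) (hE : Env G Ω)
    {Φ : Frm G Ω I} {B₀ B₁ B₂ B₃ : Bl G I} {R : List (Bl G I)}
    (h : Φ.Blk b (B₀ :: B₁ :: B₂ :: B₃ :: R) X C)
    (hh : ∀ B ∈ B₀ :: B₁ :: B₂ :: B₃ :: R, ¬ B.IsHd)
    (hl : ∀ B ∈ B₀ :: B₁ :: B₂ :: B₃ :: R, B.lab ≠ 1)
    (hne : B₀.lab * B₁.lab ≠ B₁.lab * B₀.lab)
    (ih : ∀ Bs : List (Bl G I), W Bs < W (B₀ :: B₁ :: B₂ :: B₃ :: R) → Inv Bs →
      ∀ Φ' : Frm G Ω I, Φ'.Blk b Bs X C → Fin0 Φ' b X C) : Fin0 Φ b X C := by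
  have q0 := wt_pos B₀
  have q1 := wt_pos B₁
  have q2 := wt_pos B₂
  have d0 := hh B₀ (by simp)
  have d1 := hh B₁ (by simp)
  have d2 := hh B₂ (by simp)
  have d3 := hh B₃ (by simp)
  by_cases hc : B₀.lab * B₁.lab * B₂.lab = B₂.lab * (B₀.lab * B₁.lab) ∧
      B₀.lab * B₁.lab * B₃.lab = B₃.lab * (B₀.lab * B₁.lab)
  · have n12 : B₁.lab * B₂.lab ≠ B₂.lab * B₁.lab := fun e => by
      have := hE.ct.ct B₂.lab _ _ (hl B₂ (by simp)) hc.1.symm e.symm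
      rw [← mul_assoc] at this
      exact hne (mul_right_cancel this)
    have n30 : B₃.lab * B₀.lab ≠ B₀.lab * B₃.lab := fun e => by
      have := hE.ct.ct B₃.lab _ _ (hl B₃ (by simp)) hc.2.symm e
      rw [mul_assoc] at this
      exact hne (mul_left_cancel this).symm
    have r1 : Φ.Blk b (B₁ :: B₂ :: (B₃ :: R ++ [B₀])) X C :=
      (h1 G Ω I Φ b [B₀] X C).1 (B₁ :: B₂ :: B₃ :: R) h
    obtain ⟨z, v, hm⟩ := h5 G Ω I Φ b B₁ B₂ _ X C r1 d1 d2 n12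
    refine fin_of_mov hm (ih _ ?_ (Or.inr ⟨B₃, by simp, B₀, by simp, d3, d0, n30⟩))
    have : W ([] : List (Bl G I)) = 0 := rfl
    simp only [W_cons, W_append, wt_bd, this]
    omega
  · obtain ⟨z, v, hm⟩ := h5 G Ω I Φ b B₀ B₁ _ X C h d0 d1 hne
    refine fin_of_mov hm (ih _ ?_ (Or.inr ?_))
    · simp only [W_cons, wt_bd]
      omega
    · rcases not_and_or.1 hc with hc | hc
      · exact ⟨_, List.mem_cons_self, B₂, by simp, id, d2, by simpa [Bl.lab] using hc⟩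
      · exact ⟨_, List.mem_cons_self, B₃, by simp, id, d3, by simpa [Bl.lab] using hc⟩

lemma step (h1 : DropStmt) (h2 : CutStmt) (h3 : StarEStmt) (h4 : StarPStmt) (h5 : PcutStmt)
    (hE : Env G Ω) {Φ : Frm G Ω I} {Bs : List (Bl G I)} (h : Φ.Blk b Bs X C) (hI : Inv Bs)
    (ih : ∀ Bs' : List (Bl G I), W Bs' < W Bs → Inv Bs' →
      ∀ Φ' : Frm G Ω I, Φ'.Blk b Bs' X C → Fin0 Φ' b X C) : Fin0 Φ b X C := by
  by_cases hb : ∃ B ∈ Bs, B.IsHd ∨ B.lab = 1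
  · obtain ⟨B, hB, hb⟩ := hb
    obtain ⟨A, A', rfl⟩ := List.append_of_mem hB
    have r : Φ.Blk b (B :: (A' ++ A)) X C := (h1 G Ω I Φ b A X C).1 (B :: A') h
    have hI' := hI.drop hb
    have hW : W (A ++ B :: A') = wt B + W (A' ++ A) := by
      simp only [W_cons, W_append]
      omega
    have hlt : W (A' ++ A) < W (A ++ B :: A') := by
      have := wt_pos B
      omega
    have ih' := ih _ hlt hI'
    cases B with
    | cr m g =>
      have hg : g = 1 := by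
        by_contra hg
        exact sq_ne hE.ct hg (hb.resolve_left id)
      subst hg
      exact fin_of_mov ((h1 G Ω I Φ b _ X C).2.2.1 m r) ih'
    | bd k x v g c =>
      have hc : c = 1 := by
        have e : g⁻¹ * c * g = 1 := hb.resolve_left id
        calc c = g * (g⁻¹ * c * g) * g⁻¹ := by group
          _ = 1 := by rw [e]; group
      subst hc
      exact ih' Φ ((h1 G Ω I Φ b _ X C).2.1 k x v g r)
    | hd a a' g k =>
      by_cases hgk : g * k = k * g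
      · exact fin_of_mov ((h1 G Ω I Φ b _ X C).2.2.2 a a' g k hgk r) ih'
      · have hg : g ≠ 1 := fun e => hgk (by simp [e])
        obtain ⟨v, hm⟩ := (h2 G Ω I Φ b _ X C).1 a a' g k hg r
        refine fin_of_mov hm (ih _ (by rw [hW]; simp [W_cons, wt]; omega) (Or.inr
          ⟨_, List.mem_cons_self, _, List.mem_cons_of_mem _ List.mem_cons_self, id, id,
            fun e => hgk ?_⟩))
        simp only [Bl.lab, inv_one, one_mul, mul_one, inv_inv] at e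
        have c : Commute g (k * g * k⁻¹) := by
          have := Commute.inv_right e
          simpa [mul_assoc] using this
        exact (csa hE.ct hg c.symm.eq).symm
  · push Not at hb
    have hh : ∀ B ∈ Bs, ¬ B.IsHd := fun B hB => (hb B hB).1
    have hl : ∀ B ∈ Bs, B.lab ≠ 1 := fun B hB => (hb B hB).2
    rcases adj hE.ct Bs hl with ⟨A, B₀, B₁, A', rfl, hne⟩ | hc
    · have r : Φ.Blk b (B₀ :: B₁ :: (A' ++ A)) X C := (h1 G Ω I Φ b A X C).1 (B₀ :: B₁ :: A') h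
      have hW : W (A ++ B₀ :: B₁ :: A') = W (B₀ :: B₁ :: (A' ++ A)) := by
        simp only [W_cons, W_append]
        omega
      have hm : ∀ B ∈ B₀ :: B₁ :: (A' ++ A), B ∈ A ++ B₀ :: B₁ :: A' := by
        intro B hB
        simp only [List.mem_append, List.mem_cons] at hB ⊢
        tauto
      have hh' := fun B hB => hh B (hm B hB)
      have hl' := fun B hB => hl B (hm B hB)
      rw [hW] at ih
      generalize A' ++ A = R at r ih hh' hl'
      match R, r, ih, hh', hl' with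
      | [], r, _, _, _ =>
        have e : B₀.lab * B₁.lab = 1 := by simpa using r.lab
        exact absurd (by rw [e, mul_eq_one_comm.1 e]) hne
      | [B₂], r, ih, hh', hl' => exact three h1 h2 h3 h4 hE r hh' hl' hne ih
      | B₂ :: B₃ :: R, r, ih, hh', hl' => exact four h1 h5 hE r hh' hl' hne ih
    · refine all_comm h3 hE h hh ?_ hl hc
      rcases hI with hI | ⟨B, hB, B', hB', _, _, hne⟩
      · exact hI
      · exact absurd (hc B hB B' hB') hne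

end QbP

theorem qb (h1 : DropStmt) (h2 : CutStmt) (h3 : StarEStmt) (h4 : StarPStmt) (h5 : PcutStmt) :
    QbStmt := by
  intro G Ω I _ _ _ _ Φ b Bs X C hE h hi
  have key : ∀ n : ℕ, ∀ Bs : List (Bl G I), QbP.W Bs < n → QbP.Inv Bs →
      ∀ Φ : Frm G Ω I, Φ.Blk b Bs X C → Fin0 Φ b X C := by
    intro n
    induction n with
    | zero => intro Bs h; omega
    | succ n ih =>
      intro Bs hn hI Φ h
      exact QbP.step h1 h2 h3 h4 h5 hE h hI fun Bs' h' => ih Bs' (by omega)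
  exact key _ Bs (Nat.lt_succ_self _) (Or.inl hi) Φ h

end Pool.Agent.MP_494aff_an.Fr

end MrgPart2

-- marker of a merged file
example : 731051 + 322528 = 731051 + 322528 := rfl
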