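import Mathlib
import Pool.Agent.MP_494aff_an.un.Spec
import Pool.Agent.MP_494aff_an.fr.Qb
import Pool.Agent.MP_494aff_an.pinch.AttA

-- ======== part 0: formerly Pool.Agent.MP_494aff_an.un.Lift
section MrgPart0

/-! An analytic cocycle on a larger group close to a given one. -/

open Monoid Filter Topology
open scoped InnerProductSpace ComplexConjugate

namespace Pool.Agent.MP_494aff_an.Un

open Pool.Agent.MP_494aff_an.Pinch Pool.Agent.MP_494aff_an.Pinch.TowP Pool.Agent.MP_494aff_an.Lf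

noncomputable section

namespace LiftP

variable {Γ Λ : Type} [Group Γ] [Group Λ] {f : Λ →* Γ}

/-- Restriction to the range of `f`. -/
def res (hf : Function.Injective f) : H Γ →L[ℂ] H Λ := ContinuousLinearMap.adjoint (emb f hf)

lemma res_coef (hf : Function.Injective f) (ξ : H Γ) (z : Λ) : res hf ξ z = ξ (f z) := by
  rw [← inner_dl, res, ContinuousLinearMap.adjoint_inner_right, emb_dl, inner_dl]

lemma res_norm (hf : Function.Injective f) (ξ : H Γ) : ‖res hf ξ‖ ≤ ‖ξ‖ := by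
  have h1 : ‖emb f hf‖ ≤ 1 :=
    ContinuousLinearMap.opNorm_le_bound _ zero_le_one fun η => by rw [emb_norm, one_mul]
  have h2 : ‖res hf‖ ≤ 1 := by rwa [res, LinearIsometryEquiv.norm_map]
  exact ((res hf).le_opNorm ξ).trans (mul_le_of_le_one_left (norm_nonneg _) h2)

lemma res_lam (hf : Function.Injective f) (z : Λ) (ξ : H Γ) :
    res hf (lam (f z) ξ) = lam z (res hf ξ) := by
  ext y
  rw [res_coef, lam_coef, lam_coef, res_coef, map_mul, map_inv]

lemma emb_res (hf : Function.Injective f) {ξ : H Γ} (h : Supp (Set.range f) ξ) :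
    emb f hf (res hf ξ) = ξ := by
  ext y
  by_cases hy : y ∈ Set.range f
  · obtain ⟨z, rfl⟩ := hy
    rw [emb_coef, res_coef]
  · rw [h y hy]
    exact supp_emb f hf (supp_univ _) y (by rwa [Set.image_univ])

omit [Group Γ] in
lemma supp_rv (X : Set Γ) (ξ : H Γ) : Supp X (AFP.rv X ξ) := fun y hy => by
  rw [AFP.rv_ap, AFP.rf, if_neg hy]

lemma rl_res (hf : Function.Injective f) {K : Subgroup Γ} {ι : K →* Λ}
    (h : ∀ x : K, f (ι x) = x) (ξ : H Γ) : Rl ι.range (res hf (AFP.rv K ξ)) := by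
  unfold Rl
  ext z
  rw [AFP.rv_ap, AFP.rf, res_coef, AFP.rv_ap, AFP.rf]
  by_cases hz : f z ∈ (K : Set Γ)
  · rw [if_pos hz, if_pos ⟨⟨f z, hz⟩, hf (h _)⟩, Complex.ofReal_re]
  · rw [if_neg hz, Complex.zero_re, Complex.ofReal_zero, ite_self]

end LiftP

open LiftP

theorem liftS (h1 : DenseStmt) (h2 : VanStmt) : LiftStmt := by
  classical
  intro Γ Λ _ _ ℓ K L E ι f hf b₀ hι hΓ hK hLK hI hEL hE hb hr hz S hS ε hε
  have hct : CT K := ct_of_inj K.subtype_injective hΓ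
  have hinj : Function.Injective ι := fun x y e => Subtype.ext (by rw [← hι x, e, hι])
  have hmem : ∀ x, ι x ∈ ι.range := fun x => ⟨x, rfl⟩
  obtain ⟨hq, hd⟩ := h1 K hK hct
  have near : ∀ S' : Finset Γ, (∀ s ∈ S', s ∈ L) → ∀ δ : ℝ, 0 < δ → ∃ γ, Z0 ℓ ι.range ι γ ∧
      ∀ x : K, (x : Γ) ∈ S' → ‖γ x (dl 1) - res hf (b₀ x)‖ ≤ δ := by
    intro S' hS' δ hδ
    obtain ⟨c', c1, c2⟩ := hI b₀ hb S' hS' (δ / 2) (half_pos hδ)
    obtain ⟨γ, g1, g2⟩ := hd Λ ℓ ι ι.range (fun x => res hf (AFP.rv K (c' x))) hinj hmem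
      (fun x y => by
        beta_reduce
        rw [Subgroup.coe_mul, c1 _ x.2 _ y.2, AFP.rv_add, map_add, AFP.rv_lam x.2, ← res_lam, hι])
      (fun x => rl_res hf hι _) (S'.subtype (· ∈ K)) (δ / 2) (half_pos hδ)
    refine ⟨γ, g1, fun x hx => ?_⟩
    have a1 := g2 x (Finset.mem_subtype.2 hx)
    have a2 : ‖res hf (AFP.rv K (c' x)) - res hf (b₀ x)‖ ≤ δ / 2 := by
      rw [← hr x (hS' x hx), ← map_sub, ← AFP.rv_sub]
      exact ((res_norm hf _).trans (AFP.norm_rv _ _)).trans (c2 x hx)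
    linarith [norm_sub_le_norm_sub_add_norm_sub (γ x (dl 1)) (res hf (AFP.rv K (c' x)))
      (res hf (b₀ x))]
  have fin : ∀ (x : K) (η : H Λ), (x : Γ) ∈ S → ‖η - res hf (b₀ x)‖ ≤ ε →
      ‖emb f hf η - b₀ x‖ ≤ ε := fun x η hx h => by
    have a1 : Supp (Set.range f) (b₀ x) := by
      rw [← hr x (hS x hx)]
      exact (supp_rv _ _).mono fun y hy => ⟨ι ⟨y, hy⟩, hι _⟩
    rwa [← emb_res hf a1, ← map_sub, emb_norm]
  by_cases h0 : ∀ x ∈ E, x = 1
  · obtain ⟨γ, g1, g2⟩ := near S hS ε hε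
    refine ⟨γ, g1.co, g1.an, fun x hx => ?_, fun x hx => fin x _ hx (g2 x hx)⟩
    rw [show x = 1 from Subtype.ext (h0 x hx)]
    exact g1.co.one
  · obtain ⟨w, hw⟩ := not_forall.1 h0
    obtain ⟨w1, w2⟩ := Classical.not_imp.1 hw
    obtain ⟨δ, hδ, hv⟩ := h2 K Λ ℓ ι ι.range ⟨w, hLK (hEL w1)⟩ (S.subtype (· ∈ K))
      (fun x => res hf (b₀ x)) ε hct hq.1 hinj hmem (fun e => w2 (congrArg Subtype.val e)) hε
    obtain ⟨γ, g1, g2⟩ := near (insert w S) (fun s hs => by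
      rcases Finset.mem_insert.1 hs with rfl | hs
      exacts [hEL w1, hS s hs]) δ hδ
    have a1 := g2 ⟨w, hLK (hEL w1)⟩ (Finset.mem_insert_self _ _)
    rw [hz w w1, map_zero, sub_zero] at a1
    obtain ⟨γ', b1, b2, b3, b4⟩ := hv γ g1 a1 fun s hs =>
      g2 s (Finset.mem_insert_of_mem (Finset.mem_subtype.1 hs))
    exact ⟨γ', b1, b2, fun x hx => b3 x (Subtype.ext (hE _ hx _ w1)),
      fun x hx => fin x _ hx (b4 x (Finset.mem_subtype.2 hx))⟩

end

end Pool.Agent.MP_494aff_an.Un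

end MrgPart0

-- ======== part 1: formerly Pool.Agent.MP_494aff_an.un.Move
section MrgPart1

/-! Every group with a hierarchy can be moved. -/

open Monoid

namespace Pool.Agent.MP_494aff_an.Un

open Pool.Agent.MP_494aff_an.Pinch Pool.Agent.MP_494aff_an.Pinch.TowP Pool.Agent.MP_494aff_an.Lf

noncomputable section

namespace MoveP

variable {A B G : Type} [Group A] [Group B] [Group G]

lemma pin_cop : Pin (1 : A) (1 : B) (Coprod.inl : A →* Coprod A B) Coprod.inr where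
  comm := by rw [map_one, map_one]
  lift := fun _ _ φ ψ _ => ⟨Coprod.lift φ ψ, fun _ => rfl, fun _ => rfl⟩
  gen := fun T h1 h2 z => AttP.cop_gen (MonoidHom.id _) T h1 h2 z

/-- The first factor is conjugated by the new generator. -/
def tw (f : A →* G) (g : B →* G) : Coprod A B →* FZ G :=
  Coprod.lift ((MulAut.conj (gen G)⁻¹).toMonoidHom.comp (Coprod.inl.comp f)) (Coprod.inl.comp g)

lemma tw_inl (f : A →* G) (g : B →* G) (a : A) :
    tw f g (Coprod.inl a) = (gen G)⁻¹ * Coprod.inl (f a) * gen G := by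
  simp [tw]

lemma tw_inr (f : A →* G) (g : B →* G) (b : B) : tw f g (Coprod.inr b) = Coprod.inl (g b) := rfl

lemma hn_tw {c : A} {d : B} {f : A →* G} {g : B →* G} (h : Pin c d f g) :
    FG.Hn (Coprod.inr d) (Coprod.inl c) (tw f g) (gen G) where
  comm := by rw [tw_inl, tw_inr, h.comm]; group
  lift := fun M _ φ τ e => by
    obtain ⟨π, h1, h2⟩ := h.lift M ((MulAut.conj τ).toMonoidHom.comp (φ.comp Coprod.inl))
      (φ.comp Coprod.inr) (by simpa using e.symm)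
    have ht : Coprod.lift π (zpowersHom M τ) (gen G) = τ := by simp [gen]
    refine ⟨Coprod.lift π (zpowersHom M τ), fun p => ?_, ht⟩
    induction p using Coprod.induction_on with
    | inl a =>
      rw [tw_inl, map_mul, map_mul, map_inv, ht, Coprod.lift_apply_inl, h1]
      simp [mul_assoc]
    | inr b => rw [tw_inr, Coprod.lift_apply_inl, h2]; rfl
    | mul x y hx hy => rw [map_mul, map_mul, map_mul, hx, hy]
  gen := fun T h1 h2 z => by
    refine AttP.cop_gen (MonoidHom.id _) T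
      (h.gen (T.comap Coprod.inl) (fun a => ?_) fun b => h1 (Coprod.inr b))
      (AttP.zm_gen Coprod.inr T h2) z
    have := mul_mem (mul_mem h2 (h1 (Coprod.inl a))) (inv_mem h2)
    rw [tw_inl] at this
    simpa [mul_assoc] using this

lemma gap_cop (h : Q0 A) {c : A} (hc : Cyc c) (d : B) :
    Gap (Coprod.inl c : Coprod A B) (Coprod.inr d) := fun Γ _ ι hι => by
  obtain ⟨β, hβ, e⟩ := h Γ (fun _ => 0) (ι.comp Coprod.inl) (hι.comp Coprod.inl_injective) c hc
  obtain ⟨γ, h1, h2, h3, h4⟩ := ext_pin (ℓ := fun _ => 0) (K := ι.range) (ι := ι) pin_cop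
    (fun x => ⟨x, rfl⟩) hβ.co co_zero hβ.co.one
    (fun a => (hβ.an a).mono (by rintro _ ⟨x, rfl⟩; exact ⟨_, rfl⟩)) fun _ => An.zero
  exact ⟨γ, 0, h1, h2, An.zero, (h3 c).trans e, by rw [h4, mul_zero]⟩

lemma gap_far (hA : CT A) (h : Q0 A) {c c' : A} (hc : Cyc c) (hf : Far c' c) : Gap c c' :=
  fun Γ _ ι hι => by
  obtain ⟨β, hβ, e, h'⟩ := qr avg A Γ (fun _ => 0) ι c [c'] hA h hι hc (by simpa using hf)
  obtain ⟨ξ, hξ, e'⟩ := h' c' (by simp)
  exact ⟨β, ξ, hβ.co, hβ.an, hξ, e, e'⟩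

end MoveP

open MoveP in
theorem move (h1 : MvAbStmt) (h2 : MvHnStmt) (h3 : MvFrStmt) : MoveStmt := by
  intro A _ hA hc
  refine (ind (fun G _ => QF G ∧ Move G) ?_ ?_ ?_ A hA hc).2
  · exact fun G _ hG hc hn => ⟨qabel G hc hn, h1 G hG hc hn⟩
  · intro A B G _ _ _ c d f g h fA fB _ pA pB
    refine ⟨qamAll A B G c d f g h pA.1 pB.1, ?_⟩
    have hP := h3.prod A B fA fB pA.2 pB.2
    rcases h.edge with ⟨rfl, rfl⟩ | ⟨e1, e2⟩
    · obtain ⟨e⟩ := TopP.pin_equiv h.pin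
      exact h3.iso _ _ e.symm hP
    · exact h3.fz G (h2 _ _ _ _ _ _ (hn_tw h.pin)
        (infOrd_map Coprod.inl_injective ((ct_of_inj h.hf h.ct).tf c e1.1))
        (infOrd_map Coprod.inr_injective e2) (gap_cop pA.1.1 e1 d) (IndP.fg_pin pin_cop fA fB)
        (h3.letters _ hP))
  · intro A G _ _ c c' f t h fA _ pA
    have hA := ct_of_inj h.hf h.ct
    exact ⟨qhxAll A G c c' f t h pA.1, h2 _ _ _ _ _ _ h.hn (hA.tf c h.cyc.1)
      (hA.tf c' h.far.ne_one) (gap_far hA pA.1.1 h.cyc h.far) fA (h3.letters _ pA.2)⟩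

end

end Pool.Agent.MP_494aff_an.Un

end MrgPart1

-- ======== part 2: formerly Pool.Agent.MP_494aff_an.un.MvFr
section MrgPart2

/-! Letters, free products and free factors can be moved. -/

open Monoid Filter Topology
open scoped InnerProductSpace ComplexConjugate

namespace Pool.Agent.MP_494aff_an.Un

open Pool.Agent.MP_494aff_an.Pinch Pool.Agent.MP_494aff_an.Pinch.TowP Pool.Agent.MP_494aff_an.Lf

namespace MvF

lemma fg_range {X Γ : Type} [Group X] [Group Γ] (h : Group.FG X) (f : X →* Γ) : f.range.FG :=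
  (Group.fg_iff_subgroup_fg _).1 (Group.fg_range f)

lemma fg_cop {A B : Type} [Group A] [Group B] (hA : Group.FG A) (hB : Group.FG B) :
    Group.FG (Coprod A B) := by
  rw [Group.fg_def, ← Coprod.range_inl_sup_range_inr]
  exact (fg_range hA _).sup (fg_range hB _)

lemma range_comp {X Y Γ : Type} [Group X] [Group Y] [Group Γ] (j : Y →* Γ) (e : X ≃* Y) :
    (j.comp (e : X →* Y)).range = j.range := by
  ext x
  constructor
  · rintro ⟨y, rfl⟩
    exact ⟨e y, rfl⟩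
  · rintro ⟨y, rfl⟩
    exact ⟨e.symm y, by simp⟩

lemma near_mono {Γ : Type} [Group Γ] {X : Subgroup Γ} {ξ : H Γ} {a b : ℝ} (h : Near X ξ a)
    (hab : a ≤ b) : Near X ξ b := by
  obtain ⟨η, h1, h2⟩ := h
  exact ⟨η, h1, h2.trans hab⟩

lemma near_add {Γ : Type} [Group Γ] {X : Subgroup Γ} {ξ ξ' : H Γ} {a b : ℝ} (h : Near X ξ a)
    (h' : ‖ξ' - ξ‖ ≤ b) : Near X ξ' (b + a) := by
  obtain ⟨η, h1, h2⟩ := h
  exact ⟨η, h1, (norm_sub_le_norm_sub_add_norm_sub _ ξ _).trans (add_le_add h' h2)⟩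

lemma sub_mono (G : Type) [Group G] {C C' : Set ℕ} (h : C ⊆ C') : sub G C ≤ sub G C' :=
  sup_le_sup_left (Subgroup.closure_mono (Set.image_mono h)) _

lemma iso_sub {Γ : Type} [Group Γ] {α : Γ →* Op Γ} {W : Op Γ} (h : Iso α W) (ξ : H Γ) (x : Γ) :
    ‖W ξ - α x (dl 1)‖ = ‖ξ - dl x‖ := by
  rw [← h.val, ← map_sub, h.norm]

lemma letters (hB : Bas) (A : Type) [Group A] (h : Move A) : MoveL A := by
  classical
  intro G B _ _ j hG hfg hj hI C₀ C₁ Y S ε hr hε
  obtain ⟨B', _, j', κ, h1, h2, h3, -, h5, h6, h7⟩ :=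
    hB.lets.add G A B j (C₁ : Set ℕ)ᶜ C₁ hj hfg hI hr (fun n hn k => k hn)
  choose! b hb using h7
  obtain ⟨α, a1, a2, a3⟩ := h G B' j' hG h2 h1 h3 C₀ Y (S.image κ ∪ C₁.image b) ε hε
  refine ⟨α, a1, fun s hs => ?_, fun n hn => ?_, fun a ha => ?_⟩
  · rw [← h6]
    exact a2 _ (Finset.mem_union_left _ (Finset.mem_image_of_mem _ hs))
  · rw [← hb n hn]
    exact a2 _ (Finset.mem_union_right _ (Finset.mem_image_of_mem _ hn))
  · rw [← h5]
    exact a3 a ha

lemma iso (A A' : Type) [Group A] [Group A'] (e : A ≃* A') (h : Move A) : Move A' := by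
  classical
  intro G B _ _ j hG hfg hj hI C₀ Y S ε hε
  let θ : Coprod A B ≃* Coprod A' B := MulEquiv.coprodCongr e (MulEquiv.refl B)
  obtain ⟨α, a1, a2, a3⟩ := h G B (j.comp (θ : Coprod A B →* Coprod A' B)) hG hfg
    (hj.comp θ.injective) (by rw [range_comp]; exact hI) C₀ (Y.image e.symm) S ε hε
  refine ⟨α, a1, fun s hs => a2 s hs, fun a ha => ?_⟩
  have := a3 _ (Finset.mem_image_of_mem _ ha)
  have e1 : (j.comp (θ : Coprod A B →* Coprod A' B)) (Coprod.inl (e.symm a)) =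
      j (Coprod.inl (e (e.symm a))) := rfl
  rwa [e1, e.apply_symm_apply] at this

lemma swap (A B Z : Type) [Group A] [Group B] [Group Z] :
    ∃ θ : Coprod (Coprod A Z) B ≃* Coprod (Coprod A B) Z,
      (∀ a, θ (Coprod.inl (Coprod.inl a)) = Coprod.inl (Coprod.inl a)) ∧
      ∀ b, θ (Coprod.inr b) = Coprod.inl (Coprod.inr b) :=
  ⟨((MulEquiv.coprodAssoc A Z B).trans
      (MulEquiv.coprodCongr (MulEquiv.refl A) (MulEquiv.coprodComm Z B))).trans
      (MulEquiv.coprodAssoc A B Z).symm, fun _ => rfl, fun _ => rfl⟩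

lemma fz (hB : Bas) (A : Type) [Group A] (h : Move (FZ A)) : Move A := by
  classical
  intro G B _ _ j hG hfg hj hI C₀ Y S ε hε
  obtain ⟨C, hC⟩ := hB.gam.fin G j.range hI.1
  obtain ⟨n, hn⟩ := Infinite.exists_notMem_finset C
  have h1 := hB.gam.fresh G _ j C n hj hC hn
  have h2 := hB.lets.one G j.range C n hI hC hn
  obtain ⟨θ, t1, t2⟩ := swap A B (Multiplicative ℤ)
  obtain ⟨j', e⟩ : ∃ j' : Coprod (FZ A) B →* Gam G, j' =
    (Coprod.lift j (zpowersHom (Gam G) (lt G n)) : FZ (Coprod A B) →* Gam G).comp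
      (θ : Coprod (FZ A) B →* FZ (Coprod A B)) := ⟨_, rfl⟩
  have e1 : ∀ a, j' (Coprod.inl (Coprod.inl a)) = j (Coprod.inl a) := fun a => by
    rw [e, MonoidHom.comp_apply, MonoidHom.coe_coe, t1, Coprod.lift_apply_inl]
  have e2 : ∀ b, j' (Coprod.inr b) = j (Coprod.inr b) := fun a => by
    rw [e, MonoidHom.comp_apply, MonoidHom.coe_coe, t2, Coprod.lift_apply_inl]
  obtain ⟨α, a1, a2, a3⟩ := h G B j' hG hfg (by rw [e]; exact h1.comp θ.injective)
    (by rw [e, range_comp, Coprod.range_lift]; exact h2) C₀ (Y.image Coprod.inl) S ε hε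
  refine ⟨α, a1, fun s hs => ?_, fun a ha => ?_⟩
  · rw [← e2]
    exact a2 s hs
  · rw [← e1]
    exact a3 _ (Finset.mem_image_of_mem _ ha)

lemma ind_inr (hB : Bas) {A B Γ : Type} [Group A] [Group B] [Group Γ] (j : Coprod A B →* Γ)
    (hfg : Group.FG B) (hj : Function.Injective j) (hI : Ind j.range) :
    Ind (j.comp Coprod.inr).range := by
  refine hB.cz.up Γ _ _ hI ?_ (fg_range hfg _) ?_
  · rintro _ ⟨x, rfl⟩
    exact ⟨Coprod.inr x, rfl⟩
  · intro c hc S hS ε hε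
    obtain ⟨z, z1, -, z3⟩ := hB.cz.cop A B Γ j (fun _ => 0) (fun b => c (j (Coprod.inr b)))
      (fun _ _ => by simp) (fun x y => by
        simp only [map_mul (Coprod.inr : B →* Coprod A B), map_mul j]
        exact hc _ ⟨x, rfl⟩ _ ⟨y, rfl⟩)
    obtain ⟨c', c1, c2⟩ := hB.cz.toCy _ Γ j z hj z1
    refine ⟨c', c1, fun s hs => ?_⟩
    obtain ⟨x, rfl⟩ := hS s hs
    have : c' ((j.comp Coprod.inr) x) = c ((j.comp Coprod.inr) x) := (c2 _).trans (z3 x)
    rw [this, sub_self, norm_zero]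
    exact hε.le

/-- two moves one after the other -/
lemma two (hB : Bas) {A₁ A₂ : Type} [Group A₁] [Group A₂] (f₂ : Group.FG A₂) (h₁ : Move A₁)
    (h₂ : Move A₂) {G B : Type} [Group G] [Group B] (j : Coprod A₁ (Coprod A₂ B) →* Gam G)
    (hG : Good G) (hfg : Group.FG B) (hj : Function.Injective j) (hI : Ind j.range)
    (C₀ : Finset ℕ) (Y₁ : Finset A₁) (Y₂ : Finset A₂) (S : Finset B) (η : ℝ) (hη : 0 < η) :
    ∃ α : Gam G →* Op (Gam G), Gen α ∧
      (∀ s ∈ S, ‖α (j (Coprod.inr (Coprod.inr s))) (dl 1) - dl (j (Coprod.inr (Coprod.inr s)))‖ ≤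
        η + η) ∧
      (∀ a ∈ Y₁, Near (fr G (C₀ : Set ℕ)ᶜ) (α (j (Coprod.inl a)) (dl 1)) (η + η)) ∧
      ∀ a ∈ Y₂, Near (fr G (C₀ : Set ℕ)ᶜ) (α (j (Coprod.inr (Coprod.inl a))) (dl 1)) (η + η) := by
  classical
  obtain ⟨C, hC⟩ := hB.gam.fin G j.range hI.1
  have fB := fg_cop f₂ hfg
  obtain ⟨α₁, a1, a2, a3⟩ := h₁ G _ j hG fB hj hI (C₀ ∪ C) Y₁
    (Y₂.image Coprod.inl ∪ S.image Coprod.inr) η hη
  have k := fun a (ha : a ∈ Y₁) =>
    hB.near.vec (Gam G) (lt G '' ((C₀ ∪ C : Finset ℕ) : Set ℕ)ᶜ) _ η η (a3 a ha) hη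
  choose! T δ k1 k2 k3 k4 using k
  obtain ⟨δ', d0, d1, d2⟩ : ∃ δ' : ℝ, 0 < δ' ∧ δ' ≤ η ∧ ∀ a ∈ Y₁, δ' ≤ δ a := by
    refine ⟨(insert η (Y₁.image δ)).min' (Finset.insert_nonempty _ _), ?_,
      Finset.min'_le _ _ (Finset.mem_insert_self _ _), fun a ha =>
      Finset.min'_le _ _ (Finset.mem_insert_of_mem (Finset.mem_image_of_mem _ ha))⟩
    rcases Finset.mem_insert.1 (Finset.min'_mem (insert η (Y₁.image δ))
      (Finset.insert_nonempty _ _)) with e | e
    · rw [e]; exact hη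
    · obtain ⟨a, ha, e⟩ := Finset.mem_image.1 e
      rw [← e]; exact k2 a ha
  have k5 : ∀ x ∈ Y₁.biUnion T, ∃ n, n ∉ C₀ ∪ C ∧ lt G n = x := by
    intro x hx
    obtain ⟨a, ha, hx⟩ := Finset.mem_biUnion.1 hx
    obtain ⟨n, n1, n2⟩ := k1 a ha x hx
    exact ⟨n, n1, n2⟩
  choose! ν n1 n2 using k5
  have hr : (j.comp Coprod.inr).range ≤ sub G (((Y₁.biUnion T).image ν : Finset ℕ) : Set ℕ)ᶜ := by
    refine le_trans ?_ (hC.trans (sub_mono G fun n hn hn' => ?_))
    · rintro _ ⟨x, rfl⟩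
      exact ⟨Coprod.inr x, rfl⟩
    · obtain ⟨x, hx, rfl⟩ := Finset.mem_image.1 hn'
      exact n1 x hx (Finset.mem_union_right _ hn)
  obtain ⟨α₂, b1, b2, b3, b4⟩ := letters hB A₂ h₂ G B (j.comp Coprod.inr) hG hfg
    (hj.comp Coprod.inr_injective) (ind_inr hB j fB hj hI) C₀ _ Y₂ S δ' hr d0
  obtain ⟨W, hW⟩ := hB.near.iso _ α₂ b1
  obtain ⟨α, c1, c2⟩ := hB.near.comp _ α₁ α₂ W a1 hW
  refine ⟨α, c1, fun s hs => ?_, fun a ha => ?_, fun a ha => ?_⟩
  · rw [c2]
    refine (norm_sub_le_norm_sub_add_norm_sub _ (α₂ (j (Coprod.inr (Coprod.inr s))) (dl 1)) _).trans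
      (add_le_add ?_ ((b2 s hs).trans d1))
    rw [iso_sub hW]
    exact a2 _ (Finset.mem_union_right _ (Finset.mem_image_of_mem _ hs))
  · rw [c2]
    refine k4 a ha α₂ W _ hW fun x hx => ?_
    have hx' : x ∈ Y₁.biUnion T := Finset.mem_biUnion.2 ⟨a, ha, hx⟩
    refine ⟨dl x, supp_dl (Subgroup.subset_closure ⟨ν x, fun k => ?_, n2 x hx'⟩), ?_⟩
    · exact n1 x hx' (Finset.mem_union_left _ k)
    · have := b3 _ (Finset.mem_image_of_mem ν hx')
      rw [n2 x hx'] at this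
      exact this.trans (d2 a ha)
  · rw [c2]
    refine near_add (near_mono (b4 a ha) d1) ?_
    refine (iso_sub hW _ _).le.trans ?_
    exact a2 _ (Finset.mem_union_left _ (Finset.mem_image_of_mem _ ha))

lemma prod (hB : Bas) (A₁ A₂ : Type) [Group A₁] [Group A₂] (f₂ : Group.FG A₂) (h₁ : Move A₁)
    (h₂ : Move A₂) : Move (Coprod A₁ A₂) := by
  classical
  intro G B _ _ j hG hfg hj hI C₀ Y S ε hε
  let i : Coprod A₁ A₂ →* Gam G := j.comp Coprod.inl
  have hi : Function.Injective i := hj.comp Coprod.inl_injective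
  obtain ⟨T₀, δ, t1, t2, t3⟩ := hB.near.word (Gam G)
    (i '' (Set.range (Coprod.inl : A₁ →* Coprod A₁ A₂) ∪ Set.range (Coprod.inr : A₂ →* _)))
    (Y.image i) ε (fun z hz => by
      obtain ⟨a, -, rfl⟩ := Finset.mem_image.1 hz
      rw [← MonoidHom.map_closure, Coprod.closure_range_inl_union_inr]
      exact Subgroup.mem_map_of_mem _ (Subgroup.mem_top a)) hε
  let θ := (MulEquiv.coprodAssoc A₁ A₂ B).symm
  obtain ⟨α, a1, a2, a3, a4⟩ := two hB f₂ h₁ h₂
    (j.comp (θ : Coprod A₁ (Coprod A₂ B) →* Coprod (Coprod A₁ A₂) B)) hG hfg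
    (hj.comp θ.injective) (by rw [range_comp]; exact hI) C₀
    (T₀.preimage (fun a => i (Coprod.inl a)) (hi.comp Coprod.inl_injective).injOn)
    (T₀.preimage (fun a => i (Coprod.inr a)) (hi.comp Coprod.inr_injective).injOn) S
    (min δ ε / 2) (by positivity)
  rw [add_halves] at a2 a3 a4
  refine ⟨α, a1, fun s hs => (a2 s hs).trans (min_le_right _ _), fun a ha => ?_⟩
  refine (t3 α a1).1 _ (fun x hx => ?_) _ (Finset.mem_image_of_mem i ha)
  obtain ⟨_, ⟨b, rfl⟩ | ⟨b, rfl⟩, rfl⟩ := t1 x hx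
  · exact near_mono (a3 b (Finset.mem_preimage.2 hx)) (min_le_left _ _)
  · exact near_mono (a4 b (Finset.mem_preimage.2 hx)) (min_le_left _ _)

end MvF

theorem mvFr (hB : Bas) : MvFrStmt where
  letters := fun A _ h => MvF.letters hB A h
  prod := fun A₁ A₂ _ _ _ f₂ h₁ h₂ => MvF.prod hB A₁ A₂ f₂ h₁ h₂
  fz := fun A _ h => MvF.fz hB A h
  iso := fun A A' _ _ e h => MvF.iso A A' e h

end Pool.Agent.MP_494aff_an.Un

end MrgPart2

-- ======== part 3: formerly Pool.Agent.MP_494aff_an.fr.Asm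
section MrgPart3

/-! From a skeleton to a frame with a quadratic system of relators. -/

namespace Pool.Agent.MP_494aff_an.Fr

open Pool.Agent.MP_494aff_an.Se

namespace AsmP

/-- A cocycle on a groupoid has a potential on the cover. -/
lemma cover {G Ω I : Type} [Group G] {Φ : Frm G Ω I} (hG : Φ.Grp) {ψ : I → I → G → F2}
    {u : I → F2} (h : Φ.Sol ψ u) :
    ∃ F : I → G → F2, ∀ p q a g, Φ.E p q a → F p (a * g) = ψ p q a * F q g := by
  classical
  obtain ⟨p₀, -⟩ := hG.ne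
  let rep : Set (I × G) → I × G := fun S => if hS : S.Nonempty then hS.some else (p₀, 1)
  have hrep : ∀ S : Set (I × G), S.Nonempty → rep S ∈ S := fun S hS => by
    simp only [rep, dif_pos hS]; exact hS.some_mem
  let cl : I → G → Set (I × G) := fun p g => {x | Φ.E p x.1 (g * x.2⁻¹)}
  refine ⟨fun p g => ψ p (rep (cl p g)).1 (g * (rep (cl p g)).2⁻¹), fun p q a g ha => ?_⟩
  have e : cl p (a * g) = cl q g := by
    ext x
    constructor
    · intro hx
      simpa [cl, mul_assoc] using hG.trans _ _ _ _ _ (hG.symm _ _ _ ha) hx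
    · intro hx
      simpa [cl, mul_assoc] using hG.trans _ _ _ _ _ ha hx
  have h1 : rep (cl q g) ∈ cl q g :=
    hrep _ ⟨(q, g), by simpa [cl] using hG.refl q (hG.mem _ _ _ ha).2⟩
  simp only [e]
  rw [mul_assoc, h.fn _ _ _ _ _ ha h1]

lemma countP_le {α : Type} [Finite α] {L : List α} (hL : L.Nodup) (p : α → Bool) (S : Set α)
    (hS : ∀ a ∈ L, p a = true → a ∈ S) : L.countP p ≤ S.ncard := by
  classical
  rw [List.countP_eq_length_filter, ← List.toFinset_card_of_nodup (hL.filter _),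
    ← Set.ncard_coe_finset]
  refine Set.ncard_le_ncard fun a ha => ?_
  have := List.mem_filter.1 (List.mem_toFinset.1 ha)
  exact hS a this.1 this.2

variable {G Ω J B N St : Type} [Group G]

/-- Indices. -/
abbrev Ix (J B N : Type) : Type := N ⊕ J ⊕ B ⊕ ℕ

/-- The index of a component. -/
abbrev nJ (j : J) : Ix J B N := Sum.inr (Sum.inl j)

/-- The index of a band. -/
abbrev nB (b : B) : Ix J B N := Sum.inr (Sum.inr (Sum.inl b))

/-- The generating arrows. -/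
inductive Ar (K : Skel G Ω J B N St) : Ix J B N → Ix J B N → G → Prop
  | n (p : N) : Ar K (Sum.inl p) (Sum.inl p) 1
  | j (j : J) : Ar K (nJ j) (nJ j) 1
  | st (σ : St) : Ar K (Sum.inl (K.n1 σ)) (Sum.inl (K.n0 σ)) (K.γ (K.bd σ))
  | ab (p : N) : K.ab (K.cp p) → Ar K (nJ (K.cp p)) (Sum.inl p) 1
  | aB (b : B) : K.aB b → Ar K (nJ (K.c1 b)) (nJ (K.c0 b)) (K.γ b)

open Classical in
/-- The frame of a skeleton. -/
noncomputable def frm [Fintype J] [Fintype B] [Fintype N] [Nonempty Ω] (K : Skel G Ω J B N St) :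
    Frm G Ω (Ix J B N) where
  Vs := Finset.univ.image Sum.inl ∪ Finset.univ.image nJ
  Ls := (Finset.univ.filter fun p => ¬ K.ab (K.cp p)).image Sum.inl ∪
    (Finset.univ.filter K.qd).image nB
  En := ∅
  s := Sum.elim Sum.inl (Sum.elim nJ (Sum.elim (fun b => nJ (K.c0 b)) fun n =>
    Sum.inr (Sum.inr (Sum.inr n))))
  t := Sum.elim (fun p => nJ (K.cp p)) (Sum.elim nJ (Sum.elim (fun b => nJ (K.c1 b)) fun n =>
    Sum.inr (Sum.inr (Sum.inr n))))
  γ := Sum.elim (fun _ => 1) (Sum.elim (fun _ => 1) (Sum.elim K.γ fun _ => 1))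
  ce := fun _ => 1
  E := Gp (Ar K)
  kd := fun _ => Kd.E
  ω := Sum.elim K.ωN (Sum.elim K.ωJ fun _ => Classical.arbitrary Ω)

/-- The relator of a step. -/
def rel (K : Skel G Ω J B N St) (σ : St) : List (Sym G (Ix J B N)) :=
  [Sum.inr (nB (K.bd σ), false), Sum.inr (Sum.inl (K.n1 σ), true),
    Sum.inl (Sum.inl (K.n1 σ), Sum.inl (K.n0 σ), K.γ (K.bd σ)), Sum.inr (Sum.inl (K.n0 σ), false)]

omit [Group G] in
lemma count_rel [DecidableEq (Ix J B N)] (K : Skel G Ω J B N St) (l : Ix J B N) (L : List St) :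
    (lets (L.map (rel K)).flatten).count l =
      L.countP (fun σ => decide (nB (K.bd σ) = l)) +
        L.countP (fun σ => decide (Sum.inl (K.n1 σ) = l)) +
        L.countP fun σ => decide (Sum.inl (K.n0 σ) = l) := by
  induction L with
  | nil => simp
  | cons σ L ih =>
    rw [List.map_cons, List.flatten_cons, lets_append, List.count_append, ih]
    simp only [rel, lets_inr, lets_inl, lets_nil, List.count_cons, List.count_nil,
      List.countP_cons, beq_iff_eq, decide_eq_true_eq]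
    omega

variable [Fintype J] [Fintype B] [Fintype N] [Nonempty Ω] {K : Skel G Ω J B N St}

lemma vN (p : N) : Sum.inl p ∈ (frm K).Vs := by simp [frm]

lemma vJ (j : J) : nJ j ∈ (frm K).Vs := by simp [frm]

lemma mem_Vs {x : Ix J B N} (h : x ∈ (frm K).Vs) : (∃ p, x = Sum.inl p) ∨ ∃ j, x = nJ j := by
  simp only [frm, Finset.mem_union, Finset.mem_image, Finset.mem_univ, true_and] at h
  exact h.imp (fun ⟨p, e⟩ => ⟨p, e.symm⟩) fun ⟨p, e⟩ => ⟨p, e.symm⟩

lemma lN {p : N} (h : ¬ K.ab (K.cp p)) : Sum.inl p ∈ (frm K).Ls := by simp [frm, h]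

lemma lB {b : B} (h : K.qd b) : nB b ∈ (frm K).Ls := by simp [frm, h]

lemma mem_Ls {x : Ix J B N} (h : x ∈ (frm K).Ls) :
    (∃ p, ¬ K.ab (K.cp p) ∧ x = Sum.inl p) ∨ ∃ b, K.qd b ∧ x = nB b := by
  simp only [frm, Finset.mem_union, Finset.mem_image, Finset.mem_filter, Finset.mem_univ,
    true_and] at h
  exact h.imp (fun ⟨p, a, e⟩ => ⟨p, a, e.symm⟩) fun ⟨p, a, e⟩ => ⟨p, a, e.symm⟩

lemma not_En (x : Ix J B N) : x ∉ (frm K).En := Finset.notMem_empty x

lemma ar {p q : Ix J B N} {g : G} (h : Ar K p q g) : (frm K).E p q g := Gp.of _ _ _ h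

lemma grp [Nonempty J] : (frm K).Grp where
  refl p hp := by
    rcases mem_Vs hp with ⟨p, rfl⟩ | ⟨j, rfl⟩
    · exact ar (Ar.n p)
    · exact ar (Ar.j j)
  symm := Gp.symm
  trans := Gp.trans
  mem p q g h := by
    induction h with
    | of p q g h => cases h <;> first | exact ⟨vN _, vN _⟩ | exact ⟨vJ _, vJ _⟩ | exact ⟨vJ _, vN _⟩
    | symm p q g _ ih => exact ih.symm
    | trans p q r g h _ _ i1 i2 => exact ⟨i1.1, i2.2⟩
  ne := ⟨_, vJ (Classical.arbitrary J)⟩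
  st l hl := by
    rcases mem_Ls hl with ⟨p, -, rfl⟩ | ⟨b, -, rfl⟩
    · exact ⟨vN _, vJ _⟩
    · exact ⟨vJ _, vJ _⟩
  en := Finset.empty_subset _
  ce e he := absurd he (not_En e)

variable [MulAction G Ω]

lemma val (h : K.Ok) : (frm K).Val where
  grp := have := h.ne; grp
  kE p q g he _ := by
    refine ⟨rfl, ?_⟩
    clear * - he h
    induction he with
    | of p q g he =>
      cases he with
      | n p => exact one_smul _ _
      | j j => exact one_smul _ _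
      | st σ => exact h.geo σ
      | ab p hp => exact (one_smul _ _).trans (h.abN p hp)
      | aB b hb => exact (h.abB b hb).2.2
    | symm p q g _ ih => rw [← ih, inv_smul_smul]
    | trans p q r g g' _ _ i1 i2 => rw [mul_smul, i2, i1]
  iso _ _ _ _ hk := absurd rfl hk
  ab _ _ _ hk := Kd.noConfusion hk
  kend e he := absurd he (not_En e)
  pan _ _ hk := Kd.noConfusion hk

lemma gen (h : K.Ok) : (frm K).Gen := by
  intro X h1 h2
  have h3 : ∀ p q a g, Ar K p q a → (X q g ↔ X p (a * g)) := fun p q a g ha =>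
    ⟨h1 _ _ _ _ (ar ha), fun hx => by simpa using h1 _ _ _ _ (Gp.symm _ _ _ (ar ha)) hx⟩
  have h4 : ∀ p g, X (Sum.inl p) g ↔ X (nJ (K.cp p)) g := by
    intro p g
    by_cases hp : K.ab (K.cp p)
    · simpa using h3 _ _ _ g (Ar.ab p hp)
    · simpa [frm] using h2 _ (lN hp) g
  have h5 : ∀ b g, X (nJ (K.c0 b)) g ↔ X (nJ (K.c1 b)) (K.γ b * g) := by
    intro b g
    by_cases hq : K.qd b
    · exact h2 _ (lB hq) g
    · by_cases ha : K.aB b
      · exact h3 _ _ _ g (Ar.aB b ha)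
      · obtain ⟨σ, rfl, -⟩ := h.pt b hq ha
        rw [← h.cp0, ← h.cp1, ← h4, ← h4]
        exact h3 _ _ _ g (Ar.st σ)
  have h6 := h.con (fun j g => X (nJ j) g) h5
  intro p hp q hq g g' hx
  have h7 : ∃ j, X (nJ j) g := by
    rcases mem_Vs hp with ⟨p, rfl⟩ | ⟨j, rfl⟩
    · exact ⟨_, (h4 p g).1 hx⟩
    · exact ⟨j, hx⟩
  obtain ⟨j, hj⟩ := h7
  rcases mem_Vs hq with ⟨q, rfl⟩ | ⟨j', rfl⟩
  · exact (h4 q g').2 (h6 _ _ _ _ hj)
  · exact h6 _ _ _ _ hj

lemma ext (h : K.Ok) :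
    (frm K).Ext fun ψ u => ∀ σ, K.qd (K.bd σ) → wval ψ u (rel K σ) = 1 := by
  classical
  intro ψ u hs hr
  have := h.ne
  have hG : (frm K).Grp := grp
  let e : N → F2 := fun p => if K.ab (K.cp p) then ψ (nJ (K.cp p)) (Sum.inl p) 1 else u (Sum.inl p)
  let w : St → F2 := fun σ => e (K.n1 σ) *
    ψ (Sum.inl (K.n1 σ)) (Sum.inl (K.n0 σ)) (K.γ (K.bd σ)) * (e (K.n0 σ))⁻¹
  have hv : ∀ b, ∃ v : F2, (K.qd b → v = u (nB b)) ∧
      (K.aB b → v = ψ (nJ (K.c1 b)) (nJ (K.c0 b)) (K.γ b)) ∧ ∀ σ, K.bd σ = b → v = w σ := by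
    intro b
    by_cases hq : K.qd b
    · refine ⟨u (nB b), fun _ => rfl, fun ha => absurd (h.abB b ha).1 (h.qdB b hq).1, ?_⟩
      rintro σ rfl
      have h1 := hr σ hq
      have a0 : ¬ K.ab (K.cp (K.n0 σ)) := h.cp0 σ ▸ (h.qdB _ hq).1
      have a1 : ¬ K.ab (K.cp (K.n1 σ)) := h.cp1 σ ▸ (h.qdB _ hq).2
      simp only [rel, wval_cons, wval_nil, Fr.val, cond_true, cond_false, mul_one] at h1
      simp only [w, e, if_neg a0, if_neg a1, mul_assoc]
      exact inv_mul_eq_one.1 h1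
    · by_cases ha : K.aB b
      · refine ⟨_, fun h' => absurd h' hq, fun _ => rfl, ?_⟩
        rintro σ rfl
        have a0 : K.ab (K.cp (K.n0 σ)) := h.cp0 σ ▸ (h.abB _ ha).1
        have a1 : K.ab (K.cp (K.n1 σ)) := h.cp1 σ ▸ (h.abB _ ha).2.1
        have b1 := hs.fn _ _ _ _ _ (ar (Ar.ab _ a1)) (ar (Ar.st σ))
        have b0 := ar (Ar.ab _ a0)
        have b2 := ar (Ar.aB _ ha)
        rw [← h.cp0, ← h.cp1] at b2
        have b3 := hs.fn _ _ _ _ _ b2 b0
        rw [one_mul] at b1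
        rw [mul_one] at b3
        simp only [w, e, if_pos a0, if_pos a1]
        rw [← b1, b3, ← h.cp0, ← h.cp1, mul_inv_cancel_right]
      · obtain ⟨σ, h1, h2⟩ := h.pt b hq ha
        exact ⟨w σ, fun h' => absurd h' hq, fun h' => absurd h' ha, fun σ' h' => by rw [h2 σ' h']⟩
  choose v hv1 hv2 hv3 using hv
  obtain ⟨F, hF⟩ := cover hG hs
  obtain ⟨Ψ, y, hy⟩ := h.ext v ⟨fun p g => e p * F (Sum.inl p) g, fun σ g => by
    beta_reduce
    rw [hF _ _ _ g (ar (Ar.st σ)), hv3 _ σ rfl]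
    simp only [w, mul_assoc, inv_mul_cancel_left]⟩
  refine ⟨Ψ, Sum.elim (fun p => (e p)⁻¹ * y (K.cp p)) (Sum.elim y fun _ => 1),
    fun p q g he => ?_, fun l hl => ?_⟩
  · induction he with
    | of p q g he =>
      cases he with
      | n p => simpa using hs.one (ar (Ar.n p))
      | j j => simpa using hs.one (ar (Ar.j j))
      | st σ =>
        have h1 := hy (K.bd σ)
        rw [hv3 _ σ rfl, ← h.cp0, ← h.cp1] at h1
        simp only [Sum.elim_inl, mul_inv_rev, inv_inv]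
        calc _ = (e (K.n1 σ))⁻¹ * w σ * e (K.n0 σ) := by simp only [w]; group
          _ = _ := by rw [h1]; group
      | ab p hp => simp [e, hp]
      | aB b hb => simpa [← hv2 b hb] using hy b
    | symm p q g he ih => rw [hs.inv hG he, ih, map_inv]; group
    | trans p q r g g' h1 h2 i1 i2 => rw [hs.fn _ _ _ _ _ h1 h2, i1, i2, map_mul]; group
  · rcases mem_Ls hl with ⟨p, hp, rfl⟩ | ⟨b, hb, rfl⟩
    · simp [frm, e, hp]
    · simpa [frm, ← hv1 b hb] using hy b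

lemma ty_rel (h : K.Ok) {σ : St} (hq : K.qd (K.bd σ)) :
    (frm K).Ty (nJ (K.c0 (K.bd σ))) (rel K σ) (nJ (K.c0 (K.bd σ))) := by
  have a0 : ¬ K.ab (K.cp (K.n0 σ)) := h.cp0 σ ▸ (h.qdB _ hq).1
  have a1 : ¬ K.ab (K.cp (K.n1 σ)) := h.cp1 σ ▸ (h.qdB _ hq).2
  refine Frm.Ty.ltr _ _ _ _ (lB hq) (not_En _) rfl ?_
  refine Frm.Ty.ltr _ _ _ _ (lN a1) (not_En _) (congrArg nJ (h.cp1 σ)) ?_
  refine Frm.Ty.con _ _ _ _ _ (ar (Ar.st σ)) ?_
  refine Frm.Ty.ltr _ _ _ _ (lN a0) (not_En _) rfl ?_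
  rw [← h.cp0]
  exact Frm.Ty.nil _ (vJ _)

end AsmP

open AsmP

theorem asm : AsmStmt := by
  intro G Ω J B N St _ _ _ _ _ _ K h
  classical
  have hΩ : Nonempty Ω := h.ne.map K.ωJ
  let L : List St := (Finset.univ.filter fun σ => K.qd (K.bd σ)).toList
  have hL : ∀ σ, σ ∈ L ↔ K.qd (K.bd σ) := fun σ => by simp [L]
  have hn : L.Nodup := Finset.nodup_toList _
  refine ⟨Ix J B N, inferInstance, inferInstance, frm K, L.map (rel K),
    ⟨AsmP.val h, gen h, fun ψ u hs hr => ext h ψ u hs fun σ hq =>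
      hr _ (List.mem_map_of_mem ((hL σ).2 hq))⟩, fun r hr => ?_, fun r hr => ?_,
    fun r _ p q g _ => Or.inl rfl, fun l => ?_⟩
  · obtain ⟨σ, hσ, rfl⟩ := List.mem_map.1 hr
    exact ⟨_, ty_rel h ((hL σ).1 hσ)⟩
  · obtain ⟨σ, -, rfl⟩ := List.mem_map.1 hr
    simp [rel, Frm.lab, Frm.ll, frm]
  · rw [count_rel]
    have z : ∀ p : St → Bool, (∀ σ ∈ L, p σ = true → False) → L.countP p = 0 := fun p hp =>
      List.countP_eq_zero.2 hp
    rcases l with p | j | b | n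
    · have h1 := countP_le hn (fun σ => decide ((Sum.inl (K.n1 σ) : Ix J B N) = Sum.inl p))
        {σ | K.qd (K.bd σ) ∧ K.n1 σ = p} fun σ hσ e => ⟨(hL σ).1 hσ, by simpa using e⟩
      have h0 := countP_le hn (fun σ => decide ((Sum.inl (K.n0 σ) : Ix J B N) = Sum.inl p))
        {σ | K.qd (K.bd σ) ∧ K.n0 σ = p} fun σ hσ e => ⟨(hL σ).1 hσ, by simpa using e⟩
      have h2 := h.twoN p
      rw [z _ fun σ _ e => by simp at e]
      omega
    · rw [z _ fun σ _ e => by simp at e, z _ fun σ _ e => by simp at e,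
        z _ fun σ _ e => by simp at e]
      omega
    · rw [z (fun σ => decide (Sum.inl (K.n1 σ) = nB b)) fun σ _ e => by simp at e,
        z (fun σ => decide (Sum.inl (K.n0 σ) = nB b)) fun σ _ e => by simp at e]
      by_cases hq : K.qd b
      · exact (countP_le hn _ {σ | K.bd σ = b} fun σ _ e => by simpa using e).trans (h.twoB b hq)
      · rw [z _ fun σ hσ e => hq (by
          have : K.bd σ = b := by simpa using e
          exact this ▸ (hL σ).1 hσ)]
        omega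
    · rw [z _ fun σ _ e => by simp at e, z _ fun σ _ e => by simp at e,
        z _ fun σ _ e => by simp at e]
      omega

end Pool.Agent.MP_494aff_an.Fr

end MrgPart3

-- ======== part 4: formerly Pool.Agent.MP_494aff_an.fr.Baum
section MrgPart4

/-! Products of large powers in the free group, and generic elements. -/

namespace Pool.Agent.MP_494aff_an.Fr

open Pool.Agent.MP_494aff_an.Pinch Pool.Agent.MP_494aff_an.Lf Pool.Agent.MP_494aff_an.Se

namespace BaumP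

lemma tri (x y z : F2) : (x⁻¹ * z).norm ≤ (x⁻¹ * y).norm + (y⁻¹ * z).norm := by
  have h := FreeGroup.norm_mul_le (x⁻¹ * y) (y⁻¹ * z)
  rwa [show x⁻¹ * y * (y⁻¹ * z) = x⁻¹ * z by group] at h

lemma sym (x y : F2) : (x⁻¹ * y).norm = (y⁻¹ * x).norm := by
  rw [← FreeGroup.norm_inv_eq]
  simp

/-- Small cancellations at consecutive long pieces stay small. -/
lemma chain (hF : FwStmt) {u g g' : F2} {D : ℕ} (h1 : u.norm + g.norm ≤ (u * g).norm + 2 * D)
    (h2 : g.norm + g'.norm ≤ (g * g').norm + 2 * D) (h3 : 2 * D < g.norm) :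
    (u * g).norm + g'.norm ≤ (u * g * g').norm + 2 * D := by
  have h := hF.four 1 (u * g) u (u * g * g')
  rw [show u⁻¹ * (u * g * g') = g * g' by group, show (u * g)⁻¹ * (u * g * g') = g' by group,
    show (u * g)⁻¹ * u = g⁻¹ by group, FreeGroup.norm_inv_eq] at h
  simp only [inv_one, one_mul] at h
  rcases le_max_iff.1 h with h | h <;> omega

/-- A point between `1` and an element commuting with `y` is moved by little. -/
lemma disp (hF : FwStmt) {y g p : F2} (hc : y * g = g * y)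
    (hp : (p⁻¹ * g).norm + p.norm = g.norm) : (p⁻¹ * y * p).norm ≤ 3 * y.norm := by
  have e1 : (y * g)⁻¹ * (y * p) = g⁻¹ * p := by group
  have e2 : g⁻¹ * (y * g) = y := by rw [hc]; group
  have e3 : (y * p)⁻¹ * (y * g) = p⁻¹ * g := by group
  have h1 := hF.four 1 g p (y * p)
  have h2 := hF.four 1 (y * g) g (y * p)
  have t1 := FreeGroup.norm_mul_le y p
  have t2 := FreeGroup.norm_mul_le y⁻¹ (y * g)
  have s1 := sym g p
  rw [inv_mul_cancel_left, FreeGroup.norm_inv_eq] at t2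
  rw [e1, show (y * g)⁻¹ * g = (g⁻¹ * (y * g))⁻¹ by group, FreeGroup.norm_inv_eq, e2] at h2
  simp only [inv_one, one_mul] at h1 h2
  rw [mul_assoc]
  rcases le_max_iff.1 h1 with h1 | h1 <;> rcases le_max_iff.1 h2 with h2 | h2 <;> omega

/-- Powers of non commuting elements cancel boundedly. -/
lemma key (hF : FwStmt) (hS : SmallStmt) {y y' : F2} (hn : y * y' ≠ y' * y) {D : ℕ}
    (h1 : 30 * y.norm < D) (h2 : 30 * y'.norm < D) (k l : ℤ) :
    (y ^ k).norm + (y' ^ l).norm ≤ (y ^ k * y' ^ l).norm + 2 * D := by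
  by_contra hc
  rw [not_le] at hc
  set g := (y ^ k)⁻¹ with hg
  set h := y' ^ l with hh
  have e1 : (y ^ k).norm = g.norm := FreeGroup.norm_inv_eq.symm
  have e2 : y ^ k * h = g⁻¹ * h := by rw [hg, inv_inv]
  rw [e1, e2] at hc
  have t1 := FreeGroup.norm_mul_le g (g⁻¹ * h)
  rw [mul_inv_cancel_left] at t1
  obtain ⟨p, hp1, hp2⟩ := hF.geo g D (by omega)
  have f := hF.four 1 g p h
  have s1 := sym g p
  have t2 := FreeGroup.norm_mul_le p (p⁻¹ * h)
  rw [mul_inv_cancel_left] at t2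
  simp only [inv_one, one_mul] at f
  have hp3 : (p⁻¹ * h).norm + p.norm = h.norm := by
    rcases le_max_iff.1 f with f | f <;> omega
  have d1 := disp hF (y := y) (g := g) (p := p) ((Commute.refl y).zpow_right k).inv_right.eq
    (by omega)
  have d2 := disp hF (y := y') (g := h) (p := p) ((Commute.refl y').zpow_right l).eq hp3
  exact hn (hS y y' p (by omega) (by omega) (by omega) (by omega))

lemma long (hF : FwStmt) {y : F2} (hy : y ≠ 1) (k : ℤ) : k.natAbs ≤ (y ^ k).norm := by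
  have h1 := hF.le (y ^ k)
  rw [hF.zpow] at h1
  have h2 : cl y ≠ 0 := fun e => hy ((hF.zero y).1 e)
  exact (Nat.le_mul_of_pos_right _ (Nat.pos_of_ne_zero h2)).trans h1

/-- Exponent sums. -/
def esum (i : Fin 2) : F2 →* Multiplicative ℤ :=
  FreeGroup.lift fun j => Multiplicative.ofAdd (if j = i then 1 else 0)

end BaumP

open BaumP

theorem baum (hF : Se.FwStmt) (hS : Se.SmallStmt) : BaumStmt := by
  intro n x b hx hb b'
  let B : ℕ → F2 := fun i => ((List.range (i + 1)).map b).prod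
  have hB : ∀ i, B (i + 1) = B i * b (i + 1) := fun i => by
    simp only [B]
    rw [List.range_succ (n := i + 1)]
    simp
  let y : ℕ → F2 := fun i => B i * x i * (B i)⁻¹
  have hy : ∀ i ≤ n, y i ≠ 1 := fun i hi e => hx i hi (by simpa [y] using e)
  have hyn : ∀ i < n, y i * y (i + 1) ≠ y (i + 1) * y i := fun i hi e => hb i hi (by
    have e' := congrArg (fun w => (B i)⁻¹ * w * B i) e.symm
    simp only [y, hB] at e'
    calc _ = _ := by group
      _ = _ := e'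
      _ = _ := by group)
  let D := 30 * (∑ i ∈ Finset.range (n + 1), (y i).norm) + 1
  have hD : ∀ i ≤ n, 30 * (y i).norm < D := fun i hi => by
    have : (y i).norm ≤ ∑ i ∈ Finset.range (n + 1), (y i).norm :=
      Finset.single_le_sum (f := fun i => (y i).norm) (fun _ _ => Nat.zero_le _)
        (Finset.mem_range.2 (Nat.lt_succ_of_le hi))
    simp only [D]
    omega
  refine ⟨2 * D + (b' * (B n)⁻¹).norm + 1, fun k hk e => ?_⟩
  have hl : ∀ i ≤ n, 2 * D + (b' * (B n)⁻¹).norm < (y i ^ k i).norm := fun i hi =>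
    (hk i hi).trans (long hF (hy i hi) _)
  have main : ∀ m ≤ n, ∃ u : F2,
      ((List.range (m + 1)).map fun i => b i * x i ^ k i).prod = u * y m ^ k m * B m ∧
      u.norm + (y m ^ k m).norm ≤ (u * y m ^ k m).norm + 2 * D := by
    intro m
    induction m with
    | zero => exact fun _ => ⟨1, by simp [y, B], by simp⟩
    | succ m ih =>
      intro hm
      obtain ⟨u, h1, h2⟩ := ih (by omega)
      refine ⟨u * y m ^ k m, ?_, chain hF h2
        (key hF hS (hyn m hm) (hD m (by omega)) (hD _ hm) _ _) ?_⟩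
      · rw [List.range_succ (n := m + 1), List.map_append, List.prod_append, h1]
        simp only [List.map_cons, List.map_nil, List.prod_cons, List.prod_nil, mul_one]
        rw [show y (m + 1) ^ k (m + 1) = B (m + 1) * x (m + 1) ^ k (m + 1) * (B (m + 1))⁻¹ from
          conj_zpow, hB]
        group
      · have := hl m (by omega)
        omega
  obtain ⟨u, h1, h2⟩ := main n le_rfl
  have h3 : u * y n ^ k n = b' * (B n)⁻¹ := by rw [← e, h1]; group
  have := hl n le_rfl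
  rw [h3] at h2
  omega

theorem genf : GenfStmt := by
  intro Q hQ
  let k : ℕ := (∑ q ∈ Q, (esum 1 q).toAdd.natAbs) + 1
  have h0 : (esum 0 (FreeGroup.of 0 * FreeGroup.of 1 ^ k)).toAdd = 1 := by simp [esum]
  have h1 : (esum 1 (FreeGroup.of 0 * FreeGroup.of 1 ^ k)).toAdd = k := by simp [esum]
  refine ⟨FreeGroup.of 0 * FreeGroup.of 1 ^ k, fun e => ?_, fun q hq a e => ?_⟩
  · rw [e] at h0
    simp at h0
  · obtain ⟨z, m, l, hz, hq'⟩ := cyc_of_commute e
    have hl : l ≠ 0 := fun e => hQ q hq (by rw [hq', e, zpow_zero])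
    have c : ∀ i, (esum i (FreeGroup.of 0 * FreeGroup.of 1 ^ k)).toAdd = m * (esum i z).toAdd :=
      fun i => by
        have := congrArg (fun w => (esum i w).toAdd) hz
        simp only [map_mul, map_inv, map_zpow, toAdd_mul, toAdd_inv, toAdd_zpow,
          smul_eq_mul] at this ⊢
        linarith
    have c0 := congrArg Int.natAbs (h0.symm.trans (c 0))
    have c1 := congrArg Int.natAbs (h1.symm.trans (c 1))
    have c2 : (esum 1 q).toAdd.natAbs = l.natAbs * (esum 1 z).toAdd.natAbs := by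
      rw [hq', map_zpow, toAdd_zpow, smul_eq_mul, Int.natAbs_mul]
    rw [Int.natAbs_mul] at c0 c1
    have hm : m.natAbs = 1 := Nat.eq_one_of_mul_eq_one_right c0.symm
    rw [hm, one_mul, Int.natAbs_natCast] at c1
    have h2 := Finset.single_le_sum (f := fun q => (esum 1 q).toAdd.natAbs)
      (fun _ _ => Nat.zero_le _) hq
    have h3 : (esum 1 z).toAdd.natAbs ≤ l.natAbs * (esum 1 z).toAdd.natAbs :=
      Nat.le_mul_of_pos_left _ (Int.natAbs_pos.2 hl)
    simp only [k] at c1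
    omega

end Pool.Agent.MP_494aff_an.Fr

end MrgPart4

-- ======== part 5: formerly Pool.Agent.MP_494aff_an.fr.Elim
section MrgPart5

/-! Elimination of a letter that occurs once in a relator. -/

namespace Pool.Agent.MP_494aff_an.Fr

open Pool.Agent.MP_494aff_an.Se

namespace ElimP

variable {G Ω I : Type} [Group G]

lemma split_one [DecidableEq I] {x : I} : ∀ {r : List (Sym G I)}, (lets r).count x = 1 →
    ∃ U V e, r = U ++ Sum.inr (x, e) :: V ∧ x ∉ lets U ∧ x ∉ lets V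
  | [], h => by simp at h
  | Sum.inl a :: r, h => by
    obtain ⟨U, V, e, h1, h2, h3⟩ := split_one (r := r) (by simpa using h)
    exact ⟨Sum.inl a :: U, V, e, by simp [h1], by simpa using h2, h3⟩
  | Sum.inr (y, b) :: r, h => by
    by_cases hy : y = x
    · subst hy
      refine ⟨[], r, b, rfl, by simp, ?_⟩
      simpa [List.count_eq_zero] using h
    · obtain ⟨U, V, e, h1, h2, h3⟩ := split_one (r := r) (by simpa [List.count_cons, hy] using h)
      refine ⟨Sum.inr (y, b) :: U, V, e, by simp [h1], ?_, h3⟩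
      simp only [lets_inr, List.mem_cons, not_or]
      exact ⟨fun e => hy e.symm, h2⟩

lemma mem_winv {w : List (Sym G I)} {p q : I} {g : G} (h : Sum.inl (p, q, g) ∈ winv w) :
    Sum.inl (q, p, g⁻¹) ∈ w := by
  simp only [winv, List.mem_reverse, List.mem_map] at h
  obtain ⟨a, ha, e⟩ := h
  rcases a with ⟨a, b, c⟩ | a
  · simp only [sinv, Sum.inl.injEq, Prod.mk.injEq] at e
    obtain ⟨rfl, rfl, rfl⟩ := e
    simpa using ha
  · simp [sinv] at e

lemma cn_winv [MulAction G Ω] {Φ : Frm G Ω I} (hV : Φ.Val) {w : List (Sym G I)} {p q : I}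
    (hw : Φ.Ty p w q) (hc : Φ.Cn w) : Φ.Cn (winv w) := by
  intro a b g hg
  have h1 := mem_winv hg
  rcases hc _ _ _ h1 with h | ⟨h, h'⟩
  · exact Or.inl (hV.kE _ _ _ (hw.con_mem _ _ _ h1) h).1
  · exact Or.inr ⟨h.symm, by simpa using h'⟩

lemma cn_append {Φ : Frm G Ω I} {w w' : List (Sym G I)} :
    Φ.Cn (w ++ w') ↔ Φ.Cn w ∧ Φ.Cn w' := by
  constructor
  · intro h
    exact ⟨fun p q g hg => h p q g (List.mem_append_left _ hg),
      fun p q g hg => h p q g (List.mem_append_right _ hg)⟩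
  · rintro ⟨h, h'⟩ p q g hg
    rcases List.mem_append.1 hg with hg | hg
    · exact h p q g hg
    · exact h' p q g hg

/-- The word that replaces the letter. -/
structure Wd [DecidableEq I] (Φ : Frm G Ω I) (r : List (Sym G I)) (x : I)
    (W : List (Sym G I)) : Prop where
  mem : x ∈ Φ.Ls
  en : x ∉ Φ.En
  ty : Φ.Ty (Φ.t x) W (Φ.s x)
  lab : Φ.wlab W = Φ.γ x
  cn : Φ.Cn W
  nx : x ∉ lets W
  cnt : ∀ l, l ≠ x → (lets W).count l = (lets r).count l
  rel : ∀ ψ u, Φ.Sol ψ u → u x = wval ψ u W → wval ψ u r = 1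

lemma exW [MulAction G Ω] [DecidableEq I] {Φ : Frm G Ω I} (hV : Φ.Val) {r : List (Sym G I)}
    {o x : I} (ht : Φ.Ty o r o) (hl : Φ.wlab r = 1) (hc : Φ.Cn r) (h1 : (lets r).count x = 1) :
    ∃ W, Wd Φ r x W := by
  obtain ⟨U, V, e, rfl, hU, hV'⟩ := split_one h1
  obtain ⟨q, tU, tV0⟩ := ht.split hV.grp
  obtain ⟨a1, a2, a3, tV⟩ := tV0.of_ltr
  subst a3
  have cU : Φ.Cn U := (cn_append.1 hc).1
  have cV : Φ.Cn V := fun p q g hg => (cn_append.1 hc).2 p q g (List.mem_cons_of_mem _ hg)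
  rw [Frm.wlab_append, Frm.wlab_cons] at hl
  cases e with
  | true =>
    refine ⟨winv U ++ winv V, a1, a2, (tU.inv hV.grp).append (tV.inv hV.grp), ?_,
      cn_append.2 ⟨cn_winv hV tU cU, cn_winv hV tV cV⟩, by simp [lets_winv, hU, hV'],
      fun l hx => by simp [lets_winv, List.count_cons, hx.symm], fun ψ u hs hu => ?_⟩
    · have : Φ.wlab U * (Φ.γ x * Φ.wlab V) = 1 := hl
      rw [Frm.wlab_append, Frm.wlab_winv, Frm.wlab_winv]
      rw [mul_eq_one_iff_inv_eq] at this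
      rw [this]; group
    · rw [wval_append, hs.winv hV.grp tU, hs.winv hV.grp tV] at hu
      simp [val, hu]
  | false =>
    refine ⟨V ++ U, a1, a2, tV.append tU, ?_, cn_append.2 ⟨cV, cU⟩, by simp [hU, hV'],
      fun l hx => by simp [List.count_cons, hx.symm, add_comm], fun ψ u hs hu => ?_⟩
    · have : Φ.wlab U * ((Φ.γ x)⁻¹ * Φ.wlab V) = 1 := hl
      rw [Frm.wlab_append]
      rw [mul_eq_one_iff_eq_inv] at this
      rw [this]; group
    · rw [wval_append] at hu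
      simp [val, hu]

/-- Substitution of a word for a letter. -/
def sub [DecidableEq I] (x : I) (W : List (Sym G I)) : Sym G I → List (Sym G I)
  | Sum.inl a => [Sum.inl a]
  | Sum.inr y => if y.1 = x then cond y.2 W (winv W) else [Sum.inr y]

def subw [DecidableEq I] (x : I) (W w : List (Sym G I)) : List (Sym G I) := w.flatMap (sub x W)

/-- The frame without the letter. -/
def er [DecidableEq I] (Φ : Frm G Ω I) (x : I) : Frm G Ω I := { Φ with Ls := Φ.Ls.erase x }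

variable [DecidableEq I] {Φ : Frm G Ω I} {r W : List (Sym G I)} {x : I}

@[simp] lemma subw_nil : subw x W [] = [] := rfl

lemma subw_cons (a : Sym G I) (w : List (Sym G I)) :
    subw x W (a :: w) = sub x W a ++ subw x W w := by simp [subw]

lemma subw_flatten (rs : List (List (Sym G I))) :
    (rs.map (subw x W)).flatten = subw x W rs.flatten := by
  induction rs with
  | nil => rfl
  | cons a rs ih => rw [List.map_cons, List.flatten_cons, ih]; simp [subw]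

lemma er_wlab (w : List (Sym G I)) : (er Φ x).wlab w = Φ.wlab w := rfl

lemma er_ty {w : List (Sym G I)} {p q : I} (h : Φ.Ty p w q) (hx : x ∉ lets w) :
    (er Φ x).Ty p w q :=
  (h.transfer (Φ' := er Φ x) (fun _ h => h) (fun _ _ _ h => h) fun l hl =>
    ⟨Finset.mem_erase.2 ⟨fun e => hx (e ▸ hl), (h.lets l hl).1⟩, (h.lets l hl).2, rfl, rfl,
      rfl⟩).1

lemma subw_ty (hG : Φ.Grp) (hW : Wd Φ r x W) {w : List (Sym G I)} {p q : I} (h : Φ.Ty p w q) :
    (er Φ x).Ty p (subw x W w) q ∧ Φ.wlab (subw x W w) = Φ.wlab w := by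
  induction h with
  | nil p hp => exact ⟨Frm.Ty.nil p hp, rfl⟩
  | con p q _ g w he _ ih =>
    rw [subw_cons]
    exact ⟨Frm.Ty.con _ _ _ _ _ he ih.1, by simp [sub, ih.2]⟩
  | ltr p _ y w h1 h2 h3 _ ih =>
    rw [subw_cons]
    subst h3
    obtain ⟨y, e⟩ := y
    by_cases hy : y = x
    · subst hy
      cases e with
      | true =>
        refine ⟨?_, by simp [sub, ih.2, hW.lab, Frm.lab, Frm.ll]⟩
        simp only [sub, if_true, cond_true]
        exact (er_ty hW.ty hW.nx).append ih.1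
      | false =>
        refine ⟨?_, by simp [sub, ih.2, hW.lab, Frm.lab, Frm.ll, Frm.wlab_winv]⟩
        simp only [sub, if_true, cond_false]
        exact (er_ty (hW.ty.inv hG) (by simp [lets_winv, hW.nx])).append ih.1
    · refine ⟨?_, by simp [sub, hy, ih.2]⟩
      simp only [sub, hy, if_false]
      exact Frm.Ty.ltr _ _ (y, e) _ (Finset.mem_erase.2 ⟨hy, h1⟩) h2 rfl ih.1

lemma subw_val (hG : Φ.Grp) (hW : Wd Φ r x W) {ψ : I → I → G → F2} {u : I → F2}
    (hs : Φ.Sol ψ u) (hu : u x = wval ψ u W) (w : List (Sym G I)) :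
    wval ψ u (subw x W w) = wval ψ u w := by
  induction w with
  | nil => rfl
  | cons a w ih =>
    rw [subw_cons, wval_append, wval_cons, ih]
    congr 1
    rcases a with a | ⟨y, e⟩
    · simp [sub]
    · by_cases hy : y = x
      · subst hy
        cases e with
        | true => simp [sub, val, hu]
        | false => simp [sub, val, hu, hs.winv hG hW.ty]
      · simp [sub, hy]

lemma subw_cn [MulAction G Ω] (hV : Φ.Val) (hW : Wd Φ r x W) {w : List (Sym G I)}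
    (h : Φ.Cn w) : Φ.Cn (subw x W w) := by
  intro p q g hg
  obtain ⟨a, ha, hg⟩ := List.mem_flatMap.1 hg
  rcases a with a | ⟨y, e⟩
  · simp only [sub, List.mem_singleton] at hg
    exact h p q g (hg ▸ ha)
  · by_cases hy : y = x
    · cases e with
      | true => exact hW.cn p q g (by simpa [sub, hy] using hg)
      | false => exact cn_winv hV hW.ty hW.cn p q g (by simpa [sub, hy] using hg)
    · simp [sub, hy] at hg

lemma subw_count {l : I} (hl : l ≠ x) (w : List (Sym G I)) :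
    (lets (subw x W w)).count l =
      (lets w).count l + (lets w).count x * (lets W).count l := by
  induction w with
  | nil => simp
  | cons a w ih =>
    rw [subw_cons, lets_append, List.count_append, ih]
    rcases a with a | ⟨y, e⟩
    · simp [sub]
    · by_cases hy : y = x
      · subst hy
        cases e <;> simp [sub, lets_winv, List.count_cons, hl.symm] <;> ring
      · simp [sub, hy, List.count_cons]
        ring

lemma er_grp (hG : Φ.Grp) (hx : x ∉ Φ.En) : (er Φ x).Grp where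
  refl := hG.refl
  symm := hG.symm
  trans := hG.trans
  mem := hG.mem
  ne := hG.ne
  st l hl := hG.st l (Finset.mem_of_mem_erase hl)
  en _ he := Finset.mem_erase.2 ⟨fun h => hx (h ▸ he), hG.en he⟩
  ce := hG.ce

lemma er_val [MulAction G Ω] (hV : Φ.Val) (hx : x ∉ Φ.En) : (er Φ x).Val where
  grp := er_grp hV.grp hx
  kE := hV.kE
  iso := hV.iso
  ab := hV.ab
  kend := hV.kend
  pan p hp hk := by
    obtain ⟨S, c₀, c₁, sl, h⟩ := hV.pan p hp hk
    exact ⟨S, c₀, c₁, sl, h.m0, h.m1, h.nc, h.two, h.ab, h.grp, h.inj, h.mem, h.le, h.inn⟩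

lemma er_gen (hG : Φ.Grp) (hW : Wd Φ r x W) (h : Φ.Gen) : (er Φ x).Gen := by
  intro X h1 h2
  refine h X h1 fun l hl g => ?_
  by_cases e : l = x
  · subst e
    have := hW.ty.gen hG (Y := X) h1 (fun l' hl' =>
      h2 l' (Finset.mem_erase.2 ⟨fun e => hW.nx (e ▸ hl'), (hW.ty.lets l' hl').1⟩)) g
    rwa [hW.lab] at this
  · exact h2 l (Finset.mem_erase.2 ⟨e, hl⟩) g

end ElimP

open ElimP in
theorem elim : ElimStmt := by
  intro G Ω I _ _ _ Φ r rs x hR h1
  have hV := hR.ok.val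
  have hG := hV.grp
  obtain ⟨o, ho⟩ := hR.ty r List.mem_cons_self
  obtain ⟨W, hW⟩ := exW hV ho (hR.lab r List.mem_cons_self) (hR.cn r List.mem_cons_self) h1
  have hty : ∀ r' ∈ rs, ∃ o, (er Φ x).Ty o (subw x W r') o ∧
      Φ.wlab (subw x W r') = Φ.wlab r' := fun r' hr' => by
    obtain ⟨o', h⟩ := hR.ty r' (List.mem_cons_of_mem _ hr')
    exact ⟨o', subw_ty hG hW h⟩
  refine ⟨er Φ x, rs.map (subw x W), ⟨⟨er_val hV hW.en, er_gen hG hW hR.ok.gen, ?_⟩, ?_, ?_, ?_,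
    ?_⟩, by simp⟩
  · intro ψ u' hs hC
    have hne : ∀ l, l ≠ x → Function.update u' x (wval ψ u' W) l = u' l := fun l hl =>
      Function.update_of_ne hl _ _
    generalize hu : Function.update u' x (wval ψ u' W) = u at hne
    have hux : u x = wval ψ u W := by
      rw [hW.ty.val_congr (ψ := ψ) (ψ' := ψ) (u := u) (u' := u') (fun _ _ _ _ => rfl)
        fun l hl => hne l fun e => hW.nx (e ▸ hl), ← hu, Function.update_self]
    have hs' : Φ.Sol ψ u := ⟨hs.fn, fun e he a ha => by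
      rw [hne e fun h => hW.en (h ▸ he)]
      exact hs.sq e he a ha⟩
    obtain ⟨Ψ, y, a1, a2⟩ := hR.ok.ext ψ u hs' fun r' hr' => by
      rcases List.mem_cons.1 hr' with rfl | hr'
      · exact hW.rel ψ u hs' hux
      · obtain ⟨o', h, -⟩ := hty r' hr'
        rw [← subw_val hG hW hs' hux r', h.val_congr (ψ := ψ) (ψ' := ψ) (u := u) (u' := u')
          (fun _ _ _ _ => rfl) fun l hl => hne l (Finset.mem_erase.1 (h.lets l hl).1).1]
        exact hC _ (List.mem_map_of_mem hr')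
    refine ⟨Ψ, y, a1, fun l hl => ?_⟩
    rw [← hne l (Finset.mem_erase.1 hl).1]
    exact a2 l (Finset.mem_of_mem_erase hl)
  · intro r' hr'
    obtain ⟨r'', h, rfl⟩ := List.mem_map.1 hr'
    obtain ⟨o', h, -⟩ := hty r'' h
    exact ⟨o', h⟩
  · intro r' hr'
    obtain ⟨r'', h, rfl⟩ := List.mem_map.1 hr'
    obtain ⟨o', -, h'⟩ := hty r'' h
    rw [er_wlab, h']
    exact hR.lab _ (List.mem_cons_of_mem _ h)
  · intro r' hr'
    obtain ⟨r'', h, rfl⟩ := List.mem_map.1 hr'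
    exact subw_cn hV hW (hR.cn _ (List.mem_cons_of_mem _ h))
  · intro l
    by_cases hl : l = x
    · subst hl
      rw [List.count_eq_zero.2]
      · omega
      · intro hm
        obtain ⟨b, hb⟩ := mem_lets.1 hm
        obtain ⟨r', hr', hb⟩ := List.mem_flatten.1 hb
        obtain ⟨r'', h, rfl⟩ := List.mem_map.1 hr'
        obtain ⟨o', h, -⟩ := hty r'' h
        exact (Finset.mem_erase.1 (h.lets l (mem_lets.2 ⟨b, hb⟩)).1).1 rfl
    · have a1 := hR.two l
      have a2 := hR.two x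
      rw [List.flatten_cons, lets_append, List.count_append] at a1 a2
      rw [subw_flatten, subw_count hl, hW.cnt l hl]
      have a3 : (lets rs.flatten).count x ≤ 1 := by omega
      have := Nat.mul_le_mul_right ((lets r).count l) a3
      omega

end Pool.Agent.MP_494aff_an.Fr

end MrgPart5

-- ======== part 6: formerly Pool.Agent.MP_494aff_an.fr.PanA
section MrgPart6

/-! Two abelian subgroups that do not commute generate their free product. -/

open Monoid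

namespace Pool.Agent.MP_494aff_an.Fr

open Pool.Agent.MP_494aff_an.Pinch Pool.Agent.MP_494aff_an.Pinch.TowP Pool.Agent.MP_494aff_an.Lf
open Pool.Agent.MP_494aff_an.Se Pool.Agent.MP_494aff_an.Pinch.AttP

namespace PanAP

/-- Finitely many elements that commute with a nontrivial element have a common root. -/
lemma root {A : Type} (f : A → F2) {x : F2} (hx : x ≠ 1) (T : Finset A)
    (h : ∀ a ∈ T, x * f a = f a * x) :
    ∃ r, x ∈ Subgroup.zpowers r ∧ ∀ a ∈ T, f a ∈ Subgroup.zpowers r := by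
  classical
  induction T using Finset.induction_on with
  | empty => exact ⟨x, Subgroup.mem_zpowers x, by simp⟩
  | insert a T _ ih =>
    obtain ⟨r, ⟨k, hk⟩, h2⟩ := ih fun b hb => h b (Finset.mem_insert_of_mem hb)
    have h3 : x * r = r * x := by
      rw [← hk]; exact ((Commute.refl r).zpow_left k).eq
    obtain ⟨z, m, n, hr, ha⟩ :=
      cyc_of_commute ((ct_free _).ct x r (f a) hx h3 (h a (Finset.mem_insert_self _ _)))
    have hz : Subgroup.zpowers r ≤ Subgroup.zpowers z :=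
      Subgroup.zpowers_le.2 ⟨m, hr.symm⟩
    refine ⟨z, hz ⟨k, hk⟩, fun b hb => ?_⟩
    rcases Finset.mem_insert.1 hb with rfl | hb
    · exact ⟨n, ha.symm⟩
    · exact hz (h2 b hb)

lemma mem_one {A : Type} [Group A] (a : A) : a ∈ (1 : Unit →* A).range ↔ a = 1 :=
  ⟨fun ⟨_, e⟩ => e.symm, fun e => ⟨(), e.symm⟩⟩

/-- An alternating word goes to an alternating word in powers of the two roots. -/
lemma word {A B : Type} [Group A] [Group B] {t : Option Bool} {z : Coprod A B}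
    (h : Gl.Typ (1 : Unit →* A) (1 : Unit →* B) Coprod.inl Coprod.inr t z) :
    ∃ (T : Finset A) (T' : Finset B), (∀ p ∈ T, p ≠ 1) ∧ (∀ q ∈ T', q ≠ 1) ∧
      ∀ (ψ : Coprod A B →* F2) (r r' : F2),
        (∀ p ∈ T, ψ (Coprod.inl p) ≠ 1 ∧ ψ (Coprod.inl p) ∈ Subgroup.zpowers r) →
        (∀ q ∈ T', ψ (Coprod.inr q) ≠ 1 ∧ ψ (Coprod.inr q) ∈ Subgroup.zpowers r') →
        ∃ ω, Gl.Typ (1 : Unit →* Zm) (1 : Unit →* Zm)
          (zpowersHom (Lm Unit) (io (FreeGroup.of ()))) (zpowersHom (Lm Unit) (cc Unit)) t ω ∧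
          pr r' r ω = ψ z := by
  classical
  induction h with
  | base u => exact ⟨∅, ∅, by simp, by simp, fun ψ r r' _ _ => ⟨_, Gl.Typ.base u, by simp⟩⟩
  | left p z t hp _ ht ih =>
    obtain ⟨T, T', h1, h2, h3⟩ := ih
    refine ⟨insert p T, T', fun a ha => ?_, h2, fun ψ r r' a1 a2 => ?_⟩
    · rcases Finset.mem_insert.1 ha with rfl | ha
      · exact fun e => hp ((mem_one _).2 e)
      · exact h1 a ha
    · obtain ⟨ω, b1, b2⟩ := h3 ψ r r' (fun a ha => a1 a (Finset.mem_insert_of_mem ha)) a2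
      obtain ⟨c1, k, hk⟩ := a1 p (Finset.mem_insert_self _ _)
      refine ⟨_, Gl.Typ.left (Multiplicative.ofAdd k) ω t (fun hm => c1 ?_) b1 ht, ?_⟩
      · have : k = 0 := ofAdd_eq_one.1 ((mem_one _).1 hm)
        rw [← hk, this]
        exact zpow_zero r
      · rw [map_mul, map_mul, b2, ← hk]
        simp [pr_io]
  | right q z t hq _ ht ih =>
    obtain ⟨T, T', h1, h2, h3⟩ := ih
    refine ⟨T, insert q T', h1, fun a ha => ?_, fun ψ r r' a1 a2 => ?_⟩
    · rcases Finset.mem_insert.1 ha with rfl | ha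
      · exact fun e => hq ((mem_one _).2 e)
      · exact h2 a ha
    · obtain ⟨ω, b1, b2⟩ := h3 ψ r r' a1 fun a ha => a2 a (Finset.mem_insert_of_mem ha)
      obtain ⟨c1, k, hk⟩ := a2 q (Finset.mem_insert_self _ _)
      refine ⟨_, Gl.Typ.right (Multiplicative.ofAdd k) ω t (fun hm => c1 ?_) b1 ht, ?_⟩
      · have : k = 0 := ofAdd_eq_one.1 ((mem_one _).1 hm)
        rw [← hk, this]
        exact zpow_zero r'
      · rw [map_mul, map_mul, b2, ← hk]
        simp [pr_cc]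

end PanAP

theorem panA : PanAStmt := by
  classical
  intro G _ S S' c c' hD hc hc' hcc hS hS'
  have hu : ∀ (A : Type) [Group A], Function.Injective (1 : Unit →* A) :=
    fun _ _ a b _ => Subsingleton.elim a b
  refine (injective_iff_map_eq_one _).2 fun z hz => ?_
  obtain ⟨t, ht⟩ := Gl.exists_typ (amal_cop S S') z
  rcases t with _ | b
  · cases ht with
    | base u => simp
  exfalso
  obtain ⟨T, T', h1, h2, h3⟩ := PanAP.word ht
  obtain ⟨φ, hφ⟩ := hD (insert (c * c' * (c' * c)⁻¹) (T.image Subtype.val ∪ T'.image Subtype.val))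
    (fun q hq => by
      rcases Finset.mem_insert.1 hq with rfl | hq
      · exact fun e => hcc (mul_inv_eq_one.1 e)
      rcases Finset.mem_union.1 hq with hq | hq
      · obtain ⟨p, hp, rfl⟩ := Finset.mem_image.1 hq
        exact fun e => h1 p hp (Subtype.ext e)
      · obtain ⟨p, hp, rfl⟩ := Finset.mem_image.1 hq
        exact fun e => h2 p hp (Subtype.ext e))
  have hn : φ c * φ c' ≠ φ c' * φ c := fun e =>
    hφ _ (Finset.mem_insert_self _ _) (by rw [map_mul, map_inv, map_mul, map_mul, e, mul_inv_cancel])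
  obtain ⟨r, ⟨k, hk⟩, hr⟩ := PanAP.root (fun a : S => φ a) (x := φ c)
    (fun e => hn (by rw [e, one_mul, mul_one])) T
    fun a _ => by rw [← map_mul, hS c hc a a.2, map_mul]
  obtain ⟨r', ⟨k', hk'⟩, hr'⟩ := PanAP.root (fun a : S' => φ a) (x := φ c')
    (fun e => hn (by rw [e, one_mul, mul_one])) T'
    fun a _ => by rw [← map_mul, hS' c' hc' a a.2, map_mul]
  have hrr : r' * r ≠ r * r' := fun e => hn (by
    rw [← hk, ← hk']
    exact ((show Commute r r' from e.symm).zpow_zpow k k').eq)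
  obtain ⟨ω, b1, b2⟩ := h3 (φ.comp (Coprod.lift S.subtype S'.subtype)) r r'
    (fun p hp => ⟨hφ _ (Finset.mem_insert_of_mem (Finset.mem_union_left _
      (Finset.mem_image_of_mem _ hp))), hr p hp⟩)
    (fun p hp => ⟨hφ _ (Finset.mem_insert_of_mem (Finset.mem_union_right _
      (Finset.mem_image_of_mem _ hp))), hr' p hp⟩)
  refine (Gl.nf amal_two (hu _) (hu _)).2 b ω b1 ((ct_free _).fr r' r hrr ?_)
  rw [b2, MonoidHom.comp_apply, hz, map_one, map_one]

end Pool.Agent.MP_494aff_an.Fr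

end MrgPart6

-- ======== part 7: formerly Pool.Agent.MP_494aff_an.fr.StarE
section MrgPart7

/-! Removing a relator in block form by turning its letters into arrows. -/

namespace Pool.Agent.MP_494aff_an.Fr

open Pool.Agent.MP_494aff_an.Se

namespace StarEP

variable {G Ω I : Type} [Group G] [DecidableEq I]

/-- Old arrows and the letters of `L`. -/
def Ar (Φ : Frm G Ω I) (L : List I) (p q : I) (g : G) : Prop :=
  Φ.E p q g ∨ ∃ l ∈ L, p = Φ.t l ∧ q = Φ.s l ∧ g = Φ.γ l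

/-- The letters of `L` become arrows. -/
def nw (Φ : Frm G Ω I) (L : List I) (k : I → Kd) (ω : I → Ω) : Frm G Ω I :=
  { Φ with Ls := Φ.Ls \ L.toFinset, E := Gp (Ar Φ L), kd := k, ω := ω }

variable {Φ : Frm G Ω I} {L : List I} {k : I → Kd} {ω : I → Ω}

lemma old {p q : I} {g : G} (h : Φ.E p q g) : (nw Φ L k ω).E p q g := Gp.of _ _ _ (Or.inl h)

lemma ltr {l : I} (h : l ∈ L) : (nw Φ L k ω).E (Φ.t l) (Φ.s l) (Φ.γ l) :=
  Gp.of _ _ _ (Or.inr ⟨l, h, rfl, rfl, rfl⟩)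

lemma ce {e : I} {a : G} (h : Φ.Ce e a) : (nw Φ L k ω).Ce e a := ⟨old h.1, old h.2.1, h.2.2⟩

lemma grp (hG : Φ.Grp) (hL : ∀ l ∈ L, l ∈ Φ.Ls ∧ l ∉ Φ.En) : (nw Φ L k ω).Grp where
  refl p hp := old (hG.refl p hp)
  symm := Gp.symm
  trans := Gp.trans
  mem p q g h := by
    induction h with
    | of p q g h =>
      rcases h with h | ⟨l, hl, rfl, rfl, -⟩
      · exact hG.mem _ _ _ h
      · exact (hG.st l (hL l hl).1).symm
    | symm _ _ _ _ ih => exact ih.symm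
    | trans _ _ _ _ _ _ _ i1 i2 => exact ⟨i1.1, i2.2⟩
  ne := hG.ne
  st l hl := hG.st l (Finset.mem_sdiff.1 hl).1
  en e he := Finset.mem_sdiff.2 ⟨hG.en he, fun h => (hL e (List.mem_toFinset.1 h)).2 he⟩
  ce e he := ⟨(hG.ce e he).1, ce (hG.ce e he).2⟩

lemma gen (h : Φ.Gen) : (nw Φ L k ω).Gen := by
  intro Y h1 h2
  refine h Y (fun p q a g e => h1 p q a g (old e)) fun l hl g => ?_
  by_cases hm : l ∈ L
  · refine ⟨h1 _ _ _ _ (ltr hm), fun e => ?_⟩
    simpa using h1 _ _ _ _ (Gp.symm _ _ _ (ltr (k := k) (ω := ω) hm)) e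
  · exact h2 l (Finset.mem_sdiff.2 ⟨hl, by simpa using hm⟩) g

/-- A vertex that is not touched keeps its arrows. -/
lemma alone (hG : Φ.Grp) {z : I} (h1 : ∀ q g, Φ.E z q g → q = z)
    (h2 : ∀ l ∈ L, Φ.t l ≠ z ∧ Φ.s l ≠ z) {p q : I} {g : G} (h : Gp (Ar Φ L) p q g)
    (e : p = z ∨ q = z) : Φ.E p q g := by
  induction h with
  | of p q g h =>
    rcases h with h | ⟨l, hl, rfl, rfl, -⟩
    · exact h
    · exact (e.elim (h2 l hl).1 (h2 l hl).2).elim
  | symm _ _ _ _ ih => exact hG.symm _ _ _ (ih e.symm)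
  | trans p q r g h _ _ i1 i2 =>
    rcases e with rfl | rfl
    · have a := i1 (Or.inl rfl)
      exact hG.trans _ _ _ _ _ a (i2 (Or.inl (h1 _ _ a)))
    · have a := i2 (Or.inr rfl)
      exact hG.trans _ _ _ _ _ (i1 (Or.inr (h1 _ _ (hG.symm _ _ _ a)))) a

/-- The value of a block whose letters are constants. -/
lemma blk {Φ' : Frm G Ω I} (hG : Φ'.Grp) {ψ : I → I → G → F2} {u u' : I → F2} (hs : Φ'.Sol ψ u')
    (hm : ∀ p q g, Φ.E p q g → Φ'.E p q g) {b : I} {B : Bl G I} (hB : Φ.BT b B)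
    (h : ∀ l ∈ B.lets, Φ'.E (Φ.t l) (Φ.s l) (Φ.γ l) ∧ u l = ψ (Φ.t l) (Φ.s l) (Φ.γ l)) :
    Φ'.E b b B.lab ∧ B.val ψ u = ψ b b B.lab := by
  cases B with
  | cr m g =>
    obtain ⟨-, -, e1, e2, e3⟩ := hB
    have a := h m (by simp [Bl.lets])
    rw [e1, e2, e3] at a
    exact ⟨hG.trans _ _ _ _ _ a.1 a.1, by simp [Bl.val, Bl.lab, a.2, hs.fn _ _ _ _ _ a.1 a.1]⟩
  | hd m m' g g' =>
    obtain ⟨⟨-, -, e1, e2, e3⟩, -, -, e4, e5, e6⟩ := hB
    have a := h m (by simp [Bl.lets])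
    have a' := h m' (by simp [Bl.lets])
    rw [e1, e2, e3] at a
    rw [e4, e5, e6] at a'
    have c1 := hG.trans _ _ _ _ _ a.1 a'.1
    have c2 := hG.symm _ _ _ a.1
    have c3 := hG.symm _ _ _ a'.1
    have c4 := hG.trans _ _ _ _ _ c1 c2
    refine ⟨hG.trans _ _ _ _ _ c4 c3, ?_⟩
    simp only [Bl.val, Bl.lab, a.2, a'.2, hs.fn _ _ _ _ _ c4 c3, hs.fn _ _ _ _ _ c1 c2,
      hs.fn _ _ _ _ _ a.1 a'.1, hs.inv hG a.1, hs.inv hG a'.1]
  | bd c x v g d =>
    obtain ⟨⟨-, -, e1, e2, e3⟩, e4, -⟩ := hB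
    have a := h x (by simp [Bl.lets])
    rw [e1, e2, e3] at a
    have c1 := hG.symm _ _ _ a.1
    have c2 := hG.trans _ _ _ _ _ c1 (hm _ _ _ e4)
    refine ⟨hG.trans _ _ _ _ _ c2 a.1, ?_⟩
    simp only [Bl.val, Bl.lab, a.2, hs.fn _ _ _ _ _ c2 a.1, hs.fn _ _ _ _ _ c1 (hm _ _ _ e4),
      hs.inv hG a.1]

lemma blks {Φ' : Frm G Ω I} (hG : Φ'.Grp) {ψ : I → I → G → F2} {u u' : I → F2}
    (hs : Φ'.Sol ψ u') {b : I} (hb : b ∈ Φ'.Vs) {Bs : List (Bl G I)}
    (h : ∀ B ∈ Bs, Φ'.E b b B.lab ∧ B.val ψ u = ψ b b B.lab) :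
    Φ'.E b b (Bs.map Bl.lab).prod ∧ (Bs.map (Bl.val ψ u)).prod = ψ b b (Bs.map Bl.lab).prod := by
  induction Bs with
  | nil => exact ⟨hG.refl b hb, (hs.one (hG.refl b hb)).symm⟩
  | cons B Bs ih =>
    have a := h B List.mem_cons_self
    have a' := ih fun B hB => h B (List.mem_cons_of_mem _ hB)
    simp only [List.map_cons, List.prod_cons]
    exact ⟨hG.trans _ _ _ _ _ a.1 a'.1, by rw [hs.fn _ _ _ _ _ a.1 a'.1, a.2, a'.2]⟩

variable [MulAction G Ω] {b : I} {Bs : List (Bl G I)} {X : Set I}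
  {C : (I → I → G → F2) → (I → F2) → Prop}

lemma fre (h : Φ.Blk b Bs X C) : ∀ l ∈ Bs.flatMap Bl.lets, l ∈ Φ.Ls ∧ l ∉ Φ.En := by
  intro l hl
  obtain ⟨B, hB, hl⟩ := List.mem_flatMap.1 hl
  exact (h.bt B hB).lets l hl

lemma ext (h : Φ.Blk b Bs X C) : (nw Φ (Bs.flatMap Bl.lets) k ω).Ext C := by
  intro ψ u' hs hC
  have hG : (nw Φ (Bs.flatMap Bl.lets) k ω).Grp := grp h.ok.val.grp (fre h)
  let u : I → F2 := fun l => if l ∈ Bs.flatMap Bl.lets then ψ (Φ.t l) (Φ.s l) (Φ.γ l) else u' l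
  have u1 : ∀ l ∈ Bs.flatMap Bl.lets, u l = ψ (Φ.t l) (Φ.s l) (Φ.γ l) := fun l hl => if_pos hl
  have u2 : ∀ l, l ∉ Bs.flatMap Bl.lets → u l = u' l := fun l hl => if_neg hl
  obtain ⟨Ψ, y, s1, s2⟩ := h.ok.ext ψ u
    ⟨fun p q r g g' e e' => hs.fn p q r g g' (old e) (old e'), fun e he a ha => by
      rw [u2 e fun hl => (fre h e hl).2 he]
      exact hs.sq e he a (ce ha)⟩
    ⟨by
      have := (blks (u := u) hG hs h.mem fun B hB => blk hG hs (fun _ _ _ => old) (h.bt B hB)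
        fun l hl => ⟨ltr (List.mem_flatMap.2 ⟨B, hB, hl⟩),
          u1 l (List.mem_flatMap.2 ⟨B, hB, hl⟩)⟩).2
      rw [this, h.lab]
      exact hs.one (hG.refl b h.mem),
    h.dep.2 ψ u' ψ u (fun _ _ _ _ => rfl) (fun l hl => (u2 l fun e => h.disj l e hl).symm) hC⟩
  refine ⟨Ψ, y, fun p q g e => ?_, fun l hl => ?_⟩
  · induction e with
    | of p q g e =>
      rcases e with e | ⟨l, hl, rfl, rfl, rfl⟩
      · exact s1 _ _ _ e
      · rw [← u1 l hl]
        exact s2 l (fre h l hl).1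
    | symm p q g e ih => simp [hs.inv hG e, ih, mul_assoc]
    | trans p q r g g' e e' i1 i2 => simp [hs.fn _ _ _ _ _ e e', i1, i2, mul_assoc]
  · obtain ⟨a1, a2⟩ := Finset.mem_sdiff.1 hl
    rw [← u2 l (by simpa using a2)]
    exact s2 l a1

lemma fin0 (h : Φ.Blk b Bs X C) (k : I → Kd) (ω : I → Ω) (hk : ∀ p, p ≠ b → k p = Φ.kd p)
    (hP : k b ≠ Kd.P) (hL : ∀ l ∈ Bs.flatMap Bl.lets, Φ.s l = b ∧
      (Φ.t l = b ∨ (Φ.kd (Φ.t l) = Kd.E ∧ ¬ Φ.Triv (Φ.t l))))
    (hE : ∀ p q g, Gp (Ar Φ (Bs.flatMap Bl.lets)) p q g → k p = Kd.E → k q = Kd.E ∧ g • ω q = ω p)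
    (hI : k b ≠ Kd.E → ∀ q g, Gp (Ar Φ (Bs.flatMap Bl.lets)) b q g → b = q)
    (hA : k b = Kd.A → ∀ g g', Gp (Ar Φ (Bs.flatMap Bl.lets)) b b g →
      Gp (Ar Φ (Bs.flatMap Bl.lets)) b b g' → g * g' = g' * g) : Fin0 Φ b X C := by
  have hV := h.ok.val
  have hG := hV.grp
  have iso : ∀ p, p ≠ b → Φ.kd p ≠ Kd.E → ∀ q g, Gp (Ar Φ (Bs.flatMap Bl.lets)) p q g →
      Φ.E p q g := fun p hp hq q g e =>
    alone hG (fun q g e => (hV.iso p q g e hq).symm) (fun l hl => by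
      obtain ⟨a1, a2⟩ := hL l hl
      refine ⟨fun e => ?_, fun e => hp (e.symm.trans a1)⟩
      rcases a2 with a2 | a2
      · exact hp (e.symm.trans a2)
      · exact hq (e ▸ a2.1)) e (Or.inl rfl)
  have nA : ∀ p, Φ.kd p = Kd.A → Φ.kd p ≠ Kd.E := fun p e => by rw [e]; exact fun e => nomatch e
  have nP : ∀ p, Φ.kd p = Kd.P → Φ.kd p ≠ Kd.E := fun p e => by rw [e]; exact fun e => nomatch e
  refine ⟨nw Φ (Bs.flatMap Bl.lets) k ω, ⟨⟨grp hG (fre h), hE, fun p q g e hp => ?_,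
    fun p g g' hp e e' => ?_, fun e he => ?_, fun p hp hq => ?_⟩, gen h.ok.gen, ext h⟩,
    fun _ e => e, fun _ _ _ => old, fun p _ hp => hk p hp, fun p _ => iso p,
    fun p _ hp ht q g e => ?_, fun l hl p q g e => ?_⟩
  · by_cases hb : p = b
    · subst hb
      exact hI hp q g e
    · have a : Φ.kd p ≠ Kd.E := hk p hb ▸ hp
      exact hV.iso p q g (iso p hb a q g e) a
  · by_cases hb : p = b
    · subst hb
      exact hA hp g g' e e'
    · have a : Φ.kd p = Kd.A := (hk p hb).symm.trans hp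
      exact hV.ab p g g' a (iso p hb (nA p a) _ _ e) (iso p hb (nA p a) _ _ e')
  · obtain ⟨a1, a2⟩ := hV.kend e he
    have a3 : Φ.s e ≠ b := fun e' => nP _ a1 (e' ▸ h.kd)
    exact ⟨(hk _ a3).trans a1, fun e' => a2 ((hk _ (hG.t_ne h.triv he)).symm.trans e')⟩
  · have hb : p ≠ b := fun e => hP (e ▸ hq)
    have a : Φ.kd p = Kd.P := (hk p hb).symm.trans hq
    obtain ⟨S, c₀, c₁, sl, hS⟩ := hV.pan p hp a
    refine ⟨S, c₀, c₁, sl, hS.m0, hS.m1, hS.nc, hS.two, hS.ab, fun g => ⟨fun e => (hS.grp g).1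
      (iso p hb (nP p a) _ _ e), fun e => old ((hS.grp g).2 e)⟩, hS.inj, hS.mem,
      fun e he e1 x hx => old (hS.le e he e1 x hx), fun e he e1 e2 => ?_⟩
    obtain ⟨a1, a2⟩ := hS.inn e he e1 e2
    have a3 := hG.t_ne h.triv he
    exact ⟨(hk _ a3).trans a1, fun z hz => a2 z (iso _ a3 (nA _ a1) _ _ hz)⟩
  · refine ht q g (alone hG (fun q g e => (ht q g e).1) (fun l hl => ?_) e (Or.inl rfl))
    obtain ⟨a1, a2⟩ := hL l hl
    refine ⟨fun e => ?_, fun e => hp (e.symm.trans a1)⟩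
    rcases a2 with a2 | a2
    · exact hp (e.symm.trans a2)
    · exact a2.2 (e ▸ ht)
  · exact ⟨Finset.mem_sdiff.2 ⟨e.1, fun e' => h.disj l (List.mem_toFinset.1 e') hl⟩, e.2⟩

lemma one (h : Φ.Blk b Bs X C) (a : Ω) (ha : ∀ B ∈ Bs, (∃ m g, B = .cr m g ∧ g • a = a) ∨
    ∃ x v g c, B = .bd false x v g c ∧ c ≠ 1 ∧ g • a = Φ.ω v) : Fin0 Φ b X C := by
  have hV := h.ok.val
  have hG := hV.grp
  have key : ∀ l ∈ Bs.flatMap Bl.lets, Φ.s l = b ∧ ((Φ.t l = b ∧ Φ.γ l • a = a) ∨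
      (Φ.kd (Φ.t l) = Kd.E ∧ ¬ Φ.Triv (Φ.t l) ∧ Φ.γ l • a = Φ.ω (Φ.t l))) := by
    intro l hl
    obtain ⟨B, hB, hl⟩ := List.mem_flatMap.1 hl
    have hT := h.bt B hB
    rcases ha B hB with ⟨m, g, rfl, e⟩ | ⟨x, v, g, c, rfl, hc, e⟩
    · obtain rfl : l = m := by simpa [Bl.lets] using hl
      obtain ⟨-, -, e1, e2, e3⟩ := hT
      exact ⟨e2, Or.inl ⟨e1, e3 ▸ e⟩⟩
    · obtain rfl : l = x := by simpa [Bl.lets] using hl
      obtain ⟨⟨-, -, e1, e2, e3⟩, e4, e5, -⟩ := hT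
      rw [e1, e3]
      exact ⟨e2, Or.inr ⟨(e5 rfl).resolve_left hc, fun ht => hc (ht v c e4).2, e⟩⟩
  refine fin0 h Φ.kd (Function.update Φ.ω b a) (fun _ _ => rfl)
    (by rw [h.kd]; exact fun e => nomatch e)
    (fun l hl => ⟨(key l hl).1, (key l hl).2.imp (·.1) fun e => ⟨e.1, e.2.1⟩⟩) ?_
    (fun e => (e h.kd).elim) (fun e => by rw [h.kd] at e; exact nomatch e)
  have inv : ∀ p q g, Gp (Ar Φ (Bs.flatMap Bl.lets)) p q g → (Φ.kd p = Kd.E ↔ Φ.kd q = Kd.E) ∧
      (Φ.kd p = Kd.E → g • Function.update Φ.ω b a q = Function.update Φ.ω b a p) := by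
    intro p q g e
    induction e with
    | of p q g e =>
      rcases e with e | ⟨l, hl, rfl, rfl, rfl⟩
      · refine ⟨⟨fun hp => (hV.kE _ _ _ e hp).1, fun hq => (hV.kE _ _ _ (hG.symm _ _ _ e) hq).1⟩,
          fun hp => ?_⟩
        by_cases h1 : p = b
        · subst h1
          obtain ⟨rfl, rfl⟩ := h.triv q g e
          exact one_smul _ _
        have h2 : q ≠ b := by
          rintro rfl
          exact h1 (h.triv _ _ (hG.symm _ _ _ e)).1
        rw [Function.update_of_ne h1, Function.update_of_ne h2]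
        exact (hV.kE _ _ _ e hp).2
      · obtain ⟨a1, a2 | a2⟩ := key l hl
        · rw [a1, a2.1, Function.update_self]
          exact ⟨Iff.rfl, fun _ => a2.2⟩
        · have h1 : Φ.t l ≠ b := fun e => a2.2.1 (e ▸ h.triv)
          rw [a1, Function.update_self, Function.update_of_ne h1]
          exact ⟨iff_of_true a2.1 h.kd, fun _ => a2.2.2⟩
    | symm p q g _ ih => exact ⟨ih.1.symm, fun hq => inv_smul_eq_iff.2 (ih.2 (ih.1.2 hq)).symm⟩
    | trans p q r g g' _ _ i1 i2 =>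
      exact ⟨i1.1.trans i2.1, fun hp => by rw [mul_smul, i2.2 (i1.1.1 hp), i1.2 hp]⟩
  exact fun p q g e hp => ⟨(inv p q g e).1.1 hp, (inv p q g e).2 hp⟩

lemma two (h : Φ.Blk b Bs X C) (h1 : ∀ B ∈ Bs, ∃ m g, B = .cr m g)
    (h2 : ∀ m g m' g', .cr m g ∈ Bs → .cr m' g' ∈ Bs → g * g' = g' * g) : Fin0 Φ b X C := by
  have hV := h.ok.val
  have hG := hV.grp
  have key : ∀ l ∈ Bs.flatMap Bl.lets, Φ.s l = b ∧ Φ.t l = b ∧ Bl.cr l (Φ.γ l) ∈ Bs := by
    intro l hl
    obtain ⟨B, hB, hl⟩ := List.mem_flatMap.1 hl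
    have hT := h.bt B hB
    obtain ⟨m, g, rfl⟩ := h1 B hB
    obtain rfl : l = m := by simpa [Bl.lets] using hl
    obtain ⟨-, -, e1, e2, e3⟩ := hT
    exact ⟨e2, e1, e3 ▸ hB⟩
  have inv : ∀ p q g, Gp (Ar Φ (Bs.flatMap Bl.lets)) p q g →
      (p = b ∧ q = b ∧ g ∈ Subgroup.closure {g | ∃ m, Bl.cr m g ∈ Bs}) ∨
        (p ≠ b ∧ q ≠ b ∧ Φ.E p q g) := by
    intro p q g e
    induction e with
    | of p q g e =>
      rcases e with e | ⟨l, hl, rfl, rfl, rfl⟩
      · by_cases h1 : p = b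
        · subst h1
          obtain ⟨rfl, rfl⟩ := h.triv q g e
          exact Or.inl ⟨rfl, rfl, one_mem _⟩
        refine Or.inr ⟨h1, ?_, e⟩
        rintro rfl
        exact h1 (h.triv _ _ (hG.symm _ _ _ e)).1
      · obtain ⟨a1, a2, a3⟩ := key l hl
        exact Or.inl ⟨a2, a1, Subgroup.subset_closure ⟨l, a3⟩⟩
    | symm p q g _ ih =>
      exact ih.imp (fun a => ⟨a.2.1, a.1, inv_mem a.2.2⟩) fun a => ⟨a.2.1, a.1, hG.symm _ _ _ a.2.2⟩
    | trans p q r g g' _ _ i1 i2 =>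
      rcases i1 with a | a <;> rcases i2 with a' | a'
      · exact Or.inl ⟨a.1, a'.2.1, mul_mem a.2.2 a'.2.2⟩
      · exact (a'.1 a.2.1).elim
      · exact (a.2.1 a'.1).elim
      · exact Or.inr ⟨a.1, a'.2.1, hG.trans _ _ _ _ _ a.2.2 a'.2.2⟩
  refine fin0 h (Function.update Φ.kd b Kd.A) Φ.ω (fun _ hp => Function.update_of_ne hp _ _)
    (by rw [Function.update_self]; exact fun e => nomatch e)
    (fun l hl => ⟨(key l hl).1, Or.inl (key l hl).2.1⟩) (fun p q g e hp => ?_)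
    (fun _ q g e => ((inv _ _ _ e).resolve_right fun a => a.1 rfl).2.1.symm)
    fun _ g g' e e' => ?_
  · rcases inv p q g e with a | a
    · rw [a.1, Function.update_self] at hp
      exact nomatch hp
    · rw [Function.update_of_ne a.1] at hp
      rw [Function.update_of_ne a.2.1]
      exact hV.kE _ _ _ a.2.2 hp
  · have a := ((inv _ _ _ e).resolve_right fun a => a.1 rfl).2.2
    have a' := ((inv _ _ _ e').resolve_right fun a => a.1 rfl).2.2
    clear e e'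
    change Commute g g'
    induction a, a' using Subgroup.closure_induction₂ with
    | mem x y hx hy =>
      obtain ⟨m, hx⟩ := hx
      obtain ⟨m', hy⟩ := hy
      exact h2 m x m' y hx hy
    | one_left x _ => exact Commute.one_left x
    | one_right x _ => exact Commute.one_right x
    | mul_left x y z _ _ _ i1 i2 => exact i1.mul_left i2
    | mul_right x y z _ _ _ i1 i2 => exact i1.mul_right i2
    | inv_left x y _ _ i1 => exact i1.inv_left
    | inv_right x y _ _ i1 => exact i1.inv_right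

end StarEP

theorem starE : StarEStmt := fun _ _ _ _ _ _ _ _ _ _ _ h =>
  ⟨fun ⟨a, ha⟩ => StarEP.one h a ha, StarEP.two h⟩

end Pool.Agent.MP_494aff_an.Fr

end MrgPart7

-- ======== part 8: formerly Pool.Agent.MP_494aff_an.fr.StarP
section MrgPart8

/-! A relator with three blocks becomes a pair of pants. -/

namespace Pool.Agent.MP_494aff_an.Fr

open Pool.Agent.MP_494aff_an.Se Subgroup

namespace StarPP

variable {G Ω I : Type} [Group G] [DecidableEq I]

/-- The data of three blocks. -/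
structure Dat (Φ : Frm G Ω I) (b : I) (x : Fin 3 → I) (r c : Fin 3 → G) (d : Fin 3 → Prop)
    (V : Fin 3 → (I → I → G → F2) → (I → F2) → F2) : Prop where
  inj : Function.Injective x
  ls : ∀ i, x i ∈ Φ.Ls
  en : ∀ i, x i ∉ Φ.En
  s : ∀ i, Φ.s (x i) = b
  cr : ∀ i, ¬ d i → Φ.t (x i) = b ∧ Φ.γ (x i) = r i ∧ c i = r i * r i ∧
    ∀ ψ u, V i ψ u = u (x i) * u (x i)
  bd : ∀ i, d i → r i = c i ∧ Φ.kd (Φ.t (x i)) ≠ Kd.P ∧ Φ.t (x i) ≠ b ∧
    Φ.E (Φ.t (x i)) (Φ.t (x i)) (Φ.γ (x i) * c i * (Φ.γ (x i))⁻¹) ∧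
    ∀ ψ u, V i ψ u =
      (u (x i))⁻¹ * ψ (Φ.t (x i)) (Φ.t (x i)) (Φ.γ (x i) * c i * (Φ.γ (x i))⁻¹) * u (x i)
  two : d 2 ∧ Φ.kd (Φ.t (x 2)) = Kd.A ∧ ∀ z, Φ.E (Φ.t (x 2)) (Φ.t (x 2)) z →
    z ∈ zpowers (Φ.γ (x 2) * c 2 * (Φ.γ (x 2))⁻¹)
  prod : c 0 * c 1 * c 2 = 1
  nc : c 0 * c 1 ≠ c 1 * c 0

open Classical in
/-- The new frame. -/
noncomputable def nw (Φ : Frm G Ω I) (b : I) (x : Fin 3 → I) (r c : Fin 3 → G)
    (d : Fin 3 → Prop) : Frm G Ω I :=
  { Φ with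
    Ls := Φ.Ls.filter fun l => ∀ i, l = x i → d i
    En := Φ.En ∪ (Finset.univ.filter d).image x
    ce := fun l => if h : ∃ i, l = x i then c h.choose else Φ.ce l
    E := fun p q g => Φ.E p q g ∨ (p = b ∧ q = b ∧ g ∈ zpowers (r 0) ⊔ zpowers (r 1))
    kd := Function.update Φ.kd b Kd.P }

variable {Φ : Frm G Ω I} {b : I} {x : Fin 3 → I} {r c : Fin 3 → G} {d : Fin 3 → Prop}
  {V : Fin 3 → (I → I → G → F2) → (I → F2) → F2}

lemma mem_ls {l : I} : l ∈ (nw Φ b x r c d).Ls ↔ l ∈ Φ.Ls ∧ ∀ i, l = x i → d i := by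
  simp [nw]

lemma mem_en {l : I} : l ∈ (nw Φ b x r c d).En ↔ l ∈ Φ.En ∨ ∃ i, d i ∧ x i = l := by
  simp [nw]

lemma ce_x (h : Dat Φ b x r c d V) (i : Fin 3) : (nw Φ b x r c d).ce (x i) = c i := by
  have e : ∃ j, x i = x j := ⟨i, rfl⟩
  simp only [nw, dif_pos e]
  rw [← h.inj e.choose_spec]

lemma ce_old (h : Dat Φ b x r c d V) {e : I} (he : e ∈ Φ.En) :
    (nw Φ b x r c d).ce e = Φ.ce e := by
  have : ¬ ∃ i, e = x i := fun ⟨i, hi⟩ => h.en i (hi ▸ he)
  simp only [nw, dif_neg this]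

lemma kd_ne {p : I} (hp : p ≠ b) : (nw Φ b x r c d).kd p = Φ.kd p := by
  simp [nw, Function.update_of_ne hp]

lemma kd_b : (nw Φ b x r c d).kd b = Kd.P := by simp [nw]

lemma c_mem (h : Dat Φ b x r c d V) (i : Fin 3) : c i ∈ zpowers (r i) := by
  by_cases hd : d i
  · rw [(h.bd i hd).1]; exact mem_zpowers _
  · rw [(h.cr i hd).2.2.1]; exact mul_mem (mem_zpowers _) (mem_zpowers _)

lemma c2 (h : Dat Φ b x r c d V) : c 2 = (c 0 * c 1)⁻¹ := eq_inv_of_mul_eq_one_right h.prod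

lemma r2 (h : Dat Φ b x r c d V) : zpowers (r 2) = zpowers (c 0 * c 1) := by
  rw [(h.bd 2 h.two.1).1, c2 h, zpowers_inv]

lemma r_le (h : Dat Φ b x r c d V) (i : Fin 3) : zpowers (r i) ≤ zpowers (r 0) ⊔ zpowers (r 1) := by
  fin_cases i
  · exact le_sup_left
  · exact le_sup_right
  · show zpowers (r 2) ≤ _
    rw [r2 h, zpowers_le]
    exact mul_mem (mem_sup_left (c_mem h 0)) (mem_sup_right (c_mem h 1))

lemma c_ne (h : Dat Φ b x r c d V) (i : Fin 3) : c i ≠ 1 := by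
  have := h.nc
  fin_cases i
  · intro e; simp only [Fin.zero_eta] at e; simp [e] at this
  · intro e; simp only [Fin.mk_one] at e; simp [e] at this
  · intro e
    have e' : c 2 = 1 := e
    rw [c2 h, inv_eq_one] at e'
    exact this (by rw [e', mul_eq_one_comm.1 e'])

lemma eb (hb : Φ.Triv b) {q : I} {g : G} (h : (nw Φ b x r c d).E b q g) :
    q = b ∧ g ∈ zpowers (r 0) ⊔ zpowers (r 1) := by
  rcases h with h | h
  · obtain ⟨h1, rfl⟩ := hb q g h
    exact ⟨h1, one_mem _⟩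
  · exact h.2

lemma eo {p q : I} {g : G} (hp : p ≠ b) (h : (nw Φ b x r c d).E p q g) : Φ.E p q g :=
  h.resolve_right fun h => hp h.1

lemma ce_mono (h : Dat Φ b x r c d V) {e : I} (he : e ∈ Φ.En) {a : G} (ha : Φ.Ce e a) :
    (nw Φ b x r c d).Ce e a :=
  ⟨Or.inl ha.1, Or.inl ha.2.1, by rw [ce_old h he]; exact ha.2.2⟩

lemma le_x (h : Dat Φ b x r c d V) (hG : Φ.Grp) {i : Fin 3} (hi : d i) {a : G}
    (ha : a ∈ zpowers (r i)) :
    Φ.E (Φ.t (x i)) (Φ.t (x i)) (Φ.γ (x i) * a * (Φ.γ (x i))⁻¹) := by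
  obtain ⟨k, rfl⟩ := ha
  have := hG.zpow (h.bd i hi).2.2.2.1 k
  rw [conj_zpow] at this
  simpa [(h.bd i hi).1] using this

lemma ce_new (h : Dat Φ b x r c d V) (hG : Φ.Grp) {i : Fin 3} (hi : d i) :
    (nw Φ b x r c d).Ce (x i) (c i) :=
  ⟨Or.inr ⟨h.s i, h.s i, r_le h i (c_mem h i)⟩, Or.inl (le_x h hG hi (c_mem h i)),
    by rw [ce_x h]⟩

lemma grp (h : Dat Φ b x r c d V) (hG : Φ.Grp) (hm : b ∈ Φ.Vs) (hb : Φ.Triv b) :
    (nw Φ b x r c d).Grp where
  refl p hp := Or.inl (hG.refl p hp)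
  symm p q g e := e.imp (hG.symm p q g) fun e => ⟨e.2.1, e.1, inv_mem e.2.2⟩
  trans p q s g g' e e' := by
    by_cases hq : q = b
    · subst hq
      obtain ⟨rfl, a1⟩ := eb hb e'
      have e2 : (nw Φ s x r c d).E s p g⁻¹ :=
        e.imp (hG.symm p s g) fun e => ⟨e.2.1, e.1, inv_mem e.2.2⟩
      obtain ⟨rfl, a2⟩ := eb hb e2
      exact Or.inr ⟨rfl, rfl, mul_mem (by simpa using a2) a1⟩
    · exact Or.inl (hG.trans _ _ _ _ _ (e.resolve_right fun e => hq e.2.1) (eo hq e'))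
  mem p q g e := by
    rcases e with e | ⟨rfl, rfl, -⟩
    · exact hG.mem p q g e
    · exact ⟨hm, hm⟩
  ne := hG.ne
  st l hl := hG.st l (mem_ls.1 hl).1
  en e he := by
    rcases mem_en.1 he with he | ⟨i, hi, rfl⟩
    · exact mem_ls.2 ⟨hG.en he, fun i hi => (h.en i (hi ▸ he)).elim⟩
    · exact mem_ls.2 ⟨h.ls i, fun j hj => h.inj hj ▸ hi⟩
  ce e he := by
    rcases mem_en.1 he with he | ⟨i, hi, rfl⟩
    · rw [ce_old h he]
      exact ⟨(hG.ce e he).1, ce_mono h he (hG.ce e he).2⟩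
    · rw [ce_x h]
      exact ⟨c_ne h i, ce_new h hG hi⟩

variable [MulAction G Ω]

lemma s_ne (hV : Φ.Val) (hk : Φ.kd b = Kd.E) {e : I} (he : e ∈ Φ.En) : Φ.s e ≠ b := fun e' => by
  have := (hV.kend e he).1
  rw [e', hk] at this
  exact Kd.noConfusion this

lemma val (h : Dat Φ b x r c d V) (hV : Φ.Val) (hm : b ∈ Φ.Vs) (hk : Φ.kd b = Kd.E)
    (hb : Φ.Triv b) : (nw Φ b x r c d).Val where
  grp := grp h hV.grp hm hb
  kE p q g e hp := by
    have hpb : p ≠ b := fun e' => by rw [e', kd_b] at hp; exact Kd.noConfusion hp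
    have e1 := eo hpb e
    have hq : q ≠ b := fun e' => hpb (hb p g⁻¹ (e' ▸ hV.grp.symm _ _ _ e1)).1
    rw [kd_ne hpb] at hp
    rw [kd_ne hq]
    exact hV.kE p q g e1 hp
  iso p q g e hp := by
    by_cases hpb : p = b
    · subst hpb; exact (eb hb e).1.symm
    · rw [kd_ne hpb] at hp; exact hV.iso p q g (eo hpb e) hp
  ab p g g' hp e e' := by
    have hpb : p ≠ b := fun e' => by rw [e', kd_b] at hp; exact Kd.noConfusion hp
    rw [kd_ne hpb] at hp
    exact hV.ab p g g' hp (eo hpb e) (eo hpb e')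
  kend e he := by
    rcases mem_en.1 he with he | ⟨i, hi, rfl⟩
    · exact ⟨(kd_ne (s_ne hV hk he)).trans (hV.kend e he).1,
        by rw [show (nw Φ b x r c d).t e = Φ.t e from rfl, kd_ne (hV.grp.t_ne hb he)]
           exact (hV.kend e he).2⟩
    · exact ⟨by rw [show (nw Φ b x r c d).s (x i) = b from h.s i, kd_b],
        by rw [show (nw Φ b x r c d).t (x i) = Φ.t (x i) from rfl, kd_ne (h.bd i hi).2.2.1]
           exact (h.bd i hi).2.1⟩
  pan p hp hP := by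
    classical
    by_cases hpb : p = b
    · subst hpb
      let sl : I → Fin 3 := fun l => if h : ∃ i, l = x i then h.choose else 0
      have hsl : ∀ i, sl (x i) = i := fun i => by
        have e : ∃ j, x i = x j := ⟨i, rfl⟩
        simp only [sl, dif_pos e]
        exact (h.inj e.choose_spec).symm
      have nw' : ∀ e ∈ (nw Φ p x r c d).En, (nw Φ p x r c d).s e = p → ∃ i, d i ∧ x i = e :=
        fun e he hs => (mem_en.1 he).resolve_left fun he => s_ne hV hk he hs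
      refine ⟨fun i => zpowers (r i), c 0, c 1, sl, c_mem h 0, c_mem h 1, h.nc, r2 h, ?_,
        fun g => ⟨fun e => (eb hb e).2, fun e => Or.inr ⟨rfl, rfl, e⟩⟩, ?_, ?_, ?_, ?_⟩
      · rintro i _ ⟨k, rfl⟩ _ ⟨k', rfl⟩
        simp only [← zpow_add, add_comm]
      · intro e he e' he' hs hs' hh
        obtain ⟨i, -, rfl⟩ := nw' e he hs
        obtain ⟨j, -, rfl⟩ := nw' e' he' hs'
        rw [hsl, hsl] at hh
        rw [hh]
      · intro e he hs
        obtain ⟨i, -, rfl⟩ := nw' e he hs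
        rw [hsl, ce_x h]
        exact c_mem h i
      · intro e he hs a ha
        obtain ⟨i, hi, rfl⟩ := nw' e he hs
        rw [hsl] at ha
        exact Or.inl (le_x h hV.grp hi ha)
      · intro e he hs hh
        obtain ⟨i, hi, rfl⟩ := nw' e he hs
        rw [hsl] at hh
        subst hh
        refine ⟨(kd_ne (h.bd 2 hi).2.2.1).trans h.two.2.1, fun z hz => ?_⟩
        obtain ⟨k, rfl⟩ := h.two.2.2 z (eo (h.bd 2 hi).2.2.1 hz)
        refine ⟨k, ?_⟩
        show r 2 ^ k = (Φ.γ (x 2))⁻¹ * (Φ.γ (x 2) * c 2 * (Φ.γ (x 2))⁻¹) ^ k * Φ.γ (x 2)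
        rw [conj_zpow, (h.bd 2 hi).1]
        group
    · rw [kd_ne hpb] at hP
      obtain ⟨S, c₀, c₁, sl, hS⟩ := hV.pan p hp hP
      have old : ∀ e ∈ (nw Φ b x r c d).En, (nw Φ b x r c d).s e = p → e ∈ Φ.En :=
        fun e he hs => (mem_en.1 he).resolve_right fun ⟨i, _, hi⟩ =>
          hpb (hs.symm.trans (hi ▸ h.s i))
      refine ⟨S, c₀, c₁, sl, hS.m0, hS.m1, hS.nc, hS.two, hS.ab,
        fun g => ⟨fun e => (hS.grp g).1 (eo hpb e), fun e => Or.inl ((hS.grp g).2 e)⟩,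
        fun e he e' he' hs hs' => hS.inj e (old e he hs) e' (old e' he' hs') hs hs',
        fun e he hs => ?_, fun e he hs a ha => Or.inl (hS.le e (old e he hs) hs a ha),
        fun e he hs hh => ?_⟩
      · rw [ce_old h (old e he hs)]; exact hS.mem e (old e he hs) hs
      · have ht := hV.grp.t_ne hb (old e he hs)
        obtain ⟨a1, a2⟩ := hS.inn e (old e he hs) hs hh
        exact ⟨(kd_ne ht).trans a1, fun z hz => a2 z (eo ht hz)⟩

omit [MulAction G Ω] in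
lemma gen (h : Dat Φ b x r c d V) (hg : Φ.Gen) : (nw Φ b x r c d).Gen := by
  intro Y h1 h2
  refine hg Y (fun p q a g e => h1 p q a g (Or.inl e)) fun l hl g => ?_
  by_cases hn : ∀ i, l = x i → d i
  · exact h2 l (mem_ls.2 ⟨hl, hn⟩) g
  · push Not at hn
    obtain ⟨i, rfl, hi⟩ := hn
    obtain ⟨a1, a2, -⟩ := h.cr i hi
    rw [h.s i, a1, a2]
    have hr := r_le h i (mem_zpowers _)
    exact ⟨h1 b b _ g (Or.inr ⟨rfl, rfl, hr⟩),
      fun e => by simpa using h1 b b _ _ (Or.inr ⟨rfl, rfl, inv_mem hr⟩) e⟩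

omit [MulAction G Ω] in
lemma ext (h : Dat Φ b x r c d V) (hG : Φ.Grp) (hm : b ∈ Φ.Vs) (hb : Φ.Triv b) {X : Set I}
    {C : (I → I → G → F2) → (I → F2) → Prop} (hX : ∀ i, x i ∉ X) (hD : Φ.Dep X C)
    (hE : Φ.Ext fun ψ u => V 0 ψ u * V 1 ψ u * V 2 ψ u = 1 ∧ C ψ u) :
    (nw Φ b x r c d).Ext C := by
  classical
  intro ψ u' hs hC
  have hG' := grp h hG hm hb
  let u : I → F2 := fun l => if h : ∃ i, l = x i ∧ ¬ d i then ψ b b (r h.choose) else u' l
  have u1 : ∀ i, ¬ d i → u (x i) = ψ b b (r i) := fun i hi => by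
    have e : ∃ j, x i = x j ∧ ¬ d j := ⟨i, rfl, hi⟩
    simp only [u, dif_pos e]
    rw [← h.inj e.choose_spec.1]
  have u2 : ∀ l, (∀ i, l = x i → d i) → u l = u' l := fun l hl => by
    have e : ¬ ∃ j, l = x j ∧ ¬ d j := fun ⟨j, a1, a2⟩ => a2 (hl j a1)
    simp only [u, dif_neg e]
  have u3 : ∀ i, d i → u (x i) = u' (x i) := fun i hi => u2 _ fun j hj => h.inj hj ▸ hi
  have er : ∀ i, ∀ a ∈ zpowers (r i), (nw Φ b x r c d).E b b a := fun i a ha =>
    Or.inr ⟨rfl, rfl, r_le h i ha⟩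
  have sq : ∀ i, d i → V i ψ u = ψ b b (c i) := fun i hi => by
    have := hs.sq (x i) (mem_en.2 (Or.inr ⟨i, hi, rfl⟩)) (c i) (ce_new h hG hi)
    rw [show (nw Φ b x r c d).s (x i) = b from h.s i] at this
    rw [(h.bd i hi).2.2.2.2, u3 i hi, mul_assoc]
    exact inv_mul_eq_iff_eq_mul.2 this.symm
  have hv : ∀ i, V i ψ u = ψ b b (c i) := fun i => by
    by_cases hi : d i
    · exact sq i hi
    · obtain ⟨-, -, a1, a2⟩ := h.cr i hi
      rw [a2, u1 i hi, a1, hs.fn b b b _ _ (er i _ (mem_zpowers _)) (er i _ (mem_zpowers _))]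
  obtain ⟨Ψ, y, h1, h2⟩ := hE ψ u
    ⟨fun p q s g g' e e' => hs.fn p q s g g' (Or.inl e) (Or.inl e'), fun e he a ha => by
      rw [u2 e fun i hi => (h.en i (hi ▸ he)).elim]
      exact hs.sq e (mem_en.2 (Or.inl he)) a (ce_mono h he ha)⟩
    ⟨by
      rw [hv, hv, hv, ← hs.fn b b b _ _ (er 0 _ (c_mem h 0)) (er 1 _ (c_mem h 1)),
        ← hs.fn b b b _ _ (hG'.trans _ _ _ _ _ (er 0 _ (c_mem h 0)) (er 1 _ (c_mem h 1)))
          (er 2 _ (c_mem h 2)), h.prod]
      exact hs.one (hG'.refl b hm),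
    hD.2 ψ u' ψ u (fun _ _ _ _ => rfl) (fun l hl => (u2 l fun i hi => (hX i (hi ▸ hl)).elim).symm)
      hC⟩
  have hr : ∀ i, ψ b b (r i) = y b * Ψ (r i) * (y b)⁻¹ := fun i => by
    have := h2 (x i) (h.ls i)
    rw [h.s i] at this
    by_cases hi : d i
    · obtain ⟨a1, -, -, a2, a3⟩ := h.bd i hi
      rw [a1, ← sq i hi, a3, this, h1 _ _ _ a2]
      simp [mul_assoc]
    · rw [← u1 i hi, this, (h.cr i hi).1, (h.cr i hi).2.1]
  refine ⟨Ψ, y, fun p q g e => ?_, fun l hl => ?_⟩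
  · rcases e with e | ⟨rfl, rfl, e⟩
    · exact h1 p q g e
    · rw [zpowers_eq_closure, zpowers_eq_closure, ← Subgroup.closure_union] at e
      refine (hs.closure hG' hm ?_ ?_ e).2
      · rintro g (rfl | rfl)
        · exact er 0 _ (mem_zpowers _)
        · exact er 1 _ (mem_zpowers _)
      · rintro g (rfl | rfl)
        · exact hr 0
        · exact hr 1
  · rw [← u2 l (mem_ls.1 hl).2]
    exact h2 l (mem_ls.1 hl).1

omit [MulAction G Ω] in
lemma keep {X : Set I} (hX : ∀ i, x i ∉ X) : Φ.Keep (nw Φ b x r c d) b X where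
  vs := fun _ h => h
  mono _ _ _ e := Or.inl e
  kd _ _ hp := kd_ne hp
  iso _ _ hp _ _ _ e := eo hp e
  triv _ _ hp ht q g e := ht q g (eo hp e)
  fre l hl _ _ _ e := ⟨mem_ls.2 ⟨e.1, fun i hi => (hX i (hi ▸ hl)).elim⟩,
    fun he => (mem_en.1 he).elim e.2.1 fun ⟨i, _, hi⟩ => hX i (hi ▸ hl), e.2.2⟩

/-- The letter of a block. -/
def hl : Bl G I → I
  | .cr m _ => m
  | .hd a _ _ _ => a
  | .bd _ x _ _ _ => x

/-- The root of the label. -/
def rt : Bl G I → G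
  | .cr _ g => g
  | B => B.lab

/-- Boundary blocks. -/
def ib : Bl G I → Prop
  | .bd _ _ _ _ _ => True
  | _ => False

omit [MulAction G Ω] [DecidableEq I] in
lemma one {B : Bl G I} (hB : Φ.BT b B) (hb : Φ.Triv b) (hh : ¬ B.IsHd) (h1 : B.lab ≠ 1) :
    B.lets = [hl B] ∧ hl B ∈ Φ.Ls ∧ hl B ∉ Φ.En ∧ Φ.s (hl B) = b ∧
    (¬ ib B → Φ.t (hl B) = b ∧ Φ.γ (hl B) = rt B ∧ B.lab = rt B * rt B ∧
      ∀ ψ u, B.val ψ u = u (hl B) * u (hl B)) ∧
    (ib B → rt B = B.lab ∧ Φ.kd (Φ.t (hl B)) ≠ Kd.P ∧ Φ.t (hl B) ≠ b ∧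
      Φ.E (Φ.t (hl B)) (Φ.t (hl B)) (Φ.γ (hl B) * B.lab * (Φ.γ (hl B))⁻¹) ∧
      ∀ ψ u, B.val ψ u = (u (hl B))⁻¹ *
        ψ (Φ.t (hl B)) (Φ.t (hl B)) (Φ.γ (hl B) * B.lab * (Φ.γ (hl B))⁻¹) * u (hl B)) ∧
    (B.IsIn → ib B ∧ Φ.kd (Φ.t (hl B)) = Kd.A ∧ ∀ z, Φ.E (Φ.t (hl B)) (Φ.t (hl B)) z →
      z ∈ zpowers (Φ.γ (hl B) * B.lab * (Φ.γ (hl B))⁻¹)) := by
  cases B with
  | cr m g =>
    obtain ⟨a1, a2, a3, a4, a5⟩ := hB
    exact ⟨rfl, a1, a2, a4, fun _ => ⟨a3, a5, rfl, fun _ _ => rfl⟩, fun h => h.elim,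
      fun h => h.elim⟩
  | hd => exact (hh trivial).elim
  | bd k x v g c =>
    obtain ⟨⟨a1, a2, rfl, a4, rfl⟩, a6, a7, a8⟩ := hB
    have hc : c ≠ 1 := fun e => h1 (by simp [Bl.lab, e])
    have e : Φ.γ x * (Bl.bd k x (Φ.t x) (Φ.γ x) c).lab * (Φ.γ x)⁻¹ = c := by
      simp [Bl.lab, mul_assoc]
    refine ⟨rfl, a1, a2, a4, fun h => (h trivial).elim, fun _ => ⟨rfl, ?_,
      fun e' => hc (hb (Φ.t x) c (e' ▸ a6)).2, ?_, fun ψ u => ?_⟩, fun hk => ⟨trivial,
      (a8 hk).1, fun z hz => ?_⟩⟩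
    · show Φ.kd (Φ.t x) ≠ Kd.P
      cases k
      · rw [(a7 rfl).resolve_left hc]; exact fun e => Kd.noConfusion e
      · rw [(a8 rfl).1]; exact fun e => Kd.noConfusion e
    · show Φ.E (Φ.t x) (Φ.t x) (Φ.γ x * _ * (Φ.γ x)⁻¹)
      rw [e]; exact a6
    · show _ = (u x)⁻¹ * ψ (Φ.t x) (Φ.t x) (Φ.γ x * _ * (Φ.γ x)⁻¹) * u x
      rw [e]; rfl
    · show z ∈ zpowers (Φ.γ x * _ * (Φ.γ x)⁻¹)
      rw [e]; exact ((a8 hk).2.2 z).1 hz

end StarPP

open StarPP

theorem starP : StarPStmt := by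
  intro G Ω I _ _ _ Φ b B₀ B₁ B₂ X C h h0 h1 h2 hn
  have hp : B₀.lab * B₁.lab * B₂.lab = 1 := by simpa [mul_assoc] using h.lab
  have n0 : B₀.lab ≠ 1 := fun e => hn (by simp [e])
  have n1 : B₁.lab ≠ 1 := fun e => hn (by simp [e])
  have n2 : B₂.lab ≠ 1 := fun e => by
    rw [e, mul_one] at hp
    exact hn (by rw [hp, mul_eq_one_comm.1 hp])
  have h2' : ¬ B₂.IsHd := by
    cases B₂ with
    | hd => exact h2.elim
    | _ => exact id
  have o0 := one (h.bt B₀ (by simp)) h.triv h0 n0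
  have o1 := one (h.bt B₁ (by simp)) h.triv h1 n1
  have o2 := one (h.bt B₂ (by simp)) h.triv h2' n2
  have hl3 : [B₀, B₁, B₂].flatMap Bl.lets = [hl B₀, hl B₁, hl B₂] := by
    simp [o0.1, o1.1, o2.1]
  have nd := h.nodup
  have dj := h.disj
  rw [hl3] at nd dj
  have hD : Dat Φ b ![hl B₀, hl B₁, hl B₂] ![rt B₀, rt B₁, rt B₂] ![B₀.lab, B₁.lab, B₂.lab]
      ![ib B₀, ib B₁, ib B₂] ![fun ψ u => B₀.val ψ u, fun ψ u => B₁.val ψ u,
        fun ψ u => B₂.val ψ u] :=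
    { inj := List.nodup_ofFn.1 (by simpa using nd)
      ls := fun i => by fin_cases i; exacts [o0.2.1, o1.2.1, o2.2.1]
      en := fun i => by fin_cases i; exacts [o0.2.2.1, o1.2.2.1, o2.2.2.1]
      s := fun i => by fin_cases i; exacts [o0.2.2.2.1, o1.2.2.2.1, o2.2.2.2.1]
      cr := fun i => by fin_cases i; exacts [o0.2.2.2.2.1, o1.2.2.2.2.1, o2.2.2.2.2.1]
      bd := fun i => by fin_cases i; exacts [o0.2.2.2.2.2.1, o1.2.2.2.2.2.1, o2.2.2.2.2.2.1]
      two := o2.2.2.2.2.2.2 h2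
      prod := hp
      nc := hn }
  have hX : ∀ i, ![hl B₀, hl B₁, hl B₂] i ∉ X := fun i => by
    fin_cases i <;> exact dj _ (by simp)
  exact ⟨_, ⟨StarPP.val hD h.ok.val h.mem h.kd h.triv, gen hD h.ok.gen,
    ext hD h.ok.val.grp h.mem h.triv hX h.dep fun ψ u hs hC =>
      h.ok.ext ψ u hs ⟨by simpa [mul_assoc] using hC.1, hC.2⟩⟩, keep hX⟩

end Pool.Agent.MP_494aff_an.Fr

end MrgPart8

-- marker of a merged file
example : 731051 + 721158 = 731051 + 721158 := rfl
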