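import Mathlib
import Pool.Agent.MP_494aff_an.fr.Qb
import Pool.Agent.MP_494aff_an.lf.Scale

-- ======== part 0: formerly Pool.Agent.MP_494aff_an.fr.Bst
section MrgPart0

/-! Coherent generators, and the forest of a graph of groups. -/

namespace Pool.Agent.MP_494aff_an.Fr

open Pool.Agent.MP_494aff_an.Pinch Pool.Agent.MP_494aff_an.Pinch.TowP Pool.Agent.MP_494aff_an.Lf
open Pool.Agent.MP_494aff_an.Se

namespace BstP

variable {G Ω I : Type} [Group G] (Φ : Frm G Ω I)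

/-- The generator of an end at its target. -/
def De (e : I) : G := Φ.γ e * Φ.ce e * (Φ.γ e)⁻¹

/-- Ends with commuting generators. -/
def Rel (e e' : I) : Prop :=
  e' ∈ Φ.En ∧ ∃ z, Φ.E (Φ.t e) (Φ.t e') z ∧ Commute (z * De Φ e' * z⁻¹) (De Φ e)

variable {Φ}

lemma conj_ne {x : G} (hx : x ≠ 1) (z : G) : z * x * z⁻¹ ≠ 1 := fun h => hx (by simpa using h)

lemma ctr (h : CT G) {x y z : G} (hx : x ≠ 1) (h1 : Commute y x) (h2 : Commute x z) :
    Commute y z := h.ct x y z hx h1.eq.symm h2.eq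

lemma cconj {x y : G} (h : Commute x y) (z : G) : Commute (z * x * z⁻¹) (z * y * z⁻¹) :=
  h.map (MulAut.conj z)

lemma De_ne (hG : Φ.Grp) {e : I} (he : e ∈ Φ.En) : De Φ e ≠ 1 := conj_ne (hG.ce e he).1 _

lemma De_E (hG : Φ.Grp) {e : I} (he : e ∈ Φ.En) : Φ.E (Φ.t e) (Φ.t e) (De Φ e) :=
  (hG.ce e he).2.2.1

lemma Rel.refl (hG : Φ.Grp) {e : I} (he : e ∈ Φ.En) : Rel Φ e e :=
  ⟨he, 1, hG.refl _ (hG.st e (hG.en he)).2, by simp⟩

lemma Rel.symm (hG : Φ.Grp) {e e' : I} (he : e ∈ Φ.En) (h : Rel Φ e e') : Rel Φ e' e := by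
  obtain ⟨_, z, h1, h2⟩ := h
  refine ⟨he, z⁻¹, hG.symm _ _ _ h1, ?_⟩
  have := (cconj h2 z⁻¹).symm
  simpa [mul_assoc] using this

lemma Rel.trans (hc : CT G) (hG : Φ.Grp) {e e' e'' : I} (h : Rel Φ e e') (h' : Rel Φ e' e'') :
    Rel Φ e e'' := by
  obtain ⟨he', z, h1, h2⟩ := h
  obtain ⟨he'', z', h3, h4⟩ := h'
  refine ⟨he'', z * z', hG.trans _ _ _ _ _ h1 h3, ?_⟩
  refine ctr hc (conj_ne (De_ne hG he') z) ?_ h2
  have := cconj h4 z
  simpa [mul_assoc] using this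

/-- The edge group. -/
def CLs (hG : Φ.Grp) (l : I) : Subgroup G where
  carrier := {a | Φ.CL l a}
  one_mem' := Or.inl rfl
  mul_mem' := by
    rintro a b (rfl | ⟨h, a1, a2, a3⟩) (rfl | ⟨h', b1, b2, b3⟩)
    · exact Or.inl (mul_one 1)
    · exact Or.inr ⟨h', by simpa using ⟨b1, b2, b3⟩⟩
    · exact Or.inr ⟨h, by simpa using ⟨a1, a2, a3⟩⟩
    · refine Or.inr ⟨h, hG.trans _ _ _ _ _ a1 b1, ?_, ?_⟩
      · simpa [mul_assoc] using hG.trans _ _ _ _ _ a2 b2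
      · exact (Commute.mul_left a3 b3).eq
  inv_mem' := by
    rintro a (rfl | ⟨h, a1, a2, a3⟩)
    · exact Or.inl inv_one
    · refine Or.inr ⟨h, hG.symm _ _ _ a1, ?_, (Commute.inv_left a3).eq⟩
      simpa [mul_assoc] using hG.symm _ _ _ a2

lemma CL_s (hG : Φ.Grp) {l : I} (hl : l ∈ Φ.Ls) {a : G} (h : Φ.CL l a) :
    Φ.E (Φ.s l) (Φ.s l) a := by
  rcases h with rfl | ⟨_, h⟩
  · exact hG.refl _ (hG.st l hl).1
  · exact h.1

lemma CL_t (hG : Φ.Grp) {l : I} (hl : l ∈ Φ.Ls) {a : G} (h : Φ.CL l a) :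
    Φ.E (Φ.t l) (Φ.t l) (Φ.γ l * a * (Φ.γ l)⁻¹) := by
  rcases h with rfl | ⟨_, h⟩
  · simpa using hG.refl _ (hG.st l hl).2
  · exact h.2.1

lemma CL_comm (hc : CT G) (hG : Φ.Grp) {l : I} {a b : G} (ha : Φ.CL l a) (hb : Φ.CL l b) :
    a * b = b * a := by
  rcases ha with rfl | ⟨h, ha⟩
  · simp
  rcases hb with rfl | ⟨_, hb⟩
  · simp
  exact hc.ct _ a b (hG.ce l h).1 ha.2.2.symm hb.2.2.symm

/-- Vertices of the forest. -/
def sV (hG : Φ.Grp) : Setoid (G × Φ.Vs) where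
  r a b := Φ.E a.2 b.2 (a.1⁻¹ * b.1)
  iseqv := ⟨fun a => by simpa using hG.refl _ a.2.2,
    fun h => by simpa using hG.symm _ _ _ h,
    fun h h' => by simpa [mul_assoc] using hG.trans _ _ _ _ _ h h'⟩

/-- Edges of the forest. -/
def sE (hG : Φ.Grp) : Setoid (G × Φ.Ls) where
  r a b := a.2 = b.2 ∧ a.1⁻¹ * b.1 ∈ CLs hG a.2
  iseqv := ⟨fun a => ⟨rfl, by simp⟩,
    fun h => ⟨h.1.symm, by simpa [← h.1] using (CLs hG _).inv_mem h.2⟩,
    fun h h' => ⟨h.1.trans h'.1, by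
      have h2 := h'.2
      rw [← h.1] at h2
      simpa [mul_assoc] using (CLs hG _).mul_mem h.2 h2⟩⟩

def Vt (hG : Φ.Grp) : Type := Quotient (sV hG)

def Ed (hG : Φ.Grp) : Type := Quotient (sE hG)

variable (hG : Φ.Grp)

def mV (g : G) (p : Φ.Vs) : Vt hG := Quotient.mk (sV hG) (g, p)

def mE (g : G) (l : Φ.Ls) : Ed hG := Quotient.mk (sE hG) (g, l)

lemma mV_eq {g g' : G} {p q : Φ.Vs} : mV hG g p = mV hG g' q ↔ Φ.E p q (g⁻¹ * g') :=
  Quotient.eq (r := sV hG)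

lemma mE_eq {g g' : G} {l l' : Φ.Ls} :
    mE hG g l = mE hG g' l' ↔ l = l' ∧ Φ.CL l (g⁻¹ * g') :=
  Quotient.eq (r := sE hG)

lemma mV_ind (v : Vt hG) : ∃ g p, v = mV hG g p := by
  obtain ⟨⟨g, p⟩, rfl⟩ := Quotient.exists_rep v
  exact ⟨g, p, rfl⟩

lemma mE_ind (e : Ed hG) : ∃ g l, e = mE hG g l := by
  obtain ⟨⟨g, p⟩, rfl⟩ := Quotient.exists_rep e
  exact ⟨g, p, rfl⟩

instance : MulAction G (Vt hG) where
  smul x := Quotient.map' (fun a => (x * a.1, a.2)) fun a b h => by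
    change Φ.E a.2 b.2 ((x * a.1)⁻¹ * (x * b.1))
    have h' : Φ.E a.2 b.2 (a.1⁻¹ * b.1) := h
    simpa [mul_assoc] using h'
  one_smul v := by
    obtain ⟨g, p, rfl⟩ := mV_ind hG v
    exact congrArg (fun z => mV hG z p) (one_mul g)
  mul_smul x y v := by
    obtain ⟨g, p, rfl⟩ := mV_ind hG v
    exact congrArg (fun z => mV hG z p) (mul_assoc x y g)

instance : MulAction G (Ed hG) where
  smul x := Quotient.map' (fun a => (x * a.1, a.2)) fun a b h => by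
    refine ⟨h.1, ?_⟩
    have h' : a.1⁻¹ * b.1 ∈ CLs hG a.2 := h.2
    simpa [mul_assoc] using h'
  one_smul v := by
    obtain ⟨g, p, rfl⟩ := mE_ind hG v
    exact congrArg (fun z => mE hG z p) (one_mul g)
  mul_smul x y v := by
    obtain ⟨g, p, rfl⟩ := mE_ind hG v
    exact congrArg (fun z => mE hG z p) (mul_assoc x y g)

lemma smul_mV (x g : G) (p : Φ.Vs) : x • mV hG g p = mV hG (x * g) p := rfl

lemma smul_mE (x g : G) (l : Φ.Ls) : x • mE hG g l = mE hG (x * g) l := rfl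

def oE : Ed hG → Vt hG :=
  Quotient.lift (fun a => mV hG a.1 ⟨Φ.s a.2, (hG.st _ a.2.2).1⟩) (by
    rintro ⟨g, l⟩ ⟨g', l'⟩ ⟨h1, h2⟩
    obtain rfl : l = l' := h1
    exact (mV_eq hG).2 (CL_s hG l.2 h2))

def tE : Ed hG → Vt hG :=
  Quotient.lift (fun a => mV hG (a.1 * (Φ.γ a.2)⁻¹) ⟨Φ.t a.2, (hG.st _ a.2.2).2⟩) (by
    rintro ⟨g, l⟩ ⟨g', l'⟩ ⟨h1, h2⟩
    obtain rfl : l = l' := h1
    refine (mV_eq hG).2 ?_
    simpa [mul_assoc] using CL_t hG l.2 h2)

lemma oE_mE (g : G) (l : Φ.Ls) : oE hG (mE hG g l) = mV hG g ⟨Φ.s l, (hG.st _ l.2).1⟩ := rfl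

lemma tE_mE (g : G) (l : Φ.Ls) :
    tE hG (mE hG g l) = mV hG (g * (Φ.γ l)⁻¹) ⟨Φ.t l, (hG.st _ l.2).2⟩ := rfl

variable (Φ) in
/-- The edge that is crossed by the step `x` from `h`. -/
def eg (h : G) (x : I × Bool) : G := cond x.2 (h * Φ.γ x.1) h

variable (Φ) in
/-- The step crosses the edge `(g, l)`. -/
def Same (g : G) (l : I) (h : G) (x : I × Bool) : Prop := x.1 = l ∧ Φ.CL l (g⁻¹ * eg Φ h x)

variable (Φ) in
/-- Reduced paths that do not cross the edge `(g, l)`, with first step and end point. -/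
inductive RQ (g : G) (l : I) (k : G) (r : I) : G → I × Bool → Prop
  | one (h : G) (x : I × Bool) : x.1 ∈ Φ.Ls → ¬ Same Φ g l h x →
      Φ.E (Φ.rt x) r ((h * Φ.ll x)⁻¹ * k) → RQ g l k r h x
  | cons (h : G) (x : I × Bool) (h' : G) (y : I × Bool) : x.1 ∈ Φ.Ls → ¬ Same Φ g l h x →
      Φ.E (Φ.rt x) (Φ.lt y) ((h * Φ.ll x)⁻¹ * h') → ¬ Φ.Pch x ((h * Φ.ll x)⁻¹ * h') y →
      RQ g l k r h' y → RQ g l k r h x

variable (Φ) in
/-- The vertex `(h, p)` is joined to `(k, r)` off the edge `(g, l)`. -/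
def Jn (g : G) (l : I) (k : G) (r : I) (h : G) (p : I) : Prop :=
  Φ.E p r (h⁻¹ * k) ∨ ∃ h' y, Φ.E p (Φ.lt y) (h⁻¹ * h') ∧ RQ Φ g l k r h' y

variable {hG}

lemma RQ.rp {g k h : G} {l r : I} {x : I × Bool} (H : RQ Φ g l k r h x) :
    ∃ z a, Φ.RP x z a ∧ Φ.E (Φ.rt z) r ((h * a)⁻¹ * k) := by
  induction H with
  | one h x h1 _ h3 => exact ⟨x, _, Frm.RP.one x h1, h3⟩
  | cons h x h' y h1 _ h3 h4 _ ih =>
    obtain ⟨z, a, h5, h6⟩ := ih
    exact ⟨z, _, Frm.RP.cons x y z _ a h1 h3 h4 h5, by simpa [mul_assoc] using h6⟩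

lemma RQ.ns {g k h : G} {l r : I} {x : I × Bool} (H : RQ Φ g l k r h x) : ¬ Same Φ g l h x := by
  cases H with
  | one _ _ _ h2 _ => exact h2
  | cons _ _ _ _ _ h2 _ _ _ => exact h2

lemma pch_eg {h h' : G} {x y : I × Bool} (H : Φ.Pch x ((h * Φ.ll x)⁻¹ * h') y) :
    Φ.CL x.1 ((eg Φ h x)⁻¹ * eg Φ h' y) := by
  obtain ⟨x, b⟩ := x
  obtain ⟨y, c⟩ := y
  obtain ⟨h1, h2, h3⟩ := H
  obtain rfl : x = y := h1
  obtain rfl : c = !b := h2
  cases b <;> simpa [eg, Frm.ll, mul_assoc] using h3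

lemma pch_back (hG : Φ.Grp) {h h' : G} {x y : I × Bool} (hx : x.1 ∈ Φ.Ls)
    (H : Φ.Pch x ((h * Φ.ll x)⁻¹ * h') y) : Φ.E (Φ.lt x) (Φ.rt y) (h⁻¹ * (h' * Φ.ll y)) := by
  have h3 := pch_eg H
  obtain ⟨x, b⟩ := x
  obtain ⟨y, c⟩ := y
  obtain ⟨h1, h2, -⟩ := H
  obtain rfl : x = y := h1
  obtain rfl : c = !b := h2
  cases b
  · simpa [eg, Frm.ll, Frm.lt, Frm.rt, mul_assoc] using CL_s hG hx h3
  · simpa [eg, Frm.ll, Frm.lt, Frm.rt, mul_assoc] using CL_t hG hx h3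

lemma Jn.congr (hG : Φ.Grp) {g k h h' : G} {l r p p' : I} (e : Φ.E p' p (h'⁻¹ * h))
    (H : Jn Φ g l k r h p) : Jn Φ g l k r h' p' := by
  rcases H with H | ⟨h'', y, h1, h2⟩
  · exact Or.inl (by simpa [mul_assoc] using hG.trans _ _ _ _ _ e H)
  · exact Or.inr ⟨h'', y, by simpa [mul_assoc] using hG.trans _ _ _ _ _ e h1, h2⟩

lemma Jn.step (hG : Φ.Grp) {g k h : G} {l r : I} {x : I × Bool} (hx : x.1 ∈ Φ.Ls)
    (hn : ¬ Same Φ g l h x) (H : Jn Φ g l k r (h * Φ.ll x) (Φ.rt x)) :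
    Jn Φ g l k r h (Φ.lt x) := by
  have h0 : Φ.E (Φ.lt x) (Φ.lt x) (h⁻¹ * h) := by simpa using hG.refl _ (hG.lt_mem hx)
  rcases H with H | ⟨h', y, h1, h2⟩
  · exact Or.inr ⟨h, x, h0, RQ.one h x hx hn H⟩
  by_cases hp : Φ.Pch x ((h * Φ.ll x)⁻¹ * h') y
  · refine Jn.congr hG (pch_back hG hx hp) ?_
    cases h2 with
    | one _ _ _ _ h5 => exact Or.inl h5
    | cons _ _ h'' y' _ _ h5 _ h7 => exact Or.inr ⟨h'', y', h5, h7⟩
  · exact Or.inr ⟨h, x, h0, RQ.cons h x h' y hx hn h1 hp h2⟩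

lemma not_jn (hG : Φ.Grp) (hN : Φ.Nf) (g : G) {l : I} (hl : l ∈ Φ.Ls) :
    ¬ Jn Φ g l g (Φ.s l) (g * (Φ.γ l)⁻¹) (Φ.t l) := by
  rintro (H | ⟨h', y, h1, h2⟩)
  · refine hN (l, true) (l, true) _ (Frm.RP.one (l, true) hl) ?_
    simpa [Frm.ll, Frm.lt, Frm.rt, mul_assoc] using H
  by_cases hp : Φ.Pch (l, false) ((g * Φ.ll (l, false))⁻¹ * h') y
  · exact h2.ns ⟨hp.1.symm, pch_eg hp⟩
  · obtain ⟨z, a, h3, h4⟩ := h2.rp
    refine hN (l, false) z _ (Frm.RP.cons (l, false) y z _ a hl h1 hp h3) ?_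
    simpa [Frm.ll, Frm.lt, mul_assoc] using hG.symm _ _ _ h4

lemma forest (hG : Φ.Grp) (hN : Φ.Nf) : Forest G (oE hG) (tE hG) where
  o_smul x e := by
    obtain ⟨g, l, rfl⟩ := mE_ind hG e
    rfl
  t_smul x e := by
    obtain ⟨g, l, rfl⟩ := mE_ind hG e
    rw [smul_mE, tE_mE, tE_mE, smul_mV, mul_assoc]
  side e := by
    obtain ⟨g, l, rfl⟩ := mE_ind hG e
    have key : ∀ (h : G) (p : Φ.Vs), (∃ h' p', mV hG h p = mV hG h' p' ∧
        Jn Φ g l g (Φ.s l) h' p') ↔ Jn Φ g l g (Φ.s l) h p :=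
      fun h p => ⟨fun ⟨_, _, e, H⟩ => Jn.congr hG ((mV_eq hG).1 e) H, fun H => ⟨h, p, rfl, H⟩⟩
    refine ⟨fun v => ∃ h' p', v = mV hG h' p' ∧ Jn Φ g l g (Φ.s l) h' p', ?_, ?_, ?_⟩
    · exact (key _ _).2 (Or.inl (by simpa using hG.refl _ (hG.st _ l.2).1))
    · exact fun H => not_jn hG hN g l.2 ((key _ _).1 H)
    · intro e' he'
      obtain ⟨h, m, rfl⟩ := mE_ind hG e'
      have hn : ¬ ((m : I) = l ∧ Φ.CL l (g⁻¹ * h)) := fun H =>
        he' ((mE_eq hG).2 ⟨Subtype.ext H.1.symm, H.2⟩).symm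
      refine (key _ _).trans (Iff.trans ?_ (key _ _).symm)
      constructor
      · intro H
        refine Jn.step hG (x := (m, true)) m.2 ?_ ?_
        · simpa [Same, eg, mul_assoc] using hn
        · simpa [Frm.ll, Frm.rt, mul_assoc] using H
      · intro H
        exact Jn.step hG (x := (m, false)) m.2 hn H

end BstP

open BstP

theorem coh : CohStmt := by
  intro G Ω I _ Φ hc hΦ
  have hG := hΦ.grp
  have hI : Nonempty I := ⟨hG.ne.choose⟩
  have hρ : ∀ e ∈ Φ.En, Rel Φ e (Classical.epsilon (Rel Φ e)) := fun e he =>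
    Classical.epsilon_spec ⟨e, Rel.refl hG he⟩
  have hρ' : ∀ e ∈ Φ.En, ∀ e', Rel Φ e e' → Rel Φ e = Rel Φ e' := fun e he e' h =>
    funext fun e'' => propext ⟨fun h' => (h.symm hG he).trans hc hG h', fun h' => h.trans hc hG h'⟩
  choose! z hz using fun e he => (hρ e he).2
  refine ⟨fun e => z e * De Φ (Classical.epsilon (Rel Φ e)) * (z e)⁻¹, fun e he => ⟨?_, ?_⟩,
    fun e he e' he' w hw hcm => ?_⟩
  · exact conj_ne (De_ne hG (hρ e he).1) _
  · refine hΦ.ct e he _ ?_ ?_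
    · have := hG.trans _ _ _ _ _ (hG.trans _ _ _ _ _ (hz e he).1 (De_E hG (hρ e he).1))
        (hG.symm _ _ _ (hz e he).1)
      simpa [mul_assoc] using this
    · have := (cconj (hz e he).2 (Φ.γ e)⁻¹).eq
      simpa [De, mul_assoc] using this
  · have n1 := conj_ne (De_ne hG (hρ e he).1) (z e)
    have n2 := conj_ne (conj_ne (De_ne hG (hρ e' he').1) (z e')) w
    have hR : Rel Φ e e' := ⟨he', w, hw,
      ctr hc n1 (ctr hc n2 (cconj (hz e' he').2 w).symm hcm) (hz e he).2⟩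
    have e1 := hρ' e he e' hR
    have n0 := De_ne hG (hρ e he).1
    simp only [← e1] at hcm ⊢
    generalize De Φ (Classical.epsilon (Rel Φ e)) = D at hcm n0 ⊢
    have h1 : Commute (w * (z e' * D * (z e')⁻¹) * w⁻¹) (z e * D * (z e)⁻¹) := hcm
    have h2 := (cconj h1 (z e)⁻¹).eq
    have h3 := csa (x := D) (y := (z e)⁻¹ * w * z e') hc n0 (by simpa [mul_assoc] using h2)
    calc w * (z e' * D * (z e')⁻¹) * w⁻¹
        = z e * ((z e)⁻¹ * w * z e' * D) * (z e')⁻¹ * w⁻¹ := by group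
      _ = z e * D * (z e)⁻¹ := by rw [h3]; group

theorem bst (h : Se.BsStmt) : BstStmt := by
  intro G Ω I _ Φ hc hab hfg hΦ hN
  have hG := hΦ.grp
  obtain ⟨p₀, hp₀⟩ := hG.ne
  refine Hier.iso _ _ (h G (Vt hG) (Ed hG) (oE hG) (tE hG) (mV hG 1 ⟨p₀, hp₀⟩) ⊤ (forest hG hN) hc
    hfg.out (fun g _ => ?_) (fun e => ?_) fun v _ hv => ?_) Subgroup.topEquiv
  · have := hΦ.gen (fun p g => ∀ hp : p ∈ Φ.Vs,
      Con (oE hG) (tE hG) (mV hG 1 ⟨p₀, hp₀⟩) (mV hG g⁻¹ ⟨p, hp⟩)) ?_ ?_ p₀ hp₀ p₀ hp₀ 1 g⁻¹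
      (fun _ => by rw [inv_one]; exact Relation.EqvGen.refl _) hp₀
    · rw [smul_mV]
      simpa using this
    · intro p q a b e H hp
      have e1 : mV hG (a * b)⁻¹ ⟨p, hp⟩ = mV hG b⁻¹ ⟨q, (hG.mem _ _ _ e).2⟩ :=
        (mV_eq hG).2 (by simpa using e)
      rw [e1]
      exact H _
    · intro l hl b
      have e1 : Con (oE hG) (tE hG) (mV hG b⁻¹ ⟨Φ.s l, (hG.st l hl).1⟩)
          (mV hG (Φ.γ l * b)⁻¹ ⟨Φ.t l, (hG.st l hl).2⟩) :=
        Relation.EqvGen.rel _ _ ⟨mE hG b⁻¹ ⟨l, hl⟩, rfl, by rw [tE_mE, mul_inv_rev]⟩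
      exact ⟨fun H _ => Relation.EqvGen.trans _ _ _ (H _) e1,
        fun H _ => Relation.EqvGen.trans _ _ _ (H _) (Relation.EqvGen.symm _ _ e1)⟩
  · obtain ⟨g, l, rfl⟩ := mE_ind hG e
    have hm : ∀ x ∈ ⊤ ⊓ MulAction.stabilizer G (mE hG g l), Φ.CL l (g⁻¹ * x * g) := by
      intro x hx
      have h1 : mE hG (x * g) l = mE hG g l := hx.2
      rw [mul_assoc]
      exact ((mE_eq hG).1 h1.symm).2
    have hcm : ∀ x ∈ ⊤ ⊓ MulAction.stabilizer G (mE hG g l),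
        ∀ y ∈ ⊤ ⊓ MulAction.stabilizer G (mE hG g l), x * y = y * x := by
      intro x hx y hy
      have := (cconj (CL_comm hc hG (hm x hx) (hm y hy)) g).eq
      simpa [mul_assoc] using this
    exact ⟨hab _ hcm, hcm⟩
  · obtain ⟨g, p, rfl⟩ := mV_ind hG v
    have hm : ∀ x, x ∈ (⊤ ⊓ MulAction.stabilizer G (mV hG g p)).map
        (MulAut.conj g⁻¹).toMonoidHom ↔ Φ.E p p x := by
      intro x
      rw [Subgroup.mem_map_equiv, top_inf_eq, MulAction.mem_stabilizer_iff, smul_mV, eq_comm, mV_eq]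
      simp [mul_assoc]
    have hf : ((⊤ ⊓ MulAction.stabilizer G (mV hG g p)).map (MulAut.conj g⁻¹).toMonoidHom).FG := by
      obtain ⟨S, hS⟩ := hv
      classical
      exact ⟨S.image (MulAut.conj g⁻¹), by
        rw [← hS, MonoidHom.map_closure, Finset.coe_image]; rfl⟩
    exact Hier.iso _ _ (hΦ.hier p p.2 _ hm hf) ((MulAut.conj g⁻¹).subgroupMap _).symm

end Pool.Agent.MP_494aff_an.Fr

end MrgPart0

-- ======== part 1: formerly Pool.Agent.MP_494aff_an.fr.Cut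
section MrgPart1

/-! Cutting a handle or a pair of cross caps along an inner curve. -/

namespace Pool.Agent.MP_494aff_an.Fr

open Pool.Agent.MP_494aff_an.Se

namespace CutP

variable {G Ω I : Type} [Group G] [DecidableEq I]

/-- The frame after the cut. -/
def nw (Φ : Frm G Ω I) (a a' v : I) (c k : G) : Frm G Ω I :=
  { Φ with
    Vs := insert v Φ.Vs
    t := Function.update (Function.update Φ.t a v) a' v
    γ := Function.update (Function.update Φ.γ a 1) a' k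
    E := fun p q z => Φ.E p q z ∨ (p = v ∧ q = v ∧ z ∈ Subgroup.zpowers c)
    kd := Function.update Φ.kd v Kd.A }

variable {Φ : Frm G Ω I} {a a' v b : I} {c k : G}

lemma t_old {l : I} (h : l ≠ a) (h' : l ≠ a') : (nw Φ a a' v c k).t l = Φ.t l := by
  simp [nw, h, h']

lemma g_old {l : I} (h : l ≠ a) (h' : l ≠ a') : (nw Φ a a' v c k).γ l = Φ.γ l := by
  simp [nw, h, h']

lemma t_a : (nw Φ a a' v c k).t a = v := by
  by_cases h : a = a' <;> simp [nw, h]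

lemma t_a' : (nw Φ a a' v c k).t a' = v := by simp [nw]

lemma g_a (h : a ≠ a') : (nw Φ a a' v c k).γ a = 1 := by simp [nw, h]

lemma g_a' : (nw Φ a a' v c k).γ a' = k := by simp [nw]

lemma kd_old {p : I} (h : p ≠ v) : (nw Φ a a' v c k).kd p = Φ.kd p := by simp [nw, h]

lemma kd_v : (nw Φ a a' v c k).kd v = Kd.A := by simp [nw]

lemma E_old {p q : I} {z : G} (h : p ≠ v) : (nw Φ a a' v c k).E p q z ↔ Φ.E p q z :=
  ⟨fun e => e.resolve_right fun e' => h e'.1, Or.inl⟩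

lemma E_v (hG : Φ.Grp) (hv : v ∉ Φ.Vs) {q : I} {z : G} :
    (nw Φ a a' v c k).E v q z ↔ q = v ∧ z ∈ Subgroup.zpowers c :=
  ⟨fun e => (e.resolve_left fun e' => hv (hG.mem _ _ _ e').1).2, fun e => Or.inr ⟨rfl, e⟩⟩

lemma ce_of {e : I} {z : G} (h : e ≠ a) (h' : e ≠ a') (hc : Φ.Ce e z) :
    (nw Φ a a' v c k).Ce e z := by
  refine ⟨Or.inl hc.1, ?_, hc.2.2⟩
  rw [t_old h h', g_old h h']
  exact Or.inl hc.2.1

lemma grp (hG : Φ.Grp) (hv : v ∉ Φ.Vs) (ha : a ∉ Φ.En) (ha' : a' ∉ Φ.En) :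
    (nw Φ a a' v c k).Grp where
  refl p hp := by
    rcases Finset.mem_insert.1 hp with rfl | hp
    · exact Or.inr ⟨rfl, rfl, one_mem _⟩
    · exact Or.inl (hG.refl p hp)
  symm p q z e := by
    rcases e with e | ⟨rfl, rfl, e⟩
    · exact Or.inl (hG.symm _ _ _ e)
    · exact Or.inr ⟨rfl, rfl, inv_mem e⟩
  trans p q r z w e e' := by
    rcases e with e | ⟨rfl, rfl, e⟩
    · have hq : q ≠ v := fun h => hv (h ▸ (hG.mem _ _ _ e).2)
      exact Or.inl (hG.trans _ _ _ _ _ e ((E_old hq).1 e'))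
    · have e2 := (E_v hG hv).1 e'
      exact Or.inr ⟨rfl, e2.1, mul_mem e e2.2⟩
  mem p q z e := by
    rcases e with e | ⟨rfl, rfl, e⟩
    · exact ⟨Finset.mem_insert_of_mem (hG.mem _ _ _ e).1,
        Finset.mem_insert_of_mem (hG.mem _ _ _ e).2⟩
    · exact ⟨Finset.mem_insert_self _ _, Finset.mem_insert_self _ _⟩
  ne := Finset.insert_nonempty _ _
  st l hl := by
    refine ⟨Finset.mem_insert_of_mem (hG.st l hl).1, ?_⟩
    by_cases h : l = a
    · rw [h, t_a]; exact Finset.mem_insert_self _ _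
    by_cases h' : l = a'
    · rw [h', t_a']; exact Finset.mem_insert_self _ _
    rw [t_old h h']
    exact Finset.mem_insert_of_mem (hG.st l hl).2
  en := hG.en
  ce e he := ⟨(hG.ce e he).1,
    ce_of (fun h => ha (h ▸ he)) (fun h => ha' (h ▸ he)) (hG.ce e he).2⟩

lemma pan (hG : Φ.Grp) (hv : v ∉ Φ.Vs) (ha : a ∉ Φ.En) (ha' : a' ∉ Φ.En) {p : I} (hp : p ≠ v)
    {S : Fin 3 → Subgroup G} {c₀ c₁ : G} {sl : I → Fin 3} (h : Φ.Pan p S c₀ c₁ sl) :
    (nw Φ a a' v c k).Pan p S c₀ c₁ sl where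
  m0 := h.m0
  m1 := h.m1
  nc := h.nc
  two := h.two
  ab := h.ab
  grp z := (E_old hp).trans (h.grp z)
  inj := h.inj
  mem := h.mem
  le e he hs z hz := by
    have n1 : e ≠ a := ne_of_mem_of_not_mem he ha
    have n2 : e ≠ a' := ne_of_mem_of_not_mem he ha'
    rw [t_old n1 n2, g_old n1 n2]
    exact Or.inl (h.le e he hs z hz)
  inn e he hs h2 := by
    have ht : Φ.t e ≠ v := fun h => hv (h ▸ (hG.st e (hG.en he)).2)
    have n1 : e ≠ a := ne_of_mem_of_not_mem he ha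
    have n2 : e ≠ a' := ne_of_mem_of_not_mem he ha'
    rw [t_old n1 n2, g_old n1 n2, kd_old ht]
    exact ⟨(h.inn e he hs h2).1, fun z hz => (h.inn e he hs h2).2 z ((E_old ht).1 hz)⟩

lemma keep (hv : v ∉ Φ.Vs) {X : Set I} (ha : a ∉ X) (ha' : a' ∉ X) :
    Φ.Keep (nw Φ a a' v c k) b X where
  vs := Finset.subset_insert _ _
  mono _ _ _ e := Or.inl e
  kd p hp _ := kd_old fun h => hv (h ▸ hp)
  iso p hp _ _ _ _ e := (E_old (ne_of_mem_of_not_mem hp hv)).1 e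
  triv p hp _ e q z e' := e q z ((E_old (ne_of_mem_of_not_mem hp hv)).1 e')
  fre l hl p q z e := by
    have h : l ≠ a := fun h => ha (h ▸ hl)
    have h' : l ≠ a' := fun h => ha' (h ▸ hl)
    exact ⟨e.1, e.2.1, (t_old h h').trans e.2.2.1, e.2.2.2.1, (g_old h h').trans e.2.2.2.2⟩

variable [MulAction G Ω]

lemma vall (h : Φ.Val) (hv : v ∉ Φ.Vs) (ha : a ∉ Φ.En) (ha' : a' ∉ Φ.En) :
    (nw Φ a a' v c k).Val where
  grp := grp h.grp hv ha ha'
  kE p q z e hk := by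
    rcases e with e | ⟨rfl, rfl, e⟩
    · have hp : p ≠ v := fun h' => hv (h' ▸ (h.grp.mem _ _ _ e).1)
      have hq : q ≠ v := fun h' => hv (h' ▸ (h.grp.mem _ _ _ e).2)
      rw [kd_old hp] at hk
      rw [kd_old hq]
      exact h.kE p q z e hk
    · rw [kd_v] at hk
      exact Kd.noConfusion hk
  iso p q z e hk := by
    rcases e with e | ⟨rfl, rfl, e⟩
    · have hp : p ≠ v := fun h' => hv (h' ▸ (h.grp.mem _ _ _ e).1)
      rw [kd_old hp] at hk
      exact h.iso p q z e hk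
    · rfl
  ab p z w hk e e' := by
    by_cases hp : p = v
    · subst hp
      obtain ⟨i, rfl⟩ := ((E_v h.grp hv).1 e).2
      obtain ⟨j, rfl⟩ := ((E_v h.grp hv).1 e').2
      exact (Commute.zpow_zpow_self c i j).eq
    · rw [kd_old hp] at hk
      exact h.ab p z w hk ((E_old hp).1 e) ((E_old hp).1 e')
  kend e he := by
    have hs : Φ.s e ≠ v := fun h' => hv (h' ▸ (h.grp.st e (h.grp.en he)).1)
    have ht : Φ.t e ≠ v := fun h' => hv (h' ▸ (h.grp.st e (h.grp.en he)).2)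
    have n1 : e ≠ a := ne_of_mem_of_not_mem he ha
    have n2 : e ≠ a' := ne_of_mem_of_not_mem he ha'
    rw [t_old n1 n2, kd_old ht]
    exact ⟨(kd_old hs).trans (h.kend e he).1, (h.kend e he).2⟩
  pan p hp hk := by
    have hne : p ≠ v := by
      rintro rfl
      rw [kd_v] at hk
      exact Kd.noConfusion hk
    rw [kd_old hne] at hk
    obtain ⟨S, c₀, c₁, sl, hP⟩ := h.pan p ((Finset.mem_insert.1 hp).resolve_left hne) hk
    exact ⟨S, c₀, c₁, sl, pan h.grp hv ha ha' hne hP⟩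

omit [MulAction G Ω] in
lemma gen {g h : G} (hn : Φ.Gen) (hb : b ∈ Φ.Vs) (hne : a ≠ a')
    (ha : Φ.Fre a b b g) (ha' : Φ.Fre a' b b h)
    (hS : ∀ S : Subgroup G, c ∈ S → k ∈ S → g ∈ S ∧ h ∈ S) : (nw Φ a a' v c k).Gen := by
  intro Y h1 h2
  have e1 : ∀ z, Y b z ↔ Y v z := fun z => by
    have := h2 a ha.1 z
    rw [t_a, g_a hne, one_mul] at this
    exact ha.2.2.2.1 ▸ this
  have e2 : ∀ z, Y b z ↔ Y v (k * z) := fun z => by
    have := h2 a' ha'.1 z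
    rw [t_a', g_a'] at this
    exact ha'.2.2.2.1 ▸ this
  let S : Subgroup G :=
    { carrier := {w | ∀ z, Y b z ↔ Y b (w * z)}
      one_mem' := fun z => by rw [one_mul]
      mul_mem' := fun {x y} hx hy z => by rw [mul_assoc]; exact (hy z).trans (hx _)
      inv_mem' := fun {x} hx z => by simpa using (hx (x⁻¹ * z)).symm }
  have hc : c ∈ S := fun z => by
    rw [e1, e1]
    refine ⟨h1 v v c z (Or.inr ⟨rfl, rfl, Subgroup.mem_zpowers c⟩), fun e => ?_⟩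
    simpa using h1 v v c⁻¹ _ (Or.inr ⟨rfl, rfl, inv_mem (Subgroup.mem_zpowers c)⟩) e
  have hk : k ∈ S := fun z => (e2 z).trans (e1 _).symm
  obtain ⟨hg, hh⟩ := hS S hc hk
  have key := hn Y (fun p q w z e => h1 p q w z (Or.inl e)) fun l hl z => by
    by_cases e : l = a
    · rw [e, ha.2.2.1, ha.2.2.2.1, ha.2.2.2.2]
      exact hg z
    by_cases e' : l = a'
    · rw [e', ha'.2.2.1, ha'.2.2.2.1, ha'.2.2.2.2]
      exact hh z
    have := h2 l hl z
    rwa [t_old e e', g_old e e'] at this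
  intro p hp q hq z z' hz
  have hb' : Y b z' := by
    rcases Finset.mem_insert.1 hp with rfl | hp
    · exact key b hb b hb z z' ((e1 z).2 hz)
    · exact key p hp b hb z z' hz
  rcases Finset.mem_insert.1 hq with rfl | hq
  · exact (e1 z').1 hb'
  · exact key b hb q hq z' z' hb'

lemma main {g h c' : G} {B0 R : List (Bl G I)} {X : Set I}
    {C : (I → I → G → F2) → (I → F2) → Prop} (H : Φ.Blk b (B0 ++ R) X C) (hv : v ∉ Φ.Vs)
    (hl : B0.flatMap Bl.lets = [a, a']) (ha : Φ.Fre a b b g) (ha' : Φ.Fre a' b b h)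
    (hc : c ≠ 1) (hc' : Subgroup.zpowers c' = Subgroup.zpowers c)
    (hlab : (B0.map Bl.lab).prod = c * (k⁻¹ * c' * k))
    (hS : ∀ S : Subgroup G, c ∈ S → k ∈ S → g ∈ S ∧ h ∈ S)
    (hE : ∀ f : G → F2, f c⁻¹ = (f c)⁻¹ → ∀ A B : F2, ∃ x x' : F2,
      (∀ ψ u, u a = x → u a' = x' →
        (B0.map (Bl.val ψ u)).prod = A⁻¹ * f c * A * (B⁻¹ * f c' * B)) ∧
      ∀ (Ψ : G →* F2) (y : F2), x = y * Ψ g * y⁻¹ → x' = y * Ψ h * y⁻¹ →
        f c = A * y * Ψ c * (A * y)⁻¹ ∧ B = A * y * Ψ k * y⁻¹) :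
    Mov Φ b (.bd true a v 1 c :: .bd true a' v k c' :: R) X C := by
  have hG := H.ok.val.grp
  have hnd := H.nodup
  have hdj := H.disj
  rw [List.flatMap_append, hl] at hnd hdj
  have hne : a ≠ a' := by
    intro e
    simp [e] at hnd
  have hR : ∀ B ∈ R, ∀ l ∈ B.lets, l ≠ a ∧ l ≠ a' := by
    intro B hB l hl'
    have hm : l ∈ R.flatMap Bl.lets := List.mem_flatMap.2 ⟨B, hB, hl'⟩
    have := List.disjoint_of_nodup_append hnd
    exact ⟨fun e => this (by simp [e]) hm, fun e => this (by simp [e]) hm⟩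
  have haX : a ∉ X := hdj a (by simp)
  have haX' : a' ∉ X := hdj a' (by simp)
  have hbv : b ≠ v := fun e => hv (e ▸ H.mem)
  have hG' : (nw Φ a a' v c k).Grp := grp hG hv ha.2.1 ha'.2.1
  have hK : Φ.Keep (nw Φ a a' v c k) b X := keep hv haX haX'
  have hc1 : c' ≠ 1 := by
    rintro rfl
    rw [Subgroup.zpowers_one_eq_bot, eq_comm, Subgroup.zpowers_eq_bot] at hc'
    exact hc hc'
  refine ⟨nw Φ a a' v c k, ⟨⟨vall H.ok.val hv ha.2.1 ha'.2.1,
    gen H.ok.gen H.mem hne ha ha' hS, ?_⟩, hK.dep H.dep, hK.vs H.mem, (kd_old hbv).trans H.kd,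
    fun q z e => H.triv q z ((E_old hbv).1 e), ?_, ?_, ?_, ?_⟩, hK⟩
  · intro ψ u' hs hr
    obtain ⟨hr, hC⟩ := hr
    have hcv : (nw Φ a a' v c k).E v v c := Or.inr ⟨rfl, rfl, Subgroup.mem_zpowers c⟩
    obtain ⟨x, x', h1, h2⟩ := hE (ψ v v) (hs.inv hG' hcv) (u' a) (u' a')
    set u := Function.update (Function.update u' a x) a' x' with hu
    have u1 : u a = x := by simp [hu, hne]
    have u2 : u a' = x' := by simp [hu]
    have u3 : ∀ l, l ≠ a → l ≠ a' → u l = u' l := fun l e e' => by simp [hu, e, e']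
    have hsol : Φ.Sol ψ u := by
      refine ⟨fun p q r z w e e' => hs.fn p q r z w (Or.inl e) (Or.inl e'), fun e he z hz => ?_⟩
      have n1 : e ≠ a := fun h => ha.2.1 (h ▸ he)
      have n2 : e ≠ a' := fun h => ha'.2.1 (h ▸ he)
      have := hs.sq e he z (ce_of n1 n2 hz)
      rw [t_old n1 n2, g_old n1 n2] at this
      rw [u3 e n1 n2]
      exact this
    have hRv : R.map (Bl.val ψ u) = R.map (Bl.val ψ u') :=
      List.map_congr_left fun B hB => Bl.val_congr (fun _ _ _ _ _ _ => rfl)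
        fun l hl' => u3 l (hR B hB l hl').1 (hR B hB l hl').2
    obtain ⟨Ψ, y, hy1, hy2⟩ := H.ok.ext ψ u hsol ⟨by
      rw [List.map_append, List.prod_append, h1 ψ u u1 u2, hRv]
      simpa [Bl.val, mul_assoc] using hr,
      H.dep.2 ψ u' ψ u (fun _ _ _ _ => rfl) (fun l hl' =>
        (u3 l (fun e => haX (e ▸ hl')) (fun e => haX' (e ▸ hl'))).symm) hC⟩
    have ya := hy2 a ha.1
    have ya' := hy2 a' ha'.1
    rw [ha.2.2.1, ha.2.2.2.1, ha.2.2.2.2, u1] at ya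
    rw [ha'.2.2.1, ha'.2.2.2.1, ha'.2.2.2.2, u2] at ya'
    obtain ⟨h3, h4⟩ := h2 Ψ (y b) ya ya'
    have yo : ∀ p ∈ Φ.Vs, Function.update y v (u' a * y b) p = y p := fun p hp =>
      Function.update_of_ne (ne_of_mem_of_not_mem hp hv) _ _
    refine ⟨Ψ, Function.update y v (u' a * y b), fun p q z e => ?_, fun l hl' => ?_⟩
    · rcases e with e | ⟨rfl, rfl, e⟩
      · rw [yo p (hG.mem _ _ _ e).1, yo q (hG.mem _ _ _ e).2]
        exact hy1 p q z e
      · rw [Function.update_self]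
        rw [Subgroup.zpowers_eq_closure] at e
        refine (hs.closure hG' (Finset.mem_insert_self _ _) (S := {c}) ?_ ?_ e).2
        · rintro _ rfl
          exact hcv
        · rintro _ rfl
          exact h3
    · have es : (nw Φ a a' v c k).s l = Φ.s l := rfl
      rw [es, yo _ (hG.st l hl').1]
      by_cases e : l = a
      · rw [e, t_a, g_a hne, Function.update_self, ha.2.2.2.1]
        simp
      by_cases e' : l = a'
      · rw [e', t_a', g_a', Function.update_self, ha'.2.2.2.1]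
        exact h4
      rw [t_old e e', g_old e e', yo _ (hG.st l hl').2, ← u3 l e e']
      exact hy2 l hl'
  · intro B hB
    rcases List.mem_cons.1 hB with rfl | hB
    · exact ⟨⟨ha.1, ha.2.1, t_a, ha.2.2.2.1, g_a hne⟩,
        Or.inr ⟨rfl, rfl, Subgroup.mem_zpowers c⟩, fun e => Bool.noConfusion e,
        fun _ => ⟨kd_v, hc, fun z => (E_v hG hv).trans (and_iff_right rfl)⟩⟩
    rcases List.mem_cons.1 hB with rfl | hB
    · exact ⟨⟨ha'.1, ha'.2.1, t_a', ha'.2.2.2.1, g_a'⟩,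
        Or.inr ⟨rfl, rfl, hc' ▸ Subgroup.mem_zpowers c'⟩, fun e => Bool.noConfusion e,
        fun _ => ⟨kd_v, hc1, fun z => hc' ▸ (E_v hG hv).trans (and_iff_right rfl)⟩⟩
    exact (keep (b := b) (X := {l | l ≠ a ∧ l ≠ a'}) hv (fun e => e.1 rfl)
      (fun e => e.2 rfl)).bt hG H.triv (H.bt B (List.mem_append_right _ hB)) (hR B hB)
  · simpa [Bl.lets] using hnd
  · intro l hl'
    exact hdj l (by simpa [Bl.lets] using hl')
  · have := H.lab
    rw [List.map_append, List.prod_append, hlab] at this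
    simpa [Bl.lab, mul_assoc] using this

end CutP

theorem cut : CutStmt := by
  intro G Ω I _ _ _ _ Φ b R X C
  obtain ⟨v, hv⟩ := Infinite.exists_notMem_finset Φ.Vs
  refine ⟨fun a a' g h hg H => ⟨v, ?_⟩, fun m m' g h hg H => ⟨v, ?_⟩⟩
  · have hB := H.bt _ List.mem_cons_self
    refine CutP.main (B0 := [.hd a a' g h]) H hv rfl hB.1 hB.2 hg Subgroup.zpowers_inv
      (by simp [Bl.lab, mul_assoc]) (fun S h1 h2 => ⟨h1, inv_mem_iff.1 h2⟩) fun f hf A B =>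
      ⟨A⁻¹ * f g * A, B⁻¹ * A, fun ψ u e e' => ?_, fun Ψ y e e' => ⟨?_, ?_⟩⟩
    · simp [Bl.val, e, e', hf, mul_assoc]
    · have : f g = A * (A⁻¹ * f g * A) * A⁻¹ := by group
      rw [this, e]
      group
    · have : B = A * (B⁻¹ * A)⁻¹ := by group
      rw [this, e', map_inv]
      group
  · have hB := H.bt _ List.mem_cons_self
    have hB' := H.bt _ (List.mem_cons_of_mem _ List.mem_cons_self)
    refine CutP.main (B0 := [.cr m g, .cr m' h]) H hv rfl hB hB' hg rfl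
      (by simp [Bl.lab, mul_assoc])
      (fun S h1 h2 => ⟨by simpa using mul_mem h1 (inv_mem h2), h2⟩) fun f _ A B =>
      ⟨A⁻¹ * f (g * h) * A * (A⁻¹ * B)⁻¹, A⁻¹ * B, fun ψ u e e' => ?_, fun Ψ y e e' => ⟨?_, ?_⟩⟩
    · simp [Bl.val, e, e', mul_assoc]
    · have : f (g * h) = A * (A⁻¹ * f (g * h) * A * (A⁻¹ * B)⁻¹) * (A⁻¹ * B) * A⁻¹ := by group
      rw [this, e, e', map_mul]
      group
    · have : B = A * (A⁻¹ * B) := by group
      rw [this, e']
      group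

end Pool.Agent.MP_494aff_an.Fr

end MrgPart1

-- ======== part 2: formerly Pool.Agent.MP_494aff_an.fr.Env
section MrgPart2

/-! The action on the classes of points joined by lines. -/

namespace Pool.Agent.MP_494aff_an.Fr

open Pool.Agent.MP_494aff_an.Pinch Pool.Agent.MP_494aff_an.Pinch.TowP Pool.Agent.MP_494aff_an.Lf
open Pool.Agent.MP_494aff_an.Se
open scoped Pointwise

namespace EnvP

variable {G T : Type} [Group G] [MetricSpace T] [MulAction G T] {ℓ : G → ℝ} {Ln : Set (Set T)}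

/-- Two overlapping geodesics form a geodesic. -/
theorem glue (hC : Cone G T ℓ) {x y z w : T} (h1 : dist x y + dist y z = dist x z)
    (h2 : dist y z + dist z w = dist y w) (h3 : 0 < dist y z) :
    dist x w = dist x y + dist y z + dist z w := by
  have h := hC.four x z y w
  have t := dist_triangle4 x y z w
  rw [dist_comm z y] at h
  rcases le_max_iff.1 h with h | h <;> linarith

theorem lc_smul (hT : Tr G Ln) (g : G) {p q : T} (h : LC Ln p q) : LC Ln (g • p) (g • q) := by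
  induction h with
  | rel p q h =>
    obtain ⟨A, hA, hp, hq⟩ := h
    exact Relation.EqvGen.rel _ _
      ⟨g • A, hT.smul g A hA, Set.smul_mem_smul_set hp, Set.smul_mem_smul_set hq⟩
  | refl p => exact Relation.EqvGen.refl _
  | symm p q _ ih => exact Relation.EqvGen.symm _ _ ih
  | trans p q r _ _ ih1 ih2 => exact Relation.EqvGen.trans _ _ _ ih1 ih2

theorem lc_convex (hT : Tr G Ln) {p q : T} (h : LC Ln p q) :
    ∀ z, dist p z + dist z q = dist p q → LC Ln p z := by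
  induction h with
  | rel p q h =>
    obtain ⟨A, hA, hp, hq⟩ := h
    intro z hz
    exact Relation.EqvGen.rel _ _ ⟨A, hA, hp, hT.convex A hA p hp q hq z hz⟩
  | refl p =>
    intro z hz
    rw [dist_self, dist_comm z p] at hz
    have h0 : dist p z = 0 := by linarith
    rw [dist_eq_zero.1 h0]
    exact Relation.EqvGen.refl _
  | symm p q h ih =>
    intro z hz
    refine Relation.EqvGen.trans _ _ _ (Relation.EqvGen.symm _ _ h) (ih z ?_)
    rw [dist_comm p z, dist_comm z q, dist_comm p q]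
    linarith
  | trans p q r h1 _ ih1 ih2 =>
    intro z hz
    have h := hT.four p r z q
    rcases le_max_iff.1 h with h | h
    · refine Relation.EqvGen.trans _ _ _ h1 (ih2 z ?_)
      have t := dist_triangle q z r
      rw [dist_comm z q, dist_comm r q] at h
      linarith
    · refine ih1 z ?_
      have t := dist_triangle p z q
      rw [dist_comm r z] at h
      linarith

/-- The setoid of classes. -/
def st (Ln : Set (Set T)) : Setoid T := ⟨LC Ln, Relation.EqvGen.is_equivalence _⟩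

/-- The action on the classes. -/
@[reducible] def act (hT : Tr G Ln) : MulAction G (Quotient (st Ln)) where
  smul g := Quotient.map (fun z => g • z) fun _ _ h => lc_smul hT g h
  one_smul a := by
    induction a using Quotient.inductionOn with
    | h z => exact congrArg (Quotient.mk (st Ln)) (one_smul G z)
  mul_smul g h a := by
    induction a using Quotient.inductionOn with
    | h z => exact congrArg (Quotient.mk (st Ln)) (mul_smul g h z)

/-- Two points of least displacement. -/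
theorem step (hC : Cone G T ℓ) (hT : Tr G Ln) (g : G) (l : ℝ) (hl : ∀ x : T, l ≤ dist x (g • x))
    (z ν : T) (hz : dist z (g • z) = l) (hν : dist ν (g • ν) = l) :
    dist ν z + dist z (g • ν) = dist ν (g • ν) ∨ dist z (g • ν) = dist z ν - l ∨
      dist z (g • ν) = dist z ν + l := by
  obtain ⟨m, h1, h2, h3⟩ := hT.med z ν (g • ν)
  rcases (dist_nonneg : 0 ≤ dist ν m).eq_or_lt with ha | ha
  · right; right
    have : ν = m := dist_eq_zero.1 ha.symm
    subst this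
    linarith
  rcases (dist_nonneg : 0 ≤ dist m (g • ν)).eq_or_lt with hb | hb
  · right; left
    rw [dist_comm m ν] at h1
    linarith
  left
  have e1 : dist (g • ν) (g • m) = dist ν m := hC.iso g ν m
  have e2 : dist (g • m) (g • z) = dist z m := by rw [hC.iso, dist_comm]
  have e3 : dist (g • ν) (g • z) = dist z ν := by rw [hC.iso, dist_comm]
  have t := dist_triangle m (g • ν) (g • m)
  have hm := hl m
  have g1 := glue hC (x := z) (y := m) (z := g • ν) (w := g • m) h2 (by linarith) hb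
  have g2 := glue hC (x := z) (y := g • ν) (z := g • m) (w := g • z) (by linarith)
    (by rw [dist_comm m ν] at h1; linarith) (by linarith)
  have h0 : dist z m = 0 := by linarith
  rw [dist_eq_zero.1 h0]
  exact h3

theorem axis (hC : Cone G T ℓ) (hT : Tr G Ln) (g : G) (hl : 0 < ℓ g) (z : T)
    (hz : dist z (g • z) = ℓ g) (n : ℕ) : ∀ ν : T, dist ν (g • ν) = ℓ g → LC Ln ν (g • ν) →
      dist z ν ≤ n * ℓ g → LC Ln ν z := by
  have hinv : ∀ x : T, dist x (g⁻¹ • x) = dist x (g • x) := fun x => by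
    rw [← hC.iso g, smul_inv_smul, dist_comm]
  induction n with
  | zero =>
    intro ν _ _ h
    have h0 : dist z ν = 0 := le_antisymm (by simpa using h) dist_nonneg
    rw [dist_eq_zero.1 h0]
    exact Relation.EqvGen.refl _
  | succ n ih =>
    intro ν hν hc h
    push_cast at h
    have hc' : LC Ln ν (g⁻¹ • ν) := by
      have := lc_smul hT g⁻¹ hc
      rw [inv_smul_smul] at this
      exact Relation.EqvGen.symm _ _ this
    rcases step hC hT g (ℓ g) (hC.le g) z ν hz hν with h1 | h1 | h1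
    · exact lc_convex hT hc z h1
    · exact Relation.EqvGen.trans _ _ _ hc
        (ih (g • ν) (by rw [hC.iso, hν]) (lc_smul hT g hc) (by linarith))
    rcases step hC hT g⁻¹ (ℓ g) (fun x => by rw [hinv]; exact hC.le g x) z ν
      (by rw [hinv, hz]) (by rw [hinv, hν]) with h2 | h2 | h2
    · exact lc_convex hT hc' z h2
    · refine Relation.EqvGen.trans _ _ _ hc' (ih (g⁻¹ • ν) ?_ ?_ (by linarith))
      · rw [smul_inv_smul, dist_comm, hinv, hν]
      · rw [smul_inv_smul]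
        exact Relation.EqvGen.symm _ _ hc'
    have h4 := hC.four z (g • ν) (g • z) ν
    have e1 : dist (g • z) ν = dist z (g⁻¹ • ν) := by rw [← hC.iso g z, smul_inv_smul]
    rw [e1, dist_comm (g • ν) ν, hC.iso, dist_comm ν z] at h4
    have h0 : dist z ν = 0 := by
      refine le_antisymm ?_ dist_nonneg
      rcases le_max_iff.1 h4 with h4 | h4 <;> linarith
    rw [dist_eq_zero.1 h0]
    exact Relation.EqvGen.refl _

/-- A point of least displacement between `w` and its image. -/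
theorem exists_mid (hC : Cone G T ℓ) (g : G) (w : T) :
    ∃ ν, dist w ν + dist ν (g • w) = dist w (g • w) ∧ dist ν (g • ν) = ℓ g := by
  have h0 : 0 ≤ dist w (g • w) := dist_nonneg
  obtain ⟨ν, h1, h2⟩ := hC.geo w (g • w) (dist w (g • w) / 2) (by linarith) (by linarith)
  exact ⟨ν, by linarith, hC.mid g w ν h1 (by linarith)⟩

theorem lc_min (hC : Cone G T ℓ) (hT : Tr G Ln) (g : G) (hg : g ≠ 1) (w z : T)
    (hw : LC Ln w (g • w)) (hz : dist z (g • z) = ℓ g) : LC Ln w z := by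
  obtain ⟨ν, h1, h2⟩ := exists_mid hC g w
  have hν : LC Ln w ν := lc_convex hT hw ν h1
  refine Relation.EqvGen.trans _ _ _ hν ?_
  rcases (hC.nonneg g).eq_or_lt with hl | hl
  · by_cases e : ν = z
    · rw [e]
      exact Relation.EqvGen.refl _
    obtain ⟨A, hA, hp, hq, -⟩ := hT.small ν z e fun ε hε => ⟨g, hg, by linarith, by linarith⟩
    exact Relation.EqvGen.rel _ _ ⟨A, hA, hp, hq⟩
  · obtain ⟨n, hn⟩ := exists_nat_ge (dist z ν / ℓ g)
    refine axis hC hT g hl z hz n ν h2 ?_ ((div_le_iff₀ hl).1 hn)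
    exact Relation.EqvGen.trans _ _ _ (Relation.EqvGen.symm _ _ hν)
      (Relation.EqvGen.trans _ _ _ hw (lc_smul hT g hν))

end EnvP

open EnvP in
theorem env (hP : Se.PvStmt) (h2 : Env2Stmt) : EnvStmt := by
  intro G T _ _ _ ℓ Ln hC hT hAb hPt hD
  let _ : MulAction G (Quotient (st Ln)) := act hT
  have hCl : Cl G ℓ (Quotient.mk (st Ln)) := by
    refine ⟨Quotient.mk_surjective, fun _ _ => rfl, fun p q z h hz => ?_, fun g a z hg ha hz => ?_⟩
    · exact (Quotient.sound (s := st Ln) (lc_convex hT (Quotient.exact h) z hz)).symm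
    · induction a using Quotient.inductionOn with
      | h w =>
        have hw : LC Ln (g • w) w := Quotient.exact (s := st Ln) ha
        exact (Quotient.sound (s := st Ln)
          (lc_min hC hT g hg w z (Relation.EqvGen.symm _ _ hw) hz)).symm
  obtain ⟨hs, hf⟩ := h2 G T _ ℓ Ln _ hC hT hCl
  refine ⟨Quotient (st Ln), inferInstance, Quotient.mk (st Ln), fun _ _ => rfl,
    fun A hA p hp q hq => Quotient.sound (s := st Ln) (Relation.EqvGen.rel _ _ ⟨A, hA, hp, hq⟩),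
    hT.ct, hAb, hD, fun g a b hg ha hb => ?_, hs, hf, fun P hFG hz => ?_⟩
  · obtain ⟨w⟩ := hC.ne
    obtain ⟨ν, -, hν⟩ := exists_mid hC g w
    exact (hCl.min g a ν hg ha hν).symm.trans (hCl.min g b ν hg hb hν)
  · obtain ⟨a, ha⟩ := hz
    induction a using Quotient.inductionOn with
    | h z =>
      refine hP G T Ln P z hT hAb hPt hFG fun g hg => ?_
      have hw : LC Ln (g • z) z := Quotient.exact (s := st Ln) (ha g hg)
      exact Relation.EqvGen.symm _ _ hw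

end Pool.Agent.MP_494aff_an.Fr

end MrgPart2

-- ======== part 3: formerly Pool.Agent.MP_494aff_an.fr.Env2
section MrgPart3

/-! Bridges between the classes of an invariant convex partition of a real tree. -/

namespace Pool.Agent.MP_494aff_an.Fr

open Pool.Agent.MP_494aff_an.Pinch Pool.Agent.MP_494aff_an.Pinch.TowP Pool.Agent.MP_494aff_an.Lf
open Pool.Agent.MP_494aff_an.Se

namespace Env2P

variable {G T Ω : Type} [Group G] [MetricSpace T] [MulAction G T] [MulAction G Ω] {ℓ : G → ℝ}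
  {π : T → Ω}

/-- `w` lies between `x` and `y`. -/
def Bt (x w y : T) : Prop := dist x w + dist w y = dist x y

lemma Bt.symm {x w y : T} (h : Bt x w y) : Bt y w x := by
  unfold Bt at *
  rw [dist_comm y w, dist_comm w x, dist_comm y x]
  linarith

lemma bt_step (C : Cone G T ℓ) {x w y z : T} (h : Bt x w z) (h' : ¬ Bt y w z) : Bt x w y := by
  unfold Bt at *
  have f := C.four x z y w
  have t1 := dist_triangle y w z
  have t2 := dist_triangle x w y
  have t3 := lt_of_le_of_ne t1 (Ne.symm h')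
  rw [dist_comm z w, dist_comm z y] at f
  rw [dist_comm w y] at *
  rcases le_max_iff.1 f with f | f <;> linarith

lemma not_bt {w n q : T} (h : Bt w n q) (hn : w ≠ n) : ¬ Bt n w q := fun e => by
  unfold Bt at *
  have := dist_pos.2 hn
  rw [dist_comm n w] at e
  linarith

/-- The distance to a class. -/
noncomputable def r (π : T → Ω) (q : T) (c : Ω) : ℝ := Metric.infDist q (π ⁻¹' {c})

lemma r_le {q p : T} {c : Ω} (h : π p = c) : r π q c ≤ dist q p :=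
  Metric.infDist_le_dist_of_mem (s := π ⁻¹' {c}) h

lemma le_r (K : Cl G ℓ π) {q : T} {c : Ω} {k : ℝ} (h : ∀ p, π p = c → k ≤ dist q p) :
    k ≤ r π q c :=
  (Metric.le_infDist (s := π ⁻¹' {c}) (K.surj c)).2 h

lemma r_shift (K : Cl G ℓ π) {q q' : T} {c : Ω} {k : ℝ}
    (h : ∀ p, π p = c → dist q p = k + dist q' p) : r π q c = k + r π q' c := by
  have h1 : r π q c - k ≤ r π q' c := le_r K fun p hp => by linarith [r_le (q := q) hp, h p hp]
  have h2 : k + r π q' c ≤ r π q c := le_r K fun p hp => by linarith [r_le (q := q') hp, h p hp]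
  linarith

lemma r_smul_le (C : Cone G T ℓ) (K : Cl G ℓ π) (g : G) (q : T) (c : Ω) :
    r π (g • q) (g • c) ≤ r π q c :=
  le_r K fun p hp => by
    rw [← C.iso g q p]
    exact r_le (by rw [K.eqv, hp])

lemma r_smul (C : Cone G T ℓ) (K : Cl G ℓ π) (g : G) (q : T) (c : Ω) :
    r π (g • q) (g • c) = r π q c := by
  refine le_antisymm (r_smul_le C K g q c) ?_
  have := r_smul_le C K g⁻¹ (g • q) (g • c)
  rwa [inv_smul_smul, inv_smul_smul] at this

lemma out (K : Cl G ℓ π) {p p' μ : T} (h : π p = π p') (hμ : π μ ≠ π p) : ¬ Bt p μ p' :=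
  fun e => hμ (K.convex p p' μ h e)

lemma bt_cl (C : Cone G T ℓ) (K : Cl G ℓ π) {p p' q μ : T} (h : Bt q μ p) (hp : π p' = π p)
    (hμ : π μ ≠ π p) : Bt q μ p' :=
  bt_step C h (out K hp (hp ▸ hμ))

lemma r_bt (C : Cone G T ℓ) (K : Cl G ℓ π) {p q μ : T} (h : Bt q μ p) (hμ : π μ ≠ π p) :
    r π q (π p) = dist q μ + r π μ (π p) :=
  r_shift K fun _ hp => (bt_cl C K h hp hμ).symm.symm.symm.symm ▸ rfl

lemma split {Ln : Set (Set T)} (C : Cone G T ℓ) (R : Tr G Ln) (K : Cl G ℓ π) {p p' q q' : T}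
    (hp : π p = π p') (hq : π q = π q') (h : π p ≠ π q) :
    dist p q + dist p' q' = dist p q' + dist p' q := by
  obtain ⟨m, h1, h2, h3⟩ := R.med p p' q
  have hm : π m ≠ π q := by rw [K.convex p p' m hp h1]; exact h
  have e1 : Bt p m q' := bt_cl C K h2 hq.symm hm
  have e2 : Bt p' m q' := bt_cl C K h3 hq.symm hm
  unfold Bt at e1 e2
  linarith

/-- `μ` is the midpoint of the bridge between two classes. -/
def MB (π : T → Ω) (c c' : Ω) (μ : T) : Prop :=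
  (∀ z w, π z = c → π w = c' → Bt z μ w) ∧ r π μ c = r π μ c'

lemma mb_uniq {Ln : Set (Set T)} (R : Tr G Ln) (K : Cl G ℓ π) {c c' : Ω} {μ ν : T}
    (h : MB π c c' μ) (h' : MB π c c' ν) : μ = ν := by
  obtain ⟨z, hz⟩ := K.surj c
  obtain ⟨w, hw⟩ := K.surj c'
  have key : ∀ μ, MB π c c' μ → 2 * dist z μ = dist z w + r π z c' - r π w c := fun μ h => by
    have a1 : r π z c' = dist z μ + r π μ c' := r_shift K fun p hp => (h.1 z p hz hp).symm.symm.symm.symm ▸ rfl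
    have a2 : r π w c = dist w μ + r π μ c := r_shift K fun p hp => (h.1 p w hp hw).symm ▸ rfl
    have a3 : dist z μ + dist μ w = dist z w := h.1 z w hz hw
    rw [dist_comm w μ] at a2
    linarith [h.2]
  have := R.uniq z w μ ν (h.1 z w hz hw) (h'.1 z w hz hw)
  rw [show dist z μ - dist z ν = 0 by linarith [key μ h, key ν h'], abs_zero] at this
  exact dist_eq_zero.1 this

lemma mid (C : Cone G T ℓ) (g : G) (z : T) : ∃ μ, dist z μ = dist z (g • z) / 2 ∧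
    dist μ (g • z) = dist z (g • z) / 2 ∧ dist μ (g • μ) = ℓ g := by
  have := dist_nonneg (x := z) (y := g • z)
  obtain ⟨μ, h1, h2⟩ := C.geo z (g • z) (dist z (g • z) / 2) (by linarith) (by linarith)
  have h3 : dist μ (g • z) = dist z (g • z) / 2 := by linarith
  exact ⟨μ, h1, h3, C.mid g z μ h1 h3⟩

lemma uniq (C : Cone G T ℓ) (K : Cl G ℓ π) {g : G} {a b : Ω} (hg : g ≠ 1) (ha : g • a = a)
    (hb : g • b = b) : a = b := by
  obtain ⟨z⟩ := C.ne
  obtain ⟨μ, -, -, h⟩ := mid C g z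
  rw [← K.min g a μ hg ha h, K.min g b μ hg hb h]

lemma half {Ln : Set (Set T)} (C : Cone G T ℓ) (R : Tr G Ln) (K : Cl G ℓ π) {g : G} {a c : Ω}
    (hg : g ≠ 1) (ha : g • a = a) (hc : g • c ≠ c) : ∃ μ, π μ = a ∧ MB π c (g • c) μ := by
  obtain ⟨z, rfl⟩ := K.surj c
  obtain ⟨μ, h1, h2, h3⟩ := mid C g z
  have hμ := K.min g a μ hg ha h3
  have n1 : π μ ≠ π z := fun e => hc (by rw [← e, hμ, ha])
  have n2 : π μ ≠ π (g • z) := fun e => n1 (by
    rw [K.eqv, hμ, ← ha] at e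
    rw [hμ]
    exact MulAction.injective g e)
  have b0 : Bt z μ (g • z) := by unfold Bt; linarith
  refine ⟨μ, hμ, fun z' w hz hw => ?_, ?_⟩
  · exact bt_cl C K (bt_cl C K b0.symm hz n1).symm (by rw [hw, K.eqv]) n2
  · have e : π (g⁻¹ • μ) = π μ := by rw [K.eqv, hμ, inv_smul_eq_iff, ha]
    have d : dist z (g⁻¹ • μ) = dist z μ := by
      rw [← C.iso g, smul_inv_smul, dist_comm, h1, h2]
    rw [← smul_inv_smul g μ, r_smul C K, smul_inv_smul, ← zero_add (r π (g⁻¹ • μ) (π z))]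
    refine r_shift K fun p hp => ?_
    have := split C R K hp e.symm (by rw [hp]; exact n1.symm)
    rw [dist_comm μ p, dist_comm (g⁻¹ • μ) p]
    linarith

lemma sq1 (C : Cone G T ℓ) (K : Cl G ℓ π) {g : G} {c : Ω} {μ : T} (h : MB π c (g • c) μ) :
    dist μ (g • μ) = ℓ g := by
  by_cases h0 : dist μ (g • μ) = 0
  · exact C.mid g μ μ (by rw [h0]; simp) (by rw [h0]; simp)
  have d1 : dist (g⁻¹ • μ) μ = dist μ (g • μ) := by rw [← C.iso g, smul_inv_smul]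
  have b : Bt (g⁻¹ • μ) μ (g • μ) := by
    by_contra hb
    have a1 : ¬ ∀ p, π p = c → Bt (g⁻¹ • μ) μ p := fun k => by
      have e := r_shift K (q := g⁻¹ • μ) (q' := μ) (k := dist (g⁻¹ • μ) μ) fun p hp => (k p hp).symm.symm ▸ rfl
      rw [← r_smul C K g, smul_inv_smul, ← h.2, d1] at e
      exact h0 (by linarith)
    have a2 : ¬ ∀ p, π p = g • c → Bt (g • μ) μ p := fun k => by
      have e := r_shift K (q := g • μ) (q' := μ) (k := dist (g • μ) μ) fun p hp => (k p hp).symm.symm ▸ rfl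
      rw [r_smul C K g, ← h.2, dist_comm] at e
      exact h0 (by linarith)
    push Not at a1 a2
    obtain ⟨p, hp, a1⟩ := a1
    obtain ⟨q, hq, a2⟩ := a2
    exact a1 (bt_step C (bt_step C (h.1 p q hp hq) a2) hb).symm
  obtain ⟨ν, h1, h2, h3⟩ := mid C g (g⁻¹ • μ)
  rw [smul_inv_smul] at h1 h2
  have h4 : dist μ (g • ν) = dist (g⁻¹ • μ) ν := by rw [← C.iso g (g⁻¹ • μ), smul_inv_smul]
  have h5 : dist (g • ν) (g • μ) = dist ν μ := C.iso g ν μ
  have t1 := dist_triangle4 (g⁻¹ • μ) ν (g • ν) (g • μ)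
  have t2 := dist_triangle ν μ (g • ν)
  unfold Bt at b
  linarith

lemma align (C : Cone G T ℓ) {n : G} {z : T} (h : dist z (n • z) = ℓ n) :
    Bt z (n • z) (n • n • z) := by
  by_cases h0 : dist z (n • z) = 0
  · have e := (dist_eq_zero.1 h0).symm
    simp [Bt, e]
  obtain ⟨ν, h1, h2, h3⟩ := mid C n z
  have h4 : dist (n • z) (n • ν) = dist z ν := C.iso n z ν
  have h5 : dist (n • ν) (n • n • z) = dist ν (n • z) := C.iso n ν (n • z)
  have h6 : dist (n • z) (n • n • z) = dist z (n • z) := C.iso n z (n • z)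
  have b1 : Bt ν (n • z) (n • ν) := by unfold Bt; linarith
  have b2 : Bt (n • z) ν z := Bt.symm (by unfold Bt; linarith)
  have b3 : Bt (n • z) (n • ν) (n • n • z) := by unfold Bt; linarith
  have n2 : n • z ≠ ν := fun e => h0 (by rw [← e, dist_self] at h2; linarith)
  have n3 : n • z ≠ n • ν := fun e => h0 (by rw [← e, dist_self] at h4; linarith)
  exact (bt_step C (bt_step C b1 fun e => not_bt b3 n3 e.symm).symm
    fun e => not_bt b2 n2 e.symm).symm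

lemma side (C : Cone G T ℓ) (K : Cl G ℓ π) {z w z' μ : T} (hw : π w ≠ π z') (b1 : Bt z μ w)
    (b2 : Bt μ w z') (e1 : r π μ (π z) = r π μ (π z')) (e2 : r π w (π z') = r π z (π w)) :
    π μ = π w := by
  by_contra hμ
  have a1 := r_bt C K b2 hw
  have a2 : dist z μ ≤ r π z (π w) := le_r K fun p hp => by
    have := bt_cl C K b1 hp hμ
    unfold Bt at this
    linarith [dist_nonneg (x := μ) (y := p)]
  have a3 : r π μ (π z) ≤ dist μ z := r_le rfl
  rw [dist_comm] at a3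
  have : dist μ w = 0 := le_antisymm (by linarith) dist_nonneg
  exact hμ (by rw [dist_eq_zero.1 this])

lemma sq2 {Ln : Set (Set T)} (C : Cone G T ℓ) (R : Tr G Ln) (K : Cl G ℓ π) {n : G} {z μ : T}
    (h : dist z (n • z) = ℓ n) (hc : n • n • π z ≠ π z) (hμ : MB π (π z) (n • n • π z) μ) :
    π μ = n • π z := by
  have e1 : π (n • z) = n • π z := K.eqv n z
  have e2 : π (n • n • z) = n • n • π z := by rw [K.eqv, e1]
  have n1 : π (n • z) ≠ π z := fun e => hc (by rw [← e1, e, ← e1, e])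
  have n2 : π (n • z) ≠ π (n • n • z) := fun e => n1 (by
    rw [K.eqv n (n • z), e1] at e
    rw [e1]
    exact (MulAction.injective n e).symm)
  have b1 := align C h
  have b2 := hμ.1 z _ rfl e2
  have u := R.uniq z (n • n • z) μ (n • z) b2 b1
  have q := hμ.2
  rw [← e2] at q
  rw [← e1]
  unfold Bt at b1 b2
  rcases le_total (dist z μ) (dist z (n • z)) with l | l
  · rw [abs_of_nonpos (by linarith)] at u
    refine side C K n2 (z := z) (by unfold Bt; linarith) (by unfold Bt; linarith) q ?_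
    rw [K.eqv n (n • z), r_smul C K]
  · rw [abs_of_nonneg (by linarith), dist_comm] at u
    refine side C K n1 (z := n • n • z) (Bt.symm (by unfold Bt; linarith))
      (Bt.symm (by unfold Bt; linarith)) q.symm ?_
    rw [e1, r_smul C K]

end Env2P

open Env2P

theorem env2 : Env2Stmt := by
  intro G T Ω _ _ _ _ ℓ Ln π C R K
  refine ⟨fun x y a b c hx hy ha hb hc => ?_, fun x y m a b hx hy ha hb hm => ?_⟩
  · have e : y • c = x⁻¹ • c := by rw [eq_inv_smul_iff, ← mul_smul, hc]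
    have ha' : x⁻¹ • a = a := by rw [inv_smul_eq_iff, ha]
    by_cases h : y • c = c
    · rw [uniq C K (inv_ne_one.2 hx) ha' (e ▸ h), uniq C K hy hb h]
    obtain ⟨μ, h1, h2⟩ := half C R K hy hb h
    obtain ⟨ν, h3, h4⟩ := half C R K (inv_ne_one.2 hx) ha' (e ▸ h)
    rw [← h1, ← h3, mb_uniq R K h2 (e ▸ h4)]
  · by_contra hab
    have hn : m⁻¹ * m⁻¹ = x * y := by
      rw [eq_inv_of_mul_eq_one_left hm, pow_two, mul_inv_rev]
    generalize m⁻¹ = n at hn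
    have e1 : n • n • b = x • b := by rw [← mul_smul, hn, mul_smul, hb]
    have n1 : x • b ≠ b := fun e => hab (uniq C K hx ha e)
    have n2 : y • y⁻¹ • a ≠ y⁻¹ • a := fun e => by
      rw [smul_inv_smul, eq_inv_smul_iff] at e
      exact hab (uniq C K hy e hb)
    obtain ⟨μ, h1, h2⟩ := half C R K hx ha n1
    obtain ⟨ν, h3, h4⟩ := half C R K hy hb n2
    have e2 : y • y⁻¹ • a = (n * n) • y⁻¹ • a := by
      rw [hn, mul_smul, smul_inv_smul, ha]
    have nn : n * n ≠ 1 := fun e => n1 (by rw [← e1, ← mul_smul, e, one_smul])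
    have n0 : n ≠ 1 := fun e => nn (by rw [e, one_mul])
    have s1 := sq1 C K (e2 ▸ h4)
    have s2 := C.comm n (n * n) ν n0 nn (mul_assoc n n n).symm
    subst h3
    have s3 := sq2 C R K (n := n) (z := ν) (μ := μ) (by linarith) (e1 ▸ n1) (e1 ▸ h2)
    rw [h1] at s3
    have g1 : (x⁻¹ * n) • a = π ν := by rw [mul_smul, s3, e1, inv_smul_smul]
    have g2 : (x⁻¹ * n) • π ν = a := by rw [mul_smul, ← s3, inv_smul_eq_iff, ha]
    generalize x⁻¹ * n = g at g1 g2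
    by_cases g0 : g = 1
    · exact hab (by rw [← g1, g0, one_smul])
    have g3 : g * g ≠ 1 := fun e => by
      have := R.ct.tf g g0 2 (by rw [zpow_two, e])
      omega
    exact hab (uniq C K g3 (by rw [mul_smul, g1, g2]) (by rw [mul_smul, g2, g1]))

end Pool.Agent.MP_494aff_an.Fr

end MrgPart3

-- ======== part 4: formerly Pool.Agent.MP_494aff_an.fr.Nf
section MrgPart4

/-! Reduced paths are not closed. -/

namespace Pool.Agent.MP_494aff_an.Fr

open Pool.Agent.MP_494aff_an.Pinch Pool.Agent.MP_494aff_an.Pinch.TowP Pool.Agent.MP_494aff_an.Lf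
open Pool.Agent.MP_494aff_an.Se

namespace NfP

/-- Tails of products of large powers after a power of `x`. -/
inductive Tl : F2 → (ℤ → F2) → Prop
  | nil (x b : F2) : x ≠ 1 → Tl x fun _ => b
  | cons (x b x' : F2) (c : ℤ) (R : ℤ → F2) : x ≠ 1 → b * x' * b⁻¹ * x ≠ x * (b * x' * b⁻¹) →
      c ≠ 0 → Tl x' R → Tl x fun M => b * x' ^ (M * c) * R M

lemma Tl.conj {x : F2} {R : ℤ → F2} (h : Tl x R) (a : F2) :
    Tl (a * x * a⁻¹) fun M => a * R M := by
  cases h with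
  | nil _ b hx => exact Tl.nil _ (a * b) (by simpa using hx)
  | cons _ b x' c R hx hn hc h =>
    have := Tl.cons (a * x * a⁻¹) (a * b) x' c R (by simpa using hx) (fun e => hn (by
      calc b * x' * b⁻¹ * x = a⁻¹ * (a * b * x' * (a * b)⁻¹ * (a * x * a⁻¹)) * a := by group
        _ = a⁻¹ * (a * x * a⁻¹ * (a * b * x' * (a * b)⁻¹)) * a := by rw [e]
        _ = _ := by group)) hc h
    simpa only [mul_assoc] using this

lemma Tl.seq {x : F2} {R : ℤ → F2} (h : Tl x R) (b₀ : F2) {c₀ : ℤ} (h0 : c₀ ≠ 0) :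
    ∃ (n : ℕ) (xs bs : ℕ → F2) (cs : ℕ → ℤ) (b' : F2), xs 0 = x ∧ bs 0 = b₀ ∧
      (∀ i ≤ n, xs i ≠ 1 ∧ cs i ≠ 0) ∧
      (∀ i < n, bs (i + 1) * xs (i + 1) * (bs (i + 1))⁻¹ * xs i ≠
        xs i * (bs (i + 1) * xs (i + 1) * (bs (i + 1))⁻¹)) ∧
      ∀ M, b₀ * x ^ (M * c₀) * R M =
        ((List.range (n + 1)).map fun i => bs i * xs i ^ (M * cs i)).prod * b' := by
  induction h generalizing b₀ c₀ with
  | nil x b hx =>
    exact ⟨0, fun _ => x, fun _ => b₀, fun _ => c₀, b, rfl, rfl, fun _ _ => ⟨hx, h0⟩,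
      fun _ h => absurd h (Nat.not_lt_zero _), fun M => by simp⟩
  | cons x b x' c R hx hn hc _ ih =>
    obtain ⟨n, xs, bs, cs, b', e1, e2, h1, h2, h3⟩ := ih b hc
    refine ⟨n + 1, fun i => Nat.casesOn i x xs, fun i => Nat.casesOn i b₀ bs,
      fun i => Nat.casesOn i c₀ cs, b', rfl, rfl, ?_, ?_, fun M => ?_⟩
    · rintro (_ | i) hi
      · exact ⟨hx, h0⟩
      · exact h1 i (by omega)
    · rintro (_ | i) hi
      · show bs 0 * xs 0 * (bs 0)⁻¹ * x ≠ x * (bs 0 * xs 0 * (bs 0)⁻¹)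
        rw [e1, e2]
        exact hn
      · exact h2 i (by omega)
    · rw [List.range_succ_eq_map, List.map_cons, List.prod_cons, List.map_map, mul_assoc _ _ b']
      exact congrArg (b₀ * x ^ (M * c₀) * ·) (h3 M)

lemma Tl.ne (hB : BaumStmt) {x : F2} {R : ℤ → F2} (h : Tl x R) (b₀ b₁ : F2) {c₀ : ℤ}
    (h0 : c₀ ≠ 0) : ∃ M, b₀ * x ^ (M * c₀) * R M ≠ b₁ := by
  obtain ⟨n, xs, bs, cs, b', -, -, h1, h2, h3⟩ := h.seq b₀ h0
  obtain ⟨K, hK⟩ := hB n xs bs (fun i hi => (h1 i hi).1) h2 (b₁ * b'⁻¹)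
  refine ⟨K, fun e => hK (fun i => K * cs i) (fun i hi => ?_) ?_⟩
  · rw [Int.natAbs_mul, Int.natAbs_natCast]
    exact Nat.le_mul_of_pos_right _ (Int.natAbs_pos.2 (h1 i hi).2)
  · rw [← e, h3, mul_inv_cancel_right]

lemma far_symm {G : Type} [Group G] {z w : G} (h : Far z w) : Far w z := fun a e => h a⁻¹ (by
  calc a⁻¹ * z * a⁻¹⁻¹ * w = a⁻¹ * (z * (a * w * a⁻¹)) * a := by group
    _ = a⁻¹ * (a * w * a⁻¹ * z) * a := by rw [e]
    _ = _ := by group)

lemma exists_gen (h3 : GenfStmt) {J : Type} (S : Finset J) (Q : Finset F2)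
    (hQ : ∀ q ∈ Q, q ≠ 1) : ∃ Z : J → F2, (∀ i ∈ S, Z i ≠ 1 ∧ ∀ q ∈ Q, Far (Z i) q) ∧
      ∀ i ∈ S, ∀ j ∈ S, i ≠ j → Far (Z i) (Z j) := by
  classical
  induction S using Finset.induction_on with
  | empty => exact ⟨fun _ => 1, by simp, by simp⟩
  | insert k S hk ih =>
    obtain ⟨Z, h1, h2⟩ := ih
    obtain ⟨x, hx, hf⟩ := h3 (Q ∪ S.image Z) (fun q hq => by
      rcases Finset.mem_union.1 hq with hq | hq
      · exact hQ q hq
      · obtain ⟨i, hi, rfl⟩ := Finset.mem_image.1 hq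
        exact (h1 i hi).1)
    have e : ∀ i ∈ S, Function.update Z k x i = Z i := fun i hi =>
      Function.update_of_ne (fun e : i = k => hk (e ▸ hi)) _ _
    have hS : ∀ i ∈ S, Far x (Z i) := fun i hi =>
      hf _ (Finset.mem_union_right _ (Finset.mem_image_of_mem _ hi))
    refine ⟨Function.update Z k x, fun i hi => ?_, fun i hi j hj hij => ?_⟩
    · rcases Finset.mem_insert.1 hi with rfl | hi
      · rw [Function.update_self]
        exact ⟨hx, fun q hq => hf q (Finset.mem_union_left _ hq)⟩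
      · rw [e i hi]
        exact h1 i hi
    · rcases Finset.mem_insert.1 hi with hi' | hi' <;> rcases Finset.mem_insert.1 hj with hj' | hj'
      · exact absurd (hi'.trans hj'.symm) hij
      · rw [hi', Function.update_self, e j hj']
        exact hS j hj'
      · rw [hj', Function.update_self, e i hi']
        exact far_symm (hS i hi')
      · rw [e i hi', e j hj']
        exact h2 i hi' j hj' hij

variable {G Ω I : Type} [Group G] (Φ : Frm G Ω I) (d : I → G) (μ : I → ℤ) (φ : G →* F2)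
  (Z : I × Bool → F2)

open Classical in
/-- The twisted values of the letters. -/
noncomputable def uu (M : ℤ) (l : I) : F2 :=
  if l ∈ Φ.En then φ (d l) ^ (M * μ l) * φ (Φ.γ l) else Z (l, true) ^ M * Z (l, false) ^ M

open Classical in
/-- The constant before the first power. -/
noncomputable def pre (x : I × Bool) : F2 :=
  if x.1 ∈ Φ.En then cond x.2 1 (φ (Φ.γ x.1))⁻¹ else 1

open Classical in
/-- The constant after the last power. -/
noncomputable def post (x : I × Bool) : F2 :=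
  if x.1 ∈ Φ.En then cond x.2 (φ (Φ.γ x.1)) 1 else 1

open Classical in
/-- The base of the first power. -/
noncomputable def hd (x : I × Bool) : F2 := if x.1 ∈ Φ.En then φ (d x.1) else Z x

open Classical in
/-- The base of the last power. -/
noncomputable def lst (x : I × Bool) : F2 := if x.1 ∈ Φ.En then φ (d x.1) else Z (x.1, !x.2)

/-- The value of a signed letter. -/
def sv (u : I → F2) (x : I × Bool) : F2 := cond x.2 (u x.1) (u x.1)⁻¹

/-- The form of the value of a path with first letter `x`. -/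
def Iv (x : I × Bool) (W : ℤ → F2) : Prop :=
  ∃ c ≠ 0, ∃ R, Tl (hd Φ d φ Z x) R ∧
    (∀ M, W M = pre Φ φ x * hd Φ d φ Z x ^ (M * c) * R M) ∧ (x.1 ∈ Φ.En → x.2 = true → c = μ x.1)

/-- Generic position. -/
structure Ok (Q : Finset G) : Prop where
  ne : ∀ q ∈ Q, φ q ≠ 1
  dne : ∀ e ∈ Φ.En, φ (d e) ≠ 1
  zne : ∀ x : I × Bool, x.1 ∈ Φ.Ls → Z x ≠ 1
  fq : ∀ x : I × Bool, x.1 ∈ Φ.Ls → ∀ q ∈ Q, Far (Z x) (φ q)
  fd : ∀ x : I × Bool, x.1 ∈ Φ.Ls → ∀ e ∈ Φ.En, Far (Z x) (φ (d e))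
  fz : ∀ x y : I × Bool, x.1 ∈ Φ.Ls → y.1 ∈ Φ.Ls → x ≠ y → Far (Z x) (Z y)

variable {Φ d μ φ Z}

lemma Ok.mono {Q Q' : Finset G} (h : Ok Φ d φ Z Q') (hQ : Q ⊆ Q') : Ok Φ d φ Z Q :=
  ⟨fun q hq => h.ne q (hQ hq), h.dne, h.zne, fun x hx q hq => h.fq x hx q (hQ hq), h.fd, h.fz⟩

lemma Ok.lst_ne {Q : Finset G} (h : Ok Φ d φ Z Q) {x : I × Bool} (hx : x.1 ∈ Φ.Ls) :
    lst Φ d φ Z x ≠ 1 := by
  rw [lst]
  split_ifs with he
  · exact h.dne _ he
  · exact h.zne _ hx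

lemma close {Q : Finset G} (h : Ok Φ d φ Z Q) (hμ : ∀ e ∈ Φ.En, μ e ≠ 0) {x : I × Bool}
    (hx : x.1 ∈ Φ.Ls) {R W : ℤ → F2} (hR : Tl (lst Φ d φ Z x) R)
    (hW : ∀ M, W M = sv (uu Φ d μ φ Z M) x * (post Φ φ x)⁻¹ * R M) : Iv Φ d μ φ Z x W := by
  obtain ⟨l, s⟩ := x
  by_cases he : l ∈ Φ.En
  · simp only [Iv, hd, lst, pre, post, sv, uu, if_pos he] at hR hW ⊢
    cases s
    · exact ⟨-μ l, neg_ne_zero.2 (hμ l he), R, hR, fun M => by rw [hW]; simp, by simp⟩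
    · exact ⟨μ l, hμ l he, R, hR, fun M => by rw [hW]; simp, by simp⟩
  · simp only [Iv, hd, lst, pre, post, sv, uu, if_neg he] at hR hW ⊢
    cases s
    · exact ⟨-1, by simp, _, Tl.cons _ 1 _ (-1) R (h.zne _ hx)
        (h.fz (l, true) (l, false) hx hx (by simp) 1) (by simp) hR,
        fun M => by rw [hW]; simp [mul_assoc], fun e => absurd e he⟩
    · exact ⟨1, by simp, _, Tl.cons _ 1 _ 1 R (h.zne _ hx)
        (h.fz (l, false) (l, true) hx hx (by simp) 1) (by simp) hR,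
        fun M => by rw [hW]; simp [mul_assoc], fun e => absurd e he⟩

lemma ne_of_comm {x y : G} (h : φ (x * y * (y * x)⁻¹) ≠ 1) : φ x * φ y ≠ φ y * φ x := fun e =>
  h (by rw [map_mul, map_inv, map_mul, map_mul, e, mul_inv_cancel])

/-- The junction of two letters. -/
lemma junc (hG : CT G) (hΦ : Φ.Good)
    (hd1 : ∀ e ∈ Φ.En, d e ≠ 1 ∧ Φ.Ce e ((Φ.γ e)⁻¹ * d e * Φ.γ e))
    (hd2 : ∀ e ∈ Φ.En, ∀ e' ∈ Φ.En, ∀ z, Φ.E (Φ.t e) (Φ.t e') z →
      z * d e' * z⁻¹ * d e = d e * (z * d e' * z⁻¹) → z * d e' * z⁻¹ = d e)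
    {x y : I × Bool} {a : G} (hx : x.1 ∈ Φ.Ls) (hy : y.1 ∈ Φ.Ls) (ha : Φ.E (Φ.rt x) (Φ.lt y) a)
    (hp : ¬ Φ.Pch x a y) :
    (∃ Q : Finset G, (∀ q ∈ Q, q ≠ 1) ∧ ∀ φ Z, Ok Φ d φ Z Q → ∀ b,
      b = post Φ φ x * φ a * pre Φ φ y →
      b * hd Φ d φ Z y * b⁻¹ * lst Φ d φ Z x ≠ lst Φ d φ Z x * (b * hd Φ d φ Z y * b⁻¹)) ∨
    (x.1 ∈ Φ.En ∧ y.1 ∈ Φ.En ∧ x.2 = false ∧ y.2 = true ∧ x.1 ≠ y.1 ∧
      a * d y.1 * a⁻¹ = d x.1) := by
  obtain ⟨e, s⟩ := x
  obtain ⟨e', s'⟩ := y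
  have hδ : ∀ e ∈ Φ.En, (Φ.γ e)⁻¹ * d e * Φ.γ e ≠ 1 := fun e he h =>
    (hd1 e he).1 (by
      calc d e = Φ.γ e * ((Φ.γ e)⁻¹ * d e * Φ.γ e) * (Φ.γ e)⁻¹ := by group
        _ = 1 := by rw [h]; group)
  by_cases he : e ∈ Φ.En <;> by_cases he' : e' ∈ Φ.En
  · cases s <;> cases s'
    · exact absurd (hΦ.grp.symm _ _ _ ha) (hΦ.bip e' he' e he _)
    · by_cases hc : a * d e' * a⁻¹ * d e = d e * (a * d e' * a⁻¹)
      · refine Or.inr ⟨he, he', rfl, rfl, ?_, hd2 e he e' he' a ha hc⟩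
        rintro (rfl : e = e')
        have h1 := hd2 e he e he a ha hc
        refine hp ⟨rfl, rfl, Or.inr ⟨he, hΦ.ct e he _ (by
          show Φ.E _ _ (Φ.γ e * ((Φ.γ e)⁻¹ * a * Φ.γ e) * (Φ.γ e)⁻¹)
          rw [show Φ.γ e * ((Φ.γ e)⁻¹ * a * Φ.γ e) * (Φ.γ e)⁻¹ = a by group]
          exact ha) (hG.ct _ _ _ (hδ e he) ?_ (hd1 e he).2.2.2)⟩⟩
        calc (Φ.γ e)⁻¹ * d e * Φ.γ e * ((Φ.γ e)⁻¹ * a * Φ.γ e)
            = (Φ.γ e)⁻¹ * (a * d e * a⁻¹) * a * Φ.γ e := by rw [h1]; group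
          _ = _ := by simp only [cond]; group
      · refine Or.inl ⟨{a * d e' * a⁻¹ * d e * (d e * (a * d e' * a⁻¹))⁻¹}, fun q hq => ?_,
          fun φ Z h b hb => ?_⟩
        · rw [Finset.mem_singleton.1 hq]
          exact fun e => hc (mul_inv_eq_one.1 e)
        · have := ne_of_comm (h.ne _ (Finset.mem_singleton_self _))
          simp only [hb, hd, lst, pre, post, if_pos he, if_pos he', cond, one_mul, mul_one]
          simpa only [map_mul, map_inv] using this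
    · obtain ⟨β, hβ⟩ : ∃ β, β = Φ.γ e * a * (Φ.γ e')⁻¹ := ⟨_, rfl⟩
      have hc : β * d e' * β⁻¹ * d e ≠ d e * (β * d e' * β⁻¹) := by
        intro hc
        have h1 : (Φ.γ e)⁻¹ * d e * Φ.γ e * (a * ((Φ.γ e')⁻¹ * d e' * Φ.γ e') * a⁻¹) =
            a * ((Φ.γ e')⁻¹ * d e' * Φ.γ e') * a⁻¹ * ((Φ.γ e)⁻¹ * d e * Φ.γ e) := by
          calc _ = (Φ.γ e)⁻¹ * (d e * (β * d e' * β⁻¹)) * Φ.γ e := by rw [hβ]; group
            _ = (Φ.γ e)⁻¹ * (β * d e' * β⁻¹ * d e) * Φ.γ e := by rw [hc]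
            _ = _ := by rw [hβ]; group
        have h2 := hG.ct _ _ _ (hδ e he) h1 (hd1 e he).2.2.2
        have h3 : a * ((Φ.γ e')⁻¹ * d e' * Φ.γ e') * a⁻¹ * (a * Φ.ce e' * a⁻¹) =
            a * Φ.ce e' * a⁻¹ * (a * ((Φ.γ e')⁻¹ * d e' * Φ.γ e') * a⁻¹) := by
          calc _ = a * ((Φ.γ e')⁻¹ * d e' * Φ.γ e' * Φ.ce e') * a⁻¹ := by group
            _ = a * (Φ.ce e' * ((Φ.γ e')⁻¹ * d e' * Φ.γ e')) * a⁻¹ := by
              rw [(hd1 e' he').2.2.2]
            _ = _ := by group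
        have h4 := hG.ct _ _ _ (by simpa using hδ e' he') h3 h2
        by_cases hee : e = e'
        · subst hee
          exact hp ⟨rfl, rfl, Or.inr ⟨he, hΦ.cs e he a ha (csa hG (hΦ.grp.ce e he).1 h4)⟩⟩
        · exact hΦ.far e he e' he' a hee ha h4
      refine Or.inl ⟨{β * d e' * β⁻¹ * d e * (d e * (β * d e' * β⁻¹))⁻¹}, fun q hq => ?_,
        fun φ Z h b hb => ?_⟩
      · rw [Finset.mem_singleton.1 hq]
        exact fun e => hc (mul_inv_eq_one.1 e)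
      · have := ne_of_comm (h.ne _ (Finset.mem_singleton_self _))
        have hb' : b = φ β := by
          simp only [hb, hβ, pre, post, if_pos he, if_pos he', cond, map_mul, map_inv]
        simp only [hb', hd, lst, if_pos he, if_pos he']
        simpa only [map_mul, map_inv] using this
    · exact absurd ha (hΦ.bip e he e' he' _)
  · refine Or.inl ⟨∅, by simp, fun φ Z h b _ => ?_⟩
    simp only [hd, lst, if_pos he, if_neg he']
    exact h.fd _ hy e he b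
  · refine Or.inl ⟨∅, by simp, fun φ Z h b _ => ?_⟩
    simp only [hd, lst, if_neg he, if_pos he']
    exact far_symm (h.fd (e, !s) hx e' he') b
  · by_cases hxy : (e', s') = (e, !s)
    · obtain ⟨rfl, rfl⟩ := Prod.mk.inj hxy
      have h1 : a ≠ 1 := by
        rintro rfl
        exact hp ⟨rfl, rfl, Or.inl (by cases s <;> simp)⟩
      refine Or.inl ⟨{a}, by simpa using h1, fun φ Z h b hb hc => ?_⟩
      simp only [hb, hd, lst, pre, post, if_neg he, one_mul, mul_one] at hc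
      have h2 := csa (ct_free _) (h.zne (e', !s) hx) hc
      exact h.fq (e', !s) hx a (Finset.mem_singleton_self _) 1 (by simpa using h2.symm)
    · refine Or.inl ⟨∅, by simp, fun φ Z h b _ => ?_⟩
      simp only [hd, lst, if_neg he, if_neg he']
      exact h.fz (e', s') (e, !s) hy hx hxy b

lemma rp_mem {x z : I × Bool} {g : G} (h : Φ.RP x z g) : x.1 ∈ Φ.Ls := by
  cases h with
  | one _ h => exact h
  | cons _ _ _ _ _ h => exact h

lemma sv_std {Ψ : G →* F2} {y u : I → F2} {x : I × Bool}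
    (h : u x.1 = y (Φ.t x.1) * Ψ (Φ.γ x.1) * (y (Φ.s x.1))⁻¹) :
    sv u x = y (Φ.lt x) * Ψ (Φ.ll x) * (y (Φ.rt x))⁻¹ := by
  obtain ⟨l, _ | _⟩ := x
  · simp only [sv, Frm.lt, Frm.rt, Frm.ll, cond, h, map_inv]
    group
  · exact h

lemma path (hG : CT G) (hΦ : Φ.Good)
    (hd1 : ∀ e ∈ Φ.En, d e ≠ 1 ∧ Φ.Ce e ((Φ.γ e)⁻¹ * d e * Φ.γ e))
    (hd2 : ∀ e ∈ Φ.En, ∀ e' ∈ Φ.En, ∀ z, Φ.E (Φ.t e) (Φ.t e') z →
      z * d e' * z⁻¹ * d e = d e * (z * d e' * z⁻¹) → z * d e' * z⁻¹ = d e)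
    (hμ : ∀ e ∈ Φ.En, μ e ≠ 0) (hμ' : ∀ e ∈ Φ.En, ∀ e' ∈ Φ.En, μ e = μ e' → e = e')
    {x z : I × Bool} {g : G} (h : Φ.RP x z g) :
    ∃ (W : (G →* F2) → (I → F2) → F2) (Q : Finset G), (∀ q ∈ Q, q ≠ 1) ∧
      (∀ (φ Ψ : G →* F2) (u y : I → F2), (∀ p q g, Φ.E p q g → φ g = y p * Ψ g * (y q)⁻¹) →
        (∀ l ∈ Φ.Ls, u l = y (Φ.t l) * Ψ (Φ.γ l) * (y (Φ.s l))⁻¹) →
        W φ u = y (Φ.lt x) * Ψ g * (y (Φ.rt z))⁻¹) ∧
      ∀ φ Z, Ok Φ d φ Z Q → Iv Φ d μ φ Z x fun M => W φ (uu Φ d μ φ Z M) := by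
  classical
  induction h with
  | one x hx =>
    refine ⟨fun _ u => sv u x, ∅, by simp, fun φ Ψ u y _ h2 => sv_std (h2 _ hx),
      fun φ Z h => close h hμ hx (Tl.nil _ (post Φ φ x) (h.lst_ne hx)) fun M => ?_⟩
    rw [inv_mul_cancel_right]
  | cons x x' z a g hx ha hp hr ih =>
    obtain ⟨W, Q, hQ, h1, h2⟩ := ih
    have h3 : ∀ (φ Ψ : G →* F2) (u y : I → F2),
        (∀ p q g, Φ.E p q g → φ g = y p * Ψ g * (y q)⁻¹) →
        (∀ l ∈ Φ.Ls, u l = y (Φ.t l) * Ψ (Φ.γ l) * (y (Φ.s l))⁻¹) →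
        sv u x * φ a * W φ u = y (Φ.lt x) * Ψ (Φ.ll x * a * g) * (y (Φ.rt z))⁻¹ := by
      intro φ Ψ u y e1 e2
      rw [sv_std (e2 _ hx), e1 _ _ _ ha, h1 φ Ψ u y e1 e2, map_mul, map_mul]
      group
    rcases junc hG hΦ hd1 hd2 hx (rp_mem hr) ha hp with ⟨Q', hQ', h4⟩ | ⟨he, he', s1, s2, hne, h4⟩
    · refine ⟨fun φ u => sv u x * φ a * W φ u, Q ∪ Q', fun q hq => ?_, h3, fun φ Z h => ?_⟩
      · exact (Finset.mem_union.1 hq).elim (hQ q) (hQ' q)
      · obtain ⟨c, hc, R, hR, e, -⟩ := h2 φ Z (h.mono Finset.subset_union_left)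
        refine close h hμ hx (Tl.cons _ _ _ c R (h.lst_ne hx)
          (h4 φ Z (h.mono Finset.subset_union_right) _ rfl) hc hR) fun M => ?_
        simp only [e M]
        group
    · refine ⟨fun φ u => sv u x * φ a * W φ u, Q, hQ, h3, fun φ Z h => ?_⟩
      obtain ⟨c, -, R, hR, e, hc⟩ := h2 φ Z h
      obtain rfl := hc he' s2
      have h5 : φ (d x.1) = φ a * φ (d x'.1) * (φ a)⁻¹ := by rw [← h4, map_mul, map_mul, map_inv]
      simp only [hd, pre, if_pos he', s2, cond, one_mul] at hR e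
      refine ⟨μ x'.1 - μ x.1, sub_ne_zero.2 fun e => hne (hμ' _ he _ he' e.symm),
        fun M => φ a * R M, ?_, fun M => ?_, fun _ e => absurd (s1.symm.trans e) (by simp)⟩
      · simp only [hd, if_pos he, h5]
        exact hR.conj _
      · simp only [hd, pre, sv, uu, if_pos he, s1, cond, e M, h5, conj_zpow]
        group

end NfP

open NfP in
theorem nf (h1 : CohStmt) (h2 : BaumStmt) (h3 : GenfStmt) : NfStmt := by
  classical
  intro G Ω I _ Φ hG hD hΦ x z g hr hE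
  obtain ⟨d, hd1, hd2⟩ := h1 G Ω I Φ hG hΦ
  obtain ⟨ν, hν⟩ := Set.countable_iff_exists_injOn.1 Φ.En.countable_toSet
  obtain ⟨W, Q, hQ, e1, e2⟩ := path (μ := fun l => (ν l : ℤ) + 1) hG hΦ hd1 hd2
    (fun e _ => by omega) (fun e he e' he' h => hν he he' (by omega)) hr
  obtain ⟨φ, hφ⟩ := hD (Q ∪ Φ.En.image d) (fun q hq => by
    rcases Finset.mem_union.1 hq with hq | hq
    · exact hQ q hq
    · obtain ⟨e, he, rfl⟩ := Finset.mem_image.1 hq
      exact (hd1 e he).1)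
  obtain ⟨Z, z1, z2⟩ := exists_gen h3 (Φ.Ls ×ˢ (Finset.univ : Finset Bool))
    ((Q ∪ Φ.En.image d).image φ) (fun q hq => by
      obtain ⟨q', hq', rfl⟩ := Finset.mem_image.1 hq
      exact hφ q' hq')
  have m1 : ∀ x : I × Bool, x.1 ∈ Φ.Ls → x ∈ Φ.Ls ×ˢ (Finset.univ : Finset Bool) := fun x hx =>
    Finset.mem_product.2 ⟨hx, Finset.mem_univ _⟩
  have m2 : ∀ e ∈ Φ.En, d e ∈ Q ∪ Φ.En.image d := fun e he =>
    Finset.mem_union_right _ (Finset.mem_image_of_mem _ he)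
  obtain ⟨c, hc, R, hR, e, -⟩ := e2 φ Z
    ⟨fun q hq => hφ q (Finset.mem_union_left _ hq), fun e he => hφ _ (m2 e he),
      fun x hx => (z1 x (m1 x hx)).1,
      fun x hx q hq => (z1 x (m1 x hx)).2 _
        (Finset.mem_image_of_mem _ (Finset.mem_union_left _ hq)),
      fun x hx e he => (z1 x (m1 x hx)).2 _ (Finset.mem_image_of_mem _ (m2 e he)),
      fun x y hx hy => z2 x (m1 x hx) y (m1 y hy)⟩
  obtain ⟨M, hM⟩ := hR.ne h2 (pre Φ φ x) (φ g) hc
  obtain ⟨Ψ, y, s1, s2⟩ := hΦ.ext (fun _ _ g => φ g) (uu Φ d (fun l => (ν l : ℤ) + 1) φ Z M)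
    ⟨fun _ _ _ _ _ _ _ => map_mul φ _ _, fun e he a ha => by
      have c1 := hG.ct _ _ _ (hΦ.grp.ce e he).1 ha.2.2.symm (hd1 e he).2.2.2.symm
      have c2 : Commute (φ (d e)) (φ (Φ.γ e * a * (Φ.γ e)⁻¹)) := by
        refine Commute.map (?_ : d e * _ = _ * d e) φ
        calc d e * (Φ.γ e * a * (Φ.γ e)⁻¹)
            = Φ.γ e * ((Φ.γ e)⁻¹ * d e * Φ.γ e * a) * (Φ.γ e)⁻¹ := by group
          _ = Φ.γ e * (a * ((Φ.γ e)⁻¹ * d e * Φ.γ e)) * (Φ.γ e)⁻¹ := by rw [c1]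
          _ = _ := by group
      simp only [uu, if_pos he]
      rw [← mul_assoc, ← (c2.zpow_left _).eq, map_mul, map_mul, map_inv]
      group⟩ trivial
  exact hM ((e M).symm.trans ((e1 φ Ψ _ y s1 s2).trans (s1 _ _ _ hE).symm))

end Pool.Agent.MP_494aff_an.Fr

end MrgPart4

-- ======== part 5: formerly Pool.Agent.MP_494aff_an.fr.Pcut
section MrgPart5

/-! Cutting off a pair of pants. -/

namespace Pool.Agent.MP_494aff_an.Fr

open Pool.Agent.MP_494aff_an.Se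

namespace Pcut

variable {G Ω I : Type} [Group G]

/-- The letters in `M` are moved from `b` to the new vertex `w`; `v` is a new cyclic vertex. -/
structure Mv (Φ Φ' : Frm G Ω I) (b w v z e : I) (M : List I) (c : G) : Prop where
  gp : Φ.Grp
  hb : b ∈ Φ.Vs
  hw : w ∉ Φ.Vs
  hv : v ∉ Φ.Vs
  wv : w ≠ v
  hz : z ∉ Φ.Ls
  he : e ∉ Φ.Ls
  vs : ∀ p, p ∈ Φ'.Vs ↔ p = w ∨ p = v ∨ p ∈ Φ.Vs
  ls : ∀ l, l ∈ Φ'.Ls ↔ l = z ∨ l = e ∨ l ∈ Φ.Ls
  en : Φ'.En = Φ.En
  ce : Φ'.ce = Φ.ce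
  om : Φ'.ω = Φ.ω
  ar : ∀ p q g, Φ'.E p q g ↔ Φ.E p q g ∨ (p = w ∧ q = w ∧ g = 1) ∨
    (p = v ∧ q = v ∧ g ∈ Subgroup.zpowers c)
  kw : Φ'.kd w = Kd.E
  kv : Φ'.kd v = Kd.A
  ko : ∀ p ∈ Φ.Vs, Φ'.kd p = Φ.kd p
  lz : Φ'.t z = v ∧ Φ'.s z = b ∧ Φ'.γ z = 1
  le : Φ'.t e = v ∧ Φ'.s e = w ∧ Φ'.γ e = 1
  lo : ∀ l ∈ Φ.Ls, l ∉ M → Φ'.t l = Φ.t l ∧ Φ'.s l = Φ.s l
  go : ∀ l ∈ Φ.Ls, Φ'.γ l = Φ.γ l
  lm : ∀ l ∈ M, l ∈ Φ.Ls ∧ l ∉ Φ.En ∧ Φ.s l = b ∧ Φ'.s l = w ∧
    (Φ.t l = b → Φ'.t l = w) ∧ (Φ.t l ≠ b → Φ'.t l = Φ.t l)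

lemma exists_mv [DecidableEq I] [Infinite I] (Φ : Frm G Ω I) (hG : Φ.Grp) {b : I}
    (hb : b ∈ Φ.Vs) (M : List I) (hM : ∀ l ∈ M, l ∈ Φ.Ls ∧ l ∉ Φ.En ∧ Φ.s l = b) (c : G) :
    ∃ Φ' w v z e, z ≠ e ∧ Mv Φ Φ' b w v z e M c := by
  obtain ⟨w, hw⟩ := Infinite.exists_notMem_finset Φ.Vs
  obtain ⟨v, hv⟩ := Infinite.exists_notMem_finset (insert w Φ.Vs)
  obtain ⟨z, hz⟩ := Infinite.exists_notMem_finset Φ.Ls
  obtain ⟨e, he⟩ := Infinite.exists_notMem_finset (insert z Φ.Ls)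
  rw [Finset.mem_insert, not_or] at hv he
  have nz : ∀ l ∈ Φ.Ls, l ≠ z := fun l hl h => hz (h ▸ hl)
  have ne : ∀ l ∈ Φ.Ls, l ≠ e := fun l hl h => he.2 (h ▸ hl)
  refine ⟨{ Φ with
    Vs := insert w (insert v Φ.Vs)
    Ls := insert z (insert e Φ.Ls)
    s := fun l => if l = z then b else if l = e ∨ l ∈ M then w else Φ.s l
    t := fun l => if l = z ∨ l = e then v else if l ∈ M ∧ Φ.t l = b then w else Φ.t l
    γ := fun l => if l = z ∨ l = e then 1 else Φ.γ l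
    E := fun p q g => Φ.E p q g ∨ (p = w ∧ q = w ∧ g = 1) ∨
      (p = v ∧ q = v ∧ g ∈ Subgroup.zpowers c)
    kd := fun p => if p = w then Kd.E else if p = v then Kd.A else Φ.kd p },
    w, v, z, e, fun h => he.1 h.symm, hG, hb, hw, hv.2, fun h => hv.1 h.symm, hz, he.2,
    fun p => by simp, fun l => by simp, rfl, rfl, rfl, fun _ _ _ => Iff.rfl, by simp,
    by simp [hv.1], fun p hp => ?_, by simp, by simp [he.1], fun l hl hm => ?_, fun l hl => ?_,
    fun l hl => ?_⟩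
  · have h1 : p ≠ w := fun h => hw (h ▸ hp)
    have h2 : p ≠ v := fun h => hv.2 (h ▸ hp)
    simp [h1, h2]
  · simp [nz l hl, ne l hl, hm]
  · simp [nz l hl, ne l hl]
  · obtain ⟨h1, h2, h3⟩ := hM l hl
    refine ⟨h1, h2, h3, by simp [nz l h1, hl], fun h => ?_, fun h => ?_⟩
    · simp [nz l h1, ne l h1, hl, h]
    · simp [nz l h1, ne l h1, h]

namespace Mv

variable {Φ Φ' : Frm G Ω I} {b w v z e : I} {M : List I} {c : G}
  (h : Mv Φ Φ' b w v z e M c)
include h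

lemma mono {p q : I} {g : G} (a : Φ.E p q g) : Φ'.E p q g := (h.ar _ _ _).2 (Or.inl a)

lemma old {p q : I} {g : G} (hp : p ∈ Φ.Vs) (a : Φ'.E p q g) : Φ.E p q g := by
  rcases (h.ar _ _ _).1 a with a | a | a
  · exact a
  · exact absurd (a.1 ▸ hp) h.hw
  · exact absurd (a.1 ▸ hp) h.hv

lemma arw {q : I} {g : G} (a : Φ'.E w q g) : q = w ∧ g = 1 := by
  rcases (h.ar _ _ _).1 a with a | a | a
  · exact absurd (h.gp.mem _ _ _ a).1 h.hw
  · exact a.2
  · exact absurd a.1 h.wv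

lemma arv {q : I} {g : G} (a : Φ'.E v q g) : q = v ∧ g ∈ Subgroup.zpowers c := by
  rcases (h.ar _ _ _).1 a with a | a | a
  · exact absurd (h.gp.mem _ _ _ a).1 h.hv
  · exact absurd a.1.symm h.wv
  · exact a.2

lemma vv {g : G} (a : g ∈ Subgroup.zpowers c) : Φ'.E v v g :=
  (h.ar _ _ _).2 (Or.inr (Or.inr ⟨rfl, rfl, a⟩))

lemma ww : Φ'.E w w 1 := (h.ar _ _ _).2 (Or.inr (Or.inl ⟨rfl, rfl, rfl⟩))

lemma ends {l : I} (hl : l ∈ Φ.En) : Φ'.t l = Φ.t l ∧ Φ'.s l = Φ.s l ∧ Φ'.γ l = Φ.γ l :=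
  have := h.lo l (h.gp.en hl) fun m => (h.lm l m).2.1 hl
  ⟨this.1, this.2, h.go l (h.gp.en hl)⟩

lemma cemono {l : I} (hl : l ∈ Φ.En) {a : G} (ha : Φ.Ce l a) : Φ'.Ce l a := by
  obtain ⟨e1, e2, e3⟩ := h.ends hl
  unfold Frm.Ce
  rw [e1, e2, e3, h.ce]
  exact ⟨h.mono ha.1, h.mono ha.2.1, ha.2.2⟩

lemma grp : Φ'.Grp where
  refl p hp := by
    rcases (h.vs p).1 hp with rfl | rfl | hp
    · exact h.ww
    · exact h.vv (one_mem _)
    · exact h.mono (h.gp.refl p hp)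
  symm p q g a := by
    rcases (h.ar _ _ _).1 a with a | ⟨rfl, rfl, rfl⟩ | ⟨rfl, rfl, m⟩
    · exact h.mono (h.gp.symm _ _ _ a)
    · simpa using h.ww
    · exact h.vv (inv_mem m)
  trans p q r g g' a a' := by
    rcases (h.ar _ _ _).1 a with a | ⟨rfl, rfl, rfl⟩ | ⟨rfl, rfl, m⟩
    · exact h.mono (h.gp.trans _ _ _ _ _ a (h.old (h.gp.mem _ _ _ a).2 a'))
    · simpa using a'
    · obtain ⟨rfl, m'⟩ := h.arv a'
      exact h.vv (mul_mem m m')
  mem p q g a := by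
    rw [h.vs, h.vs]
    rcases (h.ar _ _ _).1 a with a | a | a
    · exact ⟨Or.inr (Or.inr (h.gp.mem _ _ _ a).1), Or.inr (Or.inr (h.gp.mem _ _ _ a).2)⟩
    · exact ⟨Or.inl a.1, Or.inl a.2.1⟩
    · exact ⟨Or.inr (Or.inl a.1), Or.inr (Or.inl a.2.1)⟩
  ne := ⟨w, (h.vs w).2 (Or.inl rfl)⟩
  st l hl := by
    rw [h.vs, h.vs]
    rcases (h.ls l).1 hl with rfl | rfl | hl
    · rw [h.lz.1, h.lz.2.1]
      exact ⟨Or.inr (Or.inr h.hb), Or.inr (Or.inl rfl)⟩
    · rw [h.le.1, h.le.2.1]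
      exact ⟨Or.inl rfl, Or.inr (Or.inl rfl)⟩
    · by_cases m : l ∈ M
      · obtain ⟨_, _, _, a1, a2, a3⟩ := h.lm l m
        refine ⟨Or.inl a1, ?_⟩
        by_cases t : Φ.t l = b
        · exact Or.inl (a2 t)
        · exact Or.inr (Or.inr (a3 t ▸ (h.gp.st l hl).2))
      · rw [(h.lo l hl m).1, (h.lo l hl m).2]
        exact ⟨Or.inr (Or.inr (h.gp.st l hl).1), Or.inr (Or.inr (h.gp.st l hl).2)⟩
  en l hl := (h.ls l).2 (Or.inr (Or.inr (h.gp.en (h.en ▸ hl))))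
  ce l hl := by
    rw [h.en] at hl
    rw [h.ce]
    exact ⟨(h.gp.ce l hl).1, h.cemono hl (h.gp.ce l hl).2⟩

lemma val [MulAction G Ω] (hV : Φ.Val) : Φ'.Val where
  grp := h.grp
  kE p q g a k := by
    rcases (h.ar _ _ _).1 a with a | ⟨rfl, rfl, rfl⟩ | ⟨rfl, rfl, a⟩
    · rw [h.ko p (h.gp.mem _ _ _ a).1] at k
      rw [h.ko q (h.gp.mem _ _ _ a).2, h.om]
      exact hV.kE p q g a k
    · exact ⟨k, one_smul _ _⟩
    · rw [h.kv] at k
      cases k
  iso p q g a k := by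
    rcases (h.ar _ _ _).1 a with a | a | a
    · exact hV.iso p q g a (h.ko p (h.gp.mem _ _ _ a).1 ▸ k)
    · exact a.1.trans a.2.1.symm
    · exact a.1.trans a.2.1.symm
  ab p g g' k a a' := by
    rcases (h.ar _ _ _).1 a with a | ⟨rfl, -, rfl⟩ | ⟨rfl, -, a⟩
    · have hp := (h.gp.mem _ _ _ a).1
      exact hV.ab p g g' (h.ko p hp ▸ k) a (h.old hp a')
    · simp
    · obtain ⟨i, rfl⟩ := a
      obtain ⟨j, rfl⟩ := (h.arv a').2
      exact zpow_mul_comm c i j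
  kend l hl := by
    rw [h.en] at hl
    obtain ⟨e1, e2, -⟩ := h.ends hl
    have := h.gp.st l (h.gp.en hl)
    rw [e1, e2, h.ko _ this.1, h.ko _ this.2]
    exact hV.kend l hl
  pan p hp k := by
    rcases (h.vs p).1 hp with rfl | rfl | hp
    · rw [h.kw] at k
      cases k
    · rw [h.kv] at k
      cases k
    obtain ⟨S, c₀, c₁, sl, P⟩ := hV.pan p hp (h.ko p hp ▸ k)
    refine ⟨S, c₀, c₁, sl, P.m0, P.m1, P.nc, P.two, P.ab,
      fun g => ⟨fun a => (P.grp g).1 (h.old hp a), fun a => h.mono ((P.grp g).2 a)⟩,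
      fun l hl l' hl' => ?_, fun l hl => ?_, fun l hl => ?_, fun l hl => ?_⟩
    · rw [h.en] at hl hl'
      rw [(h.ends hl).2.1, (h.ends hl').2.1]
      exact P.inj l hl l' hl'
    · rw [h.en] at hl
      rw [(h.ends hl).2.1, h.ce]
      exact P.mem l hl
    · rw [h.en] at hl
      obtain ⟨e1, e2, e3⟩ := h.ends hl
      rw [e1, e2, e3]
      exact fun s a ha => h.mono (P.le l hl s a ha)
    · rw [h.en] at hl
      obtain ⟨e1, e2, e3⟩ := h.ends hl
      have ht := (h.gp.st l (h.gp.en hl)).2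
      rw [e1, e2, e3, h.ko _ ht]
      exact fun s s2 => ⟨(P.inn l hl s s2).1, fun x a => (P.inn l hl s s2).2 x (h.old ht a)⟩

lemma gen (hg : Φ.Gen) : Φ'.Gen := by
  intro Y h1 h2
  have hv : ∀ g, Y b g ↔ Y v g := fun g => by
    simpa [h.lz.1, h.lz.2.1, h.lz.2.2] using h2 z ((h.ls z).2 (Or.inl rfl)) g
  have hw : ∀ g, Y w g ↔ Y b g := fun g => by
    rw [hv]
    simpa [h.le.1, h.le.2.1, h.le.2.2] using h2 e ((h.ls e).2 (Or.inr (Or.inl rfl))) g
  have key := hg Y (fun p q a g e => h1 p q a g (h.mono e)) fun l hl g => by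
    have := h2 l ((h.ls l).2 (Or.inr (Or.inr hl))) g
    rw [h.go l hl] at this
    by_cases m : l ∈ M
    · obtain ⟨_, _, a0, a1, a2, a3⟩ := h.lm l m
      rw [a1, hw] at this
      rw [a0, this]
      by_cases t : Φ.t l = b
      · rw [a2 t, t, hw]
      · rw [a3 t]
    · rwa [(h.lo l hl m).1, (h.lo l hl m).2] at this
  have pr : ∀ p ∈ Φ'.Vs, ∃ q ∈ Φ.Vs, ∀ g, Y p g ↔ Y q g := fun p hp => by
    rcases (h.vs p).1 hp with rfl | rfl | hp
    · exact ⟨b, h.hb, hw⟩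
    · exact ⟨b, h.hb, fun g => (hv g).symm⟩
    · exact ⟨p, hp, fun _ => Iff.rfl⟩
  intro p hp q hq g g' a
  obtain ⟨p', hp', e1⟩ := pr p hp
  obtain ⟨q', hq', e2⟩ := pr q hq
  exact (e2 g').2 (key p' hp' q' hq' g g' ((e1 g).1 a))

lemma fre {l p q : I} {g : G} (m : l ∉ M) (a : Φ.Fre l p q g) : Φ'.Fre l p q g :=
  ⟨(h.ls l).2 (Or.inr (Or.inr a.1)), h.en ▸ a.2.1, (h.lo l a.1 m).1.trans a.2.2.1,
    (h.lo l a.1 m).2.trans a.2.2.2.1, (h.go l a.1).trans a.2.2.2.2⟩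

lemma keep {Y : Set I} (hY : ∀ l ∈ Y, l ∉ M) (b' : I) : Φ.Keep Φ' b' Y where
  vs p hp := (h.vs p).2 (Or.inr (Or.inr hp))
  mono _ _ _ := h.mono
  kd p hp _ := h.ko p hp
  iso _ hp _ _ _ _ := h.old hp
  triv _ hp _ t q g a := t q g (h.old hp a)
  fre l hl _ _ _ := h.fre (hY l hl)

lemma frz : Φ'.Fre z v b 1 :=
  ⟨(h.ls z).2 (Or.inl rfl), fun a => h.hz (h.gp.en (h.en ▸ a)), h.lz⟩

lemma frw : Φ'.Fre e v w 1 :=
  ⟨(h.ls e).2 (Or.inr (Or.inl rfl)), fun a => h.he (h.gp.en (h.en ▸ a)), h.le⟩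

lemma btv {x p : I} {d : G} (hx : Φ'.Fre x v p 1) (h1 : d ≠ 1)
    (h2 : Subgroup.zpowers d = Subgroup.zpowers c) : Φ'.BT p (.bd true x v 1 d) :=
  ⟨hx, h.vv (h2 ▸ Subgroup.mem_zpowers d), fun k => by simp at k,
    fun _ => ⟨h.kv, h1, fun g => ⟨fun a => h2 ▸ (h.arv a).2, fun a => h.vv (h2 ▸ a)⟩⟩⟩

/-- A moved block. -/
lemma btm (hb : Φ.Triv b) {B : Bl G I} (hB : Φ.BT b B) (hd : ¬ B.IsHd) (hl : B.lab ≠ 1)
    (hM : ∀ l ∈ B.lets, l ∈ M) : Φ'.BT w B := by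
  cases B with
  | cr m g =>
    obtain ⟨a1, a2, -, a4, a5, -⟩ := h.lm m (hM m (by simp [Bl.lets]))
    exact ⟨(h.ls m).2 (Or.inr (Or.inr a1)), h.en ▸ a2, a5 hB.2.2.1, a4,
      (h.go m a1).trans hB.2.2.2.2⟩
  | hd => exact absurd trivial hd
  | bd k x p g d =>
    obtain ⟨a1, a2, -, a4, -, a6⟩ := h.lm x (hM x (by simp [Bl.lets]))
    obtain ⟨b1, b2, b3, b4⟩ := hB
    have hp := (h.gp.mem _ _ _ b2).1
    have pb : Φ.t x ≠ b := fun t => hl (by
      have := (hb p d ((b1.2.2.1.symm.trans t) ▸ b2)).2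
      simp [Bl.lab, this])
    refine ⟨⟨(h.ls x).2 (Or.inr (Or.inr a1)), h.en ▸ a2, (a6 pb).trans b1.2.2.1, a4,
      (h.go x a1).trans b1.2.2.2.2⟩, h.mono b2, fun k => ?_, fun k => ?_⟩
    · rw [h.ko p hp]
      exact b3 k
    · rw [h.ko p hp]
      exact ⟨(b4 k).1, (b4 k).2.1, fun y => ⟨fun a => ((b4 k).2.2 y).1 (h.old hp a),
        fun a => h.mono (((b4 k).2.2 y).2 a)⟩⟩

/-- Solutions restrict to the old frame. -/
lemma sol {ψ : I → I → G → F2} {u u' : I → F2} (hs : Φ'.Sol ψ u') (hu : ∀ l ∉ M, u l = u' l) :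
    Φ.Sol ψ u where
  fn p q r g g' a a' := hs.fn p q r g g' (h.mono a) (h.mono a')
  sq l hl a ha := by
    have := hs.sq l (h.en ▸ hl) a (h.cemono hl ha)
    obtain ⟨e1, e2, e3⟩ := h.ends hl
    rw [e1, e2, e3] at this
    rw [hu l fun m => (h.lm l m).2.1 hl]
    exact this

lemma std [DecidableEq I] {ψ : I → I → G → F2} {u u' : I → F2} (hs : Φ'.Sol ψ u')
    (hu : ∀ l ∉ M, u l = u' l)
    (h1 : ∀ l ∈ M, Φ.t l = b → u l = ((u' e)⁻¹ * u' z)⁻¹ * u' l * ((u' e)⁻¹ * u' z))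
    (h2 : ∀ l ∈ M, Φ.t l ≠ b → u l = u' l * ((u' e)⁻¹ * u' z)) {Ψ : G →* F2} {y : I → F2}
    (y1 : ∀ p q g, Φ.E p q g → ψ p q g = y p * Ψ g * (y q)⁻¹)
    (y2 : ∀ l ∈ Φ.Ls, u l = y (Φ.t l) * Ψ (Φ.γ l) * (y (Φ.s l))⁻¹)
    (hc : (u' z)⁻¹ * ψ v v c * u' z = y b * Ψ c * (y b)⁻¹) : Φ'.Std ψ u' := by
  obtain ⟨y', yw, yv, yo⟩ : ∃ y' : I → F2, y' w = (u' e)⁻¹ * u' z * y b ∧ y' v = u' z * y b ∧
      ∀ p ∈ Φ.Vs, y' p = y p := by
    refine ⟨fun p => if p = w then (u' e)⁻¹ * u' z * y b else if p = v then u' z * y b else y p,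
      by simp, by simp [h.wv.symm], fun p hp => ?_⟩
    have h1 : p ≠ w := fun a => h.hw (a ▸ hp)
    have h2 : p ≠ v := fun a => h.hv (a ▸ hp)
    simp [h1, h2]
  refine ⟨Ψ, y', fun p q g a => ?_, fun l hl => ?_⟩
  · rcases (h.ar _ _ _).1 a with m | ⟨rfl, rfl, rfl⟩ | ⟨rfl, rfl, m⟩
    · rw [yo p (h.gp.mem _ _ _ m).1, yo q (h.gp.mem _ _ _ m).2]
      exact y1 p q g m
    · simp [hs.one a]
    · rw [Subgroup.zpowers_eq_closure] at m
      refine (hs.closure h.grp (h.grp.mem _ _ _ a).1 (S := {c}) ?_ ?_ m).2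
      · rintro _ rfl
        exact h.vv (Subgroup.mem_zpowers _)
      · rintro _ rfl
        rw [yv, mul_assoc (u' z), mul_inv_rev, mul_assoc, ← mul_assoc _ (y b)⁻¹, ← hc]
        group
  · rcases (h.ls l).1 hl with rfl | rfl | hl
    · rw [h.lz.1, h.lz.2.1, h.lz.2.2, yv, yo b h.hb]
      simp
    · rw [h.le.1, h.le.2.1, h.le.2.2, yv, yw]
      simp [mul_assoc]
    · have := y2 l hl
      rw [h.go l hl]
      by_cases m : l ∈ M
      · obtain ⟨_, _, a0, a1, a2, a3⟩ := h.lm l m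
        rw [a0] at this
        rw [a1, yw]
        by_cases t : Φ.t l = b
        · rw [h1 l m t, t] at this
          rw [a2 t, yw, mul_inv_rev _ (y b), mul_assoc _ (y b), mul_assoc,
            ← mul_assoc _ (y b)⁻¹, ← this]
          group
        · rw [h2 l m t] at this
          rw [a3 t, yo _ (h.gp.st l hl).2, mul_inv_rev _ (y b), ← mul_assoc, ← this]
          group
      · rw [(h.lo l hl m).1, (h.lo l hl m).2, yo _ (h.gp.st l hl).1, yo _ (h.gp.st l hl).2,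
          ← hu l m]
        exact this

end Mv

/-- The value of a block under a standard solution. -/
lemma bt_std {Φ : Frm G Ω I} {b : I} {B : Bl G I} (hB : Φ.BT b B) (hd : ¬ B.IsHd)
    {ψ : I → I → G → F2} {u : I → F2} {Ψ : G →* F2} {y : I → F2}
    (y1 : ∀ p q g, Φ.E p q g → ψ p q g = y p * Ψ g * (y q)⁻¹)
    (y2 : ∀ l ∈ Φ.Ls, u l = y (Φ.t l) * Ψ (Φ.γ l) * (y (Φ.s l))⁻¹) :
    B.val ψ u = y b * Ψ B.lab * (y b)⁻¹ := by
  cases B with
  | cr m g =>
    obtain ⟨a1, -, a2, a3, a4⟩ := hB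
    simp [Bl.val, Bl.lab, y2 m a1, a2, a3, a4, mul_assoc]
  | hd => exact absurd trivial hd
  | bd k x p g d =>
    obtain ⟨⟨a1, -, a2, a3, a4⟩, a5, -⟩ := hB
    simp [Bl.val, Bl.lab, y2 x a1, y1 _ _ _ a5, a2, a3, a4, mul_assoc]

lemma val_conj {Φ : Frm G Ω I} {b : I} {B : Bl G I} (hb : Φ.Triv b) (hB : Φ.BT b B)
    (hd : ¬ B.IsHd) (hl : B.lab ≠ 1) {ψ : I → I → G → F2} {u u' : I → F2} {K : F2}
    (h1 : ∀ l ∈ B.lets, Φ.t l = b → u l = K⁻¹ * u' l * K)
    (h2 : ∀ l ∈ B.lets, Φ.t l ≠ b → u l = u' l * K) :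
    B.val ψ u = K⁻¹ * B.val ψ u' * K := by
  cases B with
  | cr m g => simp [Bl.val, h1 m (by simp [Bl.lets]) hB.2.2.1, mul_assoc]
  | hd => exact absurd trivial hd
  | bd k x p g d =>
    have pb : Φ.t x ≠ b := fun t => hl (by
      have := (hb p d ((hB.1.2.2.1.symm.trans t) ▸ hB.2.1)).2
      simp [Bl.lab, this])
    simp [Bl.val, h2 x (by simp [Bl.lets]) pb, mul_assoc]

lemma bt_s {Φ : Frm G Ω I} {b : I} {B : Bl G I} (hB : Φ.BT b B) : ∀ l ∈ B.lets, Φ.s l = b := by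
  cases B with
  | cr m g => simpa [Bl.lets] using hB.2.2.2.1
  | hd a a' g g' => simpa [Bl.lets] using ⟨hB.1.2.2.2.1, hB.2.2.2.2.1⟩
  | bd k x v g c => simpa [Bl.lets] using hB.1.2.2.2.1

end Pcut

open Pcut in
theorem pcut (h : StarPStmt) : PcutStmt := by
  intro G Ω I _ _ _ _ Φ b B₀ B₁ R X C H d0 d1 nc
  have hG := H.ok.val.grp
  have t0 := H.bt B₀ (by simp)
  have t1 := H.bt B₁ (by simp)
  have tR : ∀ B ∈ R, Φ.BT b B := fun B hB => H.bt B (by simp [hB])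
  have l0 : B₀.lab ≠ 1 := fun a => nc (by simp [a])
  have l1 : B₁.lab ≠ 1 := fun a => nc (by simp [a])
  have c1 : B₀.lab * B₁.lab ≠ 1 := fun a => nc (by
    rw [a, eq_inv_of_mul_eq_one_left a, mul_inv_cancel])
  have nd := H.nodup
  have dj := H.disj
  simp only [List.flatMap_cons, ← List.append_assoc] at nd dj
  set M := B₀.lets ++ B₁.lets with hM
  have m0 : ∀ l ∈ B₀.lets, l ∈ M := fun l hl => List.mem_append_left _ hl
  have m1 : ∀ l ∈ B₁.lets, l ∈ M := fun l hl => List.mem_append_right _ hl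
  have hML : ∀ l ∈ M, l ∈ Φ.Ls ∧ l ∉ Φ.En ∧ Φ.s l = b := fun l hl => by
    rcases List.mem_append.1 hl with a | a
    · exact ⟨(t0.lets l a).1, (t0.lets l a).2, bt_s t0 l a⟩
    · exact ⟨(t1.lets l a).1, (t1.lets l a).2, bt_s t1 l a⟩
  obtain ⟨Φ₁, w, v, z, e, ze, m⟩ := exists_mv Φ hG H.mem M hML (B₀.lab * B₁.lab)
  have RL : ∀ l ∈ R.flatMap Bl.lets, l ∈ Φ.Ls ∧ l ∉ M := fun l hl => by
    refine ⟨?_, fun a => (List.nodup_append.1 nd).2.2 l a l hl rfl⟩
    obtain ⟨B, hB, a⟩ := List.mem_flatMap.1 hl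
    exact ((tR B hB).lets l a).1
  have XM : ∀ l ∈ X, l ∉ M := fun l hl a => dj l (List.mem_append_left _ a) hl
  have k1 : Φ.Keep Φ₁ b X := m.keep XM b
  have bw : b ≠ w := fun a => m.hw (a ▸ H.mem)
  have b1 : b ∈ Φ₁.Vs := k1.vs H.mem
  have tw : Φ₁.Triv w := fun _ _ => m.arw
  set Z : Bl G I := .bd true z v 1 (B₀.lab * B₁.lab) with hZ
  have tZ : ∀ B ∈ Z :: R, Φ₁.BT b B := fun B hB => by
    rcases List.mem_cons.1 hB with rfl | hB
    · exact m.btv m.frz c1 rfl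
    · exact (m.keep (Y := {l | l ∉ M}) (fun _ a => a) b).bt hG H.triv (tR B hB)
        fun l hl => (RL l (List.mem_flatMap.2 ⟨B, hB, hl⟩)).2
  have blk : Φ₁.Blk w [B₀, B₁, .bd true e v 1 (B₀.lab * B₁.lab)⁻¹]
      (X ∪ {l | l ∈ (Z :: R).flatMap Bl.lets})
      fun ψ u => ((Z :: R).map (Bl.val ψ u)).prod = 1 ∧ C ψ u := by
    refine ⟨⟨m.val H.ok.val, m.gen H.ok.gen, ?_⟩, ⟨fun l hl => ?_, ?_⟩, (m.vs w).2 (Or.inl rfl),
      m.kw, tw, ?_, ?_, ?_, by simp [Bl.lab, ← mul_assoc]⟩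
    · rintro ψ u' hs ⟨r1, r2, r3⟩
      obtain ⟨K, hK⟩ : ∃ K, K = (u' e)⁻¹ * u' z := ⟨_, rfl⟩
      obtain ⟨u, u0, u1, u2⟩ : ∃ u : I → F2, (∀ l ∉ M, u l = u' l) ∧
          (∀ l ∈ M, Φ.t l = b → u l = K⁻¹ * u' l * K) ∧ ∀ l ∈ M, Φ.t l ≠ b → u l = u' l * K :=
        ⟨fun l => if l ∈ M then if Φ.t l = b then K⁻¹ * u' l * K else u' l * K else u' l,
          fun l a => by simp [a], fun l a t => by simp [a, t], fun l a t => by simp [a, t]⟩
      have v0 := val_conj H.triv t0 d0 l0 (ψ := ψ) (fun l a => u1 l (m0 l a))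
        fun l a => u2 l (m0 l a)
      have v1 := val_conj H.triv t1 d1 l1 (ψ := ψ) (fun l a => u1 l (m1 l a))
        fun l a => u2 l (m1 l a)
      have iv := hs.inv m.grp (m.vv (Subgroup.mem_zpowers (B₀.lab * B₁.lab)))
      have key : B₀.val ψ u * B₁.val ψ u = (u' z)⁻¹ * ψ v v (B₀.lab * B₁.lab) * u' z := by
        simp only [List.map_cons, List.map_nil, List.prod_cons, List.prod_nil, mul_one] at r1
        rw [← mul_assoc, mul_eq_one_iff_eq_inv] at r1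
        calc B₀.val ψ u * B₁.val ψ u = K⁻¹ * (B₀.val ψ u' * B₁.val ψ u') * K := by
              rw [v0, v1]; group
          _ = _ := by
              rw [r1, hK]
              simp only [Bl.val]
              rw [iv]
              group
      have vR : R.map (Bl.val ψ u) = R.map (Bl.val ψ u') :=
        List.map_congr_left fun B hB => Bl.val_congr (fun _ _ _ _ _ _ => rfl)
          fun l hl => u0 l (RL l (List.mem_flatMap.2 ⟨B, hB, hl⟩)).2
      obtain ⟨Ψ, y, y1, y2⟩ := H.ok.ext ψ u (m.sol hs u0) ⟨by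
        simp only [List.map_cons, List.prod_cons] at r2 ⊢
        rw [← mul_assoc, key, vR]
        exact r2, H.dep.2 ψ u' ψ u (fun _ _ _ _ => rfl) (fun l hl => (u0 l (XM l hl)).symm) r3⟩
      subst hK
      refine m.std hs u0 u1 u2 y1 y2 ?_
      rw [← key, bt_std t0 d0 y1 y2, bt_std t1 d1 y1 y2]
      simp [mul_assoc]
    · rcases hl with hl | hl
      · exact (k1.dep H.dep).1 l hl
      · obtain ⟨B, hB, a⟩ := List.mem_flatMap.1 hl
        exact (tZ B hB).lets l a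
    · rintro ψ u ψ' u' a1 a2 ⟨r1, r2⟩
      refine ⟨?_, (k1.dep H.dep).2 ψ u ψ' u' a1 (fun l hl => a2 l (Or.inl hl)) r2⟩
      rw [← r1]
      exact congrArg List.prod (List.map_congr_left fun B hB => ((tZ B hB).val_congr a1
        fun l hl => a2 l (Or.inr (List.mem_flatMap.2 ⟨B, hB, hl⟩))).symm)
    · intro B hB
      simp only [List.mem_cons, List.not_mem_nil, or_false] at hB
      rcases hB with rfl | rfl | rfl
      · exact m.btm H.triv t0 d0 l0 m0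
      · exact m.btm H.triv t1 d1 l1 m1
      · exact m.btv m.frw (inv_ne_one.2 c1) Subgroup.zpowers_inv
    · simp only [List.flatMap_cons, List.flatMap_nil, List.append_nil, ← List.append_assoc]
      refine List.nodup_append.2 ⟨(List.nodup_append.1 nd).1, by simp [Bl.lets], ?_⟩
      intro l hl l' hl' a
      simp only [Bl.lets, List.mem_singleton] at hl'
      exact m.he (hl' ▸ a ▸ (hML l hl).1)
    · simp only [List.flatMap_cons, List.flatMap_nil, List.append_nil, ← List.append_assoc]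
      intro l hl a
      have hl : l ∈ M ∨ l = e := by simpa [Bl.lets, hM, or_assoc] using hl
      have a : l ∈ X ∨ l = z ∨ l ∈ R.flatMap Bl.lets := by
        rcases a with a | a
        · exact Or.inl a
        · exact Or.inr (by simpa [hZ, Bl.lets] using a)
      rcases hl with hl | rfl
      · rcases a with a | rfl | a
        · exact XM l a hl
        · exact m.hz (hML _ hl).1
        · exact (RL l a).2 hl
      · rcases a with a | a | a
        · exact m.he (H.dep.1 _ a).1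
        · exact ze a.symm
        · exact m.he (RL _ a).1
  obtain ⟨Φ₂, ok, k2⟩ := h G Ω I Φ₁ w _ _ _ _ _ blk d0 d1 rfl nc
  have k := k1.trans_new k2 m.hw Set.subset_union_left
  refine ⟨z, v, Φ₂, ⟨ok, k.dep H.dep, k.vs H.mem, ?_, k2.triv b b1 bw fun q g a =>
    H.triv q g (m.old H.mem a), fun B hB => k2.bt m.grp tw (tZ B hB)
      fun l hl => Or.inr (List.mem_flatMap.2 ⟨B, hB, hl⟩), ?_, ?_, ?_⟩, k⟩
  · rw [k2.kd b b1 bw, m.ko b H.mem, H.kd]
  · rw [List.flatMap_cons]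
    exact List.nodup_cons.2 ⟨fun a => m.hz (RL z a).1, (List.nodup_append.1 nd).2.1⟩
  · intro l hl a
    rw [List.flatMap_cons] at hl
    rcases List.mem_cons.1 hl with rfl | hl
    · exact m.hz (H.dep.1 _ a).1
    · exact dj l (List.mem_append_right _ hl) a
  · simpa [Bl.lab, mul_assoc] using H.lab

end Pool.Agent.MP_494aff_an.Fr

end MrgPart5

-- marker of a merged file
example : 731051 + 489796 = 731051 + 489796 := rfl
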