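import Mathlib
import Pool.Agent.MP_494aff_an.lf.Line

-- ======== part 0: formerly Pool.Agent.MP_494aff_an.hi.CollCx
section MrgPart0

/-! A collapse does not raise the complexity. -/

namespace Pool.Agent.MP_494aff_an.Hi

open Pool.Agent.MP_494aff_an.Se Pool.Agent.MP_494aff_an.Fr

open Classical

namespace CollCxP

variable {G T J B : Type} {S : Sys G T J B} {d : B × Bool} {t₁ t₂ : ℝ}

theorem cp_eq (ν : Option B × Bool) : (S.collapse d t₁ t₂).cp ν =
    if (ν.1.getD d.1, ν.2) = d then ν.1.elim none fun _ => some (S.cp d)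
    else if S.Side d t₁ t₂ (ν.1.getD d.1, ν.2) then none
    else some (S.cp (ν.1.getD d.1, ν.2)) := rfl

theorem cp_get (ν : Option B × Bool) :
    ((S.collapse d t₁ t₂).cp ν).getD (S.cp d) = S.cp (ν.1.getD d.1, ν.2) := by
  rw [cp_eq]
  split_ifs with h1 h2
  · rw [h1]
    cases ν.1 <;> rfl
  · exact h2.1.symm
  · rfl

theorem dom (hle : ∀ b, S.al b ≤ S.be b) (hf : S.Free d t₁ t₂) (o : Option B) :
    S.al (o.getD d.1) ≤ (S.collapse d t₁ t₂).al o ∧
      (S.collapse d t₁ t₂).al o ≤ (S.collapse d t₁ t₂).be o ∧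
      (S.collapse d t₁ t₂).be o ≤ S.be (o.getD d.1) := by
  cases o with
  | none => exact ⟨hf.l.trans hf.lt.le, hf.r, le_rfl⟩
  | some b =>
    show S.al b ≤ S.al b ∧ S.al b ≤ (if b = d.1 then t₁ else S.be b) ∧
      (if b = d.1 then t₁ else S.be b) ≤ S.be b
    split_ifs with h
    · rw [h]
      exact ⟨le_rfl, hf.l, hf.lt.le.trans hf.r⟩
    · exact ⟨le_rfl, hle b, le_rfl⟩

theorem pa (hle : ∀ b, S.al b ≤ S.be b) (hf : S.Free d t₁ t₂) {ν : Option B × Bool}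
    (h : (S.collapse d t₁ t₂).PA ν) : S.PA (ν.1.getD d.1, ν.2) := by
  obtain ⟨h1, -, h3⟩ := dom hle hf ν.1
  refine ⟨lt_of_le_of_lt h1 (lt_of_lt_of_le h.1 h3), ?_⟩
  rw [← cp_get (t₁ := t₁) (t₂ := t₂)]
  exact h.2

theorem ov (hle : ∀ b, S.al b ≤ S.be b) (he : ∀ d, S.e d = 1 ∨ S.e d = -1)
    (hf : S.Free d t₁ t₂) {ν ν' : Option B × Bool} (h : (S.collapse d t₁ t₂).Ov ν ν') :
    S.Ov (ν.1.getD d.1, ν.2) (ν'.1.getD d.1, ν'.2) := by
  have hb : ∀ μ : Option B × Bool, (S.collapse d t₁ t₂).Bs μ ⊆ S.Bs (μ.1.getD d.1, μ.2) :=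
    fun μ => Sys.bs_sub (he _) rfl rfl (dom hle hf μ.1).1 (dom hle hf μ.1).2.1
      (dom hle hf μ.1).2.2
  obtain ⟨hc, x, k1, k2, k3, k4⟩ := h
  have l1 := Sys.lo_le_of_sub (hb ν)
  have l2 := Sys.lo_le_of_sub (hb ν')
  refine ⟨?_, x, by linarith, by linarith, by linarith, by linarith⟩
  rw [← cp_get (t₁ := t₁) (t₂ := t₂), ← cp_get (t₁ := t₁) (t₂ := t₂), hc]

/-- Add the weights of the two halves. -/
noncomputable def mg (b : B) : (Option B → ℚ) →ₗ[ℚ] (B → ℚ) where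
  toFun w b₀ := w (some b₀) + if b₀ = b then w none else 0
  map_add' w w' := by
    funext b₀
    simp only [Pi.add_apply]
    split_ifs <;> ring
  map_smul' c w := by
    funext b₀
    simp only [Pi.smul_apply, smul_eq_mul, RingHom.id_apply]
    split_ifs <;> ring

theorem mg_apply (b : B) (w : Option B → ℚ) (b₀ : B) :
    mg b w b₀ = w (some b₀) + if b₀ = b then w none else 0 := rfl

theorem sum_mg [Fintype B] (b : B) (w : Option B → ℚ) (c : B → ℚ) :
    ∑ b₀, mg b w b₀ * c b₀ = ∑ o : Option B, w o * c (o.getD b) := by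
  rw [Fintype.sum_option]
  simp only [mg_apply, add_mul, Finset.sum_add_distrib, ite_mul, zero_mul, Finset.sum_ite_eq',
    Finset.mem_univ, if_true, Option.getD_none, Option.getD_some]
  ring

theorem mg_mem [Fintype B] (hle : ∀ b, S.al b ≤ S.be b) (he : ∀ d, S.e d = 1 ∨ S.e d = -1)
    (hf : S.Free d t₁ t₂) : ∀ w ∈ (S.collapse d t₁ t₂).cyc, mg d.1 w ∈ S.cyc := by
  rintro w ⟨h1, h2⟩
  refine ⟨fun b hb => ?_, fun X hX => ?_⟩
  · by_cases e : w (some b) = 0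
    · rw [mg_apply, e, zero_add] at hb
      split_ifs at hb with k
      · rw [k]
        exact ⟨pa hle hf (h1 none hb).1, pa hle hf (h1 none hb).2⟩
      · exact absurd rfl hb
    · exact ⟨pa hle hf (h1 _ e).1, pa hle hf (h1 _ e).2⟩
  · rw [sum_mg]
    exact h2 {ν | (ν.1.getD d.1, ν.2) ∈ X} fun ν ν' p p' o =>
      hX _ _ (pa hle hf p) (pa hle hf p') (ov hle he hf o)

theorem mg_ker [Fintype B] {w : Option B → ℚ} (hw : w ∈ (S.collapse d t₁ t₂).cyc)
    (h : mg d.1 w = 0) : w = 0 := by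
  obtain ⟨b, i⟩ := d
  have h0 : ∀ b₀, w (some b₀) = -if b₀ = b then w none else 0 := fun b₀ =>
    eq_neg_of_add_eq_zero_left (congrFun h b₀)
  have h1 := hw.2 {ν | (S.collapse (b, i) t₁ t₂).cp ν = none}
    fun ν ν' _ _ o k => o.1.symm.trans k
  have e1 : (S.collapse (b, i) t₁ t₂).cp (none, i) = none := by simp [cp_eq]
  have e2 : (S.collapse (b, i) t₁ t₂).cp (some b, i) ≠ none := by simp [cp_eq]
  have e3 : (S.collapse (b, i) t₁ t₂).cp (none, !i) =
      (S.collapse (b, i) t₁ t₂).cp (some b, !i) := by simp [cp_eq]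
  rw [Fintype.sum_option] at h1
  simp only [h0, neg_mul, ite_mul, zero_mul, Finset.sum_neg_distrib, Finset.sum_ite_eq',
    Finset.mem_univ, if_true, Set.mem_ofPred_eq] at h1
  have h2 : w none = 0 := by
    by_cases k : (S.collapse (b, i) t₁ t₂).cp (some b, !i) = none
    · have k' := e3.trans k
      cases i
      · simp only [Bool.not_false] at k k'
        rw [if_pos e1, if_neg e2, if_pos k, if_pos k'] at h1
        linarith
      · simp only [Bool.not_true] at k k'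
        rw [if_pos e1, if_neg e2, if_pos k, if_pos k'] at h1
        linarith
    · have k' := fun e => k (e3.symm.trans e)
      cases i
      · simp only [Bool.not_false] at k k'
        rw [if_pos e1, if_neg e2, if_neg k, if_neg k'] at h1
        linarith
      · simp only [Bool.not_true] at k k'
        rw [if_pos e1, if_neg e2, if_neg k, if_neg k'] at h1
        linarith
  funext o
  cases o with
  | none => exact h2
  | some b₀ => simp [h0, h2]

end CollCxP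

open CollCxP

theorem collCx : CollCxStmt := by
  intro G T J B _ _ _ S d t₁ t₂ hc hf
  refine LinearMap.finrank_le_finrank_of_injective
    (f := (mg d.1).restrict (mg_mem hc.le hc.sg hf)) ?_
  rw [injective_iff_map_eq_zero]
  intro w hw
  exact Subtype.ext (mg_ker w.2 (congrArg Subtype.val hw))

end Pool.Agent.MP_494aff_an.Hi

end MrgPart0

-- ======== part 1: formerly Pool.Agent.MP_494aff_an.hi.Dyn0
section MrgPart1

/-! The dynamics off the family of traces. -/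

open scoped Pointwise

namespace Pool.Agent.MP_494aff_an.Hi

open Pool.Agent.MP_494aff_an.Se Pool.Agent.MP_494aff_an.Fr

open Classical

namespace Dyn0P

variable {G T J B : Type} [Group G] [MetricSpace T] [MulAction G T] {Ln : Set (Set T)}
  {S : Sys G T J B} {l r : J → ℝ} {K : Finset (J × ℝ × ℝ)}

/-- The trace of `A` in `j` is `[y, y']`. -/
def Tc (S : Sys G T J B) (l r : J → ℝ) (A : Set T) (j : J) (y y' : ℝ) : Prop :=
  l j ≤ y ∧ y < y' ∧ y' ≤ r j ∧ ∀ x, l j ≤ x → x ≤ r j → (S.io j x ∈ A ↔ y ≤ x ∧ x ≤ y')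

lemma box (hi : S.Iso l r) {d : B × Bool} {x : ℝ} (hx : x ∈ S.Bs d) :
    l (S.cp d) ≤ x ∧ x ≤ r (S.cp d) := ⟨(hi.bs d).1.trans hx.1, hx.2.trans (hi.bs d).2⟩

/-- Words stay in the intervals. -/
lemma last (hc : S.Core) (hi : S.Iso l r) {j j' : J} {x₁ x₂ s c x : ℝ} {g : G}
    (w : S.Wd j x₁ x₂ j' s c g) (k1 : x₁ ≤ x) (k2 : x ≤ x₂) (h1 : l j ≤ x) (h2 : x ≤ r j) :
    l j' ≤ c + s * x ∧ c + s * x ≤ r j' := by
  induction w with
  | refl => simpa using ⟨h1, h2⟩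
  | step d _ e _ m1 m2 _ =>
    have := box hi (Sys.map_mem hc.sg (hc.le _) (Sys.aff_mem m1 m2 k1 k2))
    constructor <;> linarith [this.1, this.2]

lemma trace (h : SpcStmt) (hT : Tr G Ln) (hi : S.Iso l r) {A : Set T} (hA : A ∈ Ln) {j : J}
    {x x' : ℝ} (hn : x ≠ x') (b : l j ≤ x ∧ x ≤ r j) (b' : l j ≤ x' ∧ x' ≤ r j)
    (m : S.io j x ∈ A) (m' : S.io j x' ∈ A) : ∃ y y', Tc S l r A j y y' := by
  obtain ⟨h1, -⟩ := h G T J B Ln S l r hT hi
  rcases lt_or_gt_of_ne hn with c | c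
  · obtain ⟨y, y', a1, a2, a3, a4, a5⟩ := h1 _ _ _ _ hA b.1 c b'.2 m m'
    exact ⟨y, y', a1, by linarith, a4, a5⟩
  · obtain ⟨y, y', a1, a2, a3, a4, a5⟩ := h1 _ _ _ _ hA b'.1 c b.2 m' m
    exact ⟨y, y', a1, by linarith, a4, a5⟩

/-- One band carries a trace that is not in the family. -/
lemma stp (h : SpcStmt) (hT : Tr G Ln) (hc : S.Core) (hi : S.Iso l r) (hF : S.Fam Ln l r K)
    {A : Set T} (hA : A ∈ Ln) {d : B × Bool} {y y' t t' : ℝ} (tr : Tc S l r A (S.cp d) y y')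
    (hK : (S.cp d, y, y') ∉ K) (k1 : S.al d.1 ≤ t) (k2 : t < t') (k3 : t' ≤ S.be d.1)
    (m1 : S.pos d t ∈ Set.Icc y y') (m2 : S.pos d t' ∈ Set.Icc y y') :
    S.lo d < y ∧ y' < S.hi d ∧ ∃ z z', Tc S l r (S.lb d • A) (S.cp (op d)) z z' ∧
      (S.cp (op d), z, z') ∉ K ∧ ∀ w ∈ Set.Icc y y', S.of d + S.sg d * w ∈ Set.Icc z z' := by
  have sp : S.Spc Ln l r (S.cp d, y, y') := ⟨tr.1, tr.2.1, tr.2.2.1, A, hA, tr.2.2.2⟩
  have en := mt (hF.ends _ sp d (k1.trans_lt (k2.trans_le k3)) rfl) hK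
  have m := Sys.pos_mem (hc.sg d) k1 (k2.le.trans k3)
  have m' := Sys.pos_mem (hc.sg d) (k1.trans k2.le) k3
  have c1 : S.lo d < y := not_le.1 fun k => en (Or.inl ⟨k, m.1.trans m1.2⟩)
  have c2 : y' < S.hi d := not_le.1 fun k => en (Or.inr ⟨m1.1.trans m.2, k⟩)
  have bs : ∀ w ∈ Set.Icc y y', w ∈ S.Bs d := fun w hw => ⟨c1.le.trans hw.1, hw.2.trans c2.le⟩
  have bx := fun w hw => box hi (Sys.map_mem hc.sg (hc.le _) (bs w hw))
  have img : ∀ w ∈ Set.Icc y y', S.io (S.cp (op d)) (S.of d + S.sg d * w) ∈ S.lb d • A := by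
    intro w hw
    rw [← hc.lb_smul (bs w hw)]
    exact Set.smul_mem_smul_set ((tr.2.2.2 w (box hi (bs w hw)).1 (box hi (bs w hw)).2).2 hw)
  obtain ⟨z, z', tz⟩ := trace h hT hi (hT.smul (S.lb d) A hA) (by
    rw [Sys.of_add (hc.sg d), Sys.of_add (hc.sg d)]
    exact fun e => k2.ne (Sys.pos_inj (hc.sg _) e)) (bx _ m1) (bx _ m2) (img _ m1) (img _ m2)
  have key : ∀ w ∈ Set.Icc y y', S.of d + S.sg d * w ∈ Set.Icc z z' := fun w hw =>
    (tz.2.2.2 _ (bx w hw).1 (bx w hw).2).1 (img w hw)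
  refine ⟨c1, c2, z, z', tz, fun hz => hK ?_, key⟩
  obtain ⟨q, hq, e, n1, n2⟩ := hF.move _ hz (op d) t t' rfl k1 k2 k3
    (Sys.of_add (hc.sg d) t ▸ key _ m1) (Sys.of_add (hc.sg d) t' ▸ key _ m2)
  rw [op_op] at e n1 n2
  obtain ⟨-, h2⟩ := h G T J B Ln S l r hT hi
  rcases lt_or_gt_of_ne fun e => k2.ne (Sys.pos_inj (hc.sg d) e) with c | c
  · exact h2 q _ _ _ (hF.spc q hq) sp e c n1.1 n2.2 m1.1 m2.2 ▸ hq
  · exact h2 q _ _ _ (hF.spc q hq) sp e c n2.1 n1.2 m2.1 m1.2 ▸ hq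

/-- A word carries the whole trace and a little more. -/
lemma carry (h : SpcStmt) (hT : Tr G Ln) (hc : S.Core) (hi : S.Iso l r) (hF : S.Fam Ln l r K)
    {A : Set T} (hA : A ∈ Ln) {j j' : J} {y y' x₁ x₂ s c : ℝ} {g : G} (tr : Tc S l r A j y y')
    (hK : (j, y, y') ∉ K) (k1 : y ≤ x₁) (k2 : x₁ < x₂) (k3 : x₂ ≤ y')
    (w : S.Wd j x₁ x₂ j' s c g) :
    (∃ z z', Tc S l r (g • A) j' z z' ∧ (j', z, z') ∉ K ∧
      ∀ x ∈ Set.Icc y y', c + s * x ∈ Set.Icc z z') ∧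
      ∃ η, 0 < η ∧ S.Wd j (y - η) (y' + η) j' s c g := by
  induction w with
  | refl => exact ⟨⟨y, y', by simpa using tr, hK, by simp⟩, 1, one_pos, Sys.Wd.refl⟩
  | @step j' s c g d w e p m1 m2 ih =>
    subst e
    obtain ⟨⟨z, z', tz, hz, im⟩, η, hη, w'⟩ := ih
    have hs := w.sign hc.sg
    obtain ⟨t, a1, a2, a3⟩ := Sys.exists_pos (hc.sg d) (hc.le _) m1
    obtain ⟨t', a4, a5, a6⟩ := Sys.exists_pos (hc.sg d) (hc.le _) m2
    have i1 := a3 ▸ im x₁ ⟨k1, k2.le.trans k3⟩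
    have i2 := a6 ▸ im x₂ ⟨k1.trans k2.le, k3⟩
    have hn : t ≠ t' := by
      rintro rfl
      rcases hs with rfl | rfl <;> linarith
    obtain ⟨c1, c2, v, v', tv, hv, im'⟩ : S.lo d < z ∧ z' < S.hi d ∧
        ∃ v v', Tc S l r (S.lb d • g • A) (S.cp (op d)) v v' ∧ (S.cp (op d), v, v') ∉ K ∧
          ∀ w ∈ Set.Icc z z', S.of d + S.sg d * w ∈ Set.Icc v v' := by
      rcases lt_or_gt_of_ne hn with k | k
      · exact stp h hT hc hi hF (hT.smul g A hA) tz hz a1 k a5 i1 i2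
      · exact stp h hT hc hi hF (hT.smul g A hA) tz hz a4 k a2 i2 i1
    refine ⟨⟨v, v', mul_smul (S.lb d) g A ▸ tv, hv, fun x hx => ?_⟩, ?_⟩
    · convert im' _ (im x hx) using 1
      ring
    obtain ⟨θ, h0, h1, h2, h3⟩ : ∃ θ, 0 < θ ∧ θ ≤ η ∧ θ ≤ z - S.lo d ∧ θ ≤ S.hi d - z' :=
      ⟨min η (min (z - S.lo d) (S.hi d - z')), lt_min hη (lt_min (by linarith) (by linarith)),
        min_le_left _ _, (min_le_right _ _).trans (min_le_left _ _),
        (min_le_right _ _).trans (min_le_right _ _)⟩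
    have u1 := im y ⟨le_rfl, tr.2.1.le⟩
    have u2 := im y' ⟨tr.2.1.le, le_rfl⟩
    have := tr.2.1
    refine ⟨θ, h0, Sys.Wd.step d (w'.mono ⟨by linarith, by linarith⟩ ⟨by linarith, by linarith⟩)
      rfl p ?_ ?_⟩ <;> rcases hs with rfl | rfl <;> constructor <;>
      linarith [u1.1, u1.2, u2.1, u2.2]

end Dyn0P

open Dyn0P

theorem dyn0 (h : SpcStmt) : Dyn0Stmt := by
  intro G T J B _ _ _ Ln S l r K j x₁ x₂ hT hc hi hF ⟨o1, o2, o3, o4⟩
  have b1 : l j ≤ x₁ ∧ x₁ ≤ r j := ⟨o1, o2.le.trans o3⟩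
  have b2 : l j ≤ x₂ ∧ x₂ ≤ r j := ⟨o1.trans o2.le, o3⟩
  have ds : dist (S.io j x₁) (S.io j x₂) = x₂ - x₁ := by
    rw [hi.iso j _ _ b1.1 b1.2 b2.1 b2.2, abs_sub_comm, abs_of_pos (sub_pos.2 o2)]
  have ne : S.io j x₁ ≠ S.io j x₂ := fun e => by
    rw [e, dist_self] at ds
    linarith
  have mv : ∀ τ g x, S.Wd j x₁ x₂ j 1 τ g → x₁ ≤ x → x ≤ x₂ →
      dist (S.io j x) (g • S.io j x) = |τ| := by
    intro τ g x w k1 k2
    have b := last hc hi w k1 k2 (o1.trans k1) (k2.trans o3)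
    rw [w.geo hc k1 k2, hi.iso j _ _ (o1.trans k1) (k2.trans o3) b.1 b.2, abs_sub_comm]
    congr 1
    ring
  have tk : ∀ A ∈ Ln, S.io j x₁ ∈ A → S.io j x₂ ∈ A →
      ∃ y y', Tc S l r A j y y' ∧ (j, y, y') ∉ K ∧ y ≤ x₁ ∧ x₂ ≤ y' := by
    intro A hA m1 m2
    obtain ⟨y, y', tr⟩ := trace h hT hi hA o2.ne b1 b2 m1 m2
    have a1 := (tr.2.2.2 _ b1.1 b1.2).1 m1
    have a2 := (tr.2.2.2 _ b2.1 b2.2).1 m2
    refine ⟨y, y', tr, fun k => ?_, a1.1, a2.2⟩
    rcases o4 _ k rfl with e | e <;> simp only at e <;> linarith [a1.1, a2.2]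
  refine ⟨fun g w => ?_, fun g w => ne (hT.noflip g _ _ ?_ ?_), ?_⟩
  · by_contra hg
    have d1 := mv 0 g x₁ w le_rfl o2.le
    have d2 := mv 0 g x₂ w o2.le le_rfl
    rw [abs_zero] at d1 d2
    obtain ⟨A, hA, m1, m2, st⟩ := hT.small _ _ ne fun ε hε => ⟨g, hg, d1 ▸ hε, d2 ▸ hε⟩
    have e := st g (by rw [d1, ds]; linarith) (by rw [d2, ds]; linarith)
    obtain ⟨y, y', tr, hK, k1, k2⟩ := tk A hA m1 m2
    obtain ⟨-, η, hη, w'⟩ := carry h hT hc hi hF hA tr hK k1 o2 k2 w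
    rcases w'.first with a | ⟨d, rfl, -, a, -⟩
    · exact hg a.2.2.2
    have := ((tr.2.2.2 _ (box hi a).1 (box hi a).2).1 (hT.fix A hA g _ hg e (by
      simpa using w'.geo hc le_rfl (by linarith [tr.2.1])))).1
    linarith
  · simpa using w.geo hc le_rfl o2.le
  · simpa using w.geo hc o2.le le_rfl
  by_contra hn
  push Not at hn
  obtain ⟨A, hA, m1, m2, st⟩ := hT.small _ _ ne fun ε hε => by
    obtain ⟨τ, g, w, k, k'⟩ := hn ε hε
    have d1 := mv τ g x₁ w le_rfl o2.le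
    refine ⟨g, ?_, d1 ▸ k, mv τ g x₂ w o2.le le_rfl ▸ k⟩
    rintro rfl
    exact k' (by simpa using d1.symm)
  obtain ⟨τ, g, w, k, k'⟩ := hn ((x₂ - x₁) / 10) (by linarith)
  have e := st g (by rw [mv τ g x₁ w le_rfl o2.le, ds]; exact k)
    (by rw [mv τ g x₂ w o2.le le_rfl, ds]; exact k)
  obtain ⟨y, y', tr, hK, k1, k2⟩ := tk A hA m1 m2
  obtain ⟨⟨z, z', tz, -, im⟩, -⟩ := carry h hT hc hi hF hA tr hK k1 o2 k2 w
  rw [e] at tz
  have b3 : z ≤ r j := tz.2.1.le.trans tz.2.2.1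
  have b4 : l j ≤ z' := tz.1.trans tz.2.1.le
  have a1 := ((tr.2.2.2 _ tz.1 b3).1 ((tz.2.2.2 _ tz.1 b3).2 ⟨le_rfl, tz.2.1.le⟩)).1
  have a2 := ((tr.2.2.2 _ b4 tz.2.2.1).1 ((tz.2.2.2 _ b4 tz.2.2.1).2 ⟨tz.2.1.le, le_rfl⟩)).2
  have u1 := (im y ⟨le_rfl, tr.2.1.le⟩).1
  have u2 := (im y' ⟨tr.2.1.le, le_rfl⟩).2
  exact k' (by linarith)

end Pool.Agent.MP_494aff_an.Hi

end MrgPart1

-- ======== part 2: formerly Pool.Agent.MP_494aff_an.hi.Fam
section MrgPart2

/-! A finite family of traces of lines. -/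

open scoped Pointwise

namespace Pool.Agent.MP_494aff_an.Hi

open Pool.Agent.MP_494aff_an.Se Pool.Agent.MP_494aff_an.Fr

open Classical

namespace FamP

variable {J : Type} {P : J × ℝ × ℝ → Prop} {l r : J → ℝ}

/-- Overlapping members agree. -/
def Uq (P : J × ℝ × ℝ → Prop) : Prop :=
  ∀ p q x x', P p → P q → p.1 = q.1 → x < x' → p.2.1 ≤ x → x' ≤ p.2.2 → q.2.1 ≤ x → x' ≤ q.2.2 →
    p = q

lemma uq_of (h : Uq P) {p q : J × ℝ × ℝ} (hp : P p) (hq : P q) (e : p.1 = q.1)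
    (k : max p.2.1 q.2.1 < min p.2.2 q.2.2) : p = q :=
  h p q _ _ hp hq e k (le_max_left _ _) (min_le_left _ _) (le_max_right _ _) (min_le_right _ _)

lemma fin_long [Fintype J] (h : Uq P) (hb : ∀ p, P p → l p.1 ≤ p.2.1 ∧ p.2.1 ≤ r p.1) {δ : ℝ}
    (hδ : 0 < δ) : {p | P p ∧ δ ≤ p.2.2 - p.2.1}.Finite := by
  refine Set.Finite.of_injOn (f := fun p => (p.1, ⌊p.2.1 / δ⌋))
    (t := ⋃ j, {j} ×ˢ Set.Icc ⌊l j / δ⌋ ⌊r j / δ⌋) ?_ ?_
    (Set.finite_iUnion fun j => (Set.finite_singleton j).prod (Set.finite_Icc _ _))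
  · rintro p ⟨hp, -⟩
    exact Set.mem_iUnion.2 ⟨p.1, rfl,
      Int.floor_mono (div_le_div_of_nonneg_right (hb p hp).1 hδ.le),
      Int.floor_mono (div_le_div_of_nonneg_right (hb p hp).2 hδ.le)⟩
  · rintro p ⟨hp, k1⟩ q ⟨hq, k2⟩ e
    obtain ⟨e1, e2⟩ := Prod.mk.inj e
    have := Int.abs_sub_lt_one_of_floor_eq_floor e2
    rw [← sub_div, abs_div, abs_of_pos hδ, div_lt_one hδ, abs_lt] at this
    refine uq_of h hp hq e1 ?_
    simp only [max_lt_iff, lt_min_iff]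
    refine ⟨⟨?_, ?_⟩, ?_, ?_⟩ <;> linarith [this.1, this.2]

lemma fin_pt (h : Uq P) (hb : ∀ p, P p → p.2.1 < p.2.2) (j : J) (y : ℝ) :
    {p | P p ∧ j = p.1 ∧ y ∈ Set.Icc p.2.1 p.2.2}.Finite := by
  refine Set.Finite.of_injOn (f := fun p => y < p.2.2) (t := Set.univ) (Set.mapsTo_univ _ _) ?_
    Set.finite_univ
  rintro p ⟨hp, e1, k1, k2⟩ q ⟨hq, e2, k3, k4⟩ e
  have e : y < p.2.2 ↔ y < q.2.2 := iff_of_eq e
  have := hb p hp
  have := hb q hq
  refine uq_of h hp hq (e1.symm.trans e2) ?_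
  simp only [max_lt_iff, lt_min_iff]
  by_cases c : y < p.2.2
  · have := e.1 c
    refine ⟨⟨?_, ?_⟩, ?_, ?_⟩ <;> linarith
  · have c' := not_lt.1 (mt e.2 c)
    have := not_lt.1 c
    refine ⟨⟨?_, ?_⟩, ?_, ?_⟩ <;> linarith

lemma low {E : Set (J × ℝ × ℝ)} (hE : E.Finite) (hb : ∀ p ∈ E, p.2.1 < p.2.2) :
    ∃ δ, 0 < δ ∧ ∀ p ∈ E, δ ≤ p.2.2 - p.2.1 := by
  rcases E.eq_empty_or_nonempty with rfl | hn
  · exact ⟨1, one_pos, fun _ h => h.elim⟩
  obtain ⟨p, hp, k⟩ := Set.exists_min_image E (fun p => p.2.2 - p.2.1) hE hn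
  exact ⟨_, sub_pos.2 (hb p hp), k⟩

lemma ends {G T B : Type} (S : Sys G T J B) (d : B × Bool) {X : Set ℝ} :
    S.lo d ∈ X ∨ S.hi d ∈ X ↔ S.pos d (S.al d.1) ∈ X ∨ S.pos d (S.be d.1) ∈ X := by
  unfold Sys.lo Sys.hi
  rcases le_total (S.pos d (S.al d.1)) (S.pos d (S.be d.1)) with h | h
  · rw [min_eq_left h, max_eq_right h]
  · rw [min_eq_right h, max_eq_left h, or_comm]

end FamP

open FamP

theorem fam (h : SpcStmt) : FamStmt := by
  intro G T J B _ _ _ _ _ Ln S l r hT hc hi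
  obtain ⟨h1, h2⟩ := h G T J B Ln S l r hT hi
  have hE : {p | S.Spc Ln l r p ∧ ∃ d, S.Pos d.1 ∧ S.cp d = p.1 ∧
      (S.lo d ∈ Set.Icc p.2.1 p.2.2 ∨ S.hi d ∈ Set.Icc p.2.1 p.2.2)}.Finite := by
    refine (Set.finite_iUnion fun d => (fin_pt h2 (fun p hp => hp.2.1) (S.cp d) (S.lo d)).union
      (fin_pt h2 (fun p hp => hp.2.1) (S.cp d) (S.hi d))).subset ?_
    rintro p ⟨hp, d, -, e, k | k⟩
    · exact Set.mem_iUnion.2 ⟨d, Or.inl ⟨hp, e, k⟩⟩
    · exact Set.mem_iUnion.2 ⟨d, Or.inr ⟨hp, e, k⟩⟩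
  obtain ⟨δ, hδ, hl⟩ := low hE fun p hp => hp.1.2.1
  have hK := fin_long (l := l) (r := r) h2 (fun p hp => ⟨hp.1, hp.2.1.le.trans hp.2.2.1⟩) hδ
  refine ⟨hK.toFinset, fun p hp => (hK.mem_toFinset.1 hp).1, fun p hp d k1 k2 k3 =>
    hK.mem_toFinset.2 ⟨hp, hl p ⟨hp, d, k1, k2, k3⟩⟩, fun p hp d t t' e k1 k2 k3 m1 m2 => ?_⟩
  obtain ⟨⟨-, -, -, A, hA, tr⟩, len⟩ := hK.mem_toFinset.1 hp
  have box : ∀ d s, S.al d.1 ≤ s → s ≤ S.be d.1 →
      l (S.cp d) ≤ S.pos d s ∧ S.pos d s ≤ r (S.cp d) := fun d s a b =>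
    ⟨(hi.bs d).1.trans (Sys.pos_mem (hc.sg d) a b).1,
      (Sys.pos_mem (hc.sg d) a b).2.trans (hi.bs d).2⟩
  have img : ∀ s, S.al d.1 ≤ s → s ≤ S.be d.1 → S.pos d s ∈ Set.Icc p.2.1 p.2.2 →
      S.io (S.cp (op d)) (S.pos (op d) s) ∈ S.lb d • A := fun s a b m => by
    rw [← Sys.of_add (hc.sg d), ← hc.lb_smul (Sys.pos_mem (hc.sg d) a b), e]
    exact Set.smul_mem_smul_set ((tr _ (e ▸ (box d s a b).1) (e ▸ (box d s a b).2)).2 m)
  have b1 := box (op d) t k1 (k2.le.trans k3)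
  have b2 := box (op d) t' (k1.trans k2.le) k3
  have i1 := img t k1 (k2.le.trans k3) m1
  have i2 := img t' (k1.trans k2.le) k3 m2
  obtain ⟨y, y', q1, q2, q3, q4⟩ : ∃ y y', l (S.cp (op d)) ≤ y ∧ y < y' ∧ y' ≤ r (S.cp (op d)) ∧
      ∀ w, l (S.cp (op d)) ≤ w → w ≤ r (S.cp (op d)) →
        (S.io (S.cp (op d)) w ∈ S.lb d • A ↔ y ≤ w ∧ w ≤ y') := by
    rcases lt_trichotomy (S.pos (op d) t) (S.pos (op d) t') with c | c | c
    · obtain ⟨y, y', a1, a2, a3, a4, a5⟩ := h1 _ _ _ _ (hT.smul _ A hA) b1.1 c b2.2 i1 i2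
      exact ⟨y, y', a1, by linarith, a4, a5⟩
    · exact absurd (Sys.pos_inj (hc.sg _) c) k2.ne
    · obtain ⟨y, y', a1, a2, a3, a4, a5⟩ := h1 _ _ _ _ (hT.smul _ A hA) b2.1 c b1.2 i2 i1
      exact ⟨y, y', a1, by linarith, a4, a5⟩
  have sp : S.Spc Ln l r (S.cp (op d), y, y') := ⟨q1, q2, q3, _, hT.smul _ A hA, q4⟩
  have key : ∀ s, S.al d.1 ≤ s → s ≤ S.be d.1 → S.pos d s ∈ Set.Icc p.2.1 p.2.2 →
      S.pos (op d) s ∈ Set.Icc y y' := fun s a b m =>
    (q4 _ (box (op d) s a b).1 (box (op d) s a b).2).1 (img s a b m)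
  refine ⟨(S.cp (op d), y, y'), hK.mem_toFinset.2 ⟨sp, ?_⟩, rfl, key t k1 (k2.le.trans k3) m1,
    key t' (k1.trans k2.le) k3 m2⟩
  by_cases c : S.lo d ∈ Set.Icc p.2.1 p.2.2 ∨ S.hi d ∈ Set.Icc p.2.1 p.2.2
  · refine hl _ ⟨sp, op d, k1.trans_lt (k2.trans_le k3), rfl, (ends S (op d)).2 ?_⟩
    exact ((ends S d).1 c).imp (key _ le_rfl (hc.le _)) (key _ (hc.le _) le_rfl)
  · have m := Sys.pos_mem (hc.sg d) k1 (k2.le.trans k3)
    have c1 : S.lo d ≤ p.2.1 := not_lt.1 fun k => c (Or.inl ⟨k.le, m.1.trans m1.2⟩)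
    have c2 : p.2.2 ≤ S.hi d := not_lt.1 fun k => c (Or.inr ⟨m1.1.trans m.2, k.le⟩)
    have c3 : p.2.1 ≤ p.2.2 := m1.1.trans m1.2
    obtain ⟨s, a1, a2, a3⟩ := Sys.exists_pos (hc.sg d) (hc.le _) ⟨c1, c3.trans c2⟩
    obtain ⟨s', a4, a5, a6⟩ := Sys.exists_pos (hc.sg d) (hc.le _) ⟨c1.trans c3, c2⟩
    have u1 := key s a1 a2 ⟨a3.ge, a3.le.trans c3⟩
    have u2 := key s' a4 a5 ⟨c3.trans a6.ge, a6.le⟩
    unfold Sys.pos at a3 a6 u1 u2
    show δ ≤ y' - y
    rcases hc.sg d with g | g <;> rcases hc.sg (op d) with g' | g' <;> rw [g] at a3 a6 <;>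
      rw [g'] at u1 u2 <;> linarith [u1.1, u1.2, u2.1, u2.2]

end Pool.Agent.MP_494aff_an.Hi

end MrgPart2

-- ======== part 3: formerly Pool.Agent.MP_494aff_an.hi.Frq
section MrgPart3

/-! A quadratic part is split off. -/

namespace Pool.Agent.MP_494aff_an.Hi

open Pool.Agent.MP_494aff_an.Se Pool.Agent.MP_494aff_an.Fr

open Classical

namespace FrqP

open Sys

variable {G T J B : Type} [Group G] {S : Sys G T J B} {j : J} {Z : ℝ} {X : Set B}

/-- The system after the cut. -/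
noncomputable def cq (S : Sys G T J B) (j : J) (Z : ℝ) : Sys G T (Option J) (Option B) :=
  S.cut j Z (fun ν => S.hi ν ≤ Z) Ty.qd

theorem cp_pos {b : B} {i : Bool} (h : S.cp (b, i) = j ∧ S.hi (b, i) ≤ Z) :
    (cq S j Z).cp (some b, i) = none := if_pos h

theorem cp_neg {b : B} {i : Bool} (h : ¬ (S.cp (b, i) = j ∧ S.hi (b, i) ≤ Z)) :
    (cq S j Z).cp (some b, i) = some (S.cp (b, i)) := if_neg h

theorem cp_get (b : B) (i : Bool) : ((cq S j Z).cp (some b, i)).getD j = S.cp (b, i) := by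
  by_cases h : S.cp (b, i) = j ∧ S.hi (b, i) ≤ Z
  · rw [cp_pos h, h.1]
    rfl
  · rw [cp_neg h]
    rfl

theorem not_pos : ¬ (cq S j Z).Pos none := lt_irrefl (0 : ℝ)

theorem not_int (i : Bool) (x : ℝ) :
    ¬ ((cq S j Z).lo (none, i) < x ∧ x < (cq S j Z).hi (none, i)) := by
  have h1 : (cq S j Z).lo (none, i) = (cq S j Z).hi (none, i) := by
    show min (Z + 1 * 0) (Z + 1 * 0) = max (Z + 1 * 0) (Z + 1 * 0)
    rw [min_self, max_self]
  rw [h1]
  exact fun h => lt_irrefl _ (h.1.trans h.2)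

omit [Group G] in
theorem act (hq : S.Quad j Z X) : S.ty j = Ty.act := by
  obtain ⟨ν, h1, h2, -⟩ := hq.ne
  exact h2 ▸ h1.2

omit [Group G] in
theorem pa_of (hq : S.Quad j Z X) {ν : B × Bool} (hp : S.Pos ν.1) (hc : S.cp ν = j) : S.PA ν :=
  ⟨hp, hc ▸ act hq⟩

theorem pa_iff (hq : S.Quad j Z X) (b : B) (i : Bool) :
    (cq S j Z).PA (some b, i) ↔ S.PA (b, i) ∧ b ∉ X := by
  by_cases h : S.cp (b, i) = j ∧ S.hi (b, i) ≤ Z
  · constructor
    · rintro ⟨-, h2⟩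
      rw [cp_pos h] at h2
      cases h2
    · rintro ⟨h1, h2⟩
      exact (h2 ((hq.iff _ h1).2 h)).elim
  · constructor
    · rintro ⟨h1, h2⟩
      rw [cp_neg h] at h2
      exact ⟨⟨h1, h2⟩, fun hx => h ((hq.iff (b, i) ⟨h1, h2⟩).1 hx)⟩
    · rintro ⟨h1, -⟩
      refine ⟨h1.1, ?_⟩
      rw [cp_neg h]
      exact h1.2

omit [Group G] in
theorem cond_op (hq : S.Quad j Z X) (ht : S.TyOK) {ν : B × Bool} (hp : S.Pos ν.1)
    (h : S.cp ν = j ∧ S.hi ν ≤ Z) : S.cp (op ν) = j ∧ S.hi (op ν) ≤ Z :=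
  (hq.iff (op ν) ((pa_of hq hp h.1).op ht)).1 ((hq.iff ν (pa_of hq hp h.1)).2 h)

theorem tyOK (hq : S.Quad j Z X) (ht : S.TyOK) : (cq S j Z).TyOK := by
  rintro ⟨_ | b, i⟩ hp
  · exact (not_pos hp).elim
  · have hp' : S.Pos b := hp
    rw [op_mk]
    by_cases h : S.cp (b, i) = j ∧ S.hi (b, i) ≤ Z
    · rw [cp_pos h, cp_pos (cond_op (ν := (b, i)) hq ht hp' h)]
    · have h' : ¬ (S.cp (b, !i) = j ∧ S.hi (b, !i) ≤ Z) := fun k => h (by
        simpa using cond_op (ν := (b, !i)) hq ht hp' k)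
      rw [cp_neg h, cp_neg h']
      exact ht (b, i) hp'

theorem abOK (hq : S.Quad j Z X) {Ln : Set (Set T)} (h : S.AbOK Ln) : (cq S j Z).AbOK Ln := by
  obtain ⟨A, a1, a2⟩ := h
  refine ⟨fun o => A (o.getD j), ?_, ?_⟩
  · rintro (_ | j') h
    · cases h
    · exact a1 j' h
  · rintro ⟨_ | b, i⟩ h x hx
    · cases i
      · have h' : S.ty j = Ty.ab := h
        rw [act hq] at h'
        cases h'
      · cases h
    · by_cases k : S.cp (b, i) = j ∧ S.hi (b, i) ≤ Z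
      · rw [cp_pos k] at h
        cases h
      · rw [cp_neg k] at h ⊢
        exact a2 (b, i) h x hx

theorem qdOK (hq : S.Quad j Z X) (he : ∀ d, S.e d = 1 ∨ S.e d = -1) (hle : ∀ b, S.al b ≤ S.be b)
    (h : S.QdOK) : (cq S j Z).QdOK := by
  rintro ⟨_ | b₁, i₁⟩ ⟨_ | b₂, i₂⟩ ⟨_ | b₃, i₃⟩ x n1 n2 n3 c1 c2 q l1 l2 l3 l4 l5 l6
  · exact not_int _ x ⟨l1, l2⟩
  · exact not_int _ x ⟨l1, l2⟩
  · exact not_int _ x ⟨l1, l2⟩
  · exact not_int _ x ⟨l1, l2⟩
  · exact not_int _ x ⟨l3, l4⟩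
  · exact not_int _ x ⟨l3, l4⟩
  · exact not_int _ x ⟨l5, l6⟩
  have m1 : (b₁, i₁) ≠ (b₂, i₂) := fun e => n1 (by rw [(Prod.mk.inj e).1, (Prod.mk.inj e).2])
  have m2 : (b₁, i₁) ≠ (b₃, i₃) := fun e => n2 (by rw [(Prod.mk.inj e).1, (Prod.mk.inj e).2])
  have m3 : (b₂, i₂) ≠ (b₃, i₃) := fun e => n3 (by rw [(Prod.mk.inj e).1, (Prod.mk.inj e).2])
  have p1 : S.Pos b₁ := (pos_iff (d := (b₁, i₁)) (he _) (hle _)).2 (l1.trans l2)
  have p2 : S.Pos b₂ := (pos_iff (d := (b₂, i₂)) (he _) (hle _)).2 (l3.trans l4)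
  have p3 : S.Pos b₃ := (pos_iff (d := (b₃, i₃)) (he _) (hle _)).2 (l5.trans l6)
  by_cases k : S.cp (b₁, i₁) = j ∧ S.hi (b₁, i₁) ≤ Z
  · rw [cp_pos k] at c1 c2
    have k2 : S.cp (b₂, i₂) = j ∧ S.hi (b₂, i₂) ≤ Z := by
      by_contra k'
      rw [cp_neg k'] at c1
      cases c1
    have k3 : S.cp (b₃, i₃) = j ∧ S.hi (b₃, i₃) ≤ Z := by
      by_contra k'
      rw [cp_neg k'] at c2
      cases c2
    have a1 := pa_of (ν := (b₁, i₁)) hq p1 k.1
    have a2 := pa_of (ν := (b₂, i₂)) hq p2 k2.1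
    have a3 := pa_of (ν := (b₃, i₃)) hq p3 k3.1
    exact hq.two _ _ _ x m1 m2 m3 a1 a2 a3 ((hq.iff _ a1).2 k) ((hq.iff _ a2).2 k2)
      ((hq.iff _ a3).2 k3) l1 l2 l3 l4 l5 l6
  · have c1' : S.cp (b₂, i₂) = S.cp (b₁, i₁) := by
      rw [← cp_get (j := j) (Z := Z) b₂, c1, cp_get]
    have c2' : S.cp (b₃, i₃) = S.cp (b₁, i₁) := by
      rw [← cp_get (j := j) (Z := Z) b₃, c2, cp_get]
    rw [cp_neg k] at q
    exact h _ _ _ x m1 m2 m3 c1' c2' q l1 l2 l3 l4 l5 l6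

theorem sub (hq : S.Quad j Z X) : S.Sub (cq S j Z) fun o => o.getD j := by
  refine Sub.of_piece ?_
  rintro (_ | b) i hp
  · exact (not_pos hp.1).elim
  · exact ⟨b, ((pa_iff hq b i).1 hp).1, subset_rfl, fun i' => ⟨(cp_get b i').symm, rfl, rfl, rfl⟩⟩

theorem w2 (hq : S.Quad j Z X) (h : S.W2) : (cq S j Z).W2 := by
  obtain ⟨Q, hQ⟩ := h
  refine ⟨insert Z Q, ?_⟩
  rintro ⟨_ | b, i⟩ hp x hx hxQ
  · exact (not_pos hp.1).elim
  obtain ⟨p1, p2⟩ := (pa_iff hq b i).1 hp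
  rw [Finset.mem_insert, not_or] at hxQ
  have hx' : x ∈ S.Bs (b, i) := hx
  obtain ⟨⟨b', i'⟩, n, p, c, m⟩ := hQ (b, i) p1 x hx' hxQ.2
  have hb' : b' ∉ X := fun k => by
    obtain ⟨k1, k2⟩ := (hq.iff _ p).1 k
    have := hq.right (b, i) p1 (c.symm.trans k1) p2
    exact hxQ.1 (le_antisymm (m.2.trans k2) (this.trans hx'.1))
  refine ⟨(some b', i'), fun e => n ?_, (pa_iff hq b' i').2 ⟨p, hb'⟩, ?_, m⟩
  · rw [Option.some.inj (Prod.mk.inj e).1, (Prod.mk.inj e).2]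
  · rw [cp_neg fun k => hb' ((hq.iff _ p).2 k), cp_neg fun k => p2 ((hq.iff _ p1).2 k), c]

theorem cx [Fintype B] (hq : S.Quad j Z X) (ht : S.TyOK) : (cq S j Z).cx ≤ S.cx := by
  refine cx_le some (Option.some_injective B) ?_ (fun d hp => ((pa_iff hq d.1 d.2).1 hp).1) ?_
    (tyOK hq ht)
  · rintro (_ | b) hp
    · exact (not_pos hp.1).elim
    · exact ⟨b, rfl⟩
  · rintro d d' - - ⟨hc, hx⟩
    refine ⟨?_, hx⟩
    rw [← cp_get (S := S) (j := j) (Z := Z) d.1 d.2, hc, cp_get]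

theorem nE [Fintype B] (hq : S.Quad j Z X) : (cq S j Z).nE < S.nE := by
  obtain ⟨ν, h1, -, h3⟩ := hq.ne
  have hν : ν ∈ Finset.univ.filter S.PA := Finset.mem_filter.2 ⟨Finset.mem_univ _, h1⟩
  refine lt_of_le_of_lt ?_ (Finset.card_erase_lt_of_mem hν)
  refine Finset.card_le_card_of_injOn (fun d => (d.1.getD ν.1, d.2)) ?_ ?_
  · rintro ⟨_ | b, i⟩ hd
    · exact (not_pos (Finset.mem_filter.1 hd).2.1).elim
    · obtain ⟨p1, p2⟩ := (pa_iff hq b i).1 (Finset.mem_filter.1 hd).2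
      refine Finset.mem_coe.2 (Finset.mem_erase.2
        ⟨fun e => p2 ?_, Finset.mem_filter.2 ⟨Finset.mem_univ _, p1⟩⟩)
      rw [← e] at h3
      exact h3
  · rintro ⟨_ | b, i⟩ hd ⟨_ | b', i'⟩ hd' e
    · exact (not_pos (Finset.mem_filter.1 hd).2.1).elim
    · exact (not_pos (Finset.mem_filter.1 hd).2.1).elim
    · exact (not_pos (Finset.mem_filter.1 hd').2.1).elim
    · have e1 : b = b' := (Prod.mk.inj e).1
      have e2 : i = i' := (Prod.mk.inj e).2
      rw [e1, e2]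

end FrqP

open FrqP in
theorem frq (h : CutStmt) : FrqStmt := by
  intro G T J B _ _ _ Ln S j Z X hv hw hq
  have hc : (cq S j Z).Core := by
    refine (h G T J B S j Z (fun ν => S.hi ν ≤ Z) ?_).1 Ty.qd hv.core
    intro d d' _ c' r r' y m m'
    by_cases p : S.Pos d'.1
    · have a := pa_of hq p c'
      have := hq.right d' a c' fun k => r' ((hq.iff _ a).1 k).2
      exact le_antisymm (m.2.trans r) (this.trans m'.1)
    · rw [Sys.pos_iff (hv.core.sg _) (hv.core.le _), not_lt] at p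
      exact (r' (p.trans (m'.1.trans (m.2.trans r)))).elim
  exact ⟨cq S j Z, ⟨hc, tyOK hq hv.ty, abOK hq hv.ab, qdOK hq hv.core.sg hv.core.le hv.qd,
    (sub hq).dyn hv.dyn⟩, w2 hq hw, cx hq hv.ty, nE hq⟩

end Pool.Agent.MP_494aff_an.Hi

end MrgPart3

-- ======== part 4: formerly Pool.Agent.MP_494aff_an.hi.Frz
section MrgPart4

/-! Freezing the components that lie on lines. -/

namespace Pool.Agent.MP_494aff_an.Hi

open Pool.Agent.MP_494aff_an.Se Pool.Agent.MP_494aff_an.Fr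

open Classical

namespace Frz

variable {G T J J' B' : Type}

/-- A positive base of `j` lies in a member of the family. -/
def AB (S' : Sys G T J' B') (K : Finset (J × ℝ × ℝ)) (π : J' → J) (j : J') : Prop :=
  ∃ p ∈ K, p.1 = π j ∧ ∃ d, S'.cp d = j ∧ S'.lo d < S'.hi d ∧ p.2.1 ≤ S'.lo d ∧ S'.hi d ≤ p.2.2

theorem cell {S' : Sys G T J' B'} {Q : Finset ℝ} (hc : S'.Cell Q) {a b : ℝ} (ha : a ∈ Q)
    (hb : b ∈ Q) {d₀ d : B' × Bool} (h0 : S'.lo d₀ < S'.hi d₀) (h1 : a ≤ S'.lo d₀)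
    (h2 : S'.hi d₀ ≤ b) (hd : S'.cp d = S'.cp d₀) : a ≤ S'.lo d ∧ S'.hi d ≤ b := by
  constructor
  · rcases hc a ha (S'.cp d₀) with k | k
    · linarith [k d₀ rfl]
    · exact k d hd
  · rcases hc b hb (S'.cp d₀) with k | k
    · exact k d hd
    · linarith [k d₀ rfl]

end Frz

open Frz in
theorem frz (h : Dyn0Stmt) : FrzStmt := by
  intro G T J B J' B' _ _ _ Ln S l r K Q S' π ρ hT hS hI hF hQ hS' hR hC
  have all : ∀ j, AB S' K π j → ∃ p ∈ K, p.1 = π j ∧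
      ∀ d, S'.cp d = j → p.2.1 ≤ S'.lo d ∧ S'.hi d ≤ p.2.2 := by
    rintro j ⟨p, hp, e, d₀, rfl, h0, h1, h2⟩
    exact ⟨p, hp, e, fun d hd => cell hC (hQ p hp).1 (hQ p hp).2 h0 h1 h2 hd⟩
  have pos : ∀ d t, S'.Pos d.1 → S.pos (ρ d.1, d.2) t = S'.pos d t := fun d t hd => by
    obtain ⟨-, e1, e2, -⟩ := hR.dart d.1 d.2 hd
    simp only [Sys.pos, e1, e2]
  have sub : ∀ d, S'.Pos d.1 → S'.Bs d ⊆ S.Bs (ρ d.1, d.2) := fun d hd =>
    Sys.bs_sub (hS.sg _) (hR.dart d.1 d.2 hd).2.1.symm (hR.dart d.1 d.2 hd).2.2.1.symm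
      (hR.dom _ hd).1 (hS'.le _) (hR.dom _ hd).2
  have mv : ∀ d, S'.Pos d.1 → AB S' K π (S'.cp d) → AB S' K π (S'.cp (op d)) := fun d hd a => by
    obtain ⟨p, hp, e, k⟩ := all _ a
    obtain ⟨k1, k2⟩ := k d rfl
    have m : ∀ t, S'.al d.1 ≤ t → t ≤ S'.be d.1 → S.pos (ρ d.1, d.2) t ∈ Set.Icc p.2.1 p.2.2 :=
      fun t t1 t2 => by
        have := Sys.pos_mem (hS'.sg d) t1 t2
        rw [pos d t hd]
        exact ⟨k1.trans this.1, this.2.trans k2⟩
    obtain ⟨q, hq, e', m1, m2⟩ := hF.move p hp (ρ d.1, d.2) _ _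
      ((hR.dart d.1 d.2 hd).1.trans e.symm) (hR.dom _ hd).1 hd (hR.dom _ hd).2
      (m _ le_rfl (hS'.le _)) (m _ (hS'.le _) le_rfl)
    have p1 := pos (op d) (S'.al d.1) hd
    have p2 := pos (op d) (S'.be d.1) hd
    refine ⟨q, hq, e'.trans (hR.dart d.1 (!d.2) hd).1, op d, rfl,
      (Sys.pos_iff (hS'.sg _) (hS'.le _)).1 hd, le_min (p1 ▸ m1.1) (p2 ▸ m2.1),
      max_le (p1 ▸ m1.2) (p2 ▸ m2.2)⟩
  obtain ⟨ty, ty1, ty2⟩ : ∃ ty : J' → Ty, (∀ j, AB S' K π j → ty j = Ty.ab) ∧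
      ∀ j, ¬ AB S' K π j → ty j = Ty.act :=
    ⟨fun j => if AB S' K π j then Ty.ab else Ty.act, fun j a => if_pos a, fun j a => if_neg a⟩
  have ab : ∀ j, ty j = Ty.ab → AB S' K π j := fun j e => by
    by_contra a
    rw [ty2 j a] at e
    cases e
  have sb : S.Sub (S'.retype ty) π := Sys.Sub.of_piece fun b i p =>
    ⟨ρ b, ⟨hR.pos p.1, hI.act _⟩, sub (b, i) p.1, fun i' => hR.dart b i' p.1⟩
  have off : ∀ j x₁ x₂ j' s c g, x₁ < x₂ → (S'.retype ty).Wd j x₁ x₂ j' s c g →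
      (j' = j ∧ s = 1 ∧ c = 0 ∧ g = 1) ∨ Sys.Off l r K (π j) x₁ x₂ := by
    intro j x₁ x₂ j' s c g lt w
    refine w.first.imp_right ?_
    rintro ⟨d, rfl, p, m1, m2⟩
    have b := hI.bs (ρ d.1, d.2)
    rw [(hR.dart d.1 d.2 p.1).1] at b
    refine ⟨b.1.trans (sub d p.1 m1).1, lt, (sub d p.1 m2).2.trans b.2, fun q hq e => ?_⟩
    rcases hC _ (hQ q hq).1 (S'.cp d) with k1 | k1
    · exact Or.inl (m2.2.trans (k1 d rfl))
    rcases hC _ (hQ q hq).2 (S'.cp d) with k2 | k2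
    · have := (ty1 _ ⟨q, hq, e, d, rfl, (Sys.pos_iff (hS'.sg _) (hS'.le _)).1 p.1, k1 d rfl,
        k2 d rfl⟩).symm.trans p.2
      cases this
    · exact Or.inr ((k2 d rfl).trans m1.1)
  refine ⟨ty, hS'.retype ty, fun d hd => ?_, ?_, fun d _ _ _ _ _ _ _ _ q => ?_,
    fun j x₁ x₂ g lt w => ?_, fun j x₁ x₂ g lt w => ?_, fun j x₁ x₂ lt => ?_⟩
  · change ty (S'.cp d) = ty (S'.cp (op d))
    by_cases a : AB S' K π (S'.cp d)
    · rw [ty1 _ a, ty1 _ (mv d hd a)]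
    · rw [ty2 _ a, ty2 _ fun a' => a (by simpa using mv (op d) hd a')]
  · have : ∀ j, ∃ A : Set T, ty j = Ty.ab → A ∈ Ln ∧
        ∀ d, S'.cp d = j → ∀ x ∈ S'.Bs d, S'.io j x ∈ A := fun j => by
      by_cases a : AB S' K π j
      · obtain ⟨p, hp, e, k⟩ := all _ a
        obtain ⟨s1, -, s2, A, hA, s3⟩ := hF.spc p hp
        refine ⟨A, fun _ => ⟨hA, fun d hd x hx => ?_⟩⟩
        have x1 := (k d hd).1.trans hx.1
        have x2 := hx.2.trans (k d hd).2
        rw [hR.io, ← e]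
        exact (s3 x (s1.trans x1) (x2.trans s2)).2 ⟨x1, x2⟩
      · exact ⟨∅, fun e => absurd (ab j e) a⟩
    choose A hA using this
    exact ⟨A, fun j e => (hA j e).1, fun d e => (hA _ e).2 d rfl⟩
  · change ty (S'.cp d) = Ty.qd at q
    by_cases a : AB S' K π (S'.cp d)
    · rw [ty1 _ a] at q
      cases q
    · rw [ty2 _ a] at q
      cases q
  · rcases off _ _ _ _ _ _ _ lt w with e | o
    · exact e.2.2.2
    · exact (h G T J B Ln S l r K _ _ _ hT hS hI hF o).1 g (sb.wd w)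
  · rcases off _ _ _ _ _ _ _ lt w with e | o
    · linarith [e.2.1]
    · exact (h G T J B Ln S l r K _ _ _ hT hS hI hF o).2.1 g (sb.wd w)
  · by_cases o : Sys.Off l r K (π j) x₁ x₂
    · obtain ⟨ε, hε, k⟩ := (h G T J B Ln S l r K _ _ _ hT hS hI hF o).2.2
      exact ⟨ε, hε, fun τ g w => k τ g (sb.wd w)⟩
    · exact ⟨1, one_pos, fun τ g w _ => ((off _ _ _ _ _ _ _ lt w).resolve_right o).2.2.1⟩

end Pool.Agent.MP_494aff_an.Hi

end MrgPart4

-- ======== part 5: formerly Pool.Agent.MP_494aff_an.hi.Init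
section MrgPart5

/-! The first band system. -/

namespace Pool.Agent.MP_494aff_an.Hi

open Pool.Agent.MP_494aff_an.Se Pool.Agent.MP_494aff_an.Fr

open Classical

namespace InitP

noncomputable section

variable {G T : Type} [Group G] [MetricSpace T] [MulAction G T] {Ln : Set (Set T)}

/-- The point at distance `t` from `x` on the arc from `x` to `y`. -/
def seg (x y : T) (t : ℝ) : T :=
  if h : ∃ p, dist x p = t ∧ dist p y = dist x y - t then h.choose else x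

/-- The Gromov product. -/
def gp (x y z : T) : ℝ := (dist x y + dist x z - dist y z) / 2

lemma seg_spec (h : Tr G Ln) {x y : T} {t : ℝ} (h0 : 0 ≤ t) (h1 : t ≤ dist x y) :
    dist x (seg x y t) = t ∧ dist (seg x y t) y = dist x y - t := by
  have := h.geo x y t h0 h1
  unfold seg
  rw [dif_pos this]
  exact this.choose_spec

lemma gp_nonneg (x y z : T) : 0 ≤ gp x y z := by
  have := dist_triangle y x z
  rw [dist_comm y x] at this
  unfold gp
  linarith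

lemma gp_le (x y z : T) : gp x y z ≤ dist x y := by
  have := dist_triangle x y z
  unfold gp
  linarith

lemma gp_comm (x y z : T) : gp x y z = gp x z y := by
  unfold gp
  rw [dist_comm y z, add_comm]

/-- Arcs with a common start agree up to the Gromov product. -/
lemma pre (h : Tr G Ln) {x y z p q : T} {t : ℝ} (h1 : t ≤ gp x y z) (a : dist x p = t)
    (b : dist p y = dist x y - t) (c : dist x q = t) (d : dist q z = dist x z - t) : p = q := by
  unfold gp at h1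
  have h5 := dist_triangle x p z
  have h6 : dist x p + dist p z = dist x z := by
    have h7 := h.four p z x y
    rw [dist_comm p x, dist_comm z y, dist_comm z x] at h7
    rcases le_max_iff.1 h7 with h8 | h8 <;> linarith
  have := h.uniq x z p q h6 (by linarith)
  rw [a, c, sub_self, abs_zero] at this
  exact dist_eq_zero.1 this

variable (S : Finset G)

/-- Products inside `S`. -/
abbrev Tri : Type := {x : S × S × S // x.1.1 * x.2.1.1 = x.2.2.1}

/-- The bands. -/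
abbrev Bd : Type := S ⊕ S ⊕ Tri S ⊕ Tri S ⊕ Tri S

/-- Component, direction and label of a dart. -/
def dt : Bd S × Bool → Option S × Bool × G
  | (.inl _, false) => (none, true, 1)
  | (.inl s, true) => (some s, true, 1)
  | (.inr (.inl s), false) => (none, true, s.1⁻¹)
  | (.inr (.inl s), true) => (some s, false, 1)
  | (.inr (.inr (.inl τ)), false) => (some τ.1.1, true, 1)
  | (.inr (.inr (.inl τ)), true) => (some τ.1.2.2, true, 1)
  | (.inr (.inr (.inr (.inl τ))), false) => (some τ.1.1, false, 1)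
  | (.inr (.inr (.inr (.inl τ))), true) => (some τ.1.2.1, true, τ.1.1.1⁻¹)
  | (.inr (.inr (.inr (.inr τ))), false) => (some τ.1.2.1, false, τ.1.1.1⁻¹)
  | (.inr (.inr (.inr (.inr τ))), true) => (some τ.1.2.2, false, 1)

/-- The element of a component. -/
def el (j : Option S) : G := j.elim 1 Subtype.val

/-- Start of a dart. -/
def pp (d : Bd S × Bool) : G := (dt S d).2.2⁻¹ * if (dt S d).2.1 then 1 else el S (dt S d).1

/-- End of a dart. -/
def qq (d : Bd S × Bool) : G := (dt S d).2.2⁻¹ * if (dt S d).2.1 then el S (dt S d).1 else 1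

lemma pp_eq (b : Bd S) : pp S (b, true) = pp S (b, false) := by
  rcases b with s | s | τ | τ | τ <;> simp [pp, dt, el]
  exact τ.2.symm

variable (x : T)

/-- Length of a component. -/
def rr (j : Option S) : ℝ := dist x (el S j • x)

/-- Width of a band. -/
def len (b : Bd S) : ℝ := gp (pp S (b, false) • x) (qq S (b, false) • x) (qq S (b, true) • x)

/-- The system. -/
def sys : Sys G T (Option S) (Bd S) where
  al _ := 0
  be := len S x
  cp d := (dt S d).1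
  a d := if (dt S d).2.1 then 0 else rr S x (dt S d).1
  e d := if (dt S d).2.1 then 1 else -1
  ga d := (dt S d).2.2
  st b := {0, len S x b}
  ty _ := Ty.act
  io j := seg x (el S j • x)

variable {S x}

lemma dist_pq (h : Tr G Ln) (d : Bd S × Bool) :
    dist (pp S d • x) (qq S d • x) = rr S x (dt S d).1 := by
  unfold pp qq rr
  rw [mul_smul, mul_smul, h.iso]
  split_ifs
  · rw [one_smul]
  · rw [one_smul, dist_comm]

lemma len_le (h : Tr G Ln) (d : Bd S × Bool) : len S x d.1 ≤ rr S x (dt S d).1 := by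
  rw [← dist_pq h]
  obtain ⟨b, _ | _⟩ := d
  · exact gp_le _ _ _
  · unfold len
    rw [gp_comm, pp_eq]
    exact gp_le _ _ _

lemma on_arc (h : Tr G Ln) (d : Bd S × Bool) {t : ℝ} (h0 : 0 ≤ t) (h1 : t ≤ len S x d.1) :
    dist (pp S d • x) (((sys S x).ga d)⁻¹ • (sys S x).io ((sys S x).cp d) ((sys S x).pos d t)) = t ∧
    dist (((sys S x).ga d)⁻¹ • (sys S x).io ((sys S x).cp d) ((sys S x).pos d t)) (qq S d • x) =
      dist (pp S d • x) (qq S d • x) - t := by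
  have h2 := h1.trans (len_le h d)
  rw [dist_pq h]
  simp only [sys, Sys.pos, pp, qq, mul_smul, h.iso]
  unfold rr at h2 ⊢
  split_ifs
  · simpa using seg_spec h h0 h2
  · obtain ⟨k1, k2⟩ := seg_spec h (x := x) (y := el S (dt S d).1 • x)
      (t := dist x (el S (dt S d).1 • x) + -1 * t) (by linarith) (by linarith)
    rw [one_smul, dist_comm _ x, dist_comm (el S _ • x), k1, k2]
    constructor <;> ring

lemma geo (h : Tr G Ln) : (sys S x).Geo := by
  have key : ∀ b t, 0 ≤ t → t ≤ len S x b →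
      ((sys S x).ga (b, false))⁻¹ • (sys S x).io ((sys S x).cp (b, false))
        ((sys S x).pos (b, false) t) =
      ((sys S x).ga (b, true))⁻¹ • (sys S x).io ((sys S x).cp (b, true))
        ((sys S x).pos (b, true) t) := by
    intro b t h0 h1
    obtain ⟨k1, k2⟩ := on_arc h (b, false) h0 h1
    obtain ⟨k3, k4⟩ := on_arc h (b, true) h0 h1
    rw [pp_eq] at k3 k4
    exact pre h h1 k1 k2 k3 k4
  rintro ⟨b, _ | _⟩ t h0 h1
  · exact key b t h0 h1
  · exact (key b t h0 h1).symm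

lemma iso (h : Tr G Ln) : (sys S x).Iso (fun _ => 0) (rr S x) := by
  refine ⟨fun _ => rfl, fun j s t h1 h2 h3 h4 => ?_, fun d => ?_⟩
  · obtain ⟨k1, k2⟩ := seg_spec h h1 h2
    obtain ⟨k3, k4⟩ := seg_spec h h3 h4
    have := h.uniq x (el S j • x) _ _ (by rw [k1, k2]; ring) (by rw [k3, k4]; ring)
    rwa [k1, k3] at this
  · have h1 := len_le (x := x) h d
    have h2 : 0 ≤ len S x d.1 := gp_nonneg _ _ _
    simp only [sys, Sys.lo, Sys.hi, Sys.pos, le_min_iff, max_le_iff]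
    split_ifs <;> refine ⟨⟨?_, ?_⟩, ?_, ?_⟩ <;> linarith

lemma conn (hS : Subgroup.closure (S : Set G) = ⊤) : (sys S x).Conn := by
  intro X hX
  have h1 : ∀ j g, g ∈ X j ↔ g ∈ X none := by
    rintro (_ | s) g
    · rfl
    · exact ⟨fun k => by simpa [sys, dt] using hX (.inl s, true) g (by simpa [sys, dt] using k),
        fun k => by simpa [sys, dt] using hX (.inl s, false) g (by simpa [sys, dt] using k)⟩
  have h2 : ∀ s : S, ∀ g, g ∈ X none ↔ s.1⁻¹ * g ∈ X none := fun s g =>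
    (h1 (some s) g).symm.trans
      ⟨fun k => by simpa [sys, dt] using hX (.inr (.inl s), true) g (by simpa [sys, dt] using k),
        fun k => by simpa [sys, dt] using hX (.inr (.inl s), false) g (by simpa [sys, dt] using k)⟩
  have h3 : ∀ k : G, ∀ g, g ∈ X none ↔ k * g ∈ X none := by
    intro k
    have hk : k ∈ Subgroup.closure (S : Set G) := hS ▸ Subgroup.mem_top k
    induction hk using Subgroup.closure_induction with
    | mem s hs => exact fun g => by simpa using (h2 ⟨s, hs⟩ (s * g)).symm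
    | one => simp
    | mul a b _ _ ha hb => exact fun g => by rw [mul_assoc, ← ha, ← hb]
    | inv a _ ha => exact fun g => by simpa using (ha (a⁻¹ * g)).symm
  intro j g hg j' g'
  simpa using (h1 j' _).2 ((h3 (g' * g⁻¹) g).1 ((h1 j g).1 hg))

lemma ext (h : Tr G Ln) (hS : ∀ ψ : G → F2,
    (∀ s ∈ S, ∀ s' ∈ S, s * s' ∈ S → ψ (s * s') = ψ s * ψ s') →
      ∃ Ψ : G →* F2, ∀ s ∈ S, Ψ s = ψ s) : (sys S x).Ext := by
  rintro u ⟨f, hf⟩
  set v : Bd S → F2 := fun b => u (b, true) * (u (b, false))⁻¹ with hv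
  have E : ∀ b, ∀ t ∈ (sys S x).st b, ∀ g,
      f ((sys S x).cp (b, true)) ((sys S x).pos (b, true) t) ((sys S x).ga (b, true) * g) =
      v b * f ((sys S x).cp (b, false)) ((sys S x).pos (b, false) t)
        ((sys S x).ga (b, false) * g) := by
    intro b t ht g
    have := hf (b, false) t ht g
    simp only [hv, mul_assoc, this]
    simp
  have E0 := fun b => E b 0 (by simp [sys])
  have E1 := fun b => E b (len S x b) (by simp [sys])
  set p : S → F2 := fun s => v (.inl s) with hp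
  set q : S → F2 := fun s => v (.inr (.inl s)) with hq
  have P : ∀ s g, f (some s) 0 g = p s * f none 0 g := fun s g => by
    simpa [sys, dt, Sys.pos] using E0 (.inl s) g
  have Q : ∀ s g, f (some s) (rr S x (some s)) g = q s * f none 0 (s.1⁻¹ * g) := fun s g => by
    simpa [sys, dt, Sys.pos] using E0 (.inr (.inl s)) g
  have V1 : ∀ τ : Tri S, v (.inr (.inr (.inl τ))) = p τ.1.2.2 * (p τ.1.1)⁻¹ := fun τ => by
    have := E0 (.inr (.inr (.inl τ))) 1
    simp only [sys, dt, Sys.pos, if_true, mul_zero, add_zero, P, ← mul_assoc, mul_left_inj] at this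
    rw [this]
    group
  have V2 : ∀ τ : Tri S, v (.inr (.inr (.inr (.inl τ)))) = p τ.1.2.1 * (q τ.1.1)⁻¹ := fun τ => by
    have := E0 (.inr (.inr (.inr (.inl τ)))) 1
    simp only [sys, dt, Sys.pos, if_true, mul_zero, add_zero, P, Bool.false_eq_true, if_false, Q,
      mul_one, ← mul_assoc, mul_left_inj] at this
    rw [this]
    group
  have V3 : ∀ τ : Tri S, v (.inr (.inr (.inr (.inr τ)))) = q τ.1.2.2 * (q τ.1.2.1)⁻¹ := fun τ => by
    have := E0 (.inr (.inr (.inr (.inr τ)))) 1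
    simp only [sys, dt, Sys.pos, mul_zero, add_zero, Bool.false_eq_true, if_false, Q,
      mul_one, ← mul_assoc, ← τ.2, mul_inv_rev, mul_left_inj] at this
    rw [this]
    group
  have M : ∀ τ : Tri S, (p τ.1.2.2)⁻¹ * q τ.1.2.2 =
      (p τ.1.1)⁻¹ * q τ.1.1 * ((p τ.1.2.1)⁻¹ * q τ.1.2.1) := fun τ => by
    have e1 := E1 (.inr (.inr (.inl τ))) 1
    have e2 := E1 (.inr (.inr (.inr (.inl τ)))) 1
    have e3 := E1 (.inr (.inr (.inr (.inr τ)))) 1
    have d1 : dist (τ.1.1.1 • x) (τ.1.2.2.1 • x) = dist x (τ.1.2.1.1 • x) := by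
      rw [← τ.2, mul_smul, h.iso]
    have l2 : rr S x (some τ.1.1) + -len S x (.inr (.inr (.inr (.inl τ)))) =
        len S x (.inr (.inr (.inl τ))) := by
      simp only [rr, len, gp, pp, qq, dt, el, Option.elim, if_true, Bool.false_eq_true, if_false,
        inv_one, one_mul, mul_one, one_smul, inv_inv, τ.2, dist_comm (τ.1.1.1 • x) x]
      ring
    have l3 : rr S x (some τ.1.2.2) + -len S x (.inr (.inr (.inr (.inr τ)))) =
        len S x (.inr (.inr (.inl τ))) := by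
      simp only [rr, len, gp, pp, qq, dt, el, Option.elim, if_true, Bool.false_eq_true, if_false,
        inv_one, one_mul, mul_one, one_smul, inv_inv, τ.2, dist_comm (τ.1.1.1 • x) x,
        dist_comm (τ.1.2.2.1 • x)]
      ring
    have l4 : rr S x (some τ.1.2.1) + -len S x (.inr (.inr (.inr (.inr τ)))) =
        len S x (.inr (.inr (.inr (.inl τ)))) := by
      simp only [rr, len, gp, pp, qq, dt, el, Option.elim, if_true, Bool.false_eq_true, if_false,
        inv_one, one_mul, mul_one, one_smul, inv_inv, τ.2, dist_comm (τ.1.1.1 • x) x,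
        dist_comm (τ.1.2.2.1 • x), ← d1]
      ring
    simp only [sys, dt, Sys.pos, if_true, Bool.false_eq_true, if_false, zero_add, one_mul, mul_one,
      neg_mul, l2, l3, l4] at e1 e2 e3
    rw [e2, e1, ← mul_assoc, mul_left_inj, V1, V2, V3, mul_inv_eq_iff_eq_mul] at e3
    rw [e3]
    group
  obtain ⟨Ψ, hΨ⟩ := hS (fun g => if k : g ∈ S then (p ⟨g, k⟩)⁻¹ * q ⟨g, k⟩ else 1)
    fun s hs s' hs' k => by
      simp only [dif_pos hs, dif_pos hs', dif_pos k]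
      exact M ⟨(⟨s, hs⟩, ⟨s', hs'⟩, ⟨_, k⟩), rfl⟩
  have H : ∀ s : S, Ψ s = (p s)⁻¹ * q s := fun s => by rw [hΨ s s.2, dif_pos s.2]
  have W : ∀ b, v b = ((sys S x).cp (b, true)).elim 1 p * Ψ ((sys S x).ga (b, true)) *
      (((sys S x).cp (b, false)).elim 1 p * Ψ ((sys S x).ga (b, false)))⁻¹ := by
    rintro (s | s | τ | τ | τ)
    · simp [sys, dt, hp]
    · simp [sys, dt, hq, H]
    · simp [sys, dt, V1]
    · simp [sys, dt, V2, H, mul_assoc]
    · have := M τ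
      simp only [sys, dt, V3, map_inv, H, Option.elim, map_one, mul_one]
      rw [inv_mul_eq_iff_eq_mul] at this
      rw [this]
      group
  refine ⟨Ψ, fun j => j.elim 1 p, fun b => (u (b, false))⁻¹ *
    (((sys S x).cp (b, false)).elim 1 p * Ψ ((sys S x).ga (b, false))), ?_⟩
  rintro ⟨b, _ | _⟩
  · simp only []
    group
  · have := W b
    simp only [hv] at this
    rw [mul_inv_eq_iff_eq_mul] at this
    simp only []
    rw [this]
    group

end

end InitP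

theorem init : InitStmt := by
  intro G T _ _ _ Ln h ⟨S, h1, h2⟩
  obtain ⟨x⟩ := h.ne
  refine ⟨_, _, inferInstance, inferInstance, InitP.sys S x, _, _, ⟨⟨none⟩,
    fun _ => InitP.gp_nonneg _ _ _, fun d => ?_, fun b t ht => ?_, InitP.geo h, InitP.ext h h2,
    InitP.conn h1⟩, InitP.iso h⟩
  · simp only [InitP.sys]
    split_ifs <;> simp
  · have : 0 ≤ InitP.len S x b := InitP.gp_nonneg _ _ _
    simp only [InitP.sys, Finset.mem_insert, Finset.mem_singleton] at ht ⊢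
    rcases ht with rfl | rfl <;> simp [this]

end Pool.Agent.MP_494aff_an.Hi

end MrgPart5

-- ======== part 6: formerly Pool.Agent.MP_494aff_an.hi.Mach0
section MrgPart6

/-! The machine stops. -/

namespace Pool.Agent.MP_494aff_an.Hi

open Pool.Agent.MP_494aff_an.Se Pool.Agent.MP_494aff_an.Fr

open Classical

theorem mach0 (h1 : Ph1Stmt) (h2 : StcStmt) (h3 : StvStmt) (h4 : StwStmt) (h5 : StrStmt)
    (h6 : RunAStmt) (h7 : RunBStmt) (h8 : FrqStmt) : Mach0Stmt := by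
  intro G T J₀ B₀ _ _ f₁ f₂ Ln S₀ v₀
  have e1 : ∃ c, ∃ (J B : Type) (_ : Fintype J) (_ : Fintype B) (S : Sys G T J B),
      S.Valid Ln ∧ S.cx = c := ⟨_, J₀, B₀, f₁, f₂, S₀, v₀, rfl⟩
  have m1 : ∀ (J B : Type) [Fintype J] [Fintype B] (S : Sys G T J B), S.Valid Ln →
      Nat.find e1 ≤ S.cx := fun J B f g S v => Nat.find_min' e1 ⟨J, B, f, g, S, v, rfl⟩
  have e2 : ∃ n, ∃ (J B : Type) (_ : Fintype J) (_ : Fintype B) (S : Sys G T J B),
      (S.Valid Ln ∧ S.W2 ∧ S.cx ≤ Nat.find e1) ∧ S.nE = n := by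
    obtain ⟨J, B, _, _, S, v, hc⟩ := Nat.find_spec e1
    obtain ⟨J', B', f, g, S', v', w', c'⟩ := h1 G T J B Ln S v
    exact ⟨_, J', B', f, g, S', ⟨v', w', hc ▸ c'⟩, rfl⟩
  have m2 : ∀ (J B : Type) [Fintype J] [Fintype B] (S : Sys G T J B), S.Valid Ln → S.W2 →
      S.cx ≤ Nat.find e1 → Nat.find e2 ≤ S.nE :=
    fun J B f g S v w c => Nat.find_min' e2 ⟨J, B, f, g, S, ⟨v, w, c⟩, rfl⟩
  obtain ⟨J, B, f, g, S, ⟨v, w, c⟩, hn⟩ := Nat.find_spec e2
  refine ⟨J, B, f, g, S, v, fun d₀ p₀ => ?_⟩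
  let P : Sys G T J B → Prop := fun R => R.Valid Ln ∧ R.W2 ∧ R.cx ≤ Nat.find e1 ∧
    R.nE ≤ Nat.find e2 ∧ ∃ d, R.PA d ∧ R.cp d = S.cp d₀
  have st : ∀ R : {R // P R}, ∃ (d : B × Bool) (z : ℝ) (R' : {R // P R}),
      R.1.cp d = S.cp d₀ ∧ R.1.Car d z ∧ z < R.1.hi d ∧ R.1.Reg R'.1 d z := by
    rintro ⟨R, v, w, c, n, d₁, p₁, c₁⟩
    rcases h2 G T J B Ln R d₁ v p₁ with ⟨R', v', c'⟩ | ⟨d, z, hc, car⟩
    · exact absurd (m1 J B R' v') (by omega)
    obtain ⟨v', c'⟩ := h3 G T J B Ln R d z v car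
    have w' := h4 G T J B Ln R d z v w car
    obtain ⟨k1, k2⟩ := h5 G T J B Ln R d z v w car
    have lt : z < R.hi d := car.le.lt_of_ne fun e =>
      absurd (m2 J B _ v' w' (c'.trans c)) (by have := k1 e; omega)
    have reg := k2 lt
    have n' : (R.step d z).nE = R.nE := by
      unfold Sys.nE
      congr 1
      ext ν
      simp [reg.pa]
    exact ⟨d, z, ⟨_, v', w', c'.trans c, n' ▸ n, d, (reg.pa d).2 car.pa,
      reg.car.1.trans (hc.trans c₁)⟩, hc.trans c₁, car, lt, reg⟩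
  choose dd zz nx s1 s2 s3 s4 using st
  let R : ℕ → {R // P R} := fun i => nx^[i] ⟨S, v, w, c, hn.le, d₀, p₀, rfl⟩
  have hR : ∀ i, R (i + 1) = nx (R i) := fun i => Function.iterate_succ_apply' _ _ _
  have lo : ∀ i, (R (i + 1)).1.lo (dd (R (i + 1))) = zz (R i) := by
    intro i
    have r := s4 (R i)
    rw [← hR] at r
    have car := s2 (R (i + 1))
    refine le_antisymm ?_ (r.left _ car.pa ((s1 _).trans (s1 _).symm))
    rw [← r.car.2.1]
    exact car.left _ ((r.pa _).2 (s2 _).pa) (r.car.1.trans ((s1 _).trans (s1 _).symm))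
  have run : Run Ln (fun i => (R i).1) (S.cp d₀) (fun i => dd (R i))
      fun i => (R i).1.lo (dd (R i)) :=
    ⟨fun i => (R i).2.1, fun i => (R i).2.2.1, fun i => s1 _, fun _ => rfl,
      fun i => by simpa only [lo] using s2 (R i), fun i => by simpa only [lo] using s3 (R i),
      fun i => by simpa only [lo, hR i ▸ lo i, hR] using s4 (R i)⟩
  obtain ⟨Z, z1, z2⟩ := h6 G T J B Ln _ _ _ _ run
  obtain ⟨i, X, q⟩ := h7 G T J B Ln _ _ _ _ Z run z1 z2
  obtain ⟨v, w, c, n, -⟩ := (R i).2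
  obtain ⟨S', v', w', c', n'⟩ := h8 G T J B Ln _ _ Z X v w q
  exact absurd (m2 _ _ S' v' w' (c'.trans c)) (by omega)

end Pool.Agent.MP_494aff_an.Hi

end MrgPart6

-- ======== part 7: formerly Pool.Agent.MP_494aff_an.hi.RunB
section MrgPart7

/-! A convergent run has a quadratic part. -/

open Filter Topology

namespace Pool.Agent.MP_494aff_an.Hi

open Pool.Agent.MP_494aff_an.Se Pool.Agent.MP_494aff_an.Fr

open Classical

namespace RunB

variable {G T J B : Type} [Group G] [MulAction G T] {Ln : Set (Set T)} {S : ℕ → Sys G T J B}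
  {j : J} {d : ℕ → B × Bool} {z : ℕ → ℝ} {Z : ℝ}

/-- The width of a band. -/
def L (S : ℕ → Sys G T J B) (i : ℕ) (b : B) : ℝ := (S i).be b - (S i).al b

theorem z_lt (R : Run Ln S j d z) (i : ℕ) : z i < z (i + 1) := by
  have := (R.car i).lt
  rwa [R.lo i] at this

theorem pa_iff (R : Run Ln S j d z) (i k : ℕ) (ν : B × Bool) : (S i).PA ν ↔ (S k).PA ν := by
  have key : ∀ i, (S i).PA ν ↔ (S 0).PA ν := by
    intro i
    induction i with
    | zero => rfl
    | succ i ih => exact ((R.reg i).pa ν).trans ih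
  exact (key i).trans (key k).symm

theorem len (R : Run Ln S j d z) (i : ℕ) (ν : B × Bool) :
    (S i).hi ν - (S i).lo ν = L S i ν.1 :=
  Sys.hi_sub_lo ((R.valid i).core.sg ν) ((R.valid i).core.le _)

theorem L_succ (R : Run Ln S j d z) (i : ℕ) (b : B) :
    L S (i + 1) b = L S i b - if b = (d i).1 then z (i + 1) - z i else 0 := by
  have := (R.reg i).len b
  rwa [R.lo i] at this

theorem L_anti (R : Run Ln S j d z) (b : B) : Antitone fun i => L S i b := by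
  refine antitone_nat_of_succ_le fun i => ?_
  have := z_lt R i
  rw [L_succ R i b]
  split_ifs <;> linarith

theorem L_nonneg (R : Run Ln S j d z) (i : ℕ) (b : B) : 0 ≤ L S i b :=
  sub_nonneg.2 ((R.valid i).core.le b)

theorem L_car (R : Run Ln S j d z) (hZ : ∀ i, (S i).hi (d i) ≤ Z) (i : ℕ) :
    L S i (d i).1 ≤ Z - z i := by
  rw [← len R i, R.lo i]
  linarith [hZ i]

theorem L_zero (R : Run Ln S j d z) (hz : Tendsto z atTop (𝓝 Z))
    (hZ : ∀ i, (S i).hi (d i) ≤ Z) {b : B} (hb : ∃ᶠ i in atTop, (d i).1 = b) :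
    Tendsto (fun i => L S i b) atTop (𝓝 0) := by
  refine tendsto_order.2 ⟨fun a ha => Eventually.of_forall fun i => ha.trans_le (L_nonneg R i b),
    fun a ha => ?_⟩
  have h1 : ∀ᶠ i in atTop, Z - a < z i := (tendsto_order.1 hz).1 _ (by linarith)
  obtain ⟨i, rfl, h2⟩ := (hb.and_eventually h1).exists
  filter_upwards [eventually_ge_atTop i] with k hk
  have h3 : L S k (d i).1 ≤ L S i (d i).1 := L_anti R (d i).1 hk
  have := L_car R hZ i
  linarith

theorem pa_of (R : Run Ln S j d z) {ν : B × Bool} (hb : ∃ᶠ i in atTop, (d i).1 = ν.1) (k : ℕ) :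
    (S k).PA ν := by
  obtain ⟨i, hi⟩ := hb.exists
  rw [pa_iff R k i]
  rcases eq_or_op hi.symm with rfl | rfl
  · exact (R.car i).pa
  · exact (R.car i).pa.op (R.valid i).ty

theorem L_const (R : Run Ln S j d z) {N : ℕ} {b : B} (hb : ∀ i, N ≤ i → (d i).1 ≠ b) {i : ℕ}
    (hi : N ≤ i) : L S i b = L S N b := by
  induction i, hi using Nat.le_induction with
  | base => rfl
  | succ i hi ih => rw [L_succ R, if_neg fun e => hb i hi e.symm, sub_zero, ih]

theorem sum_eq [Fintype B] (R : Run Ln S j d z) (hz : Tendsto z atTop (𝓝 Z))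
    (hZ : ∀ i, (S i).hi (d i) ≤ Z) (X : Finset B) (hX : ∀ b ∈ X, ∃ᶠ i in atTop, (d i).1 = b)
    {N : ℕ} (hN : ∀ i, N ≤ i → (d i).1 ∈ X) : ∑ b ∈ X, L S N b = Z - z N := by
  have key : ∀ i, N ≤ i → ∑ b ∈ X, L S i b + z i = ∑ b ∈ X, L S N b + z N := by
    intro i hi
    induction i, hi using Nat.le_induction with
    | base => rfl
    | succ i hi ih =>
      simp only [L_succ R, Finset.sum_sub_distrib, Finset.sum_ite_eq', if_pos (hN i hi)]
      linarith
  have h1 : Tendsto (fun i => ∑ b ∈ X, L S i b + z i) atTop (𝓝 (∑ _b ∈ X, (0 : ℝ) + Z)) :=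
    (tendsto_finsetSum _ fun b hb => L_zero R hz hZ (hX b hb)).add hz
  have h2 : Tendsto (fun i => ∑ b ∈ X, L S i b + z i) atTop (𝓝 (∑ b ∈ X, L S N b + z N)) :=
    tendsto_const_nhds.congr' (by
      filter_upwards [eventually_ge_atTop N] with i hi using (key i hi).symm)
  have := tendsto_nhds_unique h1 h2
  simp only [Finset.sum_const_zero, zero_add] at this
  linarith

theorem right (R : Run Ln S j d z) (hz : Tendsto z atTop (𝓝 Z))
    (hZ : ∀ i, (S i).hi (d i) ≤ Z) {N : ℕ} {ν : B × Bool} (hb : ∀ i, N ≤ i → (d i).1 ≠ ν.1)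
    (hs : ∀ i, N ≤ i → Z - z i < L S N ν.1) (hp : (S N).PA ν) (hc : (S N).cp ν = j) :
    Z ≤ (S N).lo ν := by
  have key : ∀ i, N ≤ i → (S i).cp ν = j ∧ (S i).lo ν = (S N).lo ν := by
    intro i hi
    induction i, hi using Nat.le_induction with
    | base => exact ⟨hc, rfl⟩
    | succ i hi ih =>
      have e1 := len R i ν
      have e2 := len R (i + 1) ν
      rw [L_const R hb hi] at e1
      rw [L_const R hb (hi.trans (Nat.le_succ i))] at e2
      rcases (R.reg i).mv ν ((pa_iff R i N ν).2 hp) with ⟨h1, h2⟩ | ⟨-, h2, -⟩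
      · have := Sys.lo_le_of_sub h2
        exact ⟨h1.trans ih.1, by linarith [ih.2]⟩
      · have := Sys.lo_le_of_sub h2
        have h3 := hZ i
        have h4 := R.lo i
        have h5 := hs i hi
        linarith
  refine le_of_tendsto hz ?_
  filter_upwards [eventually_ge_atTop N] with i hi
  have := (R.car i).left ν ((pa_iff R i N ν).2 hp) ((key i hi).1.trans (R.cp i).symm)
  rwa [R.lo i, (key i hi).2] at this

theorem cover (R : Run Ln S j d z) (hz : Tendsto z atTop (𝓝 Z)) {N : ℕ} {x : ℝ} (h1 : z N < x)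
    (h2 : x < Z) : ∃ ν, (S N).PA ν ∧ (S N).cp ν = j ∧ x ∈ (S N).Bs ν := by
  have step : ∀ k, (∃ ν, (S (k + 1)).PA ν ∧ (S (k + 1)).cp ν = j ∧ x ∈ (S (k + 1)).Bs ν) →
      ∃ ν, (S k).PA ν ∧ (S k).cp ν = j ∧ x ∈ (S k).Bs ν := by
    rintro k ⟨ν, p, c, m⟩
    have p' := ((R.reg k).pa ν).1 p
    rcases (R.reg k).mv ν p' with ⟨k1, k2⟩ | ⟨-, -, k1, k2⟩
    · exact ⟨ν, p', k1.symm.trans c, k2 m⟩
    · exact ⟨op (d k), (R.car k).pa.op (R.valid k).ty, k1.symm.trans c, k2 m⟩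
  have key : ∀ n k, z k ≤ x → x < z (k + n) →
      ∃ ν, (S k).PA ν ∧ (S k).cp ν = j ∧ x ∈ (S k).Bs ν := by
    intro n
    induction n with
    | zero => exact fun k k1 k2 => absurd k2 (not_lt.2 k1)
    | succ n ih =>
      intro k k1 k2
      by_cases hx : z (k + 1) ≤ x
      · exact step k (ih (k + 1) hx (by rwa [add_assoc, add_comm 1 n]))
      · refine ⟨d k, (R.car k).pa, R.cp k, ?_, ?_⟩
        · rwa [R.lo k]
        · linarith [R.lt k, not_le.1 hx]
  obtain ⟨k, k1, k2⟩ := (((tendsto_order.1 hz).1 x h2).and (eventually_ge_atTop N)).exists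
  obtain ⟨n, rfl⟩ := Nat.exists_eq_add_of_le k2
  exact key n N h1.le k1

end RunB

open RunB

theorem runB (h : CoverStmt) : RunBStmt := by
  intro G T J B _ _ _ Ln S j d z Z R hz hZ
  set X : Finset B := Finset.univ.filter fun b => ∃ᶠ i in atTop, (d i).1 = b with hXdef
  have hX : ∀ b, b ∈ X ↔ ∃ᶠ i in atTop, (d i).1 = b := fun b => by simp [hXdef]
  have ev : ∀ᶠ i in atTop, ∀ b, b ∉ X → (d i).1 ≠ b := by
    refine eventually_all.2 fun b => ?_
    by_cases hb : b ∈ X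
    · exact Eventually.of_forall fun i k => absurd hb k
    · rw [hX, not_frequently] at hb
      exact hb.mono fun i hi _ => hi
  obtain ⟨M, hM⟩ := eventually_atTop.1 ev
  have ev2 : ∀ᶠ i in atTop, ∀ b, 0 < L S M b → Z - z i < L S M b := by
    refine eventually_all.2 fun b => ?_
    by_cases hb : 0 < L S M b
    · exact ((tendsto_order.1 hz).1 (Z - L S M b) (by linarith)).mono fun i hi _ => by linarith
    · exact Eventually.of_forall fun i k => absurd k hb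
  obtain ⟨N, hN⟩ := eventually_atTop.1 (ev2.and (eventually_ge_atTop M))
  have hMN : M ≤ N := (hN N le_rfl).2
  have hd : ∀ i, N ≤ i → (d i).1 ∈ X := fun i hi => by
    by_contra k
    exact hM i (hMN.trans hi) _ k rfl
  have hr : ∀ ν, (S N).PA ν → (S N).cp ν = j → ν.1 ∉ X → Z ≤ (S N).lo ν := by
    intro ν p c m
    have e : L S N ν.1 = L S M ν.1 := L_const R (fun i hi => hM i hi _ m) hMN
    refine right R hz hZ (fun i hi => hM i (hMN.trans hi) _ m) (fun i hi => ?_) p c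
    rw [e]
    refine (hN i hi).1 _ ?_
    rw [← e]
    exact sub_pos.2 p.1
  have lt : ∀ ν, (S N).PA ν → (S N).lo ν < (S N).hi ν := fun ν p =>
    (Sys.pos_iff ((R.valid N).core.sg ν) ((R.valid N).core.le _)).1 p.1
  obtain ⟨Q, hQ⟩ := R.w2 N
  have hs : ∑ k : {ν : B × Bool // ν.1 ∈ X}, ((S N).hi k.1 - (S N).lo k.1) ≤ 2 * (Z - z N) := by
    rw [← sum_eq R hz hZ X (fun b hb => (hX b).1 hb) hd,
      ← Finset.sum_subtype (X ×ˢ Finset.univ) (by simp) fun ν => (S N).hi ν - (S N).lo ν,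
      Finset.sum_product, Finset.mul_sum]
    simp only [len R N]
    simp
  obtain ⟨c1, c2⟩ := h {ν : B × Bool // ν.1 ∈ X} (fun k => (S N).lo k.1) (fun k => (S N).hi k.1)
    (fun k => (S N).cp k.1 = j) (z N) Z Q (fun k => lt _ (pa_of R ((hX _).1 k.2) N))
    (by linarith [z_lt R N, R.lt N, hZ N]) hs (by
      intro x x1 x2 xQ
      obtain ⟨ν, p, c, m⟩ := cover R hz x1 x2
      obtain ⟨ν', n, p', c', m'⟩ := hQ ν p x m xQ
      have a1 : ν.1 ∈ X := by
        by_contra k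
        linarith [hr ν p c k, m.1]
      have a2 : ν'.1 ∈ X := by
        by_contra k
        linarith [hr ν' p' (c'.trans c) k, m'.1]
      exact ⟨⟨ν, a1⟩, ⟨ν', a2⟩, fun e => n (congrArg Subtype.val e).symm, c, c'.trans c, m, m'⟩)
  refine ⟨N, X, ⟨d N, (R.car N).pa, R.cp N, hd N le_rfl⟩, fun ν p => ⟨fun m => ?_, fun m => ?_⟩,
    hr, fun d₁ d₂ d₃ x n1 n2 n3 _ _ _ m1 m2 m3 => ?_⟩
  · exact ⟨(c1 ⟨ν, m⟩).1, (c1 ⟨ν, m⟩).2.2⟩
  · by_contra k
    linarith [hr ν p m.1 k, lt ν p, m.2]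
  · exact c2 ⟨d₁, m1⟩ ⟨d₂, m2⟩ ⟨d₃, m3⟩ x (fun e => n1 (congrArg Subtype.val e))
      (fun e => n2 (congrArg Subtype.val e)) fun e => n3 (congrArg Subtype.val e)

end Pool.Agent.MP_494aff_an.Hi

end MrgPart7

-- ======== part 8: formerly Pool.Agent.MP_494aff_an.hi.Skel
section MrgPart8

/-! The skeleton of a band system in normal form. -/

namespace Pool.Agent.MP_494aff_an.Hi

open Pool.Agent.MP_494aff_an.Se Pool.Agent.MP_494aff_an.Fr

open Classical

namespace SkelP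

variable {G T Ω J B : Type}

/-- Steps. -/
abbrev Stp (S : Sys G T J B) : Type := Σ b : B, {t // t ∈ S.st b}

/-- The node of a step on one of the two sides. -/
def nd (S : Sys G T J B) (x : Stp S × Bool) : J × ℝ :=
  (S.cp (x.1.1, x.2), S.pos (x.1.1, x.2) x.1.2.1)

/-- The skeleton. -/
noncomputable def sk [Group G] (S : Sys G T J B) (π : T → Ω) (A : J → Set T) :
    Skel G Ω J B (Set.range (nd S)) (Stp S) where
  c0 b := S.cp (b, false)
  c1 b := S.cp (b, true)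
  γ b := S.lb (b, false)
  bd σ := σ.1
  n0 σ := ⟨_, (σ, false), rfl⟩
  n1 σ := ⟨_, (σ, true), rfl⟩
  cp p := p.1.1
  ab j := S.ty j = Ty.ab
  qd b := S.Pos b ∧ S.ty (S.cp (b, false)) = Ty.qd
  aB b := S.Pos b ∧ S.ty (S.cp (b, false)) = Ty.ab
  ωN p := π (S.io p.1.1 p.1.2)
  ωJ j := if h : (A j).Nonempty then π h.some else π (S.io j 0)

lemma stp_ext {S : Sys G T J B} {σ σ' : Stp S} (h1 : σ.1 = σ'.1) (h2 : σ.2.1 = σ'.2.1) :
    σ = σ' := by
  obtain ⟨b, t, ht⟩ := σ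
  obtain ⟨b', t', ht'⟩ := σ'
  obtain rfl : b = b' := h1
  obtain rfl : t = t' := h2
  rfl

lemma end_mem {S : Sys G T J B} {d : B × Bool} {t : ℝ} (h : t = S.al d.1 ∨ t = S.be d.1) :
    S.pos d t = S.lo d ∨ S.pos d t = S.hi d := by
  unfold Sys.lo Sys.hi
  rcases le_total (S.pos d (S.al d.1)) (S.pos d (S.be d.1)) with k | k <;> rcases h with rfl | rfl <;>
    simp [k]

end SkelP

open SkelP

theorem skel : SkelStmt := by
  intro G T Ω J B _ _ _ _ Ln π S hπ hL h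
  obtain ⟨A, A1, A2⟩ := h.ab
  have hc := h.core
  have geo : ∀ b t, S.al b ≤ t → t ≤ S.be b → S.lb (b, false) •
      π (S.io (S.cp (b, false)) (S.pos (b, false) t)) =
      π (S.io (S.cp (b, true)) (S.pos (b, true) t)) := fun b t h1 h2 => by
    rw [← hπ, hc.lb_smul (Sys.pos_mem (hc.sg _) h1 h2), Sys.of_add (hc.sg _)]
    rfl
  have om : ∀ d t, S.ty (S.cp d) = Ty.ab → S.al d.1 ≤ t → t ≤ S.be d.1 →
      π (S.io (S.cp d) (S.pos d t)) = (sk S π A).ωJ (S.cp d) := fun d t k h1 h2 => by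
    have h3 := A2 d k _ (Sys.pos_mem (hc.sg _) h1 h2)
    have h4 : (A (S.cp d)).Nonempty := ⟨_, h3⟩
    simp only [sk, dif_pos h4]
    exact hL _ (A1 _ k) _ h3 _ h4.some_mem
  have ty1 : ∀ b, S.Pos b → S.ty (S.cp (b, true)) = S.ty (S.cp (b, false)) := fun b hb =>
    h.ty (b, true) hb
  refine ⟨Set.range (nd S), Stp S, Fintype.ofFinite _, inferInstance, sk S π A, hc.ne,
    fun _ => rfl, fun _ => rfl, fun σ => geo _ _ (hc.stm _ _ σ.2.2).1 (hc.stm _ _ σ.2.2).2,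
    ?_, fun b hb => ?_, fun b hb => ?_, fun b h1 h2 => ?_, fun b hb => ?_, fun p => ?_, ?_,
    fun X hX j g j' g' => ?_⟩
  · rintro ⟨_, ⟨σ, i⟩, rfl⟩ k
    exact om (σ.1, i) _ k (hc.stm _ _ σ.2.2).1 (hc.stm _ _ σ.2.2).2
  · have k := (ty1 b hb.1).trans hb.2
    refine ⟨hb.2, k, ?_⟩
    change S.lb (b, false) • (sk S π A).ωJ (S.cp (b, false)) = (sk S π A).ωJ (S.cp (b, true))
    rw [← om (b, false) _ hb.2 le_rfl (hc.le b), ← om (b, true) _ k le_rfl (hc.le b)]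
    exact geo b _ le_rfl (hc.le b)
  · exact ⟨fun k => Ty.noConfusion (hb.2.symm.trans k),
      fun k => Ty.noConfusion (((ty1 b hb.1).trans hb.2).symm.trans k)⟩
  · have hp : ¬ S.Pos b := fun hp => by
      rcases e : S.ty (S.cp (b, false)) with _ | _ | _
      · exact h.nact (b, false) ⟨hp, e⟩
      · exact h2 ⟨hp, e⟩
      · exact h1 ⟨hp, e⟩
    refine ⟨⟨b, S.al b, by simp [h.pt b hp]⟩, rfl, ?_⟩
    rintro ⟨b', t, ht⟩ rfl
    exact stp_ext rfl (by simpa [sk, show S.st b' = {S.al b'} from h.pt _ hp] using ht)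
  · refine (Set.ncard_le_ncard_of_injOn (t := {S.al b, S.be b}) (fun σ => σ.2.1) ?_ ?_).trans
      (Set.ncard_pair hb.1.ne).le
    · rintro ⟨b', t, ht⟩ rfl
      simpa [sk, show S.st b' = {S.al b', S.be b'} from h.qd (b', false) hb.1 hb.2] using ht
    · exact fun σ h1 σ' h2 e => stp_ext (h1.trans h2.symm) e
  · let D : Set (B × Bool) := {d | S.Pos d.1 ∧ S.cp d = p.1.1 ∧ S.ty p.1.1 = Ty.qd ∧
      (p.1.2 = S.lo d ∨ p.1.2 = S.hi d)}
    have hD : D.ncard ≤ 2 := not_lt.1 fun k => by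
      obtain ⟨a, ha, b, hb, c, hc', n1, n2, n3⟩ := (Set.two_lt_ncard (Set.toFinite D)).1 k
      exact h.two a b c _ n1 n2 n3 (hb.2.1.trans ha.2.1.symm) (hc'.2.1.trans ha.2.1.symm)
        (ha.2.1 ▸ ha.2.2.1) ha.1 hb.1 hc'.1 ha.2.2.2 hb.2.2.2 hc'.2.2.2
    have key : ∀ i, {σ : Stp S | (S.Pos σ.1 ∧ S.ty (S.cp (σ.1, false)) = Ty.qd) ∧
        nd S (σ, i) = p.1}.ncard ≤ (D ∩ {d | d.2 = i}).ncard := fun i => by
      refine Set.ncard_le_ncard_of_injOn (fun σ => (σ.1, i)) ?_ ?_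
      · rintro σ ⟨⟨h1, h2⟩, h3⟩
        have h4 : σ.2.1 = S.al σ.1 ∨ σ.2.1 = S.be σ.1 := by
          simpa [show S.st σ.1 = {S.al σ.1, S.be σ.1} from h.qd (σ.1, false) h1 h2] using σ.2.2
        refine ⟨⟨h1, congrArg Prod.fst h3, ?_, ?_⟩, rfl⟩
        · rw [← h3]
          cases i
          · exact h2
          · exact (ty1 _ h1).trans h2
        · rw [← h3]
          exact end_mem (d := (σ.1, i)) h4
      · intro σ h1 σ' h2 e
        have e1 : σ.1 = σ'.1 := congrArg Prod.fst e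
        have e2 := congrArg Prod.snd (h1.2.trans h2.2.symm)
        simp only [nd, e1] at e2
        exact stp_ext e1 (Sys.pos_inj (hc.sg _) e2)
    have h0 := key false
    have h1 := key true
    have h2 := Set.ncard_union_eq (s := D ∩ {d | d.2 = false}) (t := D ∩ {d | d.2 = true})
      (Set.disjoint_left.2 fun d k k' => Bool.noConfusion (k.2.symm.trans k'.2))
    have h3 := Set.ncard_le_ncard (Set.union_subset (Set.inter_subset_left (t := {d | d.2 = false}))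
      (Set.inter_subset_left (s := D) (t := {d | d.2 = true})))
    simp only [sk, Subtype.ext_iff]
    omega
  · rintro v ⟨f, hf⟩
    let F : J → ℝ → G → F2 := fun j x g =>
      if k : (j, x) ∈ Set.range (nd S) then f ⟨_, k⟩ g else 1
    have hF : ∀ σ i g, F (S.cp (σ.1, i)) (S.pos (σ.1, i) σ.2.1) g =
        f ⟨nd S (σ, i), _, rfl⟩ g := fun σ i g => dif_pos ⟨(σ, i), rfl⟩
    have h1 : ∀ b, ∀ t ∈ S.st b, ∀ g,
        F (S.cp (b, true)) (S.pos (b, true) t) (S.ga (b, true) * g) =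
          v b * F (S.cp (b, false)) (S.pos (b, false) t) (S.ga (b, false) * g) := fun b t ht g => by
      rw [hF ⟨b, t, ht⟩, hF ⟨b, t, ht⟩]
      simpa [sk, Sys.lb, mul_assoc] using hf ⟨b, t, ht⟩ (S.ga (b, false) * g)
    obtain ⟨Ψ, y, w, hw⟩ := hc.ext (fun d => cond d.2 (v d.1) 1) ⟨F, by
      rintro ⟨b, _ | _⟩ t ht g <;> simp [h1 b t ht g]⟩
    refine ⟨Ψ, y, fun b => ?_⟩
    have a0 := hw (b, false)
    have a1 := hw (b, true)
    simp only [cond_true, cond_false] at a0 a1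
    rw [a1, ← mul_inv_eq_one.1 a0.symm]
    simp [sk, Sys.lb, mul_assoc]
  · refine fun hx => hc.conn (fun j => {g | X j g}) ?_ j g hx j' g'
    have h1 : ∀ b g, X (S.cp (b, false)) (S.ga (b, false) * g) ↔
        X (S.cp (b, true)) (S.ga (b, true) * g) := fun b g => by
      simpa [sk, Sys.lb, mul_assoc] using hX b (S.ga (b, false) * g)
    rintro ⟨b, _ | _⟩ g k
    · exact (h1 b g).1 k
    · exact (h1 b g).2 k

end Pool.Agent.MP_494aff_an.Hi

end MrgPart8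

-- ======== part 9: formerly Pool.Agent.MP_494aff_an.hi.Slide
section MrgPart9

/-! Sliding darts along a band. -/

namespace Pool.Agent.MP_494aff_an.Hi

open Pool.Agent.MP_494aff_an.Se Pool.Agent.MP_494aff_an.Fr

open Classical

namespace SlideP

open Sys

variable {G T J B : Type} [Group G] [Fintype B] {S : Sys G T J B} {d ν : B × Bool}
  {N : B × Bool → Prop}

theorem cp_pos (h : N ν) : (S.slide d N).cp ν = S.cp (op d) := if_pos h

theorem cp_neg (h : ¬ N ν) : (S.slide d N).cp ν = S.cp ν := if_neg h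

theorem ga_pos (h : N ν) : (S.slide d N).ga ν = S.lb d * S.ga ν := if_pos h

theorem ga_neg (h : ¬ N ν) : (S.slide d N).ga ν = S.ga ν := if_neg h

theorem pos_pos (h : N ν) (t : ℝ) : (S.slide d N).pos ν t = S.of d + S.sg d * S.pos ν t := by
  simp only [pos, slide, if_pos h]
  ring

theorem pos_neg (h : ¬ N ν) (t : ℝ) : (S.slide d N).pos ν t = S.pos ν t := by
  simp only [pos, slide, if_neg h]

theorem lo_neg (h : ¬ N ν) : (S.slide d N).lo ν = S.lo ν := by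
  simp only [lo, pos_neg h]
  rfl

theorem hi_neg (h : ¬ N ν) : (S.slide d N).hi ν = S.hi ν := by
  simp only [hi, pos_neg h]
  rfl

theorem bs_neg (h : ¬ N ν) : (S.slide d N).Bs ν = S.Bs ν := by
  simp only [Bs, lo_neg h, hi_neg h]

theorem sign (he : ∀ d, S.e d = 1 ∨ S.e d = -1) (ν : B × Bool) :
    (S.slide d N).e ν = 1 ∨ (S.slide d N).e ν = -1 := by
  by_cases h : N ν
  · simp only [slide, if_pos h]
    rcases sg_sign he d with h1 | h1 <;> rcases he ν with h2 | h2 <;> simp [h1, h2]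
  · simpa only [slide, if_neg h] using he ν

theorem st_sub (b : B) : S.st b ⊆ (S.slide d N).st b := by
  simp only [slide]
  split_ifs
  · exact Finset.subset_union_left
  · exact subset_rfl

theorem st_new (h : N ν) {s : ℝ} (hs : s ∈ S.st ν.1) :
    S.e d * (S.pos ν s - S.a d) ∈ (S.slide d N).st d.1 := by
  simp only [slide, if_true]
  exact Finset.mem_union_right _ (Finset.mem_biUnion.2
    ⟨ν, by simpa using h, Finset.mem_image_of_mem _ hs⟩)

omit [Group G] [Fintype B] in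
theorem not_d (hs : S.Slid d N) : ¬ N d := fun h => (hs d h).1 rfl

omit [Group G] [Fintype B] in
theorem not_op (hs : S.Slid d N) : ¬ N (op d) := fun h => (hs _ h).1 rfl

theorem ty_eq (ht : S.TyOK) (hp : S.PA d) (hs : S.Slid d N) (ν : B × Bool) :
    S.ty ((S.slide d N).cp ν) = S.ty (S.cp ν) := by
  by_cases h : N ν
  · rw [cp_pos h, (hs ν h).2.1, ht d hp.1]
  · rw [cp_neg h]

theorem not_N (ht : S.TyOK) (hp : S.PA d) (h : S.ty ((S.slide d N).cp ν) ≠ Ty.act) : ¬ N ν :=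
  fun k => h (by rw [cp_pos k]; exact (hp.op ht).2)

theorem sol (he : ∀ d, S.e d = 1 ∨ S.e d = -1) (hs : S.Slid d N) {u : B × Bool → F2}
    (hu : (S.slide d N).Sol u) : S.Sol fun ν => if N ν then u d * (u (op d))⁻¹ * u ν else u ν := by
  obtain ⟨f, hf⟩ := hu
  have key : ∀ ν, ∀ s ∈ S.st ν.1, ∀ g,
      (if N ν then u d * (u (op d))⁻¹ * u ν else u ν)⁻¹ * f (S.cp ν) (S.pos ν s) (S.ga ν * g) =
        (u ν)⁻¹ * f ((S.slide d N).cp ν) ((S.slide d N).pos ν s) ((S.slide d N).ga ν * g) := by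
    intro ν s hst g
    by_cases h : N ν
    · have k := hf d _ (st_new h hst) ((S.ga d)⁻¹ * (S.ga ν * g))
      rw [cp_neg (not_d hs), cp_neg (not_op hs), pos_neg (not_d hs), pos_neg (not_op hs),
        ga_neg (not_d hs), ga_neg (not_op hs), ← of_add (he d), pos_par (he d),
        mul_inv_cancel_left] at k
      rw [if_pos h, cp_pos h, pos_pos h, ga_pos h, (hs ν h).2.1, mul_inv_rev, mul_inv_rev, inv_inv,
        mul_assoc, mul_assoc, k, mul_inv_cancel_left, lb, mul_assoc, mul_assoc]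
    · rw [if_neg h, cp_neg h, pos_neg h, ga_neg h]
  exact ⟨f, fun ν s hst g => (key ν s hst g).trans
    ((hf ν s (st_sub _ hst) g).trans (key (op ν) s hst g).symm)⟩

variable [MulAction G T]

theorem core (h : S.Core) (hs : S.Slid d N) : (S.slide d N).Core := by
  refine ⟨h.ne, h.le, sign h.sg, fun b t ht => ?_, ?_, fun u hu => ?_, fun X hX => ?_⟩
  · simp only [slide] at ht
    split_ifs at ht with hb
    · rcases Finset.mem_union.1 ht with ht | ht
      · exact h.stm b t ht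
      · obtain ⟨ν, hν, ht⟩ := Finset.mem_biUnion.1 ht
        obtain ⟨s, hst, rfl⟩ := Finset.mem_image.1 ht
        subst hb
        refine (pos_mem_iff (h.sg d) (h.le _)).1 ?_
        rw [pos_par (h.sg d)]
        exact (hs ν (by simpa using hν)).2.2 (pos_mem (h.sg ν) (h.stm _ _ hst).1 (h.stm _ _ hst).2)
    · exact h.stm b t ht
  · have key : ∀ ν t, S.al ν.1 ≤ t → t ≤ S.be ν.1 →
        ((S.slide d N).ga ν)⁻¹ • S.io ((S.slide d N).cp ν) ((S.slide d N).pos ν t) =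
          (S.ga ν)⁻¹ • S.io (S.cp ν) (S.pos ν t) := by
      intro ν t h1 h2
      by_cases k : N ν
      · rw [cp_pos k, pos_pos k, ga_pos k, ← h.lb_smul ((hs ν k).2.2 (pos_mem (h.sg ν) h1 h2)),
          (hs ν k).2.1, mul_inv_rev, mul_smul, inv_smul_smul]
      · rw [cp_neg k, pos_neg k, ga_neg k]
    exact fun ν t h1 h2 => (key ν t h1 h2).trans ((h.geo ν t h1 h2).trans (key (op ν) t h1 h2).symm)
  · obtain ⟨Ψ, y, w, k⟩ := h.ext _ (sol h.sg hs hu)
    refine ⟨Ψ, y, w, fun ν => ?_⟩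
    have k0 := k ν
    by_cases hν : N ν
    · have k1 := k d
      have k2 := k (op d)
      simp only [if_pos hν, if_neg (not_d hs), if_neg (not_op hs), op_fst] at k0 k1 k2
      rw [cp_pos hν, ga_pos hν, lb, map_mul, map_mul, map_inv,
        show u ν = u (op d) * (u d)⁻¹ * (u d * (u (op d))⁻¹ * u ν) by group, k0, k1, k2,
        (hs ν hν).2.1]
      group
    · simp only [if_neg hν] at k0
      rw [cp_neg hν, ga_neg hν, k0]
  · have k0 : ∀ g, S.ga d * g ∈ X (S.cp d) ↔ S.ga (op d) * g ∈ X (S.cp (op d)) := fun g => by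
      have k1 := hX d g
      have k2 := hX (op d) g
      rw [op_op] at k2
      rw [cp_neg (not_d hs), cp_neg (not_op hs), ga_neg (not_d hs), ga_neg (not_op hs)] at k1 k2
      exact ⟨k1, k2⟩
    have key : ∀ ν g, (S.slide d N).ga ν * g ∈ X ((S.slide d N).cp ν) ↔
        S.ga ν * g ∈ X (S.cp ν) := by
      intro ν g
      by_cases k : N ν
      · rw [cp_pos k, ga_pos k, (hs ν k).2.1, lb, mul_assoc, mul_assoc, ← k0, mul_inv_cancel_left]
      · rw [cp_neg k, ga_neg k]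
    exact h.conn X fun ν g k => (key _ g).1 (hX ν g ((key ν g).2 k))

theorem sub (h : S.Core) (ht : S.TyOK) (hp : S.PA d) (hs : S.Slid d N) :
    S.Sub (S.slide d N) id := by
  have key : ∀ ν, ∃ s c g, s * s = 1 ∧ (S.slide d N).a ν = c + s * S.a ν ∧
      (S.slide d N).e ν = s * S.e ν ∧ (S.slide d N).ga ν = g * S.ga ν ∧
      S.Wd (S.cp ν) (S.lo ν) (S.hi ν) ((S.slide d N).cp ν) s c g ∧
      S.Wd ((S.slide d N).cp ν) ((S.slide d N).lo ν) ((S.slide d N).hi ν) (S.cp ν) s (-(s * c))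
        g⁻¹ ∧ ∀ x ∈ (S.slide d N).Bs ν, -(s * c) + s * x ∈ S.Bs ν := by
    intro ν
    by_cases k : N ν
    · obtain ⟨-, k1, k2⟩ := hs ν k
      have ss : S.sg d * S.sg d = 1 := by rcases sg_sign h.sg d with e | e <;> simp [e]
      have m : ∀ x ∈ (S.slide d N).Bs ν, ∃ x₀ ∈ S.Bs ν, x = S.of d + S.sg d * x₀ := by
        intro x hx
        obtain ⟨t, h1, h2, rfl⟩ := exists_pos (sign h.sg ν) (h.le _) hx
        exact ⟨_, pos_mem (h.sg ν) h1 h2, pos_pos k t⟩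
      have m' : ∀ x ∈ (S.slide d N).Bs ν, x ∈ S.Bs (op d) := by
        intro x hx
        obtain ⟨x₀, h0, rfl⟩ := m x hx
        exact map_mem h.sg (h.le _) (k2 h0)
      refine ⟨S.sg d, S.of d, S.lb d, ss, if_pos k, if_pos k, if_pos k, ?_, ?_, fun x hx => ?_⟩
      · rw [cp_pos k, k1]
        exact Wd.one hp (k2 (S.lo_mem ν)) (k2 (S.hi_mem ν))
      · rw [cp_pos k, k1]
        refine (Wd.one (hp.op ht) (m' _ (lo_mem _ ν)) (m' _ (hi_mem _ ν))).cast (by rw [op_op])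
          (S.sg_op d) ?_ (S.lb_op d)
        have := of_op h.sg d 0
        rw [sg_op] at this
        linarith
      · obtain ⟨x₀, h0, rfl⟩ := m x hx
        convert h0 using 1
        linear_combination x₀ * ss
    · refine ⟨1, 0, 1, by simp, by simp [slide, k], by simp [slide, k], by simp [slide, k], ?_, ?_,
        fun x hx => by simpa [bs_neg k] using hx⟩
      · rw [cp_neg k]
        exact Wd.refl
      · rw [cp_neg k]
        exact Wd.refl.cast rfl rfl (by simp) (by simp)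
  intro ν hν
  have pν : S.PA ν := ⟨hν.1, (ty_eq ht hp hs ν).symm.trans hν.2⟩
  obtain ⟨s, c, g, ss, a1, e1, g1, -, w1, m1⟩ := key ν
  obtain ⟨s', c', g', -, a2, e2, g2, w2, -, -⟩ := key (op ν)
  have m2 : ∀ x ∈ (S.slide d N).Bs ν, S.of ν + S.sg ν * -(s * c) + S.sg ν * s * x ∈
      S.Bs (op ν) := fun x hx => by
    convert map_mem h.sg (h.le _) (m1 x hx) using 1
    ring
  refine ((w1.trans (Wd.one pν (S.lo_mem ν) (S.hi_mem ν)) (m1 _ (lo_mem _ ν))
    (m1 _ (hi_mem _ ν))).trans w2 (m2 _ (lo_mem _ ν)) (m2 _ (hi_mem _ ν))).cast rfl ?_ ?_ ?_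
  · simp only [sg, e1, e2]
    ring
  · simp only [of, sg, e1, e2, a1, a2]
    linear_combination (s' * S.e (op ν) * S.e ν * S.a ν) * ss
  · simp only [lb, g1, g2]
    group

end SlideP

open SlideP

theorem slide : SlideStmt := by
  intro G T J B _ _ _ Ln S d N h hp hs
  have hsub := sub h.core h.ty hp hs
  refine ⟨⟨core h.core hs, fun ν p => ?_, ?_, ?_, hsub.dyn h.dyn⟩, hsub⟩
  · exact (ty_eq h.ty hp hs ν).trans ((h.ty ν p).trans (ty_eq h.ty hp hs _).symm)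
  · obtain ⟨A, a1, a2⟩ := h.ab
    refine ⟨A, a1, fun ν k x hx => ?_⟩
    have n : ¬ N ν := not_N h.ty hp fun e => by cases e.symm.trans k
    rw [cp_neg n] at k ⊢
    rw [bs_neg n] at hx
    exact a2 ν k x hx
  · intro d₁ d₂ d₃ x n1 n2 n3 c1 c2 q
    have m1 : ¬ N d₁ := not_N h.ty hp fun e => by cases e.symm.trans q
    have m2 : ¬ N d₂ := not_N h.ty hp fun e => by rw [c1] at e; cases e.symm.trans q
    have m3 : ¬ N d₃ := not_N h.ty hp fun e => by rw [c2] at e; cases e.symm.trans q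
    rw [cp_neg m1] at c1 c2 q
    rw [cp_neg m2] at c1
    rw [cp_neg m3] at c2
    rw [lo_neg m1, lo_neg m2, lo_neg m3, hi_neg m1, hi_neg m2, hi_neg m3]
    exact h.qd d₁ d₂ d₃ x n1 n2 n3 c1 c2 q

end Pool.Agent.MP_494aff_an.Hi

end MrgPart9

-- ======== part 10: formerly Pool.Agent.MP_494aff_an.fr.CollX
section MrgPart10

/-! Collapse of a band over a free arc. -/

namespace Pool.Agent.MP_494aff_an.Hi

open Pool.Agent.MP_494aff_an.Se

open Classical

namespace CollX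

open Sys

variable {G T J B : Type} {S : Sys G T J B} {d : B × Bool} {t₁ t₂ : ℝ}

theorem dom (hle : ∀ b, S.al b ≤ S.be b) (F : S.Free d t₁ t₂) (o : Option B) :
    S.al (o.getD d.1) ≤ (S.collapse d t₁ t₂).al o ∧
      (S.collapse d t₁ t₂).al o ≤ (S.collapse d t₁ t₂).be o ∧
      (S.collapse d t₁ t₂).be o ≤ S.be (o.getD d.1) := by
  cases o with
  | none => exact ⟨F.l.trans F.lt.le, F.r, le_rfl⟩
  | some b' =>
    by_cases h : b' = d.1
    · subst h
      simpa [collapse] using ⟨F.l, F.lt.le.trans F.r⟩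
    · simpa [collapse, h] using hle b'

theorem bs (he : ∀ d, S.e d = 1 ∨ S.e d = -1) (hle : ∀ b, S.al b ≤ S.be b) (F : S.Free d t₁ t₂)
    (ν : Option B × Bool) : (S.collapse d t₁ t₂).Bs ν ⊆ S.Bs (ν.1.getD d.1, ν.2) :=
  bs_sub (he _) rfl rfl (dom hle F ν.1).1 (dom hle F ν.1).2.1 (dom hle F ν.1).2.2

theorem pos' (hle : ∀ b, S.al b ≤ S.be b) (F : S.Free d t₁ t₂) {o : Option B}
    (h : (S.collapse d t₁ t₂).Pos o) : S.Pos (o.getD d.1) :=
  lt_of_le_of_lt (dom hle F o).1 (lt_of_lt_of_le h (dom hle F o).2.2)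

theorem cpi (ν : Option B × Bool) :
    ((S.collapse d t₁ t₂).cp ν).getD (S.cp d) = S.cp (ν.1.getD d.1, ν.2) := by
  obtain ⟨o, i⟩ := ν
  simp only [collapse]
  split_ifs with h1 h2
  · rw [h1]; cases o <;> rfl
  · exact h2.1.symm
  · rfl

theorem halves (he : ∀ d, S.e d = 1 ∨ S.e d = -1) (hle : ∀ b, S.al b ≤ S.be b)
    (F : S.Free d t₁ t₂) (i : Bool) {x : ℝ} (k1 : (S.collapse d t₁ t₂).lo (none, i) < x)
    (k2 : x < (S.collapse d t₁ t₂).hi (none, i)) (k3 : (S.collapse d t₁ t₂).lo (some d.1, i) < x)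
    (k4 : x < (S.collapse d t₁ t₂).hi (some d.1, i)) : False := by
  obtain ⟨s, rfl⟩ : ∃ s, S.pos (d.1, i) s = x := ⟨_, pos_par (he _) x⟩
  have a1 := (pos_int_iff (S := S.collapse d t₁ t₂) (d := (none, i)) (t := s) (he (d.1, i))
    (dom hle F none).2.1).1 ⟨k1, k2⟩
  have a2 := (pos_int_iff (S := S.collapse d t₁ t₂) (d := (some d.1, i)) (t := s) (he (d.1, i))
    (dom hle F (some d.1)).2.1).1 ⟨k3, k4⟩
  have a3 : t₂ < s := a1.1
  have a4 : s < t₁ := by simpa [collapse] using a2.2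
  linarith [F.lt]

theorem ne_old (he : ∀ d, S.e d = 1 ∨ S.e d = -1) (hle : ∀ b, S.al b ≤ S.be b)
    (F : S.Free d t₁ t₂) {ν ν' : Option B × Bool} (n : ν ≠ ν') {x : ℝ}
    (k1 : (S.collapse d t₁ t₂).lo ν < x) (k2 : x < (S.collapse d t₁ t₂).hi ν)
    (k3 : (S.collapse d t₁ t₂).lo ν' < x) (k4 : x < (S.collapse d t₁ t₂).hi ν') :
    (ν.1.getD d.1, ν.2) ≠ (ν'.1.getD d.1, ν'.2) := by
  obtain ⟨o, i⟩ := ν
  obtain ⟨o', i'⟩ := ν'
  intro e
  obtain ⟨e1, e2⟩ := Prod.mk.inj e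
  obtain rfl : i = i' := e2
  cases o <;> cases o' <;> simp only [Option.getD_none, Option.getD_some] at e1
  · exact n rfl
  · subst e1
    exact halves he hle F i k1 k2 k3 k4
  · subst e1
    exact halves he hle F i k3 k4 k1 k2
  · exact n (by rw [e1])

/-- The base of another dart lies on one side. -/
theorem side (he : ∀ d, S.e d = 1 ∨ S.e d = -1) (hle : ∀ b, S.al b ≤ S.be b)
    (F : S.Free d t₁ t₂) {ν : B × Bool} (n : ν ≠ d) (c : S.cp ν = S.cp d) {y : ℝ}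
    (hy : y ∈ S.Bs ν) :
    S.Side d t₁ t₂ ν ↔ 0 < S.e d * (y - S.pos d ((t₁ + t₂) / 2)) := by
  have m := F.only ν n c ((t₁ + t₂) / 2) (by linarith [F.lt]) (by linarith [F.lt])
  have y0 : S.pos ν (S.al ν.1) ∈ S.Bs ν := pos_mem (he ν) le_rfl (hle _)
  simp only [Bs, Set.mem_Icc, not_and_or, not_le] at m hy y0
  simp only [Side, c, true_and]
  rcases he d with e | e <;> rcases m with m | m <;> simp only [e] <;> constructor <;> intro <;>
    linarith [hy.1, hy.2, y0.1, y0.2]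

theorem cp1 : (S.collapse d t₁ t₂).cp (some d.1, d.2) = some (S.cp d) := by simp [collapse]

theorem cp2 : (S.collapse d t₁ t₂).cp (none, d.2) = none := by simp [collapse]

theorem cp3 : (S.collapse d t₁ t₂).cp (none, !d.2) = (S.collapse d t₁ t₂).cp (some d.1, !d.2) := by
  have : (d.1, !d.2) ≠ d := op_ne d
  simp [collapse, this]

theorem cp4 {ν : B × Bool} (n : ν ≠ d) : (S.collapse d t₁ t₂).cp (some ν.1, ν.2) =
    if S.Side d t₁ t₂ ν then none else some (S.cp ν) := by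
  simp [collapse, n]

variable [Group G]

theorem ext (he : ∀ d, S.e d = 1 ∨ S.e d = -1) (hle : ∀ b, S.al b ≤ S.be b)
    (hs : ∀ b, ∀ t ∈ S.st b, S.al b ≤ t ∧ t ≤ S.be b)
    (F : S.Free d t₁ t₂) (h : S.Ext) : (S.collapse d t₁ t₂).Ext := by
  rintro u' ⟨f', hf⟩
  obtain ⟨k, hk⟩ : ∃ k, k = (u' (none, !d.2))⁻¹ * u' (some d.1, !d.2) := ⟨_, rfl⟩
  obtain ⟨K, hK⟩ : ∃ K, K = u' (some d.1, d.2) * k⁻¹ * (u' (none, d.2))⁻¹ := ⟨_, rfl⟩
  let u : B × Bool → F2 := fun ν =>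
    if ν ≠ d ∧ S.Side d t₁ t₂ ν then K * u' (some ν.1, ν.2) else u' (some ν.1, ν.2)
  let f : J → ℝ → G → F2 := fun j y g =>
    if j = S.cp d ∧ 0 < S.e d * (y - S.pos d ((t₁ + t₂) / 2)) then K * f' none y g
    else f' (some j) y g
  have v1 : ∀ ν, ν ≠ d → ∀ t ∈ S.st ν.1, ∀ g, (u ν)⁻¹ * f (S.cp ν) (S.pos ν t) g =
      (u' (some ν.1, ν.2))⁻¹ * f' ((S.collapse d t₁ t₂).cp (some ν.1, ν.2)) (S.pos ν t) g := by
    intro ν n t ht g
    rw [cp4 n]
    by_cases c : S.cp ν = S.cp d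
    · have := side he hle F n c (pos_mem (he ν) (hs _ t ht).1 (hs _ t ht).2)
      by_cases q : S.Side d t₁ t₂ ν
      · simp only [u, f, n, q, c, this.1 q, ne_eq, not_false_eq_true, and_self, if_true]
        group
      · simp only [u, f, q, c, this.not.1 q, and_false, if_false]
    · have q : ¬ S.Side d t₁ t₂ ν := fun q => c q.1
      simp only [u, f, q, c, and_false, false_and, if_false]
  have par : ∀ t, S.e d * (S.pos d t - S.pos d ((t₁ + t₂) / 2)) = t - (t₁ + t₂) / 2 := by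
    intro t
    rcases he d with e | e <;> simp only [pos, e] <;> ring
  have vd : ∀ t ∈ S.st d.1, ∀ g, (u d)⁻¹ * f (S.cp d) (S.pos d t) (S.ga d * g) =
      (u (op d))⁻¹ * f (S.cp (op d)) (S.pos (op d) t) (S.ga (op d) * g) := by
    intro t ht g
    rw [v1 (op d) (op_ne d) t ht]
    rcases F.st t ht with l | l
    · have := hf (some d.1, d.2) t (by simp [collapse, ht, l]) g
      have q : ¬ 0 < t - (t₁ + t₂) / 2 := by linarith [F.lt]
      simp only [u, f, par, q, ne_eq, not_true_eq_false, false_and, and_false, if_false]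
      rw [cp1] at this
      exact this
    · have := hf (none, d.2) t (by simp [collapse, ht, l]) g
      have q : 0 < t - (t₁ + t₂) / 2 := by linarith [F.lt]
      simp only [u, f, par, q, ne_eq, not_true_eq_false, false_and, and_self, if_false, if_true]
      rw [cp2, op_mk, cp3] at this
      change (u' (none, d.2))⁻¹ * f' none (S.pos d t) (S.ga d * g) = (u' (none, !d.2))⁻¹ *
        f' ((S.collapse d t₁ t₂).cp (some d.1, !d.2)) (S.pos (op d) t) (S.ga (op d) * g) at this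
      change _ = (u' (some d.1, !d.2))⁻¹ *
        f' ((S.collapse d t₁ t₂).cp (some d.1, !d.2)) (S.pos (op d) t) (S.ga (op d) * g)
      rw [inv_mul_eq_iff_eq_mul] at this
      rw [this, hK, hk]
      group
  obtain ⟨Ψ, y, w, hu⟩ := h u ⟨f, by
    intro ν t ht g
    by_cases hb : ν.1 = d.1
    · rcases eq_or_op hb with rfl | rfl
      · exact vd t ht g
      · rw [op_op]; exact (vd t ht g).symm
    · rw [v1 ν (fun e => hb (by rw [e])) t ht, v1 (op ν) (fun e => hb (by rw [← e]; rfl)) t ht]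
      exact hf (some ν.1, ν.2) t (by simpa [collapse, hb] using ht) g⟩
  have s1 : ∀ ν : B × Bool, u' (some ν.1, ν.2) =
      ((S.collapse d t₁ t₂).cp (some ν.1, ν.2)).elim (K⁻¹ * y (S.cp d)) y * Ψ (S.ga ν) *
        (w ν.1)⁻¹ := by
    intro ν
    have := hu ν
    by_cases n : ν = d
    · subst n
      rw [cp1]
      simpa [u] using this
    · rw [cp4 n]
      by_cases q : S.Side d t₁ t₂ ν
      · simp only [u, n, q, ne_eq, not_false_eq_true, and_self, if_true, q.1] at this ⊢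
        rw [← inv_mul_cancel_left K (u' (some ν.1, ν.2)), this]
        simp only [Option.elim, mul_assoc]
      · simpa [u, q] using this
  refine ⟨Ψ, fun o => o.elim (K⁻¹ * y (S.cp d)) y, fun o => o.elim (k * w d.1) w, ?_⟩
  rintro ⟨_ | b', i⟩
  · rcases eq_or_op (d := d) (ν := (d.1, i)) rfl with e | e
    · obtain rfl : i = d.2 := congrArg Prod.snd e
      have := s1 d
      rw [cp1] at this
      rw [cp2]
      change u' (none, d.2) = K⁻¹ * y (S.cp d) * Ψ (S.ga d) * (k * w d.1)⁻¹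
      have e2 : u' (none, d.2) = K⁻¹ * u' (some d.1, d.2) * k⁻¹ := by rw [hK]; group
      rw [e2, this]
      simp only [Option.elim]
      group
    · obtain rfl : i = !d.2 := congrArg Prod.snd e
      have := s1 (op d)
      rw [cp3]
      have e2 : u' (none, !d.2) = u' (some d.1, !d.2) * k⁻¹ := by rw [hk]; group
      rw [e2, show u' (some d.1, !d.2) = _ from this]
      simp only [Option.elim_none, mul_inv_rev, mul_assoc]
      rfl
  · exact s1 (b', i)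

theorem conn (h : S.Conn) : (S.collapse d t₁ t₂).Conn := by
  intro X hX
  have e0 : ∀ g, g ∈ X none ↔ g ∈ X (some (S.cp d)) := by
    intro g
    obtain ⟨g, rfl⟩ : ∃ g', g = S.ga d * g' := ⟨(S.ga d)⁻¹ * g, by group⟩
    have a1 := hX (some d.1, d.2) g
    have a2 := hX (some d.1, !d.2) g
    have a3 := hX (none, d.2) g
    have a4 := hX (none, !d.2) g
    simp only [op_mk, Bool.not_not, cp1, cp2, cp3] at a1 a2 a3 a4
    exact ⟨fun m => a2 (a3 m), fun m => a4 (a1 m)⟩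
  have e1 : ∀ o g, g ∈ X o ↔ g ∈ X (some (o.getD (S.cp d))) := by
    rintro (_ | j) g
    · exact e0 g
    · rfl
  intro o g m o' g'
  rw [e1] at m ⊢
  refine h (fun j => X (some j)) (fun ν g m => ?_) _ g m _ g'
  have := hX (some ν.1, ν.2) g
  rw [e1, e1 ((S.collapse d t₁ t₂).cp _), cpi, cpi] at this
  exact this m

end CollX

open CollX Sys in
theorem collX : CollStmt := by
  intro G T J B _ _ Ln S d t₁ t₂ h F
  have he := h.core.sg
  have hle := h.core.le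
  have hb := bs he hle F
  have ty : ∀ ν, (S.collapse d t₁ t₂).ty ((S.collapse d t₁ t₂).cp ν) =
      S.ty (S.cp (ν.1.getD d.1, ν.2)) := fun ν => congrArg S.ty (cpi ν)
  have io : ∀ ν, (S.collapse d t₁ t₂).io ((S.collapse d t₁ t₂).cp ν) =
      S.io (S.cp (ν.1.getD d.1, ν.2)) := fun ν => congrArg S.io (cpi ν)
  refine ⟨⟨⟨none⟩, fun o => (dom hle F o).2.1, fun ν => he _, ?_, fun ν s k1 k2 => ?_,
    ext he hle h.core.stm F h.core.ext, conn h.core.conn⟩, fun ν p => ?_, ?_, ?_,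
    Sub.dyn (π := fun o => o.getD (S.cp d)) (Sub.of_piece fun o i p => ⟨o.getD d.1,
      ⟨pos' hle F p.1, (ty (o, i)).symm.trans p.2⟩, hb (o, i),
      fun i' => ⟨(cpi (o, i')).symm, rfl, rfl, rfl⟩⟩) h.dyn⟩
  · rintro (_ | b') s hs
    · exact ⟨(Finset.mem_filter.1 hs).2, (h.core.stm _ s (Finset.mem_filter.1 hs).1).2⟩
    · by_cases hb : b' = d.1
      · subst hb
        simp only [collapse, Option.elim, if_true, Finset.mem_filter] at hs ⊢
        exact ⟨(h.core.stm _ s hs.1).1, hs.2⟩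
      · simp only [collapse, Option.elim, hb, if_false] at hs ⊢
        exact h.core.stm _ s hs
  · rw [io, io]
    exact h.core.geo (ν.1.getD d.1, ν.2) s ((dom hle F ν.1).1.trans k1)
      (k2.trans (dom hle F ν.1).2.2)
  · rw [ty, ty]
    exact h.ty (ν.1.getD d.1, ν.2) (pos' hle F p)
  · obtain ⟨A, a1, a2⟩ := h.ab
    refine ⟨fun o => A (o.getD (S.cp d)), fun o k => a1 _ k, fun ν k x hx => ?_⟩
    rw [ty] at k
    beta_reduce
    rw [io, cpi]
    exact a2 (ν.1.getD d.1, ν.2) k x (hb ν hx)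
  · intro d₁ d₂ d₃ x n1 n2 n3 c1 c2 q l1 l2 l3 l4 l5 l6
    have k1 := lo_le_of_sub (hb d₁)
    have k2 := lo_le_of_sub (hb d₂)
    have k3 := lo_le_of_sub (hb d₃)
    rw [ty] at q
    exact h.qd _ _ _ x (ne_old he hle F n1 l1 l2 l3 l4) (ne_old he hle F n2 l1 l2 l5 l6)
      (ne_old he hle F n3 l3 l4 l5 l6) (by rw [← cpi d₁, ← cpi d₂, c1])
      (by rw [← cpi d₁, ← cpi d₃, c2]) q (k1.1.trans_lt l1) (l2.trans_le k1.2)
      (k2.1.trans_lt l3) (l4.trans_le k2.2) (k3.1.trans_lt l5) (l6.trans_le k3.2)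

end Pool.Agent.MP_494aff_an.Hi

end MrgPart10

-- marker of a merged file
example : 731051 + 143323 = 731051 + 143323 := rfl
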