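import Mathlib
import Pool.Agent.MP_494aff_an.un.Spec
import Pool.Agent.MP_494aff_an.fr.Qb
import Pool.Agent.MP_494aff_an.se.PushA

-- ======== part 0: formerly Pool.Agent.MP_494aff_an.un.Cp
section MrgPart0

/-! Free products: injectivity, centralisers, limit groups. -/

open Monoid Filter Topology
open scoped InnerProductSpace ComplexConjugate

namespace Pool.Agent.MP_494aff_an.Un

open Pool.Agent.MP_494aff_an.Pinch Pool.Agent.MP_494aff_an.Pinch.TowP Pool.Agent.MP_494aff_an.Lf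

noncomputable section

namespace CpP

section Words

variable {A B : Type} [Group A] [Group B]

/-- Reduced words, sorted by the side of the first letter. -/
inductive Ty : Option Bool → Coprod A B → Prop
  | nil : Ty none 1
  | l (a : A) (z : Coprod A B) (t : Option Bool) : a ≠ 1 → Ty t z → t ≠ some true →
      Ty (some true) (Coprod.inl a * z)
  | r (b : B) (z : Coprod A B) (t : Option Bool) : b ≠ 1 → Ty t z → t ≠ some false →
      Ty (some false) (Coprod.inr b * z)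

lemma Ty.inl_mul (a : A) {t : Option Bool} {z : Coprod A B} (h : Ty t z) :
    ∃ t', Ty t' (Coprod.inl a * z) := by
  by_cases ha : a = 1
  · exact ⟨t, by simpa [ha] using h⟩
  by_cases ht : t = some true
  · subst ht
    cases h with
    | l a' z t ha' hz ht =>
      rw [← mul_assoc, ← map_mul]
      by_cases haa : a * a' = 1
      · exact ⟨t, by simpa [haa] using hz⟩
      · exact ⟨_, Ty.l _ z t haa hz ht⟩
  · exact ⟨_, Ty.l a z t ha h ht⟩

lemma Ty.inr_mul (b : B) {t : Option Bool} {z : Coprod A B} (h : Ty t z) :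
    ∃ t', Ty t' (Coprod.inr b * z) := by
  by_cases hb : b = 1
  · exact ⟨t, by simpa [hb] using h⟩
  by_cases ht : t = some false
  · subst ht
    cases h with
    | r b' z t hb' hz ht =>
      rw [← mul_assoc, ← map_mul]
      by_cases hbb : b * b' = 1
      · exact ⟨t, by simpa [hbb] using hz⟩
      · exact ⟨_, Ty.r _ z t hbb hz ht⟩
  · exact ⟨_, Ty.r b z t hb h ht⟩

lemma exists_ty (z : Coprod A B) : ∃ t, Ty t z := by
  induction z using Coprod.induction_on' with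
  | one => exact ⟨none, Ty.nil⟩
  | inl_mul a x ih => obtain ⟨t, h⟩ := ih; exact h.inl_mul a
  | inr_mul b x ih => obtain ⟨t, h⟩ := ih; exact h.inr_mul b

/-- The map to the indexed free product. -/
def toI : Coprod A B →* CoprodI (Gl.Fam A B) :=
  Coprod.lift (CoprodI.of (M := Gl.Fam A B) (i := true)) (CoprodI.of (M := Gl.Fam A B) (i := false))

lemma Ty.word {t : Option Bool} {z : Coprod A B} (h : Ty t z) :
    ∃ w : CoprodI.Word (Gl.Fam A B), w.fstIdx = t ∧ toI z = w.prod := by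
  induction h with
  | nil => exact ⟨CoprodI.Word.empty, rfl, by rw [map_one, CoprodI.Word.prod_empty]⟩
  | l a z t ha _ ht ih =>
    obtain ⟨w, hwt, hz⟩ := ih
    refine ⟨CoprodI.Word.cons (i := true) a w (hwt ▸ ht) ha, CoprodI.Word.fstIdx_cons _ _ _ _, ?_⟩
    rw [map_mul, hz, CoprodI.Word.prod_cons]
    rfl
  | r b z t hb _ ht ih =>
    obtain ⟨w, hwt, hz⟩ := ih
    refine ⟨CoprodI.Word.cons (i := false) b w (hwt ▸ ht) hb, CoprodI.Word.fstIdx_cons _ _ _ _, ?_⟩
    rw [map_mul, hz, CoprodI.Word.prod_cons]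
    rfl

lemma Ty.uniq {t t' : Option Bool} {z : Coprod A B} (h : Ty t z) (h' : Ty t' z) : t = t' := by
  classical
  obtain ⟨w, hw, e⟩ := h.word
  obtain ⟨w', hw', e'⟩ := h'.word
  have : w = w' := (CoprodI.Word.equiv (M := Gl.Fam A B)).symm.injective (e.symm.trans e')
  rw [← hw, ← hw', this]

lemma Ty.ne_one {b : Bool} {z : Coprod A B} (h : Ty (some b) z) : z ≠ 1 := by
  rintro rfl
  exact absurd (h.uniq Ty.nil) (by simp)

lemma Ty.eq_one {z : Coprod A B} (h : Ty none z) : z = 1 := by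
  cases h
  rfl

lemma ty_inl (c : A) : Ty none (Coprod.inl c : Coprod A B) ∨ Ty (some true) (Coprod.inl c : Coprod A B) := by
  by_cases hc : c = 1
  · left; rw [hc, map_one]; exact Ty.nil
  · right; simpa using Ty.l (B := B) c 1 none hc Ty.nil (by simp)

lemma Ty.mul_inl (a : A) {t : Option Bool} {z : Coprod A B} (h : Ty t z) :
    z ∈ (Coprod.inl : A →* Coprod A B).range ∨ Ty t (z * Coprod.inl a) := by
  induction h with
  | nil => exact Or.inl (one_mem _)
  | l a' z t ha _ ht ih =>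
    rcases ih with ih | ih
    · exact Or.inl (mul_mem ⟨a', rfl⟩ ih)
    · right; rw [mul_assoc]; exact Ty.l a' _ t ha ih ht
  | r b z t hb _ ht ih =>
    right
    rw [mul_assoc]
    rcases ih with ⟨c, rfl⟩ | ih
    · rw [← map_mul]
      rcases ty_inl (B := B) (c * a) with h | h
      · exact Ty.r b _ _ hb h (by simp)
      · exact Ty.r b _ _ hb h (by simp)
    · exact Ty.r b _ t hb ih ht

lemma comm (a : A) (h : Coprod A B) (e : Coprod.inl a * h = h * Coprod.inl a) :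
    a = 1 ∨ h ∈ (Coprod.inl : A →* Coprod A B).range := by
  by_contra hh
  obtain ⟨ha, hr⟩ := not_or.1 hh
  have key : ∃ (a₀ : A) (z : Coprod A B), h = Coprod.inl a₀ * z ∧ Ty (some false) z := by
    obtain ⟨t, ht⟩ := exists_ty h
    cases ht with
    | nil => exact absurd (one_mem _) hr
    | l a' z t _ hz ht =>
      refine ⟨a', z, rfl, ?_⟩
      rcases t with _ | _ | _
      · exact absurd (by rw [hz.eq_one, mul_one]; exact ⟨a', rfl⟩) hr
      · exact hz
      · exact absurd rfl ht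
    | r b z t hb hz ht => exact ⟨1, _, by simp, Ty.r b z t hb hz ht⟩
  obtain ⟨a₀, z, rfl, hz⟩ := key
  have e' : Coprod.inl (a₀⁻¹ * a * a₀) * z = z * Coprod.inl a := by
    rw [map_mul, map_mul, map_inv, mul_assoc, mul_assoc, e]
    group
  have h1 : Ty (some true) (Coprod.inl (a₀⁻¹ * a * a₀) * z) :=
    Ty.l _ z _ (fun h => ha (by
      have : a = a₀ * (a₀⁻¹ * a * a₀) * a₀⁻¹ := by group
      rw [this, h]; group)) hz (by simp)
  rcases hz.mul_inl a with h2 | h2
  · exact hr (mul_mem ⟨a₀, rfl⟩ h2)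
  · rw [← e'] at h2
    exact absurd (h1.uniq h2) (by simp)

lemma inj_of {X : Type} [Group X] (Φ : Coprod A B →* X)
    (h : ∀ b z, Ty (some b) z → Φ z ≠ 1) : Function.Injective Φ := by
  rw [injective_iff_map_eq_one]
  intro z hz
  obtain ⟨t, ht⟩ := exists_ty z
  rcases t with _ | b
  · exact ht.eq_one
  · exact absurd hz (h b z ht)

variable {A' B' : Type} [Group A'] [Group B']

lemma map_inj (f : A →* A') (g : B →* B') (hf : Function.Injective f)
    (hg : Function.Injective g) : Function.Injective (Coprod.map f g) := by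
  have key : ∀ t z, Ty t z → Ty t (Coprod.map f g z) := by
    intro t z h
    induction h with
    | nil => rw [map_one]; exact Ty.nil
    | l a z t ha _ ht ih =>
      rw [map_mul, Coprod.map_apply_inl]
      exact Ty.l _ _ t (fun h => ha (hf (by rw [h, map_one]))) ih ht
    | r b z t hb _ ht ih =>
      rw [map_mul, Coprod.map_apply_inr]
      exact Ty.r _ _ t (fun h => hb (hg (by rw [h, map_one]))) ih ht
  exact inj_of _ fun b z h => (key _ z h).ne_one

end Words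

lemma fz (G : Type) [Group G] :
    Dg (Coprod.inl : G →* FZ G).range {h | (Coprod.snd : FZ G →* Multiplicative ℤ) h ≠ 1} := by
  constructor
  · rintro _ ⟨a, rfl⟩ h hh
    simpa using hh
  · rintro _ ⟨a, rfl⟩ h hh e
    rcases comm a h e with rfl | ⟨c, rfl⟩
    · exact map_one _
    · exact absurd rfl hh

lemma tri (Γ : Type) [Group Γ] (A F : Subgroup Γ) (y : Γ) (deg : Γ →* Multiplicative ℤ)
    (T : Tri A F y deg) : Dg A {h | deg h ≠ 1} := by
  set L : FZ (Coprod A F) →* Γ :=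
    Coprod.lift (Coprod.lift A.subtype F.subtype) (zpowersHom Γ y) with hL
  have hd : deg.comp L = Coprod.snd := by
    refine Coprod.hom_ext (Coprod.hom_ext ?_ ?_) ?_
    · ext x; exact congrArg _ (T.dA _ x.2)
    · ext x; exact congrArg _ (T.dF _ x.2)
    · refine MonoidHom.ext_mint ?_
      simpa [hL] using T.dy
  constructor
  · intro x hx h hh
    simpa [T.dA x hx] using hh
  · intro x hx h hh e
    obtain ⟨h', rfl⟩ := T.bij.2 h
    have hx' : x = L (Coprod.inl (Coprod.inl ⟨x, hx⟩)) := rfl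
    have h1 : (Coprod.snd : FZ (Coprod A F) →* Multiplicative ℤ) h' ≠ 1 := by
      rw [← hd]; exact hh
    have h2 := (fz (Coprod A F)).free _ ⟨Coprod.inl ⟨x, hx⟩, rfl⟩ h' h1 (T.bij.1 (by
      rw [map_mul, map_mul]; exact e))
    rw [hx', h2, map_one]

/-- The shift of the letters. -/
def sh : Multiplicative ℤ →* MulAut (FreeGroup ℤ) where
  toFun k := FreeGroup.freeGroupCongr (Equiv.addLeft k.toAdd)
  map_one' := by
    refine MulEquiv.toMonoidHom_injective (FreeGroup.ext_hom _ _ fun n => ?_)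
    simp
  map_mul' k l := by
    refine MulEquiv.toMonoidHom_injective (FreeGroup.ext_hom _ _ fun n => ?_)
    simp [add_assoc]

lemma emb_int : ∃ e : FreeGroup ℤ →* FreeGroup (Fin 2), Function.Injective e := by
  let e : FreeGroup ℤ →* FreeGroup (Fin 2) :=
    FreeGroup.lift fun n => FreeGroup.of 0 ^ n * FreeGroup.of 1 * (FreeGroup.of 0 ^ n)⁻¹
  let ρ : FreeGroup (Fin 2) →* FreeGroup ℤ ⋊[sh] Multiplicative ℤ :=
    FreeGroup.lift ![SemidirectProduct.inr (Multiplicative.ofAdd 1),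
      SemidirectProduct.inl (FreeGroup.of 0)]
  have h : ρ.comp e = SemidirectProduct.inl := by
    refine FreeGroup.ext_hom _ _ fun n => ?_
    simp only [e, ρ, MonoidHom.comp_apply, FreeGroup.lift_apply_of, map_mul, map_inv, map_zpow,
      Matrix.cons_val_zero, Matrix.cons_val_one]
    rw [← map_zpow, ← map_inv, ← SemidirectProduct.inl_aut]
    congr 1
    simp [sh, ← ofAdd_zsmul]
  refine ⟨e, Function.Injective.of_comp (f := ρ) ?_⟩
  rw [← MonoidHom.coe_comp, h]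
  exact SemidirectProduct.inl_injective

lemma emb_two : ∃ ψ : Coprod (FreeGroup (Fin 2)) (FreeGroup ℕ) →* FreeGroup (Fin 2),
    Function.Injective ψ := by
  obtain ⟨e, he⟩ := emb_int
  obtain ⟨u, hu⟩ : ∃ u : Fin 2 ⊕ ℕ → ℤ, Function.Injective u := by
    obtain ⟨u, hu⟩ := exists_injective_nat (Fin 2 ⊕ ℕ)
    exact ⟨fun x => (u x : ℤ), Nat.cast_injective.comp hu⟩
  let j : Coprod (FreeGroup (Fin 2)) (FreeGroup ℕ) →* FreeGroup ℤ :=
    Coprod.lift (FreeGroup.map fun i => u (Sum.inl i)) (FreeGroup.map fun n => u (Sum.inr n))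
  let k : FreeGroup ℤ →* Coprod (FreeGroup (Fin 2)) (FreeGroup ℕ) :=
    FreeGroup.lift fun m => Sum.elim (fun i => Coprod.inl (FreeGroup.of i))
      (fun n => Coprod.inr (FreeGroup.of n)) (Function.invFun u m)
  have h : k.comp j = MonoidHom.id _ := by
    refine Coprod.hom_ext (FreeGroup.ext_hom _ _ fun i => ?_) (FreeGroup.ext_hom _ _ fun n => ?_)
    · simp [j, k, Function.leftInverse_invFun hu _]
    · simp [j, k, Function.leftInverse_invFun hu _]
  refine ⟨e.comp j, he.comp (Function.Injective.of_comp (f := k) ?_)⟩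
  rw [← MonoidHom.coe_comp, h]
  exact Function.injective_id

/-- The homomorphism of germs attached to a homomorphism. -/
def gm {X Y : Type} [Group X] [Group Y] (l : Filter ℕ) (f : X →* Y) : l.Germ X →* l.Germ Y where
  toFun := Filter.Germ.map f
  map_one' := by
    rw [← Filter.Germ.coe_one, Filter.Germ.map_coe, ← Filter.Germ.coe_one]
    congr 1
    ext n
    simp
  map_mul' x y := by
    induction x using Filter.Germ.inductionOn with
    | h r =>
      induction y using Filter.Germ.inductionOn with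
      | h s =>
        rw [← Filter.Germ.coe_mul, Filter.Germ.map_coe, Filter.Germ.map_coe, Filter.Germ.map_coe,
          ← Filter.Germ.coe_mul]
        congr 1
        ext n
        simp

lemma lim (G : Type) [Group G] (h : Lim G) : Lim (Gam G) := by
  obtain ⟨U, φ, hφ⟩ := h
  obtain ⟨ψ, hψ⟩ := emb_two
  let c : FreeGroup ℕ →* Filter.Germ (U : Filter ℕ) (FreeGroup (Fin 2)) :=
    (Filter.Germ.coeMulHom (U : Filter ℕ)).comp (MonoidHom.pi fun _ => ψ.comp Coprod.inr)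
  let Φ : Gam G →* Filter.Germ (U : Filter ℕ) (FreeGroup (Fin 2)) :=
    Coprod.lift ((gm (U : Filter ℕ) (ψ.comp Coprod.inl)).comp φ) c
  have key : ∀ t z, Ty t z → ∃ r : ℕ → Coprod (FreeGroup (Fin 2)) (FreeGroup ℕ),
      Φ z = ((fun n => ψ (r n) : ℕ → FreeGroup (Fin 2)) : Filter.Germ (U : Filter ℕ) _) ∧
        ∀ᶠ n in (U : Filter ℕ), Ty t (r n) := by
    intro t z h
    induction h with
    | nil =>
      refine ⟨fun _ => 1, ?_, Eventually.of_forall fun _ => Ty.nil⟩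
      rw [map_one, ← Filter.Germ.coe_one]
      congr 1
      ext n
      simp
    | l a z t ha _ ht ih =>
      obtain ⟨r, hr, hT⟩ := ih
      obtain ⟨s, hs⟩ : ∃ s : ℕ → FreeGroup (Fin 2), φ a = (s : Filter.Germ (U : Filter ℕ) _) :=
        Filter.Germ.inductionOn (p := fun y => ∃ s : ℕ → FreeGroup (Fin 2), y = s) (φ a)
          fun s => ⟨s, rfl⟩
      have hne : ∀ᶠ n in (U : Filter ℕ), s n ≠ 1 := Ultrafilter.eventually_not.2 fun h' =>
        ha (hφ (by rw [hs, map_one, ← Filter.Germ.coe_one]; exact Filter.Germ.coe_eq.2 h'))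
      refine ⟨fun n => Coprod.inl (s n) * r n, ?_,
        (hne.and hT).mono fun n hn => Ty.l _ _ t hn.1 hn.2 ht⟩
      have h1 : Φ (Coprod.inl a) = ((fun n => ψ (Coprod.inl (s n)) : ℕ → FreeGroup (Fin 2)) :
          Filter.Germ (U : Filter ℕ) _) := by
        change Filter.Germ.map _ (φ a) = _
        rw [hs, Filter.Germ.map_coe]
        rfl
      rw [map_mul, h1, hr, ← Filter.Germ.coe_mul]
      congr 1
      ext n
      simp
    | r b z t hb _ ht ih =>
      obtain ⟨r, hr, hT⟩ := ih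
      refine ⟨fun n => Coprod.inr b * r n, ?_, hT.mono fun n hn => Ty.r _ _ t hb hn ht⟩
      have h1 : Φ (Coprod.inr b) = ((fun _ => ψ (Coprod.inr b) : ℕ → FreeGroup (Fin 2)) :
          Filter.Germ (U : Filter ℕ) _) := rfl
      rw [map_mul, h1, hr, ← Filter.Germ.coe_mul]
      congr 1
      ext n
      simp
  refine ⟨U, Φ, inj_of Φ fun b z hz e => ?_⟩
  obtain ⟨r, hr, hT⟩ := key _ z hz
  rw [hr, ← Filter.Germ.coe_one] at e
  obtain ⟨n, h1, h2⟩ := ((Filter.Germ.coe_eq.1 e).and hT).exists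
  exact h2.ne_one (hψ (by rw [map_one]; exact h1))

end CpP

theorem cp : CpStmt where
  map _ _ _ _ _ _ _ _ f g hf hg := CpP.map_inj f g hf hg
  comm _ _ _ _ a h e := CpP.comm a h e
  fz := CpP.fz
  tri := CpP.tri
  lim := CpP.lim

end

end Pool.Agent.MP_494aff_an.Un

end MrgPart0

-- ======== part 1: formerly Pool.Agent.MP_494aff_an.un.Gam
section MrgPart1

/-! Letters in the free product with a free group. -/

open Monoid

namespace Pool.Agent.MP_494aff_an.Un

open Pool.Agent.MP_494aff_an.Pinch Pool.Agent.MP_494aff_an.Pinch.TowP Pool.Agent.MP_494aff_an.Lf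

noncomputable section

namespace GamP

variable {G M : Type} [Group G] [Group M]

/-- A homomorphism given on `G` and on the letters. -/
def mk (φ : G →* M) (v : ℕ → M) : Gam G →* M := Coprod.lift φ (FreeGroup.lift v)

lemma mk_inl (φ : G →* M) (v : ℕ → M) (g : G) : mk φ v (Coprod.inl g) = φ g :=
  Coprod.lift_apply_inl _ _ _

lemma mk_lt (φ : G →* M) (v : ℕ → M) (n : ℕ) : mk φ v (lt G n) = v n := by
  rw [mk, lt, Coprod.lift_apply_inr, FreeGroup.lift_apply_of]

lemma gam_ext {φ ψ : Gam G →* M} (h1 : ∀ g, φ (Coprod.inl g) = ψ (Coprod.inl g))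
    (h2 : ∀ n, φ (lt G n) = ψ (lt G n)) : φ = ψ :=
  Coprod.hom_ext (MonoidHom.ext h1) (FreeGroup.ext_hom _ _ h2)

lemma lt_fr {C : Set ℕ} {n : ℕ} (h : n ∈ C) : lt G n ∈ fr G C :=
  Subgroup.subset_closure ⟨n, h, rfl⟩

lemma fr_le {C : Set ℕ} {T : Subgroup (Gam G)} (h : ∀ n ∈ C, lt G n ∈ T) : fr G C ≤ T :=
  (Subgroup.closure_le T).2 (by rintro _ ⟨n, hn, rfl⟩; exact h n hn)

lemma inl_sub (C : Set ℕ) (g : G) : (Coprod.inl g : Gam G) ∈ sub G C :=
  Subgroup.mem_sup_left ⟨g, rfl⟩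

lemma lt_sub {C : Set ℕ} {n : ℕ} (h : n ∈ C) : lt G n ∈ sub G C :=
  Subgroup.mem_sup_right (lt_fr h)

lemma sub_le {C : Set ℕ} {T : Subgroup (Gam G)} (h1 : ∀ g, Coprod.inl g ∈ T)
    (h2 : ∀ n ∈ C, lt G n ∈ T) : sub G C ≤ T :=
  sup_le (by rintro _ ⟨g, rfl⟩; exact h1 g) (fr_le h2)

lemma fr_mono {C C' : Set ℕ} (h : C ⊆ C') : fr G C ≤ fr G C' := fr_le fun _ hn => lt_fr (h hn)

lemma sub_mono {C C' : Set ℕ} (h : C ⊆ C') : sub G C ≤ sub G C' :=
  sub_le (inl_sub _) fun _ hn => lt_sub (h hn)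

lemma eq_fr {C : Set ℕ} {φ ψ : Gam G →* M} (h : ∀ n ∈ C, φ (lt G n) = ψ (lt G n)) :
    ∀ x ∈ fr G C, φ x = ψ x := fun _ hx => fr_le (T := φ.eqLocus ψ) h hx

lemma eq_sub {C : Set ℕ} {φ ψ : Gam G →* M} (h1 : ∀ g, φ (Coprod.inl g) = ψ (Coprod.inl g))
    (h2 : ∀ n ∈ C, φ (lt G n) = ψ (lt G n)) : ∀ x ∈ sub G C, φ x = ψ x :=
  fun _ hx => sub_le (T := φ.eqLocus ψ) h1 h2 hx

lemma mem_all {T : Subgroup (Gam G)} (h1 : ∀ g, Coprod.inl g ∈ T) (h2 : ∀ n, lt G n ∈ T)
    (x : Gam G) : x ∈ T := by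
  induction x using Coprod.induction_on with
  | inl g => exact h1 g
  | inr w => exact mem_of_gens (T.comap Coprod.inr) h2 w
  | mul x y hx hy => exact T.mul_mem hx hy

/-- A directed family that covers the generators dominates all finitely generated subgroups. -/
lemma fg_le {Q : Subgroup (Gam G) → Prop} (hd : ∀ Z Z', Q Z → Q Z' → ∃ Y, Q Y ∧ Z ≤ Y ∧ Z' ≤ Y)
    (h1 : ∀ g, ∃ Z, Q Z ∧ Coprod.inl g ∈ Z) (h2 : ∀ n, ∃ Z, Q Z ∧ lt G n ∈ Z)
    {L : Subgroup (Gam G)} (hL : L.FG) : ∃ Z, Q Z ∧ L ≤ Z := by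
  classical
  let T : Subgroup (Gam G) :=
    { carrier := {x | ∃ Z, Q Z ∧ x ∈ Z}
      one_mem' := (h2 0).imp fun Z hZ => ⟨hZ.1, Z.one_mem⟩
      mul_mem' := fun ⟨Z, hZ, hx⟩ ⟨Z', hZ', hy⟩ =>
        (hd Z Z' hZ hZ').imp fun Y hY => ⟨hY.1, Y.mul_mem (hY.2.1 hx) (hY.2.2 hy)⟩
      inv_mem' := fun ⟨Z, hZ, hx⟩ => ⟨Z, hZ, Z.inv_mem hx⟩ }
  obtain ⟨S, rfl⟩ := hL
  have : ∃ Z, Q Z ∧ ∀ x ∈ S, x ∈ Z := by
    induction S using Finset.induction_on with
    | empty => exact (h2 0).imp fun Z hZ => ⟨hZ.1, by simp⟩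
    | insert a S _ ih =>
      obtain ⟨Z, hZ, h⟩ := ih
      obtain ⟨Z', hZ', h'⟩ := mem_all (T := T) h1 h2 a
      obtain ⟨Y, k1, k2, k3⟩ := hd Z Z' hZ hZ'
      refine ⟨Y, k1, fun x hx => ?_⟩
      rcases Finset.mem_insert.1 hx with rfl | hx
      · exact k3 h'
      · exact k2 (h x hx)
  exact this.imp fun Z hZ => ⟨hZ.1, (Subgroup.closure_le Z).2 hZ.2⟩

lemma fin (L : Subgroup (Gam G)) (hL : L.FG) : ∃ C : Finset ℕ, L ≤ sub G C := by
  obtain ⟨_, ⟨C, rfl⟩, h⟩ := fg_le (Q := fun Z => ∃ C : Finset ℕ, Z = sub G C) (by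
      rintro _ _ ⟨C, rfl⟩ ⟨C', rfl⟩
      exact ⟨_, ⟨C ∪ C', rfl⟩, sub_mono (by simp), sub_mono (by simp)⟩)
    (fun g => ⟨_, ⟨∅, rfl⟩, inl_sub _ g⟩) (fun n => ⟨_, ⟨{n}, rfl⟩, lt_sub (by simp)⟩) hL
  exact ⟨C, h⟩

lemma fg_zp (x : M) : (Subgroup.zpowers x).FG :=
  ⟨{x}, by rw [Finset.coe_singleton, Subgroup.zpowers_eq_closure]⟩

lemma fg_sup {K K' : Subgroup M} (h : K.FG) (h' : K'.FG) : (K ⊔ K').FG := by
  classical
  obtain ⟨S, rfl⟩ := h
  obtain ⟨S', rfl⟩ := h'
  exact ⟨S ∪ S', by rw [Finset.coe_union, Subgroup.closure_union]⟩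

lemma cut (K : Subgroup (Gam G)) (C : Set ℕ) (hK : K.FG) :
    ∃ (K₀ : Subgroup (Gam G)) (C₁ : Finset ℕ), K₀ ≤ sub G C ∧ K₀.FG ∧ (∀ n ∈ C₁, n ∉ C) ∧
      K ≤ K₀ ⊔ fr G C₁ := by
  obtain ⟨_, ⟨K₀, C₁, h1, h2, h3, rfl⟩, h⟩ := fg_le (Q := fun Z => ∃ (K₀ : Subgroup (Gam G))
      (C₁ : Finset ℕ), K₀ ≤ sub G C ∧ K₀.FG ∧ (∀ n ∈ C₁, n ∉ C) ∧ Z = K₀ ⊔ fr G C₁) (by
      rintro _ _ ⟨K₀, C₁, h1, h2, h3, rfl⟩ ⟨K₀', C₁', h1', h2', h3', rfl⟩
      refine ⟨_, ⟨K₀ ⊔ K₀', C₁ ∪ C₁', sup_le h1 h1', fg_sup h2 h2', fun n hn => ?_, rfl⟩,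
        sup_le_sup le_sup_left (fr_mono (by simp)), sup_le_sup le_sup_right (fr_mono (by simp))⟩
      exact (Finset.mem_union.1 hn).elim (h3 n) (h3' n))
    (fun g => ⟨_, ⟨Subgroup.zpowers (Coprod.inl g), ∅, Subgroup.zpowers_le.2 (inl_sub _ g),
      fg_zp _, by simp, rfl⟩, Subgroup.mem_sup_left (Subgroup.mem_zpowers _)⟩)
    (fun n => by
      by_cases hn : n ∈ C
      · exact ⟨_, ⟨Subgroup.zpowers (lt G n), ∅, Subgroup.zpowers_le.2 (lt_sub hn), fg_zp _,
          by simp, rfl⟩, Subgroup.mem_sup_left (Subgroup.mem_zpowers _)⟩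
      · exact ⟨_, ⟨Subgroup.zpowers 1, {n}, Subgroup.zpowers_le.2 (one_mem _), fg_zp _,
          by simpa using hn, rfl⟩, Subgroup.mem_sup_right (lt_fr (by simp))⟩) hK
  exact ⟨K₀, C₁, h1, h2, h3, h⟩

/-- The inclusion of `G`. -/
def iS (G : Type) [Group G] (C : Set ℕ) : G →* sub G C :=
  (Coprod.inl : G →* Gam G).codRestrict _ (inl_sub C)

open Classical in
/-- The retraction that kills the letters outside `C`. -/
def rS (G : Type) [Group G] (C : Set ℕ) : Gam G →* sub G C :=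
  mk (iS G C) fun m => if h : m ∈ C then ⟨lt G m, lt_sub h⟩ else 1

lemma rS_val (C : Set ℕ) (a : sub G C) : rS G C a = a := by
  refine Subtype.ext (eq_sub (φ := (sub G C).subtype.comp (rS G C)) (ψ := MonoidHom.id _)
    (fun g => ?_) (fun n hn => ?_) a a.2)
  · rw [MonoidHom.comp_apply, rS, mk_inl]; rfl
  · rw [MonoidHom.comp_apply, rS, mk_lt, dif_pos hn]; rfl

open Classical in
/-- The retraction that kills `G` and the letters outside `C`. -/
def rF (G : Type) [Group G] (C : Set ℕ) : Gam G →* fr G C :=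
  mk 1 fun m => if h : m ∈ C then ⟨lt G m, lt_fr h⟩ else 1

lemma rF_val (C : Set ℕ) (a : fr G C) : rF G C a = a := by
  refine Subtype.ext (eq_fr (φ := (fr G C).subtype.comp (rF G C)) (ψ := MonoidHom.id _)
    (fun n hn => ?_) a a.2)
  rw [MonoidHom.comp_apply, rF, mk_lt, dif_pos hn]; rfl

lemma lift_gen {X : Type} [Group X] (j : X →* M) (y : M) :
    (Coprod.lift j (zpowersHom M y) : FZ X →* M) (gen X) = y := by
  rw [gen, Coprod.lift_apply_inr, zpowersHom_apply, toAdd_ofAdd, zpow_one]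

lemma fz_ext {X : Type} [Group X] {φ ψ : FZ X →* M}
    (h1 : ∀ g, φ (Coprod.inl g) = ψ (Coprod.inl g)) (h2 : φ (gen X) = ψ (gen X)) : φ = ψ :=
  Coprod.hom_ext (MonoidHom.ext h1) (MonoidHom.ext_mint h2)

lemma tri (C : Finset ℕ) (n : ℕ) (hn : n ∉ C) :
    ∃ deg, Tri (sub G (insert n (C : Set ℕ))ᶜ) (fr G C) (lt G n) deg := by
  classical
  set D : Set ℕ := (insert n (C : Set ℕ))ᶜ with hD
  have hD1 : ∀ m ∈ D, m ≠ n ∧ m ∉ C := fun m hm => by simpa [hD] using hm
  have hD2 : ∀ m, m ≠ n → m ∉ C → m ∈ D := fun m h1 h2 => by simp [hD, h1, h2]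
  refine ⟨mk 1 fun m => if m = n then Multiplicative.ofAdd 1 else 1, ?_,
    eq_sub (ψ := 1) (fun g => mk_inl _ _ g) fun m hm => ?_, eq_fr (ψ := 1) fun m hm => ?_, ?_⟩
  · let Ψ : Gam G →* FZ (Coprod (sub G D) (fr G C)) :=
      mk ((Coprod.inl.comp Coprod.inl).comp (iS G D)) fun m => if m = n then gen _ else
        if m ∈ C then Coprod.inl (Coprod.inr (rF G C (lt G m)))
        else Coprod.inl (Coprod.inl (rS G D (lt G m)))
    have e1 : ∀ a : sub G D, Ψ a = Coprod.inl (Coprod.inl a) := fun a => by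
      refine (eq_sub (φ := Ψ) (ψ := (Coprod.inl.comp Coprod.inl).comp (rS G D)) (fun g => ?_)
        (fun m hm => ?_) a a.2).trans ?_
      · rw [mk_inl, MonoidHom.comp_apply, MonoidHom.comp_apply _ (rS G D), rS, mk_inl]
      · rw [mk_lt, if_neg (hD1 m hm).1, if_neg (hD1 m hm).2]; rfl
      · rw [MonoidHom.comp_apply, rS_val]; rfl
    have e2 : ∀ a : fr G C, Ψ a = Coprod.inl (Coprod.inr a) := fun a => by
      refine (eq_fr (φ := Ψ) (ψ := (Coprod.inl.comp Coprod.inr).comp (rF G C))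
        (fun m hm => ?_) a a.2).trans ?_
      · rw [mk_lt, if_neg (fun e : m = n => hn (e ▸ hm)), if_pos (Finset.mem_coe.1 hm)]; rfl
      · rw [MonoidHom.comp_apply, rF_val]; rfl
    refine ⟨Function.LeftInverse.injective (g := Ψ) fun x => ?_, fun x => ?_⟩
    · refine DFunLike.congr_fun (fz_ext (φ := Ψ.comp _) (ψ := MonoidHom.id _) (fun z => ?_) ?_) x
      · refine DFunLike.congr_fun (Coprod.hom_ext (f := (Ψ.comp _).comp Coprod.inl)
          (g := Coprod.inl) (MonoidHom.ext fun a => ?_) (MonoidHom.ext fun a => ?_)) z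
        · simpa using e1 a
        · simpa using e2 a
      · rw [MonoidHom.comp_apply, lift_gen, mk_lt, if_pos rfl]; rfl
    · refine mem_all (T := MonoidHom.range _) (fun g => ?_) (fun m => ?_) x
      · exact ⟨Coprod.inl (Coprod.inl ⟨_, inl_sub D g⟩), by simp⟩
      · by_cases h1 : m = n
        · exact ⟨gen _, h1 ▸ lift_gen _ _⟩
        · by_cases h2 : m ∈ C
          · exact ⟨Coprod.inl (Coprod.inr ⟨_, lt_fr h2⟩), by simp⟩
          · exact ⟨Coprod.inl (Coprod.inl ⟨_, lt_sub (hD2 m h1 h2)⟩), by simp⟩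
  · rw [mk_lt, if_neg (hD1 m hm).1]; rfl
  · rw [mk_lt, if_neg (fun e : m = n => hn (e ▸ hm))]; rfl
  · rw [mk_lt, if_pos rfl]

lemma one_inj (n : ℕ) : Function.Injective (Coprod.lift (sub G {n}ᶜ).subtype
    (zpowersHom (Gam G) (lt G n)) : FZ (sub G {n}ᶜ) →* Gam G) := by
  let Ψ : Gam G →* FZ (sub G {n}ᶜ) := mk (Coprod.inl.comp (iS G _)) fun m =>
    if m = n then gen _ else Coprod.inl (rS G _ (lt G m))
  have e1 : ∀ a : sub G {n}ᶜ, Ψ a = Coprod.inl a := fun a => by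
    refine (eq_sub (φ := Ψ) (ψ := Coprod.inl.comp (rS G _)) (fun g => ?_)
      (fun m hm => ?_) a a.2).trans ?_
    · rw [mk_inl, MonoidHom.comp_apply, MonoidHom.comp_apply _ (rS G _), rS, mk_inl]
    · rw [mk_lt, if_neg (show m ≠ n from hm)]; rfl
    · rw [MonoidHom.comp_apply, rS_val]
  refine Function.LeftInverse.injective (g := Ψ) fun x => ?_
  refine DFunLike.congr_fun (fz_ext (φ := Ψ.comp _) (ψ := MonoidHom.id _) (fun z => ?_) ?_) x
  · simpa using e1 z
  · rw [MonoidHom.comp_apply, lift_gen, mk_lt, if_pos rfl]; rfl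

lemma fresh (h : CpStmt) {X : Type} [Group X] (j : X →* Gam G) (C : Set ℕ) (n : ℕ)
    (hj : Function.Injective j) (hC : j.range ≤ sub G C) (hn : n ∉ C) :
    Function.Injective (Coprod.lift j (zpowersHom (Gam G) (lt G n)) : FZ X →* Gam G) := by
  have hm : ∀ x, j x ∈ sub G {n}ᶜ := fun x =>
    sub_mono (fun m hm (e : m = n) => hn (e ▸ hm)) (hC ⟨x, rfl⟩)
  have e : (Coprod.lift j (zpowersHom (Gam G) (lt G n)) : FZ X →* Gam G) =
      (Coprod.lift (sub G {n}ᶜ).subtype (zpowersHom (Gam G) (lt G n))).comp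
        (Coprod.map (j.codRestrict _ hm) (MonoidHom.id _)) :=
    Coprod.hom_ext (MonoidHom.ext fun x => by simp) (MonoidHom.ext fun x => by simp)
  rw [e, MonoidHom.coe_comp]
  exact (one_inj n).comp (h.map _ _ _ _ _ _ (fun _ _ k => hj (congrArg Subtype.val k))
    Function.injective_id)

/-- Multiplication of one letter on both sides. -/
def sg (n : ℕ) (g g' : Gam G) : Gam G →* Gam G :=
  mk Coprod.inl fun m => if m = n then g * lt G n * g' else lt G m

lemma sg_fix (n : ℕ) (g g' : Gam G) : ∀ x ∈ sub G {n}ᶜ, sg n g g' x = x :=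
  eq_sub (ψ := MonoidHom.id _) (fun a => mk_inl _ _ a) fun m hm => by
    rw [sg, mk_lt, if_neg (show m ≠ n from hm)]; rfl

lemma sg_lt (n : ℕ) (g g' : Gam G) : sg n g g' (lt G n) = g * lt G n * g' := by
  rw [sg, mk_lt, if_pos rfl]

lemma sg_inv {n : ℕ} {g g' k k' : Gam G} (hk : k ∈ sub G {n}ᶜ) (hk' : k' ∈ sub G {n}ᶜ)
    (e : k * g = 1) (e' : g' * k' = 1) : (sg n g g').comp (sg n k k') = MonoidHom.id _ := by
  refine gam_ext (fun a => ?_) fun m => ?_
  · rw [MonoidHom.comp_apply, sg_fix _ _ _ _ (inl_sub _ a), sg_fix _ _ _ _ (inl_sub _ a)]; rfl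
  · by_cases hm : m = n
    · rw [hm, MonoidHom.comp_apply, sg_lt, map_mul, map_mul, sg_fix _ _ _ _ hk, sg_fix _ _ _ _ hk',
        sg_lt, ← mul_assoc, ← mul_assoc, e, one_mul, mul_assoc, e', mul_one]; rfl
    · rw [MonoidHom.comp_apply, sg_fix _ _ _ _ (lt_sub hm), sg_fix _ _ _ _ (lt_sub hm)]; rfl

lemma sigma (n : ℕ) (g g' : Gam G) (hg : g ∈ sub G {n}ᶜ) (hg' : g' ∈ sub G {n}ᶜ) :
    ∃ σ : Gam G ≃* Gam G, (∀ x ∈ sub G {n}ᶜ, σ x = x) ∧ σ (lt G n) = g * lt G n * g' :=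
  ⟨MonoidHom.toMulEquiv (sg n g g') (sg n g⁻¹ g'⁻¹)
    (sg_inv hg hg' (mul_inv_cancel g) (inv_mul_cancel g'))
    (sg_inv (inv_mem hg) (inv_mem hg') (inv_mul_cancel g) (mul_inv_cancel g')),
    sg_fix n g g', sg_lt n g g'⟩

lemma zp_inj {w : M} (hw : InfOrd w) : Function.Injective (zpowersHom M w) :=
  (injective_iff_map_eq_one _).2 fun _ hk => Multiplicative.toAdd.injective (hw _ hk)

lemma free3 (h : CpStmt) (w : Gam G) (n m : ℕ) (hnm : n ≠ m) (hw : w ∈ sub G {n, m}ᶜ)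
    (ho : InfOrd w) : Function.Injective
      (FreeGroup.lift ![w, lt G n * w * (lt G n)⁻¹, lt G m] : FreeGroup (Fin 3) →* Gam G) := by
  have h1 := fresh h (zpowersHom _ w) {n, m}ᶜ n (zp_inj ho)
    (by rintro _ ⟨k, rfl⟩; exact zpow_mem hw _) (by simp)
  have h2 := fresh h _ {m}ᶜ m h1 (by
    rw [Coprod.range_lift]
    refine sup_le ?_ ?_
    · rintro _ ⟨k, rfl⟩
      exact zpow_mem (sub_mono (by simp) hw) _
    · rintro _ ⟨k, rfl⟩
      exact zpow_mem (lt_sub hnm) _) (by simp)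
  let a : FZ (FZ (Multiplicative ℤ)) := Coprod.inl (Coprod.inl (Multiplicative.ofAdd 1))
  let y : FZ (FZ (Multiplicative ℤ)) := Coprod.inl (gen _)
  let θ : FreeGroup (Fin 3) →* FZ (FZ (Multiplicative ℤ)) :=
    FreeGroup.lift ![a, y * a * y⁻¹, gen _]
  let sw : FreeGroup (Fin 3) ≃* FreeGroup (Fin 3) := FreeGroup.freeGroupCongr (Equiv.swap 0 1)
  let L := MulAction.toPermHom (FreeGroup (Fin 3)) (FreeGroup (Fin 3))
  let π : FZ (FZ (Multiplicative ℤ)) →* Equiv.Perm (FreeGroup (Fin 3)) :=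
    Coprod.lift (Coprod.lift (zpowersHom _ (L (FreeGroup.of 0))) (zpowersHom _ sw.toEquiv))
      (zpowersHom _ (L (FreeGroup.of 2)))
  have pa : π a = L (FreeGroup.of 0) := by simp [π, a]
  have py : π y = sw.toEquiv := by
    simp only [π, y, Coprod.lift_apply_inl]
    exact lift_gen _ _
  have e1 : π.comp θ = L := by
    refine FreeGroup.ext_hom _ _ fun i => ?_
    rw [MonoidHom.comp_apply, FreeGroup.lift_apply_of]
    fin_cases i
    · exact pa
    · show π (y * a * y⁻¹) = L (FreeGroup.of 1)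
      rw [map_mul, map_mul, map_inv, pa, py, mul_inv_eq_iff_eq_mul]
      ext x
      simp [L, sw]
    · exact lift_gen _ _
  have h3 : Function.Injective θ := by
    refine Function.Injective.of_comp (f := π) ?_
    rw [← MonoidHom.coe_comp, e1]
    exact MulAction.toPerm_injective
  have e2 : (FreeGroup.lift ![w, lt G n * w * (lt G n)⁻¹, lt G m] :
      FreeGroup (Fin 3) →* Gam G) = (Coprod.lift (Coprod.lift (zpowersHom _ w)
        (zpowersHom _ (lt G n))) (zpowersHom _ (lt G m))).comp θ := by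
    refine FreeGroup.ext_hom _ _ fun i => ?_
    rw [MonoidHom.comp_apply, FreeGroup.lift_apply_of, FreeGroup.lift_apply_of]
    fin_cases i
    · simp [a]
    · show lt G n * w * (lt G n)⁻¹ = Coprod.lift _ _ (y * a * y⁻¹)
      rw [map_mul, map_mul, map_inv]
      simp [a, y, gen]
    · exact (lift_gen _ _).symm
  rw [e2, MonoidHom.coe_comp]
  exact h2.comp h3

end GamP

theorem gam (h : CpStmt) : GamStmt where
  fin _ _ := GamP.fin
  cut _ _ := GamP.cut
  tri _ _ := GamP.tri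
  fresh _ _ _ _ := GamP.fresh h
  sigma _ _ := GamP.sigma
  free3 _ _ := GamP.free3 h

end

end Pool.Agent.MP_494aff_an.Un

end MrgPart1

-- ======== part 2: formerly Pool.Agent.MP_494aff_an.un.Good
section MrgPart2

/-! Row GOOD: the standing hypotheses hold for countable limit groups. -/

open Monoid Filter Topology
open scoped InnerProductSpace ComplexConjugate

namespace Pool.Agent.MP_494aff_an.Un

open Pool.Agent.MP_494aff_an.Pinch Pool.Agent.MP_494aff_an.Pinch.TowP Pool.Agent.MP_494aff_an.Lf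

noncomputable section

namespace GoodP

variable {Γ : Type} [Group Γ]

lemma lim_sub (h : Lim Γ) (A : Subgroup Γ) : Lim A := by
  obtain ⟨U, φ, hφ⟩ := h
  exact ⟨U, φ.comp A.subtype, hφ.comp Subtype.val_injective⟩

lemma cos_inj (A : Subgroup Γ) (z : Γ) : Function.Injective fun a : A => (a : Γ) * z :=
  fun _ _ h => Subtype.ext (mul_left_injective z h)

/-- The embedding attached to the right coset of `z`. -/
def ez (A : Subgroup Γ) (z : Γ) : H A →L[ℂ] H Γ := emb (fun a : A => (a : Γ) * z) (cos_inj A z)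

/-- The part of a vector on the right coset of `z`. -/
def pz (A : Subgroup Γ) (z : Γ) : H Γ →L[ℂ] H A := ContinuousLinearMap.adjoint (ez A z)

lemma ez_dl (A : Subgroup Γ) (z : Γ) (a : A) : ez A z (dl a) = dl ((a : Γ) * z) := emb_dl _ _ a

lemma ez_norm (A : Subgroup Γ) (z : Γ) (η : H A) : ‖ez A z η‖ = ‖η‖ := emb_norm _ _ η

lemma pz_coef (A : Subgroup Γ) (z : Γ) (ξ : H Γ) (a : A) : pz A z ξ a = ξ ((a : Γ) * z) := by
  rw [← inner_dl, pz, ContinuousLinearMap.adjoint_inner_right, ez_dl, inner_dl]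

lemma pz_lam (A : Subgroup Γ) (z : Γ) (x : A) (ξ : H Γ) :
    pz A z (lam (x : Γ) ξ) = lam x (pz A z ξ) := by
  ext a
  rw [pz_coef, lam_coef, lam_coef, pz_coef, Subgroup.coe_mul, Subgroup.coe_inv, mul_assoc]

lemma ez_lam (A : Subgroup Γ) (z : Γ) (x : A) (η : H A) :
    ez A z (lam x η) = lam (x : Γ) (ez A z η) := by
  have h : (ez A z).comp (lam x : Op A) = (lam (x : Γ) : Op Γ).comp (ez A z) :=
    op_ext fun a => by
      rw [ContinuousLinearMap.comp_apply, ContinuousLinearMap.comp_apply, lam_dl, ez_dl, ez_dl,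
        lam_dl, Subgroup.coe_mul, mul_assoc]
  exact congrArg (fun T : H A →L[ℂ] H Γ => T η) h

/-- A representative of the right coset. -/
def rp (A : Subgroup Γ) (y : Γ) : Γ := (Quotient.mk (QuotientGroup.rightRel A) y).out

lemma rp_mem (A : Subgroup Γ) (y : Γ) : y * (rp A y)⁻¹ ∈ A :=
  QuotientGroup.rightRel_apply.1 (Quotient.mk_out (s := QuotientGroup.rightRel A) y)

lemma rp_eq (A : Subgroup Γ) {y y' : Γ} (h : y' * y⁻¹ ∈ A) : rp A y = rp A y' :=
  congrArg Quotient.out (Quotient.sound (s := QuotientGroup.rightRel A)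
    (QuotientGroup.rightRel_apply.2 h))

open Classical in
lemma ez_pz (A : Subgroup Γ) (w : Γ) (ξ : H Γ) (y : Γ) :
    ez A (rp A w) (pz A (rp A w) ξ) y = if rp A y = rp A w then ξ y else 0 := by
  split_ifs with h
  · have h1 : y * (rp A w)⁻¹ ∈ A := h ▸ rp_mem A y
    have h2 := emb_coef _ (cos_inj A (rp A w)) (pz A (rp A w) ξ) ⟨_, h1⟩
    rw [pz_coef] at h2
    simp only [inv_mul_cancel_right] at h2
    exact h2
  · refine supp_emb _ (cos_inj A (rp A w)) (supp_univ _) y ?_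
    rintro ⟨a, -, rfl⟩
    refine h ((rp_eq A ?_).trans (rp_eq A (rp_mem A w)))
    simp

/-- Finitely many right cosets carry most of finitely many vectors. -/
lemma exists_cos (A : Subgroup Γ) (S : Finset Γ) (c : Γ → H Γ) {ε : ℝ} (hε : 0 < ε) :
    ∃ Z : Finset Γ, ∀ s ∈ S, ‖∑ z ∈ Z, ez A z (pz A z (c s)) - c s‖ ≤ ε := by
  classical
  have h1 : ∀ᶠ F : Finset Γ in atTop, ∀ s ∈ S, dist (∑ x ∈ F, c s x • dl x) (c s) < ε :=
    (eventually_all_finset S).2 fun s _ => Metric.tendsto_nhds.1 (hasSum_dl (c s)) ε hε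
  obtain ⟨F, hF⟩ := h1.exists
  refine ⟨F.image (rp A), fun s hs => ?_⟩
  have h2 := (hF s hs).le
  rw [dist_eq_norm] at h2
  refine le_trans ?_ h2
  rw [← one_mul ‖∑ x ∈ F, c s x • dl x - c s‖]
  refine AnP.vec_le zero_le_one fun y => ?_
  have h3 : (∑ z ∈ F.image (rp A), ez A z (pz A z (c s))) y =
      if rp A y ∈ F.image (rp A) then c s y else 0 := by
    rw [lp.coeFn_sum, Finset.sum_apply, ← Finset.sum_ite_eq _ (rp A y) fun _ => c s y]
    refine Finset.sum_congr rfl fun z hz => ?_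
    obtain ⟨w, -, rfl⟩ := Finset.mem_image.1 hz
    exact ez_pz A w (c s) y
  rw [one_mul, lp.coeFn_sub, Pi.sub_apply, h3]
  split_ifs with h
  · rw [sub_self, norm_zero]; exact norm_nonneg _
  · have h4 : (∑ x ∈ F, c s x • dl x) y = 0 :=
      supp_sum (X := (F : Set Γ)) F _ (fun x hx => (supp_dl hx).smul _) y
        fun hy => h (Finset.mem_image_of_mem _ hy)
    rw [lp.coeFn_sub, Pi.sub_apply, h4]

/-- Independence passes from a subgroup to the ambient group. -/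
lemma ind_map (A : Subgroup Γ) {K L : Subgroup A} (h : IND K L) :
    IND (K.map A.subtype) (L.map A.subtype) := by
  classical
  intro c hc S hS ε hε
  obtain ⟨Z, hZ⟩ := exists_cos A S c (half_pos hε)
  have hδ : 0 < ε / 2 / (Z.card + 1) := by positivity
  have h1 : ∀ z : Γ, ∃ c' : A → H A, Cy K c' ∧
      ∀ s ∈ S.subtype (· ∈ A), ‖c' s - pz A z (c s)‖ ≤ ε / 2 / (Z.card + 1) := fun z =>
    h (fun a => pz A z (c a)) (fun x hx y hy => by
      beta_reduce
      rw [Subgroup.coe_mul, hc x ⟨x, hx, rfl⟩ y ⟨y, hy, rfl⟩, map_add, pz_lam])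
      _ (fun s hs => by
        obtain ⟨a, ha, e⟩ := hS _ (Finset.mem_subtype.1 hs)
        exact (Subtype.ext e : a = s) ▸ ha) _ hδ
  choose c' hc' hn using h1
  refine ⟨fun x => if hx : x ∈ A then ∑ z ∈ Z, ez A z (c' z ⟨x, hx⟩) else 0, ?_, fun s hs => ?_⟩
  · rintro _ ⟨x, hx, rfl⟩ _ ⟨y, hy, rfl⟩
    have e1 : A.subtype x * A.subtype y ∈ A := (x * y).2
    have e2 : A.subtype x ∈ A := x.2
    have e3 : A.subtype y ∈ A := y.2
    simp only [dif_pos e1, dif_pos e2, dif_pos e3]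
    rw [map_sum, ← Finset.sum_add_distrib]
    refine Finset.sum_congr rfl fun z _ => ?_
    have e4 := congrArg (ez A z) (hc' z x hx y hy)
    rw [map_add, ez_lam] at e4
    exact e4
  · obtain ⟨a, -, rfl⟩ := hS s hs
    have e2 : A.subtype a ∈ A := a.2
    simp only [dif_pos e2]
    have h2 : ‖∑ z ∈ Z, ez A z (c' z ⟨_, e2⟩) - ∑ z ∈ Z, ez A z (pz A z (c (A.subtype a)))‖ ≤
        ε / 2 := by
      rw [← Finset.sum_sub_distrib]
      refine (norm_sum_le_of_le Z (n := fun _ => ε / 2 / (Z.card + 1)) fun z _ => ?_).trans ?_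
      · rw [← map_sub, ez_norm]
        exact hn z ⟨_, e2⟩ (Finset.mem_subtype.2 hs)
      · rw [Finset.sum_const, nsmul_eq_mul, mul_div_assoc', div_le_iff₀ (by positivity)]
        nlinarith
    have h3 := norm_sub_le_norm_sub_add_norm_sub (∑ z ∈ Z, ez A z (c' z ⟨_, e2⟩))
      (∑ z ∈ Z, ez A z (pz A z (c (A.subtype a)))) (c (A.subtype a))
    linarith [hZ _ hs]

lemma fg_sub {A L : Subgroup Γ} (hL : L ≤ A) (h : L.FG) : (L.subgroupOf A).FG := by
  have h1 : Group.FG L := (Group.fg_iff_subgroup_fg L).2 h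
  exact (Group.fg_iff_subgroup_fg _).1 (Group.fg_of_surjective
    (f := (Subgroup.subgroupOfEquivOfLe hL).symm.toMonoidHom)
    (Subgroup.subgroupOfEquivOfLe hL).symm.surjective)

lemma fg_map {A : Subgroup Γ} {L : Subgroup A} (h : L.FG) : (L.map A.subtype).FG := by
  have h1 : Group.FG L := (Group.fg_iff_subgroup_fg L).2 h
  exact (Group.fg_iff_subgroup_fg _).1 (Group.fg_of_surjective
    (f := A.subtype.subgroupMap L) (A.subtype.subgroupMap_surjective L))

/-- A cocycle extends over finitely many new letters. -/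
lemma ext_letters (hB : Bas) {G : Type} [Group G] {K : Subgroup (Gam G)} {C : Set ℕ}
    (hK : K ≤ sub G C) (C₁ : Finset ℕ) (hC : ∀ n ∈ C₁, n ∉ C) {c : Gam G → H (Gam G)}
    (hc : Cy K c) : ∃ c', Cy (K ⊔ fr G C₁) c' ∧ ∀ x ∈ K, c' x = c x := by
  classical
  induction C₁ using Finset.induction_on with
  | empty => exact ⟨c, by simpa [fr] using hc, fun _ _ => rfl⟩
  | insert n C₁ hn ih =>
    obtain ⟨c₁, h1, h2⟩ := ih fun m hm => hC m (Finset.mem_insert_of_mem hm)
    have h3 : K ⊔ fr G C₁ ≤ sub G (C ∪ C₁) := sup_le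
      (hK.trans (sup_le_sup_left (Subgroup.closure_mono
        (Set.image_mono Set.subset_union_left)) _))
      (le_sup_of_le_right (Subgroup.closure_mono (Set.image_mono Set.subset_union_right)))
    obtain ⟨c₂, h4, h5, -⟩ := hB.lets.ext G _ (C ∪ C₁) n c₁ 0 h3
      (fun h => h.elim (hC n (Finset.mem_insert_self _ _)) hn) h1
    have h6 : K ⊔ fr G (insert n C₁ : Finset ℕ) =
        K ⊔ fr G C₁ ⊔ Subgroup.zpowers (lt G n) := by
      rw [fr, Finset.coe_insert, Set.image_insert_eq, Set.insert_eq, Subgroup.closure_union,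
        Subgroup.zpowers_eq_closure, sup_assoc, sup_comm (Subgroup.closure {lt G n}), fr]
    exact ⟨c₂, h6 ▸ h4, fun x hx => (h5 x (Subgroup.mem_sup_left hx)).trans (h2 x hx)⟩

end GoodP

theorem good (hB : Bas) : GoodStmt := by
  intro hR hH G _ hcnt hL
  have hΓ := hB.cp.lim G hL
  refine ⟨hcnt, ct_lim hΓ, fun C L₀ h0 hfg => ?_⟩
  have hA := GoodP.lim_sub hΓ (sub G C)
  obtain ⟨L, hL₀, hLfg, hInd⟩ := hR (sub G C) (ct_lim hA)
    (fun K hK => hH K ((Group.fg_iff_subgroup_fg K).2 hK) (GoodP.lim_sub hA K))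
    (L₀.subgroupOf (sub G C)) (GoodP.fg_sub h0 hfg)
  have hfg' := GoodP.fg_map hLfg
  have hle : L.map (sub G C).subtype ≤ sub G C := Subgroup.map_subtype_le L
  refine ⟨L.map (sub G C).subtype, fun x hx => ⟨⟨x, h0 hx⟩, hL₀ hx, rfl⟩, hle,
    ⟨hfg', fun K hK _ c hc S hS ε hε => ?_⟩,
    hH _ ((Group.fg_iff_subgroup_fg _).2 hfg') (GoodP.lim_sub hΓ _)⟩
  obtain ⟨K₀, C₁, h1, h2, h3, h4⟩ := hB.gam.cut G K C hK
  have h5 : K₀ ⊔ L.map (sub G C).subtype ≤ sub G C := sup_le h1 hle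
  have h6 := GoodP.ind_map (sub G C) (hInd ((K₀ ⊔ L.map (sub G C).subtype).subgroupOf (sub G C))
    (GoodP.fg_sub h5 (h2.sup hfg')) fun x hx => Subgroup.mem_sup_right ⟨x, hx, rfl⟩)
  rw [Subgroup.subgroupOf_map_subtype, inf_eq_left.2 h5] at h6
  obtain ⟨c₁, hc₁, hn⟩ := h6 c hc S hS ε hε
  obtain ⟨c₂, hc₂, he⟩ := GoodP.ext_letters hB h5 C₁ h3 hc₁
  have h7 : K ≤ K₀ ⊔ L.map (sub G C).subtype ⊔ fr G C₁ :=
    h4.trans (sup_le_sup_right le_sup_left _)
  exact ⟨c₂, fun x hx y hy => hc₂ x (h7 hx) y (h7 hy), fun s hs => by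
    rw [he s (Subgroup.mem_sup_right (hS s hs))]; exact hn s hs⟩

end

end Pool.Agent.MP_494aff_an.Un

end MrgPart2

-- ======== part 3: formerly Pool.Agent.MP_494aff_an.un.HnInd
section MrgPart3

/-! The base of an HNN extension is independent. -/

open Monoid

namespace Pool.Agent.MP_494aff_an.Un

open Pool.Agent.MP_494aff_an.Pinch Pool.Agent.MP_494aff_an.Pinch.TowP Pool.Agent.MP_494aff_an.Lf

theorem hnInd (hB : Bas) : HnIndStmt := by
  classical
  intro P A B Γ _ _ _ _ c c' f t j hn hc hc' hg hj u hu S hS ε hε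
  set j₀ := j.comp (Coprod.map f (MonoidHom.id B)) with hj₀
  let ιA : A →* Γ := j.comp Coprod.inl
  have hι : Function.Injective (ιA.comp f) :=
    (hj.comp Coprod.inl_injective).comp (FG.britton hn hc' hc).1
  obtain ⟨β, ξ, hβ, -, -, b1, b2⟩ := hg Γ (ιA.comp f) hι
  have h0 : Cz j₀ fun x => u (j₀ x) := fun x y => by
    simp only [map_mul]
    exact hu _ ⟨x, rfl⟩ _ ⟨y, rfl⟩
  choose! g hgS using hS
  obtain ⟨T₀, N, hT, hN, hcl⟩ := hB.cz.close (Coprod P B)
    (Set.range (Coprod.inl : P →* Coprod P B) ∪ Set.range (Coprod.inr : B →* Coprod P B))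
    (S.image g) fun s _ => by rw [Coprod.closure_range_inl_union_inr]; trivial
  let D : P → Op Γ := fun p => β p - (1 - lam (ιA (f p))) * ξ
  let M : ℝ := 1 + ∑ x ∈ T₀, ‖D (Coprod.fst x)‖
  have hs : 0 ≤ ∑ x ∈ T₀, ‖D (Coprod.fst x)‖ := Finset.sum_nonneg fun _ _ => norm_nonneg _
  have hM : 0 < M := by simp only [M]; linarith
  let e : H Γ := u (ιA (f c')) - lam (ιA t) (u (ιA (f c)))
  obtain ⟨q, -, hq⟩ := hB.cz.avg Γ (fun _ => 0) ⊤ (ιA (f c')) e (ε / N / M) trivial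
    (fun k hk => hc' k (hι (by rw [map_zpow, map_one]; exact hk))) (by positivity)
  let ζ : H Γ := lam (ιA t)⁻¹ (e - (1 - lam (ιA (f c'))) (q e))
  have hζ : lam (ιA t) ζ = e - (1 - lam (ιA (f c'))) (q e) := by
    rw [← mul_ap, ← map_mul, mul_inv_cancel, map_one, one_ap]
  have hD : ∀ x y, D (x * y) = D x + lam (ιA (f x)) * D y := fun x y => by
    have := hβ x y
    simp only [MonoidHom.comp_apply] at this
    simp only [D, this, map_mul]
    noncomm_ring
  have h1 : Cz (ιA.comp f) fun p => u (ιA (f p)) + D p ζ := fun x y => by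
    have := h0 (Coprod.inl x) (Coprod.inl y)
    rw [← map_mul] at this
    change u (ιA (f (x * y))) = u (ιA (f x)) + lam (ιA (f x)) (u (ιA (f y))) at this
    simp only [this, hD, MonoidHom.comp_apply, map_add, add_apply, mul_ap]
    abel
  obtain ⟨zA, hA, a1, -⟩ := hB.cz.hn P A Γ c c' f t ιA _ (q e + lam (ιA t) (ξ ζ)) hn h1 (by
    have d1 : D c' = 0 := sub_eq_zero.2 b2
    have d2 : D c = 1 - (1 - lam (ιA (f c))) * ξ := by simp only [D, b1]
    have d3 : lam (ιA (f c')) (lam (ιA t) (ξ ζ)) = lam (ιA t) (lam (ιA (f c)) (ξ ζ)) := by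
      rw [← mul_ap, ← mul_ap (lam _), ← map_mul, ← map_mul, ← map_mul, ← map_mul, hn.comm,
        inv_mul_cancel_right]
    simp only [d1, d2, map_add, map_sub, d3, hζ, zero_apply,
      sub_apply, mul_ap, one_ap]
    simp only [e]
    abel)
  obtain ⟨z, hz, z1, z2⟩ := hB.cz.cop A B Γ j zA (fun b => u (j (Coprod.inr b))) hA fun x y => by
    have := h0 (Coprod.inr x) (Coprod.inr y)
    rwa [← map_mul] at this
  obtain ⟨u', hu', e1⟩ := hB.cz.toCy _ Γ j z hj hz
  refine ⟨u', hu', fun s hs' => ?_⟩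
  have := hcl Γ j₀ (fun x => u (j₀ x)) (fun x => z (Coprod.map f (MonoidHom.id B) x)) ⊤ (ε / N)
    (by positivity) (fun _ _ => trivial) (fun x _ y _ => h0 x y)
    (fun x _ y _ => by simp only [map_mul]; exact hz _ _) (fun x hx => ?_) (g s)
    (Finset.mem_image_of_mem g hs')
  · rw [← e1, mul_div_cancel₀ _ hN.ne'] at this
    rw [← hgS s hs']
    exact this
  · obtain ⟨p, rfl⟩ | ⟨b, rfl⟩ := hT x hx
    · change ‖z (Coprod.inl (f p)) - u (ιA (f p))‖ ≤ _
      rw [z1, a1, add_sub_cancel_left]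
      have l1 : ‖D p‖ ≤ M := by
        have := Finset.single_le_sum (f := fun x : Coprod P B => ‖D (Coprod.fst x)‖)
          (fun _ _ => norm_nonneg _) hx
        simp only [Coprod.fst_apply_inl] at this
        simp only [M]
        linarith
      calc ‖D p ζ‖ ≤ ‖D p‖ * ‖ζ‖ := (D p).le_opNorm ζ
        _ ≤ M * (ε / N / M) := by
          rw [lam_norm]
          gcongr
        _ = ε / N := mul_div_cancel₀ _ hM.ne'
    · change ‖z (Coprod.inr b) - u (j (Coprod.inr b))‖ ≤ _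
      rw [z2, sub_self, norm_zero]
      positivity

end Pool.Agent.MP_494aff_an.Un

end MrgPart3

-- ======== part 4: formerly Pool.Agent.MP_494aff_an.un.Let
section MrgPart4

/-! Row LET: new letters keep independence. -/

open Monoid Filter Topology
open scoped InnerProductSpace ComplexConjugate

namespace Pool.Agent.MP_494aff_an.Un

open Pool.Agent.MP_494aff_an.Pinch Pool.Agent.MP_494aff_an.Pinch.TowP Pool.Agent.MP_494aff_an.Lf

noncomputable section

namespace LetP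

variable {Γ : Type} [Group Γ]

/-- Pairs of a group element and an affine bijection with that linear part. -/
def aff (Γ : Type) [Group Γ] : Subgroup (Γ × Equiv.Perm (H Γ)) where
  carrier := {p | ∀ v, p.2 v = p.2 0 + lam p.1 v}
  one_mem' := fun v => by simp
  mul_mem' := fun {p q} hp hq v => by
    have h1 := hp (q.2 v)
    have h2 := hp (q.2 0)
    have h3 := hq v
    simp only [Prod.snd_mul, Prod.fst_mul, Equiv.Perm.mul_apply, map_mul,
      mul_apply_eq_comp]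
    rw [h1, h2, h3, map_add, add_assoc]
  inv_mem' := fun {p} hp v => by
    apply p.2.injective
    have h1 := hp (p.2⁻¹ 0 + lam p.1⁻¹ v)
    have h2 := hp (p.2⁻¹ 0)
    have h3 : lam p.1 (lam p.1⁻¹ v) = v := by
      rw [← mul_apply_eq_comp, ← map_mul, mul_inv_cancel, map_one]; rfl
    simp only [Prod.snd_inv, Prod.fst_inv]
    rw [h1, map_add, ← add_assoc, ← h2, h3]
    simp

/-- A cocycle on the integers with a given value at the generator. -/
theorem cyc (y : Γ) (θ : H Γ) :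
    ∃ c : Multiplicative ℤ → H Γ, Cz (zpowersHom Γ y) c ∧ c (Multiplicative.ofAdd 1) = θ := by
  have h3 : ∀ (g : Γ) v, lam g (lam g⁻¹ v) = v := fun g v => by
    rw [← mul_apply_eq_comp, ← map_mul, mul_inv_cancel, map_one]; rfl
  let φ : Equiv.Perm (H Γ) :=
    ⟨fun v => θ + lam y v, fun v => lam y⁻¹ (v - θ), fun v => by
      have := h3 y⁻¹ v
      rw [inv_inv] at this
      simp only [add_sub_cancel_left, this], fun v => by simp only [h3]; abel⟩
  have h1 : (y, φ) ∈ aff Γ := fun v => by simp [φ]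
  refine ⟨fun k => (φ ^ k.toAdd) 0, fun k l => ?_, by simp [φ]⟩
  have h2 := (aff Γ).zpow_mem h1 k.toAdd ((φ ^ l.toAdd) 0)
  simp only [toAdd_mul, zpow_add, Equiv.Perm.mul_apply]
  exact h2

theorem sub_mono {G : Type} [Group G] {C C' : Set ℕ} (h : C ⊆ C') : sub G C ≤ sub G C' :=
  sup_le_sup_left (Subgroup.closure_mono (Set.image_mono h)) _

theorem fr_insert (G : Type) [Group G] (C : Set ℕ) (n : ℕ) :
    fr G (insert n C) = fr G C ⊔ Subgroup.zpowers (lt G n) := by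
  rw [fr, fr, Set.image_insert_eq, Set.insert_eq, Subgroup.closure_union, sup_comm,
    Subgroup.zpowers_eq_closure]

theorem fg_zpowers (y : Γ) : (Subgroup.zpowers y).FG :=
  ⟨{y}, by rw [Finset.coe_singleton, Subgroup.zpowers_eq_closure]⟩

theorem ext (h1 : GamStmt) (h2 : CzStmt) (G : Type) [Group G] (K : Subgroup (Gam G)) (C : Set ℕ)
    (n : ℕ) (c : Gam G → H (Gam G)) (θ : H (Gam G)) (hK : K ≤ sub G C) (hn : n ∉ C)
    (hc : Cy K c) :
    ∃ c', Cy (K ⊔ Subgroup.zpowers (lt G n)) c' ∧ (∀ x ∈ K, c' x = c x) ∧ c' (lt G n) = θ := by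
  have hi := h1.fresh G K K.subtype C n K.subtype_injective (by rwa [K.range_subtype]) hn
  obtain ⟨cB, hB, hθ⟩ := cyc (lt G n) θ
  obtain ⟨z, hz, z1, z2⟩ := h2.cop K (Multiplicative ℤ) (Gam G)
    (Coprod.lift K.subtype (zpowersHom (Gam G) (lt G n))) (fun x => c x) cB
    (fun x y => hc x x.2 y y.2) hB
  obtain ⟨c', hc', e⟩ := h2.toCy _ _ _ z hi hz
  rw [Coprod.range_lift, K.range_subtype, Subgroup.range_zpowersHom] at hc'
  refine ⟨c', hc', fun x hx => ?_, ?_⟩
  · exact (e (Coprod.inl ⟨x, hx⟩)).trans (z1 _)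
  · have := (e (Coprod.inr (Multiplicative.ofAdd 1))).trans (z2 _)
    rw [hθ] at this
    simpa using this

theorem one (h1 : GamStmt) (h2 : CzStmt) (G : Type) [Group G] (L : Subgroup (Gam G)) (C : Set ℕ)
    (n : ℕ) (hL : Ind L) (hC : L ≤ sub G C) (hn : n ∉ C) :
    Ind (L ⊔ Subgroup.zpowers (lt G n)) := by
  classical
  refine ⟨hL.1.sup (fg_zpowers _), fun K hK _ c hc S hS ε hε => ?_⟩
  obtain ⟨K₀, C₁, a1, a2, a3, a4⟩ := h1.cut G K {n}ᶜ hK
  have hT : L ⊔ Subgroup.zpowers (lt G n) = Subgroup.closure ((L : Set (Gam G)) ∪ {lt G n}) := by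
    rw [Subgroup.closure_union, Subgroup.closure_eq, Subgroup.zpowers_eq_closure]
  obtain ⟨T₀, N, b1, b2, b3⟩ := h2.close (Gam G) ((L : Set (Gam G)) ∪ {lt G n}) S
    fun s hs => hT ▸ hS s hs
  obtain ⟨c₁, d1, d2⟩ := hL.2 (K₀ ⊔ L) (a2.sup hL.1) le_sup_right c
    (fun x hx y hy => hc x (Subgroup.mem_sup_left hx) y (Subgroup.mem_sup_left hy))
    (T₀.filter fun x => x ∈ L) (fun s hs => (Finset.mem_filter.1 hs).2) (ε / N) (by positivity)
  obtain ⟨c', e1, e2, e3⟩ := ext h1 h2 G (K₀ ⊔ L) {n}ᶜ n c₁ (c (lt G n))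
    (sup_le a1 (hC.trans (sub_mono fun m hm e => hn (Set.mem_singleton_iff.1 e ▸ hm))))
    (fun h => h rfl) d1
  have f1 : K ≤ K₀ ⊔ L ⊔ Subgroup.zpowers (lt G n) := by
    refine a4.trans (sup_le (le_sup_left.trans le_sup_left) (le_trans ?_ le_sup_right))
    refine (Subgroup.closure_le _).2 ?_
    rintro _ ⟨m, hm, rfl⟩
    have : m = n := by simpa using a3 m hm
    rw [this]
    exact Subgroup.mem_zpowers _
  have f2 : L ⊔ Subgroup.zpowers (lt G n) ≤ K₀ ⊔ L ⊔ Subgroup.zpowers (lt G n) :=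
    sup_le_sup_right le_sup_right _
  refine ⟨c', fun x hx y hy => e1 x (f1 hx) y (f1 hy), fun s hs => ?_⟩
  have := b3 (Gam G) (MonoidHom.id _) c c' (L ⊔ Subgroup.zpowers (lt G n)) (ε / N)
    (by positivity) (hT ▸ Subgroup.subset_closure) hc
    (fun x hx y hy => e1 x (f2 hx) y (f2 hy)) (fun x hx => ?_) s hs
  · rwa [mul_div_cancel₀ _ b2.ne'] at this
  · rcases b1 x hx with h | h
    · rw [e2 x (Subgroup.mem_sup_right h)]
      exact d2 x (Finset.mem_filter.2 ⟨hx, h⟩)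
    · rw [Set.mem_singleton_iff.1 h, e3, sub_self, norm_zero]
      positivity

theorem fg_fz (B : Type) [Group B] (h : Group.FG B) : Group.FG (FZ B) := by
  rw [Group.fg_def, ← Coprod.range_inl_sup_range_inr]
  refine Subgroup.FG.sup ?_ ?_
  · exact (Group.fg_iff_subgroup_fg _).1 (Group.fg_range _)
  · exact (Group.fg_iff_subgroup_fg _).1 (Group.fg_range _)

end LetP

theorem lets (_h0 : CpStmt) (h1 : GamStmt) (h2 : CzStmt) : LetStmt := by
  refine ⟨LetP.ext h1 h2, LetP.one h1 h2, fun G A B _ _ _ j C C₁ hj hB hI hC => ?_⟩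
  induction C₁ using Finset.induction_on with
  | empty =>
    exact fun _ => ⟨B, inferInstance, j, MonoidHom.id B, hj, hB, hI, by simp [fr], fun _ => rfl,
      fun _ => rfl, by simp⟩
  | insert n C₁ hn ih =>
    intro hn'
    obtain ⟨B', _, j', κ, a1, a2, a3, a4, a5, a6, a7⟩ :=
      ih fun m hm => hn' m (Finset.mem_insert_of_mem hm)
    have b1 : j'.range ≤ sub G (C ∪ C₁) := by
      rw [a4]
      exact sup_le (hC.trans (LetP.sub_mono Set.subset_union_left))
        (le_sup_right.trans (LetP.sub_mono Set.subset_union_right))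
    have b2 : n ∉ C ∪ (C₁ : Set ℕ) := fun h =>
      h.elim (hn' n (Finset.mem_insert_self _ _)) fun h => hn h
    have b3 := h1.fresh G _ j' _ n a1 b1 b2
    let e : Coprod A (FZ B') →* FZ (Coprod A B') :=
      (MulEquiv.coprodAssoc A B' (Multiplicative ℤ)).symm.toMonoidHom
    have he : Function.Bijective e := (MulEquiv.coprodAssoc A B' (Multiplicative ℤ)).symm.bijective
    have b4 : MonoidHom.range (G := Coprod A (FZ B'))
        ((Coprod.lift j' (zpowersHom (Gam G) (lt G n)) : FZ (Coprod A B') →* Gam G).comp e) =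
        j'.range ⊔ Subgroup.zpowers (lt G n) := by
      rw [← Subgroup.range_zpowersHom, ← Coprod.range_lift]
      ext x
      constructor
      · rintro ⟨y, rfl⟩
        exact ⟨e y, rfl⟩
      · rintro ⟨y, rfl⟩
        obtain ⟨z, rfl⟩ := he.2 y
        exact ⟨z, rfl⟩
    refine ⟨FZ B', inferInstance,
      (Coprod.lift j' (zpowersHom (Gam G) (lt G n)) : FZ (Coprod A B') →* Gam G).comp e,
      Coprod.inl.comp κ, b3.comp he.1, LetP.fg_fz B' a2, b4 ▸ LetP.one h1 h2 G _ _ n a3 b1 b2, ?_,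
      a5, a6, fun m hm => ?_⟩
    · rw [b4, a4, Finset.coe_insert, LetP.fr_insert, sup_assoc]
    · rcases Finset.mem_insert.1 hm with e' | e'
      · exact ⟨Coprod.inr (Multiplicative.ofAdd 1), by rw [e']; exact zpow_one (lt G n)⟩
      · obtain ⟨b', hb⟩ := a7 m e'
        exact ⟨Coprod.inl b', hb⟩

end

end Pool.Agent.MP_494aff_an.Un

end MrgPart4

-- ======== part 5: formerly Pool.Agent.MP_494aff_an.un.Loc4
section MrgPart5

/-! Localisation of the extended cocycle along geodesics. -/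

open Monoid Filter Topology
open scoped InnerProductSpace ComplexConjugate

namespace Pool.Agent.MP_494aff_an.Un

open Pool.Agent.MP_494aff_an.Pinch Pool.Agent.MP_494aff_an.Pinch.TowP Pool.Agent.MP_494aff_an.Lf

noncomputable section

namespace Loc4P

variable {G : Type} [Group G] {S : Finset G} {ℓ : FZ G → ℕ}

/-- The letters of a shortest word. -/
lemma decomp (hW : WL4 S ℓ) {B : FZ G → H (FZ G)} (hB : Cz (MonoidHom.id (FZ G)) B)
    (h0 : B (gen G) = 0) (n : ℕ) : ∀ x, ℓ x = n → ∃ P : G → Finset (FZ G),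
      (∀ s, ∀ p ∈ P s, ℓ p + ℓ (p⁻¹ * x) = n ∧ ℓ p < n) ∧ (∀ s, (P s).card ≤ n) ∧
      ∀ z, B x z = ∑ s ∈ S, ∑ p ∈ P s, B (Coprod.inl s) (p⁻¹ * z) := by
  classical
  have hc : ∀ x y z, B (x * y) z = B x z + B y (x⁻¹ * z) := fun x y z => by
    rw [hB x y, lp.coeFn_add, Pi.add_apply, MonoidHom.id_apply, lam_coef]
  have h1 : ∀ z, B 1 z = 0 := fun z => by
    have := hc 1 1 z
    rw [mul_one, _root_.inv_one, one_mul] at this
    exact left_eq_add.1 this
  have hg : ∀ z, B (gen G) z = 0 := fun z => by rw [h0]; rfl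
  have hg' : ∀ z, B (gen G)⁻¹ z = 0 := fun z => by
    have := hc (gen G)⁻¹ (gen G) z
    rw [inv_mul_cancel, h1, hg, add_zero] at this
    exact this.symm
  induction n with
  | zero =>
    intro x hx
    exact ⟨fun _ => ∅, by simp, by simp, fun q => by simp [hW.eq_one x hx, h1]⟩
  | succ n ih =>
    intro x hx
    obtain ⟨p₀, s₀, rfl, h1, h2, h3⟩ := hW.geo x n hx
    obtain ⟨P, hP, hc', hs⟩ := ih p₀ h1
    have hP' : ∀ s, ∀ p ∈ P s, ℓ p + ℓ (p⁻¹ * (p₀ * s₀)) = n + 1 ∧ ℓ p < n + 1 := fun s p hp => by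
      obtain ⟨h4, h5⟩ := hP s p hp
      have h6 := hW.sub (p⁻¹ * p₀) s₀
      have h7 := hW.sub p (p⁻¹ * (p₀ * s₀))
      rw [mul_inv_cancel_left] at h7
      rw [mul_assoc] at h6
      omega
    rcases h3 with ⟨g, hg, rfl⟩ | rfl | rfl
    · have hn : ∀ s, p₀ ∉ P s := fun s h => by have := (hP s p₀ h).2; omega
      refine ⟨fun s => if s = g then insert p₀ (P s) else P s, fun s p hp => ?_, fun s => ?_,
        fun q => ?_⟩
      · beta_reduce at hp
        split_ifs at hp with h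
        · rcases Finset.mem_insert.1 hp with rfl | hp
          · rw [inv_mul_cancel_left]; omega
          · exact hP' s p hp
        · exact hP' s p hp
      · have := hc' s
        beta_reduce
        split_ifs with h
        · rw [Finset.card_insert_of_notMem (hn s)]; omega
        · omega
      · have e : ∀ s, ∑ p ∈ (if s = g then insert p₀ (P s) else P s),
            B (Coprod.inl s) (p⁻¹ * q) = ∑ p ∈ P s, B (Coprod.inl s) (p⁻¹ * q) +
              if s = g then B (Coprod.inl s) (p₀⁻¹ * q) else 0 := fun s => by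
          split_ifs with h
          · rw [Finset.sum_insert (hn s), add_comm]
          · rw [add_zero]
        simp only [e]
        rw [Finset.sum_add_distrib, Finset.sum_ite_eq' S g, if_pos hg, hc, hs]
    · exact ⟨P, hP', fun s => (hc' s).trans n.le_succ, fun q => by rw [hc, hg, add_zero, hs]⟩
    · exact ⟨P, hP', fun s => (hc' s).trans n.le_succ, fun q => by rw [hc, hg', add_zero, hs]⟩

/-- The weighted bound for one letter. -/
lemma family (hW : WL4 S ℓ) {T : Op (FZ G)} (hT : T ∈ LL (FZ G)) {a a₀ C : ℝ} (ha₀ : 0 ≤ a₀)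
    (ha : 2 * a₀ ≤ a) (hloc : ∀ ψ, Lp ℓ a ψ → ∀ P Q : Finset (FZ G), (∀ p ∈ P, ψ p = 0) →
      ∑ z ∈ Q, Real.exp (2 * ψ z) * ‖star T (∑ p ∈ P, dl p) z‖ ^ 2 ≤ C ^ 2 * P.card)
    {x : FZ G} {P : Finset (FZ G)} (hP : ∀ p ∈ P, ℓ p + ℓ (p⁻¹ * x) = ℓ x) (Z : Finset (FZ G)) :
    ∑ z ∈ Z, ‖∑ p ∈ P, T (dl 1) (p⁻¹ * z)‖ ^ 2 *
      Real.exp (2 * a₀ * ((ℓ z : ℝ) + ℓ (z⁻¹ * x) - ℓ x)) ≤ C ^ 2 * P.card := by
  set D : FZ G → ℝ := fun v => a₀ * ((ℓ v : ℝ) + ℓ (v * x) - ℓ x) with hD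
  have hE : ∀ v, (0 : ℝ) ≤ (ℓ v : ℝ) + ℓ (v * x) - ℓ x := fun v => by
    have h1 := hW.sub v⁻¹ (v * x)
    rw [inv_mul_cancel_left, hW.symm] at h1
    have : (ℓ x : ℝ) ≤ ℓ v + ℓ (v * x) := by exact_mod_cast h1
    linarith
  have hD0 : ∀ v, 0 ≤ D v := fun v => mul_nonneg ha₀ (hE v)
  have hlip : ∀ g v, |(ℓ (g * v) : ℝ) - ℓ v| ≤ ℓ g := fun g v => by
    have h1 := hW.sub g v
    have h2 := hW.sub g⁻¹ (g * v)
    rw [inv_mul_cancel_left, hW.symm] at h2
    have h3 : (ℓ (g * v) : ℝ) ≤ ℓ g + ℓ v := by exact_mod_cast h1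
    have h4 : (ℓ v : ℝ) ≤ ℓ g + ℓ (g * v) := by exact_mod_cast h2
    rw [abs_le]
    constructor <;> linarith
  set R : ℝ := ∑ z ∈ Z, D z⁻¹ with hR
  have hR0 : 0 ≤ R := Finset.sum_nonneg fun q _ => hD0 _
  have hψ : Lp ℓ a fun v => min R (D v) := by
    refine ⟨⟨R, fun v => ?_⟩, fun g v => ?_⟩
    · rw [abs_of_nonneg (le_min hR0 (hD0 v))]; exact min_le_left _ _
    · have hg : (0 : ℝ) ≤ ℓ g := Nat.cast_nonneg _
      refine (abs_min_sub_min_le_max _ _ _ _).trans (max_le ?_ ?_)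
      · rw [sub_self, abs_zero]; exact mul_nonneg (by linarith) hg
      have h1 := abs_le.1 (hlip g v)
      have h2 := abs_le.1 (hlip g (v * x))
      rw [← mul_assoc] at h2
      simp only [hD]
      rw [← mul_sub, abs_mul, abs_of_nonneg ha₀]
      have h3 : |(ℓ (g * v) : ℝ) + ℓ (g * v * x) - ℓ x - (ℓ v + ℓ (v * x) - ℓ x)| ≤ 2 * ℓ g := by
        rw [abs_le]
        constructor <;> linarith [h1.1, h1.2, h2.1, h2.2]
      nlinarith [mul_le_mul_of_nonneg_left h3 ha₀, mul_le_mul_of_nonneg_right ha hg]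
  have h1 := hloc _ hψ (P.map (Equiv.inv (FZ G)).toEmbedding) (Z.map (Equiv.inv (FZ G)).toEmbedding)
    fun p' hp' => by
      obtain ⟨p, hp, rfl⟩ := Finset.mem_map.1 hp'
      have h2 : (ℓ p : ℝ) + ℓ (p⁻¹ * x) = ℓ x := by exact_mod_cast hP p hp
      change min R (a₀ * ((ℓ p⁻¹ : ℝ) + ℓ (p⁻¹ * x) - ℓ x)) = 0
      rw [hW.symm, h2, sub_self, mul_zero, min_eq_right hR0]
  rw [Finset.card_map, Finset.sum_map, Finset.sum_map] at h1
  refine le_trans (le_of_eq (Finset.sum_congr rfl fun z hz => ?_)) h1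
  change _ = Real.exp (2 * min R (D z⁻¹)) * ‖star T (∑ p ∈ P, dl p⁻¹) z⁻¹‖ ^ 2
  have h2 : D z⁻¹ ≤ R := Finset.single_le_sum (f := fun z => D z⁻¹) (fun q _ => hD0 _) hz
  have h3 : star T (∑ p ∈ P, dl p⁻¹) z⁻¹ = conj (∑ p ∈ P, T (dl 1) (p⁻¹ * z)) := by
    rw [map_sum, lp.coeFn_sum, Finset.sum_apply, map_sum]
    exact Finset.sum_congr rfl fun p _ => by rw [star_coef', LL_coef hT, inv_inv]
  rw [min_eq_right h2, h3, Complex.norm_conj, mul_comm]
  simp only [hD]
  rw [hW.symm, mul_assoc]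

end Loc4P

open Loc4P in
theorem loc4 : Loc4Stmt := by
  intro G _ S ℓ β B hW hA hB hl h0
  choose a C ha hloc using fun s => (hA s).loc
  obtain ⟨a₀, ha₀, hle⟩ : ∃ a₀ : ℝ, 0 < a₀ ∧ ∀ s ∈ S, 2 * a₀ ≤ a s := by
    rcases S.eq_empty_or_nonempty with h | h
    · exact ⟨1, one_pos, by simp [h]⟩
    · obtain ⟨s, -, hs⟩ := S.exists_min_image a h
      exact ⟨a s / 2, half_pos (ha s), fun t ht => by linarith [hs t ht]⟩
  refine ⟨a₀, S.card * ∑ s ∈ S, C s ^ 2, ha₀, by positivity, fun x Z => ?_⟩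
  obtain ⟨P, hP, hc, hs⟩ := decomp hW hB h0 (ℓ x) x rfl
  have h1 : ∀ s ∈ S, ∑ z ∈ Z, ‖∑ p ∈ P s, B (Coprod.inl s) (p⁻¹ * z)‖ ^ 2 *
      Real.exp (2 * a₀ * ((ℓ z : ℝ) + ℓ (z⁻¹ * x) - ℓ x)) ≤ C s ^ 2 * (1 + ℓ x) := fun s hsS => by
    rw [hl]
    refine (family hW (hA s).mem ha₀.le (hle s hsS) (hloc s) (fun p hp => (hP s p hp).1) Z).trans
      (mul_le_mul_of_nonneg_left ?_ (sq_nonneg _))
    have : ((P s).card : ℝ) ≤ ℓ x := by exact_mod_cast hc s
    linarith
  calc ∑ z ∈ Z, ‖B x z‖ ^ 2 * Real.exp (2 * a₀ * ((ℓ z : ℝ) + ℓ (z⁻¹ * x) - ℓ x))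
      ≤ ∑ z ∈ Z, S.card * ∑ s ∈ S, ‖∑ p ∈ P s, B (Coprod.inl s) (p⁻¹ * z)‖ ^ 2 *
          Real.exp (2 * a₀ * ((ℓ z : ℝ) + ℓ (z⁻¹ * x) - ℓ x)) := Finset.sum_le_sum fun q _ => by
        rw [hs, ← Finset.sum_mul, ← mul_assoc]
        exact mul_le_mul_of_nonneg_right ((pow_le_pow_left₀ (norm_nonneg _) (norm_sum_le _ _) 2).trans
          sq_sum_le_card_mul_sum_sq) (Real.exp_pos _).le
    _ ≤ _ := by
        rw [← Finset.mul_sum, Finset.sum_comm, mul_assoc, Finset.sum_mul]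
        exact mul_le_mul_of_nonneg_left (Finset.sum_le_sum h1) (Nat.cast_nonneg _)

end

end Pool.Agent.MP_494aff_an.Un

end MrgPart5

-- ======== part 6: formerly Pool.Agent.MP_494aff_an.fr.Det
section MrgPart6

/-! Finitely many relations determine the homomorphisms to the free group. -/

open Filter

namespace Pool.Agent.MP_494aff_an.Fr

open Pool.Agent.MP_494aff_an.Se

namespace DetP

variable {κ G : Type} [Group G]

/-- Evaluation at the matrices of a family. -/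
noncomputable def ev (ρ : F2 →* Matrix.SpecialLinearGroup (Fin 2) (Polynomial ℤ)) (f : κ → F2) :
    MvPolynomial (κ × Fin 2 × Fin 2) ℤ →+* Polynomial ℤ :=
  (MvPolynomial.aeval fun p : κ × Fin 2 × Fin 2 => (ρ (f p.1)).1 p.2.1 p.2.2).toRingHom

lemma generic (ρ : F2 →* Matrix.SpecialLinearGroup (Fin 2) (Polynomial ℤ)) (w : FreeGroup κ) :
    ∃ M : Matrix (Fin 2) (Fin 2) (MvPolynomial (κ × Fin 2 × Fin 2) ℤ), ∀ f : κ → F2,
      (ev ρ f).mapMatrix M = (ρ (FreeGroup.lift f w)).1 := by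
  induction w using FreeGroup.induction_on with
  | C1 => exact ⟨1, fun f => by simp⟩
  | of x =>
    refine ⟨fun i j => MvPolynomial.X (x, i, j), fun f => ?_⟩
    ext i j : 1
    simp [ev]
  | inv_of x ih =>
    obtain ⟨M, h⟩ := ih
    exact ⟨M.adjugate, fun f => by
      rw [RingHom.map_adjugate, h, map_inv, map_inv, Matrix.SpecialLinearGroup.coe_inv]⟩
  | mul x y ihx ihy =>
    obtain ⟨M, h⟩ := ihx
    obtain ⟨M', h'⟩ := ihy
    exact ⟨M * M', fun f => by
      rw [map_mul, h, h', map_mul, map_mul, Matrix.SpecialLinearGroup.coe_mul]⟩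

lemma faithful (hT : TrStmt) (hF : FwStmt) :
    ∃ ρ : F2 →* Matrix.SpecialLinearGroup (Fin 2) (Polynomial ℤ), ∀ w, (ρ w).1 = 1 → w = 1 := by
  obtain ⟨ρ, h⟩ := hT
  refine ⟨ρ, fun w hw => (hF.zero w).1 ?_⟩
  rw [← (h w).2, hw, Matrix.trace_one]
  exact Polynomial.natDegree_natCast _

/-- Every system of equations is equivalent to a finite subsystem. -/
lemma noeth (hT : TrStmt) (hF : FwStmt) [Finite κ] (N : Set (FreeGroup κ)) :
    ∃ R : Finset (FreeGroup κ), (∀ w ∈ R, w ∈ N) ∧ ∀ f : κ → F2,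
      (∀ w ∈ R, FreeGroup.lift f w = 1) → ∀ w ∈ N, FreeGroup.lift f w = 1 := by
  classical
  obtain ⟨ρ, hρ⟩ := faithful hT hF
  choose M hM using generic (κ := κ) ρ
  obtain ⟨s, hs, he⟩ := (Submodule.fg_span_iff_fg_span_finset_subset
    (R := MvPolynomial (κ × Fin 2 × Fin 2) ℤ) {p | ∃ w ∈ N, ∃ i j, p = (M w - 1) i j}).1
    (IsNoetherian.noetherian _)
  have hs' : ∀ p : s, ∃ w ∈ N, ∃ i j, p.1 = (M w - 1) i j := fun p => hs p.2
  choose v hv using hs'
  have key : ∀ f w i j, ev ρ f ((M w - 1) i j) = ((ρ (FreeGroup.lift f w)).1 - 1) i j := by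
    intro f w i j
    rw [← hM w f, ← map_one (ev ρ f).mapMatrix, ← map_sub]
    rfl
  refine ⟨Finset.univ.image v, fun w hw => ?_, fun f hf w hw => hρ _ ?_⟩
  · obtain ⟨p, -, rfl⟩ := Finset.mem_image.1 hw
    exact (hv p).1
  · have hle : Submodule.span (MvPolynomial (κ × Fin 2 × Fin 2) ℤ) (s : Set _) ≤
        RingHom.ker (ev ρ f) := by
      refine Submodule.span_le.2 fun p hp => ?_
      obtain ⟨-, i, j, e⟩ := hv ⟨p, hp⟩
      show ev ρ f p = 0
      rw [show p = _ from e, key, hf _ (Finset.mem_image_of_mem v (Finset.mem_univ _))]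
      simp
    rw [← sub_eq_zero]
    ext i j : 1
    rw [← key]
    exact hle (he ▸ Submodule.subset_span ⟨w, hw, i, j, rfl⟩)

lemma descend {π : FreeGroup κ →* G} (hπ : Function.Surjective π) {θ : FreeGroup κ →* F2}
    (h : ∀ w, π w = 1 → θ w = 1) : ∃ Ψ : G →* F2, ∀ w, Ψ (π w) = θ w :=
  ⟨π.liftOfRightInverse _ (Function.rightInverse_surjInv hπ) ⟨θ, h⟩, fun w =>
    π.liftOfRightInverse_comp_apply _ _ _ w⟩

/-- Multiplicative on `S`. -/
def Mu (S : Finset G) (ψ : G → F2) : Prop :=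
  ∀ s ∈ S, ∀ s' ∈ S, s * s' ∈ S → ψ (s * s') = ψ s * ψ s'

/-- The table `S` computes the word `w`. -/
def Cm (π : FreeGroup κ →* G) (S : Finset G) (w : FreeGroup κ) : Prop :=
  π w ∈ S ∧ ∀ ψ, Mu S ψ → ψ (π w) = FreeGroup.lift (fun i => ψ (π (FreeGroup.of i))) w

/-- Every entry of the table is computed. -/
def Gd (π : FreeGroup κ →* G) (S : Finset G) : Prop := ∀ s ∈ S, ∃ v, π v = s ∧ Cm π S v

variable {π : FreeGroup κ →* G} {S S' : Finset G}

lemma Mu.mono {ψ : G → F2} (h : Mu S' ψ) (hS : S ⊆ S') : Mu S ψ :=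
  fun s hs s' hs' k => h s (hS hs) s' (hS hs') (hS k)

lemma Mu.one {ψ : G → F2} (h : Mu S ψ) (h1 : 1 ∈ S) : ψ 1 = 1 := by
  have := h 1 h1 1 h1 (by rwa [mul_one])
  rw [mul_one] at this
  exact left_eq_mul.1 this

lemma Cm.mono {w : FreeGroup κ} (h : Cm π S w) (hS : S ⊆ S') : Cm π S' w :=
  ⟨hS h.1, fun ψ hψ => h.2 ψ (hψ.mono hS)⟩

lemma Gd.union [DecidableEq G] (h : Gd π S) (h' : Gd π S') : Gd π (S ∪ S') := fun s hs =>
  (Finset.mem_union.1 hs).elim
    (fun k => (h s k).imp fun _ e => ⟨e.1, e.2.mono Finset.subset_union_left⟩)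
    fun k => (h' s k).imp fun _ e => ⟨e.1, e.2.mono Finset.subset_union_right⟩

lemma Gd.ins [DecidableEq G] (h : Gd π S) {w : FreeGroup κ} (hw : Cm π (insert (π w) S) w) :
    Gd π (insert (π w) S) := fun s hs =>
  (Finset.mem_insert.1 hs).elim (fun k => ⟨w, k.symm, hw⟩)
    fun k => (h s k).imp fun _ e => ⟨e.1, e.2.mono (Finset.subset_insert _ _)⟩

lemma cm_one (h : (1 : G) ∈ S) : Cm π S 1 :=
  ⟨by rwa [map_one], fun ψ hψ => by rw [map_one, map_one, hψ.one h]⟩

lemma table (π : FreeGroup κ →* G) (w : FreeGroup κ) : ∃ S, Cm π S w ∧ Gd π S := by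
  classical
  have e0 : Gd π ∅ := fun _ h => by simp at h
  induction w using FreeGroup.induction_on with
  | C1 =>
    have : Cm π (insert (π 1) ∅) 1 := cm_one (by simp)
    exact ⟨_, this, e0.ins this⟩
  | of x =>
    have : Cm π (insert (π (FreeGroup.of x)) ∅) (FreeGroup.of x) :=
      ⟨by simp, fun ψ _ => by rw [FreeGroup.lift_apply_of]⟩
    exact ⟨_, this, e0.ins this⟩
  | inv_of x ih =>
    obtain ⟨S, h1, h2⟩ := ih
    have k1 : Cm π (insert (π 1) S) 1 := cm_one (by simp)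
    have k2 : Cm π (insert (π (FreeGroup.of x)⁻¹) (insert (π 1) S)) (FreeGroup.of x)⁻¹ := by
      refine ⟨Finset.mem_insert_self _ _, fun ψ hψ => ?_⟩
      have := hψ (π (FreeGroup.of x)) (by simp [h1.1]) (π (FreeGroup.of x)⁻¹)
        (Finset.mem_insert_self _ _) (by simp)
      rw [← map_mul, mul_inv_cancel, map_one, hψ.one (by simp)] at this
      rw [map_inv (FreeGroup.lift _ : FreeGroup κ →* F2), FreeGroup.lift_apply_of]
      exact eq_inv_of_mul_eq_one_right this.symm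
    exact ⟨_, k2, (h2.ins k1).ins k2⟩
  | mul x y ihx ihy =>
    obtain ⟨S, h1, h2⟩ := ihx
    obtain ⟨S', h1', h2'⟩ := ihy
    have a1 : S ⊆ insert (π (x * y)) (S ∪ S') :=
      Finset.subset_union_left.trans (Finset.subset_insert _ _)
    have a2 : S' ⊆ insert (π (x * y)) (S ∪ S') :=
      Finset.subset_union_right.trans (Finset.subset_insert _ _)
    have k : Cm π (insert (π (x * y)) (S ∪ S')) (x * y) := by
      refine ⟨Finset.mem_insert_self _ _, fun ψ hψ => ?_⟩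
      rw [map_mul (FreeGroup.lift _), ← h1.2 ψ (hψ.mono a1), ← h1'.2 ψ (hψ.mono a2), map_mul π]
      exact hψ _ (a1 h1.1) _ (a2 h1'.1) (by rw [← map_mul]; exact Finset.mem_insert_self _ _)
    exact ⟨_, k, (h2.union h2').ins k⟩

lemma tables (π : FreeGroup κ →* G) (R : Finset (FreeGroup κ)) :
    ∃ S, (∀ w ∈ R, Cm π S w) ∧ Gd π S := by
  classical
  induction R using Finset.induction_on with
  | empty => exact ⟨∅, by simp, fun _ h => by simp at h⟩
  | insert a R _ ih =>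
    obtain ⟨S, h1, h2⟩ := ih
    obtain ⟨S', h1', h2'⟩ := table π a
    refine ⟨S ∪ S', fun w hw => ?_, h2.union h2'⟩
    rcases Finset.mem_insert.1 hw with rfl | hw
    · exact h1'.mono Finset.subset_union_right
    · exact (h1 w hw).mono Finset.subset_union_left

lemma word_ev {U : Ultrafilter ℕ} {φ : G → ℕ → F2} (h : Rep U φ) (π : FreeGroup κ →* G)
    (w : FreeGroup κ) :
    ∀ᶠ j in U, FreeGroup.lift (fun i => φ (π (FreeGroup.of i)) j) w = φ (π w) j := by
  have h1 : ∀ᶠ j in U, φ 1 j = 1 := by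
    filter_upwards [h.mul 1 1] with j hj
    rw [mul_one] at hj
    exact left_eq_mul.1 hj
  induction w using FreeGroup.induction_on with
  | C1 =>
    filter_upwards [h1] with j hj
    rw [map_one, map_one, hj]
  | of x => exact Eventually.of_forall fun j => FreeGroup.lift_apply_of
  | inv_of x ih =>
    filter_upwards [h1, ih, h.mul (π (FreeGroup.of x)) (π (FreeGroup.of x)⁻¹)] with j k1 k2 k3
    rw [← map_mul, mul_inv_cancel, map_one, k1] at k3
    rw [map_inv (FreeGroup.lift _ : FreeGroup κ →* F2), k2]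
    exact (eq_inv_of_mul_eq_one_right k3.symm).symm
  | mul x y ihx ihy =>
    filter_upwards [ihx, ihy, h.mul (π x) (π y)] with j k1 k2 k3
    rw [map_mul, k1, k2, map_mul, k3]

end DetP

open DetP in
theorem det (hT : Se.TrStmt) (hF : Se.FwStmt) : DetStmt := by
  classical
  intro G _ U φ hG h
  obtain ⟨X, hX⟩ := hG.out
  let π : FreeGroup X →* G := FreeGroup.lift Subtype.val
  have hπ : Function.Surjective π := by
    rw [← MonoidHom.range_eq_top, FreeGroup.range_lift_eq_closure, Subtype.range_coe_subtype]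
    exact hX
  obtain ⟨R, hR, hN⟩ := noeth hT hF {w | π w = 1}
  refine ⟨?_, fun Q hQ => ?_⟩
  · obtain ⟨S, h1, h2⟩ := tables π (R ∪ Finset.univ.image FreeGroup.of)
    refine ⟨S, top_le_iff.1 (hX.ge.trans (Subgroup.closure_mono fun x hx => ?_)), fun ψ hψ => ?_⟩
    · have := (h1 (FreeGroup.of ⟨x, hx⟩) (by simp)).1
      rwa [FreeGroup.lift_apply_of] at this
    · obtain ⟨Ψ, hΨ⟩ := descend hπ (hN (fun i => ψ (π (FreeGroup.of i))) fun w hw => by
        have k := h1 w (Finset.mem_union_left _ hw)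
        rw [← k.2 ψ hψ, hR w hw]
        exact Mu.one hψ (hR w hw ▸ k.1))
      refine ⟨Ψ, fun s hs => ?_⟩
      obtain ⟨v, rfl, hv⟩ := h2 s hs
      rw [hΨ, hv.2 ψ hψ]
  · choose v hv using hπ
    have e1 := (eventually_all_finset R).2 fun w _ => word_ev h π w
    have e2 := (eventually_all_finset Q).2 fun q hq => (word_ev h π (v q)).and (h.ne q (hQ q hq))
    obtain ⟨j, k0, k1, k2⟩ := ((word_ev h π 1).and (e1.and e2)).exists
    obtain ⟨Ψ, hΨ⟩ := descend (fun g => ⟨v g, hv g⟩)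
      (hN (fun i => φ (π (FreeGroup.of i)) j) fun w hw => by
        rw [k1 w hw, hR w hw, ← map_one π, ← k0, map_one])
    refine ⟨Ψ, fun q hq => ?_⟩
    rw [← hv q, hΨ, (k2 q hq).1, hv q]
    exact (k2 q hq).2

end Pool.Agent.MP_494aff_an.Fr

end MrgPart6

-- ======== part 7: formerly Pool.Agent.MP_494aff_an.fr.Drop
section MrgPart7

/-! PROJECT FR, row DROP: rotation of blocks and removal of trivial blocks. -/

namespace Pool.Agent.MP_494aff_an.Fr

open Pool.Agent.MP_494aff_an.Se Function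

namespace DropP

variable {G Ω I : Type} [Group G] [MulAction G Ω] {Φ Φ' : Frm G Ω I} {b : I}
  {R : List (Bl G I)} {X : Set I} {C C' : (I → I → G → F2) → (I → F2) → Prop}

lemma okc_mono (h : Φ.Okc C) (H : ∀ ψ u, Φ.Sol ψ u → C' ψ u → C ψ u) : Φ.Okc C' :=
  ⟨h.val, h.gen, fun ψ u hs hc => h.ext ψ u hs (H ψ u hs hc)⟩

omit [Group G] in
lemma vals {ψ : I → I → G → F2} {u u' : I → F2} (h : ∀ l ∈ R.flatMap Bl.lets, u l = u' l) :
    R.map (Bl.val ψ u) = R.map (Bl.val ψ u') :=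
  List.map_congr_left fun B hB => Bl.val_congr (fun _ _ _ _ _ _ => rfl) fun l hl =>
    h l (List.mem_flatMap.2 ⟨B, hB, hl⟩)

lemma head_not {B : Bl G I} (h : Φ.Blk b (B :: R) X C) {l : I} (hl : l ∈ B.lets) :
    l ∉ X ∧ l ∉ R.flatMap Bl.lets := by
  have h1 := h.nodup
  rw [List.flatMap_cons] at h1
  exact ⟨h.disj l (by simp [hl]), fun h2 => List.disjoint_of_nodup_append h1 hl h2⟩

lemma blk_of {B : Bl G I} (h : Φ.Blk b (B :: R) X C)
    (hk : ∀ Y : Set I, (∀ l ∈ B.lets, l ∉ Y) → Φ.Keep Φ' b Y)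
    (ho : Φ'.Okc fun ψ u => (R.map (Bl.val ψ u)).prod = 1 ∧ C ψ u) (hb : Φ'.kd b = Kd.E)
    (ht : Φ'.Triv b) (hl : B.lab = 1) : Φ'.Blk b R X C ∧ Φ.Keep Φ' b X := by
  have h1 := hk X fun l hl => (head_not h hl).1
  have h2 := hk {l | l ∈ R.flatMap Bl.lets} fun l hl => (head_not h hl).2
  have h3 := h.nodup
  rw [List.flatMap_cons] at h3
  exact ⟨⟨ho, h1.dep h.dep, h1.vs h.mem, hb, ht, fun B' hB => h2.bt h.ok.val.grp h.triv
    (h.bt B' (List.mem_cons_of_mem _ hB)) fun l hl => List.mem_flatMap.2 ⟨B', hB, hl⟩,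
    h3.of_append_right, fun l hl => h.disj l
      (by simp only [List.flatMap_cons, List.mem_append, hl, or_true]),
    by simpa [hl] using h.lab⟩, h1⟩

lemma rot {R' : List (Bl G I)} (h : Φ.Blk b (R ++ R') X C) : Φ.Blk b (R' ++ R) X C := by
  have hp : ((R ++ R').flatMap Bl.lets).Perm ((R' ++ R).flatMap Bl.lets) :=
    List.perm_append_comm.flatMap_right _
  refine ⟨okc_mono h.ok fun ψ u _ hc => ⟨?_, hc.2⟩, h.dep, h.mem, h.kd, h.triv,
    fun B hB => h.bt B (List.perm_append_comm.subset hB), hp.nodup_iff.1 h.nodup,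
    fun l hl => h.disj l (hp.symm.subset hl), ?_⟩
  · have := hc.1
    rw [List.map_append, List.prod_append] at this ⊢
    exact mul_eq_one_comm.1 this
  · have := h.lab
    rw [List.map_append, List.prod_append] at this ⊢
    exact mul_eq_one_comm.1 this

lemma bd1 {k : Bool} {x v : I} {g : G} (h : Φ.Blk b (.bd k x v g 1 :: R) X C) :
    Φ.Blk b R X C :=
  (blk_of h (fun Y _ => Frm.Keep.refl Φ b Y) (okc_mono h.ok fun ψ u hs hc => ⟨by
    simp [Bl.val, hs.one (h.bt _ List.mem_cons_self).2.1, hc.1], hc.2⟩) h.kd h.triv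
    (by simp [Bl.lab])).1

variable [DecidableEq I]

lemma cr1 {m : I} (h : Φ.Blk b (.cr m 1 :: R) X C) : Mov Φ b R X C := by
  obtain ⟨_, m2, m3, m4, m5⟩ : Φ.Fre m b b 1 := h.bt _ List.mem_cons_self
  have hV := h.ok.val
  have hG := hV.grp
  obtain ⟨n1, n2⟩ := head_not h (l := m) (by simp [Bl.lets])
  refine ⟨{ Φ with Ls := Φ.Ls.erase m }, blk_of h (fun Y hY => ⟨fun _ h => h, fun _ _ _ h => h,
    fun _ _ _ => rfl, fun _ _ _ _ _ _ h => h, fun _ _ _ h => h, fun l hl p q g e =>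
      ⟨Finset.mem_erase.2 ⟨fun e' => hY m (by simp [Bl.lets]) (e' ▸ hl), e.1⟩, e.2⟩⟩)
    ⟨⟨⟨hG.refl, hG.symm, hG.trans, hG.mem, hG.ne, fun l hl => hG.st l (Finset.mem_of_mem_erase hl),
      fun e he => Finset.mem_erase.2 ⟨fun e' => m2 (e' ▸ he), hG.en he⟩, hG.ce⟩, hV.kE, hV.iso,
      hV.ab, hV.kend, fun p hp hk => ?_⟩, fun Z h1 h2 => h.ok.gen Z h1 fun l hl g => ?_,
      fun ψ u hs hc => ?_⟩ h.kd h.triv (by simp [Bl.lab])⟩
  · obtain ⟨S, c₀, c₁, sl, P⟩ := hV.pan p hp hk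
    exact ⟨S, c₀, c₁, sl, P.m0, P.m1, P.nc, P.two, P.ab, P.grp, P.inj, P.mem, P.le, P.inn⟩
  · by_cases e : l = m
    · rw [e, m3, m4, m5, one_mul]
    · exact h2 l (Finset.mem_erase.2 ⟨e, hl⟩) g
  · obtain ⟨Ψ, y, h1, h2⟩ := h.ok.ext ψ (update u m 1) ⟨hs.fn, fun e he a ha => by
      rw [update_of_ne fun e' : e = m => m2 (e' ▸ he)]; exact hs.sq e he a ha⟩ ⟨by
      rw [List.map_cons, List.prod_cons, vals (u' := u) fun l hl =>
        update_of_ne (fun e' : l = m => n2 (e' ▸ hl)) _ _, hc.1]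
      simp [Bl.val], h.dep.2 ψ u _ _ (fun _ _ _ _ => rfl) (fun l hl =>
        (update_of_ne (fun e' : l = m => n1 (e' ▸ hl)) _ _).symm) hc.2⟩
    refine ⟨Ψ, y, h1, fun l hl => ?_⟩
    rw [← h2 l (Finset.mem_of_mem_erase hl), update_of_ne (Finset.ne_of_mem_erase hl)]

/-- A new abelian vertex `v` with group `H` at the end of the letter `a`; `a'` is erased. -/
def nw (Φ : Frm G Ω I) (v a a' : I) (H : Subgroup G) : Frm G Ω I :=
  { Φ with
    Vs := insert v Φ.Vs
    Ls := Φ.Ls.erase a'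
    t := update Φ.t a v
    γ := update Φ.γ a 1
    E := fun p q k => Φ.E p q k ∨ (p = v ∧ q = v ∧ k ∈ H)
    kd := update Φ.kd v Kd.A }

lemma nw_val {v a a' : I} {H : Subgroup G} (hV : Φ.Val) (hv : v ∉ Φ.Vs) (ha : a ∉ Φ.En)
    (ha' : a' ∉ Φ.En) (hH : ∀ x ∈ H, ∀ y ∈ H, x * y = y * x) : (nw Φ v a a' H).Val := by
  have hG := hV.grp
  have n0 : ∀ p ∈ Φ.Vs, p ≠ v := fun p hp e => hv (e ▸ hp)
  have n1 : ∀ p q k, Φ.E p q k → p ≠ v ∧ q ≠ v := fun p q k e =>
    ⟨n0 p (hG.mem _ _ _ e).1, n0 q (hG.mem _ _ _ e).2⟩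
  have hE : ∀ p, p ≠ v → ∀ q k, (nw Φ v a a' H).E p q k ↔ Φ.E p q k := fun p hp q k =>
    or_iff_left fun e => hp e.1
  have hk : ∀ p, p ≠ v → (nw Φ v a a' H).kd p = Φ.kd p := fun p hp => update_of_ne hp _ _
  have hkv : (nw Φ v a a' H).kd v = Kd.A := update_self _ _ _
  have ht : ∀ e ∈ Φ.En, (nw Φ v a a' H).t e = Φ.t e := fun e he =>
    update_of_ne (fun e' : e = a => ha (e' ▸ he)) _ _
  have hg : ∀ e ∈ Φ.En, (nw Φ v a a' H).γ e = Φ.γ e := fun e he =>
    update_of_ne (fun e' : e = a => ha (e' ▸ he)) _ _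
  have hs : ∀ e ∈ Φ.En, Φ.s e ≠ v ∧ Φ.t e ≠ v := fun e he =>
    ⟨n0 _ (hG.st e (hG.en he)).1, n0 _ (hG.st e (hG.en he)).2⟩
  refine ⟨⟨fun p hp => ?_, ?_, ?_, ?_, ⟨v, Finset.mem_insert_self _ _⟩, fun l hl => ?_,
    fun e he => Finset.mem_erase.2 ⟨fun e' => ha' (e' ▸ he), hG.en he⟩, fun e he => ?_⟩,
    ?_, ?_, fun p g h e e1 e2 => ?_, fun e he => ?_, fun p hp e => ?_⟩
  · rcases Finset.mem_insert.1 hp with rfl | hp
    exacts [Or.inr ⟨rfl, rfl, H.one_mem⟩, Or.inl (hG.refl p hp)]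
  · rintro p q g (e | ⟨e1, e2, e3⟩)
    exacts [Or.inl (hG.symm _ _ _ e), Or.inr ⟨e2, e1, H.inv_mem e3⟩]
  · rintro p q r g h (e | ⟨e1, e2, e3⟩) (f | ⟨f1, f2, f3⟩)
    exacts [Or.inl (hG.trans _ _ _ _ _ e f), absurd f1 (n1 _ _ _ e).2, absurd e2 (n1 _ _ _ f).1,
      Or.inr ⟨e1, f2, H.mul_mem e3 f3⟩]
  · rintro p q g (e | ⟨rfl, rfl, _⟩)
    exacts [⟨Finset.mem_insert_of_mem (hG.mem _ _ _ e).1,
      Finset.mem_insert_of_mem (hG.mem _ _ _ e).2⟩,
      ⟨Finset.mem_insert_self _ _, Finset.mem_insert_self _ _⟩]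
  · have := hG.st l (Finset.mem_of_mem_erase hl)
    refine ⟨Finset.mem_insert_of_mem this.1, ?_⟩
    by_cases e : l = a
    · simp [nw, e]
    · simp [nw, e, this.2]
  · obtain ⟨c1, c2, c3, c4⟩ := hG.ce e he
    refine ⟨c1, Or.inl c2, ?_, c4⟩
    rw [ht e he, hg e he]
    exact Or.inl c3
  · rintro p q g (e | ⟨rfl, rfl, _⟩) e'
    · rw [hk p (n1 _ _ _ e).1] at e'
      rw [hk q (n1 _ _ _ e).2]
      exact hV.kE p q g e e'
    · exact Kd.noConfusion (hkv.symm.trans e')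
  · rintro p q g (e | ⟨rfl, rfl, _⟩) e'
    · exact hV.iso p q g e (hk p (n1 _ _ _ e).1 ▸ e')
    · rfl
  · by_cases hp : p = v
    · exact hH g (e1.resolve_left fun f => (n1 _ _ _ f).1 hp).2.2 h
        (e2.resolve_left fun f => (n1 _ _ _ f).1 hp).2.2
    · exact hV.ab p g h (hk p hp ▸ e) ((hE p hp _ _).1 e1) ((hE p hp _ _).1 e2)
  · rw [ht e he, hk _ (hs e he).2]
    exact ⟨(hk _ (hs e he).1).trans (hV.kend e he).1, (hV.kend e he).2⟩
  · have hp' : p ≠ v := fun f => Kd.noConfusion (hkv.symm.trans (f ▸ e))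
    obtain ⟨S, c₀, c₁, sl, P⟩ := hV.pan p ((Finset.mem_insert.1 hp).resolve_left hp')
      (hk p hp' ▸ e)
    refine ⟨S, c₀, c₁, sl, P.m0, P.m1, P.nc, P.two, P.ab, fun g => (hE p hp' _ _).trans (P.grp g),
      P.inj, P.mem, fun f hf f1 x hx => ?_, fun f hf f1 f2 => ?_⟩
    · rw [ht f hf, hg f hf]
      exact Or.inl (P.le f hf f1 x hx)
    · rw [ht f hf, hg f hf, hk _ (hs f hf).2]
      exact ⟨(P.inn f hf f1 f2).1, fun z hz => (P.inn f hf f1 f2).2 z ((hE _ (hs f hf).2 _ _).1 hz)⟩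

lemma hd1 [Infinite I] {a a' : I} {g k : G} (hc : g * k = k * g)
    (h : Φ.Blk b (.hd a a' g k :: R) X C) : Mov Φ b R X C := by
  obtain ⟨⟨a1, a2, a3, a4, a5⟩, b1, b2, b3, b4, b5⟩ : Φ.Fre a b b g ∧ Φ.Fre a' b b k :=
    h.bt _ List.mem_cons_self
  have hG := h.ok.val.grp
  obtain ⟨v, hv⟩ := Infinite.exists_notMem_finset Φ.Vs
  have n0 : ∀ p ∈ Φ.Vs, p ≠ v := fun p hp e => hv (e ▸ hp)
  have aa : a ≠ a' := by
    have := h.nodup
    simp only [List.flatMap_cons, Bl.lets, List.cons_append, List.nodup_cons, List.mem_cons,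
      not_or] at this
    exact this.1.1
  obtain ⟨n1, n2⟩ := head_not h (l := a) (by simp [Bl.lets])
  obtain ⟨n3, n4⟩ := head_not h (l := a') (by simp [Bl.lets])
  have g1 : g ∈ Subgroup.closure {g, k} := Subgroup.subset_closure (by simp)
  have k1 : k ∈ Subgroup.closure {g, k} := Subgroup.subset_closure (by simp)
  have hH : ∀ x ∈ Subgroup.closure {g, k}, ∀ y ∈ Subgroup.closure {g, k}, x * y = y * x := by
    intro x hx y hy
    have := Subgroup.isMulCommutative_closure (k := {g, k}) (by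
      rintro x (rfl | rfl) y (rfl | rfl) <;> simp [hc])
    exact congrArg Subtype.val (this.is_comm.comm ⟨x, hx⟩ ⟨y, hy⟩)
  have hV := nw_val h.ok.val hv a2 b2 hH
  have ht : ∀ l, l ≠ a → (nw Φ v a a' (Subgroup.closure {g, k})).t l = Φ.t l ∧
      (nw Φ v a a' (Subgroup.closure {g, k})).γ l = Φ.γ l := fun l hl =>
    ⟨update_of_ne hl _ _, update_of_ne hl _ _⟩
  have hta : (nw Φ v a a' (Subgroup.closure {g, k})).t a = v := update_self _ _ _
  have hga : (nw Φ v a a' (Subgroup.closure {g, k})).γ a = 1 := update_self _ _ _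
  have hsa : (nw Φ v a a' (Subgroup.closure {g, k})).s a = b := a4
  refine ⟨nw Φ v a a' (Subgroup.closure {g, k}), blk_of h (fun Y hY =>
    ⟨Finset.subset_insert _ _, fun _ _ _ e => Or.inl e, fun p hp _ => update_of_ne (n0 p hp) _ _,
      fun p hp _ _ q x e => e.resolve_right fun f => n0 p hp f.1,
      fun p hp _ e q x f => e q x (f.resolve_right fun f => n0 p hp f.1), fun l hl p q x e => ?_⟩)
    ⟨hV, fun Z h1 h2 => ?_, fun ψ u hs hC => ?_⟩ ((update_of_ne (n0 b h.mem) _ _).trans h.kd)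
    (fun q x f => h.triv q x (f.resolve_right fun f => n0 b h.mem f.1))
    (by simp [Bl.lab, hc])⟩
  · have e1 : l ≠ a := fun e' => hY a (by simp [Bl.lets]) (e' ▸ hl)
    exact ⟨Finset.mem_erase.2 ⟨fun e' => hY a' (by simp [Bl.lets]) (e' ▸ hl), e.1⟩, e.2.1,
      (ht l e1).1.trans e.2.2.1, e.2.2.2.1, (ht l e1).2.trans e.2.2.2.2⟩
  · have z1 : ∀ x, Z b x ↔ Z v x := fun x => by
      simpa only [hta, hga, hsa, one_mul] using h2 a (Finset.mem_erase.2 ⟨aa, a1⟩) x
    have z2 : ∀ y ∈ Subgroup.closure {g, k}, ∀ x, Z b x ↔ Z b (y * x) := fun y hy x => by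
      rw [z1, z1]
      exact ⟨h1 v v y x (Or.inr ⟨rfl, rfl, hy⟩), fun e => by
        simpa using h1 v v y⁻¹ _ (Or.inr ⟨rfl, rfl, Subgroup.inv_mem _ hy⟩) e⟩
    have z3 := h.ok.gen Z (fun p q x y e => h1 p q x y (Or.inl e)) fun l hl x => by
      by_cases e : l = a
      · rw [e, a3, a4, a5]; exact z2 g g1 x
      by_cases e' : l = a'
      · rw [e', b3, b4, b5]; exact z2 k k1 x
      rw [← (ht l e).1, ← (ht l e).2]
      exact h2 l (Finset.mem_erase.2 ⟨e', hl⟩) x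
    have z4 : ∀ p ∈ insert v Φ.Vs, ∃ p' ∈ Φ.Vs, ∀ x, Z p' x ↔ Z p x := fun p hp => by
      rcases Finset.mem_insert.1 hp with rfl | hp
      exacts [⟨b, h.mem, z1⟩, ⟨p, hp, fun _ => Iff.rfl⟩]
    intro p hp q hq x x' e
    obtain ⟨p', hp', e1⟩ := z4 p hp
    obtain ⟨q', hq', e2⟩ := z4 q hq
    exact (e2 x').1 (z3 p' hp' q' hq' x x' ((e1 x).2 e))
  · set u' := update (update u a ((u a)⁻¹ * ψ v v g * u a)) a' ((u a)⁻¹ * ψ v v k * u a) with hu
    have u1 : ∀ l, l ≠ a → l ≠ a' → u' l = u l := fun l e e' => by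
      rw [hu, update_of_ne e', update_of_ne e]
    have u2 : u' a = (u a)⁻¹ * ψ v v g * u a := by rw [hu, update_of_ne aa, update_self]
    have u3 : u' a' = (u a)⁻¹ * ψ v v k * u a := by rw [hu, update_self]
    have u4 : ψ v v g * ψ v v k = ψ v v k * ψ v v g := by
      rw [← hs.fn v v v g k (Or.inr ⟨rfl, rfl, g1⟩) (Or.inr ⟨rfl, rfl, k1⟩), hc,
        hs.fn v v v k g (Or.inr ⟨rfl, rfl, k1⟩) (Or.inr ⟨rfl, rfl, g1⟩)]
    obtain ⟨Ψ, y, h1, h2⟩ := h.ok.ext ψ u'
      ⟨fun p q r x y e f => hs.fn p q r x y (Or.inl e) (Or.inl f), fun e he x hx => by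
        have e1 : e ≠ a := fun f => a2 (f ▸ he)
        have := hs.sq e he x ⟨Or.inl hx.1, by
          rw [(ht e e1).1, (ht e e1).2]; exact Or.inl hx.2.1, hx.2.2⟩
        rw [(ht e e1).1, (ht e e1).2] at this
        rw [u1 e e1 fun f => b2 (f ▸ he)]
        exact this⟩
      ⟨by
        rw [List.map_cons, List.prod_cons, vals (u' := u) fun l hl =>
          u1 l (fun f => n2 (f ▸ hl)) fun f => n4 (f ▸ hl), hC.1, Bl.val, u2, u3]
        calc _ = (u a)⁻¹ * (ψ v v g * ψ v v k * (ψ v v k * ψ v v g)⁻¹) * u a := by group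
          _ = 1 := by rw [u4]; group,
      h.dep.2 ψ u _ _ (fun _ _ _ _ => rfl) (fun l hl =>
        (u1 l (fun f => n1 (f ▸ hl)) fun f => n3 (f ▸ hl)).symm) hC.2⟩
    have y1 : ∀ p ∈ Φ.Vs, update y v (u a * y b) p = y p := fun p hp => update_of_ne (n0 p hp) _ _
    refine ⟨Ψ, update y v (u a * y b), ?_, fun l hl => ?_⟩
    · rintro p q x (e | ⟨rfl, rfl, e⟩)
      · rw [y1 p (hG.mem _ _ _ e).1, y1 q (hG.mem _ _ _ e).2]
        exact h1 p q x e
      · refine (hs.closure hV.grp (Finset.mem_insert_self _ _) (fun x hx =>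
          Or.inr ⟨rfl, rfl, Subgroup.subset_closure hx⟩) ?_ e).2
        have e1 := h2 a a1
        have e2 := h2 a' b1
        rw [a3, a4, a5, u2] at e1
        rw [b3, b4, b5, u3] at e2
        rw [update_self]
        rintro x (rfl | rfl)
        · calc _ = u a * ((u a)⁻¹ * ψ q q x * u a) * (u a)⁻¹ := by group
            _ = _ := by rw [e1]; group
        · calc _ = u a * ((u a)⁻¹ * ψ q q x * u a) * (u a)⁻¹ := by group
            _ = _ := by rw [e2]; group
    · by_cases e : l = a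
      · rw [e, hta, hga, hsa, update_self, y1 b h.mem]
        simp
      · have hl' := Finset.mem_of_mem_erase hl
        rw [(ht l e).1, (ht l e).2, y1 _ (hG.st l hl').2, ← u1 l e (Finset.ne_of_mem_erase hl),
          h2 l hl']
        exact congrArg (fun z => _ * z⁻¹) (y1 _ (hG.st l hl').1).symm

end DropP

theorem drop : DropStmt := fun _ _ _ _ _ _ _ _ _ _ _ _ =>
  ⟨fun _ => DropP.rot, fun _ _ _ _ => DropP.bd1, fun _ => DropP.cr1,
    fun _ _ _ _ hc => DropP.hd1 hc⟩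

end Pool.Agent.MP_494aff_an.Fr

end MrgPart7

-- ======== part 8: formerly Pool.Agent.MP_494aff_an.fr.Pan
section MrgPart8

/-! The free product of two abelian subgroups. -/

open Monoid

namespace Pool.Agent.MP_494aff_an.Fr

open Pool.Agent.MP_494aff_an.Pinch Pool.Agent.MP_494aff_an.Pinch.TowP Pool.Agent.MP_494aff_an.Lf
open Pool.Agent.MP_494aff_an.Se

namespace PanP

variable {G : Type} [Group G]

/-- Alternating products of length `n` that start on the side `i`. -/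
inductive V (T : Bool → Subgroup G) : Bool → ℕ → G → Prop
  | nil (i : Bool) : V T i 0 1
  | cons (i : Bool) (n : ℕ) (a g : G) : a ∈ T i → a ≠ 1 → V T (!i) n g → V T i (n + 1) (a * g)

/-- Abelian factors, normal forms. -/
structure Ok (T : Bool → Subgroup G) : Prop where
  nf : ∀ i n g, V T i (n + 1) g → g ≠ 1
  ab : ∀ i, ∀ x ∈ T i, ∀ y ∈ T i, x * y = y * x

variable {T : Bool → Subgroup G} {i j k : Bool} {n m : ℕ} {a b c g g' w x y : G}

lemma V.zero (h : V T i 0 g) : g = 1 := by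
  cases h
  rfl

lemma V.succ (h : V T i (n + 1) g) : ∃ a y, a ∈ T i ∧ a ≠ 1 ∧ V T (!i) n y ∧ g = a * y := by
  cases h with
  | cons _ _ a y h1 h2 h3 => exact ⟨a, y, h1, h2, h3, rfl⟩

lemma V.cons' (ha : a ∈ T (!i)) (h1 : a ≠ 1) (h : V T i n g) : V T (!i) (n + 1) (a * g) :=
  .cons _ _ _ _ ha h1 (by rwa [Bool.not_not])

lemma V.one (ha : a ∈ T i) : ∃ n, V T i n a := by
  by_cases h : a = 1
  · exact ⟨0, h ▸ .nil i⟩
  · exact ⟨1, by simpa using V.cons i 0 a 1 ha h (.nil _)⟩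

lemma V.rmul (h : V T j (n + 1) g) (hc : c ∈ T k) : ∃ m, V T j m (g * c) := by
  induction n generalizing j g with
  | zero =>
    obtain ⟨a, y, h1, h2, h3, rfl⟩ := h.succ
    rw [h3.zero, mul_one]
    by_cases e : k = j
    · exact V.one (mul_mem h1 (e ▸ hc))
    · obtain ⟨m, hm⟩ := V.one (show c ∈ T (!j) from Bool.eq_not.2 e ▸ hc)
      exact ⟨_, .cons _ _ _ _ h1 h2 hm⟩
  | succ n ih =>
    obtain ⟨a, y, h1, h2, h3, rfl⟩ := h.succ
    obtain ⟨m, hm⟩ := ih h3
    rw [mul_assoc]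
    exact ⟨_, .cons _ _ _ _ h1 h2 hm⟩

lemma V.lmul (h : V T j n g) (hc : c ∈ T k) : ∃ j m, V T j m (c * g) := by
  by_cases h1 : c = 1
  · exact ⟨j, n, by rwa [h1, one_mul]⟩
  by_cases e : j = k
  · subst e
    rcases n with _ | n
    · rw [h.zero, mul_one]
      exact ⟨j, V.one hc⟩
    · obtain ⟨a, y, h2, -, h3, rfl⟩ := h.succ
      rw [← mul_assoc]
      by_cases h4 : c * a = 1
      · exact ⟨_, n, by rwa [h4, one_mul]⟩
      · exact ⟨_, _, .cons _ _ _ _ (mul_mem hc h2) h4 h3⟩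
  · exact ⟨_, _, .cons _ _ _ _ hc h1 (Bool.eq_not.2 e ▸ h)⟩

lemma all (hx : x ∈ T true ⊔ T false) : ∃ j n, V T j n x := by
  rw [Subgroup.sup_eq_closure] at hx
  induction hx using Subgroup.closure_induction_left with
  | one => exact ⟨true, 0, .nil _⟩
  | mul_left c hc y _ ih =>
    obtain ⟨j, n, h⟩ := ih
    exact hc.elim h.lmul h.lmul
  | inv_mul_cancel c hc y _ ih =>
    obtain ⟨j, n, h⟩ := ih
    exact hc.elim (fun e => h.lmul (inv_mem e)) fun e => h.lmul (inv_mem e)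

/-- Every element is a letter of a given side times a word that starts on the other side. -/
lemma strip (hx : x ∈ T true ⊔ T false) (i : Bool) : ∃ a ∈ T i, ∃ n y, V T (!i) n y ∧ x = a * y := by
  obtain ⟨j, n, h⟩ := all hx
  by_cases e : j = i
  · subst e
    rcases n with _ | n
    · exact ⟨1, one_mem _, 0, 1, .nil _, by rw [h.zero, one_mul]⟩
    · obtain ⟨a, y, h1, -, h3, rfl⟩ := h.succ
      exact ⟨a, h1, n, y, h3, rfl⟩
  · exact ⟨1, one_mem _, n, x, Bool.eq_not.2 e ▸ h, (one_mul x).symm⟩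

variable (H : Ok T)
include H

lemma mid (h' : V T (!i) m g') (ha : a ∈ T i) (h1 : a ≠ 1) (h : V T (!i) n g) : a * g ≠ g' := by
  induction m generalizing i a g g' n with
  | zero =>
    rw [h'.zero]
    exact H.nf _ _ _ (.cons _ _ _ _ ha h1 h)
  | succ m ih =>
    obtain ⟨b, y, h2, h3, h4, rfl⟩ := h'.succ
    intro e
    refine ih h4 (inv_mem h2) (inv_ne_one.2 h3) (V.cons' (i := !i) (by rwa [Bool.not_not]) h1 h) ?_
    rw [e, inv_mul_cancel_left]

lemma uniq (ha : a ∈ T i) (hb : b ∈ T i) (h : V T (!i) n g) (h' : V T (!i) m g')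
    (e : a * g = b * g') : a = b := by
  by_contra hn
  refine mid H h' (mul_mem (inv_mem hb) ha) (fun e => hn (inv_mul_eq_one.1 e).symm) h ?_
  rw [mul_assoc, e, inv_mul_cancel_left]

/-- Centralisers of letters. -/
lemma cent (hw : w ∈ T i) (h1 : w ≠ 1) (hx : x ∈ T true ⊔ T false) (e : x * w = w * x) :
    x ∈ T i := by
  obtain ⟨a, ha, n, y, hy, rfl⟩ := strip hx i
  rcases n with _ | n
  · rwa [hy.zero, mul_one]
  obtain ⟨m, hm⟩ := hy.rmul hw
  refine (mid H hm hw h1 hy (mul_left_cancel (a := a) ?_)).elim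
  rw [← mul_assoc, H.ab i a ha w hw, mul_assoc, ← e, mul_assoc]

/-- Letters of different sides are not conjugate. -/
lemma not_conj (hw : w ∈ T i) (h1 : w ≠ 1) (hc : c ∈ T (!i)) (hx : x ∈ T true ⊔ T false) :
    w * x ≠ x * c := by
  obtain ⟨a, ha, n, y, hy, rfl⟩ := strip hx i
  intro e
  have h2 : ∃ m, V T (!i) m (y * c) := by
    rcases n with _ | n
    · rw [hy.zero, one_mul]
      exact V.one hc
    · exact hy.rmul hc
  obtain ⟨m, hm⟩ := h2
  refine mid H hm hw h1 hy (mul_left_cancel (a := a) ?_)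
  rw [← mul_assoc, H.ab i a ha w hw, mul_assoc, e, mul_assoc]

/-- A product of two letters is not conjugate to a letter. -/
lemma not_conj2 (hw : w ∈ T i) (ha : a ∈ T j) (ha1 : a ≠ 1) (hb : b ∈ T (!j)) (hb1 : b ≠ 1)
    (hx : x ∈ T true ⊔ T false) : w * x ≠ x * (a * b) := by
  have hab : V T j 2 (a * (b * 1)) := .cons _ _ _ _ ha ha1 (.cons _ _ _ _ hb hb1 (.nil _))
  rw [mul_one] at hab
  obtain ⟨a', ha', n, y, hy, rfl⟩ := strip hx i
  intro e
  have h1 : w ≠ 1 := fun h => H.nf _ _ _ hab (by simpa [h] using e)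
  have e' : w * y = y * a * b := mul_left_cancel (a := a') (by
    rw [← mul_assoc, H.ab i a' ha' w hw, mul_assoc, e]
    simp only [mul_assoc])
  rcases n with _ | n
  · rw [hy.zero, one_mul, mul_one] at e'
    by_cases hj : j = i
    · subst hj
      obtain ⟨m, hm⟩ := V.one hb
      refine mid H (.nil _) hb hb1 (.nil _) (mul_left_cancel (a := a) ?_)
      rw [mul_one, ← e', mul_one]
      exact uniq H hw ha (.nil _) hm (by rw [mul_one, e'])
    · exact mid H (Bool.eq_not.2 hj ▸ hab) hw h1 (.nil _) (by rw [mul_one, e'])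
  obtain ⟨m, hm⟩ := hy.rmul ha
  rcases m with _ | m
  · rw [hm.zero, one_mul] at e'
    by_cases hj : (!j) = i
    · subst hj
      have := uniq H hw hb hy (.nil _) (by rw [mul_one, e'])
      rw [this] at e'
      exact H.nf _ _ _ hy (by simpa using e')
    · obtain ⟨m, hm⟩ := V.one hb
      exact mid H (Bool.eq_not.2 hj ▸ hm) hw h1 hy e'
  · obtain ⟨m', hm'⟩ := hm.rmul hb
    exact mid H hm' hw h1 hy e'

lemma step (ha : a ∈ T i) (ha1 : a ≠ 1) (hb : b ∈ T (!i)) (hb1 : b ≠ 1) (hx : V T i (n + 1) x)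
    (e : x * (a * b) = a * b * x) : ∃ m y, m < n ∧ V T i m y ∧ x = a * b * y := by
  have hbx := V.cons' hb hb1 hx
  obtain ⟨a₁, y, h1, h2, hy, rfl⟩ := hx.succ
  have e1 : a * (b * (a₁ * y)) = a₁ * (y * a * b) := by
    rw [← mul_assoc a b, ← e]
    simp only [mul_assoc]
  obtain ⟨mb, hmb⟩ := V.one hb
  rcases n with _ | n
  · rw [hy.zero, mul_one] at hbx
    rw [hy.zero, mul_one, one_mul, ← mul_assoc, ← mul_assoc, H.ab i a₁ h1 a ha, mul_assoc,
      mul_assoc] at e1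
    exact (mid H hbx h1 h2 hmb (mul_left_cancel e1).symm).elim
  have h3 : ∃ m, V T (!i) m (y * a * b) := by
    obtain ⟨m, hm⟩ := hy.rmul ha
    rcases m with _ | m
    · exact ⟨mb, by rwa [hm.zero, one_mul]⟩
    · exact hm.rmul hb
  obtain ⟨m, hm⟩ := h3
  obtain rfl := uniq H ha h1 hbx hm e1
  have e2 := mul_left_cancel e1
  obtain ⟨b₁, y', h4, h5, hy', rfl⟩ := hy.succ
  rw [Bool.not_not] at hy'
  have h6 : ∃ m, V T i m (y' * a * b) := by
    rcases n with _ | n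
    · rw [hy'.zero, one_mul]
      exact ⟨_, .cons _ _ _ _ ha ha1 hmb⟩
    obtain ⟨m, hm⟩ := hy'.rmul ha
    rcases m with _ | m
    · rw [mul_assoc b₁ y' a, hm.zero, mul_one, H.ab _ b₁ h4 b hb] at e2
      obtain ⟨m₁, hm₁⟩ := V.one h4
      exact (mid H hm₁ ha ha1 hy (mul_left_cancel e2)).elim
    · exact hm.rmul hb
  obtain ⟨m', hm'⟩ := h6
  have h7 : b = b₁ := uniq H (i := !i) hb h4 (by rwa [Bool.not_not]) (by rwa [Bool.not_not])
    (show b * (a * (b₁ * y')) = b₁ * (y' * a * b) by rw [e2]; simp only [mul_assoc])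
  exact ⟨n, y', n.lt_succ_self, hy', by rw [h7, mul_assoc]⟩

lemma root (ha : a ∈ T i) (ha1 : a ≠ 1) (hb : b ∈ T (!i)) (hb1 : b ≠ 1) (hx : V T i n x)
    (e : x * (a * b) = a * b * x) : x ∈ Subgroup.zpowers (a * b) := by
  induction n using Nat.strong_induction_on generalizing x with
  | _ n ih =>
    rcases n with _ | n
    · rw [hx.zero]
      exact one_mem _
    obtain ⟨m, y, h1, h2, rfl⟩ := step H ha ha1 hb hb1 hx e
    refine mul_mem (Subgroup.mem_zpowers _) (ih m (by omega) h2 (mul_left_cancel (a := a * b) ?_))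
    rw [← mul_assoc, e]

/-- The centraliser of a product of two letters. -/
lemma cent2 (ha : a ∈ T i) (ha1 : a ≠ 1) (hb : b ∈ T (!i)) (hb1 : b ≠ 1)
    (hx : x ∈ T true ⊔ T false) (e : x * (a * b) = a * b * x) : x ∈ Subgroup.zpowers (a * b) := by
  obtain ⟨j, n, h⟩ := all hx
  by_cases hj : j = i
  · exact root H ha ha1 hb hb1 (hj ▸ h) e
  · have := root H (i := !i) (inv_mem hb) (inv_ne_one.2 hb1) (by rw [Bool.not_not]; exact inv_mem ha)
      (inv_ne_one.2 ha1) (Bool.eq_not.2 hj ▸ h) (by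
        rw [← mul_inv_rev]
        exact (Commute.inv_right e).eq)
    rwa [← mul_inv_rev, Subgroup.zpowers_inv] at this

omit H in
lemma nf (h : Function.Injective (Coprod.lift (T true).subtype (T false).subtype))
    (hg : V T i (n + 1) g) : g ≠ 1 := by
  have hA : Amal (1 : Unit →* T true) (1 : Unit →* T false)
      (Coprod.inl : T true →* Coprod (T true) (T false)) Coprod.inr :=
    { comm := fun _ => by simp
      lift := fun M _ φ ψ _ => ⟨Coprod.lift φ ψ, fun _ => rfl, fun _ => rfl⟩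
      gen := fun S h1 h2 z => Coprod.induction_on z h1 h2 fun _ _ => mul_mem }
  have key : ∀ i n g, V T i n g → ∃ t ω, Gl.Typ (1 : Unit →* T true) (1 : Unit →* T false)
      (Coprod.inl : T true →* Coprod (T true) (T false)) Coprod.inr t ω ∧
      Coprod.lift (T true).subtype (T false).subtype ω = g ∧ t ≠ some (!i) ∧
      (n ≠ 0 → t = some i) := by
    intro i n g hg
    induction hg with
    | nil i => exact ⟨none, _, .base (), by simp, by simp, by simp⟩
    | cons i n a g ha h1 _ ih =>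
      obtain ⟨t, ω, h2, rfl, h3, -⟩ := ih
      cases i
      · exact ⟨_, _, .right ⟨a, ha⟩ ω t (fun ⟨_, e⟩ => h1 (congrArg Subtype.val e).symm) h2 h3,
          by simp, by simp, by simp⟩
      · exact ⟨_, _, .left ⟨a, ha⟩ ω t (fun ⟨_, e⟩ => h1 (congrArg Subtype.val e).symm) h2 h3,
          by simp, by simp, by simp⟩
  obtain ⟨t, ω, h2, rfl, -, h3⟩ := key _ _ _ hg
  rw [h3 n.succ_ne_zero] at h2
  exact fun e => (Gl.nf hA (fun _ _ _ => rfl) fun _ _ _ => rfl).2 _ _ h2 (h (by rw [e, map_one]))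

omit H in
lemma hier {A B : Subgroup G} (h : Function.Injective (Coprod.lift A.subtype B.subtype))
    (hA : Hier A) (hB : Hier B) : Hier ↥(A ⊔ B) := by
  have h1 : Hier (Coprod A B) := Push.hier_pin (c := (1 : A)) (d := (1 : B)) (f := Coprod.inl)
    (g := Coprod.inr)
    { comm := by simp
      lift := fun M _ φ ψ _ => ⟨Coprod.lift φ ψ, fun _ => rfl, fun _ => rfl⟩
      gen := fun S h1 h2 z => Coprod.induction_on z h1 h2 fun _ _ => mul_mem } (by simp) hA hB
  exact .iso _ _ h1 ((MonoidHom.ofInjective h).trans (MulEquiv.subgroupCongr (by simp)))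

end PanP

open PanP

theorem pan (h : PanAStmt) : PanStmt := by
  intro G _ S c₀ c₁ hG hD h0 h1 hn h2 hab
  have hi := h G (S 0) (S 1) c₀ c₁ hD h0 h1 hn (hab 0) (hab 1)
  let T : Bool → Subgroup G := fun b => bif b then S 0 else S 1
  have H : Ok T := ⟨fun _ _ _ => nf hi, fun i => by
    cases i
    · exact hab 1
    · exact hab 0⟩
  have n0 : c₀ ≠ 1 := fun e => hn (by simp [e])
  have n1 : c₁ ≠ 1 := fun e => hn (by simp [e])
  have hu : c₀ * c₁ ∈ S 0 ⊔ S 1 := Subgroup.mul_mem_sup h0 h1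
  have hT : ∀ i, T i ≤ S 0 ⊔ S 1 := fun i => by
    cases i
    · exact le_sup_right
    · exact le_sup_left
  have f1 : ∀ i, ∀ z ∈ T i, ∀ z' ∈ T (!i), z ≠ 1 → z' ≠ 1 → ∀ a ∈ S 0 ⊔ S 1,
      a * z' * a⁻¹ * z ≠ z * (a * z' * a⁻¹) := fun i z hz z' hz' e e' a ha hc =>
    not_conj H (cent H hz e (mul_mem (mul_mem ha (hT _ hz')) (inv_mem ha)) hc)
      (fun h => e' (by simpa using h)) hz' ha (inv_mul_cancel_right _ _)
  have f2 : ∀ i, ∀ z ∈ T i, ∀ z' ∈ S 2, z ≠ 1 → z' ≠ 1 → ∀ a ∈ S 0 ⊔ S 1,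
      a * z' * a⁻¹ * z ≠ z * (a * z' * a⁻¹) := fun i z hz z' hz' e e' a ha hc => by
    rw [h2] at hz'
    obtain ⟨k, rfl⟩ := hz'
    have h3 := ct_root hG (r := a * (c₀ * c₁) * a⁻¹) (fun h => e' (by simpa using h))
      ⟨k, conj_zpow⟩ hc.symm
    exact not_conj2 H (j := true) (cent H hz e (mul_mem (mul_mem ha hu) (inv_mem ha)) h3.symm)
      h0 n0 h1 n1 ha (inv_mul_cancel_right _ _)
  have f3 : ∀ i, ∀ z ∈ S 2, ∀ z' ∈ T i, z ≠ 1 → z' ≠ 1 → ∀ a ∈ S 0 ⊔ S 1,
      a * z' * a⁻¹ * z ≠ z * (a * z' * a⁻¹) := fun i z hz z' hz' e e' a ha hc =>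
    f2 i z' hz' z hz e' e a⁻¹ (inv_mem ha) (by
      simpa [mul_assoc] using (Push.conj_comm hc a⁻¹).symm)
  refine ⟨fun g0 g1 => hier hi
    (.abel _ ((Group.fg_iff_subgroup_fg _).2 g0) fun x y => Subtype.ext (hab 0 _ x.2 _ y.2))
    (.abel _ ((Group.fg_iff_subgroup_fg _).2 g1) fun x y => Subtype.ext (hab 1 _ x.2 _ y.2)),
    fun i => ?_, fun i j hij => ?_⟩
  · fin_cases i
    · exact fun z hz e a ha hc => cent H (i := true) hz e ha hc
    · exact fun z hz e a ha hc => cent H (i := false) hz e ha hc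
    · intro z hz e a ha hc
      have hz' : z ∈ Subgroup.zpowers (c₀ * c₁) := h2 ▸ hz
      show a ∈ S 2
      rw [h2]
      exact cent2 H (i := true) h0 n0 h1 n1 ha (ct_root hG e hz' hc)
  · fin_cases i <;> fin_cases j
    · exact (hij rfl).elim
    · exact f1 true
    · exact f2 true
    · exact f1 false
    · exact (hij rfl).elim
    · exact f2 false
    · exact f3 true
    · exact f3 false
    · exact (hij rfl).elim

end Pool.Agent.MP_494aff_an.Fr

end MrgPart8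

-- marker of a merged file
example : 731051 + 729308 = 731051 + 729308 := rfl
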