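import Mathlib
import Pool.Agent.MP_494aff_an.un.Spec
import Pool.Agent.MP_494aff_an.fr.Qb

-- ======== part 0: formerly Pool.Agent.MP_494aff_an.un.Abc
section MrgPart0

/-! An abelian group is approximately conjugate into a cyclic free factor. -/

open Monoid
open scoped InnerProductSpace

namespace Pool.Agent.MP_494aff_an.Un

open Pool.Agent.MP_494aff_an.Pinch Pool.Agent.MP_494aff_an.Pinch.TowP Pool.Agent.MP_494aff_an.Lf

noncomputable section

namespace AbcP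

lemma cop (A B : Type) [Group A] [Group B] :
    Amal (1 : Unit →* A) (1 : Unit →* B) (Coprod.inl : A →* Coprod A B) Coprod.inr where
  comm _ := by simp
  lift M _ φ ψ _ := ⟨Coprod.lift φ ψ, fun p => by simp, fun q => by simp⟩
  gen T h1 h2 z := by
    induction z using Coprod.induction_on with
    | inl p => exact h1 p
    | inr q => exact h2 q
    | mul x y hx hy => exact mul_mem hx hy

lemma fz_glue {P P' : Type} [Group P] [Group P'] {α : P' →* Op P} (hα : Gen α) :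
    ∃ π : FZ P' →* Op (FZ P), Gen π ∧
      (∀ p, π (Coprod.inl p) = FG.iu (Coprod.inl : P →* FZ P) Coprod.inl_injective (α p)) ∧
      ∀ q, π (Coprod.inr q) = lam (Coprod.inr q : FZ P) :=
  FG.glue2 (cop P _) (cop P' _) (fun _ _ _ => rfl) (fun _ _ _ => rfl) hα (fun _ => by simp) _

lemma ul_norm {Γ : Type} [Group Γ] {u : Op Γ} (h : UL u) (ξ : H Γ) : ‖u ξ‖ = ‖ξ‖ :=
  norm_of_star_mul_self h.2.1 ξ

lemma right_le {Γ : Type} [Group Γ] {m u : Op Γ} (hm : m ∈ LL Γ) (h : UL u) :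
    ‖m (u (dl 1))‖ ≤ ‖m (dl 1)‖ :=
  (norm_mul_hat hm h.1).trans (mul_le_of_le_one_right (norm_nonneg _) (opNorm_le_one h.2.1))

lemma hom_close (z : FreeGroup (Fin 1)) : ∃ C : ℝ, 0 ≤ C ∧ ∀ (Γ : Type) [Group Γ]
    (φ ψ : FreeGroup (Fin 1) →* Op Γ), (∀ z, UL (φ z)) → (∀ z, UL (ψ z)) →
    ‖φ z (dl 1) - ψ z (dl 1)‖ ≤
      C * ‖φ (FreeGroup.of 0) (dl 1) - ψ (FreeGroup.of 0) (dl 1)‖ := by
  induction z using FreeGroup.induction_on with
  | C1 => exact ⟨0, le_rfl, fun Γ _ φ ψ _ _ => by simp⟩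
  | of x =>
    obtain rfl : x = 0 := Subsingleton.elim _ _
    exact ⟨1, zero_le_one, fun Γ _ φ ψ _ _ => by rw [one_mul]⟩
  | inv_of x ih =>
    obtain ⟨C, h0, h⟩ := ih
    refine ⟨C, h0, fun Γ _ φ ψ h1 h2 => le_trans (le_of_eq ?_) (h Γ φ ψ h1 h2)⟩
    rw [← FG.star_of_ul (h1 _), ← FG.star_of_ul (h2 _)]
    have := norm_star_hat (sub_mem (h1 (FreeGroup.of x)).1 (h2 (FreeGroup.of x)).1)
    rw [star_sub] at this
    exact this
  | mul x y hx hy =>
    obtain ⟨C, h0, h⟩ := hx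
    obtain ⟨C', h0', h'⟩ := hy
    refine ⟨C + C', add_nonneg h0 h0', fun Γ _ φ ψ h1 h2 => ?_⟩
    have e : φ (x * y) (dl 1) - ψ (x * y) (dl 1) =
        (φ x - ψ x) (ψ y (dl 1)) + φ x (φ y (dl 1) - ψ y (dl 1)) := by
      rw [map_mul, map_mul, mul_ap, mul_ap, map_sub, ContinuousLinearMap.sub_apply]
      abel
    rw [e, add_mul]
    refine (norm_add_le _ _).trans (add_le_add ?_ ?_)
    · exact (right_le (sub_mem (h1 x).1 (h2 x).1) (h2 y)).trans (h Γ φ ψ h1 h2)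
    · rw [ul_norm (h1 x)]
      exact h' Γ φ ψ h1 h2

lemma uni_norm {G G' : Type} [Group G] [Group G'] {W : H G' →L[ℂ] H G} {V : H G →L[ℂ] H G'}
    (h : SimA.Uni W V) (ξ : H G') : ‖W ξ‖ = ‖ξ‖ := by
  rw [@norm_eq_sqrt_re_inner ℂ, @norm_eq_sqrt_re_inner ℂ, h.adj, h.vw]

/-- The free group on one letter. -/
abbrev Z1 : Type := FreeGroup (Fin 1)

lemma free3 : Function.Injective (FreeGroup.lift
    ![gen (FZ Z1), Coprod.inl (Coprod.inl (FreeGroup.of 0)), Coprod.inl (gen Z1)] :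
      FreeGroup (Fin 3) →* FZ (FZ Z1)) := by
  let ρ : FZ (FZ Z1) →* FreeGroup (Fin 3) :=
    Coprod.lift (Coprod.lift (FreeGroup.lift fun _ => FreeGroup.of 1)
      (zpowersHom _ (FreeGroup.of 2))) (zpowersHom _ (FreeGroup.of 0))
  have : ρ.comp (FreeGroup.lift
      ![gen (FZ Z1), Coprod.inl (Coprod.inl (FreeGroup.of 0)), Coprod.inl (gen Z1)]) =
      MonoidHom.id _ := by
    ext i
    fin_cases i <;> simp [ρ, gen]
  exact Function.LeftInverse.injective (g := ρ) fun x => DFunLike.congr_fun this x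

lemma inr_mem (G : Type) [Group G] (q : Multiplicative ℤ) :
    (Coprod.inr q : FZ G) ∈ Subgroup.zpowers (gen G) :=
  ⟨q.toAdd, by
    show gen G ^ q.toAdd = _
    rw [gen, ← map_zpow, ← ofAdd_zsmul]
    simp⟩

lemma near_le {Γ : Type} [Group Γ] {X : Subgroup Γ} {ξ : H Γ} {a b : ℝ} (h : Near X ξ a)
    (hab : a ≤ b) : Near X ξ b := by
  obtain ⟨η, h1, h2⟩ := h
  exact ⟨η, h1, h2.trans hab⟩

lemma main (h : ConjStmt) {A : Type} [Group A] {α : Z1 →* Op A} (hα : Gen α) (Y : Finset A)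
    {ε : ℝ} (hε : 0 < ε) : ∃ r : Op (FZ (FZ A)), UL r ∧ ∀ a ∈ Y,
      Near (Subgroup.zpowers (gen (FZ A)))
        ((r * (lam (Coprod.inl (Coprod.inl a) : FZ (FZ A)) : Op (FZ (FZ A))) * star r) (dl 1))
        ε := by
  obtain ⟨π₁, g1, e1, -⟩ := fz_glue hα
  obtain ⟨π, g2, e2, e3⟩ := fz_glue g1
  obtain ⟨W, V, hU, hW⟩ := SimA.exists_uni g2
  let E : H A →L[ℂ] H (FZ (FZ A)) :=
    (emb (Coprod.inl : FZ A →* FZ (FZ A)) Coprod.inl_injective).comp
      (emb (Coprod.inl : A →* FZ A) Coprod.inl_injective)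
  have hE : ∀ ξ, ‖E ξ‖ = ‖ξ‖ := fun ξ => by
    simp only [E, ContinuousLinearMap.comp_apply, emb_norm]
  let D : Op (FZ (FZ Z1)) → ℝ := fun r₀ =>
    ‖(r₀ * (lam (Coprod.inl (Coprod.inl (FreeGroup.of 0)) : FZ (FZ Z1)) : Op (FZ (FZ Z1))) *
      star r₀) (dl 1) - dl (gen (FZ Z1))‖
  have key : ∀ ξ ∈ Submodule.span ℂ (Set.range fun z => α z (dl 1)),
      ∃ (n : Op (FZ (FZ A))) (C : ℝ), n ∈ LL _ ∧ n (dl 1) = E ξ ∧ 0 ≤ C ∧ ∀ r₀, UL r₀ →
        Near (Subgroup.zpowers (gen (FZ A))) ((hU.cg r₀ * n * star (hU.cg r₀)) (dl 1))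
          (C * D r₀) := by
    intro ξ hξ
    induction hξ using Submodule.span_induction with
    | mem x hx =>
      obtain ⟨z, rfl⟩ := hx
      obtain ⟨C, h0, hC⟩ := hom_close z
      refine ⟨π (Coprod.inl (Coprod.inl z)), C, g2.mem _, ?_, h0, fun r₀ hr => ?_⟩
      · rw [e2, FG.iu_one _ _ (FG.ul_gen g1 _), e1, FG.iu_one _ _ (FG.ul_gen hα _)]
        rfl
      · let κ : Z1 →* Multiplicative ℤ := FreeGroup.lift fun _ => Multiplicative.ofAdd 1
        have h1 := hC (FZ (FZ Z1))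
          ((SimA.adu hr).comp (lam.comp (Coprod.inl.comp Coprod.inl)))
          (lam.comp (Coprod.inr.comp κ))
          (fun z => FG.ul_mul (FG.ul_mul hr (FG.ul_lam _)) (FG.ul_star hr)) fun z => FG.ul_lam _
        refine ⟨dl (Coprod.inr (κ z)), supp_dl (inr_mem _ _), ?_⟩
        have h2 : (dl (Coprod.inr (κ z)) : H (FZ (FZ A))) = W (lam (Coprod.inr (κ z)) (dl 1)) := by
          rw [← lam_one, ← e3, ← hW, hU.cg_ap, hU.symm.one]
        rw [h2, ← hW, ← hU.cg_star, ← map_mul, ← map_mul, hU.cg_ap, hU.symm.one, ← map_sub,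
          uni_norm hU]
        refine h1.trans (le_of_eq ?_)
        simp only [D, MonoidHom.comp_apply, SimA.ad_ap, lam_one, κ, FreeGroup.lift_apply_of, gen]
    | zero =>
      exact ⟨0, 0, zero_mem _, by simp, le_rfl, fun r₀ _ => ⟨0, supp_zero _, by simp⟩⟩
    | add x y _ _ hx hy =>
      obtain ⟨n, C, a1, a2, a3, a4⟩ := hx
      obtain ⟨n', C', b1, b2, b3, b4⟩ := hy
      refine ⟨n + n', C + C', add_mem a1 b1, by simp [a2, b2], add_nonneg a3 b3, fun r₀ hr => ?_⟩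
      obtain ⟨η, c1, c2⟩ := a4 r₀ hr
      obtain ⟨η', d1, d2⟩ := b4 r₀ hr
      refine ⟨η + η', c1.add d1, ?_⟩
      rw [mul_add, add_mul, ContinuousLinearMap.add_apply, add_sub_add_comm, add_mul]
      exact (norm_add_le _ _).trans (add_le_add c2 d2)
    | smul c x _ hx =>
      obtain ⟨n, C, a1, a2, a3, a4⟩ := hx
      refine ⟨c • n, ‖c‖ * C, SMulMemClass.smul_mem c a1, by simp [a2],
        mul_nonneg (norm_nonneg _) a3, fun r₀ hr => ?_⟩
      obtain ⟨η, c1, c2⟩ := a4 r₀ hr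
      refine ⟨c • η, c1.smul c, ?_⟩
      rw [mul_smul_comm, smul_mul_assoc, ContinuousLinearMap.smul_apply, ← smul_sub, norm_smul,
        mul_assoc ‖c‖]
      exact mul_le_mul_of_nonneg_left c2 (norm_nonneg _)
  have k2 : ∀ a : A, ∃ C : ℝ, 0 ≤ C ∧ ∀ r₀, UL r₀ → Near (Subgroup.zpowers (gen (FZ A)))
      ((hU.cg r₀ * (lam (Coprod.inl (Coprod.inl a) : FZ (FZ A)) : Op (FZ (FZ A))) *
        star (hU.cg r₀)) (dl 1)) (ε / 2 + C * D r₀) := by
    intro a
    obtain ⟨ξ, h1, h2⟩ := Metric.dense_iff.1 hα.dense (dl a) (ε / 2) (half_pos hε)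
    obtain ⟨n, C, a1, a2, a3, a4⟩ := key ξ h2
    refine ⟨C, a3, fun r₀ hr => ?_⟩
    obtain ⟨η, c1, c2⟩ := a4 r₀ hr
    refine ⟨η, c1, (norm_sub_le_norm_sub_add_norm_sub _ _ _).trans (add_le_add ?_ c2)⟩
    have hr' := hU.cg_UL hr
    rw [← ContinuousLinearMap.sub_apply, ← sub_mul, ← mul_sub, mul_ap, mul_ap, ul_norm hr']
    refine (right_le (sub_mem (lam_mem _) a1) (FG.ul_star hr')).trans ?_
    have h3 : (dl (Coprod.inl (Coprod.inl a)) : H (FZ (FZ A))) = E (dl a) := by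
      simp only [E, ContinuousLinearMap.comp_apply, emb_dl]
    rw [ContinuousLinearMap.sub_apply, lam_one, a2, h3, ← map_sub, hE, norm_sub_rev,
      ← dist_eq_norm]
    exact (Metric.mem_ball.1 h1).le
  choose C hC0 hC using k2
  have hS : 0 ≤ ∑ a ∈ Y, C a := Finset.sum_nonneg fun a _ => hC0 a
  obtain ⟨r₀, hr, -, hD⟩ := h _ _ _ _ (ε / 2 / (∑ a ∈ Y, C a + 1)) (by positivity) free3
  refine ⟨hU.cg r₀, hU.cg_UL hr, fun a ha => near_le (hC a r₀ hr) ?_⟩
  have h1 : C a ≤ ∑ a ∈ Y, C a + 1 :=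
    (Finset.single_le_sum (fun a _ => hC0 a) ha).trans (le_add_of_nonneg_right zero_le_one)
  have h2 : C a * D r₀ ≤ (∑ a ∈ Y, C a + 1) * (ε / 2 / (∑ a ∈ Y, C a + 1)) :=
    mul_le_mul h1 hD (norm_nonneg _) (by positivity)
  rw [mul_div_cancel₀ _ (by positivity)] at h2
  linarith

end AbcP

theorem abc (_hB : Bas) (h : ConjStmt) : AbcStmt := by
  intro A _ h1 h2 hn Y ε hε
  obtain ⟨k, ⟨e⟩⟩ := @TopP.free_abel A
    { (inferInstance : Group A) with mul_comm := TopP.comm_of hn } h1 h2.tf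
  rcases k with _ | k
  · refine ⟨1, FG.ul_one, fun a _ => ⟨dl 1, supp_dl (one_mem _), ?_⟩⟩
    obtain rfl : a = 1 := e.injective (Subsingleton.elim _ _)
    simp [hε.le]
  · obtain ⟨α, hα, -⟩ := Sim.trans (eqv_equiv e) (abel (k + 1) (by omega))
    exact AbcP.main h hα Y hε

end

end Pool.Agent.MP_494aff_an.Un

end MrgPart0

-- ======== part 1: formerly Pool.Agent.MP_494aff_an.un.Dense
section MrgPart1

/-! Analytic cocycles are dense. -/

open Monoid Filter Topology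

namespace Pool.Agent.MP_494aff_an.Un

open Pool.Agent.MP_494aff_an.Pinch Pool.Agent.MP_494aff_an.Pinch.TowP Pool.Agent.MP_494aff_an.Lf

noncomputable section

namespace DenseP

variable {A B G Γ : Type} [Group A] [Group B] [Group G] [Group Γ] {ℓ : Γ → ℕ} {ι : G →* Γ}
  {R : Subgroup Γ}

/-- The average of the first powers. -/
def av (g : Γ) (N : ℕ) : Op Γ := (N : ℝ)⁻¹ • ∑ k ∈ Finset.range N, lam (g ^ k)

lemma av_mem (g : Γ) (N : ℕ) : av g N ∈ LL Γ :=
  (((An.sum (ℓ := fun _ => 0) (X := Set.univ) _ fun _ _ => An.of_lam trivial)).smul _).mem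

lemma av_norm (g : Γ) (N : ℕ) : ‖av g N‖ ≤ 1 := by
  rcases Nat.eq_zero_or_pos N with rfl | hN
  · simp [av]
  have hN' : (0 : ℝ) < N := Nat.cast_pos.2 hN
  have h1 : ‖∑ k ∈ Finset.range N, (lam (g ^ k) : Op Γ)‖ ≤ N := by
    refine (norm_sum_le _ _).trans ?_
    simpa using Finset.sum_le_sum (s := Finset.range N) fun k _ => opNorm_lam (g ^ k)
  rw [av, norm_smul, Real.norm_eq_abs, abs_of_pos (inv_pos.2 hN'), inv_mul_le_iff₀ hN', mul_one]
  exact h1

lemma av_dl {g : Γ} (hg : InfOrd g) {N : ℕ} (hN : N ≠ 0) (x : Γ) :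
    ‖av g N (dl x)‖ = (√N)⁻¹ := by
  rw [LL_dl (av_mem g N), rho_norm]
  simpa [av] using norm_avg hg hN 0

lemma av_small {g : Γ} (hg : InfOrd g) (ξ : H Γ) {ε : ℝ} (hε : 0 < ε) :
    ∀ᶠ N : ℕ in atTop, ‖av g N ξ‖ ≤ ε := by
  obtain ⟨s, hs⟩ := (Metric.tendsto_nhds.1 (hasSum_dl ξ) (ε / 2) (half_pos hε)).exists
  rw [dist_eq_norm] at hs
  have h0 : Tendsto (fun N : ℕ => (∑ x ∈ s, ‖ξ x‖) * (√(N : ℝ))⁻¹) atTop (𝓝 0) := by
    have h1 : Tendsto (fun N : ℕ => (√(N : ℝ))⁻¹) atTop (𝓝 0) :=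
      tendsto_inv_atTop_zero.comp (Real.tendsto_sqrt_atTop.comp tendsto_natCast_atTop_atTop)
    simpa using h1.const_mul (∑ x ∈ s, ‖ξ x‖)
  filter_upwards [(tendsto_order.1 h0).2 _ (half_pos hε), eventually_ne_atTop 0] with N h1 hN
  have h2 : ‖av g N (∑ x ∈ s, ξ x • dl x)‖ ≤ (∑ x ∈ s, ‖ξ x‖) * (√(N : ℝ))⁻¹ := by
    rw [map_sum, Finset.sum_mul]
    refine (norm_sum_le _ _).trans (Finset.sum_le_sum fun x _ => ?_)
    rw [map_smul, norm_smul, av_dl hg hN]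
  have h3 : ‖av g N (∑ x ∈ s, ξ x • dl x - ξ)‖ ≤ ε / 2 :=
    ((av g N).le_opNorm _).trans
      ((mul_le_of_le_one_left (norm_nonneg _) (av_norm g N)).trans hs.le)
  have e : av g N ξ = av g N (∑ x ∈ s, ξ x • dl x) - av g N (∑ x ∈ s, ξ x • dl x - ξ) := by
    rw [map_sub, sub_sub_cancel]
  rw [e]
  refine (norm_sub_le _ _).trans ?_
  linarith

lemma cz_one {c : G → H Γ} (h : Cz ι c) : c 1 = 0 := by
  have := h 1 1
  rw [mul_one, map_one, map_one, one_ap] at this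
  exact left_eq_add.1 this

lemma cz_comp {c : G → H Γ} (h : Cz ι c) (f : A →* G) : Cz (ι.comp f) fun a => c (f a) :=
  fun a b => by
    show c (f (a * b)) = c (f a) + lam (ι (f a)) (c (f b))
    rw [map_mul, h]

lemma norm_one_sub (g : Γ) (ξ : H Γ) : ‖(1 - lam g) ξ‖ ≤ 2 * ‖ξ‖ := by
  rw [_root_.sub_apply, one_ap]
  refine (norm_sub_le _ _).trans ?_
  rw [lam_norm]
  linarith

omit [Group Γ] in
lemma rv_sum (X : Set Γ) {I : Type} (s : Finset I) (v : I → H Γ) :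
    AFP.rv X (∑ i ∈ s, v i) = ∑ i ∈ s, AFP.rv X (v i) := by
  classical
  induction s using Finset.induction_on with
  | empty => simpa using AFP.rv_zero X
  | insert a s ha ih => rw [Finset.sum_insert ha, Finset.sum_insert ha, AFP.rv_add, ih]

omit [Group Γ] in
lemma bound {I : Type} (S : Finset I) (T : I → Op Γ) : ∃ M : ℝ, 0 ≤ M ∧ ∀ s ∈ S, ‖T s‖ ≤ M :=
  ⟨∑ s ∈ S, ‖T s‖, by positivity, fun _ hs =>
    Finset.single_le_sum (f := fun s => ‖T s‖) (fun _ _ => norm_nonneg _) hs⟩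

lemma abel (hG : CT G) (hn : ¬ NA G) : Dense0 G := by
  intro Γ _ ℓ ι R c hι hR hc hr S ε hε
  have hcomm : ∀ x y : G, x * y = y * x := fun x y => not_not.1 fun e => hn ⟨x, y, e⟩
  by_cases h1 : ∀ z : G, z = 1
  · refine ⟨fun _ => 0, z0_zero, fun s _ => ?_⟩
    rw [h1 s, cz_one hc]
    simpa using hε.le
  obtain ⟨z, hz⟩ := not_forall.1 h1
  have hi : InfOrd (ι z) := FG.InfOrd.map hι (hG.tf z hz)
  obtain ⟨N, hN, hN0⟩ := (((eventually_all_finset S).2 fun s _ =>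
    av_small hi (c s) (half_pos hε)).and (eventually_ne_atTop 0)).exists
  have hN' : (N : ℝ) ≠ 0 := Nat.cast_ne_zero.2 hN0
  set ξ : H Γ := (N : ℝ)⁻¹ • ∑ k ∈ Finset.range N, c (z ^ k) with hξ
  have hrv : AFP.rv R ξ = ξ := by
    rw [hξ, AFP.rv_smul, rv_sum, Finset.sum_congr rfl fun k _ => hr (z ^ k)]
  obtain ⟨p, hp, hpξ⟩ := AFP.exists_pol (R : Set Γ) ξ (θ := ε / 4) (by positivity)
  rw [hrv] at hpξ
  refine ⟨inn ι p, z0_inn hR (An.pol hp), fun s hs => ?_⟩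
  have e1 : ∀ k : ℕ, (1 - lam (ι s)) (c (z ^ k)) = c s - lam (ι z ^ k) (c s) := fun k => by
    have h2 := hc s (z ^ k)
    rw [hcomm, hc, map_pow] at h2
    rw [_root_.sub_apply, one_ap, sub_eq_sub_iff_add_eq_add]
    exact h2
  have e2 : (1 - lam (ι s)) ξ = c s - av (ι z) N (c s) := by
    rw [hξ, ContinuousLinearMap.map_smul_of_tower, map_sum,
      Finset.sum_congr rfl fun k _ => e1 k, Finset.sum_sub_distrib, smul_sub, Finset.sum_const,
      Finset.card_range, ← Nat.cast_smul_eq_nsmul ℝ, smul_smul, inv_mul_cancel₀ hN', one_smul, av,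
      _root_.smul_apply, _root_.sum_apply]
  have e3 : inn ι p s (dl 1) - c s = (1 - lam (ι s)) (p (dl 1) - ξ) - av (ι z) N (c s) := by
    rw [map_sub, e2, inn, mul_ap]
    abel
  rw [e3]
  refine (norm_sub_le _ _).trans ?_
  have h3 := norm_one_sub (ι s) (p (dl 1) - ξ)
  have h4 := hN s hs
  linarith

lemma critA {c : A} {d : B} {f : A →* G} {g : B →* G} (h : Am c d f g) (hR : ∀ x, ι x ∈ R)
    {β : G → Op Γ} (hβ : Co ι β) (ha : ∀ x, An ℓ R (β x))
    (hA : ∀ a, NC a → In ℓ R ι β (f a)) (hB : ∀ b, NC b → In ℓ R ι β (g b)) : Z0 ℓ R ι β := by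
  obtain ⟨i1, i2, i3⟩ := am cls (hyp cls) A B G c d f g h
  refine ⟨hβ, ha, fun z hz => ?_⟩
  obtain ⟨y, hy⟩ := i1 z
  have hz' := hz.conj y
  have key : In ℓ R ι β (y * z * y⁻¹) := by
    rcases hy with ⟨a, e⟩ | ⟨b, e⟩ | ⟨⟨w₀, hw, hm⟩, -⟩
    · rw [← e] at hz' ⊢
      rcases i2 a hz' with hn | ⟨hn, a₀, k, rfl⟩
      · exact hA a hn
      · have h2 : In ℓ R ι β (f c ^ k) :=
          In.of_mem hβ (h.pin.comm ▸ hB d hn) (Subgroup.zpow_mem_zpowers _ k)
        have h3 := In.conj hβ hR ha h2 (f a₀)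
        rwa [map_mul, map_mul, map_zpow, map_inv]
    · rw [← e] at hz' ⊢
      exact hB b (i3 b hz')
    · exact (hz'.2 w₀ hw hm).elim
  have h4 := In.conj hβ hR ha key y⁻¹
  have e : y⁻¹ * (y * z * y⁻¹) * y⁻¹⁻¹ = z := by group
  rwa [e] at h4

lemma critH {c c' : A} {f : A →* G} {t : G} (h : Hx c c' f t) (hR : ∀ x, ι x ∈ R)
    {β : G → Op Γ} (hβ : Co ι β) (ha : ∀ x, An ℓ R (β x))
    (hA : ∀ a, NC a → In ℓ R ι β (f a)) : Z0 ℓ R ι β := by
  obtain ⟨i1, i2⟩ := hx cls (hyp cls) A G c c' f t h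
  refine ⟨hβ, ha, fun z hz => ?_⟩
  obtain ⟨y, hy⟩ := i1 z
  have hz' := hz.conj y
  have key : In ℓ R ι β (y * z * y⁻¹) := by
    rcases hy with ⟨a, e⟩ | ⟨⟨w₀, hw, hm⟩, -⟩
    · rw [← e] at hz' ⊢
      rcases i2 a hz' with hn | ⟨hn, y₀, k, e'⟩
      · exact hA a hn
      · rw [e']
        exact In.conj hβ hR ha
          (In.of_mem hβ (hA c' hn) (Subgroup.zpow_mem_zpowers _ k)) y₀
    · exact (hz'.2 w₀ hw hm).elim
  have h4 := In.conj hβ hR ha key y⁻¹
  have e : y⁻¹ * (y * z * y⁻¹) * y⁻¹⁻¹ = z := by group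
  rwa [e] at h4

lemma rg_le (hR : ∀ x, ι x ∈ R) (f : A →* G) : ((ι.comp f).range : Set Γ) ⊆ (R : Set Γ) := by
  rintro _ ⟨a, rfl⟩
  exact hR _

/-- Closeness on generators is enough. -/
lemma close (hB : Bas) (T : Set G) (hT : ∀ z, z ∈ Subgroup.closure T) (S : Finset G) {ε : ℝ}
    (hε : 0 < ε) : ∃ (T₀ : Finset G) (η : ℝ), (∀ x ∈ T₀, x ∈ T) ∧ 0 < η ∧
      ∀ (c : G → H Γ) (β : G → Op Γ), Cz ι c → Co ι β →
        (∀ x ∈ T₀, ‖β x (dl 1) - c x‖ ≤ η) → ∀ s ∈ S, ‖β s (dl 1) - c s‖ ≤ ε := by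
  obtain ⟨T₀, N, h1, hN, h2⟩ := hB.cz.close G T S fun s _ => hT s
  refine ⟨T₀, ε / N, h1, div_pos hε hN, fun c β hc hβ h s hs => ?_⟩
  have h3 := h2 Γ ι c (fun x => β x (dl 1)) ⊤ (ε / N) (div_pos hε hN).le (fun _ _ => trivial)
    (fun x _ y _ => hc x y) (fun x _ y _ => by rw [hβ x y]; rfl) h s hs
  rwa [mul_div_cancel₀ _ hN.ne'] at h3

lemma amal (hB : Bas) {c₀ : A} {d : B} {f : A →* G} {g : B →* G} (h : Am c₀ d f g) (qA : Q0 A)
    (dA : Dense0 A) (dB : Dense0 B) : Dense0 G := by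
  classical
  intro Γ _ ℓ ι R c hι hR hc hr S ε hε
  obtain ⟨T₀, η, hT, hη, hcl⟩ := close (ι := ι) hB (Set.range f ∪ Set.range g)
    (h.pin.gen _ (fun a => Subgroup.subset_closure (Or.inl ⟨a, rfl⟩))
      fun b => Subgroup.subset_closure (Or.inr ⟨b, rfl⟩)) S hε
  obtain ⟨β₁, hβ₁, e₁⟩ : ∃ β₁, Z0 ℓ R (ι.comp f) β₁ ∧ ∀ (βA : A → Op Γ) (βB : B → Op Γ),
      Co (ι.comp f) βA → Co (ι.comp g) βB → βA c₀ + β₁ c₀ * (βB d - βA c₀) = βB d := by
    rcases h.edge with ⟨h1, h2⟩ | ⟨h1, -⟩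
    · exact ⟨fun _ => 0, z0_zero, fun βA βB hA hB' => by
        rw [h1, h2, hA.one, hB'.one, zero_mul, add_zero]⟩
    · obtain ⟨β₁, hβ₁, e₁⟩ := qA Γ ℓ (ι.comp f) (hι.comp h.hf) c₀ h1
      exact ⟨β₁, hβ₁.mono (rg_le hR f), fun βA βB _ _ => by rw [e₁, one_mul, add_sub_cancel]⟩
  obtain ⟨M, hM, hM'⟩ := bound (T₀.preimage f h.hf.injOn) β₁
  have hδ : 0 < η / (1 + 2 * M) := by positivity
  have hδ' : η / (1 + 2 * M) * (1 + 2 * M) = η := div_mul_cancel₀ _ (by positivity)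
  generalize η / (1 + 2 * M) = δ at hδ hδ'
  obtain ⟨βA, hA, nA⟩ := dA Γ ℓ (ι.comp f) R (fun a => c (f a)) (hι.comp h.hf) (fun a => hR _)
    (cz_comp hc f) (fun a => hr _) (insert c₀ (T₀.preimage f h.hf.injOn)) δ hδ
  obtain ⟨βB, hB', nB⟩ := dB Γ ℓ (ι.comp g) R (fun b => c (g b)) (hι.comp h.hg) (fun b => hR _)
    (cz_comp hc g) (fun b => hr _) (insert d (T₀.preimage g h.hg.injOn)) δ hδ
  have he : An ℓ R (βB d - βA c₀) := (hB'.an d).sub (hA.an c₀)
  have hA' := hA.add (hβ₁.mul he)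
  obtain ⟨β, hβ, ha, e1, e2⟩ := ext_pin h.pin hR hA'.co hB'.co (e₁ βA βB hA.co hB'.co) hA'.an hB'.an
  have hn : ‖(βB d - βA c₀) (dl 1)‖ ≤ 2 * δ := by
    have h1 := nA c₀ (Finset.mem_insert_self _ _)
    have h2 := nB d (Finset.mem_insert_self _ _)
    have e : (βB d - βA c₀) (dl 1) = (βB d (dl 1) - c (g d)) - (βA c₀ (dl 1) - c (f c₀)) := by
      rw [_root_.sub_apply, h.pin.comm]
      abel
    rw [e]
    refine (norm_sub_le _ _).trans ?_
    linarith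
  refine ⟨β, critA h hR hβ ha (fun a hn => ?_) (fun b hn => ?_), hcl c β hc hβ fun x hx => ?_⟩
  · obtain ⟨ξ, hξ, e3⟩ := hA'.nc a hn
    exact ⟨ξ, hξ, (e1 a).trans e3⟩
  · obtain ⟨ξ, hξ, e3⟩ := hB'.nc b hn
    exact ⟨ξ, hξ, (e2 b).trans e3⟩
  rcases hT x hx with ⟨a, rfl⟩ | ⟨b, rfl⟩
  · have hm : a ∈ T₀.preimage f h.hf.injOn := Finset.mem_preimage.2 hx
    have h1 := nA a (Finset.mem_insert_of_mem hm)
    have h2 : ‖β₁ a ((βB d - βA c₀) (dl 1))‖ ≤ M * (2 * δ) :=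
      ((β₁ a).le_opNorm _).trans (mul_le_mul (hM' a hm) hn (norm_nonneg _) hM)
    have e : β (f a) (dl 1) - c (f a) =
        (βA a (dl 1) - c (f a)) + β₁ a ((βB d - βA c₀) (dl 1)) := by
      rw [e1, _root_.add_apply, mul_ap]
      abel
    rw [e]
    refine (norm_add_le _ _).trans ?_
    nlinarith
  · have h1 := nB b (Finset.mem_insert_of_mem (Finset.mem_preimage.2 hx))
    rw [e2]
    nlinarith [mul_nonneg hM hδ.le]

lemma hnn (hB : Bas) {c₀ c₁ : A} {f : A →* G} {t : G} (h : Hx c₀ c₁ f t) (qA : Q0 A)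
    (dA : Dense0 A) : Dense0 G := by
  classical
  intro Γ _ ℓ ι R c hι hR hc hr S ε hε
  obtain ⟨T₀, η, hT, hη, hcl⟩ := close (ι := ι) hB (Set.range f ∪ {t})
    (h.hn.gen _ (fun a => Subgroup.subset_closure (Or.inl ⟨a, rfl⟩))
      (Subgroup.subset_closure (Or.inr rfl))) S hε
  obtain ⟨β₁, hβ₁, e₁, hi⟩ := qr avg A Γ ℓ (ι.comp f) c₀ [c₁] (ct_of_inj h.hf h.ct) qA
    (hι.comp h.hf) h.cyc fun z hz => by rw [List.mem_singleton.1 hz]; exact h.far
  obtain ⟨ξ, hξ, e₂⟩ := (hi c₁ (List.mem_singleton.2 rfl)).mono (rg_le hR f)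
  have hβ₁' := hβ₁.mono (rg_le hR f)
  obtain ⟨M, hM, hM'⟩ := bound (T₀.preimage f h.hf.injOn) β₁
  have hδ : 0 < η / (1 + 4 * M + 4 * ‖ξ‖) := by positivity
  have hδ' : η / (1 + 4 * M + 4 * ‖ξ‖) * (1 + 4 * M + 4 * ‖ξ‖) = η :=
    div_mul_cancel₀ _ (by positivity)
  generalize η / (1 + 4 * M + 4 * ‖ξ‖) = δ at hδ hδ'
  obtain ⟨βA, hA, nA⟩ := dA Γ ℓ (ι.comp f) R (fun a => c (f a)) (hι.comp h.hf) (fun a => hR _)
    (cz_comp hc f) (fun a => hr _) (insert c₀ (insert c₁ (T₀.preimage f h.hf.injOn))) δ hδ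
  obtain ⟨θ, hθ, nθ⟩ := AFP.exists_pol (R : Set Γ) (c t) hδ
  rw [hr t] at nθ
  have aθ : An ℓ R θ := An.pol hθ
  have ay : An ℓ R (βA c₁ - (1 - lam (ι (f c₁))) * θ - lam (ι t) * βA c₀) :=
    ((hA.an c₁).sub ((An.one.sub (An.of_lam (hR _))).mul' aθ)).sub
      ((An.of_lam (hR t)).mul' (hA.an c₀))
  have ny : ‖(βA c₁ - (1 - lam (ι (f c₁))) * θ - lam (ι t) * βA c₀) (dl 1)‖ ≤ 4 * δ := by
    have h1 := nA c₀ (Finset.mem_insert_self _ _)
    have h2 := nA c₁ (Finset.mem_insert_of_mem (Finset.mem_insert_self _ _))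
    have h3 := norm_one_sub (ι (f c₁)) (θ (dl 1) - c t)
    have h4 : f c₁ * t = t * f c₀ := by rw [h.hn.comm, inv_mul_cancel_right]
    have h5 := hc (f c₁) t
    rw [h4, hc] at h5
    have h6 : c (f c₁) = (1 - lam (ι (f c₁))) (c t) + lam (ι t) (c (f c₀)) := by
      rw [_root_.sub_apply, one_ap, sub_add_eq_add_sub, h5, add_sub_cancel_right]
    have e : (βA c₁ - (1 - lam (ι (f c₁))) * θ - lam (ι t) * βA c₀) (dl 1) =
        (βA c₁ (dl 1) - c (f c₁)) - (1 - lam (ι (f c₁))) (θ (dl 1) - c t) -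
          lam (ι t) (βA c₀ (dl 1) - c (f c₀)) := by
      rw [_root_.sub_apply, _root_.sub_apply, mul_ap, mul_ap, map_sub,
        map_sub, h6]
      abel
    rw [e]
    refine (norm_sub_le _ _).trans ?_
    have h7 := norm_sub_le (βA c₁ (dl 1) - c (f c₁)) ((1 - lam (ι (f c₁))) (θ (dl 1) - c t))
    rw [lam_norm]
    linarith
  have ax := (An.of_lam (hR t⁻¹)).mul' ay
  have ex : lam (ι t) * (lam (ι t⁻¹) * (βA c₁ - (1 - lam (ι (f c₁))) * θ - lam (ι t) * βA c₀)) =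
      βA c₁ - (1 - lam (ι (f c₁))) * θ - lam (ι t) * βA c₀ := by
    rw [← mul_assoc, ← map_mul, ← map_mul, mul_inv_cancel, map_one, map_one, one_mul]
  have nx : ‖(lam (ι t⁻¹) * (βA c₁ - (1 - lam (ι (f c₁))) * θ - lam (ι t) * βA c₀)) (dl 1)‖ ≤
      4 * δ := by
    rw [mul_ap, lam_norm]
    exact ny
  generalize lam (ι t⁻¹) * (βA c₁ - (1 - lam (ι (f c₁))) * θ - lam (ι t) * βA c₀) = x at ax ex nx
  have hA' := hA.add (hβ₁'.mul ax)
  obtain ⟨β, hβ, ha, e1, e2⟩ := ext_hn h.hn hR hA'.co (θ := θ + ξ * x) (by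
    simp only [e₁, e₂, MonoidHom.comp_apply, one_mul]
    rw [mul_add (lam (ι t)), ex]
    noncomm_ring) hA'.an (aθ.add (hξ.mul' ax))
  refine ⟨β, critH h hR hβ ha fun a hn => ?_, hcl c β hc hβ fun z hz => ?_⟩
  · obtain ⟨ζ, hζ, e3⟩ := hA'.nc a hn
    exact ⟨ζ, hζ, (e1 a).trans e3⟩
  rcases hT z hz with ⟨a, rfl⟩ | rfl
  · have hm : a ∈ T₀.preimage f h.hf.injOn := Finset.mem_preimage.2 hz
    have h1 := nA a (Finset.mem_insert_of_mem (Finset.mem_insert_of_mem hm))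
    have h2 : ‖β₁ a (x (dl 1))‖ ≤ M * (4 * δ) :=
      ((β₁ a).le_opNorm _).trans (mul_le_mul (hM' a hm) nx (norm_nonneg _) hM)
    have e : β (f a) (dl 1) - c (f a) = (βA a (dl 1) - c (f a)) + β₁ a (x (dl 1)) := by
      rw [e1, _root_.add_apply, mul_ap]
      abel
    rw [e]
    refine (norm_add_le _ _).trans ?_
    nlinarith [mul_nonneg (norm_nonneg ξ) hδ.le]
  · have h2 : ‖ξ (x (dl 1))‖ ≤ ‖ξ‖ * (4 * δ) :=
      (ξ.le_opNorm _).trans (mul_le_mul_of_nonneg_left nx (norm_nonneg _))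
    have e : β z (dl 1) - c z = (θ (dl 1) - c z) + ξ (x (dl 1)) := by
      rw [e2, _root_.add_apply, mul_ap]
      abel
    rw [e]
    refine (norm_add_le _ _).trans ?_
    nlinarith [mul_nonneg hM hδ.le]

end DenseP

theorem dense (hB : Bas) : DenseStmt :=
  ind (fun G _ => QF G ∧ Dense0 G) (fun G _ _ hG hn => ⟨qabel G hG hn, DenseP.abel hG hn⟩)
    (fun A B G _ _ _ c d f g h _ _ _ pA pB =>
      ⟨qamAll A B G c d f g h pA.1 pB.1, DenseP.amal hB h pA.1.1 pA.2 pB.2⟩)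
    fun A G _ _ c c' f t h _ _ pA =>
      ⟨qhxAll A G c c' f t h pA.1, DenseP.hnn hB h pA.1.1 pA.2⟩

end

end Pool.Agent.MP_494aff_an.Un

end MrgPart1

-- ======== part 2: formerly Pool.Agent.MP_494aff_an.fr.Quad
section MrgPart2

/-! Normal form of a quadratic relator. -/

namespace Pool.Agent.MP_494aff_an.Fr

open Pool.Agent.MP_494aff_an.Se Function

namespace Quad

set_option linter.unusedSectionVars false

variable {G Ω I : Type}

theorem first {A : List (Sym G I)} (h : lets A ≠ []) :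
    ∃ A1 y A2, A = A1 ++ Sum.inr y :: A2 ∧ lets A1 = [] := by
  induction A with
  | nil => exact absurd rfl h
  | cons a A ih =>
    rcases a with a | y
    · obtain ⟨A1, y, A2, rfl, h1⟩ := ih h
      exact ⟨Sum.inl a :: A1, y, A2, rfl, h1⟩
    · exact ⟨[], y, A, rfl, rfl⟩

theorem split {A : List (Sym G I)} {l : I} (h : l ∈ lets A) (f : Bool) :
    ∃ A1 A2, A = A1 ++ Sum.inr (l, f) :: A2 ∨ A = A1 ++ Sum.inr (l, !f) :: A2 := by
  obtain ⟨c, hc⟩ := mem_lets.1 h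
  obtain ⟨A1, A2, e⟩ := List.append_of_mem hc
  refine ⟨A1, A2, ?_⟩
  cases c <;> cases f <;> simp [e]

/-- The three shapes of a quadratic word. -/
def Shape (W : List (Sym G I)) : Prop :=
  (∃ U V Y x, W = U ++ Sum.inr x :: (V ++ Sum.inr x :: Y)) ∨
  (∃ U A Y x e, W = U ++ Sum.inr (x, e) :: (A ++ Sum.inr (x, !e) :: Y) ∧ lets A = []) ∨
  ∃ U V S Z Y a e b f, W = U ++ Sum.inr (a, e) :: (V ++ Sum.inr (b, f) ::
    (S ++ Sum.inr (a, !e) :: (Z ++ Sum.inr (b, !f) :: Y)))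

theorem shape [DecidableEq I] {W : List (Sym G I)} (h0 : lets W ≠ [])
    (h : ∀ l ∈ lets W, (lets W).count l = 2) : Shape W := by
  have key : ∀ n U A Y x e, A.length < n →
      W = U ++ Sum.inr (x, e) :: (A ++ Sum.inr (x, !e) :: Y) → Shape W := by
    intro n
    induction n with
    | zero => intro _ _ _ _ _ h; omega
    | succ n ih =>
      intro U A Y x e hn hW
      by_cases hA : lets A = []
      · exact Or.inr (Or.inl ⟨U, A, Y, x, e, hW, hA⟩)
      obtain ⟨A1, ⟨y, f⟩, A2, rfl, h1⟩ := first hA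
      have hy := h y (by simp [hW])
      have hx := h x (by simp [hW])
      have hne : x ≠ y := by
        rintro rfl
        simp [hW, List.count_append] at hx
        omega
      have : y ∈ lets U ∨ y ∈ lets A2 ∨ y ∈ lets Y := by
        simp only [← List.count_pos_iff]
        simp [hW, List.count_append, h1, hne] at hy
        omega
      rcases this with hm | hm | hm
      · obtain ⟨B1, B2, rfl | rfl⟩ := split hm f
        · exact Or.inl ⟨B1, B2 ++ Sum.inr (x, e) :: A1, A2 ++ Sum.inr (x, !e) :: Y, (y, f),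
            by simp [hW]⟩
        · exact Or.inr (Or.inr ⟨B1, B2, A1, A2, Y, y, !f, x, e, by simp [hW]⟩)
      · obtain ⟨B1, B2, rfl | rfl⟩ := split hm f
        · exact Or.inl ⟨U ++ Sum.inr (x, e) :: A1, B1, B2 ++ Sum.inr (x, !e) :: Y, (y, f),
            by simp [hW]⟩
        · exact ih (U ++ Sum.inr (x, e) :: A1) B1 (B2 ++ Sum.inr (x, !e) :: Y) y f
            (by simp at hn; omega) (by simp [hW])
      · obtain ⟨B1, B2, rfl | rfl⟩ := split hm f
        · exact Or.inl ⟨U ++ Sum.inr (x, e) :: A1, A2 ++ Sum.inr (x, !e) :: B1, B2, (y, f),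
            by simp [hW]⟩
        · exact Or.inr (Or.inr ⟨U, A1, A2, B1, B2, x, e, y, f, by simp [hW]⟩)
  obtain ⟨U, ⟨x, e⟩, R, rfl, h1⟩ := first h0
  have hx := h x (by simp)
  have : x ∈ lets R := by
    rw [← List.count_pos_iff]
    simp [h1] at hx
    omega
  obtain ⟨B1, B2, rfl | rfl⟩ := split this e
  · exact Or.inl ⟨U, B1, B2, (x, e), rfl⟩
  · exact key _ U B1 B2 x e (Nat.lt_succ_self _) rfl

variable [Group G] [DecidableEq I] {Φ : Frm G Ω I} {x p q b : I} {g : G} {X : Set I}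
  {C D D' : (I → I → G → F2) → (I → F2) → Prop} {P Q W W' : List (Sym G I)}
  {Bs : List (Bl G I)}

/-- New types and label for the letter `x`. -/
def rty (Φ : Frm G Ω I) (x p q : I) (g : G) : Frm G Ω I :=
  { Φ with s := update Φ.s x q, t := update Φ.t x p, γ := update Φ.γ x g }

theorem rty_fre {l p' q' : I} {g' : G} (hl : l ≠ x) (h : Φ.Fre l p' q' g') :
    (rty Φ x p q g).Fre l p' q' g' := by
  simpa [Frm.Fre, rty, hl] using h

theorem rty_new (h1 : x ∈ Φ.Ls) (h2 : x ∉ Φ.En) : (rty Φ x p q g).Fre x p q g := by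
  simp [Frm.Fre, rty, h1, h2]

theorem rty_ty {p' q' : I} (h : Φ.Ty p' W q') (hx : x ∉ lets W) :
    (rty Φ x p q g).Ty p' W q' ∧ (rty Φ x p q g).wlab W = Φ.wlab W :=
  h.transfer (fun _ h => h) (fun _ _ _ h => h) fun l hl =>
    rty_fre (fun e => hx (e ▸ hl)) ⟨(h.lets l hl).1, (h.lets l hl).2, rfl, rfl, rfl⟩

theorem rty_keep (hx : x ∉ X) : Φ.Keep (rty Φ x p q g) b X :=
  ⟨fun _ h => h, fun _ _ _ h => h, fun _ _ _ => rfl, fun _ _ _ _ _ _ h => h, fun _ _ _ h => h,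
    fun _ hl _ _ _ h => rty_fre (fun e => hx (e ▸ hl)) h⟩

theorem rty_ce {e : I} (he : e ≠ x) (a : G) : (rty Φ x p q g).Ce e a ↔ Φ.Ce e a := by
  simp [Frm.Ce, rty, he]

theorem rty_okc [MulAction G Ω] (h : Φ.Okc D) {e : Bool} (h1 : x ∈ Φ.Ls) (h2 : x ∉ Φ.En)
    (hP : Φ.Ty p P (Φ.lt (x, e))) (hQ : Φ.Ty (Φ.rt (x, e)) Q q) (nP : x ∉ lets P)
    (nQ : x ∉ lets Q) (hD : ∀ ψ u u', Φ.Sol ψ u → (∀ l ≠ x, u l = u' l) →
      u' x = wval ψ u P * val ψ u (Sum.inr (x, e)) * wval ψ u Q → D' ψ u' → D ψ u) :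
    (rty Φ x p q (Φ.wlab P * Φ.ll (x, e) * Φ.wlab Q)).Okc D' := by
  have hG := h.val.grp
  have ne : ∀ l ∈ Φ.En, l ≠ x := fun l hl e => h2 (e ▸ hl)
  have hT : Φ.Ty p (P ++ Sum.inr (x, e) :: Q) q := hP.append (Frm.Ty.ltr _ _ _ _ h1 h2 rfl hQ)
  refine ⟨⟨⟨hG.refl, hG.symm, hG.trans, hG.mem, hG.ne, fun l hl => ?_, hG.en, fun l hl =>
    ⟨(hG.ce l hl).1, (rty_ce (ne l hl) _).2 (hG.ce l hl).2⟩⟩, h.val.kE, h.val.iso, h.val.ab,
    fun l hl => ?_, fun v hv hk => ?_⟩, fun Y y1 y2 => h.gen Y y1 fun l hl a => ?_,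
    fun ψ u' hs hd => ?_⟩
  · by_cases hx : l = x
    · subst hx
      simpa [rty] using ⟨hQ.right, hP.left hG⟩
    · simpa [rty, hx] using hG.st l hl
  · simpa [rty, ne l hl] using h.val.kend l hl
  · obtain ⟨S, c0, c1, sl, H⟩ := h.val.pan v hv hk
    refine ⟨S, c0, c1, sl, H.m0, H.m1, H.nc, H.two, H.ab, H.grp, fun l hl l' hl' => ?_,
      fun l hl => ?_, fun l hl => ?_, fun l hl => ?_⟩
    · simpa only [rty, update_of_ne (ne l hl), update_of_ne (ne l' hl')] using H.inj l hl l' hl'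
    · simpa only [rty, update_of_ne (ne l hl)] using H.mem l hl
    · simpa only [rty, update_of_ne (ne l hl)] using H.le l hl
    · simpa only [rty, update_of_ne (ne l hl)] using H.inn l hl
  · have y3 : ∀ l ∈ Φ.Ls, l ≠ x → ∀ a, Y (Φ.s l) a ↔ Y (Φ.t l) (Φ.γ l * a) := fun l hl hx => by
      simpa [rty, hx] using y2 l hl
    by_cases hx : l = x
    · subst hx
      have a1 := hP.gen hG y1 fun l hl => y3 l (hP.lets l hl).1 fun e => nP (e ▸ hl)
      have a2 := hQ.gen hG y1 fun l hl => y3 l (hQ.lets l hl).1 fun e => nQ (e ▸ hl)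
      have a3 : ∀ a, Y (Φ.rt (l, e)) a ↔ Y (Φ.lt (l, e)) (Φ.ll (l, e) * a) := fun a => by
        have := y2 l hl ((Φ.wlab Q)⁻¹ * a)
        simp only [rty, update_self] at this
        rw [a2, mul_inv_cancel_left, mul_assoc, mul_inv_cancel_left, mul_assoc, ← a1] at this
        exact this
      cases e
      · simpa [Frm.rt, Frm.lt, Frm.ll] using (a3 (Φ.γ l * a)).symm
      · exact a3 a
    · exact y3 l hl hx a
  · let c := (wval ψ u' P)⁻¹ * u' x * (wval ψ u' Q)⁻¹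
    let u := update u' x (cond e c c⁻¹)
    have hu : ∀ l ≠ x, u l = u' l := fun l hl => update_of_ne hl _ _
    have hs' : Φ.Sol ψ u := ⟨hs.fn, fun l hl a ha => by
      simpa [rty, ne l hl, hu l (ne l hl)] using hs.sq l hl a ((rty_ce (ne l hl) a).2 ha)⟩
    have e1 : u' x = wval ψ u P * val ψ u (Sum.inr (x, e)) * wval ψ u Q := by
      rw [hP.val_congr (fun _ _ _ _ => rfl) fun l hl => hu l fun e => nP (e ▸ hl),
        hQ.val_congr (fun _ _ _ _ => rfl) fun l hl => hu l fun e => nQ (e ▸ hl)]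
      cases e <;> simp [val, u, c, mul_assoc]
    obtain ⟨Ψ, y, a1, a2⟩ := h.ext ψ u hs' (hD ψ u u' hs' hu e1 hd)
    refine ⟨Ψ, y, a1, fun l hl => ?_⟩
    by_cases hx : l = x
    · subst hx
      have := hT.std a1 fun l hl => a2 l (hT.lets l hl).1
      simp only [rty, update_self, e1]
      simpa [Frm.lab, mul_assoc] using this
    · simpa [rty, hx, hu l hx] using a2 l hl

/-- The state of the induction. -/
structure St [MulAction G Ω] (Φ : Frm G Ω I) (b : I) (Bs : List (Bl G I)) (W : List (Sym G I))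
    (X : Set I) (C : (I → I → G → F2) → (I → F2) → Prop) : Prop where
  ok : Φ.Okc fun ψ u => (Bs.map (Bl.val ψ u)).prod * wval ψ u W = 1 ∧ C ψ u
  dep : Φ.Dep X C
  kd : Φ.kd b = Kd.E
  triv : Φ.Triv b
  bt : ∀ B ∈ Bs, Φ.BT b B ∧ ¬ B.IsIn
  nodup : (Bs.flatMap Bl.lets).Nodup
  disj : ∀ l ∈ Bs.flatMap Bl.lets, l ∉ X
  lab : (Bs.map Bl.lab).prod * Φ.wlab W = 1
  ty : Φ.Ty b W b
  cn : Φ.Cn W
  two : ∀ l ∈ lets W, (lets W).count l = 2 ∧ l ∉ X ∧ l ∉ Bs.flatMap Bl.lets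

variable [MulAction G Ω]

theorem cn_winv (h : Φ.Val) (hW : Φ.Ty p W q) (hc : Φ.Cn W) : Φ.Cn (winv W) := by
  intro p' q' g' hm
  obtain ⟨a, ha, e⟩ := List.mem_map.1 (List.mem_reverse.1 hm)
  rcases a with ⟨a1, a2, a3⟩ | a
  · cases e
    rcases hc _ _ _ ha with h1 | ⟨h1, h2⟩
    · exact Or.inl (h.kE _ _ _ (hW.con_mem _ _ _ ha) h1).1
    · exact Or.inr ⟨h1.symm, by simp [h2]⟩
  · cases e

omit [DecidableEq I] [MulAction G Ω] in
theorem cn_const (hW : Φ.Ty p W q) (hc : Φ.Cn W) (h0 : lets W = []) :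
    Φ.wlab W = 1 ∨ Φ.kd p = Kd.E := by
  induction hW with
  | nil => exact Or.inl rfl
  | con p q _ g w _ _ ih =>
    rcases hc p q g List.mem_cons_self with h | ⟨rfl, rfl⟩
    · exact Or.inr h
    · simpa [Frm.lab] using ih (fun _ _ _ h => hc _ _ _ (List.mem_cons_of_mem _ h)) h0
  | ltr => simp at h0

/-- The old relator follows from the new one. -/
theorem St.back (h : St Φ b Bs W X C) {B : Bl G I} {ψ : I → I → G → F2} {u u' : I → F2}
    (hu : ∀ l ∉ B.lets, u l = u' l) (hB : ∀ l ∈ B.lets, l ∈ lets W)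
    (e : B.val ψ u' * wval ψ u' W' = wval ψ u W)
    (H : ((Bs ++ [B]).map (Bl.val ψ u')).prod * wval ψ u' W' = 1 ∧ C ψ u') :
    (Bs.map (Bl.val ψ u)).prod * wval ψ u W = 1 ∧ C ψ u := by
  refine ⟨?_, h.dep.2 ψ u' ψ u (fun _ _ _ _ => rfl)
    (fun l hl => (hu l fun a => (h.two l (hB l a)).2.1 hl).symm) H.2⟩
  rw [← H.1, ← e, List.map_congr_left fun B' hB' => Bl.val_congr (B := B') (ψ' := ψ) (u' := u')
    (fun _ _ _ _ _ _ => rfl) fun l hl => hu l fun a =>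
      (h.two l (hB l a)).2.2 (List.mem_flatMap.2 ⟨B', hB', hl⟩)]
  simp [mul_assoc]

theorem St.step (h : St Φ b Bs W X C) {Φ' : Frm G Ω I} {B : Bl G I}
    (k : Φ.Keep Φ' b {l | l ∉ B.lets}) (kb : Φ'.kd = Φ.kd) (kE : Φ'.E = Φ.E)
    (ok : Φ'.Okc fun ψ u => ((Bs ++ [B]).map (Bl.val ψ u)).prod * wval ψ u W' = 1 ∧ C ψ u)
    (bt : Φ'.BT b B) (nin : ¬ B.IsIn) (lab : B.lab * Φ.wlab W' = Φ.wlab W) (ty : Φ.Ty b W' b)
    (cn : Φ.Cn W') (pm : (lets W).Perm (B.lets ++ B.lets ++ lets W')) :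
    St Φ' b (Bs ++ [B]) W' X C ∧ Φ.Keep Φ' b X ∧ (lets W').length < (lets W).length := by
  have hB : ∀ l ∈ B.lets, l ∈ lets W := fun l hl => pm.mem_iff.2 (by simp [hl])
  have hW : ∀ l ∈ lets W', l ∈ lets W := fun l hl => pm.mem_iff.2 (by simp [hl])
  have hc : ∀ l ∈ B.lets, B.lets.count l = 1 ∧ l ∉ lets W' := fun l hl => by
    have h1 := (h.two l (hB l hl)).1
    have h2 := List.count_pos_iff.2 hl
    rw [pm.count_eq, List.count_append, List.count_append] at h1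
    exact ⟨by omega, List.count_eq_zero.1 (by omega)⟩
  have kX : Φ.Keep Φ' b X := ⟨k.vs, k.mono, k.kd, k.iso, k.triv,
    fun l hl => k.fre l fun a => (h.two l (hB l a)).2.1 hl⟩
  have hT := k.ty ty fun l hl a => (hc l a).2 hl
  refine ⟨⟨ok, kX.dep h.dep, kb ▸ h.kd, fun q g e => h.triv q g (kE ▸ e), fun B' hB' => ?_, ?_,
    fun l hl => ?_, ?_, hT.1, fun p q g e => kb ▸ cn p q g e, fun l hl => ?_⟩, kX, ?_⟩
  · rcases List.mem_append.1 hB' with a | a
    · exact ⟨k.bt h.ok.val.grp h.triv (h.bt B' a).1 fun l hl c =>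
        (h.two l (hB l c)).2.2 (List.mem_flatMap.2 ⟨B', a, hl⟩), (h.bt B' a).2⟩
    · rw [List.mem_singleton.1 a]; exact ⟨bt, nin⟩
  · rw [List.flatMap_append, List.flatMap_singleton]
    exact List.nodup_append.2 ⟨h.nodup, List.nodup_iff_count_eq_one.2 fun l hl => (hc l hl).1,
      fun l a l' c e => (h.two l' (hB l' c)).2.2 (e ▸ a)⟩
  · rw [List.flatMap_append, List.flatMap_singleton] at hl
    rcases List.mem_append.1 hl with a | a
    · exact h.disj l a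
    · exact (h.two l (hB l a)).2.1
  · rw [hT.2, ← h.lab, ← lab]; simp [mul_assoc]
  · have a := h.two l (hW l hl)
    have n : l ∉ B.lets := fun c => (hc l c).2 hl
    refine ⟨?_, a.2.1, by simpa [n] using a.2.2⟩
    have := a.1
    rwa [pm.count_eq, List.count_append, List.count_append, List.count_eq_zero.2 n,
      zero_add, zero_add] at this
  · rw [pm.length_eq]
    cases B <;> simp [Bl.lets] <;> omega

theorem St.next (h : St Φ b Bs W X C) (h0 : lets W ≠ []) : ∃ Φ' Bs' W', St Φ' b Bs' W' X C ∧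
    Φ.Keep Φ' b X ∧ (lets W').length < (lets W).length := by
  have hG := h.ok.val.grp
  have cn := h.cn
  rcases shape h0 fun l hl => (h.two l hl).1 with ⟨U, V, Y, ⟨x, e⟩, rfl⟩ |
    ⟨U, A, Y, x, e, rfl, hA⟩ | ⟨U, V, S, Z, Y, a, e, c, f, rfl⟩
  · obtain ⟨_, tU, t1⟩ := h.ty.split hG
    obtain ⟨x1, x2, rfl, t2⟩ := t1.of_ltr
    obtain ⟨_, tV, t3⟩ := t2.split hG
    obtain ⟨-, -, rfl, tY⟩ := t3.of_ltr
    have hx := (h.two x (by simp)).1
    simp [List.count_append] at hx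
    have n : x ∉ lets U ∧ x ∉ lets V ∧ x ∉ lets Y := by
      simp only [← List.count_eq_zero]; omega
    refine ⟨_, _, U ++ (winv V ++ Y), h.step (B := .cr x _) (rty_keep (by simp [Bl.lets])) rfl rfl
      (rty_okc h.ok x1 x2 tU (tV.append (tU.inv hG)) n.1 (by simp [lets_winv, n])
        fun ψ u u' hs hu e1 => h.back (fun l hl => hu l (by simpa [Bl.lets] using hl))
          (by simp [Bl.lets]) ?_) (rty_new x1 x2) (fun h => h) ?_
      (tU.append ((tV.inv hG).append tY)) (fun p q g hm => ?_) ?_⟩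
    · rw [← (tU.append ((tV.inv hG).append tY)).val_congr (fun _ _ _ _ => rfl) fun l hl => hu l
        (by rintro rfl; simp [lets_winv, n] at hl)]
      simp [Bl.val, e1, hs.winv hG tU, hs.winv hG tV, mul_assoc]
    · simp [Bl.lab, Frm.wlab_winv, Frm.lab, mul_assoc]
    · simp only [List.mem_append] at hm
      rcases hm with hm | hm | hm
      · exact cn p q g (by simp [hm])
      · exact cn_winv h.ok.val tV (fun p q g a => cn p q g (by simp [a])) p q g hm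
      · exact cn p q g (by simp [hm])
    · rw [List.perm_iff_count]
      intro l
      simp [List.count_append, List.count_cons, Bl.lets, lets_winv]
      omega
  · obtain ⟨_, tU, t1⟩ := h.ty.split hG
    obtain ⟨x1, x2, rfl, t2⟩ := t1.of_ltr
    obtain ⟨_, tA, t3⟩ := t2.split hG
    obtain ⟨-, -, rfl, tY⟩ := t3.of_ltr
    rw [Frm.lt_not] at tA
    rw [Frm.rt_not] at tY
    have hx := (h.two x (by simp)).1
    simp [List.count_append, hA] at hx
    have n : x ∉ lets U ∧ x ∉ lets Y := by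
      simp only [← List.count_eq_zero]; omega
    have cA := tA.const hG hA
    refine ⟨_, _, U ++ Y, h.step (B := .bd false x (Φ.rt (x, e)) _ (Φ.wlab A))
      (rty_keep (by simp [Bl.lets])) rfl rfl
      (rty_okc (e := !e) (P := []) h.ok x1 x2 (by rw [Frm.lt_not]; exact Frm.Ty.nil _ tA.right)
        (by rw [Frm.rt_not]; exact tU.inv hG) (by simp) (by simp [lets_winv, n])
        fun ψ u u' hs hu e1 => h.back (fun l hl => hu l (by simpa [Bl.lets] using hl))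
          (by simp [Bl.lets]) ?_) ⟨rty_new x1 x2, cA.1, fun _ => cn_const tA
            (fun p q g a => cn p q g (by simp [a])) hA, fun h => by cases h⟩
      (fun h => by cases h) ?_ (tU.append tY) (fun p q g hm => ?_) ?_⟩
    · rw [← (tU.append tY).val_congr (fun _ _ _ _ => rfl) fun l hl => hu l
        (by rintro rfl; simp [n] at hl)]
      cases e <;> simp [Bl.val, e1, hs.winv hG tU, cA.2 ψ u hs, val, mul_assoc]
    · cases e <;> simp [Bl.lab, Frm.wlab_winv, Frm.lab, Frm.ll, mul_assoc]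
    · rcases List.mem_append.1 hm with hm | hm <;> exact cn p q g (by simp [hm])
    · rw [List.perm_iff_count]
      intro l
      simp [List.count_append, List.count_cons, Bl.lets, hA]
      omega
  · obtain ⟨_, tU, t1⟩ := h.ty.split hG
    obtain ⟨a1, a2, rfl, t2⟩ := t1.of_ltr
    obtain ⟨_, tV, t3⟩ := t2.split hG
    obtain ⟨c1, c2, rfl, t4⟩ := t3.of_ltr
    obtain ⟨_, tS, t5⟩ := t4.split hG
    obtain ⟨-, -, rfl, t6⟩ := t5.of_ltr
    obtain ⟨_, tZ, t7⟩ := t6.split hG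
    obtain ⟨-, -, rfl, tY⟩ := t7.of_ltr
    rw [Frm.lt_not] at tS tZ
    rw [Frm.rt_not] at tZ tY
    have ha := (h.two a (by simp)).1
    have hc := (h.two c (by simp)).1
    have ne : c ≠ a := by
      rintro rfl
      simp [List.count_append] at ha
      omega
    simp [List.count_append, ne, ne.symm] at ha hc
    have na : a ∉ lets U ∧ a ∉ lets V ∧ a ∉ lets S ∧ a ∉ lets Z ∧ a ∉ lets Y := by
      simp only [← List.count_eq_zero]; omega
    have nc : c ∉ lets U ∧ c ∉ lets V ∧ c ∉ lets S ∧ c ∉ lets Z ∧ c ∉ lets Y := by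
      simp only [← List.count_eq_zero]; omega
    have q1 := (tS.inv hG).append ((tZ.inv hG).append (tU.inv hG))
    have p2 := tU.append (tZ.append (tS.append tV))
    have q2 := (tZ.inv hG).append (tU.inv hG)
    have o1 := rty_okc (D' := fun ψ u' => ∀ u, Φ.Sol ψ u → (∀ l ≠ a, u l = u' l) →
      u' a = wval ψ u U * val ψ u (Sum.inr (a, e)) * wval ψ u (winv S ++ (winv Z ++ winv U)) → _)
      h.ok a1 a2 tU q1 na.1 (by simp [lets_winv, na]) fun ψ u u' a1 a2 a3 H => H u a1 a2 a3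
    set Φ1 := rty Φ a b b (Φ.wlab U * Φ.ll (a, e) * Φ.wlab (winv S ++ (winv Z ++ winv U)))
    have p3 : Φ1.Ty _ _ _ ∧ _ := rty_ty p2 (by simp [na])
    have q3 : Φ1.Ty _ _ _ ∧ _ := rty_ty q2 (by simp [lets_winv, na])
    have e1 : Φ1.lt (c, f) = Φ.lt (c, f) ∧ Φ1.rt (c, f) = Φ.rt (c, f) ∧
        Φ1.ll (c, f) = Φ.ll (c, f) := by simp [Φ1, rty, Frm.lt, Frm.rt, Frm.ll, ne]
    have tW := tU.append (tZ.append (tS.append (tV.append tY)))
    refine ⟨_, _, U ++ (Z ++ (S ++ (V ++ Y))), h.step (B := .hd a c _ _)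
      ((rty_keep (by simp [Bl.lets])).trans (rty_keep (by simp [Bl.lets]))) rfl rfl
      (rty_okc (e := f) o1 c1 c2 (e1.1 ▸ p3.1) (e1.2.1 ▸ q3.1) (by simp [nc])
        (by simp [lets_winv, nc]) fun ψ u1 u2 _ hu2 e2 H u hs hu e3 => h.back
          (fun l hl => ?_) (by simp [Bl.lets]) ?_ H)
      ⟨rty_fre ne.symm (rty_new a1 a2), rty_new c1 c2⟩ (fun h => h) ?_ tW
      (fun p q g hm => cn p q g (by simp at hm ⊢; tauto)) ?_⟩
    · simp only [Bl.lets, List.mem_cons, List.not_mem_nil, or_false, not_or] at hl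
      exact (hu l hl.1).trans (hu2 l hl.2)
    · rw [← p2.val_congr (fun _ _ _ _ => rfl) fun l hl => hu l (by rintro rfl; simp [na] at hl),
        ← q2.val_congr (fun _ _ _ _ => rfl) fun l hl => hu l
          (by rintro rfl; simp [lets_winv, na] at hl)] at e2
      rw [← tW.val_congr (fun _ _ _ _ => rfl) fun l hl => (hu l
        (by rintro rfl; simp [na] at hl)).trans (hu2 l (by rintro rfl; simp [nc] at hl))]
      cases e <;> cases f <;> simp [Bl.val, e2, ← hu2 a ne.symm, e3, hs.winv hG tU,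
        hs.winv hG tS, hs.winv hG tZ, val, ← hu c ne, mul_assoc]
    · rw [p3.2, q3.2, e1.2.2]
      cases e <;> cases f <;> simp [Bl.lab, Frm.wlab_winv, Frm.lab, Frm.ll, mul_assoc]
    · rw [List.perm_iff_count]
      intro l
      simp [List.count_append, List.count_cons, Bl.lets]
      omega

theorem St.fin (h : St Φ b Bs W X C) : ∃ Φ' Bs', Φ'.Blk b Bs' X C ∧ Φ.Keep Φ' b X ∧
    ∀ B ∈ Bs', ¬ B.IsIn := by
  induction hn : (lets W).length using Nat.strong_induction_on generalizing Φ Bs W with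
  | _ n ih =>
    by_cases h0 : lets W = []
    · have hG := h.ok.val.grp
      obtain ⟨c1, c2⟩ := h.ty.const hG h0
      have e := (h.triv _ _ c1).2
      refine ⟨Φ, Bs, ⟨⟨h.ok.val, h.ok.gen, fun ψ u hs H => h.ok.ext ψ u hs ⟨?_, H.2⟩⟩, h.dep,
        h.ty.right, h.kd, h.triv, fun B a => (h.bt B a).1, h.nodup, h.disj, ?_⟩,
        Frm.Keep.refl _ _ _, fun B a => (h.bt B a).2⟩
      · rw [c2 ψ u hs, e, hs.one (e ▸ c1), H.1, mul_one]
      · simpa [e] using h.lab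
    · obtain ⟨Φ', Bs', W', h1, h2, h3⟩ := h.next h0
      obtain ⟨Φ'', Bs'', a1, a2, a3⟩ := ih _ (hn ▸ h3) h1 rfl
      exact ⟨Φ'', Bs'', a1, h2.trans a2, a3⟩

end Quad

open Quad in
theorem quad : QuadStmt := by
  intro G Ω I _ _ _ _ Φ r o X C h hd ht hl hc h2
  obtain ⟨b, hb⟩ := Infinite.exists_notMem_finset Φ.Vs
  obtain ⟨z, hz⟩ := Infinite.exists_notMem_finset Φ.Ls
  have hG := h.val.grp
  let Φ1 : Frm G Ω I := { Φ with
    Vs := insert b Φ.Vs, Ls := insert z Φ.Ls, s := update Φ.s z b, t := update Φ.t z o,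
    γ := update Φ.γ z 1, E := fun p q g => Φ.E p q g ∨ (p = b ∧ q = b ∧ g = 1),
    kd := update Φ.kd b Kd.E }
  have nv : ∀ p ∈ Φ.Vs, p ≠ b := fun p hp e => hb (e ▸ hp)
  have nl : ∀ l ∈ Φ.Ls, l ≠ z := fun l hl e => hz (e ▸ hl)
  have nE : ∀ p ∈ Φ.Vs, ∀ q g, Φ1.E p q g → Φ.E p q g := fun p hp q g e =>
    e.resolve_right fun a => nv p hp a.1
  have nb : ∀ q g, ¬ Φ.E b q g := fun q g e => hb (hG.mem _ _ _ e).1
  have nb' : ∀ q g, ¬ Φ.E q b g := fun q g e => hb (hG.mem _ _ _ e).2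
  have zE : z ∉ Φ.En := fun a => hz (hG.en a)
  have fre : ∀ l p q g, Φ.Fre l p q g → Φ1.Fre l p q g := fun l p q g a => by
    simpa [Frm.Fre, Φ1, nl l a.1] using a
  have ce : ∀ e ∈ Φ.En, ∀ a, Φ.Ce e a → Φ1.Ce e a := fun e he a H => by
    simpa only [Frm.Ce, Φ1, update_of_ne (nl e (hG.en he))] using
      ⟨Or.inl H.1, Or.inl H.2.1, H.2.2⟩
  have kd : ∀ p ∈ Φ.Vs, Φ1.kd p = Φ.kd p := fun p hp => update_of_ne (nv p hp) _ _
  have K : Φ.Keep Φ1 b X := ⟨Finset.subset_insert _ _, fun _ _ _ => Or.inl, fun p hp _ => kd p hp,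
    fun p hp _ _ => nE p hp, fun p hp _ a q g e => a q g (nE p hp q g e),
    fun l _ => fre l⟩
  have T := ht.transfer (Φ' := Φ1) K.vs K.mono fun l hl =>
    fre _ _ _ _ ⟨(ht.lets l hl).1, (ht.lets l hl).2, rfl, rfl, rfl⟩
  have hV : Φ1.Val := by
    refine ⟨⟨fun p hp => ?_, fun p q g e => ?_, fun p q r g g' e e' => ?_, fun p q g e => ?_,
      ⟨b, Finset.mem_insert_self _ _⟩, fun l hl => ?_, hG.en.trans (Finset.subset_insert _ _),
      fun e he => ⟨(hG.ce e he).1, ce e he _ (hG.ce e he).2⟩⟩, fun p q g e hk => ?_,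
      fun p q g e hk => ?_, fun p g g' hk e e' => ?_, fun e he => ?_, fun p hp hk => ?_⟩
    · rcases Finset.mem_insert.1 hp with rfl | hp
      · exact Or.inr ⟨rfl, rfl, rfl⟩
      · exact Or.inl (hG.refl p hp)
    · rcases e with e | ⟨rfl, rfl, rfl⟩
      · exact Or.inl (hG.symm _ _ _ e)
      · exact Or.inr ⟨rfl, rfl, inv_one⟩
    · rcases e with e | ⟨rfl, rfl, rfl⟩ <;> rcases e' with e' | ⟨a, rfl, rfl⟩
      · exact Or.inl (hG.trans _ _ _ _ _ e e')
      · exact absurd (a ▸ e) (nb' _ _)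
      · exact absurd e' (nb _ _)
      · exact Or.inr ⟨rfl, rfl, mul_one _⟩
    · rcases e with e | ⟨rfl, rfl, rfl⟩
      · exact ⟨K.vs (hG.mem _ _ _ e).1, K.vs (hG.mem _ _ _ e).2⟩
      · exact ⟨Finset.mem_insert_self _ _, Finset.mem_insert_self _ _⟩
    · rcases Finset.mem_insert.1 hl with rfl | hl
      · simp [Φ1, ht.right]
      · simp [Φ1, nl l hl, hG.st l hl]
    · rcases e with e | ⟨rfl, rfl, rfl⟩
      · rw [kd p (hG.mem _ _ _ e).1] at hk
        rw [kd q (hG.mem _ _ _ e).2]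
        exact h.val.kE _ _ _ e hk
      · exact ⟨hk, one_smul _ _⟩
    · rcases e with e | ⟨rfl, rfl, rfl⟩
      · exact h.val.iso _ _ _ e (kd p (hG.mem _ _ _ e).1 ▸ hk)
      · rfl
    · rcases e with e | ⟨rfl, -, rfl⟩
      · exact h.val.ab p g g' (kd p (hG.mem _ _ _ e).1 ▸ hk) e (nE p (hG.mem _ _ _ e).1 _ _ e')
      · simp
    · have := hG.st e (hG.en he)
      simpa [Φ1, nl e (hG.en he), nv _ this.1, nv _ this.2] using h.val.kend e he
    · rcases Finset.mem_insert.1 hp with rfl | hp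
      · simp [Φ1] at hk
      obtain ⟨S, c0, c1, sl, H⟩ := h.val.pan p hp (kd p hp ▸ hk)
      have ne : ∀ e ∈ Φ.En, e ≠ z := fun e he => nl e (hG.en he)
      refine ⟨S, c0, c1, sl, H.m0, H.m1, H.nc, H.two, H.ab, fun g => ⟨fun e => (H.grp g).1
        (nE p hp _ _ e), fun e => Or.inl ((H.grp g).2 e)⟩, fun l hl l' hl' => ?_,
        fun l hl => ?_, fun l hl a1 a a2 => Or.inl ?_, fun l hl a1 a2 => ?_⟩
      · simpa only [Φ1, update_of_ne (ne l hl), update_of_ne (ne l' hl')] using H.inj l hl l' hl'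
      · simpa only [Φ1, update_of_ne (ne l hl)] using H.mem l hl
      · simp only [Φ1, update_of_ne (ne l hl)] at a1 ⊢
        exact H.le l hl a1 a a2
      · have := (hG.st l (hG.en hl)).2
        simp only [Φ1, update_of_ne (ne l hl), update_of_ne (nv _ this)] at a1 ⊢
        exact ⟨(H.inn l hl a1 a2).1, fun y e => (H.inn l hl a1 a2).2 y (nE _ this _ _ e)⟩
  have zr : z ∉ lets r := fun a => hz (ht.lets z a).1
  have S : St Φ1 b [] (Sum.inr (z, false) :: (r ++ [Sum.inr (z, true)])) X C := by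
    refine ⟨⟨hV, fun Y y1 y2 => ?_, fun ψ u hs H => ?_⟩, K.dep hd, update_self .., fun q g e =>
      (e.resolve_left (nb _ _)).2, by simp, by simp, by simp, ?_, ?_, fun p q g hm => ?_,
      fun l hl => ?_⟩
    · have a := h.gen Y (fun p q g g' e => y1 p q g g' (Or.inl e)) fun l hl => by
        simpa [Φ1, nl l hl] using y2 l (Finset.mem_insert_of_mem hl)
      have a0 : ∀ g, Y b g ↔ Y o g := by simpa [Φ1] using y2 z (Finset.mem_insert_self _ _)
      intro p hp q hq g g'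
      rcases Finset.mem_insert.1 hp with e | hp <;> rcases Finset.mem_insert.1 hq with e' | hq
      · rw [e, e', a0, a0]; exact a _ ht.right _ ht.right _ _
      · rw [e, a0]; exact a _ ht.right _ hq _ _
      · rw [e', a0]; exact a _ hp _ ht.right _ _
      · exact a _ hp _ hq _ _
    · have hs' : Φ.Sol ψ u := ⟨fun p q r g g' e e' => hs.fn p q r g g' (Or.inl e) (Or.inl e'),
        fun e he a H => by simpa [Φ1, nl e (hG.en he)] using hs.sq e he a (ce e he a H)⟩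
      obtain ⟨Ψ, y, a1, a2⟩ := h.ext ψ u hs' ⟨by
        simpa [val, inv_mul_eq_one] using H.1, H.2⟩
      refine ⟨Ψ, update y b ((u z)⁻¹ * y o), fun p q g e => ?_, fun l hl => ?_⟩
      · rcases e with e | ⟨rfl, rfl, rfl⟩
        · rw [update_of_ne (nv _ (hG.mem _ _ _ e).1), update_of_ne (nv _ (hG.mem _ _ _ e).2)]
          exact a1 p q g e
        · simp [hs.one (Or.inr ⟨rfl, rfl, rfl⟩)]
      · rcases Finset.mem_insert.1 hl with rfl | hl
        · simp [Φ1, nv o ht.right]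
        · simpa [Φ1, nl l hl, nv _ (hG.st l hl).1, nv _ (hG.st l hl).2] using a2 l hl
    · simp [T.2, hl, Frm.lab, Frm.ll]
    · refine Frm.Ty.ltr _ _ _ _ (Finset.mem_insert_self _ _) zE (update_self ..) ?_
      rw [show Φ1.rt (z, false) = o from update_self ..]
      refine T.1.append (Frm.Ty.ltr _ _ _ _ (Finset.mem_insert_self _ _) zE (update_self ..) ?_)
      rw [show Φ1.rt (z, true) = b from update_self ..]
      exact Frm.Ty.nil _ (Finset.mem_insert_self _ _)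
    · have hm' : Sum.inl (p, q, g) ∈ r := by simpa using hm
      rw [kd p (hG.mem _ _ _ (ht.con_mem _ _ _ hm')).1]
      exact hc p q g hm'
    · by_cases e : l = z
      · subst e
        exact ⟨by simp [List.count_eq_zero.2 zr], fun a => hz (hd.1 l a).1, by simp⟩
      · have := h2 l (by simpa [e] using hl)
        exact ⟨by simpa [List.count_append, Ne.symm e] using this.1, this.2, by simp⟩
  obtain ⟨Φ', Bs, a1, a2, a3⟩ := S.fin
  exact ⟨Φ', b, Bs, hb, a1, K.trans a2, a3⟩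

end Pool.Agent.MP_494aff_an.Fr

end MrgPart2

-- marker of a merged file
example : 731051 + 452363 = 731051 + 452363 := rfl
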