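import Mathlib
import Pool.Agent.MP_494aff_an.un.Spec
import Pool.Agent.MP_494aff_an.se.Dim
import Pool.Agent.MP_494aff_an.se.PushA
import Pool.Agent.MP_494aff_an.lf.Ker
import Pool.Agent.MP_494aff_an.un.TK
import Pool.Agent.MP_494aff_an.fr.Quad
import Pool.Agent.MP_494aff_an.un.Arg
import Pool.Agent.MP_494aff_an.un.Van
import Pool.Agent.MP_494aff_an.fr.Pan
import Pool.Agent.MP_494aff_an.fr.StarP
import Pool.Agent.MP_494aff_an.un.Rigid
import Pool.Agent.MP_494aff_an.se.Ult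
import Pool.Agent.MP_494aff_an.fr.Pcut
import Pool.Agent.MP_494aff_an.fr.Qb
import Pool.Agent.MP_494aff_an.pinch.St2

-- ======== part 0: formerly Pool.Agent.MP_494aff_an.un.Stage
section MrgPart0

-- ======== part 0: formerly Pool.Agent.MP_494aff_an.un.AbsU
section MrgPart0

/-! Absorption of all letters. -/

open Monoid Filter Topology
open scoped InnerProductSpace ComplexConjugate

namespace Pool.Agent.MP_494aff_an.Un

open Pool.Agent.MP_494aff_an.Pinch Pool.Agent.MP_494aff_an.Pinch.TowP Pool.Agent.MP_494aff_an.Lf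

noncomputable section

namespace AbsUP

variable {G : Type} [Group G]

lemma inl_mem (C : Set ℕ) (g : G) : (Coprod.inl g : Gam G) ∈ sub G C :=
  Subgroup.mem_sup_left ⟨g, rfl⟩

lemma lt_fr {C : Set ℕ} {m : ℕ} (h : m ∈ C) : lt G m ∈ fr G C :=
  Subgroup.subset_closure ⟨m, h, rfl⟩

lemma lt_mem {C : Set ℕ} {m : ℕ} (h : m ∈ C) : lt G m ∈ sub G C :=
  Subgroup.mem_sup_right (lt_fr h)

lemma sub_empty : sub G ∅ = (Coprod.inl : G →* Gam G).range := by
  simp [sub, fr]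

lemma lt_inj : Function.Injective (lt G) :=
  Coprod.inr_injective.comp FreeGroup.of_injective

lemma mem_top (x : Gam G) :
    x ∈ Subgroup.closure (Set.range (Coprod.inl : G →* Gam G) ∪ Set.range (lt G)) := by
  induction x using Coprod.induction_on with
  | inl g => exact Subgroup.subset_closure (Or.inl ⟨g, rfl⟩)
  | inr w =>
    induction w using FreeGroup.induction_on with
    | C1 => rw [map_one]; exact one_mem _
    | of n => exact Subgroup.subset_closure (Or.inr ⟨n, rfl⟩)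
    | inv_of n h => rw [map_inv]; exact inv_mem h
    | mul x y hx hy => rw [map_mul]; exact mul_mem hx hy
  | mul x y hx hy => exact mul_mem hx hy

lemma n1_nonneg {Γ : Type} [Group Γ] (X : CA Γ) : 0 ≤ n1 X :=
  Finset.sum_nonneg fun _ _ => norm_nonneg _

lemma step {Γ : Type} [Group Γ] {α₁ α₂ : Γ →* Op Γ} {W : Op Γ} (h : Iso α₂ W) {x z : Γ}
    {η : H Γ} {a b : ℝ} (h1 : ‖α₁ x (dl 1) - dl z‖ ≤ a) (h2 : ‖α₂ z (dl 1) - η‖ ≤ b) :
    ‖W (α₁ x (dl 1)) - η‖ ≤ a + b := by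
  have e : W (α₁ x (dl 1)) - η = W (α₁ x (dl 1) - dl z) + (α₂ z (dl 1) - η) := by
    rw [map_sub, h.val]; abel
  rw [e]
  refine (norm_add_le _ _).trans ?_
  rw [h.norm]
  exact add_le_add h1 h2

lemma many (hB : Bas) (h1 : AbsOneStmt) (hG : Good G) (hN : NA G) (D : Finset ℕ) :
    ∀ (S : Finset G) (ε : ℝ), 0 < ε → ∃ α : Gam G →* Op (Gam G), Gen α ∧
      (∀ s ∈ S, ‖α (Coprod.inl s) (dl 1) - dl (Coprod.inl s)‖ ≤ ε) ∧
      ∀ m ∈ D, Near (Coprod.inl : G →* Gam G).range (α (lt G m) (dl 1)) ε := by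
  classical
  induction D using Finset.induction_on with
  | empty =>
    refine fun S ε hε => ⟨_, SimA.gen_lam (MulEquiv.refl _), fun s _ => ?_, fun m hm => ?_⟩
    · show ‖lam (Coprod.inl s : Gam G) (dl 1) - _‖ ≤ ε
      rw [lam_one, sub_self, norm_zero]; exact hε.le
    · exact absurd hm (Finset.notMem_empty m)
  | insert n D hn ih =>
    intro S ε hε
    obtain ⟨α₁, w, g1, a1, a2, a3⟩ := h1 G hG hN n D S (ε / 2) hn (half_pos hε)
    obtain ⟨α₂, g2, b1, b2⟩ := ih (insert w S) (ε / 2) (half_pos hε)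
    obtain ⟨W, hW⟩ := hB.near.iso _ α₂ g2
    obtain ⟨α, g3, hα⟩ := hB.near.comp _ α₁ α₂ W g1 hW
    refine ⟨α, g3, fun s hs => ?_, fun m hm => ?_⟩
    · rw [hα]
      exact (step hW (a1 s hs) (b1 s (Finset.mem_insert_of_mem hs))).trans (add_halves ε).le
    · rw [hα]
      rcases Finset.mem_insert.1 hm with rfl | hm
      · exact ⟨_, supp_dl ⟨w, rfl⟩,
          (step hW a3 (b1 w (Finset.mem_insert_self _ _))).trans (add_halves ε).le⟩
      · obtain ⟨η, c1, c2⟩ := b2 m hm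
        exact ⟨η, c1, (step hW (a2 m hm) c2).trans (add_halves ε).le⟩

end AbsUP

open AbsUP

theorem absOne (hB : Bas) (h0 : DenseStmt) (h1 : GFStmt) (h2 : ArgStmt) : AbsOneStmt := by
  classical
  intro G _ hG ⟨x₀, y₀, hxy⟩ n C S ε hn hε
  have := hG.cnt
  have : Countable (Gam G) := Coprod.mk_surjective.countable
  have hε3 : 0 < ε / 3 := by positivity
  obtain ⟨deg, hT⟩ := hB.gam.tri G C n hn
  obtain ⟨K, k1, k2, k3, k4⟩ := hG.cof ∅
    (Subgroup.closure ((insert x₀ (insert y₀ S)).image (Coprod.inl : G →* Gam G) : Finset (Gam G)))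
    ((Subgroup.closure_le _).2 fun z hz => by
      obtain ⟨g, -, rfl⟩ := Finset.mem_image.1 hz
      exact inl_mem _ g) ⟨_, rfl⟩
  rw [sub_empty] at k2
  have hK : ∀ g ∈ insert x₀ (insert y₀ S), (Coprod.inl g : Gam G) ∈ K := fun g hg =>
    k1 (Subgroup.subset_closure (Finset.mem_image_of_mem _ hg))
  have hKA : ∀ D : Set ℕ, K ≤ sub G D := fun D => k2.trans le_sup_left
  obtain ⟨c, -, hc⟩ := h2 (ε / 3) hε3
  obtain ⟨X, x1, x2, x3, -⟩ := hc (Gam G) (Subgroup.zpowers (lt G n)) deg (lam (lt G n)) 1 1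
    (SimA.UL_lam _) (by rw [lam_one]; exact supp_dl ⟨Subgroup.mem_zpowers _, hT.dy⟩) one_pos
  have hCT : CT K := ct_of_inj K.subtype_injective hG.ct
  have hNA : NA K := ⟨⟨_, hK x₀ (by simp)⟩, ⟨_, hK y₀ (by simp)⟩, fun e => hxy
    (Coprod.inl_injective (N := FreeGroup ℕ) (by
      rw [map_mul, map_mul]; exact congrArg Subtype.val e))⟩
  have hn1 := n1_nonneg X
  have hδ : 0 < ε / 3 / (n1 X + 1) := by positivity
  have hδ' : n1 X * (ε / 3 / (n1 X + 1)) ≤ ε / 3 := by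
    rw [mul_div_assoc', div_le_iff₀ (by positivity)]
    nlinarith
  obtain ⟨β, w, b1, b2, b3, b4⟩ := afAll K hCT ((h0 K k4 hCT).1.2 hNA) (Gam G) (fun _ => 0)
    K.subtype K.subtype_injective
    ((S.image (Coprod.inl : G →* Gam G)).preimage Subtype.val Subtype.val_injective.injOn) _ hδ
  rw [Subgroup.range_subtype] at b2
  obtain ⟨b, hb⟩ : ∃ b : Gam G → H (Gam G), ∀ x : K, b x = β x (dl 1) :=
    ⟨fun x => if h : x ∈ K then β ⟨x, h⟩ (dl 1) else 0, fun x => dif_pos x.2⟩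
  have hX : Supp {h | deg h ≠ 1} (hat X) := x2.mono fun _ h => h.2
  obtain ⟨d1, -, d3, -⟩ := hB.ad _ _ _ X (hB.cp.tri _ _ _ _ _ hT) hX
  have hd : ∀ ξ : H (Gam G), ‖ξ‖ ≤ ε / 3 / (n1 X + 1) →
      ‖adH (sub G (insert n (C : Set ℕ))ᶜ) X ξ‖ ≤ ε / 3 := fun ξ h =>
    ((ContinuousLinearMap.le_opNorm _ _).trans
      (mul_le_mul d3 h (norm_nonneg _) hn1)).trans hδ'
  obtain ⟨α, a1, a2, a3⟩ := h1 (Gam G) _ _ _ deg K ⊥ X b hT hG.ct
    ⟨C.image (lt G), by rw [Finset.coe_image]; rfl⟩ (hG.cof _) (hKA _) k3 bot_le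
    (fun x hx x' _ => by rw [Subgroup.mem_bot.1 hx, one_mul, mul_one])
    (fun x hx y hy => by
      have := hb (⟨x, hx⟩ * ⟨y, hy⟩)
      rw [b1, _root_.add_apply, mul_ap, ← hb, ← hb] at this
      exact this)
    (fun x hx => by
      have := AFP.rv_an (b2 ⟨x, hx⟩) (dl 1)
      rw [AFP.rv_dl (one_mem K), ← hb] at this
      exact this)
    (fun x hx => by
      have := hb 1
      rw [b1.one] at this
      rw [Subgroup.mem_bot.1 hx]
      exact this)
    x1 (x2.mono fun _ h => ⟨Subgroup.mem_sup_right h.1, h.2⟩)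
    (insert (w : Gam G) (S.image (Coprod.inl : G →* Gam G)))
    (fun s hs => by
      rcases Finset.mem_insert.1 hs with rfl | hs
      · exact w.2
      · obtain ⟨g, hg, rfl⟩ := Finset.mem_image.1 hs
        exact hK g (Finset.mem_insert_of_mem (Finset.mem_insert_of_mem hg))) _ hε3
  obtain ⟨w₀, hw⟩ := k2 w.2
  obtain ⟨σ, s1, s2⟩ := hB.gam.sigma G n (w : Gam G)⁻¹ 1 (inv_mem (hKA _ w.2)) (one_mem _)
  refine ⟨α.comp σ.toMonoidHom, w₀⁻¹, AbsP.gen_comp a1 _ σ.injective σ.surjective,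
    fun s hs => ?_, fun m hm => ?_, ?_⟩
  · show ‖α (σ _) (dl 1) - _‖ ≤ ε
    rw [s1 _ (inl_mem _ s)]
    have e1 := (a3 _ (Finset.mem_insert_of_mem (Finset.mem_image_of_mem _ hs))).1
    have e2 := b3 ⟨_, hK s (Finset.mem_insert_of_mem (Finset.mem_insert_of_mem hs))⟩
      (Finset.mem_preimage.2 (Finset.mem_image_of_mem _ hs))
    rw [← hb] at e2
    have e3 := hd _ e2
    linarith
  · show ‖α (σ _) (dl 1) - _‖ ≤ ε
    rw [s1 _ (lt_mem fun e : m = n => hn (e ▸ hm)),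
      a2 _ (Subgroup.mem_sup_left (Subgroup.mem_sup_right (lt_fr hm))), lam_one, sub_self,
      norm_zero]
    exact hε.le
  · show ‖α (σ _) (dl 1) - _‖ ≤ ε
    have e1 := (a3 _ (Finset.mem_insert_self _ _)).2
    have e2 := hd _ b4
    rw [← hb, map_sub, d1 1 (one_mem _), map_one, one_ap] at e2
    have hZ : NormedSpace.exp (Complex.I • op X) ∈ LL (Gam G) := mem_LL.2 fun x =>
      (Commute.exp_right (show Commute (rho x) (Complex.I • op X) from
        mem_LL.1 (SMulMemClass.smul_mem _ (op_mem X)) x)).eq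
    have e3 : ‖NormedSpace.exp (Complex.I • op X) (dl (w : Gam G)) - dl (lt G n * w)‖ ≤ ε / 3 := by
      rw [LL_dl hZ, ← lam_dl, LL_dl (lam_mem _) (w : Gam G), ← map_sub, rho_norm]
      exact x3
    have e4 : ‖(α w - lam (lt G n * w)) (dl 1)‖ ≤ ε := by
      rw [_root_.sub_apply, lam_one]
      have := norm_sub_le_norm_sub_add_norm_sub (α w (dl 1))
        (NormedSpace.exp (Complex.I • op X) (dl (w : Gam G))) (dl (lt G n * w))
      linarith
    have hm := sub_mem (a1.mem w) (lam_mem (lt G n * w))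
    have e5 := norm_mul_hat (star_mem hm) (lam_mem (lt G n))
    rw [norm_star_hat hm, star_sub, a1.star_eq, star_lam, _root_.sub_apply, lam_one,
      lam_dl] at e5
    rw [s2, mul_one, map_mul, mul_ap, a2 _ (Subgroup.mem_sup_right (Subgroup.mem_zpowers _)),
      lam_one, map_inv (Coprod.inl : G →* Gam G), hw]
    rw [mul_inv_rev, inv_mul_cancel_right] at e5
    exact e5.trans ((mul_le_of_le_one_right (norm_nonneg _) (opNorm_lam _)).trans e4)

theorem absAll (hB : Bas) (h1 : AbsOneStmt) (h2 : Int2Stmt) : AbsAllStmt := by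
  classical
  intro G _ hG hN
  have := hG.cnt
  have : Countable (Gam G) := Coprod.mk_surjective.countable
  refine h2 G (Gam G) Coprod.inl Coprod.inl_injective fun E F η hη => ?_
  obtain ⟨T₀, δ, t1, hδ, t2⟩ := hB.near.word _ _ F η (fun z _ => mem_top z) hη
  obtain ⟨α, a1, a2, a3⟩ := many hB h1 hG hN (T₀.preimage (lt G) lt_inj.injOn)
    (E ∪ T₀.preimage (Coprod.inl : G →* Gam G) Coprod.inl_injective.injOn) _ (lt_min hδ hη)
  refine ⟨α, a1, fun g hg => (a2 g (Finset.mem_union_left _ hg)).trans (min_le_right _ _),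
    (t2 α a1).1 _ fun x hx => ?_⟩
  rcases t1 x hx with ⟨g, rfl⟩ | ⟨m, rfl⟩
  · exact ⟨_, supp_dl ⟨g, rfl⟩,
      (a2 g (Finset.mem_union_right _ (Finset.mem_preimage.2 hx))).trans (min_le_left _ _)⟩
  · obtain ⟨ζ, c1, c2⟩ := a3 m (Finset.mem_preimage.2 hx)
    exact ⟨ζ, c1, c2.trans (min_le_left _ _)⟩

end

end Pool.Agent.MP_494aff_an.Un

end MrgPart0

-- ======== part 1: formerly Pool.Agent.MP_494aff_an.un.F4
section MrgPart1

/-! The derivation attached to a cocycle and a polynomial. -/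

open Monoid Filter Topology
open scoped InnerProductSpace ComplexConjugate

namespace Pool.Agent.MP_494aff_an.Un

open Pool.Agent.MP_494aff_an.Pinch Pool.Agent.MP_494aff_an.Pinch.TowP Pool.Agent.MP_494aff_an.Lf

noncomputable section

namespace F4P

section FB

variable {Λ : Type} {ℓ : Λ → ℕ} {a₀ : ℝ}

lemma fb_sum {ι : Type} (s : Finset ι) (c : ι → ℂ) (k : ι → Λ → Λ → ℂ)
    (h : ∀ i ∈ s, ∃ C, FB ℓ (k i) a₀ C) :
    ∃ C, FB ℓ (fun x y => ∑ i ∈ s, c i * k i x y) a₀ C := by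
  choose! C hC using h
  refine ⟨∑ i ∈ s, ‖c i‖ * C i, fun a h0 h1 F ξ η => ?_⟩
  have e : ∑ x ∈ F, ∑ y ∈ F, conj (η y) * (Real.exp (a * ((ℓ y : ℝ) - ℓ x)) : ℂ) *
        (∑ i ∈ s, c i * k i x y) * ξ x =
      ∑ i ∈ s, c i * ∑ x ∈ F, ∑ y ∈ F,
        conj (η y) * (Real.exp (a * ((ℓ y : ℝ) - ℓ x)) : ℂ) * k i x y * ξ x := by
    simp only [Finset.mul_sum, Finset.sum_mul]
    rw [Finset.sum_comm (s := s)]
    refine Finset.sum_congr rfl fun x _ => ?_
    rw [Finset.sum_comm (s := s)]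
    refine Finset.sum_congr rfl fun y _ => Finset.sum_congr rfl fun i _ => by ring
  rw [e, Finset.sum_mul, Finset.sum_mul]
  refine norm_sum_le_of_le _ fun i hi => ?_
  rw [norm_mul, mul_assoc, mul_assoc, ← mul_assoc (C i)]
  exact mul_le_mul_of_nonneg_left (hC i hi a h0 h1 F ξ η) (norm_nonneg _)

end FB

section Sum

variable {Λ : Type}

/-- The sum of a function over a set. -/
def sm (A : Set Λ) (ξ : Λ → ℂ) : ℂ := ∑' z, A.indicator ξ z

lemma hs_congr {f g : Λ → ℂ} {a : ℂ} (h : HasSum f a) (e : ∀ z, g z = f z) : HasSum g a :=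
  (funext e : g = f) ▸ h

lemma hs {A : Set Λ} {ξ : Λ → ℂ} (F : Finset Λ) (h : ∀ z, z ∈ F ↔ z ∈ A ∧ ξ z ≠ 0) :
    HasSum (A.indicator ξ) (∑ z ∈ F, ξ z) := by
  have : ∑ z ∈ F, ξ z = ∑ z ∈ F, A.indicator ξ z :=
    Finset.sum_congr rfl fun z hz => (Set.indicator_of_mem ((h z).1 hz).1 _).symm
  rw [this]
  refine hasSum_sum_of_ne_finset_zero fun z hz => ?_
  by_contra hn
  exact hz ((h z).2 ⟨Set.mem_of_indicator_ne_zero hn, fun e => hn (by simp [Set.indicator, e])⟩)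

lemma sm_eq {A : Set Λ} {ξ : Λ → ℂ} (F : Finset Λ) (h : ∀ z, z ∈ F ↔ z ∈ A ∧ ξ z ≠ 0) :
    sm A ξ = ∑ z ∈ F, ξ z := (hs F h).tsum_eq

lemma hs' {A : Set Λ} {ξ : Λ → ℂ} (h : {z | z ∈ A ∧ ξ z ≠ 0}.Finite) :
    HasSum (A.indicator ξ) (sm A ξ) :=
  (hs h.toFinset fun _ => h.mem_toFinset).summable.hasSum

variable [Group Λ] {B : Λ → H Λ}

lemma cz_one (hB : Cz (MonoidHom.id Λ) B) : B 1 = 0 := by
  have := hB 1 1
  rw [mul_one, map_one, map_one, one_ap] at this
  exact left_eq_add.1 this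

/-- The kernel of a cocycle. -/
def ker (hB : Cz (MonoidHom.id Λ) B) : Subgroup Λ where
  carrier := {x | B x = 0}
  one_mem' := cz_one hB
  mul_mem' := fun {x y} hx hy => by
    show B (x * y) = 0
    rw [hB, show B x = 0 from hx, show B y = 0 from hy, map_zero, add_zero]
  inv_mem' := fun {x} hx => by
    have := hB x⁻¹ x
    rw [inv_mul_cancel, cz_one hB, show B x = 0 from hx, map_zero, add_zero] at this
    exact this.symm

lemma cz_ap (hB : Cz (MonoidHom.id Λ) B) (x y z : Λ) :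
    B (x * y) z = B x z + B y (x⁻¹ * z) := by
  rw [hB, lp.coeFn_add, Pi.add_apply, lam_coef]
  rfl

lemma sm_inv (hB : Cz (MonoidHom.id Λ) B) {A : Set Λ}
    (hA : ∀ x, {z | z ∈ A ∧ B x z ≠ 0}.Finite) {g z₀ h : Λ} (hg : g * z₀ = z₀ * h)
    (hh : B h = 0) (hi : ∀ z, g * z ∈ A ↔ z ∈ A) (x : Λ) : sm A (B (g * x)) = sm A (B x) := by
  have t : ∀ x, HasSum (A.indicator fun z => B x (g⁻¹ * z)) (sm A (B x)) := fun x => by
    rw [← (Equiv.mulLeft g).hasSum_iff]
    convert hs' (hA x) using 1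
    funext z
    by_cases hz : z ∈ A
    · simp [Set.indicator_of_mem hz, Set.indicator_of_mem ((hi z).2 hz)]
    · simp [Set.indicator_of_notMem hz, Set.indicator_of_notMem (mt (hi z).1 hz)]
  have e : ∀ z, B (g * x) z = B z₀ z - B z₀ (g⁻¹ * z) + B x (g⁻¹ * z) := fun z => by
    have e1 := cz_ap hB g z₀ z
    rw [hg, cz_ap hB, hh] at e1
    rw [cz_ap hB]
    simp only [lp.coeFn_zero, Pi.zero_apply, add_zero] at e1
    rw [e1]
    ring
  have := ((hs' (hA z₀)).sub (t z₀)).add (t x)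
  rw [sub_self, zero_add] at this
  refine HasSum.tsum_eq (hs_congr this fun z => ?_)
  by_cases hz : z ∈ A
  · simp only [Set.indicator_of_mem hz, e]
  · simp only [Set.indicator_of_notMem hz, sub_self, add_zero]

/-- The elements that conjugate `h` to `v`. -/
def cA (h v : Λ) : Set Λ := {z | z * h * z⁻¹ = v}

/-- A coset as a set. -/
def cQ (h : Λ) (q : Λ ⧸ Subgroup.zpowers h) : Set Λ := {z | (z : Λ ⧸ Subgroup.zpowers h) = q}

lemma conj_eq {h z z' : Λ} (e : (z : Λ ⧸ Subgroup.zpowers h) = z') :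
    z * h * z⁻¹ = z' * h * z'⁻¹ := by
  obtain ⟨k, hk⟩ := QuotientGroup.eq.1 e
  have : z' = z * h ^ k := by
    rw [show h ^ k = z⁻¹ * z' from hk, mul_inv_cancel_left]
  rw [this]
  group

lemma cQ_sub {h : Λ} {q : Λ ⧸ Subgroup.zpowers h} {z : Λ} (hz : z ∈ cQ h q) :
    z ∈ cA h (q.out * h * q.out⁻¹) :=
  conj_eq (hz.trans (QuotientGroup.out_eq' q).symm)

lemma fin_cA {R : Subgroup Λ} {N : Set Λ} (hD : Dg R N) {h : Λ} (hh : h ∈ N) (v : Λ)
    {ξ : Λ → ℂ} {P : Finset Λ} (hP : ∀ z, ξ z ≠ 0 → ∃ p ∈ P, p⁻¹ * z ∈ R) :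
    {z | z ∈ cA h v ∧ ξ z ≠ 0}.Finite := by
  refine (P.finite_toSet.biUnion (t := fun p => {z | z ∈ cA h v ∧ p⁻¹ * z ∈ R})
    fun p _ => Set.Subsingleton.finite ?_).subset ?_
  · rintro z ⟨h1, h2⟩ z' ⟨h3, h4⟩
    have m : z⁻¹ * z' ∈ R := by simpa [mul_assoc] using mul_mem (inv_mem h2) h4
    refine inv_mul_eq_one.1 (hD.free _ m h hh ?_)
    have : z * h * z⁻¹ = z' * h * z'⁻¹ := h1.trans h3.symm
    calc z⁻¹ * z' * h = z⁻¹ * (z' * h * z'⁻¹) * z' := by group
      _ = h * (z⁻¹ * z') := by rw [← this]; group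
  · rintro z ⟨h1, h2⟩
    obtain ⟨p, hp, hz⟩ := hP z h2
    exact Set.mem_biUnion hp ⟨h1, hz⟩

/-- The form bound for one word. -/
lemma one_word (h3 : Form4Stmt) (hB : Cz (MonoidHom.id Λ) B) (hre : ∀ x z, (B x z).im = 0)
    {ℓ : Λ → ℕ} (hℓ : ∀ x y, ℓ (x * y) ≤ ℓ x + ℓ y) {h : Λ} (hh : B h = 0)
    (hA : ∀ v x, {z | z ∈ cA h v ∧ B x z ≠ 0}.Finite)
    (h2 : ∀ x z₀ : Λ, ∃ f : Λ → Prop, ∀ z z', z₀⁻¹ * z ∈ Subgroup.zpowers h →
      z₀⁻¹ * z' ∈ Subgroup.zpowers h → B x z ≠ 0 → B x z' ≠ 0 → f z = f z' → z = z')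
    {nd : Λ → Λ ⧸ Subgroup.zpowers h → Prop} {c₀ : ℕ}
    (n1 : ∀ z x : Λ, nd x z ∨ nd (z * h * z⁻¹ * x) z)
    (n2 : ∀ x (Z : Finset (Λ ⧸ Subgroup.zpowers h)), (∀ q ∈ Z, nd x q) → Z.card ≤ ℓ x)
    (n3 : ∀ x q, nd x q → ∃ z : Λ, (z : Λ ⧸ Subgroup.zpowers h) = q ∧
      ℓ z + ℓ (z⁻¹ * x) ≤ ℓ x + c₀)
    {a₀ C : ℝ} (ha : 0 ≤ a₀) (hC : 0 ≤ C)
    (loc : ∀ x (Z : Finset Λ),
      ∑ z ∈ Z, ‖B x z‖ ^ 2 * Real.exp (2 * a₀ * ((ℓ z : ℝ) + ℓ (z⁻¹ * x) - ℓ x)) ≤
        C * (1 + ℓ x)) :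
    ∃ C', FB ℓ (fun x y => sm (cA h (y * x⁻¹)) (B x)) a₀ C' := by
  classical
  have hQ : ∀ q x, {z | z ∈ cQ h q ∧ B x z ≠ 0}.Finite := fun q x =>
    (hA _ x).subset fun z hz => ⟨cQ_sub hz.1, hz.2⟩
  have hn : ∀ q x, |(sm (cQ h q) (B x)).re| = ‖sm (cQ h q) (B x)‖ := fun q x => by
    rw [Complex.abs_re_eq_norm, sm_eq _ fun _ => (hQ q x).mem_toFinset, Complex.im_sum]
    exact Finset.sum_eq_zero fun z _ => hre x z
  refine h3 Λ ℓ h (fun x q => (sm (cQ h q) (B x)).re) nd _ c₀ a₀ (2 * C) ha (by positivity) hℓ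
    (fun z x => ?_) n1 n2 n3 (fun x => ?_) fun x y => ?_
  · refine congrArg Complex.re (sm_inv hB (hQ z) (z₀ := z) (h := h) (by group) hh (fun w => ?_) x)
    show ((z * h * z⁻¹ * w : Λ) : Λ ⧸ Subgroup.zpowers h) = z ↔ (w : Λ ⧸ Subgroup.zpowers h) = z
    rw [QuotientGroup.eq, QuotientGroup.eq,
      show (z * h * z⁻¹ * w)⁻¹ * z = w⁻¹ * z * h⁻¹ by group]
    exact Subgroup.mul_mem_cancel_right _ (inv_mem (Subgroup.mem_zpowers h))
  · have ne : ∀ q, (cQ h q).Nonempty := fun q => ⟨q.out, QuotientGroup.out_eq' q⟩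
    let w : Λ → ℕ := fun z => ℓ z + ℓ (z⁻¹ * x)
    refine ⟨fun q => Function.argminOn w _ (ne q), fun q => Function.argminOn_mem w _ (ne q),
      fun Z => ?_⟩
    let F : Λ ⧸ Subgroup.zpowers h → Finset Λ := fun q => (hQ q x).toFinset
    have mF : ∀ q z, z ∈ F q ↔ z ∈ cQ h q ∧ B x z ≠ 0 := fun q z => (hQ q x).mem_toFinset
    have cF : ∀ q, ((F q).card : ℝ) ≤ 2 := fun q => by
      obtain ⟨f, hf⟩ := h2 x q.out
      have m : ∀ z ∈ F q, q.out⁻¹ * z ∈ Subgroup.zpowers h := fun z hz =>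
        QuotientGroup.eq.1 ((QuotientGroup.out_eq' q).trans ((mF q z).1 hz).1.symm)
      have := Finset.card_le_card_of_injOn (s := F q) (t := Finset.univ) f
        (fun _ _ => Finset.mem_univ _) fun z hz z' hz' e =>
          hf z z' (m z hz) (m z' hz') ((mF q z).1 hz).2 ((mF q z').1 hz').2 e
      rw [Finset.card_univ, Fintype.card_prop] at this
      exact_mod_cast this
    have dj : (Z : Set (Λ ⧸ Subgroup.zpowers h)).PairwiseDisjoint F := fun q _ q' _ hq =>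
      Finset.disjoint_left.2 fun z hz hz' => hq (((mF q z).1 hz).1.symm.trans ((mF q' z).1 hz').1)
    refine le_trans ?_ ((mul_le_mul_of_nonneg_left (loc x (Z.biUnion F)) zero_le_two).trans
      (mul_assoc _ _ _).ge)
    rw [Finset.sum_biUnion dj, Finset.mul_sum]
    refine Finset.sum_le_sum fun q _ => ?_
    have e1 : (sm (cQ h q) (B x)).re ^ 2 ≤ 2 * ∑ z ∈ F q, ‖B x z‖ ^ 2 := by
      rw [← sq_abs, hn, sm_eq (F q) (mF q)]
      calc ‖∑ z ∈ F q, B x z‖ ^ 2 ≤ (∑ z ∈ F q, ‖B x z‖) ^ 2 := by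
            gcongr
            exact norm_sum_le _ _
        _ ≤ (F q).card * ∑ z ∈ F q, ‖B x z‖ ^ 2 := sq_sum_le_card_mul_sum_sq
        _ ≤ _ := by
            gcongr
            exact cF q
    refine (mul_le_mul_of_nonneg_right e1 (Real.exp_pos _).le).trans ?_
    rw [mul_assoc, Finset.sum_mul]
    refine mul_le_mul_of_nonneg_left (Finset.sum_le_sum fun z hz => ?_) zero_le_two
    have : ((w (Function.argminOn w _ (ne q)) : ℕ) : ℝ) ≤ w z := by
      exact_mod_cast Function.argminOn_le w _ ((mF q z).1 hz).1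
    simp only [w, Nat.cast_add] at this
    gcongr
  · let F := (hA (y * x⁻¹) x).toFinset
    have mF : ∀ z, z ∈ F ↔ z ∈ cA h (y * x⁻¹) ∧ B x z ≠ 0 := fun z => (hA _ x).mem_toFinset
    refine ⟨F.image QuotientGroup.mk, fun q hq => ?_, ?_⟩
    · obtain ⟨z, hz, rfl⟩ := Finset.mem_image.1 hq
      rw [conj_eq (QuotientGroup.out_eq' _), show z * h * z⁻¹ = y * x⁻¹ from ((mF z).1 hz).1,
        inv_mul_cancel_right]
    · rw [sm_eq F mF, ← Finset.sum_fiberwise_of_maps_to (t := F.image QuotientGroup.mk)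
        (g := (QuotientGroup.mk : Λ → Λ ⧸ Subgroup.zpowers h))
        fun z hz => Finset.mem_image_of_mem _ hz]
      refine norm_sum_le_of_le _ fun q hq => le_of_eq ?_
      obtain ⟨z, hz, rfl⟩ := Finset.mem_image.1 hq
      rw [hn, sm_eq]
      intro w
      rw [Finset.mem_filter, mF]
      exact ⟨fun k => ⟨k.2, k.1.2⟩, fun k => ⟨⟨(conj_eq k.1).trans ((mF z).1 hz).1, k.2⟩, k.1⟩⟩

end Sum

variable {G : Type} [Group G]

lemma cj_coef {Λ : Type} [Group Λ] (x : Λ) (ξ : H Λ) (v : Λ) : cj x ξ v = ξ (x⁻¹ * v * x) := by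
  show lam x (rho x ξ) v = _
  rw [lam_coef, rho_coef]

/-- Extension of a cocycle for the conjugation action. -/
lemma exists_D (a : G → H (FZ G))
    (ha : ∀ g g', a (g * g') = a g + cj (Coprod.inl g : FZ G) (a g')) :
    ∃ D : FZ G → H (FZ G), (∀ x z, D (x * z) = D x + cj x (D z)) ∧
      (∀ g, D (Coprod.inl g) = a g) ∧ ∀ n, D (Coprod.inr n) = 0 := by
  have a1 : a 1 = 0 := by
    have := ha 1 1
    rw [mul_one, map_one, map_one, one_ap] at this
    exact left_eq_add.1 this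
  let f : G →* Function.End (H (FZ G)) :=
    { toFun := fun g ξ => a g + cj (Coprod.inl g : FZ G) ξ
      map_one' := funext fun ξ => by
        rw [a1, map_one, map_one, zero_add]
        rfl
      map_mul' := fun g g' => funext fun ξ => by
        show _ = a g + cj (Coprod.inl g : FZ G) (a g' + cj (Coprod.inl g' : FZ G) ξ)
        rw [ha, map_mul, map_mul, mul_ap, map_add, add_assoc] }
  let f' : Multiplicative ℤ →* Function.End (H (FZ G)) :=
    { toFun := fun n ξ => cj (Coprod.inr n : FZ G) ξ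
      map_one' := funext fun ξ => by
        rw [map_one, map_one]
        rfl
      map_mul' := fun g g' => funext fun ξ => by
        rw [map_mul, map_mul]
        rfl }
  have e : ∀ (x : FZ G) ξ, Coprod.lift f f' x ξ = Coprod.lift f f' x 0 + cj x ξ := by
    intro x
    induction x using Coprod.induction_on with
    | inl g =>
      intro ξ
      rw [Coprod.lift_apply_inl]
      show a g + _ = a g + cj _ 0 + _
      rw [map_zero, add_zero]
    | inr n =>
      intro ξ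
      rw [Coprod.lift_apply_inr]
      show cj _ ξ = cj _ 0 + _
      rw [map_zero, zero_add]
    | mul x z hx hz =>
      intro ξ
      rw [map_mul, map_mul]
      show Coprod.lift f f' x (Coprod.lift f f' z ξ) =
        Coprod.lift f f' x (Coprod.lift f f' z 0) + cj x (cj z ξ)
      rw [hx, hx (Coprod.lift f f' z 0), hz, map_add, add_assoc]
  refine ⟨fun x => Coprod.lift f f' x 0, fun x z => ?_, fun g => ?_, fun n => ?_⟩
  · beta_reduce
    rw [map_mul]
    exact e x _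
  · beta_reduce
    rw [Coprod.lift_apply_inl]
    show a g + cj _ 0 = _
    rw [map_zero, add_zero]
  · beta_reduce
    rw [Coprod.lift_apply_inr]
    exact map_zero (cj (Coprod.inr n : FZ G))

end F4P

open F4P in
theorem f4 (hB : Bas) (h1 : NdStmt) (h2 : Loc4Stmt) (h3 : Form4Stmt) : F4Stmt := by
  classical
  intro G _ hG
  obtain ⟨S, ℓ, hW⟩ := h1.wl G hG
  refine ⟨ℓ, hW.sub, fun E β X hβ hAn hE hX hS => ?_⟩
  obtain ⟨B, cB, B1, B2⟩ := hB.cz.cop G (Multiplicative ℤ) (FZ G) (MonoidHom.id _)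
    (fun g => β g (dl 1)) (fun _ => 0) (fun x y => by beta_reduce; rw [hβ]; rfl)
    fun x y => by simp
  have hD := hB.cp.fz G
  obtain ⟨-, -, -, ad4, -, ad6⟩ := hB.ad (FZ G) _ _ X hD (hS.mono fun _ h => h.2)
  obtain ⟨D, cD, D1, D2⟩ := exists_D
    (fun g => adH (Coprod.inl : G →* FZ G).range X (β g (dl 1))) fun g g' => by
      rw [hβ, ← ad4 _ ⟨g, rfl⟩, ← map_add]
      rfl
  have hre : ∀ x z, (B x z).im = 0 := by
    intro x
    induction x using Coprod.induction_on with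
    | inl g => exact fun z => by rw [B1]; exact (hAn g).real z
    | inr n => exact fun z => by rw [B2]; rfl
    | mul x w hx hw => exact fun z => by rw [cz_ap cB, Complex.add_im, hx, hw, add_zero]
  have hsum : ∀ x v, HasSum (fun z => B x z * X.coeff (z⁻¹ * v * z)) (D x v) := by
    intro x
    induction x using Coprod.induction_on with
    | inl g =>
      intro v
      rw [B1, D1]
      refine (hasSum_subtype_iff_of_support_subset
        (s := ((Coprod.inl : G →* FZ G).range : Set (FZ G))) fun z hz => ?_).1 (ad6 _ v)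
      by_contra hn
      exact hz (by simp only [(hAn g).supp z hn, zero_mul])
    | inr n =>
      intro v
      rw [B2, D2]
      simp
    | mul x w hx hw =>
      intro v
      rw [cD, lp.coeFn_add, Pi.add_apply, cj_coef]
      have := (hx v).add ((Equiv.mulLeft x⁻¹).hasSum_iff.2 (hw (x⁻¹ * v * x)))
      convert this using 1
      funext z
      simp only [cz_ap cB, add_mul, Function.comp, Equiv.coe_mulLeft, mul_inv_rev, inv_inv,
        mul_assoc, mul_inv_cancel_left]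
  have By : B (gen G) = 0 := B2 _
  have BE : ∀ g ∈ E, B (Coprod.inl g) = 0 := fun g hg => by rw [B1, hE g hg]; rfl
  obtain ⟨t1, t2⟩ := h1.two G E B cB (fun g => by rw [B1]; exact (hAn g).supp) By BE
  have BL : E.map Coprod.inl ⊔ Subgroup.zpowers (gen G) ≤ ker cB := by
    refine sup_le ?_ (Subgroup.zpowers_le.2 By)
    rintro _ ⟨g, hg, rfl⟩
    exact BE g hg
  have hsup : ∀ h ∈ X.coeff.support, h ∈ E.map Coprod.inl ⊔ Subgroup.zpowers (gen G) ∧
      (Coprod.snd : FZ G →* Multiplicative ℤ) h ≠ 1 := fun h hh => by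
    by_contra hn
    exact Finsupp.mem_support_iff.1 hh ((hat_coef X h).symm.trans (hS h hn))
  have hA : ∀ h ∈ X.coeff.support, ∀ v x, {z | z ∈ cA h v ∧ B x z ≠ 0}.Finite :=
    fun h hh v x => by
      obtain ⟨P, hP⟩ := t1 x
      exact fin_cA hD (hsup h hh).2 v hP
  have hDs : ∀ x v, D x v = ∑ h ∈ X.coeff.support, X.coeff h * sm (cA h v) (B x) := fun x v => by
    refine (hsum x v).unique (hs_congr
      (hasSum_sum fun h hh => (hs' (hA h hh v x)).mul_left (X.coeff h)) fun z => ?_)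
    rw [Finset.sum_eq_single (z⁻¹ * v * z), Set.indicator_of_mem, mul_comm]
    · show z * (z⁻¹ * v * z) * z⁻¹ = v
      group
    · intro h _ hn
      rw [Set.indicator_of_notMem, mul_zero]
      intro (e : z * h * z⁻¹ = v)
      exact hn (by rw [← e]; group)
    · intro hn
      rw [Finsupp.notMem_support_iff.1 hn, zero_mul]
  have hsa : ∀ h, X.coeff h = conj (X.coeff h⁻¹) := fun h => by
    have := star_coef (op_mem X) h
    rw [hX.star_eq] at this
    rw [← hat_coef, ← hat_coef]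
    exact this
  have hc : ∀ x v, conj (D x v⁻¹) = D x v := fun x v => by
    refine HasSum.unique (hs_congr (hsum x v⁻¹).star fun z => ?_) (hsum x v)
    rw [hsa, star_mul', Complex.star_def, Complex.conj_eq_iff_im.2 (hre x z)]
    congr 3
    group
  have h0 : ∀ v, D v v⁻¹ = 0 := fun v => by
    rw [hDs]
    refine Finset.sum_eq_zero fun h hh => mul_eq_zero_of_right _ ?_
    rcases (cA h v⁻¹).eq_empty_or_nonempty with e | ⟨z, hz⟩
    · simp [sm, e]
    · have := sm_inv cB (hA h hh v⁻¹) (g := v) (z₀ := z) (h := h⁻¹)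
        (by rw [← inv_inv v, ← show z * h * z⁻¹ = v⁻¹ from hz]; group)
        (BL (inv_mem (hsup h hh).1)) (fun w => ?_) 1
      · rw [mul_one, cz_one cB] at this
        rw [this]
        simp [sm, Set.indicator]
      · show v * w * h * (v * w)⁻¹ = v⁻¹ ↔ w * h * w⁻¹ = v⁻¹
        rw [show v * w * h * (v * w)⁻¹ = v * (w * h * w⁻¹) * v⁻¹ by group, mul_eq_right,
          mul_eq_one_iff_inv_eq, eq_comm]
  obtain ⟨a₀, C, ha, hC, loc⟩ := h2 G S ℓ β B hW hAn cB B1 By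
  have dv : ∀ x y : FZ G, (Complex.I • rho x⁻¹ (D x)) y = Complex.I * D x (y * x⁻¹) :=
    fun x y => by rw [lp.coeFn_smul, Pi.smul_apply, rho_coef, smul_eq_mul]
  obtain ⟨C', hC'⟩ := fb_sum (ℓ := ℓ) (a₀ := a₀) X.coeff.support
    (fun h => Complex.I * X.coeff h) (fun h x y => sm (cA h (y * x⁻¹)) (B x)) fun h hh => by
      obtain ⟨nd, c₀, n1, n2, n3⟩ := h1.nd G S ℓ h hW (hsup h hh).2
      refine one_word h3 cB hre hW.sub (BL (hsup h hh).1) (hA h hh) (fun x z₀ => ?_) n1 n2 n3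
        ha.le hC loc
      obtain ⟨p, p', hp⟩ := t2 x z₀
      refine ⟨fun z => p⁻¹ * z ∈ (Coprod.inl : G →* FZ G).range, fun z z' m m' k k' e => ?_⟩
      have key : ∀ r : FZ G, r⁻¹ * z ∈ (Coprod.inl : G →* FZ G).range →
          r⁻¹ * z' ∈ (Coprod.inl : G →* FZ G).range → z = z' := fun r a a' => by
        obtain ⟨g, hg⟩ : z⁻¹ * z' ∈ (Coprod.inl : G →* FZ G).range := by
          simpa [mul_assoc] using mul_mem (inv_mem a) a'
        obtain ⟨n, hn⟩ : z⁻¹ * z' ∈ Subgroup.zpowers h := by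
          simpa [mul_assoc] using mul_mem (inv_mem m) m'
        have e1 : (Coprod.snd : FZ G →* Multiplicative ℤ) h ^ n = 1 := by
          rw [← map_zpow, show h ^ n = z⁻¹ * z' from hn, ← hg, Coprod.snd_apply_inl]
        have e2 : n = 0 := by
          have := congrArg Multiplicative.toAdd e1
          rw [toAdd_zpow, toAdd_one, smul_eq_mul, mul_eq_zero] at this
          exact this.resolve_right (hsup h hh).2
        rw [e2] at hn
        exact inv_mul_eq_one.1 (by simpa using hn.symm)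
      have l := Subgroup.zpowers_le.2 (hsup h hh).1
      by_cases a : p⁻¹ * z ∈ (Coprod.inl : G →* FZ G).range
      · exact key p a (cast e a)
      · exact key p' ((hp z (l m) k).resolve_left a)
          ((hp z' (l m') k').resolve_left fun a' => a (cast e.symm a'))
  refine ⟨fun x => Complex.I • rho x⁻¹ (D x), a₀, C', ha, fun x y => ?_, fun x y => ?_, ?_, ?_,
    fun g => by beta_reduce; rw [D1]⟩
  · have := cD (y * x⁻¹) x
    rw [inv_mul_cancel_right] at this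
    rw [dv, dv, this, lp.coeFn_add, Pi.add_apply, cj_coef, ← hc x,
      show x * y⁻¹ = (y * x⁻¹)⁻¹ by group, h0, zero_add, inv_mul_cancel_right, map_mul,
      Complex.conj_I]
    ring
  · show Complex.I • rho (x * y)⁻¹ (D (x * y)) =
      rho y⁻¹ (Complex.I • rho x⁻¹ (D x)) + lam x (Complex.I • rho y⁻¹ (D y))
    ext v
    rw [lp.coeFn_add, Pi.add_apply, lam_coef, rho_coef, dv, dv, dv, cD, lp.coeFn_add,
      Pi.add_apply, cj_coef, mul_add]
    congr 3 <;> group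
  · convert hC' using 3 with x y
    rw [dv, hDs, Finset.mul_sum]
    simp only [mul_assoc]
  · show Complex.I • rho (gen G)⁻¹ (D (Coprod.inr _)) = 0
    rw [D2, map_zero, smul_zero]

end

end Pool.Agent.MP_494aff_an.Un

end MrgPart1

-- ======== part 2: formerly Pool.Agent.MP_494aff_an.un.Form4
section MrgPart2

/-! The form bound for the kernel attached to one word. -/

open Monoid Filter Topology
open scoped InnerProductSpace ComplexConjugate

namespace Pool.Agent.MP_494aff_an.Un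

open Pool.Agent.MP_494aff_an.Pinch Pool.Agent.MP_494aff_an.Pinch.TowP Pool.Agent.MP_494aff_an.Lf

noncomputable section

namespace Form4

variable {Λ I : Type}

lemma perm [DecidableEq Λ] (φ : Λ → Λ) (hφ : Function.Injective φ) (F : Finset Λ)
    (u v : Λ → ℝ) : ∑ x ∈ F, ∑ y ∈ F, (if y = φ x then u x * v y else 0) ≤
      √(∑ x ∈ F, u x ^ 2) * √(∑ y ∈ F, v y ^ 2) := by
  have h1 : ∑ x ∈ F, ∑ y ∈ F, (if y = φ x then u x * v y else 0) =
      ∑ x ∈ F with φ x ∈ F, u x * v (φ x) := by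
    rw [Finset.sum_filter]
    exact Finset.sum_congr rfl fun x _ => by rw [Finset.sum_ite_eq']
  rw [h1]
  refine (Real.sum_mul_le_sqrt_mul_sqrt _ _ _).trans ?_
  gcongr
  · exact Finset.filter_subset _ _
  · rw [← Finset.sum_image (f := fun y => v y ^ 2) (g := φ) fun _ _ _ _ e => hφ e]
    refine Finset.sum_le_sum_of_subset_of_nonneg ?_ fun _ _ _ => sq_nonneg _
    intro y hy
    obtain ⟨x, hx, rfl⟩ := Finset.mem_image.1 hy
    exact (Finset.mem_filter.1 hx).2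

lemma half [DecidableEq Λ] (φ : I → Λ → Λ) (hφ : ∀ q, Function.Injective (φ q)) (W : Finset I)
    (F : Finset Λ) (u v : I → Λ → ℝ) {s t : Λ → ℝ} {α β : ℝ} (hα : 0 ≤ α) (hβ : 0 ≤ β)
    (hu : ∀ x, ∑ q ∈ W, u q x ^ 2 ≤ α * s x) (hv : ∀ x, ∑ q ∈ W, v q x ^ 2 ≤ β * t x) :
    ∑ x ∈ F, ∑ y ∈ F, ∑ q ∈ W, (if y = φ q x then u q x * v q y else 0) ≤
      √α * √β * √(∑ x ∈ F, s x) * √(∑ y ∈ F, t y) := by
  have h1 : ∑ q ∈ W, ∑ x ∈ F, u q x ^ 2 ≤ α * ∑ x ∈ F, s x := by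
    rw [Finset.sum_comm, Finset.mul_sum]
    exact Finset.sum_le_sum fun x _ => hu x
  have h2 : ∑ q ∈ W, ∑ x ∈ F, v q x ^ 2 ≤ β * ∑ x ∈ F, t x := by
    rw [Finset.sum_comm, Finset.mul_sum]
    exact Finset.sum_le_sum fun x _ => hv x
  have h3 := Real.sum_sqrt_mul_sqrt_le W (f := fun q => ∑ x ∈ F, u q x ^ 2)
    (g := fun q => ∑ x ∈ F, v q x ^ 2) (fun q => by positivity) fun q => by positivity
  calc _ = ∑ q ∈ W, ∑ x ∈ F, ∑ y ∈ F, (if y = φ q x then u q x * v q y else 0) := by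
        rw [Finset.sum_comm (s := W)]
        exact Finset.sum_congr rfl fun x _ => Finset.sum_comm
    _ ≤ ∑ q ∈ W, √(∑ x ∈ F, u q x ^ 2) * √(∑ y ∈ F, v q y ^ 2) :=
        Finset.sum_le_sum fun q _ => perm _ (hφ q) F _ _
    _ ≤ √(α * ∑ x ∈ F, s x) * √(β * ∑ x ∈ F, t x) := h3.trans (by gcongr)
    _ = _ := by rw [Real.sqrt_mul hα, Real.sqrt_mul hβ]; ring

open Classical in
lemma count {ℓ : ℕ} {nd : I → Prop} (hc : ∀ Z : Finset I, (∀ q ∈ Z, nd q) → Z.card ≤ ℓ)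
    (Z : Finset I) (c : ℝ) :
    ∑ q ∈ Z, (if nd q then c else 0) ^ 2 ≤ 1 * ((1 + (ℓ : ℝ)) * c ^ 2) := by
  have h1 : ∑ q ∈ Z, (if nd q then c else 0) ^ 2 = ∑ q ∈ Z with nd q, c ^ 2 := by
    rw [Finset.sum_filter]
    exact Finset.sum_congr rfl fun q _ => by split_ifs <;> simp
  have h2 : ((Z.filter nd).card : ℝ) ≤ ℓ := by
    exact_mod_cast hc _ fun q hq => (Finset.mem_filter.1 hq).2
  rw [h1, Finset.sum_const, nsmul_eq_mul]
  nlinarith [sq_nonneg c]

lemma weight {B e : I → ℝ} {C l : ℝ} (Z : Finset I)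
    (hD : ∑ q ∈ Z, B q ^ 2 * Real.exp (2 * e q) ≤ C * l) (c : ℝ) :
    ∑ q ∈ Z, (|B q| * Real.exp (e q) * c) ^ 2 ≤ C * (l * c ^ 2) := by
  rw [← mul_assoc]
  refine le_trans (le_of_eq ?_) (mul_le_mul_of_nonneg_right hD (sq_nonneg _))
  rw [Finset.sum_mul]
  refine Finset.sum_congr rfl fun q _ => ?_
  rw [mul_pow, mul_pow, sq_abs, ← Real.exp_nat_mul]
  norm_num

lemma cjq [Group Λ] (h z : Λ) (q : Λ ⧸ Subgroup.zpowers h)
    (e : (z : Λ ⧸ Subgroup.zpowers h) = q) : q.out * h * q.out⁻¹ = z * h * z⁻¹ := by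
  have h1 : z⁻¹ * q.out ∈ Subgroup.zpowers h :=
    QuotientGroup.eq.1 (e.trans (QuotientGroup.out_eq' q).symm)
  obtain ⟨k, hk⟩ := Subgroup.mem_zpowers_iff.1 h1
  have h2 : q.out = z * h ^ k := by rw [hk]; group
  rw [h2]
  group

end Form4

open Form4 Classical in
theorem form4 : Form4Stmt := by
  intro Λ _ ℓ h b nd k c₀ a₀ C ha₀ hC hsub hb hnd hc hz hw hk
  choose r hr hw using hw
  choose Z hZ hk using hk
  set E : ℝ := Real.exp (a₀ * ((c₀ : ℝ) + ℓ h)) with hE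
  refine ⟨E * (2 * √C), fun a ha ha' F ξ η => ?_⟩
  set W : Finset (Λ ⧸ Subgroup.zpowers h) := (F ×ˢ F).biUnion fun p => Z p.1 p.2 with hW
  set e : Λ → Λ ⧸ Subgroup.zpowers h → ℝ :=
    fun x q => a₀ * ((ℓ (r x q) : ℝ) + ℓ ((r x q)⁻¹ * x) - ℓ x) with he
  have tri : ∀ z x : Λ, (ℓ (z * h * z⁻¹ * x) : ℝ) ≤ ℓ z + ℓ h + ℓ (z⁻¹ * x) := fun z x => by
    have a1 := hsub (z * h) (z⁻¹ * x)
    have a2 := hsub z h
    rw [← mul_assoc] at a1
    exact_mod_cast a1.trans (Nat.add_le_add_right a2 _)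
  have hd : ∀ z x : Λ, (0 : ℝ) ≤ (ℓ z : ℝ) + ℓ (z⁻¹ * x) - ℓ x := fun z x => by
    have a1 := hsub z (z⁻¹ * x)
    rw [mul_inv_cancel_left] at a1
    exact sub_nonneg.2 (by exact_mod_cast a1)
  have hw' : ∀ x, ∑ q ∈ W, b x q ^ 2 * Real.exp (2 * e x q) ≤ C * (1 + ℓ x) := fun x => by
    simpa only [he, mul_assoc] using hw x W
  have hφ : ∀ q : Λ ⧸ Subgroup.zpowers h,
      Function.Injective fun x => q.out * h * q.out⁻¹ * x := fun q => mul_right_injective _
  have b1 := half _ hφ W F (fun q x => if nd x q then ‖ξ x‖ else 0)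
    (fun q y => |b y q| * Real.exp (e y q) * ‖η y‖) zero_le_one hC
    (s := fun x => (1 + (ℓ x : ℝ)) * ‖ξ x‖ ^ 2) (t := fun y => (1 + (ℓ y : ℝ)) * ‖η y‖ ^ 2)
    (fun x => count (hc x) W _) fun y => weight W (hw' y) _
  have b2 := half _ hφ W F (fun q x => |b x q| * Real.exp (e x q) * ‖ξ x‖)
    (fun q y => if nd y q then ‖η y‖ else 0) hC zero_le_one
    (s := fun x => (1 + (ℓ x : ℝ)) * ‖ξ x‖ ^ 2) (t := fun y => (1 + (ℓ y : ℝ)) * ‖η y‖ ^ 2)
    (fun x => weight W (hw' x) _) fun y => count (hc y) W _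
  have hE0 : 0 ≤ E := (Real.exp_pos _).le
  refine le_trans ?_ ((mul_le_mul_of_nonneg_left (add_le_add b1 b2) hE0).trans (le_of_eq ?_))
  swap
  · rw [Real.sqrt_one]; ring
  rw [← Finset.sum_add_distrib, Finset.mul_sum]
  refine (norm_sum_le _ _).trans (Finset.sum_le_sum fun x hx => ?_)
  rw [← Finset.sum_add_distrib, Finset.mul_sum]
  refine (norm_sum_le _ _).trans (Finset.sum_le_sum fun y hy => ?_)
  rw [← Finset.sum_add_distrib, Finset.mul_sum]
  have hsW : Z x y ⊆ W := fun q hq =>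
    Finset.mem_biUnion.2 ⟨(x, y), Finset.mem_product.2 ⟨hx, hy⟩, hq⟩
  refine le_trans ?_ (Finset.sum_le_sum_of_subset_of_nonneg hsW fun q _ _ => ?_)
  swap
  · refine mul_nonneg hE0 (add_nonneg ?_ ?_) <;> split_ifs <;> positivity
  rw [norm_mul, norm_mul, norm_mul, Complex.norm_conj, Complex.norm_real, Real.norm_eq_abs,
    abs_of_pos (Real.exp_pos _)]
  refine le_trans (b := ‖η y‖ * Real.exp (a * ((ℓ y : ℝ) - ℓ x)) * (∑ q ∈ Z x y, |b x q|) * ‖ξ x‖)
    (by gcongr; exact hk x y) ?_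
  rw [Finset.mul_sum, Finset.sum_mul]
  refine Finset.sum_le_sum fun q hq => ?_
  have hy' := hZ x y q hq
  rw [if_pos hy', if_pos hy']
  have hq' : ((q.out : Λ) : Λ ⧸ Subgroup.zpowers h) = q := QuotientGroup.out_eq' q
  have hbq : b y q = b x q := by
    have := hb q.out x
    rwa [← hy', hq'] at this
  have hP : 0 ≤ |b x q| * ‖ξ x‖ * ‖η y‖ := by positivity
  by_cases hn : nd x q
  · obtain ⟨z, hz1, hz2⟩ := hz x q hn
    have a1 := tri z x
    rw [← cjq h z q hz1, ← hy'] at a1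
    have a2 : (ℓ z : ℝ) + ℓ (z⁻¹ * x) ≤ ℓ x + c₀ := by exact_mod_cast hz2
    have a3 : Real.exp (a * ((ℓ y : ℝ) - ℓ x)) ≤ E * Real.exp (e y q) := by
      rw [hE, ← Real.exp_add]
      refine Real.exp_le_exp.2 ?_
      have a4 : 0 ≤ e y q := mul_nonneg ha₀ (hd _ _)
      have a5 : (0 : ℝ) ≤ (c₀ : ℝ) + ℓ h := by positivity
      nlinarith
    have a6 : 0 ≤ |b x q| * Real.exp (e x q) * ‖ξ x‖ * (if nd y q then ‖η y‖ else 0) := by
      split_ifs <;> positivity
    rw [if_pos hn, hbq]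
    nlinarith [mul_le_mul_of_nonneg_left a3 hP, mul_nonneg hE0 a6]
  · have hn' : nd y q := by
      have := hnd q.out x
      rw [← hy', hq'] at this
      exact this.resolve_left hn
    have a1 := tri (r x q) x
    rw [← cjq h _ q (hr x q), ← hy'] at a1
    have a3 : Real.exp (a * ((ℓ y : ℝ) - ℓ x)) ≤ E * Real.exp (e x q) := by
      rw [hE, ← Real.exp_add]
      refine Real.exp_le_exp.2 ?_
      have a4 := hd (r x q) x
      have a5 : (0 : ℝ) ≤ (c₀ : ℝ) := by positivity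
      have a6 : (0 : ℝ) ≤ (ℓ h : ℝ) := by positivity
      simp only [he]
      nlinarith [mul_nonneg ha₀ a5, mul_nonneg (sub_nonneg.2 ha') (add_nonneg a4 a6)]
    rw [if_neg hn, if_pos hn', zero_mul, zero_add]
    nlinarith [mul_le_mul_of_nonneg_left a3 hP]

end

end Pool.Agent.MP_494aff_an.Un

end MrgPart2

-- ======== part 3: formerly Pool.Agent.MP_494aff_an.un.Shift
section MrgPart3

/-! An automorphism that multiplies one element by an almost commuting unitary. -/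

open Monoid

namespace Pool.Agent.MP_494aff_an.Un

open Pool.Agent.MP_494aff_an.Pinch Pool.Agent.MP_494aff_an.Pinch.TowP Pool.Agent.MP_494aff_an.Lf

theorem shiftS (hB : Bas) (h1 : GFStmt) (h2 : ArgStmt) : ShiftStmt := by
  classical
  intro Γ X _ _ _ A F y deg ι E β T w t S ε hT hG hF hA hι hr hI hE hβ aβ aT e0 eS et hε
  obtain ⟨C, hC, hX⟩ := h2 (ε / 3) (by positivity)
  let M : ℝ := 1 + ∑ s ∈ insert t S, ‖T s‖
  have hs : 0 ≤ ∑ s ∈ insert t S, ‖T s‖ := Finset.sum_nonneg fun _ _ => norm_nonneg _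
  have hM : 0 < M := by simp only [M]; linarith
  refine ⟨ε / 3 / M / (C + 1), by positivity, fun u hu su cu => ?_⟩
  obtain ⟨Y, sY, pY, xY, cY⟩ := hX Γ _ deg u (ι w) (ε / 3 / M / (C + 1)) hu su (by positivity)
  obtain ⟨b, hb, eb⟩ := hB.cz.toCy X Γ ι (fun x => β x (dl 1)) hι fun x z => by
    simp only [hβ x z, add_apply, mul_ap]
  obtain ⟨α, hα, a1, a2⟩ := h1 Γ A F y deg ι.range (E.map ι) Y b hT hG hF hA hr hI
    (E.map_le_range ι)
    (by
      rintro _ ⟨x, hx, rfl⟩ _ ⟨x', hx', rfl⟩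
      rw [← map_mul, hE x hx x' hx', map_mul]) hb
    (by
      rintro _ ⟨x, rfl⟩
      rw [Rl, eb, AFP.rv_an (aβ x), AFP.rv_dl (one_mem ι.range)])
    (by
      rintro _ ⟨x, hx, rfl⟩
      rw [eb, e0 x hx, zero_apply]) sY pY ((insert t S).image ι)
    (fun s hs => by
      obtain ⟨x, -, rfl⟩ := Finset.mem_image.1 hs
      exact ⟨x, rfl⟩) (ε / 3) (by positivity)
  obtain ⟨d1, -, -, -, d5, -⟩ := hB.ad Γ A _ Y (hB.cp.tri Γ A F y deg hT)
    (pY.mono fun _ h => h.2)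
  have d0 : adH A Y (dl 1) = hat Y := by rw [d1 1 (one_mem A), map_one, one_ap]
  have key : ∀ s ∈ insert t S, ‖adH A Y ((T s * (1 - lam (ι w))) (dl 1))‖ ≤ ε / 3 := by
    intro s hs'
    have l1 : ‖T s‖ ≤ M := by
      have := Finset.single_le_sum (f := fun s => ‖T s‖) (fun _ _ => norm_nonneg _) hs'
      simp only [M]
      linarith
    have l2 : ‖adH A Y ((1 - lam (ι w)) (dl 1))‖ ≤ ε / 3 / M := by
      rw [sub_apply, one_ap, lam_one, map_sub, d0, d1 _ (hr ⟨w, rfl⟩)]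
      calc _ ≤ C * (ε / 3 / M / (C + 1)) + ε / 3 / M / (C + 1) := cY.trans (by gcongr)
        _ = ε / 3 / M := by field_simp
    rw [mul_ap]
    calc _ ≤ ‖T s‖ * ‖adH A Y ((1 - lam (ι w)) (dl 1))‖ := d5 _ _ _ ((aT s).mono hr)
      _ ≤ M * (ε / 3 / M) := by gcongr
      _ = ε / 3 := mul_div_cancel₀ _ hM.ne'
  refine ⟨α, hα, a1, fun s hs' => ?_, ?_⟩
  · have h := (a2 (ι s) (Finset.mem_image_of_mem ι (Finset.mem_insert_of_mem hs'))).1
    have k := key s (Finset.mem_insert_of_mem hs')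
    rw [eb, eS s hs'] at h
    linarith
  · have h := (a2 (ι t) (Finset.mem_image_of_mem ι (Finset.mem_insert_self t S))).2
    have k := key t (Finset.mem_insert_self t S)
    rw [eb, et, add_apply, one_ap, map_add, d0, add_sub_cancel_left] at h
    have hZ : NormedSpace.exp (Complex.I • op Y) ∈ LL Γ := mem_LL.2 fun x =>
      Commute.exp_right (Commute.smul_right (mem_LL.1 (op_mem Y) x) _)
    have l : ‖NormedSpace.exp (Complex.I • op Y) (dl (ι t)) - u (dl (ι t))‖ ≤ ε / 3 := by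
      rwa [LL_dl hZ, LL_dl hu.1, ← map_sub, rho_norm]
    have := norm_sub_le_norm_sub_add_norm_sub (α (ι t) (dl 1))
      (NormedSpace.exp (Complex.I • op Y) (dl (ι t))) (u (dl (ι t)))
    linarith

end Pool.Agent.MP_494aff_an.Un

end MrgPart3

-- ======== part 4: formerly Pool.Agent.MP_494aff_an.un.Stage
section MrgPart4

/-! The flow on a finitely generated stage. -/

open Monoid Filter Topology
open scoped InnerProductSpace ComplexConjugate

namespace Pool.Agent.MP_494aff_an.Un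

open Pool.Agent.MP_494aff_an.Pinch Pool.Agent.MP_494aff_an.Pinch.TowP Pool.Agent.MP_494aff_an.Lf

noncomputable section

namespace StageP

lemma pin_cop (A B : Type) [Group A] [Group B] :
    Pin (1 : A) (1 : B) (Coprod.inl : A →* Coprod A B) Coprod.inr where
  comm := by rw [map_one, map_one]
  lift := fun _ _ φ ψ _ => ⟨Coprod.lift φ ψ, fun _ => rfl, fun _ => rfl⟩
  gen := fun T h1 h2 z => by
    induction z using Coprod.induction_on with
    | inl a => exact h1 a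
    | inr b => exact h2 b
    | mul x y hx hy => exact mul_mem hx hy

lemma fg_cop {A B : Type} [Group A] [Group B] (hA : Group.FG A) (hB : Group.FG B) :
    Group.FG (Coprod A B) := by
  obtain ⟨S, hS, fS⟩ := Group.fg_iff.1 hA
  obtain ⟨T, hT, fT⟩ := Group.fg_iff.1 hB
  refine Group.fg_iff.2 ⟨Coprod.inl '' S ∪ Coprod.inr '' T, (Subgroup.eq_top_iff' _).2
    ((pin_cop A B).gen _ (fun a => ?_) fun b => ?_), (fS.image _).union (fT.image _)⟩
  · have : Subgroup.closure S ≤ (Subgroup.closure (Coprod.inl '' S ∪ Coprod.inr '' T)).comap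
        (Coprod.inl : A →* Coprod A B) :=
      (Subgroup.closure_le _).2 fun s hs => Subgroup.subset_closure (Or.inl ⟨s, hs, rfl⟩)
    exact this (hS ▸ Subgroup.mem_top a)
  · have : Subgroup.closure T ≤ (Subgroup.closure (Coprod.inl '' S ∪ Coprod.inr '' T)).comap
        (Coprod.inr : B →* Coprod A B) :=
      (Subgroup.closure_le _).2 fun s hs => Subgroup.subset_closure (Or.inr ⟨s, hs, rfl⟩)
    exact this (hT ▸ Subgroup.mem_top b)

section Emb

variable {Λ Γ : Type}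

lemma ext_supp {X : Set Λ} {S T : H Λ →L[ℂ] H Γ} (h : ∀ x ∈ X, S (dl x) = T (dl x)) {ξ : H Λ}
    (hξ : Supp X ξ) : S ξ = T ξ := by
  have h1 : Supp (∅ : Set Γ) ((S - T) ξ) :=
    supp_map (S - T) (fun x hx => by
      rw [_root_.sub_apply, h x hx, sub_self]
      exact supp_zero _) hξ
  rw [← sub_eq_zero, ← _root_.sub_apply]
  exact lp.ext (funext fun y => h1 y (Set.notMem_empty y))

variable [Group Λ] [Group Γ] (f : Λ →* Γ) (hf : Function.Injective f)

lemma emb_lam (p : Λ) (η : H Λ) : emb f hf (lam p η) = lam (f p) (emb f hf η) := by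
  have : (emb f hf).comp (lam p : Op Λ) = (lam (f p) : Op Γ).comp (emb f hf) :=
    op_ext fun x => by simp [emb_dl, lam_dl]
  exact congrArg (fun T : H Λ →L[ℂ] H Γ => T η) this

lemma emb_rho (p : Λ) (η : H Λ) : emb f hf (rho p η) = rho (f p) (emb f hf η) := by
  have : (emb f hf).comp (rho p : Op Λ) = (rho (f p) : Op Γ).comp (emb f hf) :=
    op_ext fun x => by simp [emb_dl, rho_dl]
  exact congrArg (fun T : H Λ →L[ℂ] H Γ => T η) this

lemma emb_cj (p : Λ) (η : H Λ) : emb f hf (cj p η) = cj (f p) (emb f hf η) := by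
  show emb f hf (lam p (rho p η)) = lam (f p) (rho (f p) (emb f hf η))
  rw [emb_lam, emb_rho]

/-- The pull back of a polynomial. -/
def pb (X : CA Γ) : CA Λ := MonoidAlgebra.ofCoeff (Finsupp.comapDomain f X.coeff hf.injOn)

lemma hat_pb (X : CA Γ) (z : Λ) : hat (pb f hf X) z = hat X (f z) := by
  rw [hat_coef, hat_coef]
  rfl

lemma sa_pb {X : CA Γ} (hX : IsSelfAdjoint (op X)) : IsSelfAdjoint (op (pb f hf X)) := by
  refine LL_ext (star_mem (op_mem _)) (op_mem _) (lp.ext (funext fun z => ?_))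
  have h1 := star_coef (op_mem X) (f z)
  rw [hX.star_eq] at h1
  rw [star_coef (op_mem _)]
  show conj (hat (pb f hf X) z⁻¹) = hat (pb f hf X) z
  rw [hat_pb, hat_pb, map_inv]
  exact h1.symm

lemma emb_pb {X : CA Γ} (hX : Supp (f.range : Set Γ) (hat X)) :
    emb f hf (hat (pb f hf X)) = hat X := by
  refine lp.ext (funext fun y => ?_)
  by_cases hy : y ∈ (f.range : Set Γ)
  · obtain ⟨z, rfl⟩ := hy
    rw [emb_coef, hat_pb]
  · rw [hX y hy]
    exact supp_emb f hf (supp_univ _) y fun ⟨z, _, hz⟩ => hy ⟨z, hz⟩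

lemma rl_emb {K : Subgroup Γ} {Y : Set Λ} {ξ : H Λ} (hY : ∀ z ∈ Y, f z ∈ K) (hξ : Supp Y ξ)
    (hr : ∀ z, (ξ z).im = 0) : Rl K (emb f hf ξ) := by
  refine lp.ext (funext fun y => ?_)
  rw [AFP.rv_ap]
  unfold AFP.rf
  by_cases h : y ∈ f '' Y
  · obtain ⟨z, hz, rfl⟩ := h
    rw [if_pos (show f z ∈ (K : Set Γ) from hY z hz), emb_coef]
    exact Complex.ext (by simp) (by simp [hr z])
  · rw [supp_emb f hf hξ y h]
    simp

end Emb

/-- The elements where a cocycle vanishes. -/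
def zer {G Γ : Type} [Group G] [Group Γ] {ι : G →* Γ} {β : G → Op Γ} (h : Co ι β) :
    Subgroup G where
  carrier := {x | β x = 0}
  one_mem' := h.one
  mul_mem' := fun {a b} ha hb => by
    show β (a * b) = 0
    rw [h a b, show β a = 0 from ha, show β b = 0 from hb, mul_zero, add_zero]
  inv_mem' := fun {a} ha => by
    show β a⁻¹ = 0
    rw [h.inv, show β a = 0 from ha, mul_zero, neg_zero]

variable {Γ : Type} [Group Γ]

/-- The map from the abstract free product. -/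
def fm (K F : Subgroup Γ) (y : Γ) : FZ (Coprod K F) →* Γ :=
  Coprod.lift (Coprod.lift K.subtype F.subtype) (zpowersHom Γ y)

lemma fm_K (K F : Subgroup Γ) (y : Γ) (x : K) : fm K F y (Coprod.inl (Coprod.inl x)) = x := rfl

lemma fm_F (K F : Subgroup Γ) (y : Γ) (x : F) : fm K F y (Coprod.inl (Coprod.inr x)) = x := rfl

lemma fm_y (K F : Subgroup Γ) (y : Γ) : fm K F y (gen (Coprod K F)) = y := by
  show zpowersHom Γ y (Multiplicative.ofAdd 1) = y
  simp

lemma fm_range (K F : Subgroup Γ) (y : Γ) : (fm K F y).range = K ⊔ F ⊔ Subgroup.zpowers y := by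
  rw [fm, Coprod.range_lift, Coprod.range_lift, Subgroup.range_subtype, Subgroup.range_subtype,
    Subgroup.range_zpowersHom]

lemma fm_inj (hc : CpStmt) {A F K : Subgroup Γ} {y : Γ} {deg : Γ →* Multiplicative ℤ}
    (h : Tri A F y deg) (hK : K ≤ A) : Function.Injective (fm K F y) := by
  have e : fm K F y = (fm A F y).comp
      (Coprod.map (Coprod.map (Subgroup.inclusion hK) (MonoidHom.id F)) (MonoidHom.id _)) :=
    Coprod.hom_ext (Coprod.hom_ext rfl rfl) rfl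
  rw [e, MonoidHom.coe_comp]
  exact h.bij.1.comp (hc.map _ _ _ _ _ _
    (hc.map _ _ _ _ _ _ (Subgroup.inclusion_injective hK) Function.injective_id)
    Function.injective_id)

lemma fm_deg {A F K : Subgroup Γ} {y : Γ} {deg : Γ →* Multiplicative ℤ} (h : Tri A F y deg)
    (hK : K ≤ A) (z : FZ (Coprod K F)) : deg (fm K F y z) = Coprod.snd z := by
  have e : deg.comp (fm K F y) = (Coprod.snd : FZ (Coprod K F) →* Multiplicative ℤ) := by
    refine Coprod.hom_ext (Coprod.hom_ext ?_ ?_) ?_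
    · exact MonoidHom.ext fun x => h.dA x (hK x.2)
    · exact MonoidHom.ext fun x => h.dF x x.2
    · refine MonoidHom.ext_mint ?_
      show deg (zpowersHom Γ y (Multiplicative.ofAdd 1)) = Multiplicative.ofAdd 1
      simpa using h.dy
  exact DFunLike.congr_fun e z

end StageP

open StageP in
theorem stage (hB : Bas) (h1 : F4Stmt) (h2 : TKStmt) (h3 : LiftStmt) : StageStmt := by
  classical
  intro Γ _ A F y deg K L E X b₀ hT hCT hF hKA hK hH hLK hI hEL hE hb₀ hR hb0 hX hXs S hS ε hε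
  have hf := fm_inj hB.cp hT hKA
  set f := fm K F y with hfd
  obtain ⟨ℓ, hℓ, h4⟩ := h1 (Coprod K F)
    (fg_cop ((Group.fg_iff_subgroup_fg K).2 hK) ((Group.fg_iff_subgroup_fg F).2 hF))
  let ι : K →* FZ (Coprod K F) := (Coprod.inl : Coprod K F →* FZ (Coprod K F)).comp Coprod.inl
  obtain ⟨β, hβ, aβ, zβ, nβ⟩ := h3 Γ (FZ (Coprod K F)) ℓ K L E ι f hf b₀ (fun _ => rfl) hCT hH hLK
    hI hEL hE hb₀ hR hb0 S hS ε hε
  have hι : (ι.range : Set (FZ (Coprod K F))) ⊆
      (Coprod.inl : Coprod K F →* FZ (Coprod K F)).range := by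
    rintro _ ⟨x, rfl⟩
    exact ⟨_, rfl⟩
  obtain ⟨γ, hγ, aγ, γK, γF⟩ := ext_pin (ℓ := ℓ) (pin_cop K F)
    (ι := (Coprod.inl : Coprod K F →* FZ (Coprod K F)))
    (K := (Coprod.inl : Coprod K F →* FZ (Coprod K F)).range) (fun x => ⟨x, rfl⟩) (βA := β)
    (βB := fun _ => 0) hβ co_zero hβ.one (fun x => (aβ x).mono hι) fun _ => An.zero
  have hle : E ⊔ F ⊔ Subgroup.zpowers y ≤
      ((zer hγ).map Coprod.inl ⊔ Subgroup.zpowers (gen (Coprod K F))).map f := by
    refine sup_le (sup_le (fun x hx => ?_) fun x hx => ?_) (Subgroup.zpowers_le.2 ?_)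
    · refine ⟨Coprod.inl (Coprod.inl ⟨x, hLK (hEL hx)⟩), Subgroup.mem_sup_left ⟨_, ?_, rfl⟩, rfl⟩
      exact (γK _).trans (zβ _ hx)
    · exact ⟨Coprod.inl (Coprod.inr ⟨x, hx⟩), Subgroup.mem_sup_left ⟨_, γF _, rfl⟩, rfl⟩
    · exact ⟨gen _, Subgroup.mem_sup_right (Subgroup.mem_zpowers _), fm_y K F y⟩
  have hX0 : Supp {h | h ∈ (zer hγ).map Coprod.inl ⊔ Subgroup.zpowers (gen (Coprod K F)) ∧
      (Coprod.snd : FZ (Coprod K F) →* Multiplicative ℤ) h ≠ 1} (hat (pb f hf X)) := by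
    intro z hz
    rw [hat_pb]
    refine hXs _ fun hm => hz ⟨?_, ?_⟩
    · obtain ⟨w, hw, e⟩ := hle hm.1
      exact hf e ▸ hw
    · rw [← fm_deg hT hKA]
      exact hm.2
  have hXr : Supp (f.range : Set Γ) (hat X) := hXs.mono fun z hz => by
    obtain ⟨w, -, e⟩ := hle hz.1
    exact ⟨w, e⟩
  obtain ⟨d, a₀, C, ha, hsk, hlb, hfb, dy, dg⟩ := h4 (zer hγ) γ (pb f hf X) hγ aγ (fun _ hx => hx)
    (sa_pb f hf hX) hX0
  obtain ⟨U, d', hP, hd'⟩ := h2 _ Γ ℓ d a₀ C f hf ha hℓ hsk hlb hfb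
  have a1 := (hB.ad _ _ _ (pb f hf X) (hB.cp.fz (Coprod K F)) (hX0.mono fun _ hz => hz.2)).1
  have a2 := (hB.ad _ _ _ X (hB.cp.tri Γ A F y deg hT) (hXs.mono fun _ hz => hz.2)).1
  have key : ∀ ξ, Supp (ι.range : Set (FZ (Coprod K F))) ξ →
      emb f hf (adH (Coprod.inl : Coprod K F →* FZ (Coprod K F)).range (pb f hf X) ξ) =
        adH A X (emb f hf ξ) := fun ξ hξ => by
    refine ext_supp (S := (emb f hf).comp
      (adH (Coprod.inl : Coprod K F →* FZ (Coprod K F)).range (pb f hf X)))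
      (T := (adH A X).comp (emb f hf)) ?_ hξ
    rintro _ ⟨x, rfl⟩
    rw [ContinuousLinearMap.comp_apply, ContinuousLinearMap.comp_apply, a1 (ι x) ⟨_, rfl⟩, emb_cj,
      emb_pb f hf hXr, emb_dl]
    exact (a2 _ (hKA x.2)).symm
  obtain ⟨b, bK⟩ : ∃ b : Γ → H Γ, ∀ x (hx : x ∈ K), b x = emb f hf (β ⟨x, hx⟩ (dl 1)) :=
    ⟨fun x => if h : x ∈ K then emb f hf (β ⟨x, h⟩ (dl 1)) else 0, fun x hx => dif_pos hx⟩
  refine ⟨b, U, d', fun x hx z hz => ?_, fun x hx => ?_, fun x hx => ?_, fun s hs => ?_, ?_,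
    fun x hx => ?_, ?_, fun g hg => ?_⟩
  · rw [bK _ (mul_mem hx hz), bK _ hx, bK _ hz]
    have e := hβ ⟨x, hx⟩ ⟨z, hz⟩
    rw [show (⟨x * z, mul_mem hx hz⟩ : K) = ⟨x, hx⟩ * ⟨z, hz⟩ from rfl, e,
      _root_.add_apply, map_add, mul_ap, emb_lam]
    rfl
  · rw [bK _ hx]
    refine rl_emb f hf ?_ (aβ _).supp (aβ _).real
    rintro _ ⟨z, rfl⟩
    exact z.2
  · rw [bK _ (hLK (hEL hx)), zβ _ hx, _root_.zero_apply, map_zero]
  · rw [bK _ (hLK (hS s hs))]
    exact nβ _ hs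
  · rw [← fm_range]
    exact hP
  · have e := hd' (Coprod.inl (Coprod.inr ⟨x, hx⟩))
    rw [dg, γF, _root_.zero_apply, map_zero, map_zero, smul_zero, map_zero] at e
    exact e
  · have e := hd' (gen _)
    rw [dy, map_zero, hfd, fm_y] at e
    exact e
  · have e := hd' (Coprod.inl (Coprod.inl ⟨g, hg⟩))
    rw [dg, γK, map_smul, emb_rho, key _ (aβ _).supp, map_inv] at e
    rw [bK _ hg]
    exact e

end

end Pool.Agent.MP_494aff_an.Un

end MrgPart4

-- marker of a merged file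
example : 731051 + 327308 = 731051 + 327308 := rfl

end MrgPart0

-- ======== part 1: formerly Pool.Agent.MP_494aff_an.un.Limit
section MrgPart1

/-! The limit of automorphisms of an increasing chain of subgroups. -/

open Monoid Filter Topology
open scoped InnerProductSpace ComplexConjugate

namespace Pool.Agent.MP_494aff_an.Un

open Pool.Agent.MP_494aff_an.Pinch Pool.Agent.MP_494aff_an.Pinch.TowP Pool.Agent.MP_494aff_an.Lf

namespace LimitP

variable {Γ : Type} [Group Γ]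

lemma norm_le {u : Op Γ} (h : UL u) : ‖u‖ ≤ 1 := by
  refine u.opNorm_le_bound zero_le_one fun ξ => ?_
  have h1 : ⟪u ξ, u ξ⟫_ℂ = ⟪ξ, ξ⟫_ℂ := by
    rw [← star_inner u (u ξ) ξ]
    exact congrArg (fun T : Op Γ => ⟪T ξ, ξ⟫_ℂ) h.2.1
  rw [inner_self_eq_norm_sq_to_K, inner_self_eq_norm_sq_to_K] at h1
  have h2 : ‖u ξ‖ ^ 2 = ‖ξ‖ ^ 2 := by exact_mod_cast h1
  rw [one_mul, (pow_left_inj₀ (norm_nonneg _) (norm_nonneg _) two_ne_zero).1 h2]

lemma one_eq {K : Subgroup Γ} {π : Γ → Op Γ} (h : ∀ x ∈ K, ∀ y ∈ K, π (x * y) = π x * π y)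
    (hu : ∀ x ∈ K, UL (π x)) : π 1 = 1 := by
  have h1 := h 1 K.one_mem 1 K.one_mem
  rw [mul_one] at h1
  have h2 := (hu 1 K.one_mem).2.1
  calc π 1 = star (π 1) * π 1 * π 1 := by rw [h2, one_mul]
    _ = 1 := by rw [mul_assoc, ← h1, h2]

lemma star_eq {K : Subgroup Γ} {π : Γ → Op Γ} (h : ∀ x ∈ K, ∀ y ∈ K, π (x * y) = π x * π y)
    (hu : ∀ x ∈ K, UL (π x)) {x : Γ} (hx : x ∈ K) : star (π x) = π x⁻¹ := by
  have h1 := h x⁻¹ (K.inv_mem hx) x hx
  rw [inv_mul_cancel, one_eq h hu] at h1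
  calc star (π x) = π x⁻¹ * π x * star (π x) := by rw [← h1, one_mul]
    _ = π x⁻¹ := by rw [mul_assoc, (hu x hx).2.2, mul_one]

end LimitP

open LimitP in
theorem limit : LimitStmt := by
  classical
  intro Γ _ K π W V hK hx hm hu ht hW hn hWV hcW hcV
  have ev : ∀ x, ∀ᶠ j in atTop, x ∈ K j := fun x => by
    obtain ⟨j, hj⟩ := hx x
    exact (eventually_ge_atTop j).mono fun i hi => hK hi hj
  set Q : ℕ → Γ → Op Γ := fun j x => if x ∈ K j then π j x else 1 with hQd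
  have hQ : ∀ j, ∀ x ∈ K j, Q j x = π j x := fun j x h => if_pos h
  have hQu : ∀ j x, UL (Q j x) := fun j x => by
    by_cases h : x ∈ K j
    · rw [hQ j x h]; exact hu j x h
    · rw [show Q j x = 1 from if_neg h]; exact SimA.UL_one
  obtain ⟨Wl, hWl⟩ := Ln.exists_lim hn hcW
  have h1 : ∀ x z, Tendsto (fun j => Q j x (dl z)) atTop (𝓝 (rho z⁻¹ (Wl (dl x)))) := by
    intro x z
    refine (((rho z⁻¹ : Op Γ).continuous.tendsto _).comp (hWl (dl x))).congr' ?_
    filter_upwards [ev x] with j hj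
    rw [LL_dl (hQu j x).1, hQ j x hj, ← hW j x hj]
    rfl
  choose L hL using fun x => Ln.exists_lim (T := fun j => Q j x) (fun j => norm_le (hQu j x))
    fun z => (h1 x z).cauchySeq
  have h2 : ∀ x, L x (dl 1) = Wl (dl x) := fun x => by
    have := tendsto_nhds_unique (hL x (dl 1)) (h1 x 1)
    rwa [_root_.inv_one, map_one] at this
  have hone : L 1 = 1 := by
    refine ContinuousLinearMap.ext fun ξ => tendsto_nhds_unique (hL 1 ξ) ?_
    refine tendsto_const_nhds.congr fun j => ?_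
    rw [hQ j 1 (K j).one_mem, one_eq (hm j) (hu j)]
  have hmul : ∀ x y, L (x * y) = L x * L y := fun x y => by
    refine ContinuousLinearMap.ext fun ξ => tendsto_nhds_unique (hL _ ξ) ?_
    refine (Ln.strong_ap' (fun j => norm_le (hQu j x)) (hL x) (hL y ξ)).congr' ?_
    filter_upwards [ev x, ev y] with j h h'
    rw [hQ j _ ((K j).mul_mem h h'), hm j x h y h', hQ j x h, hQ j y h']
    rfl
  refine ⟨⟨⟨L, hone⟩, hmul⟩, ⟨fun x => mem_LL.2 fun g => ?_, fun x => ?_, fun x h => ?_, ?_⟩,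
    fun x => ?_⟩
  · refine ContinuousLinearMap.ext fun ξ => tendsto_nhds_unique
      (((rho g : Op Γ).continuous.tendsto _).comp (hL x ξ)) ?_
    exact (hL x (rho g ξ)).congr fun j => (rho_LL (hQu j x).1 g ξ).symm
  · refine ContinuousLinearMap.ext fun ξ => ext_inner_right ℂ fun η => ?_
    rw [star_inner]
    refine tendsto_nhds_unique (tendsto_const_nhds.inner (hL x η))
      (((hL x⁻¹ ξ).inner tendsto_const_nhds).congr' ?_)
    filter_upwards [ev x] with j h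
    rw [hQ j _ ((K j).inv_mem h), ← star_eq (hm j) (hu j) h, star_inner, hQ j x h]
  · rw [← inner_dl]
    refine tendsto_nhds_unique (tendsto_const_nhds.inner (hL x (dl 1)))
      (tendsto_const_nhds.congr' ?_)
    filter_upwards [ev x] with j hj
    rw [inner_dl, hQ j x hj, ht j x hj h]
  · set M := Submodule.span ℂ (Set.range fun g => L g (dl 1)) with hM
    have h3 : ∀ ξ, Wl ξ ∈ closure (M : Set (H Γ)) := fun ξ => by
      refine map_mem_closure Wl.continuous (dense_dl ξ) fun η hη => ?_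
      have h4 : Submodule.span ℂ (Set.range (dl : Γ → H Γ)) ≤ M.comap (Wl : H Γ →ₗ[ℂ] H Γ) := by
        refine Submodule.span_le.2 ?_
        rintro _ ⟨y, rfl⟩
        exact Submodule.subset_span ⟨y, h2 y⟩
      exact h4 hη
    refine dense_closure.1 (dense_dl.mono ?_)
    show _ ⊆ (M.topologicalClosure : Set (H Γ))
    refine Submodule.span_le.2 ?_
    rintro _ ⟨z, rfl⟩
    obtain ⟨v, hv⟩ := cauchySeq_tendsto_of_complete (hcV z)
    have h5 : Wl v = dl z := by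
      refine tendsto_nhds_unique (Ln.strong_ap' hn hWl hv) (tendsto_const_nhds.congr' ?_)
      filter_upwards [ev z] with j hj
      exact (hWV j z hj).symm
    exact h5 ▸ h3 v
  · show Tendsto _ _ (𝓝 (L x (dl 1)))
    rw [h2]
    exact hWl _

end Pool.Agent.MP_494aff_an.Un

end MrgPart1

-- ======== part 2: formerly Pool.Agent.MP_494aff_an.se.PushH
section MrgPart2

/-! HNN extensions over finitely generated abelian groups keep a hierarchy. -/

open Monoid

namespace Pool.Agent.MP_494aff_an.Se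

open Pool.Agent.MP_494aff_an.Pinch Pool.Agent.MP_494aff_an.Pinch.TowP Pool.Agent.MP_494aff_an.Lf

namespace PH

variable {K A B G A₁ A₂ : Type} [Group K] [Group A] [Group B] [Group G] [Group A₁] [Group A₂]

lemma hier_pin {c : A} {d : B} {f : A →* G} {g : B →* G} (h : Pin c d f g)
    (ho : orderOf c = orderOf d) (hA : Hier A) (hB : Hier B) : Hier G := by
  have h0 := IndP.pin_amalg c d
  obtain ⟨π, p1, p2⟩ := h0.lift G f g h.comm
  obtain ⟨ρ, r1, r2⟩ := h.lift (Amalg c d) _ _ h0.comm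
  refine Hier.iso _ _ (Hier.amal A B c d hA hB ho) (MonoidHom.toMulEquiv π ρ ?_ ?_)
  · exact MonoidHom.ext fun z => h0.gen ((ρ.comp π).eqLocus (MonoidHom.id _))
      (fun p => (congrArg ρ (p1 p)).trans (r1 p)) (fun q => (congrArg ρ (p2 q)).trans (r2 q)) z
  · exact MonoidHom.ext fun z => h.gen ((π.comp ρ).eqLocus (MonoidHom.id _))
      (fun p => (congrArg π (r1 p)).trans (p1 p)) (fun q => (congrArg π (r2 q)).trans (p2 q)) z

lemma hier_hn {c c' : A} {f : A →* G} {t : G} (h : FG.Hn c' c f t)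
    (ho : orderOf c = orderOf c') (hA : Hier A) : Hier G := by
  have h0 := IndP.hn_hnn c c'
  obtain ⟨π, p1, p2⟩ := h0.lift G f t h.comm
  obtain ⟨ρ, r1, r2⟩ := h.lift (Hnn c c') _ _ h0.comm
  refine Hier.iso _ _ (Hier.hnn A c c' hA ho) (MonoidHom.toMulEquiv π ρ ?_ ?_)
  · exact MonoidHom.ext fun z => h0.gen ((ρ.comp π).eqLocus (MonoidHom.id _))
      (fun p => (congrArg ρ (p1 p)).trans (r1 p)) ((congrArg ρ p2).trans r2) z
  · exact MonoidHom.ext fun z => h.gen ((π.comp ρ).eqLocus (MonoidHom.id _))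
      (fun p => (congrArg π (r1 p)).trans (p1 p)) ((congrArg π r2).trans p2) z

lemma exists_hnk {i j : K →* A} (hi : Function.Injective i) (hj : Function.Injective j) :
    ∃ (G : Type) (_ : Group G) (f : A →* G) (t : G), HnK i j f t ∧ Function.Injective f := by
  let φ : i.range ≃* j.range := (MonoidHom.ofInjective hi).symm.trans (MonoidHom.ofInjective hj)
  have e : ∀ x, (φ (MonoidHom.ofInjective hi x) : A) = j x := fun x => by
    simp [φ, MonoidHom.ofInjective_apply]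
  refine ⟨HNNExtension A _ _ φ, inferInstance, HNNExtension.of, HNNExtension.t,
    ⟨fun x => ?_, fun M _ ψ τ h => ?_, fun T h1 h2 z => ?_⟩, HNNExtension.of_injective φ⟩
  · have := HNNExtension.equiv_eq_conj (φ := φ) (MonoidHom.ofInjective hi x)
    rwa [e, MonoidHom.ofInjective_apply] at this
  · refine ⟨HNNExtension.lift ψ τ fun a => ?_, fun a => HNNExtension.lift_of _ _ _ _,
      HNNExtension.lift_t _ _ _⟩
    obtain ⟨x, rfl⟩ := (MonoidHom.ofInjective hi).surjective a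
    rw [e, h, MonoidHom.ofInjective_apply, inv_mul_cancel_right]
  · induction z using HNNExtension.induction_on with
    | of g => exact h1 g
    | t => exact h2
    | mul x y hx hy => exact mul_mem hx hy
    | inv x hx => exact inv_mem hx

variable {i j : K →* A} {f : A →* G} {t : G}

lemma hnk_inj (h : HnK i j f t) (hi : Function.Injective i) (hj : Function.Injective j) :
    Function.Injective f := by
  obtain ⟨G', _, f', t', h', hf⟩ := exists_hnk hi hj
  obtain ⟨π, p, -⟩ := h.lift G' f' t' h'.comm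
  exact fun x y e => hf ((p x).symm.trans ((congrArg π e).trans (p y)))

/-- Conjugation of the two edge maps. -/
lemma hnk_conj (h : HnK i j f t) (u v : A) {i' j' : K →* A} (hi : ∀ x, i' x = u * i x * u⁻¹)
    (hj : ∀ x, j' x = v * j x * v⁻¹) : HnK i' j' f (f v * t * (f u)⁻¹) where
  comm := fun x => by
    simp only [hi, hj, map_mul, map_inv, h.comm]
    group
  lift := fun M _ φ τ hφ => by
    obtain ⟨π, h1, h2⟩ := h.lift M φ ((φ v)⁻¹ * τ * φ u) fun x => by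
      have := hφ x
      simp only [hi, hj, map_mul, map_inv] at this
      calc φ (j x) = (φ v)⁻¹ * (φ v * φ (j x) * (φ v)⁻¹) * φ v := by group
        _ = _ := by rw [this]; group
    refine ⟨π, h1, ?_⟩
    simp only [map_mul, map_inv, h1, h2]
    group
  gen := fun T h1 h2 => h.gen T h1 (by
    have := mul_mem (mul_mem (inv_mem (h1 v)) h2) (h1 u)
    simpa [mul_assoc] using this)

/-- A map with values in a conjugate of a subgroup factors. -/
lemma factor {F : A₁ →* A} (hF : Function.Injective F) (hi : Function.Injective i) {u : A}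
    (h : ∀ x, u * i x * u⁻¹ ∈ F.range) :
    ∃ i₁ : K →* A₁, Function.Injective i₁ ∧ ∀ x, F.comp i₁ x = u * i x * u⁻¹ := by
  let i₁ : K →* A₁ := (MonoidHom.ofInjective hF).symm.toMonoidHom.comp
    (((MulAut.conj u).toMonoidHom.comp i).codRestrict F.range h)
  have e : ∀ x, F (i₁ x) = u * i x * u⁻¹ := fun x =>
    MonoidHom.apply_ofInjective_symm hF ⟨u * i x * u⁻¹, h x⟩
  refine ⟨i₁, fun x y hxy => hi ?_, e⟩
  have := (e x).symm.trans ((congrArg F hxy).trans (e y))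
  simpa using this

section Ell

variable {c c' : A₁} {d : A₂} {f₁ : A₁ →* A} {f₂ : A₂ →* A} {s : A}

lemma comm_conj (hK : ∀ x y : K, x * y = y * x) (y : A) (x k : K) :
    y * i x * y⁻¹ * (y * i k * y⁻¹) = y * i k * y⁻¹ * (y * i x * y⁻¹) := by
  calc y * i x * y⁻¹ * (y * i k * y⁻¹) = y * i (x * k) * y⁻¹ := by rw [map_mul]; group
    _ = y * i (k * x) * y⁻¹ := by rw [hK]
    _ = _ := by rw [map_mul]; group

lemma conj_ne (hi : Function.Injective i) {k : K} (hk : k ≠ 1) (y : A) : y * i k * y⁻¹ ≠ 1 :=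
  fun e => hk (hi (by rw [map_one]; simpa using e))

lemma not_root (hA : CT A) (hi : Function.Injective i) (hK : ∀ x y : K, x * y = y * x)
    (hn : ¬ IsCyclic K) {k : K} (hk : k ≠ 1) {y w : A} (hw : Cyc w) :
    y * i k * y⁻¹ ∉ Subgroup.zpowers w := fun hm => by
  have h : ∀ x, y * i x * y⁻¹ ∈ (Subgroup.zpowers w).subtype.range := fun x =>
    ⟨⟨_, hw.2 _ (HxP.ct_root hA (conj_ne hi hk y) hm (comm_conj hK y x k))⟩, rfl⟩
  obtain ⟨i₁, h1, -⟩ := factor (Subgroup.subtype_injective _) hi h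
  exact hn (isCyclic_of_injective i₁ h1)

lemma exists_ne (hn : ¬ IsCyclic K) : ∃ k : K, k ≠ 1 := by
  by_contra h
  have : Subsingleton K := ⟨fun a b => by
    rw [not_not.1 fun e : a ≠ 1 => h ⟨a, e⟩, not_not.1 fun e : b ≠ 1 => h ⟨b, e⟩]⟩
  exact hn isCyclic_of_subsingleton

/-- One side of an amalgam. -/
lemma side (h : AmP.Sy c d f₁ f₂) (hi : Function.Injective i) (hK : ∀ x y : K, x * y = y * x)
    {k : K} (hk : k ≠ 1) {y : A} (hy : y * i k * y⁻¹ ∈ f₁.range) :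
    (∀ x, y * i x * y⁻¹ ∈ f₁.range) ∨
      c ≠ 1 ∧ ∃ y', ∀ x, y' * i x * y'⁻¹ * f₁ c = f₁ c * (y' * i x * y'⁻¹) := by
  by_cases h0 : ∀ x, y * i x * y⁻¹ ∈ f₁.range
  · exact Or.inl h0
  right
  obtain ⟨x₀, hx₀⟩ := not_forall.1 h0
  obtain ⟨a, ha⟩ := hy
  obtain ⟨a0, a', s, e, n, w, hw, hxe⟩ := (cls A₁ A f₁ _ _ h.split).1 _ hx₀
  have e1 := HxP.conj_in (r := a) hxe (by rw [ha]; exact comm_conj hK y x₀ k)
  have e2 := h.junction cls hw ⟨_, e1.symm⟩
  have e3 : f₁ (a0⁻¹ * a * a0) = (f₁ a0)⁻¹ * y * i k * ((f₁ a0)⁻¹ * y)⁻¹ := by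
    rw [map_mul, map_mul, map_inv, ha]; group
  have e4 := HxP.map_mem f₁ e2
  rw [e3] at e4
  have e5 := conj_ne hi hk ((f₁ a0)⁻¹ * y)
  refine ⟨fun hc => e5 ?_, (f₁ a0)⁻¹ * y, fun x => HxP.ct_root h.ct e5 e4 (comm_conj hK _ x k)⟩
  rwa [hc, map_one, Subgroup.zpowers_one_eq_bot, Subgroup.mem_bot] at e4

lemma ellA (h1 : AmStmt) (h : Am c d f₁ f₂) (hi : Function.Injective i)
    (hK : ∀ x y : K, x * y = y * x) (hn : ¬ IsCyclic K) :
    ∃ y, (∀ x, y * i x * y⁻¹ ∈ f₁.range) ∨ ∀ x, y * i x * y⁻¹ ∈ f₂.range := by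
  obtain ⟨k, hk⟩ := exists_ne hn
  have hs := AmP.sy h
  obtain ⟨y, hy | hy | ⟨⟨w, hw, hm⟩, -⟩⟩ := (h1 _ _ _ c d f₁ f₂ h).1 (i k)
  · rcases side hs hi hK hk hy with h0 | ⟨hc, y', h0⟩
    · exact ⟨y, Or.inl h0⟩
    · exact ⟨y', Or.inr fun x => hs.o5 cls (AmP.cyc_of h (Subgroup.mem_zpowers c) hc) (h0 x)⟩
  · rcases side hs.symm hi hK hk hy with h0 | ⟨hd, y', h0⟩
    · exact ⟨y, Or.inr h0⟩
    · have hc : Cyc c := by
        rcases h.edge with ⟨-, e⟩ | ⟨hc, -⟩
        · exact (hd e).elim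
        · exact hc
      exact ⟨y', Or.inr fun x => hs.o5 cls hc (by rw [h.pin.comm]; exact h0 x)⟩
  · exact (not_root h.ct hi hK hn hk hw hm).elim

lemma ellH (h2 : HxStmt) (h : Hx c c' f₁ s) (hi : Function.Injective i)
    (hK : ∀ x y : K, x * y = y * x) (hn : ¬ IsCyclic K) :
    ∃ y, ∀ x, y * i x * y⁻¹ ∈ f₁.range := by
  obtain ⟨k, hk⟩ := exists_ne hn
  obtain ⟨y, hy | ⟨⟨w, hw, hm⟩, -⟩⟩ := (h2 _ _ c c' f₁ s h).1 (i k)
  swap
  · exact (not_root h.ct hi hK hn hk hw hm).elim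
  by_cases h0 : ∀ x, y * i x * y⁻¹ ∈ f₁.range
  · exact ⟨y, h0⟩
  obtain ⟨x₀, hx₀⟩ := not_forall.1 h0
  obtain ⟨a, ha⟩ := hy
  obtain ⟨a0, a', b, e, n, w, hw, hxe⟩ := (cls A₁ A f₁ _ _ (HxP.split h)).1 _ hx₀
  have e1 := HxP.conj_in (r := a) hxe (by rw [ha]; exact comm_conj hK y x₀ k)
  have e2 := HxP.junction cls h hw ⟨_, e1.symm⟩
  have e3 : f₁ (a0⁻¹ * a * a0) = (f₁ a0)⁻¹ * y * i k * ((f₁ a0)⁻¹ * y)⁻¹ := by
    rw [map_mul, map_mul, map_inv, ha]; group
  have e4 := HxP.map_mem f₁ e2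
  rw [e3] at e4
  have e5 := fun x => HxP.ct_root h.ct (conj_ne hi hk ((f₁ a0)⁻¹ * y)) e4 (comm_conj hK _ x k)
  cases b with
  | false => exact ⟨_, fun x => HxP.o5 cls h (e5 x)⟩
  | true =>
    refine ⟨s * ((f₁ a0)⁻¹ * y), fun x => HxP.o5 cls h ?_⟩
    have e6 : (f₁ a0)⁻¹ * y * i x * ((f₁ a0)⁻¹ * y)⁻¹ * f₁ c =
        f₁ c * ((f₁ a0)⁻¹ * y * i x * ((f₁ a0)⁻¹ * y)⁻¹) := e5 x
    rw [h.hn.comm]
    calc _ = s * ((f₁ a0)⁻¹ * y * i x * ((f₁ a0)⁻¹ * y)⁻¹ * f₁ c) * s⁻¹ := by group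
      _ = _ := by rw [e6]; group

end Ell

section Push

variable {c c' : A₁} {d : A₂} {f₁ : A₁ →* A} {f₂ : A₂ →* A} {s : A} {G₁ : Type} [Group G₁]

/-- Both edge groups in the first factor of an amalgam. -/
lemma pin_hnk {i₁ j₁ : K →* A₁} (hp : Pin c d f₁ f₂) (h : HnK (f₁.comp i₁) (f₁.comp j₁) f t)
    {F : A₁ →* G₁} {t₁ : G₁} (h₁ : HnK i₁ j₁ F t₁) :
    ∃ p : G₁ →* G, Pin (F c) d p (f.comp f₂) := by
  obtain ⟨p, p1, p2⟩ := h₁.lift G (f.comp f₁) t h.comm
  refine ⟨p, (p1 c).trans (congrArg f hp.comm), fun M _ φ ψ e => ?_, fun T h1 h2 => ?_⟩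
  · obtain ⟨χ, c1, c2⟩ := hp.lift M (φ.comp F) ψ e
    obtain ⟨π, q1, q2⟩ := h.lift M χ (φ t₁) fun x => by
      show χ (f₁ (j₁ x)) = φ t₁ * χ (f₁ (i₁ x)) * (φ t₁)⁻¹
      rw [c1, c1, MonoidHom.comp_apply, MonoidHom.comp_apply, h₁.comm, map_mul, map_mul, map_inv]
    refine ⟨π, h₁.gen ((π.comp p).eqLocus φ) (fun a => ?_) ((congrArg π p2).trans q2),
      fun b => (q1 _).trans (c2 b)⟩
    exact (congrArg π (p1 a)).trans ((q1 _).trans (c1 a))
  · refine h.gen T (hp.gen (T.comap f) (fun a => ?_) h2) (p2 ▸ h1 t₁)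
    have := h1 (F a)
    rwa [p1] at this

/-- The edge groups in different factors of an amalgam. -/
lemma hn_amal {i₁ : K →* A₁} {j₁ : K →* A₂} (hp : Pin c d f₁ f₂)
    (h : HnK (f₁.comp i₁) (f₂.comp j₁) f t) {F₁ : A₁ →* G₁} {F₂ : A₂ →* G₁}
    (h₁ : Amal i₁ j₁ F₁ F₂) : ∃ p : G₁ →* G, FG.Hn (F₁ c) (F₂ d) p t := by
  obtain ⟨p, p1, p2⟩ := h₁.lift G (f.comp f₁) ((MulAut.conj t⁻¹).toMonoidHom.comp (f.comp f₂))
    fun x => by
      have : f (f₂ (j₁ x)) = t * f (f₁ (i₁ x)) * t⁻¹ := h.comm x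
      show f (f₁ (i₁ x)) = t⁻¹ * f (f₂ (j₁ x)) * t⁻¹⁻¹
      rw [this]; group
  have p1' : ∀ a, p (F₁ a) = f (f₁ a) := p1
  have p2' : ∀ b, p (F₂ b) = t⁻¹ * f (f₂ b) * t⁻¹⁻¹ := p2
  refine ⟨p, ?_, fun M _ φ τ e => ?_, fun T h1 h2 => ?_⟩
  · rw [p1', p2', hp.comm]; group
  · obtain ⟨χ, c1, c2⟩ := hp.lift M (φ.comp F₁) ((MulAut.conj τ).toMonoidHom.comp (φ.comp F₂)) e
    have c1' : ∀ a, χ (f₁ a) = φ (F₁ a) := c1
    have c2' : ∀ b, χ (f₂ b) = τ * φ (F₂ b) * τ⁻¹ := c2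
    obtain ⟨π, q1, q2⟩ := h.lift M χ τ fun x => by
      show χ (f₂ (j₁ x)) = τ * χ (f₁ (i₁ x)) * τ⁻¹
      rw [c1', c2', h₁.comm]
    refine ⟨π, h₁.gen ((π.comp p).eqLocus φ) (fun a => ?_) (fun b => ?_), q2⟩
    · show π (p (F₁ a)) = φ (F₁ a)
      rw [p1', q1, c1']
    · show π (p (F₂ b)) = φ (F₂ b)
      rw [p2', map_mul, map_mul, map_inv, map_inv, map_inv, q1, q2, c2']
      group
  · refine h.gen T (hp.gen (T.comap f) (fun a => ?_) fun b => ?_) h2
    · have := h1 (F₁ a)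
      rwa [p1'] at this
    · have := mul_mem (mul_mem h2 (h1 (F₂ b))) (inv_mem h2)
      rw [p2'] at this
      show f (f₂ b) ∈ T
      simpa [mul_assoc] using this

/-- Two stable letters. -/
lemma hn_hnk {i₁ j₁ : K →* A₁} (hp : FG.Hn c' c f₁ s) (h : HnK (f₁.comp i₁) (f₁.comp j₁) f t)
    {F : A₁ →* G₁} {t₁ : G₁} (h₁ : HnK i₁ j₁ F t₁) :
    ∃ p : G₁ →* G, FG.Hn (F c') (F c) p (f s) := by
  obtain ⟨p, p1, p2⟩ := h₁.lift G (f.comp f₁) t h.comm
  have p1' : ∀ a, p (F a) = f (f₁ a) := p1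
  refine ⟨p, ?_, fun M _ φ τ e => ?_, fun T h1 h2 => ?_⟩
  · rw [p1', p1', hp.comm, map_mul, map_mul, map_inv]
  · obtain ⟨χ, c1, c2⟩ := hp.lift M (φ.comp F) τ e
    obtain ⟨π, q1, q2⟩ := h.lift M χ (φ t₁) fun x => by
      show χ (f₁ (j₁ x)) = φ t₁ * χ (f₁ (i₁ x)) * (φ t₁)⁻¹
      rw [c1, c1, MonoidHom.comp_apply, MonoidHom.comp_apply, h₁.comm, map_mul, map_mul, map_inv]
    refine ⟨π, h₁.gen ((π.comp p).eqLocus φ) (fun a => ?_) ((congrArg π p2).trans q2),
      (q1 _).trans c2⟩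
    exact (congrArg π (p1 a)).trans ((q1 _).trans (c1 a))
  · refine h.gen T (hp.gen (T.comap f) (fun a => ?_) h2) (p2 ▸ h1 t₁)
    have := h1 (F a)
    rwa [p1] at this

end Push

/-- The claim for one base group. -/
def Q (A : Type) [Group A] : Prop :=
  ∀ (K G : Type) [Group K] [Group G] (i j : K →* A) (f : A →* G) (t : G),
    HnK i j f t → Function.Injective i → Function.Injective j → CT G → Group.FG K →
    (∀ x y : K, x * y = y * x) → ¬ IsCyclic K → Hier G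

lemma q_ab (fA : Group.FG A) (hA : ¬ NA A) : Q A := by
  intro K G _ _ i j f t h hi hj hG _ _ hn
  have hc : ∀ x y : A, f x * f y = f y * f x := fun x y => by
    rw [← map_mul, ← map_mul, not_not.1 fun e : x * y ≠ y * x => hA ⟨x, y, e⟩]
  obtain ⟨k, hk⟩ := exists_ne hn
  have h1 : f (i k) ≠ 1 := fun e => hk (hi (hnk_inj h hi hj (by rw [e, map_one, map_one])))
  have h2 : t * f (i k) = f (i k) * t := HxP.csa hG (by rw [← h.comm, hc])
  have h3 : ∀ z, f (i k) * z = z * f (i k) := fun z =>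
    (Subgroup.mem_centralizer_singleton_iff.1 (h.gen (Subgroup.centralizer {f (i k)})
      (fun a => Subgroup.mem_centralizer_singleton_iff.2 (hc _ _))
      (Subgroup.mem_centralizer_singleton_iff.2 h2) z)).symm
  refine Hier.abel G ?_ fun x y => hG.ct _ x y h1 (h3 x) (h3 y)
  obtain ⟨S, hS, fS⟩ := Group.fg_iff.1 fA
  exact Group.fg_iff.2 ⟨insert t (f '' S), (Subgroup.eq_top_iff' _).2 (h.gen _
    (IndP.mem_of_top hS (Set.subset_insert _ _)) (Subgroup.subset_closure (Set.mem_insert _ _))),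
    (fS.image _).insert _⟩

section Step

variable {c c' : A₁} {d : A₂} {f₁ : A₁ →* A} {f₂ : A₂ →* A} {s u v : A}

lemma same (hp : Pin c d f₁ f₂) (ho : orderOf c = orderOf d) (q : Q A₁) (h₂ : Hier A₂)
    (h : HnK i j f t) (hi : Function.Injective i) (hj : Function.Injective j) (hG : CT G)
    (fK : Group.FG K) (hK : ∀ x y : K, x * y = y * x) (hn : ¬ IsCyclic K)
    (hu : ∀ x, u * i x * u⁻¹ ∈ f₁.range) (hv : ∀ x, v * j x * v⁻¹ ∈ f₁.range) : Hier G := by
  have hf := (IndP.pin_nf hp ho).1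
  obtain ⟨i₁, hi₁, e1⟩ := factor hf hi hu
  obtain ⟨j₁, hj₁, e2⟩ := factor hf hj hv
  obtain ⟨G₁, _, F, t₁, h₁, hF⟩ := exists_hnk hi₁ hj₁
  obtain ⟨p, hp'⟩ := pin_hnk hp (hnk_conj h u v e1 e2) h₁
  have ho' : orderOf (F c) = orderOf d := (orderOf_injective F hF c).trans ho
  exact hier_pin hp' ho' (q K G₁ i₁ j₁ F t₁ h₁ hi₁ hj₁
    (ct_of_inj (IndP.pin_nf hp' ho').1 hG) fK hK hn) h₂

lemma diff (hA : PushAStmt) (hp : Pin c d f₁ f₂) (ho : orderOf c = orderOf d) (h₁ : Hier A₁)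
    (h₂ : Hier A₂) (h : HnK i j f t) (hi : Function.Injective i) (hj : Function.Injective j)
    (hG : CT G) (fK : Group.FG K) (hK : ∀ x y : K, x * y = y * x)
    (hu : ∀ x, u * i x * u⁻¹ ∈ f₁.range) (hv : ∀ x, v * j x * v⁻¹ ∈ f₂.range) : Hier G := by
  obtain ⟨hf₁, hf₂, -⟩ := IndP.pin_nf hp ho
  obtain ⟨i₁, hi₁, e1⟩ := factor hf₁ hi hu
  obtain ⟨j₁, hj₁, e2⟩ := factor hf₂ hj hv
  obtain ⟨G₁, _, F₁, F₂, h₀⟩ := FG.exists_amal i₁ j₁
  obtain ⟨p, hp'⟩ := hn_amal hp (hnk_conj h u v e1 e2) h₀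
  have ho' : orderOf (F₂ d) = orderOf (F₁ c) := by
    rw [orderOf_injective F₁ (Gl.nf h₀ hi₁ hj₁).1,
      orderOf_injective F₂ (Gl.nf (FG.amal_symm h₀) hj₁ hi₁).1, ho]
  exact hier_hn hp' ho' (hA K A₁ A₂ G₁ i₁ j₁ F₁ F₂ h₀ hi₁ hj₁
    (ct_of_inj (IndP.hn_inj hp' ho') hG) fK hK h₁ h₂)

lemma am_ord (h : Am c d f₁ f₂) : orderOf c = orderOf d := by
  rcases h.edge with ⟨rfl, rfl⟩ | ⟨hc, hd⟩
  · simp
  · rw [IndP.ord_zero hd, IndP.ord_zero ((ct_of_inj h.hf h.ct).tf c hc.1)]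

lemma hx_ord (h : Hx c c' f₁ s) : orderOf c = orderOf c' := by
  rw [IndP.ord_zero (HxP.infOrd h h.cyc.1), IndP.ord_zero (HxP.infOrd h (HxP.ne_one' h))]

lemma q_am (h1 : AmStmt) (hA : PushAStmt) (ha : Am c d f₁ f₂) (h₁ : Hier A₁) (h₂ : Hier A₂)
    (q₁ : Q A₁) (q₂ : Q A₂) : Q A := by
  intro K G _ _ i j f t h hi hj hG fK hK hn
  have ho := am_ord ha
  obtain ⟨u, hu | hu⟩ := ellA h1 ha hi hK hn <;> obtain ⟨v, hv | hv⟩ := ellA h1 ha hj hK hn
  · exact same ha.pin ho q₁ h₂ h hi hj hG fK hK hn hu hv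
  · exact diff hA ha.pin ho h₁ h₂ h hi hj hG fK hK hu hv
  · exact diff hA (IndP.pin_symm ha.pin) ho.symm h₂ h₁ h hi hj hG fK hK hu hv
  · exact same (IndP.pin_symm ha.pin) ho.symm q₂ h₁ h hi hj hG fK hK hn hu hv

lemma q_hx (h2 : HxStmt) (ha : Hx c c' f₁ s) (q : Q A₁) : Q A := by
  intro K G _ _ i j f t h hi hj hG fK hK hn
  obtain ⟨u, hu⟩ := ellH h2 ha hi hK hn
  obtain ⟨v, hv⟩ := ellH h2 ha hj hK hn
  obtain ⟨i₁, hi₁, e1⟩ := factor ha.hf hi hu
  obtain ⟨j₁, hj₁, e2⟩ := factor ha.hf hj hv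
  obtain ⟨G₁, _, F, t₁, h₁, hF⟩ := exists_hnk hi₁ hj₁
  obtain ⟨p, hp'⟩ := hn_hnk ha.hn (hnk_conj h u v e1 e2) h₁
  have ho' : orderOf (F c) = orderOf (F c') := by
    rw [orderOf_injective F hF, orderOf_injective F hF, hx_ord ha]
  exact hier_hn hp' ho' (q K G₁ i₁ j₁ F t₁ h₁ hi₁ hj₁
    (ct_of_inj (IndP.hn_inj hp' ho') hG) fK hK hn)

end Step

end PH

open PH in
theorem pushH (hI : IndStmt) (h1 : AmStmt) (h2 : HxStmt) (hA : PushAStmt) : PushHStmt := by
  intro K A G _ _ _ i j f t h hi hj hG fK hK hH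
  by_cases hn : IsCyclic K
  · obtain ⟨k, hk⟩ := hn.exists_generator
    refine hier_hn (c := i k) (c' := j k) ⟨h.comm k, fun M _ φ τ e => h.lift M φ τ fun x => ?_,
      h.gen⟩ (by rw [orderOf_injective i hi, orderOf_injective j hj]) hH
    obtain ⟨n, rfl⟩ := hk x
    simp only [map_zpow, e, conj_zpow]
  refine (hI (fun A _ => Hier A ∧ Q A) (fun A _ fA _ ab => ⟨Hier.abel A fA fun x y =>
      not_not.1 fun e => ab ⟨x, y, e⟩, q_ab fA ab⟩)
    (fun A₁ A₂ A _ _ _ c d f₁ f₂ ha _ _ _ p₁ p₂ => ⟨hier_pin ha.pin (am_ord ha) p₁.1 p₂.1,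
      q_am h1 hA ha p₁.1 p₂.1 p₁.2 p₂.2⟩)
    (fun A₁ A _ _ c c' f₁ s ha _ _ p => ⟨hier_hn ha.hn (hx_ord ha) p.1, q_hx h2 ha p.2⟩)
    A hH (ct_of_inj (hnk_inj h hi hj) hG)).2 K G i j f t h hi hj hG fK hK hn

end Pool.Agent.MP_494aff_an.Se

end MrgPart2

-- ======== part 3: formerly Pool.Agent.MP_494aff_an.fr.Full
section MrgPart3

-- ======== part 0: formerly Pool.Agent.MP_494aff_an.un.End
section MrgPart0

/-! The last two steps. -/

open Monoid Filter Topology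
open scoped InnerProductSpace ComplexConjugate

namespace Pool.Agent.MP_494aff_an.Un

open Pool.Agent.MP_494aff_an.Pinch Pool.Agent.MP_494aff_an.Pinch.TowP Pool.Agent.MP_494aff_an.Lf

namespace EndP

variable {G : Type} [Group G]

lemma inr_mem (w : FreeGroup ℕ) :
    (Coprod.inr w : Gam G) ∈ Subgroup.closure (Set.range (lt G)) := by
  induction w using FreeGroup.induction_on with
  | C1 => rw [map_one]; exact one_mem _
  | of n => exact Subgroup.subset_closure ⟨n, rfl⟩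
  | inv_of n h => rw [map_inv]; exact inv_mem h
  | mul x y hx hy => rw [map_mul]; exact mul_mem hx hy

lemma all_mem (z : Gam G) :
    z ∈ Subgroup.closure (Set.range (Coprod.inl : G → Gam G) ∪ Set.range (lt G)) := by
  induction z using Coprod.induction_on with
  | inl g => exact Subgroup.subset_closure (Or.inl ⟨g, rfl⟩)
  | inr w => exact Subgroup.closure_mono Set.subset_union_right (inr_mem w)
  | mul x y hx hy => exact mul_mem hx hy

lemma fr_le (C : Set ℕ) : fr G C ≤ (Coprod.inr : FreeGroup ℕ →* Gam G).range := by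
  refine (Subgroup.closure_le _).2 ?_
  rintro _ ⟨n, -, rfl⟩
  exact ⟨_, rfl⟩

lemma only_inl {A : Type} [Group A] (z : Coprod A Unit) : ∃ a, z = Coprod.inl a := by
  induction z using Coprod.induction_on with
  | inl g => exact ⟨g, rfl⟩
  | inr w => exact ⟨1, by rw [Subsingleton.elim w 1, map_one, map_one]⟩
  | mul x y hx hy =>
    obtain ⟨a, rfl⟩ := hx
    obtain ⟨b, rfl⟩ := hy
    exact ⟨a * b, (map_mul _ _ _).symm⟩

lemma j_inj {Γ : Type} [Group Γ] (L : Subgroup Γ) :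
    Function.Injective (Coprod.lift L.subtype (1 : Unit →* Γ)) := by
  intro x y h
  obtain ⟨a, rfl⟩ := only_inl x
  obtain ⟨b, rfl⟩ := only_inl y
  simp only [Coprod.lift_apply_inl] at h
  rw [L.subtype_injective h]

lemma j_range {Γ : Type} [Group Γ] (L : Subgroup Γ) :
    (Coprod.lift L.subtype (1 : Unit →* Γ)).range = L := by
  ext x
  constructor
  · rintro ⟨z, rfl⟩
    obtain ⟨a, rfl⟩ := only_inl z
    rw [Coprod.lift_apply_inl]
    exact a.2
  · intro hx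
    exact ⟨Coprod.inl ⟨x, hx⟩, by rw [Coprod.lift_apply_inl]; rfl⟩

lemma eqv {Λ : Type} [Group Λ] (h : ∃ π : G →* Op Λ, Gen π) : Eqv Λ G := by
  obtain ⟨π, hπ⟩ := h
  exact ⟨π, hπ, fun q => by simp only [MonoidHom.one_apply, map_one], fun l => l.elim⟩

end EndP

open EndP

theorem freeAll (hB : Bas) (h1 : MoveStmt) (h2 : MvFrStmt) (h3 : Int2Stmt) : FreeAllStmt := by
  classical
  intro G _ hG
  have := Ut.countable_gam hG
  refine h3 (FreeGroup ℕ) (Gam G) Coprod.inr Coprod.inr_injective fun E F η hη => ?_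
  obtain ⟨T₀, δ, hT₀, hδ, w₀⟩ := hB.near.word (Gam G) _ F η (fun z _ => all_mem z) hη
  obtain ⟨T₁, δ', hT₁, hδ', w₁⟩ := hB.near.word (Gam G) (Set.range (lt G))
    (E.image Coprod.inr) η (fun z hz => by
      obtain ⟨w, -, rfl⟩ := Finset.mem_image.1 hz
      exact inr_mem w) hη
  obtain ⟨L, hL₀, hL, hI, hH⟩ := hG.cof ∅
    (Subgroup.closure
      ((T₀.filter fun x => x ∈ Set.range (Coprod.inl : G → Gam G) : Finset (Gam G)) : Set (Gam G)))
    ((Subgroup.closure_le _).2 fun x hx => by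
      obtain ⟨g, rfl⟩ := (Finset.mem_filter.1 (Finset.mem_coe.1 hx)).2
      exact Ut.inl_mem_sub _ g) ⟨_, rfl⟩
  obtain ⟨C₁, hC₁⟩ := Ut.pre (T₀ ∪ T₁) (lt G)
  obtain ⟨Y, hY⟩ := Ut.pre T₀ (L.subtype : L → Gam G)
  obtain ⟨α, hα, -, e₁, e₂⟩ := h2.letters L (h1 L hH (ct_of_inj L.subtype_injective hG.ct)) G Unit
    (Coprod.lift L.subtype 1) hG inferInstance (j_inj L) (by rw [j_range]; exact hI) ∅ C₁ Y ∅
    (min δ δ') (by rw [j_range]; exact hL.trans (Ut.sub_mono (Set.empty_subset _)))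
    (lt_min hδ hδ')
  refine ⟨α, hα, fun g hg => (w₁ α hα).2 (fun x hx => ?_) _ (Finset.mem_image_of_mem _ hg),
    (w₀ α hα).1 _ fun x hx => ?_⟩
  · obtain ⟨n, hn, rfl⟩ := hC₁ x (Finset.mem_union_right _ hx) (hT₁ x hx)
    exact (e₁ n hn).trans (min_le_right _ _)
  · rcases hT₀ x hx with h | h
    · obtain ⟨a, ha, rfl⟩ := hY x hx
        ⟨⟨x, hL₀ (Subgroup.subset_closure (Finset.mem_coe.2 (Finset.mem_filter.2 ⟨hx, h⟩)))⟩, rfl⟩
      have := e₂ a ha
      rw [Coprod.lift_apply_inl] at this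
      exact Ut.near_mono (Ut.near_le this (fr_le _)) (min_le_left _ _)
    · obtain ⟨n, hn, rfl⟩ := hC₁ x (Finset.mem_union_left _ hx) h
      exact Ut.near_dl ⟨_, rfl⟩ ((e₁ n hn).trans (min_le_left _ _))

theorem union (h0 : GoodStmt) (h1 : AbsAllStmt) (h2 : FreeAllStmt) (hR : RigidStmt)
    (hH : HierStmt) : UnionStmt := by
  intro G _ hc hL hN
  have hG := h0 hR hH G hc hL
  exact Sim.vnIso (Sim.trans (Sim.symm (eqv (h1 G hG hN))) (eqv (h2 G hG)))

end Pool.Agent.MP_494aff_an.Un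

end MrgPart0

-- ======== part 1: formerly Pool.Agent.MP_494aff_an.un.Main
section MrgPart1

/-! Assembly of the parts. -/

namespace Pool.Agent.MP_494aff_an.Un

theorem basAll : Bas := ⟨cp, gam cp, cz, lets cp (gam cp) cz, near, adS⟩

theorem gfAll : GFStmt :=
  gf basAll (stage basAll (f4 basAll ndS loc4 form4) (tk core) (liftS (dense basAll) van)) limit

theorem moveAll : MoveStmt :=
  move (mvAb basAll (shiftS basAll gfAll argS) (abc basAll conjS))
    (mvHn basAll (shiftS basAll gfAll argS) conjS (hnInd basAll)) (mvFr basAll)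

theorem unionAll (hH : HierStmt) : UnionStmt :=
  union (good basAll) (absAll basAll (absOne basAll (dense basAll) gfAll argS) int2)
    (freeAll basAll moveAll (mvFr basAll) int2) rigidAll hH

end Pool.Agent.MP_494aff_an.Un

end MrgPart1

-- ======== part 2: formerly Pool.Agent.MP_494aff_an.fr.Main
section MrgPart2

/-! The hierarchy theorem from the output of the machine. -/

namespace Pool.Agent.MP_494aff_an.Fr

open Pool.Agent.MP_494aff_an.Lf Pool.Agent.MP_494aff_an.Se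

theorem bsAll : BsStmt :=
  have hA := Lf.am cls (hyp cls)
  have hH := Lf.hx cls (hyp cls)
  bs bsA bsH (pushA Lf.ind hA hH) (pushH Lf.ind hA hH (pushA Lf.ind hA hH))

theorem hierOf (hM : MachStmt) : Un.HierStmt :=
  hier2 (ult fw (small fw) serre) (meas tr fw) (ab tr fw)
    (core ln (det tr fw) (env (pv bsAll) env2) hM asm
      (loop elim quad (qb drop cut starE starP (pcut starP))) (good (pan panA))
      (nf coh (baum fw (small fw)) genf) (bst bsAll))

end Pool.Agent.MP_494aff_an.Fr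

end MrgPart2

-- ======== part 3: formerly Pool.Agent.MP_494aff_an.fr.Exi
section MrgPart3

/-! Groups that contain a free group of rank two existentially. -/

namespace Pool.Agent.MP_494aff_an.Fr

open Pool.Agent.MP_494aff_an.Pinch Filter

/-- An isomorphism of groups gives an embedding of the ultrapowers. -/
lemma germ_map {A B : Type} [Group A] [Group B] (l : Filter ℕ) (e : A ≃* B) :
    ∃ ψ : Germ l A →* Germ l B, Function.Injective ψ := by
  refine ⟨MonoidHom.mk' (Germ.map e) fun x y => ?_, fun x y => ?_⟩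
  · induction x using Germ.inductionOn with | _ f =>
    induction y using Germ.inductionOn with | _ g =>
    rw [← Germ.coe_mul, Germ.map_coe, Germ.map_coe, Germ.map_coe, ← Germ.coe_mul]
    congr 1
    funext n
    simp
  · induction x using Germ.inductionOn with | _ f =>
    induction y using Germ.inductionOn with | _ g =>
    intro h
    simp only [MonoidHom.mk'_apply, Germ.map_coe, Germ.coe_eq] at h ⊢
    exact h.mono fun n hn => e.injective hn

lemma lim_of_exi {G : Type} [Group G] (U : Ultrafilter ℕ) (H : Subgroup G)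
    (e : H ≃* FreeGroup (Fin 2)) (φ : G →* Germ (U : Filter ℕ) H) (hφ : Function.Injective φ) :
    Lim G ∧ ∃ x y : G, x * y ≠ y * x := by
  obtain ⟨ψ, hψ⟩ := germ_map (U : Filter ℕ) e
  refine ⟨⟨U, ψ.comp φ, hψ.comp hφ⟩, e.symm (FreeGroup.of 0), e.symm (FreeGroup.of 1), fun h => ?_⟩
  have h1 : e.symm (FreeGroup.of 0) * e.symm (FreeGroup.of 1) =
      e.symm (FreeGroup.of 1) * e.symm (FreeGroup.of 0) := Subtype.ext h
  rw [← map_mul, ← map_mul] at h1
  exact absurd (e.symm.injective h1) (by decide)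

end Pool.Agent.MP_494aff_an.Fr

end MrgPart3

-- ======== part 4: formerly Pool.Agent.MP_494aff_an.fr.Full
section MrgPart4

/-! The full statement from the output of the machine. -/

namespace Pool.Agent.MP_494aff_an.Fr

open Pool.Agent.MP_494aff_an.Pinch

theorem fullOf (hM : MachStmt) (U : Ultrafilter ℕ) (G : Type) [Group G] [Countable G]
    (H : Subgroup G) (hH : Nonempty (H ≃* FreeGroup (Fin 2)))
    (φ : G →* Filter.Germ (U : Filter ℕ) H) (hφ : Function.Injective φ) :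
    VNIso G (FreeGroup ℕ) := by
  obtain ⟨e⟩ := hH
  obtain ⟨h1, h2⟩ := lim_of_exi U H e φ hφ
  exact Un.unionAll (hierOf hM) G inferInstance h1 h2

end Pool.Agent.MP_494aff_an.Fr

end MrgPart4

-- marker of a merged file
example : 731051 + 790087 = 731051 + 790087 := rfl

end MrgPart3

-- marker of a merged file
example : 731051 + 790087 = 731051 + 790087 := rfl
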