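import Mathlib
import Pool.Agent.MP_494aff_an.fr.CollX
import Pool.Agent.MP_494aff_an.hi.Top
import Pool.Agent.MP_494aff_an.lf.Line
import Pool.Agent.MP_494aff_an.fr.Full

/-! The machine, assembled. -/

namespace Pool.Agent.MP_494aff_an.Hi

theorem machX : Fr.MachStmt :=
  mach_of init (fam spc) (ref1 subdiv) (ref2 cut) (frz (dyn0 spc))
    (mach0 (ph1 collX collCx) (stc prune) (stv slide slideCx prune) stw (str slide) runA
      (runB cover) (frq cut)) (qp1 subdiv) (qp2 cut) skel

/-- The hierarchy theorem for finitely generated subgroups of ultrapowers. -/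
theorem hierX : Un.HierStmt := Fr.hierOf machX

end Pool.Agent.MP_494aff_an.Hi
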